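import Pool.Agent.Lib.MP_cbfcf7.T0

/-!
# Block A: the `T`-equivariant Artin theorem
-/

namespace MWC

noncomputable section

open scoped Classical

/-- the inclusion of the free group on the `y_i` into `G` -/
def iotaY : FreeGroup ℤ →* G := FreeGroup.lift yy

/-- `ell j` : `L_j = iotaY (ell j) * L_0` -/
def ell (j : ℤ) : FreeGroup ℤ :=
  if 0 ≤ j then (((List.range j.toNat).map fun i => FreeGroup.of (i : ℤ)).prod)⁻¹
  else ((List.range (-j).toNat).map fun i => FreeGroup.of (j + i : ℤ)).prod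

theorem aj1_ell (j : ℤ) : ell j =
    if 0 ≤ j then (((List.range j.toNat).map fun i : ℕ => FreeGroup.of (i : ℤ)).prod)⁻¹
    else ((List.range (-j).toNat).map fun i : ℕ => FreeGroup.of (j + i : ℤ)).prod := by
  unfold ell
  have h : ∀ l : List ℕ, (do let a ← l; pure (a : ℤ)) = l.map fun a : ℕ => (a : ℤ) := by
    intro l
    induction l with
    | nil => rfl
    | cons b l ih => simpa using ih
  rw [h, h, List.map_map, List.map_map]
  rfl

theorem ell_zero : ell 0 = 1 := by
  unfold ell
  simp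

theorem ell_succ (j : ℤ) : ell j = FreeGroup.of j * ell (j + 1) := by
  rw [aj1_ell, aj1_ell]
  rcases le_or_gt 0 j with h | h
  · rw [if_pos h, if_pos (by omega)]
    have h1 : (j + 1).toNat = j.toNat + 1 := by omega
    rw [h1, List.range_succ, List.map_append, List.prod_append]
    have h2 : ((j.toNat : ℕ) : ℤ) = j := Int.toNat_of_nonneg h
    simp only [List.map_cons, List.map_nil, List.prod_cons, List.prod_nil, mul_one, h2]
    rw [_root_.mul_inv_rev, mul_inv_cancel_left]
  · rw [if_neg (by omega)]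
    obtain ⟨m, hm⟩ : ∃ m : ℕ, (-j).toNat = m + 1 := ⟨(-j).toNat - 1, by omega⟩
    have hp : ((List.range (-j).toNat).map fun i : ℕ => FreeGroup.of (j + i : ℤ)).prod =
        FreeGroup.of j * ((List.range m).map fun i : ℕ => FreeGroup.of (j + 1 + i : ℤ)).prod := by
      rw [hm, List.range_succ_eq_map, List.map_cons, List.prod_cons, List.map_map]
      congr 1
      · simp
      · congr 1
        apply List.map_congr_left
        intro i _
        simp only [Function.comp_apply, Nat.succ_eq_add_one, Nat.cast_add, Nat.cast_one]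
        congr 1
        ring
    rw [hp]
    congr 1
    by_cases h0 : 0 ≤ j + 1
    · have hj : j = -1 := by omega
      have hm0 : m = 0 := by omega
      subst hj
      subst hm0
      simp
    · rw [if_neg h0]
      have : (-(j + 1)).toNat = m := by omega
      rw [this]

/-- a retraction of `iotaY` -/
def retY : G →* FreeGroup ℤ := FreeGroup.lift ell

theorem retY_iotaY (x : FreeGroup ℤ) : retY (iotaY x) = x := by
  have h : retY.comp iotaY = MonoidHom.id (FreeGroup ℤ) := by
    apply FreeGroup.ext_hom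
    intro i
    simp only [MonoidHom.comp_apply, MonoidHom.id_apply]
    unfold iotaY retY
    rw [FreeGroup.lift_apply_of]
    unfold yy gL
    rw [map_mul, map_inv, FreeGroup.lift_apply_of, FreeGroup.lift_apply_of, ell_succ i,
      mul_inv_cancel_right]
  exact DFunLike.congr_fun h x

theorem iotaY_ell (j : ℤ) : gL j = iotaY (ell j) * gL 0 := by
  have hy : ∀ i : ℤ, iotaY (ell i) * gL 0 = gL i * (gL (i + 1))⁻¹ * (iotaY (ell (i + 1)) * gL 0) := by
    intro i
    rw [ell_succ i, map_mul]
    unfold iotaY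
    rw [FreeGroup.lift_apply_of]
    unfold yy
    group
  induction j using Int.induction_on with
  | zero => rw [ell_zero, map_one, one_mul]
  | succ i ih =>
    have h := hy i
    rw [← ih] at h
    have h2 : (gL ((i : ℤ) + 1))⁻¹ * (iotaY (ell ((i : ℤ) + 1)) * gL 0) = 1 := by
      rw [mul_assoc] at h
      exact mul_left_cancel (h.symm.trans (mul_one _).symm)
    exact (inv_mul_eq_one.1 h2)
  | pred i ih =>
    have h := hy (-(i : ℤ) - 1)
    have e : -(i : ℤ) - 1 + 1 = -(i : ℤ) := by ring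
    rw [e, ← ih, inv_mul_cancel_right] at h
    exact h.symm

theorem mem_Fy_iff (g : G) : g ∈ Fy ↔ ∃ x, iotaY x = g := by
  have h : Fy = iotaY.range := by
    unfold Fy iotaY
    rw [FreeGroup.range_lift_eq_closure]
  rw [h, MonoidHom.mem_range]

/-- the shift by `k` on the free group on the `y_i` -/
def shF (k : ℤ) : MulAut (FreeGroup ℤ) := FreeGroup.freeGroupCongr (Equiv.addRight k)

theorem iotaY_shF (k : ℤ) (x : FreeGroup ℤ) : iotaY (shF k x) = shG k (iotaY x) := by
  have h : iotaY.comp (shF k).toMonoidHom = (shG k).toMonoidHom.comp iotaY := by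
    apply FreeGroup.ext_hom
    intro i
    have h1 : (shF k).toMonoidHom (FreeGroup.of i) = FreeGroup.of (i + k) := by
      show FreeGroup.freeGroupCongr (Equiv.addRight k) (FreeGroup.of i) = _
      simp
    have h2 : ∀ j : ℤ, (shG k).toMonoidHom (FreeGroup.of j) = FreeGroup.of (j + k) := by
      intro j
      show FreeGroup.freeGroupCongr (Equiv.addRight k) (FreeGroup.of j) = _
      simp
    rw [MonoidHom.comp_apply, MonoidHom.comp_apply, h1]
    unfold iotaY
    rw [FreeGroup.lift_apply_of, FreeGroup.lift_apply_of]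
    unfold yy gL
    rw [map_mul, map_inv, h2, h2]
    have e : i + k + 1 = i + 1 + k := by ring
    rw [e]
  exact DFunLike.congr_fun h x

/-- product `y_0 ⋯ y_{m-1}` -/
def yprod (m : ℕ) : FreeGroup ℤ := ((List.range m).map fun i => FreeGroup.of (i : ℤ)).prod

theorem aj2_redSub {u v : List (ℤ × Bool)} (h : FreeGroup.IsReduced v) (hs : u <:+: v) :
    FreeGroup.IsReduced u := by
  obtain ⟨s, t, rfl⟩ := hs
  exact List.IsChain.right_of_append (List.IsChain.left_of_append h)

theorem aj2_aux1 (L : List (ℤ × Bool)) (hL : FreeGroup.IsReduced L) (p : ℤ)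
    (hlast : ∀ q ∈ L.getLast?, q.1 ≠ p) :
    FreeGroup.IsReduced (L ++ [(p, true)] ++ FreeGroup.invRev L) := by
  have hinv : FreeGroup.IsReduced (FreeGroup.invRev L) := by
    have h1 : ((FreeGroup.mk L)⁻¹).toWord = FreeGroup.invRev L := by
      rw [FreeGroup.toWord_inv, FreeGroup.toWord_mk, hL.reduce_eq]
    rw [← h1]
    exact FreeGroup.isReduced_toWord
  apply FreeGroup.IsReduced.append_overlap
  · rw [FreeGroup.IsReduced, List.isChain_append]
    refine ⟨hL, FreeGroup.IsReduced.singleton, ?_⟩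
    intro x hx y hy h
    simp only [List.head?_cons, Option.mem_def, Option.some.injEq] at hy
    subst hy
    exact absurd h (hlast x hx)
  · rw [FreeGroup.IsReduced, List.isChain_append]
    refine ⟨FreeGroup.IsReduced.singleton, hinv, ?_⟩
    intro x hx y hy h
    simp only [List.getLast?_singleton, Option.mem_def, Option.some.injEq] at hx
    subst hx
    rw [FreeGroup.invRev, List.head?_reverse, List.getLast?_map] at hy
    rw [Option.mem_def, Option.map_eq_some_iff] at hy
    obtain ⟨q, hq, rfl⟩ := hy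
    exact absurd h.symm (hlast q hq)
  · simp

theorem exists_reduced_conj (a : FreeGroup ℤ) (A : FreeGroup ℤ) (p : ℤ)
    (h : a = A * FreeGroup.of p * A⁻¹) :
    ∃ A' : FreeGroup ℤ, a = A' * FreeGroup.of p * A'⁻¹ ∧
      a.toWord = A'.toWord ++ [(p, true)] ++ (A'⁻¹).toWord := by
  subst h
  obtain ⟨m, hm⟩ : ∃ m, A.toWord.length = m := ⟨_, rfl⟩
  induction m using Nat.strong_induction_on generalizing A with
  | _ m ih =>
    by_cases hlast : ∀ q ∈ A.toWord.getLast?, q.1 ≠ p
    · refine ⟨A, rfl, ?_⟩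
      have h1 := aj2_aux1 A.toWord FreeGroup.isReduced_toWord p hlast
      have h2 : A * FreeGroup.of p * A⁻¹
          = FreeGroup.mk (A.toWord ++ [(p, true)] ++ FreeGroup.invRev A.toWord) := by
        rw [← FreeGroup.mul_mk, ← FreeGroup.mul_mk, FreeGroup.mk_toWord, ← FreeGroup.inv_mk,
          FreeGroup.mk_toWord]
        rfl
      rw [h2, FreeGroup.toWord_mk, h1.reduce_eq, FreeGroup.toWord_inv]
    · push Not at hlast
      obtain ⟨q, hq, hqp⟩ := hlast
      obtain ⟨L0, hL0⟩ : ∃ L0, A.toWord = L0 ++ [q] := by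
        rw [Option.mem_def, List.getLast?_eq_some_iff] at hq
        exact hq
      have hA : A = FreeGroup.mk L0 * FreeGroup.mk [q] := by
        rw [FreeGroup.mul_mk, ← hL0, FreeGroup.mk_toWord]
      have hred : FreeGroup.IsReduced L0 := by
        have := FreeGroup.isReduced_toWord (x := A)
        rw [hL0] at this
        exact aj2_redSub this ⟨[], [q], by simp⟩
      have hw : (FreeGroup.mk L0).toWord = L0 := by
        rw [FreeGroup.toWord_mk, hred.reduce_eq]
      have hcomm : FreeGroup.mk [q] * FreeGroup.of p * (FreeGroup.mk [q])⁻¹ = FreeGroup.of p := by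
        obtain ⟨q1, q2⟩ := q
        simp only at hqp
        subst hqp
        cases q2 with
        | true =>
          have : (FreeGroup.mk [(q1, true)] : FreeGroup ℤ) = FreeGroup.of q1 := rfl
          rw [this]
          group
        | false =>
          have : (FreeGroup.mk [(q1, false)] : FreeGroup ℤ) = (FreeGroup.of q1)⁻¹ := by
            rw [FreeGroup.of, FreeGroup.inv_mk]
            rfl
          rw [this]
          group
      have h3 : A * FreeGroup.of p * A⁻¹
          = FreeGroup.mk L0 * FreeGroup.of p * (FreeGroup.mk L0)⁻¹ := by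
        conv_rhs => rw [← hcomm]
        rw [hA]
        group
      rw [h3]
      apply ih (m - 1) _ (FreeGroup.mk L0)
      · rw [hw]
        have : A.toWord.length = L0.length + 1 := by rw [hL0]; simp
        omega
      · have : A.toWord.length = L0.length + 1 := by rw [hL0]; simp
        omega

theorem aj3_do (N : ℕ) : (do let a ← List.range N; pure (a : ℤ) : List ℤ) =
    (List.range N).map fun i : ℕ => (i : ℤ) := by
  rw [List.map_eq_flatMap]
  rfl

theorem aj3_yprod (N : ℕ) :
    yprod N = ((List.range N).map fun i : ℕ => FreeGroup.of (i : ℤ)).prod := by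
  unfold yprod
  rw [aj3_do, List.map_map]
  rfl

theorem aj3_hY (a : ℤ → FreeGroup ℤ) (N : ℕ) : ((List.range N).map fun i => a (i : ℤ)).prod =
    ((List.range N).map fun i : ℕ => a (i : ℤ)).prod := by
  rw [aj3_do, List.map_map]
  rfl

theorem aj3_shF_mk (k : ℤ) (L : List (ℤ × Bool)) :
    shF k (FreeGroup.mk L) = FreeGroup.mk (L.map fun z => (z.1 + k, z.2)) := by
  rfl

theorem aj3_shF_toWord (k : ℤ) (x : FreeGroup ℤ) :
    (shF k x).toWord = x.toWord.map fun z => (z.1 + k, z.2) := by
  have h1 : shF k x = FreeGroup.mk (x.toWord.map fun z => (z.1 + k, z.2)) := by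
    conv_lhs => rw [← FreeGroup.mk_toWord (x := x)]
    rw [aj3_shF_mk]
  rw [h1, FreeGroup.toWord_mk]
  apply FreeGroup.IsReduced.reduce_eq
  have h2 : FreeGroup.IsReduced x.toWord := FreeGroup.isReduced_toWord
  unfold FreeGroup.IsReduced at h2 ⊢
  rw [List.isChain_map]
  refine h2.imp ?_
  intro u v huv h
  apply huv
  simpa using h

theorem aj3_shF_norm (k : ℤ) (x : FreeGroup ℤ) : (shF k x).norm = x.norm := by
  unfold FreeGroup.norm
  rw [aj3_shF_toWord]
  simp

theorem aj3_invRev_red {L : List (ℤ × Bool)} (h : FreeGroup.IsReduced L) :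
    FreeGroup.IsReduced (FreeGroup.invRev L) := by
  rw [FreeGroup.isReduced_iff_reduce_eq] at h ⊢
  rw [FreeGroup.reduce_invRev, h]

theorem aj3_pref : ∀ (u v : List (ℤ × Bool)), FreeGroup.IsReduced u → FreeGroup.IsReduced v →
    ∃ p q r, u = p ++ q ∧ v = p ++ r ∧ FreeGroup.IsReduced (FreeGroup.invRev q ++ r) := by
  intro u
  induction u with
  | nil =>
    intro v _ hv
    exact ⟨[], [], v, rfl, rfl, by simpa using hv⟩
  | cons a u ih =>
    intro v hu hv
    cases v with
    | nil => exact ⟨[], a :: u, [], rfl, rfl, by simpa using aj3_invRev_red hu⟩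
    | cons b v =>
      by_cases hab : a = b
      · subst hab
        have hu' : FreeGroup.IsReduced u := aj2_redSub hu (List.infix_cons List.infix_rfl)
        have hv' : FreeGroup.IsReduced v := aj2_redSub hv (List.infix_cons List.infix_rfl)
        obtain ⟨p, q, r, e1, e2, e3⟩ := ih v hu' hv'
        exact ⟨a :: p, q, r, by rw [e1]; rfl, by rw [e2]; rfl, e3⟩
      · refine ⟨[], a :: u, b :: v, rfl, rfl, ?_⟩
        rw [FreeGroup.invRev_cons]
        apply FreeGroup.IsReduced.append_overlap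
        · rw [← FreeGroup.invRev_cons]
          exact aj3_invRev_red hu
        · have e : FreeGroup.invRev [a] ++ b :: v = (a.1, !a.2) :: b :: v := by
            simp [FreeGroup.invRev]
          rw [e, FreeGroup.isReduced_cons_cons]
          refine ⟨?_, hv⟩
          intro h
          simp only at h
          have h2 : a.2 ≠ b.2 := fun h2 => hab (Prod.ext h h2)
          cases ha : a.2 <;> cases hb : b.2 <;> simp_all
        · simp [FreeGroup.invRev]

theorem aj3_first {X Y : FreeGroup ℤ} {y : ℤ} {b : Bool} {t : List (ℤ × Bool)}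
    (h : FreeGroup.IsReduced ((y, b) :: (X⁻¹).toWord))
    (ht : (X⁻¹ * Y).toWord = (y, !b) :: t) : Y.toWord = X.toWord ++ (y, !b) :: t := by
  obtain ⟨p, q, r, e1, e2, e3⟩ := aj3_pref X.toWord Y.toWord FreeGroup.isReduced_toWord
    FreeGroup.isReduced_toWord
  have h1 : X⁻¹ * Y = FreeGroup.mk (FreeGroup.invRev q ++ r) := by
    rw [← FreeGroup.mk_toWord (x := X), ← FreeGroup.mk_toWord (x := Y), e1, e2,
      ← FreeGroup.mul_mk, ← FreeGroup.mul_mk, ← FreeGroup.mul_mk, ← FreeGroup.inv_mk]
    group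
  have h2 : (X⁻¹ * Y).toWord = FreeGroup.invRev q ++ r := by
    rw [h1, FreeGroup.toWord_mk, e3.reduce_eq]
  rcases List.eq_nil_or_concat q with hq | ⟨q', z, hq⟩
  · subst hq
    have h3 : r = (y, !b) :: t := by
      rw [← ht, h2]
      simp
    rw [e2, e1, h3]
    simp
  · exfalso
    subst hq
    rw [ht] at h2
    have h3 : FreeGroup.invRev (q'.concat z) = (z.1, !z.2) :: FreeGroup.invRev q' := by
      simp [FreeGroup.invRev]
    rw [h3] at h2
    have h4 : (y, !b) = (z.1, !z.2) := by
      have := congrArg List.head? h2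
      simpa using this
    have h5 : (X⁻¹).toWord = (z.1, !z.2) :: (FreeGroup.invRev q' ++ FreeGroup.invRev p) := by
      rw [FreeGroup.toWord_inv, e1, FreeGroup.invRev_append, h3]
      rfl
    rw [h5, FreeGroup.isReduced_cons_cons, ← h4] at h
    have := h.1 rfl
    cases b <;> simp at this

theorem aj3_dec {X Y : FreeGroup ℤ} {y : ℤ} {b : Bool} {t : List (ℤ × Bool)} (q : ℤ)
    (h : FreeGroup.IsReduced ((y, b) :: (X⁻¹).toWord))
    (ht : (X⁻¹ * Y).toWord = (y, !b) :: t) :
    ((X * FreeGroup.mk [(y, b)] * X⁻¹) * (Y * FreeGroup.of q * Y⁻¹) *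
      (X * FreeGroup.mk [(y, b)] * X⁻¹)⁻¹).norm < 2 * Y.norm + 1 := by
  have h1 := aj3_first h ht
  have h2 : X⁻¹ * Y = FreeGroup.mk [(y, !b)] * FreeGroup.mk t := by
    rw [FreeGroup.mul_mk, ← FreeGroup.mk_toWord (x := X⁻¹ * Y), ht]
    rfl
  have h3 : FreeGroup.mk [(y, b)] * FreeGroup.mk [(y, !b)] = 1 := by
    rw [FreeGroup.mul_mk, ← FreeGroup.toWord_eq_nil_iff, FreeGroup.toWord_mk]
    simp
  have h4 : X * FreeGroup.mk [(y, b)] * X⁻¹ * Y = X * FreeGroup.mk t := by
    calc X * FreeGroup.mk [(y, b)] * X⁻¹ * Y = X * (FreeGroup.mk [(y, b)] * (X⁻¹ * Y)) := by group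
      _ = X * ((FreeGroup.mk [(y, b)] * FreeGroup.mk [(y, !b)]) * FreeGroup.mk t) := by
        rw [h2]
        group
      _ = X * FreeGroup.mk t := by rw [h3, one_mul]
  have h5 : ((X * FreeGroup.mk [(y, b)] * X⁻¹) * (Y * FreeGroup.of q * Y⁻¹) *
      (X * FreeGroup.mk [(y, b)] * X⁻¹)⁻¹) =
      (X * FreeGroup.mk t) * FreeGroup.of q * (X * FreeGroup.mk t)⁻¹ := by
    rw [← h4]
    group
  rw [h5]
  have h6 : (X * FreeGroup.mk t).norm ≤ X.norm + t.length :=
    (FreeGroup.norm_mul_le _ _).trans (Nat.add_le_add_left FreeGroup.norm_mk_le _)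
  have h7 : Y.norm = X.norm + (t.length + 1) := by
    unfold FreeGroup.norm
    rw [h1]
    simp
  have h8 := FreeGroup.norm_mul_le ((X * FreeGroup.mk t) * FreeGroup.of q) (X * FreeGroup.mk t)⁻¹
  have h9 := FreeGroup.norm_mul_le (X * FreeGroup.mk t) (FreeGroup.of q)
  rw [FreeGroup.norm_inv_eq] at h8
  rw [FreeGroup.norm_of] at h9
  omega

/-- words of the first products -/
def aj3V (X : ℕ → FreeGroup ℤ) (p : ℕ → ℤ) : ℕ → List (ℤ × Bool)
  | 0 => []
  | m + 1 => aj3V X p m ++ (X m).toWord ++ [(p m, true)]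

theorem aj3V_len (X : ℕ → FreeGroup ℤ) (p : ℕ → ℤ) (m : ℕ) :
    (aj3V X p m).length = m + ∑ i ∈ Finset.range m, (X i).norm := by
  induction m with
  | zero => simp [aj3V]
  | succ m ih =>
    rw [Finset.sum_range_succ, aj3V]
    simp only [List.length_append, ih, List.length_singleton]
    unfold FreeGroup.norm
    omega

theorem aj3_pos_red : ∀ L : List (ℤ × Bool), (∀ x ∈ L, x.2 = true) → FreeGroup.IsReduced L := by
  intro L
  induction L with
  | nil => intro _; exact FreeGroup.IsReduced.nil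
  | cons a L ih =>
    intro h
    cases L with
    | nil => exact FreeGroup.IsReduced.singleton
    | cons b L =>
      rw [FreeGroup.isReduced_cons_cons]
      refine ⟨?_, ih fun x hx => h x (List.mem_cons_of_mem _ hx)⟩
      intro _
      rw [h a (by simp), h b (by simp)]

theorem aj3_prod_of (f : ℕ → ℤ) (N : ℕ) :
    ((List.range N).map fun i => FreeGroup.of (f i)).prod =
      FreeGroup.mk ((List.range N).map fun i => (f i, true)) := by
  induction N with
  | zero => rfl
  | succ N ih =>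
    rw [List.range_succ, List.map_append, List.map_append, List.prod_append, ih,
      ← FreeGroup.mul_mk]
    simp [FreeGroup.of]

theorem aj3_left_aux (L : List (ℤ × Bool)) (hL : FreeGroup.IsReduced L) :
    ∀ u : List (ℤ × Bool), ∃ pre, FreeGroup.reduce (u ++ L) = pre ++ L.drop u.length := by
  intro u
  induction u with
  | nil => exact ⟨[], by simpa using hL.reduce_eq⟩
  | cons x u ih =>
    obtain ⟨pre, hpre⟩ := ih
    have key : FreeGroup.reduce (x :: (u ++ L)) = x :: FreeGroup.reduce (u ++ L) ∨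
        FreeGroup.reduce (x :: (u ++ L)) = (FreeGroup.reduce (u ++ L)).tail := by
      rw [FreeGroup.reduce.cons]
      cases hr : FreeGroup.reduce (u ++ L) with
      | nil => left; rfl
      | cons a t =>
        by_cases hc : x.1 = a.1 ∧ x.2 = !a.2
        · right; simp [hc]
        · left; simp [hc]
    have hd : ∀ pre' : List (ℤ × Bool), ∃ pre'', pre' ++ L.drop u.length =
        pre'' ++ L.drop (u.length + 1) := by
      intro pre'
      refine ⟨pre' ++ (L.drop u.length).take 1, ?_⟩
      rw [List.append_assoc]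
      congr 1
      rw [← List.drop_drop]
      exact (List.take_append_drop 1 _).symm
    rw [List.cons_append, List.length_cons]
    rcases key with h | h
    · rw [h, hpre]
      exact hd (x :: pre)
    · rw [h, hpre]
      cases pre with
      | nil =>
        refine ⟨[], ?_⟩
        simp [List.tail_drop]
      | cons a pre => exact hd pre

theorem aj3_left (g : FreeGroup ℤ) (L : List (ℤ × Bool)) (hL : FreeGroup.IsReduced L) :
    ∃ pre, (g * FreeGroup.mk L).toWord = pre ++ L.drop g.norm := by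
  obtain ⟨pre, h⟩ := aj3_left_aux L hL g.toWord
  refine ⟨pre, ?_⟩
  rw [← FreeGroup.mk_toWord (x := g), FreeGroup.mul_mk, FreeGroup.toWord_mk, h,
    FreeGroup.mk_toWord]
  rfl

theorem aj3_right (g : FreeGroup ℤ) (L : List (ℤ × Bool)) (hL : FreeGroup.IsReduced L) :
    ∃ post, (FreeGroup.mk L * g).toWord = L.take (L.length - g.norm) ++ post := by
  obtain ⟨pre, h⟩ := aj3_left g⁻¹ (FreeGroup.invRev L) (aj3_invRev_red hL)
  refine ⟨FreeGroup.invRev pre, ?_⟩
  have h1 : FreeGroup.mk L * g = (g⁻¹ * FreeGroup.mk (FreeGroup.invRev L))⁻¹ := by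
    rw [← FreeGroup.inv_mk]
    group
  rw [h1, FreeGroup.toWord_inv, h, FreeGroup.invRev_append, FreeGroup.norm_inv_eq]
  congr 1
  simp [FreeGroup.invRev, List.drop_reverse, List.map_take, List.map_reverse, Function.comp_def]

/-- CORE of the Artin theorem -/
theorem artin_core (n : ℕ) (hn : 2 ≤ n) (a A : ℤ → FreeGroup ℤ) (p : ℤ → ℤ)
    (hA : ∀ i, a i = A i * FreeGroup.of (p i) * (A i)⁻¹)
    (hT : ∀ i, a (i + n) = shF n (a i)) (w : FreeGroup ℤ)
    (hY : ∀ l : ℕ, ((List.range (l * n)).map fun i => a (i : ℤ)).prod =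
      w * yprod (l * n) * (shF (l * n) w)⁻¹) :
    (∃ i : ℤ, (a (i - 1) * a i * (a (i - 1))⁻¹).norm < (a i).norm ∨
      ((a i)⁻¹ * a (i - 1) * a i).norm < (a (i - 1)).norm) ∨
    (∃ k : ℤ, ∀ i, a i = FreeGroup.of (i + k)) := by
  classical
  replace hY : ∀ l : ℕ, ((List.range (l * n)).map fun i : ℕ => a (i : ℤ)).prod =
      w * yprod (l * n) * (shF (l * n) w)⁻¹ := by
    intro l
    rw [← hY l, aj3_hY]
  -- reduced representatives
  have hred : ∀ i, ∃ A' : FreeGroup ℤ, a i = A' * FreeGroup.of (p i) * A'⁻¹ ∧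
      (a i).toWord = A'.toWord ++ [(p i, true)] ++ (A'⁻¹).toWord := fun i =>
    exists_reduced_conj (a i) (A i) (p i) (hA i)
  choose B hB hBw using hred
  clear hA A
  have hnorm : ∀ i, (a i).norm = 2 * (B i).norm + 1 := by
    intro i
    have := FreeGroup.norm_inv_eq (x := B i)
    unfold FreeGroup.norm at this ⊢
    rw [hBw i]
    simp only [List.length_append, List.length_singleton]
    omega
  have hper : ∀ i, B (i + n) = shF n (B i) ∧ p (i + n) = p i + n := by
    intro i
    have h1 := hBw (i + n)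
    rw [hT i, aj3_shF_toWord, hBw i, List.map_append, List.map_append, List.append_assoc,
      List.append_assoc] at h1
    have h2 : (B (i + n)).norm = (B i).norm := by
      have e1 := hnorm (i + n)
      rw [hT i, aj3_shF_norm, hnorm i] at e1
      omega
    have h3 := List.append_inj h1 (by
      rw [List.length_map]
      exact h2.symm)
    constructor
    · apply FreeGroup.toWord_injective
      rw [aj3_shF_toWord]
      exact h3.1.symm
    · have h4 := h3.2
      simp only [List.map_cons, List.map_nil, List.singleton_append, List.cons.injEq,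
        Prod.mk.injEq] at h4
      exact h4.1.1.symm
  by_cases hdec : ∃ i : ℤ, (a (i - 1) * a i * (a (i - 1))⁻¹).norm < (a i).norm ∨
      ((a i)⁻¹ * a (i - 1) * a i).norm < (a (i - 1)).norm
  · exact Or.inl hdec
  right
  push Not at hdec
  -- junctions
  have hRr : ∀ i, FreeGroup.IsReduced ((p i, true) :: ((B i)⁻¹).toWord) := by
    intro i
    have h1 : FreeGroup.IsReduced (a i).toWord := FreeGroup.isReduced_toWord
    rw [hBw i] at h1
    refine aj2_redSub h1 ?_
    refine ⟨(B i).toWord, [], ?_⟩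
    simp
  have hRl : ∀ i, FreeGroup.IsReduced ((B i).toWord ++ [(p i, true)]) := by
    intro i
    have h1 : FreeGroup.IsReduced (a i).toWord := FreeGroup.isReduced_toWord
    rw [hBw i] at h1
    refine aj2_redSub h1 ?_
    refine ⟨[], ((B i)⁻¹).toWord, ?_⟩
    simp
  have hRf : ∀ i, FreeGroup.IsReduced ((p i, false) :: ((B i)⁻¹).toWord) := by
    intro i
    have h1 := aj3_invRev_red (hRl i)
    rw [FreeGroup.invRev_append] at h1
    rw [FreeGroup.toWord_inv]
    simpa [FreeGroup.invRev] using h1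
  have hJ1 : ∀ i : ℤ, ∀ t, ((B (i - 1))⁻¹ * B i).toWord ≠ (p (i - 1), false) :: t := by
    intro i t ht
    have h1 := aj3_dec (X := B (i - 1)) (Y := B i) (y := p (i - 1)) (b := true) (t := t) (p i)
      (hRr (i - 1)) ht
    have h2 := (hdec i).1
    rw [hnorm i] at h2
    have h3 : FreeGroup.mk [(p (i - 1), true)] = FreeGroup.of (p (i - 1)) := rfl
    rw [h3, ← hB i, ← hB (i - 1)] at h1
    omega
  have hJ2 : ∀ i : ℤ, ∀ t, ((B i)⁻¹ * B (i - 1)).toWord ≠ (p i, true) :: t := by
    intro i t ht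
    have h1 := aj3_dec (X := B i) (Y := B (i - 1)) (y := p i) (b := false) (t := t) (p (i - 1))
      (hRf i) ht
    have h2 := (hdec i).2
    rw [hnorm (i - 1)] at h2
    have h3 : FreeGroup.mk [(p i, false)] = (FreeGroup.of (p i))⁻¹ := rfl
    have h4 : B i * FreeGroup.mk [(p i, false)] * (B i)⁻¹ = (a i)⁻¹ := by
      rw [h3, hB i]
      group
    rw [h4, ← hB (i - 1), inv_inv] at h1
    omega
  -- the junction lemma
  have hJ : ∀ i : ℤ, FreeGroup.IsReduced ((p (i - 1), true) ::
      (((B (i - 1))⁻¹ * B i).toWord ++ [(p i, true)])) := by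
    intro i
    set W := (B (i - 1))⁻¹ * B i with hW
    have hWi : W⁻¹ = (B i)⁻¹ * B (i - 1) := by
      rw [hW]
      group
    by_cases hW1 : W.toWord = []
    · rw [hW1]
      exact aj3_pos_red _ (by simp)
    · have e1 : (p (i - 1), true) :: (W.toWord ++ [(p i, true)]) =
          [(p (i - 1), true)] ++ W.toWord ++ [(p i, true)] := by simp
      rw [e1]
      apply FreeGroup.IsReduced.append_overlap _ _ hW1
      · cases hc : W.toWord with
        | nil => exact absurd hc hW1
        | cons z t =>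
          have hz : FreeGroup.IsReduced (z :: t) := by
            rw [← hc]
            exact FreeGroup.isReduced_toWord
          rw [List.singleton_append, FreeGroup.isReduced_cons_cons]
          refine ⟨?_, hz⟩
          intro h
          simp only at h
          by_contra hne
          have hz2 : z = (p (i - 1), false) := by
            apply Prod.ext
            · exact h.symm
            · simpa using hne
          exact hJ1 i t (by rw [← hW, hc, hz2])
      · have e2 : FreeGroup.IsReduced (FreeGroup.invRev (W.toWord ++ [(p i, true)])) := by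
          rw [FreeGroup.invRev_append, ← FreeGroup.toWord_inv]
          have e3 : FreeGroup.invRev [(p i, true)] = [(p i, false)] := by
            simp [FreeGroup.invRev]
          rw [e3, List.singleton_append]
          cases hc : (W⁻¹).toWord with
          | nil => exact FreeGroup.IsReduced.singleton
          | cons z t =>
            have hz : FreeGroup.IsReduced (z :: t) := by
              rw [← hc]
              exact FreeGroup.isReduced_toWord
            rw [FreeGroup.isReduced_cons_cons]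
            refine ⟨?_, hz⟩
            intro h
            simp only at h
            by_contra hne
            have hz2 : z = (p i, true) := by
              apply Prod.ext
              · exact h.symm
              · simpa using hne
            exact hJ2 i t (by rw [← hWi, hc, hz2])
        have e4 := aj3_invRev_red e2
        rwa [FreeGroup.invRev_invRev] at e4
  -- the words
  let X : ℕ → FreeGroup ℤ := fun m => match m with
    | 0 => B 0
    | m + 1 => (B (m : ℤ))⁻¹ * B ((m : ℤ) + 1)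
  let P : ℕ → ℤ := fun m => p (m : ℤ)
  have hX0 : X 0 = B 0 := rfl
  have hXs : ∀ m : ℕ, X (m + 1) = (B (m : ℤ))⁻¹ * B ((m : ℤ) + 1) := fun m => rfl
  have hJX : ∀ m : ℕ, FreeGroup.IsReduced ((P m, true) ::
      ((X (m + 1)).toWord ++ [(P (m + 1), true)])) := by
    intro m
    have h1 := hJ ((m : ℤ) + 1)
    have e1 : (m : ℤ) + 1 - 1 = m := by ring
    rw [e1] at h1
    rw [hXs m]
    have e2 : P (m + 1) = p ((m : ℤ) + 1) := by
      change p ((m + 1 : ℕ) : ℤ) = _
      push_cast
      rfl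
    rw [e2]
    exact h1
  have hV1 : ∀ m : ℕ, FreeGroup.IsReduced (aj3V X P (m + 1)) := by
    intro m
    induction m with
    | zero =>
      change FreeGroup.IsReduced ([] ++ (X 0).toWord ++ [(P 0, true)])
      rw [List.nil_append, hX0]
      exact hRl 0
    | succ m ih =>
      change FreeGroup.IsReduced (aj3V X P (m + 1) ++ (X (m + 1)).toWord ++ [(P (m + 1), true)])
      have e1 : aj3V X P (m + 1) ++ (X (m + 1)).toWord ++ [(P (m + 1), true)] =
          (aj3V X P m ++ (X m).toWord) ++ [(P m, true)] ++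
            ((X (m + 1)).toWord ++ [(P (m + 1), true)]) := by
        change (aj3V X P m ++ (X m).toWord ++ [(P m, true)]) ++ (X (m + 1)).toWord ++
          [(P (m + 1), true)] = _
        simp
      rw [e1]
      apply FreeGroup.IsReduced.append_overlap _ _ (by simp)
      · exact ih
      · exact hJX m
  have hV2 : ∀ m : ℕ, FreeGroup.mk (aj3V X P (m + 1)) =
      ((List.range (m + 1)).map fun i : ℕ => a (i : ℤ)).prod * B (m : ℤ) := by
    intro m
    induction m with
    | zero =>
      change FreeGroup.mk ([] ++ (X 0).toWord ++ [(P 0, true)]) = _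
      rw [List.nil_append, hX0, ← FreeGroup.mul_mk, FreeGroup.mk_toWord]
      have e1 : FreeGroup.mk [(P 0, true)] = FreeGroup.of (p 0) := rfl
      rw [e1]
      have e2 : ((List.range (0 + 1)).map fun i : ℕ => a (i : ℤ)).prod = a 0 := by
        simp
      rw [e2, hB 0, Nat.cast_zero]
      group
    | succ m ih =>
      change FreeGroup.mk (aj3V X P (m + 1) ++ (X (m + 1)).toWord ++ [(P (m + 1), true)]) = _
      rw [← FreeGroup.mul_mk, ← FreeGroup.mul_mk, FreeGroup.mk_toWord, ih, hXs m,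
        List.range_succ (n := m + 1), List.map_append, List.prod_append]
      have e1 : FreeGroup.mk [(P (m + 1), true)] = FreeGroup.of (p ((m : ℤ) + 1)) := by
        change FreeGroup.of (p ((m + 1 : ℕ) : ℤ)) = _
        push_cast
        rfl
      rw [e1]
      simp only [List.map_cons, List.map_nil, List.prod_singleton]
      push_cast
      rw [hB ((m : ℤ) + 1)]
      group
  have hV3 : ∀ m : ℕ, (((List.range (m + 1)).map fun i : ℕ => a (i : ℤ)).prod).toWord =
      aj3V X P (m + 1) ++ ((B (m : ℤ))⁻¹).toWord := by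
    intro m
    have e1 : ((List.range (m + 1)).map fun i : ℕ => a (i : ℤ)).prod =
        FreeGroup.mk (aj3V X P (m + 1) ++ ((B (m : ℤ))⁻¹).toWord) := by
      rw [← FreeGroup.mul_mk, FreeGroup.mk_toWord, hV2 m]
      group
    rw [e1, FreeGroup.toWord_mk]
    apply FreeGroup.IsReduced.reduce_eq
    change FreeGroup.IsReduced ((aj3V X P m ++ (X m).toWord) ++ [(P m, true)] ++ _)
    apply FreeGroup.IsReduced.append_overlap _ _ (by simp)
    · exact hV1 m
    · exact hRr (m : ℤ)
  have hYn : ∀ N : ℕ, (yprod N).norm ≤ N := by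
    intro N
    rw [aj3_yprod, aj3_prod_of (fun i : ℕ => (i : ℤ)) N]
    refine FreeGroup.norm_mk_le.trans ?_
    simp
  have hsum : ∀ l : ℕ, ∑ i ∈ Finset.range (l * n), (X i).norm ≤ 2 * w.norm := by
    intro l
    rcases Nat.eq_zero_or_pos (l * n) with h0 | h0
    · rw [h0]
      simp
    · obtain ⟨m, hm⟩ : ∃ m, l * n = m + 1 := ⟨l * n - 1, by omega⟩
      have h1 := hV3 m
      rw [← hm, hY l] at h1
      have h2 := congrArg List.length h1
      rw [List.length_append, aj3V_len] at h2
      have h3 := FreeGroup.norm_mul_le (w * yprod (l * n)) (shF (l * n) w)⁻¹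
      have h4 := FreeGroup.norm_mul_le w (yprod (l * n))
      have h5 := hYn (l * n)
      rw [FreeGroup.norm_inv_eq, aj3_shF_norm] at h3
      have h6 : (w * yprod (l * n) * (shF (l * n) w)⁻¹).norm =
        (w * yprod (l * n) * (shF (l * n) w)⁻¹).toWord.length := rfl
      rw [h6] at h3
      omega
  have hXper : ∀ j k : ℕ, (X (j + 1 + k * n)).norm = (X (j + 1)).norm := by
    intro j k
    induction k with
    | zero => simp
    | succ k ih =>
      rw [← ih]
      have e1 : j + 1 + (k + 1) * n = (j + k * n + n) + 1 := by ring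
      have e2 : j + 1 + k * n = (j + k * n) + 1 := by ring
      rw [e1, e2, hXs, hXs]
      have e3 : ((j + k * n + n : ℕ) : ℤ) = ((j + k * n : ℕ) : ℤ) + n := by push_cast; ring
      have e4 : ((j + k * n + n : ℕ) : ℤ) + 1 = (((j + k * n : ℕ) : ℤ) + 1) + n := by
        push_cast; ring
      rw [e4, e3, (hper _).1, (hper _).1, ← map_inv, ← map_mul, aj3_shF_norm]
  have hX1 : ∀ j : ℕ, X (j + 1) = 1 := by
    intro j
    by_contra hne
    have hpos : 1 ≤ (X (j + 1)).norm := by
      rcases Nat.eq_zero_or_pos (X (j + 1)).norm with h | h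
      · exact absurd (FreeGroup.norm_eq_zero.1 h) hne
      · exact h
    have h1 := hsum (j + 1 + (2 * w.norm + 1))
    have h2 : ((Finset.range (2 * w.norm + 1)).image fun k => j + 1 + k * n) ⊆
        Finset.range ((j + 1 + (2 * w.norm + 1)) * n) := by
      intro x hx
      rw [Finset.mem_image] at hx
      obtain ⟨k, hk, rfl⟩ := hx
      rw [Finset.mem_range] at hk ⊢
      have : (k + 1) * n ≤ (2 * w.norm + 1) * n := Nat.mul_le_mul_right n hk
      have h3 : j + 1 ≤ (j + 1) * n := Nat.le_mul_of_pos_right _ (by omega)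
      have h4 : (j + 1 + (2 * w.norm + 1)) * n = (j + 1) * n + (2 * w.norm + 1) * n := by ring
      have h5 : (k + 1) * n = k * n + n := by ring
      rw [h4]
      omega
    have h3 : ∑ i ∈ ((Finset.range (2 * w.norm + 1)).image fun k => j + 1 + k * n), (X i).norm ≤
        ∑ i ∈ Finset.range ((j + 1 + (2 * w.norm + 1)) * n), (X i).norm :=
      Finset.sum_le_sum_of_subset h2
    rw [Finset.sum_image] at h3
    · have h4 : ∑ k ∈ Finset.range (2 * w.norm + 1), 1 ≤
          ∑ k ∈ Finset.range (2 * w.norm + 1), (X (j + 1 + k * n)).norm := by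
        apply Finset.sum_le_sum
        intro k _
        rw [hXper]
        exact hpos
      rw [Finset.sum_const, Finset.card_range, smul_eq_mul, mul_one] at h4
      omega
    · intro x _ y _ hxy
      simp only at hxy
      have h4 : x * n = y * n := by omega
      exact Nat.eq_of_mul_eq_mul_right (by omega) h4
  have hB0 : ∀ j : ℕ, B (j : ℤ) = B 0 := by
    intro j
    induction j with
    | zero => rfl
    | succ j ih =>
      have h1 := hX1 j
      rw [hXs j] at h1
      have h2 : B (j : ℤ) = B ((j : ℤ) + 1) := by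
        have := congrArg (fun x => B (j : ℤ) * x) h1
        simp only [mul_one] at this
        rw [← this]
        group
      push_cast
      rw [← h2, ih]
  have hB1 : B 0 = 1 := by
    have h1 := (hper 0).1
    rw [zero_add, hB0 n] at h1
    have h2 := congrArg FreeGroup.toWord h1
    rw [aj3_shF_toWord] at h2
    rw [← FreeGroup.toWord_eq_nil_iff]
    cases hc : (B 0).toWord with
    | nil => rfl
    | cons z t =>
      exfalso
      rw [hc, List.map_cons] at h2
      have h3 := congrArg List.head? h2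
      simp only [List.head?_cons, Option.some.injEq] at h3
      have h4 := congrArg Prod.fst h3
      simp only at h4
      omega
  have hBk : ∀ (k : ℕ) (i : ℤ), B (i + k * n) = 1 → B i = 1 := by
    intro k
    induction k with
    | zero =>
      intro i h
      simpa using h
    | succ k ih =>
      intro i h
      apply ih i
      have e1 : i + ((k + 1 : ℕ) : ℤ) * n = (i + k * n) + n := by push_cast; ring
      rw [e1, (hper _).1] at h
      exact (MulEquiv.map_eq_one_iff (shF n)).1 h
  have hBall : ∀ i : ℤ, B i = 1 := by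
    intro i
    apply hBk i.natAbs i
    have h1 : 0 ≤ i + i.natAbs * n := by
      have h2 : (0 : ℤ) ≤ (i.natAbs : ℤ) := by positivity
      have h3 : (i.natAbs : ℤ) * 1 ≤ (i.natAbs : ℤ) * n := by
        apply mul_le_mul_of_nonneg_left _ h2
        omega
      omega
    obtain ⟨j, hj⟩ := Int.eq_ofNat_of_zero_le h1
    rw [hj, hB0 j, hB1]
  have hap : ∀ i, a i = FreeGroup.of (p i) := by
    intro i
    rw [hB i, hBall i]
    group
  -- the middle of the word survives
  set c := w.norm with hc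
  have hmid : ∃ j0 : ℕ, ∀ t : ℕ, t < n → p ((j0 : ℤ) + t) = (c : ℤ) + t := by
    have hY1 := hY (2 * c + 1)
    set N := (2 * c + 1) * n with hN
    have hNn : n + 2 * c ≤ N := by
      have e1 : N = 2 * c * n + n := by rw [hN]; ring
      have e2 : 2 * c * 1 ≤ 2 * c * n := Nat.mul_le_mul_left _ (by omega)
      omega
    set Y : List (ℤ × Bool) := (List.range N).map fun i : ℕ => ((i : ℤ), true) with hYd
    set Q : List (ℤ × Bool) := (List.range N).map fun i : ℕ => (p (i : ℤ), true) with hQd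
    have hYr : FreeGroup.IsReduced Y := aj3_pos_red _ (by
      intro x hx
      rw [hYd, List.mem_map] at hx
      obtain ⟨i, _, rfl⟩ := hx
      rfl)
    have hQr : FreeGroup.IsReduced Q := aj3_pos_red _ (by
      intro x hx
      rw [hQd, List.mem_map] at hx
      obtain ⟨i, _, rfl⟩ := hx
      rfl)
    have e1 : ((List.range N).map fun i : ℕ => a (i : ℤ)).prod = FreeGroup.mk Q := by
      rw [hQd, ← aj3_prod_of (fun i : ℕ => p (i : ℤ)) N]
      congr 1
      apply List.map_congr_left
      intro i _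
      exact hap _
    have e2 : yprod N = FreeGroup.mk Y := by
      rw [aj3_yprod]
      exact aj3_prod_of (fun i : ℕ => (i : ℤ)) N
    rw [e1, e2] at hY1
    obtain ⟨pre, hpre⟩ := aj3_left w Y hYr
    have hMr : FreeGroup.IsReduced (pre ++ Y.drop w.norm) := by
      rw [← hpre]
      exact FreeGroup.isReduced_toWord
    set g := (shF (((2 * c + 1 : ℕ) : ℤ) * (n : ℤ)) w)⁻¹ with hg
    have hgn : g.norm = c := by
      rw [hg, FreeGroup.norm_inv_eq, aj3_shF_norm]
    obtain ⟨post, hpost⟩ := aj3_right g (pre ++ Y.drop w.norm) hMr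
    have e3 : FreeGroup.mk (pre ++ Y.drop w.norm) = w * FreeGroup.mk Y := by
      rw [← hpre, FreeGroup.mk_toWord]
    rw [e3, ← hY1, FreeGroup.toWord_mk, hQr.reduce_eq, hgn, ← hc] at hpost
    have hYl : Y.length = N := by
      rw [hYd]
      simp
    have hlen : (pre ++ Y.drop c).length - c = pre.length + (N - 2 * c) := by
      rw [List.length_append, List.length_drop, hYl]
      omega
    rw [hlen, List.take_length_add_append] at hpost
    refine ⟨pre.length, ?_⟩
    intro t ht
    have h1 : Q[pre.length + t]? = some ((c : ℤ) + t, true) := by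
      rw [hpost, List.append_assoc, List.getElem?_append_right (by omega)]
      have e4 : pre.length + t - pre.length = t := by omega
      rw [e4, List.getElem?_append_left (by
        rw [List.length_take, List.length_drop, hYl]
        omega)]
      rw [List.getElem?_take_of_lt (by omega), List.getElem?_drop, hYd, List.getElem?_map,
        List.getElem?_range (by omega)]
      simp
    rw [hQd, List.getElem?_map] at h1
    by_cases hlt : pre.length + t < N
    · rw [List.getElem?_range hlt] at h1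
      simp only [Option.map_some, Option.some.injEq, Prod.mk.injEq, and_true] at h1
      rw [← h1]
      push_cast
      rfl
    · rw [List.getElem?_eq_none (by simpa using hlt)] at h1
      simp at h1
  obtain ⟨j0, hj0⟩ := hmid
  have hpk : ∀ (k : ℕ) (i : ℤ), p (i + k * n) = p i + k * n := by
    intro k
    induction k with
    | zero => intro i; simp
    | succ k ih =>
      intro i
      have e1 : i + ((k + 1 : ℕ) : ℤ) * n = (i + k * n) + n := by push_cast; ring
      rw [e1, (hper _).2, ih i]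
      push_cast
      ring
  have hpz : ∀ (k : ℤ) (i : ℤ), p (i + k * n) = p i + k * n := by
    intro k i
    rcases Int.eq_nat_or_neg k with ⟨m, hm | hm⟩
    · rw [hm]
      exact hpk m i
    · have h1 := hpk m (i + k * n)
      have e1 : i + k * n + m * n = i := by rw [hm]; ring
      rw [e1] at h1
      rw [hm] at h1 ⊢
      linarith
  refine ⟨(c : ℤ) - j0, ?_⟩
  intro i
  rw [hap i]
  congr 1
  have hn0 : (0 : ℤ) < n := by omega
  have h1 := Int.emod_nonneg (i - j0) hn0.ne'
  have h2 := Int.emod_lt_of_pos (i - j0) hn0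
  have h3 := Int.emod_add_mul_ediv (i - j0) n
  obtain ⟨t, ht⟩ := Int.eq_ofNat_of_zero_le h1
  have h4 := hj0 t (by omega)
  have e1 : i = ((j0 : ℤ) + t) + ((i - j0) / n) * n := by
    rw [ht] at h3
    have : (n : ℤ) * ((i - j0) / n) = ((i - j0) / n) * n := mul_comm _ _
    linarith
  have h5 := hpz ((i - j0) / n) ((j0 : ℤ) + t)
  rw [← e1, h4] at h5
  rw [h5]
  linarith

/-- kill the letters of absolute value larger than `R` -/
def aj4_r (R : ℤ) : FreeGroup ℤ →* FreeGroup ℤ :=
  FreeGroup.lift fun j => if |j| ≤ R then FreeGroup.of j else 1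

theorem aj4_aux1 (w : FreeGroup ℤ) : ∃ R : ℤ, ∀ R' ≥ R, aj4_r R' w = w := by
  induction w using FreeGroup.induction_on with
  | C1 => exact ⟨0, fun R' _ => map_one _⟩
  | of j =>
    refine ⟨|j|, fun R' hR' => ?_⟩
    change aj4_r R' (FreeGroup.of j) = FreeGroup.of j
    rw [aj4_r, FreeGroup.lift_apply_of, if_pos hR']
  | inv_of j ih =>
    obtain ⟨R, hR⟩ := ih
    exact ⟨R, fun R' hR' => by rw [map_inv, hR R' hR']⟩
  | mul x y hx hy =>
    obtain ⟨R1, h1⟩ := hx
    obtain ⟨R2, h2⟩ := hy
    refine ⟨max R1 R2, fun R' hR' => ?_⟩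
    rw [map_mul, h1 R' (_root_.le_trans (le_max_left _ _) hR'), h2 R' (_root_.le_trans (le_max_right _ _) hR')]

theorem aj4_aux2 (R : ℤ) (w : FreeGroup ℤ) : ∃ K : ℤ, ∀ k ≥ K, aj4_r R (shF k w) = 1 := by
  induction w using FreeGroup.induction_on with
  | C1 => exact ⟨0, fun k _ => by rw [map_one, map_one]⟩
  | of j =>
    refine ⟨|R| + 1 + |j|, fun k hk => ?_⟩
    have h1 : shF k (FreeGroup.of j) = FreeGroup.of (j + k) := by
      rw [shF, FreeGroup.freeGroupCongr_apply, FreeGroup.map.of]
      rfl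
    change aj4_r R (shF k (FreeGroup.of j)) = 1
    rw [h1, aj4_r, FreeGroup.lift_apply_of, if_neg]
    intro h
    have h2 := le_abs_self R
    have h3 := neg_abs_le j
    have h4 := le_abs_self (j + k)
    omega
  | inv_of j ih =>
    obtain ⟨K, hK⟩ := ih
    exact ⟨K, fun k hk => by rw [map_inv, map_inv, hK k hk, inv_one]⟩
  | mul x y hx hy =>
    obtain ⟨K1, h1⟩ := hx
    obtain ⟨K2, h2⟩ := hy
    refine ⟨max K1 K2, fun k hk => ?_⟩
    rw [map_mul, map_mul, h1 k (_root_.le_trans (le_max_left _ _) hk),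
      h2 k (_root_.le_trans (le_max_right _ _) hk), one_mul]

/-- uniqueness at the end of the reduction -/
theorem artin_end (n : ℕ) (hn : 1 ≤ n) (w : FreeGroup ℤ)
    (hY : ∀ l : ℕ, w * yprod (l * n) = yprod (l * n) * shF (l * n) w) : w = 1 := by
  obtain ⟨R, hR⟩ := aj4_aux1 w
  obtain ⟨K, hK⟩ := aj4_aux2 R w
  have h1 := congrArg (aj4_r R) (hY K.toNat)
  rw [map_mul, map_mul, hR R le_rfl] at h1
  have h2 : ((K.toNat : ℤ) * (n : ℤ)) ≥ K := by
    have h3 : K ≤ (K.toNat : ℤ) := Int.self_le_toNat K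
    have h4 : (1 : ℤ) ≤ (n : ℤ) := by exact_mod_cast hn
    nlinarith [Int.natCast_nonneg K.toNat]
  rw [hK _ h2, mul_one] at h1
  exact mul_eq_right.1 h1

theorem aj5_ext {α β : MulAut G} (h : ∀ j, α (gL j) = β (gL j)) : α = β := by
  have h1 : (MulEquiv.toMonoidHom α) = (MulEquiv.toMonoidHom β) :=
    FreeGroup.ext_hom _ _ (fun j => h j)
  ext x
  exact DFunLike.congr_fun h1 x

theorem aj5_list (l : List ℕ) :
    (do
      let a ← l
      pure (a : ℤ) : List ℤ) = l.map (fun a : ℕ => (a : ℤ)) := by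
  induction l with
  | nil => rfl
  | cons a l ih =>
    show (a : ℤ) :: (do
      let a ← l
      pure (a : ℤ) : List ℤ) = (a : ℤ) :: l.map (fun a : ℕ => (a : ℤ))
    rw [ih]

theorem aj5_shG_gL (k j : ℤ) : shG k (gL j) = gL (j + k) := by
  show FreeGroup.map (Equiv.addRight k) (FreeGroup.of j) = FreeGroup.of (j + k)
  rw [FreeGroup.map.of]
  rfl

theorem aj5_shG_yy (k j : ℤ) : shG k (yy j) = yy (j + k) := by
  unfold yy
  rw [map_mul, map_inv, aj5_shG_gL, aj5_shG_gL]
  have h : j + 1 + k = j + k + 1 := by ring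
  rw [h]

theorem aj5_shG_add (a b : ℤ) : shG (a + b) = shG a * shG b := by
  apply aj5_ext
  intro j
  rw [MulAut.mul_apply, aj5_shG_gL, aj5_shG_gL, aj5_shG_gL]
  have h : j + (a + b) = j + b + a := by ring
  rw [h]

theorem aj5_shG_zero : shG 0 = 1 := by
  apply aj5_ext
  intro j
  rw [aj5_shG_gL, add_zero]
  rfl

theorem aj5_iotaY_of (i : ℤ) : iotaY (FreeGroup.of i) = yy i := by
  unfold iotaY
  rw [FreeGroup.lift_apply_of]

theorem aj5_iotaY_inj {x y : FreeGroup ℤ} (h : iotaY x = iotaY y) : x = y := by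
  rw [← retY_iotaY x, h, retY_iotaY]

theorem aj5_sig_gL {n : ℤ} (hn : 2 ≤ n) (i j : ℤ) : sigG hn i (gL j) =
    if n ∣ j - i then gL (j - 1) * (gL j)⁻¹ * gL (j + 1) else gL j := by
  show sigE n i (gL j) = _
  unfold sigE
  show FreeGroup.lift _ (FreeGroup.of j) = _
  rw [FreeGroup.lift_apply_of]

theorem aj5_sigI_gL {n : ℤ} (hn : 2 ≤ n) (i j : ℤ) : (sigG hn i)⁻¹ (gL j) =
    if n ∣ j - i then gL (j + 1) * (gL j)⁻¹ * gL (j - 1) else gL j := by
  show sigIE n i (gL j) = _
  unfold sigIE
  show FreeGroup.lift _ (FreeGroup.of j) = _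
  rw [FreeGroup.lift_apply_of]

theorem aj5_ndvd {n : ℤ} (hn : 2 ≤ n) {x : ℤ} (h : n ∣ x) : ¬ n ∣ x + 1 := by
  intro h2
  have h3 : n ∣ 1 := by
    have := dvd_sub h2 h
    rwa [add_sub_cancel_left] at this
  have := Int.le_of_dvd one_pos h3
  omega

theorem aj5_sig_yy_self {n : ℤ} (hn : 2 ≤ n) (i j : ℤ) (h : n ∣ j - i) :
    sigG hn i (yy j) = yy (j - 1) := by
  have h2 : ¬ n ∣ j + 1 - i := by
    have := aj5_ndvd hn h
    rwa [show j - i + 1 = j + 1 - i by ring] at this
  unfold yy
  rw [map_mul, map_inv, aj5_sig_gL, aj5_sig_gL, if_pos h, if_neg h2, sub_add_cancel]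
  group

theorem aj5_sig_yy_pred {n : ℤ} (hn : 2 ≤ n) (i j : ℤ) (h : n ∣ j + 1 - i) :
    sigG hn i (yy j) = yy j * yy (j + 1) * (yy j)⁻¹ := by
  have h2 : ¬ n ∣ j - i := by
    intro h3
    exact aj5_ndvd hn h3 (by rwa [show j - i + 1 = j + 1 - i by ring])
  unfold yy
  rw [map_mul, map_inv, aj5_sig_gL, aj5_sig_gL, if_pos h, if_neg h2, add_sub_cancel_right]
  group

theorem aj5_sig_yy_other {n : ℤ} (hn : 2 ≤ n) (i j : ℤ) (h : ¬ n ∣ j - i)
    (h' : ¬ n ∣ j + 1 - i) : sigG hn i (yy j) = yy j := by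
  unfold yy
  rw [map_mul, map_inv, aj5_sig_gL, aj5_sig_gL, if_neg h, if_neg h']

theorem aj5_sigI_yy_self {n : ℤ} (hn : 2 ≤ n) (i j : ℤ) (h : n ∣ j - i) :
    (sigG hn i)⁻¹ (yy j) = (yy j)⁻¹ * yy (j - 1) * yy j := by
  have h2 : ¬ n ∣ j + 1 - i := by
    have := aj5_ndvd hn h
    rwa [show j - i + 1 = j + 1 - i by ring] at this
  unfold yy
  rw [map_mul, map_inv, aj5_sigI_gL, aj5_sigI_gL, if_pos h, if_neg h2, sub_add_cancel]
  group

theorem aj5_sigI_yy_pred {n : ℤ} (hn : 2 ≤ n) (i j : ℤ) (h : n ∣ j + 1 - i) :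
    (sigG hn i)⁻¹ (yy j) = yy (j + 1) := by
  have h2 : ¬ n ∣ j - i := by
    intro h3
    exact aj5_ndvd hn h3 (by rwa [show j - i + 1 = j + 1 - i by ring])
  unfold yy
  rw [map_mul, map_inv, aj5_sigI_gL, aj5_sigI_gL, if_pos h, if_neg h2, add_sub_cancel_right]
  group

theorem aj5_sigI_yy_other {n : ℤ} (hn : 2 ≤ n) (i j : ℤ) (h : ¬ n ∣ j - i)
    (h' : ¬ n ∣ j + 1 - i) : (sigG hn i)⁻¹ (yy j) = yy j := by
  unfold yy
  rw [map_mul, map_inv, aj5_sigI_gL, aj5_sigI_gL, if_neg h, if_neg h']

/-- the hypotheses of `block_A` -/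
structure aj5_P (n : ℤ) (α : MulAut G) : Prop where
  hT : α * shG n = shG n * α
  hL : α (gL 0) * (gL 0)⁻¹ ∈ Fy
  hy : ∀ i, ∃ A ∈ Fy, ∃ j, α (yy i) = A * yy j * A⁻¹

theorem aj5_yy_mem (i : ℤ) : yy i ∈ Fy := Subgroup.subset_closure ⟨i, rfl⟩

theorem aj5_map_Fy {n : ℤ} {α : MulAut G} (h : aj5_P n α) {x : G} (hx : x ∈ Fy) : α x ∈ Fy := by
  unfold Fy at hx
  induction hx using Subgroup.closure_induction with
  | mem x hx =>
    obtain ⟨i, rfl⟩ := hx
    obtain ⟨A, hA, j, e⟩ := h.hy i
    rw [e]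
    exact Fy.mul_mem (Fy.mul_mem hA (aj5_yy_mem j)) (Fy.inv_mem hA)
  | one =>
    rw [map_one]
    exact Fy.one_mem
  | mul x y _ _ hx hy =>
    rw [map_mul]
    exact Fy.mul_mem hx hy
  | inv x _ hx =>
    rw [map_inv]
    exact Fy.inv_mem hx

theorem aj5_P_mul {n : ℤ} {α β : MulAut G} (h : aj5_P n α) (h' : aj5_P n β) :
    aj5_P n (α * β) := by
  refine ⟨?_, ?_, ?_⟩
  · rw [mul_assoc, h'.hT, ← mul_assoc, h.hT, mul_assoc]
  · have e : (α * β) (gL 0) * (gL 0)⁻¹ = α (β (gL 0) * (gL 0)⁻¹) * (α (gL 0) * (gL 0)⁻¹) := by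
      rw [MulAut.mul_apply, map_mul, map_inv]
      group
    rw [e]
    exact Fy.mul_mem (aj5_map_Fy h h'.hL) h.hL
  · intro i
    obtain ⟨B, hB, j, e⟩ := h'.hy i
    obtain ⟨A, hA, k, e2⟩ := h.hy j
    refine ⟨α B * A, Fy.mul_mem (aj5_map_Fy h hB) hA, k, ?_⟩
    rw [MulAut.mul_apply, e, map_mul, map_mul, map_inv, e2]
    group

theorem aj5_P_shG (n k : ℤ) : aj5_P n (shG k) := by
  refine ⟨?_, ?_, ?_⟩
  · rw [← aj5_shG_add, ← aj5_shG_add, add_comm]
  · rw [aj5_shG_gL, zero_add, iotaY_ell k, mul_assoc, mul_inv_cancel, mul_one]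
    exact (mem_Fy_iff _).2 ⟨_, rfl⟩
  · intro i
    refine ⟨1, Fy.one_mem, i + k, ?_⟩
    rw [aj5_shG_yy]
    group

theorem aj5_dvd_add {n x : ℤ} : n ∣ x + n ↔ n ∣ x := by
  constructor
  · intro h
    have := dvd_sub h (dvd_refl n)
    rwa [add_sub_cancel_right] at this
  · intro h
    exact dvd_add h (dvd_refl n)

theorem aj5_P_sig {n : ℤ} (hn : 2 ≤ n) (i : ℤ) : aj5_P n (sigG hn i) := by
  refine ⟨?_, ?_, ?_⟩
  · apply aj5_ext
    intro j
    rw [MulAut.mul_apply, MulAut.mul_apply, aj5_shG_gL, aj5_sig_gL, aj5_sig_gL]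
    have e : j + n - i = j - i + n := by ring
    rw [e]
    by_cases h : n ∣ j - i
    · rw [if_pos (aj5_dvd_add.2 h), if_pos h, map_mul, map_mul, map_inv, aj5_shG_gL, aj5_shG_gL,
        aj5_shG_gL, show j + n - 1 = j - 1 + n by ring, show j + n + 1 = j + 1 + n by ring]
    · rw [if_neg (fun h2 => h (aj5_dvd_add.1 h2)), if_neg h, aj5_shG_gL]
  · rw [aj5_sig_gL]
    split_ifs
    · have e : gL (0 - 1) * (gL 0)⁻¹ * gL (0 + 1) * (gL 0)⁻¹ = yy (0 - 1) * (yy 0)⁻¹ := by
        unfold yy
        rw [sub_add_cancel]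
        group
      rw [e]
      exact Fy.mul_mem (aj5_yy_mem _) (Fy.inv_mem (aj5_yy_mem _))
    · rw [mul_inv_cancel]
      exact Fy.one_mem
  · intro j
    by_cases h : n ∣ j - i
    · refine ⟨1, Fy.one_mem, j - 1, ?_⟩
      rw [aj5_sig_yy_self hn i j h]
      group
    · by_cases h' : n ∣ j + 1 - i
      · exact ⟨yy j, aj5_yy_mem j, j + 1, aj5_sig_yy_pred hn i j h'⟩
      · refine ⟨1, Fy.one_mem, j, ?_⟩
        rw [aj5_sig_yy_other hn i j h h']
        group

theorem aj5_P_sigI {n : ℤ} (hn : 2 ≤ n) (i : ℤ) : aj5_P n (sigG hn i)⁻¹ := by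
  refine ⟨?_, ?_, ?_⟩
  · have h := (aj5_P_sig hn i).hT
    rw [inv_mul_eq_iff_eq_mul, ← mul_assoc, h, mul_assoc, mul_inv_cancel, mul_one]
  · rw [aj5_sigI_gL]
    split_ifs
    · have e : gL (0 + 1) * (gL 0)⁻¹ * gL (0 - 1) * (gL 0)⁻¹ = (yy 0)⁻¹ * yy (0 - 1) := by
        unfold yy
        rw [sub_add_cancel]
        group
      rw [e]
      exact Fy.mul_mem (Fy.inv_mem (aj5_yy_mem _)) (aj5_yy_mem _)
    · rw [mul_inv_cancel]
      exact Fy.one_mem
  · intro j
    by_cases h : n ∣ j - i
    · refine ⟨(yy j)⁻¹, Fy.inv_mem (aj5_yy_mem j), j - 1, ?_⟩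
      rw [aj5_sigI_yy_self hn i j h, inv_inv]
    · by_cases h' : n ∣ j + 1 - i
      · refine ⟨1, Fy.one_mem, j + 1, ?_⟩
        rw [aj5_sigI_yy_pred hn i j h']
        group
      · refine ⟨1, Fy.one_mem, j, ?_⟩
        rw [aj5_sigI_yy_other hn i j h h']
        group

/-- the coefficient words -/
def aj5_r (α : MulAut G) (j : ℤ) : FreeGroup ℤ := retY (α (yy j))

theorem aj5_iota_r {n : ℤ} {α : MulAut G} (h : aj5_P n α) (j : ℤ) :
    iotaY (aj5_r α j) = α (yy j) := by
  obtain ⟨x, hx⟩ := (mem_Fy_iff _).1 (aj5_map_Fy h (aj5_yy_mem j))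
  unfold aj5_r
  rw [← hx, retY_iotaY]

theorem aj5_r_shift {n : ℤ} {α : MulAut G} (h : aj5_P n α) (j : ℤ) :
    aj5_r α (j + n) = shF n (aj5_r α j) := by
  apply aj5_iotaY_inj
  rw [iotaY_shF, aj5_iota_r h, aj5_iota_r h, ← aj5_shG_yy, ← MulAut.mul_apply, h.hT,
    MulAut.mul_apply]

theorem aj5_norm_shF_le (k : ℤ) (x : FreeGroup ℤ) : (shF k x).norm ≤ x.norm := by
  have h : shF k x = FreeGroup.mk (x.toWord.map fun p => (Equiv.addRight k p.1, p.2)) := by
    conv_lhs => rw [← FreeGroup.mk_toWord (x := x)]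
    rfl
  rw [h]
  refine _root_.le_trans FreeGroup.norm_mk_le ?_
  rw [List.length_map]
  rfl

theorem aj5_norm_shF (k : ℤ) (x : FreeGroup ℤ) : (shF k x).norm = x.norm := by
  apply le_antisymm (aj5_norm_shF_le k x)
  have h : shF (-k) (shF k x) = x := by
    apply aj5_iotaY_inj
    rw [iotaY_shF, iotaY_shF, ← MulAut.mul_apply, ← aj5_shG_add, neg_add_cancel, aj5_shG_zero]
    rfl
  calc x.norm = (shF (-k) (shF k x)).norm := by rw [h]
    _ ≤ (shF k x).norm := aj5_norm_shF_le _ _

theorem aj5_window (n : ℕ) (f : ℤ → ℕ) (hf : ∀ j, f (j + n) = f j) (c : ℤ) :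
    ∑ j ∈ Finset.range n, f (c + j) = ∑ j ∈ Finset.range n, f j := by
  have step : ∀ c : ℤ, ∑ j ∈ Finset.range n, f (c + 1 + j) = ∑ j ∈ Finset.range n, f (c + j) := by
    intro c
    have h1 := Finset.sum_range_succ (fun j : ℕ => f (c + j)) n
    have h2 := Finset.sum_range_succ' (fun j : ℕ => f (c + j)) n
    rw [h1, hf c] at h2
    have h3 : ∑ j ∈ Finset.range n, f (c + ((j + 1 : ℕ) : ℤ)) =
        ∑ j ∈ Finset.range n, f (c + 1 + j) := by
      apply Finset.sum_congr rfl
      intro j _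
      congr 1
      push_cast
      ring
    rw [h3] at h2
    have h4 : f (c + ((0 : ℕ) : ℤ)) = f c := by
      congr 1
      simp
    rw [h4] at h2
    omega
  induction c using Int.induction_on with
  | zero =>
    apply Finset.sum_congr rfl
    intro j _
    rw [zero_add]
  | succ c ih => rw [step, ih]
  | pred c ih =>
    have h := step (-(c : ℤ) - 1)
    rw [sub_add_cancel] at h
    rw [← h, ih]

theorem aj5_prod_yy (m : ℕ) : ((List.range m).map fun i : ℕ => yy (i : ℤ)).prod =
    gL 0 * (gL m)⁻¹ := by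
  induction m with
  | zero => simp
  | succ m ih =>
    rw [List.range_succ, List.map_append, List.prod_append, ih]
    simp only [List.map_cons, List.map_nil, List.prod_cons, List.prod_nil, mul_one]
    unfold yy
    push_cast
    group

theorem aj5_iotaY_yprod (m : ℕ) : iotaY (yprod m) = gL 0 * (gL m)⁻¹ := by
  rw [← aj5_prod_yy]
  unfold yprod
  rw [aj5_list, map_list_prod, List.map_map, List.map_map]
  congr 1

theorem aj5_comm_mul {n : ℤ} {α : MulAut G} (h : aj5_P n α) (l : ℕ) :
    α * shG (l * n) = shG (l * n) * α := by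
  induction l with
  | zero =>
    have e : (((0 : ℕ) : ℤ) * n) = 0 := by simp
    rw [e, aj5_shG_zero, mul_one, one_mul]
  | succ l ih =>
    have e : (((l + 1 : ℕ) : ℤ) * n) = l * n + n := by
      push_cast
      ring
    rw [e, aj5_shG_add, ← mul_assoc, ih, mul_assoc, h.hT, ← mul_assoc]

theorem aj5_hY {n : ℕ} {α : MulAut G} (h : aj5_P n α) {w : FreeGroup ℤ}
    (hw : iotaY w = α (gL 0) * (gL 0)⁻¹) (l : ℕ) :
    ((List.range (l * n)).map fun i : ℕ => aj5_r α (i : ℤ)).prod =
      w * yprod (l * n) * (shF (l * n) w)⁻¹ := by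
  apply aj5_iotaY_inj
  have e1 : iotaY ((List.range (l * n)).map fun i : ℕ => aj5_r α (i : ℤ)).prod =
      α ((List.range (l * n)).map fun i : ℕ => yy (i : ℤ)).prod := by
    rw [map_list_prod, map_list_prod, List.map_map, List.map_map]
    congr 1
    apply List.map_congr_left
    intro i _
    exact aj5_iota_r h _
  have e2 : α (gL 0) = iotaY w * gL 0 := by rw [hw, inv_mul_cancel_right]
  have e3 : gL ((l * n : ℕ) : ℤ) = shG (l * n) (gL 0) := by
    rw [aj5_shG_gL, zero_add]
    push_cast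
    rfl
  have e4 : α (gL ((l * n : ℕ) : ℤ)) = iotaY (shF (l * n) w) * gL ((l * n : ℕ) : ℤ) := by
    rw [iotaY_shF]
    conv_lhs => rw [e3, ← MulAut.mul_apply, aj5_comm_mul h l, MulAut.mul_apply, e2, map_mul]
    rw [e3]
  rw [e1, aj5_prod_yy]
  simp only [map_mul, map_inv]
  rw [aj5_iotaY_yprod, e4, e2]
  group

theorem aj5_exists_conj {n : ℤ} {α : MulAut G} (h : aj5_P n α) :
    ∃ (A : ℤ → FreeGroup ℤ) (p : ℤ → ℤ), ∀ i,
      aj5_r α i = A i * FreeGroup.of (p i) * (A i)⁻¹ := by
  have h1 : ∀ i, ∃ (x : FreeGroup ℤ) (q : ℤ), aj5_r α i = x * FreeGroup.of q * x⁻¹ := by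
    intro i
    obtain ⟨A, hA, j, e⟩ := h.hy i
    obtain ⟨x, rfl⟩ := (mem_Fy_iff _).1 hA
    refine ⟨x, j, ?_⟩
    apply aj5_iotaY_inj
    rw [aj5_iota_r h, e, map_mul, map_mul, map_inv, aj5_iotaY_of]
  choose A p hAp using h1
  exact ⟨A, p, hAp⟩

/-- the measure -/
def aj5_mu (n : ℕ) (α : MulAut G) : ℕ := ∑ j ∈ Finset.range n, (aj5_r α j).norm

theorem aj5_mu_window {n : ℕ} {α : MulAut G} (h : aj5_P n α) (c : ℤ) :
    ∑ j ∈ Finset.range n, (aj5_r α (c + j)).norm = aj5_mu n α :=
  aj5_window n (fun j => (aj5_r α j).norm)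
    (fun j => by
      show (aj5_r α (j + n)).norm = (aj5_r α j).norm
      rw [aj5_r_shift h, aj5_norm_shF]) c

theorem aj5_split (k : ℕ) (f : ℤ → ℕ) (c : ℤ) :
    ∑ j ∈ Finset.range (k + 2), f (c + j) =
      (∑ j ∈ Finset.range k, f (c + 2 + j)) + f (c + 1) + f c := by
  rw [Finset.sum_range_succ', Finset.sum_range_succ']
  congr 1
  · congr 1
    · apply Finset.sum_congr rfl
      intro j _
      congr 1
      push_cast
      ring
  · congr 1
    simp

theorem aj5_dec_gen {n : ℕ} (hn : 2 ≤ n) {α α' : MulAut G} (h : aj5_P n α) (h' : aj5_P n α')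
    (c : ℤ) (ho : ∀ j : ℤ, ¬ (n : ℤ) ∣ j - c → ¬ (n : ℤ) ∣ j - (c + 1) → aj5_r α' j = aj5_r α j)
    (hlt : (aj5_r α' c).norm + (aj5_r α' (c + 1)).norm <
      (aj5_r α c).norm + (aj5_r α (c + 1)).norm) : aj5_mu n α' < aj5_mu n α := by
  obtain ⟨k, rfl⟩ : ∃ k, n = k + 2 := ⟨n - 2, by omega⟩
  rw [← aj5_mu_window h c, ← aj5_mu_window h' c,
    aj5_split k (fun j => (aj5_r α j).norm) c, aj5_split k (fun j => (aj5_r α' j).norm) c]
  have e : ∑ j ∈ Finset.range k, (aj5_r α' (c + 2 + j)).norm =
      ∑ j ∈ Finset.range k, (aj5_r α (c + 2 + j)).norm := by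
    apply Finset.sum_congr rfl
    intro j hj
    rw [Finset.mem_range] at hj
    rw [ho]
    · intro hd
      have e1 : c + 2 + (j : ℤ) - c = j + 2 := by ring
      rw [e1] at hd
      have := Int.le_of_dvd (by omega) hd
      push_cast at this
      omega
    · intro hd
      have e1 : c + 2 + (j : ℤ) - (c + 1) = j + 1 := by ring
      rw [e1] at hd
      have := Int.le_of_dvd (by omega) hd
      push_cast at this
      omega
  rw [e]
  omega

theorem aj5_dec1 {n : ℕ} (hn : 2 ≤ n) {α : MulAut G} (h : aj5_P n α) (i : ℤ)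
    (hn' : (2 : ℤ) ≤ (n : ℤ))
    (hlt : (aj5_r α (i - 1) * aj5_r α i * (aj5_r α (i - 1))⁻¹).norm < (aj5_r α i).norm) :
    aj5_mu n (α * sigG hn' i) < aj5_mu n α := by
  apply aj5_dec_gen hn h (aj5_P_mul h (aj5_P_sig hn' i)) (i - 1)
  · intro j h1 h2
    unfold aj5_r
    rw [MulAut.mul_apply, aj5_sig_yy_other]
    · rwa [sub_add_cancel] at h2
    · rwa [show j - (i - 1) = j + 1 - i by ring] at h1
  · have e1 : aj5_r (α * sigG hn' i) (i - 1) =
        aj5_r α (i - 1) * aj5_r α i * (aj5_r α (i - 1))⁻¹ := by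
      unfold aj5_r
      rw [MulAut.mul_apply, aj5_sig_yy_pred hn' i (i - 1) (by simp), sub_add_cancel, map_mul,
        map_mul, map_inv, map_mul, map_mul, map_inv]
    have e2 : aj5_r (α * sigG hn' i) (i - 1 + 1) = aj5_r α (i - 1) := by
      unfold aj5_r
      rw [MulAut.mul_apply, sub_add_cancel, aj5_sig_yy_self hn' i i (by simp)]
    rw [e1, e2, sub_add_cancel]
    omega

theorem aj5_dec2 {n : ℕ} (hn : 2 ≤ n) {α : MulAut G} (h : aj5_P n α) (i : ℤ)
    (hn' : (2 : ℤ) ≤ (n : ℤ))
    (hlt : ((aj5_r α i)⁻¹ * aj5_r α (i - 1) * aj5_r α i).norm < (aj5_r α (i - 1)).norm) :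
    aj5_mu n (α * (sigG hn' i)⁻¹) < aj5_mu n α := by
  apply aj5_dec_gen hn h (aj5_P_mul h (aj5_P_sigI hn' i)) (i - 1)
  · intro j h1 h2
    unfold aj5_r
    rw [MulAut.mul_apply, aj5_sigI_yy_other]
    · rwa [sub_add_cancel] at h2
    · rwa [show j - (i - 1) = j + 1 - i by ring] at h1
  · have e1 : aj5_r (α * (sigG hn' i)⁻¹) (i - 1) = aj5_r α i := by
      unfold aj5_r
      rw [MulAut.mul_apply, aj5_sigI_yy_pred hn' i (i - 1) (by simp), sub_add_cancel]
    have e2 : aj5_r (α * (sigG hn' i)⁻¹) (i - 1 + 1) =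
        (aj5_r α i)⁻¹ * aj5_r α (i - 1) * aj5_r α i := by
      unfold aj5_r
      rw [MulAut.mul_apply, sub_add_cancel, aj5_sigI_yy_self hn' i i (by simp)]
      simp only [map_mul, map_inv]
    rw [e1, e2, sub_add_cancel]
    omega

theorem aj5_evW_append {n : ℤ} (hn : 2 ≤ n) (u v : List Letter) :
    evW hn (u ++ v) = evW hn u * evW hn v := by
  unfold evW
  rw [List.map_append, List.prod_append]

theorem aj5_evW_one {n : ℤ} (hn : 2 ≤ n) (s : Letter) : evW hn [s] = evL hn s := by
  unfold evW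
  simp

theorem aj5_evW_shift {n : ℤ} (hn : 2 ≤ n) (k : ℤ) : ∃ u, evW hn u = shG k := by
  induction k using Int.induction_on with
  | zero =>
    refine ⟨[], ?_⟩
    rw [aj5_shG_zero]
    rfl
  | succ k ih =>
    obtain ⟨u, hu⟩ := ih
    refine ⟨u ++ [Letter.rho], ?_⟩
    rw [aj5_evW_append, hu, aj5_evW_one]
    exact (aj5_shG_add _ _).symm
  | pred k ih =>
    obtain ⟨u, hu⟩ := ih
    refine ⟨u ++ [Letter.rhoI], ?_⟩
    rw [aj5_evW_append, hu, aj5_evW_one]
    exact (aj5_shG_add _ _).symm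

theorem aj5_final {n : ℕ} (hn : 1 ≤ n) {α : MulAut G} (h : aj5_P n α)
    (hr : ∀ i, aj5_r α i = FreeGroup.of i) : α = 1 := by
  obtain ⟨w, hw⟩ := (mem_Fy_iff _).1 h.hL
  have hw1 : w = 1 := by
    apply artin_end n hn w
    intro l
    have h1 := aj5_hY h hw l
    have h2 : ((List.range (l * n)).map fun i : ℕ => aj5_r α (i : ℤ)).prod = yprod (l * n) := by
      unfold yprod
      rw [aj5_list, List.map_map]
      congr 1
      apply List.map_congr_left
      intro i _
      exact hr _
    rw [h2] at h1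
    have h5 : yprod (l * n) * shF (l * n) w = w * yprod (l * n) := by
      conv_lhs => rw [h1]
      rw [inv_mul_cancel_right]
    exact h5.symm
  rw [hw1, map_one] at hw
  have h0 : α (gL 0) = gL 0 := (eq_of_mul_inv_eq_one hw.symm)
  have hy : ∀ i, α (yy i) = yy i := by
    intro i
    rw [← aj5_iota_r h, hr, aj5_iotaY_of]
  have hio : ∀ x, α (iotaY x) = iotaY x := by
    intro x
    have h1 : (MulEquiv.toMonoidHom α).comp iotaY = iotaY := by
      apply FreeGroup.ext_hom
      intro i
      show α (iotaY (FreeGroup.of i)) = iotaY (FreeGroup.of i)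
      rw [aj5_iotaY_of, hy]
    exact DFunLike.congr_fun h1 x
  apply aj5_ext
  intro j
  rw [iotaY_ell j, map_mul, hio, h0]
  rfl

theorem aj5_shift_case (n : ℕ) (hn : (2 : ℤ) ≤ (n : ℤ)) (α : MulAut G) (h : aj5_P n α) (k : ℤ)
    (hk : ∀ i, aj5_r α i = FreeGroup.of (i + k)) : ∃ u : List Letter, evW hn u = α := by
  have h1 : aj5_P n (α * shG (-k)) := aj5_P_mul h (aj5_P_shG n (-k))
  have h2 : ∀ i, aj5_r (α * shG (-k)) i = FreeGroup.of i := by
    intro i
    have h3 := hk (i + -k)
    unfold aj5_r at h3 ⊢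
    rw [MulAut.mul_apply, aj5_shG_yy, h3, neg_add_cancel_right]
  have h3 := aj5_final (by omega) h1 h2
  obtain ⟨u, hu⟩ := aj5_evW_shift hn k
  refine ⟨u, ?_⟩
  rw [hu]
  calc shG k = (α * shG (-k)) * shG k := by rw [h3, one_mul]
    _ = α := by rw [mul_assoc, ← aj5_shG_add, neg_add_cancel, aj5_shG_zero, mul_one]

theorem aj5_main (n : ℕ) (hn : (2 : ℤ) ≤ (n : ℤ)) (m : ℕ) :
    ∀ α : MulAut G, aj5_P n α → aj5_mu n α = m → ∃ u : List Letter, evW hn u = α := by
  induction m using Nat.strong_induction_on with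
  | _ m ih =>
    intro α h hm
    have hn2 : 2 ≤ n := by exact_mod_cast hn
    obtain ⟨w, hw⟩ := (mem_Fy_iff _).1 h.hL
    obtain ⟨A, p, hA⟩ := aj5_exists_conj h
    have hY : ∀ l : ℕ, ((List.range (l * n)).map fun i => aj5_r α (i : ℤ)).prod =
        w * yprod (l * n) * (shF (l * n) w)⁻¹ := by
      intro l
      rw [aj5_list, List.map_map]
      exact aj5_hY h hw l
    rcases artin_core n hn2 (aj5_r α) A p hA (aj5_r_shift h) w hY with
      ⟨i, h1 | h1⟩ | ⟨k, hk⟩
    · have h2 := aj5_dec1 hn2 h i hn h1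
      obtain ⟨u, hu⟩ := ih _ (by omega) _ (aj5_P_mul h (aj5_P_sig hn i)) rfl
      refine ⟨u ++ [Letter.sigI i], ?_⟩
      rw [aj5_evW_append, hu, aj5_evW_one]
      exact mul_inv_cancel_right _ _
    · have h2 := aj5_dec2 hn2 h i hn h1
      obtain ⟨u, hu⟩ := ih _ (by omega) _ (aj5_P_mul h (aj5_P_sigI hn i)) rfl
      refine ⟨u ++ [Letter.sig i], ?_⟩
      rw [aj5_evW_append, hu, aj5_evW_one]
      exact inv_mul_cancel_right _ _
    · exact aj5_shift_case n hn α h k hk

/-- BLOCK A: every automorphism of braid type commuting with the translation is a word. -/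
theorem block_A (n : ℤ) (hn : 3 ≤ n) (α : MulAut G) (hT : α * shG n = shG n * α)
    (hL : α (gL 0) * (gL 0)⁻¹ ∈ Fy)
    (hy : ∀ i, ∃ A ∈ Fy, ∃ j, α (yy i) = A * yy j * A⁻¹) :
    ∃ u : List Letter, evW (by omega : (2:ℤ) ≤ n) u = α := by
  obtain ⟨m, rfl⟩ := Int.eq_ofNat_of_zero_le (by omega : (0 : ℤ) ≤ n)
  exact aj5_main m (by omega) _ α ⟨hT, hL, hy⟩ rfl

end

end MWC
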