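import Mathlib

/-!
# Base ring: Laurent polynomials over `F_2`, filtered by `ℤ × ℤ`

`A = F_2[s, s⁻¹]`, `Fil n B d a` : every exponent `k` occurring in `a` satisfies
`k • τ ≤ d` where `τ = (B, B - n)`.
-/

namespace MWC

noncomputable section

open scoped Classical

/-- Laurent polynomials over `F_2`. -/
abbrev A : Type := AddMonoidAlgebra (ZMod 2) ℤ

/-- the monomial `s ^ k` -/
def sp (k : ℤ) : A := AddMonoidAlgebra.single k 1

/-- the ring homomorphism `s ↦ 1` -/
def ev : A →+* ZMod 2 :=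
  (AddMonoidAlgebra.lift (ZMod 2) (ZMod 2) ℤ
    (1 : Multiplicative ℤ →* ZMod 2)).toRingHom

/-- `Fil n B d a`: all exponents `k` of `a` satisfy `k • (B, B - n) ≤ d`. -/
def Fil (n B : ℤ) (d : ℤ × ℤ) (a : A) : Prop :=
  ∀ k : ℤ, a.coeff k ≠ 0 → k * B ≤ d.1 ∧ k * (B - n) ≤ d.2

/-- the components of `a` whose exponent satisfies `P` -/
def part (P : ℤ → Prop) (a : A) : A := AddMonoidAlgebra.ofCoeff (a.coeff.filter P)

/-- `j(p) = α - β` -/
def jj (p : ℤ × ℤ) : ℤ := p.1 - p.2

/-- the class condition: `j(p) ≡ i mod n` -/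
def Cl (n i : ℤ) (p : ℤ × ℤ) : Prop := n ∣ jj p - i

theorem coeff_part (P : ℤ → Prop) (a : A) (k : ℤ) :
    (part P a).coeff k = if P k then a.coeff k else 0 := by
  unfold part
  by_cases h : P k
  · simp [h]
  · simp [h]

theorem part_zero (P : ℤ → Prop) : part P 0 = 0 := by
  ext k
  rw [coeff_part]
  simp

theorem part_ne_zero {P : ℤ → Prop} {a : A} (h : part P a ≠ 0) : a ≠ 0 := by
  rintro rfl
  exact h (part_zero P)

theorem coeff_sp (k l : ℤ) : (sp k).coeff l = if l = k then 1 else 0 := by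
  unfold sp
  rw [AddMonoidAlgebra.coeff_single, Finsupp.single_apply]
  congr 1
  exact propext eq_comm

theorem ev_sp (k : ℤ) : ev (sp k) = 1 := by
  unfold ev sp
  have := AddMonoidAlgebra.lift_single (1 : Multiplicative ℤ →* ZMod 2) k (1 : ZMod 2)
  simpa using this

theorem sp_zero : sp 0 = 1 := rfl

theorem sp_mul (k l : ℤ) : sp k * sp l = sp (k + l) := by
  unfold sp
  rw [AddMonoidAlgebra.single_mul_single, one_mul]

/-- characteristic two -/
theorem A_add_self (a : A) : a + a = 0 := by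
  have h : (a + a : A) = (2 : ZMod 2) • a := by
    rw [two_smul]
  rw [h]
  have h2 : (2 : ZMod 2) = 0 := rfl
  rw [h2, zero_smul]

theorem fil_zero (n B : ℤ) (d : ℤ × ℤ) : Fil n B d 0 := by
  intro k hk
  simp at hk

theorem fil_add {n B : ℤ} {d : ℤ × ℤ} {a b : A} (ha : Fil n B d a) (hb : Fil n B d b) :
    Fil n B d (a + b) := by
  intro k hk
  by_cases h : a.coeff k = 0
  · apply hb k
    intro h2
    apply hk
    simp [h, h2]
  · exact ha k h

theorem fil_sum {n B : ℤ} {d : ℤ × ℤ} {ι : Type*} (s : Finset ι) (f : ι → A)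
    (h : ∀ i ∈ s, Fil n B d (f i)) : Fil n B d (∑ i ∈ s, f i) := by
  induction s using Finset.induction_on with
  | empty => simpa using fil_zero n B d
  | insert a s ha ih =>
    rw [Finset.sum_insert ha]
    exact fil_add (h a (Finset.mem_insert_self a s))
      (ih fun i hi => h i (Finset.mem_insert_of_mem hi))

theorem fil_mul {n B : ℤ} {d d' : ℤ × ℤ} {a b : A} (ha : Fil n B d a) (hb : Fil n B d' b) :
    Fil n B (d + d') (a * b) := by
  intro k hk
  have hk' : k ∈ (a * b).coeff.support := by simpa using hk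
  have := AddMonoidAlgebra.support_coeff_mul_subset a b hk'
  rw [Finset.mem_add] at this
  obtain ⟨x, hx, y, hy, rfl⟩ := this
  have h1 := ha x (by simpa using hx)
  have h2 := hb y (by simpa using hy)
  constructor
  · simp only [Prod.fst_add]
    have : (x + y) * B = x * B + y * B := by ring
    linarith [h1.1, h2.1]
  · simp only [Prod.snd_add]
    have : (x + y) * (B - n) = x * (B - n) + y * (B - n) := by ring
    linarith [h1.2, h2.2]

theorem fil_mono {n B : ℤ} {d d' : ℤ × ℤ} (h : d ≤ d') {a : A} (ha : Fil n B d a) :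
    Fil n B d' a := by
  intro k hk
  exact ⟨(ha k hk).1.trans h.1, (ha k hk).2.trans h.2⟩

theorem fil_sp {n B : ℤ} {d : ℤ × ℤ} {k : ℤ} (h1 : k * B ≤ d.1) (h2 : k * (B - n) ≤ d.2) :
    Fil n B d (sp k) := by
  intro l hl
  rw [coeff_sp] at hl
  have : l = k := by
    by_contra h
    simp [h] at hl
  subst this
  exact ⟨h1, h2⟩

theorem fil_one {n B : ℤ} {d : ℤ × ℤ} (h : 0 ≤ d) : Fil n B d 1 := by
  rw [← sp_zero]
  apply fil_sp
  · simpa using h.1
  · simpa using h.2

theorem fil_part {n B : ℤ} {d : ℤ × ℤ} {a : A} (P : ℤ → Prop) (ha : Fil n B d a) :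
    Fil n B d (part P a) := by
  intro k hk
  rw [coeff_part] at hk
  apply ha k
  intro h
  apply hk
  simp [h]

/-- `A` is a domain (used for cancellation of `1 + s`). -/
theorem A_mul_eq_zero {a b : A} (h : a * b = 0) : a = 0 ∨ b = 0 := by
  exact mul_eq_zero.1 h

theorem one_add_s_ne_zero : (1 + sp 1 : A) ≠ 0 := by
  intro h
  have := congrArg (fun a : A => a.coeff 1) h
  simp [← sp_zero, coeff_sp] at this

/-- the staircase up-set `U = ⋃_k (k τ + ℕ²)` -/
def U (n B : ℤ) (p : ℤ × ℤ) : Prop := ∃ k : ℤ, k * B ≤ p.1 ∧ k * (B - n) ≤ p.2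

theorem cj1_U {n B : ℤ} (hB : 0 < B) (hn : B < n) (p : ℤ × ℤ) :
    U n B p ↔ (p.1 / B) * (B - n) ≤ p.2 := by
  constructor
  · rintro ⟨k, h1, h2⟩
    have hk : k ≤ p.1 / B := (Int.le_ediv_iff_mul_le hB).2 h1
    have h3 : (p.1 / B) * (B - n) ≤ k * (B - n) :=
      mul_le_mul_of_nonpos_right hk (by linarith)
    exact h3.trans h2
  · intro h
    exact ⟨p.1 / B, Int.ediv_mul_le _ hB.ne', h⟩

theorem cj1_div {B : ℤ} (hB : 0 < B) (x : ℤ) : (B - 1 - x) / B = -(x / B) := by
  have h1 := Int.emod_nonneg x hB.ne'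
  have h2 := Int.emod_lt_of_pos x hB
  have h3 := Int.mul_ediv_add_emod x B
  apply le_antisymm
  · have h4 : (B - 1 - x) / B < -(x / B) + 1 := by
      rw [Int.ediv_lt_iff_lt_mul hB]
      linarith
    linarith
  · rw [Int.le_ediv_iff_mul_le hB]
    linarith

theorem u_symm {n B : ℤ} (hB : 0 < B) (hn : B < n) (p : ℤ × ℤ) :
    U n B p ↔ ¬ U n B ((B - 1 - p.1, - 1 - p.2)) := by
  rw [cj1_U hB hn, cj1_U hB hn]
  show _ ↔ ¬ ((B - 1 - p.1) / B * (B - n) ≤ -1 - p.2)
  rw [cj1_div hB, not_le]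
  constructor
  · intro h
    linarith
  · intro h
    have h2 : -1 - p.2 + 1 ≤ -(p.1 / B) * (B - n) := h
    linarith

theorem cj1_geom (i : ℤ) (m : ℕ) :
    (1 + sp 1) * ∑ k ∈ Finset.range m, sp (i + k) = sp i + sp (i + m) := by
  induction m with
  | zero =>
    simp [A_add_self]
  | succ m ih =>
    rw [Finset.sum_range_succ, mul_add, ih, add_mul, one_mul, sp_mul]
    have e : (1 : ℤ) + (i + m) = i + ((m + 1 : ℕ) : ℤ) := by
      push_cast
      ring
    rw [e]
    have h := A_add_self (sp (i + m))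
    calc sp i + sp (i + m) + (sp (i + m) + sp (i + ((m + 1 : ℕ) : ℤ)))
        = sp i + (sp (i + m) + sp (i + m)) + sp (i + ((m + 1 : ℕ) : ℤ)) := by ring
      _ = sp i + sp (i + ((m + 1 : ℕ) : ℤ)) := by rw [h, add_zero]

theorem cj1_two (x : ZMod 2) (h : x ≠ 0) : x = 1 := by
  revert h
  revert x
  decide

theorem cj1_step {n B : ℤ} (hB : 0 < B) (hn : B < n) {d : ℤ × ℤ} (i j : ℤ) (hij : i < j)
    (hj : j * B ≤ d.1) (hi : i * (B - n) ≤ d.2) :
    ∃ g : A, Fil n B (d - (B, 0)) g ∧ sp i + sp j = (1 + sp 1) * g := by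
  obtain ⟨m, hm⟩ := Int.eq_ofNat_of_zero_le (show 0 ≤ j - i by linarith)
  refine ⟨∑ k ∈ Finset.range m, sp (i + k), ?_, ?_⟩
  · apply fil_sum
    intro k hk
    have hk' : (k : ℤ) + 1 ≤ m := by
      have := Finset.mem_range.1 hk
      exact_mod_cast this
    apply fil_sp
    · have h1 : (i + k) * B ≤ d.1 - B := by
        have h2 : (i + k + 1) * B ≤ j * B := mul_le_mul_of_nonneg_right (by linarith) hB.le
        linarith
      exact h1
    · have h1 : (i + k) * (B - n) ≤ d.2 - 0 := by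
        have h2 : (k : ℤ) * (B - n) ≤ 0 :=
          mul_nonpos_of_nonneg_of_nonpos (by positivity) (by linarith)
        linarith
      exact h1
  · rw [cj1_geom]
    have e : i + (m : ℤ) = j := by linarith
    rw [e]

theorem cj1_main {n B : ℤ} (hB : 0 < B) (hn : B < n) {d : ℤ × ℤ} (N : ℕ) :
    ∀ a : A, a.coeff.support.card ≤ N → Fil n B d a → ev a = 0 →
      ∃ a' : A, Fil n B (d - (B, 0)) a' ∧ a = (1 + sp 1) * a' := by
  induction N with
  | zero =>
    intro a hc _ _
    have h0 : a.coeff.support = ∅ := Finset.card_eq_zero.1 (Nat.le_zero.1 hc)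
    have ha0 : a = 0 := by
      ext k
      have : k ∉ a.coeff.support := by rw [h0]; simp
      simpa using this
    exact ⟨0, fil_zero _ _ _, by rw [ha0, mul_zero]⟩
  | succ N ih =>
    intro a hc ha he
    by_cases ha0 : a = 0
    · exact ⟨0, fil_zero _ _ _, by rw [ha0, mul_zero]⟩
    have hne : ∃ i, a.coeff i ≠ 0 := by
      by_contra hcon
      push Not at hcon
      apply ha0
      ext k
      simpa using hcon k
    obtain ⟨i, hi⟩ := hne
    have hne2 : ∃ j, j ≠ i ∧ a.coeff j ≠ 0 := by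
      by_contra hcon
      push Not at hcon
      have e : a = sp i := by
        ext k
        rw [coeff_sp]
        split_ifs with h
        · rw [h]
          exact cj1_two _ hi
        · exact hcon k h
      rw [e, ev_sp] at he
      exact one_ne_zero he
    obtain ⟨j, hji, hj⟩ := hne2
    have hcb : ∀ k, (a + (sp i + sp j)).coeff k = a.coeff k + ((if k = i then 1 else 0) +
        (if k = j then 1 else 0)) := by
      intro k
      rw [← coeff_sp, ← coeff_sp]
      simp
    have hsup : (a + (sp i + sp j)).coeff.support ⊆ a.coeff.support.erase i := by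
      intro k hk
      rw [Finsupp.mem_support_iff, hcb] at hk
      rw [Finset.mem_erase, Finsupp.mem_support_iff]
      by_cases h1 : k = i
      · exfalso
        apply hk
        rw [if_pos h1, if_neg (by rw [h1]; exact fun h => hji h.symm), h1, cj1_two _ hi]
        rfl
      · refine ⟨h1, ?_⟩
        intro h0
        by_cases h2 : k = j
        · rw [h2] at h0
          exact hj h0
        · apply hk
          rw [if_neg h1, if_neg h2, h0]
          rfl
    have hcard : (a + (sp i + sp j)).coeff.support.card ≤ N := by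
      have h1 := Finset.card_le_card hsup
      rw [Finset.card_erase_of_mem (by rw [Finsupp.mem_support_iff]; exact hi)] at h1
      omega
    have hfb : Fil n B d (a + (sp i + sp j)) :=
      fil_add ha (fil_add (fil_sp (ha i hi).1 (ha i hi).2) (fil_sp (ha j hj).1 (ha j hj).2))
    have heb : ev (a + (sp i + sp j)) = 0 := by
      rw [map_add, map_add, he, ev_sp, ev_sp]
      rfl
    obtain ⟨b', hb', hbe⟩ := ih _ hcard hfb heb
    have hg : ∃ g : A, Fil n B (d - (B, 0)) g ∧ sp i + sp j = (1 + sp 1) * g := by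
      rcases lt_or_gt_of_ne hji with h | h
      · obtain ⟨g, hg1, hg2⟩ := cj1_step hB hn j i h (ha i hi).1 (ha j hj).2
        exact ⟨g, hg1, by rw [add_comm]; exact hg2⟩
      · exact cj1_step hB hn i j h (ha j hj).1 (ha i hi).2
    obtain ⟨g, hg1, hg2⟩ := hg
    refine ⟨b' + g, fil_add hb' hg1, ?_⟩
    rw [mul_add, ← hbe, ← hg2, add_assoc, A_add_self, add_zero]

theorem fil_div {n B : ℤ} (hB : 0 < B) (hn : B < n) {d : ℤ × ℤ} {a : A} (ha : Fil n B d a)
    (he : ev a = 0) : ∃ a' : A, Fil n B (d - (B, 0)) a' ∧ a = (1 + sp 1) * a' :=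
  cj1_main hB hn _ a le_rfl ha he

theorem fil_nonzero {n B : ℤ} {d : ℤ × ℤ} {a : A} (ha : Fil n B d a) (h : a ≠ 0) : U n B d := by
  have : ∃ k, a.coeff k ≠ 0 := by
    by_contra hcon
    push Not at hcon
    apply h
    ext k
    simpa using hcon k
  obtain ⟨k, hk⟩ := this
  exact ⟨k, (ha k hk).1, (ha k hk).2⟩

end

end MWC
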