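import Pool.Agent.Lib.MP_cbfcf7.C0

/-!
# Filtered complexes over `A`, maps of a given level, duality
-/

namespace MWC

noncomputable section

open scoped Classical
open Matrix

/-- A finite free complex over `A`, graded by positions in `ℤ × ℤ` and by a degree.
Convention: row vectors, `D e_g = ∑_h D g h • e_h`. -/
structure Obj (n B : ℤ) where
  I : Type
  [fin : Fintype I]
  [dec : DecidableEq I]
  pos : I → ℤ × ℤ
  deg : I → ℤ
  D : Matrix I I A
  fil : ∀ g h, Fil n B (pos g - pos h) (D g h)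
  hdeg : ∀ g h, D g h ≠ 0 → deg h = deg g + 1
  sq : D * D = 0

attribute [instance] Obj.fin Obj.dec

/-- the complex specialised at `s = 1` -/
def Obj.E {n B : ℤ} (M : Obj n B) : Matrix M.I M.I (ZMod 2) := M.D.map ev

/-- A complex with a chosen generator of `H^0` (at `s = 1`). -/
structure GObj (n B : ℤ) extends Obj n B where
  eps : I → ZMod 2
  z : I → ZMod 2
  eps_deg : ∀ e, eps e ≠ 0 → deg e = 0
  z_deg : ∀ e, z e ≠ 0 → deg e = 0
  eps_coc : (D.map ev) *ᵥ eps = 0
  z_cyc : z ᵥ* (D.map ev) = 0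
  pair : z ⬝ᵥ eps = 1
  exact : ∀ v : I → ZMod 2, (∀ e, v e ≠ 0 → deg e = 0) → v ᵥ* (D.map ev) = 0 → v ⬝ᵥ eps = 0 →
    ∃ w : I → ZMod 2, (∀ e, w e ≠ 0 → deg e = -1) ∧ w ᵥ* (D.map ev) = v

/-- chain map of level `l` -/
structure IsMap {n B : ℤ} (M M' : Obj n B) (l : ℤ) (φ : Matrix M.I M'.I A) : Prop where
  fil : ∀ g e, Fil n B (M.pos g - M'.pos e + (l, l)) (φ g e)
  deg : ∀ g e, φ g e ≠ 0 → M'.deg e = M.deg g
  comm : M.D * φ = φ * M'.D

/-- there is a rationally nonzero chain map of level `l` -/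
def Le {n B : ℤ} (M M' : GObj n B) (l : ℤ) : Prop :=
  ∃ φ : Matrix M.I M'.I A, IsMap M.toObj M'.toObj l φ ∧ (M.z ᵥ* (φ.map ev)) ⬝ᵥ M'.eps = 1

theorem cj2_fil_one {n B : ℤ} {I : Type} [Fintype I] [DecidableEq I] {d : I → I → ℤ × ℤ}
    (h : ∀ g, 0 ≤ d g g) (g e : I) : Fil n B (d g e) ((1 : Matrix I I A) g e) := by
  by_cases c : g = e
  · subst c
    rw [Matrix.one_apply_eq]
    exact fil_one (h g)
  · rw [Matrix.one_apply_ne c]
    exact fil_zero _ _ _

theorem cj2_one_ne {I : Type} [Fintype I] [DecidableEq I] {g e : I}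
    (h : (1 : Matrix I I A) g e ≠ 0) : g = e := by
  by_contra c
  exact h (Matrix.one_apply_ne c)

theorem cj2_map_one {I : Type} [Fintype I] [DecidableEq I] :
    (1 : Matrix I I A).map ev = 1 := by
  exact Matrix.map_one _ (map_zero ev) (map_one ev)

theorem cj2_map_mul {I J K : Type} [Fintype I] [Fintype J] [Fintype K] (P : Matrix I J A)
    (Q : Matrix J K A) : (P * Q).map ev = P.map ev * Q.map ev :=
  Matrix.map_mul

theorem le_refl {n B : ℤ} (M : GObj n B) : Le M M 0 := by
  refine ⟨(1 : Matrix M.I M.I A), ⟨?_, ?_, ?_⟩, ?_⟩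
  · intro g e
    refine cj2_fil_one (d := fun g e => M.pos g - M.pos e + (0, 0)) ?_ g e
    intro g
    simp only [sub_self, neg_neg, zero_add, add_zero]
    exact ⟨_root_.le_refl _, _root_.le_refl _⟩
  · intro g e h
    rw [cj2_one_ne h]
  · rw [Matrix.one_mul, Matrix.mul_one]
  · rw [cj2_map_one, Matrix.vecMul_one]
    exact M.pair

theorem le_mono {n B : ℤ} {M M' : GObj n B} {l l' : ℤ} (h : l ≤ l') (hl : Le M M' l) :
    Le M M' l' := by
  obtain ⟨φ, hφ, hp⟩ := hl
  refine ⟨φ, ⟨?_, hφ.deg, hφ.comm⟩, hp⟩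
  intro g e
  refine fil_mono ?_ (hφ.fil g e)
  constructor
  · simp only [Prod.fst_add, Prod.fst_sub]
    linarith
  · simp only [Prod.snd_add, Prod.snd_sub]
    linarith

theorem cj2_deg_mul {n B : ℤ} {M M' : Obj n B} {l : ℤ} {φ : Matrix M.I M'.I A}
    (hφ : IsMap M M' l φ) {x : M.I → ZMod 2} {k : ℤ} (hx : ∀ e, x e ≠ 0 → M.deg e = k)
    (e : M'.I) (he : (x ᵥ* (φ.map ev)) e ≠ 0) : M'.deg e = k := by
  by_contra hne
  apply he
  show ∑ i, x i * (φ.map ev) i e = 0
  refine Finset.sum_eq_zero ?_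
  intro i _
  by_cases h1 : x i = 0
  · rw [h1, zero_mul]
  · have h2 : φ i e = 0 := by
      by_contra h3
      exact hne ((hφ.deg i e h3).trans (hx i h1))
    rw [Matrix.map_apply, h2, map_zero, mul_zero]

theorem cj2_comm_map {n B : ℤ} {M M' : Obj n B} {l : ℤ} {φ : Matrix M.I M'.I A}
    (hφ : IsMap M M' l φ) : M.D.map ev * φ.map ev = φ.map ev * M'.D.map ev := by
  rw [← cj2_map_mul, ← cj2_map_mul, hφ.comm]

theorem le_trans {n B : ℤ} {M M' M'' : GObj n B} {l l' : ℤ} (h : Le M M' l)
    (h' : Le M' M'' l') : Le M M'' (l + l') := by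
  obtain ⟨φ, hφ, hp⟩ := h
  obtain ⟨ψ, hψ, hq⟩ := h'
  refine ⟨φ * ψ, ⟨?_, ?_, ?_⟩, ?_⟩
  · intro g e
    rw [Matrix.mul_apply]
    refine fil_sum _ _ ?_
    intro f _
    have h1 := fil_mul (hφ.fil g f) (hψ.fil f e)
    have e1 : M.pos g - M'.pos f + (l, l) + (M'.pos f - M''.pos e + (l', l'))
        = M.pos g - M''.pos e + (l + l', l + l') := by
      ext
      · simp only [Prod.fst_add, Prod.fst_sub]
        ring
      · simp only [Prod.snd_add, Prod.snd_sub]
        ring
    rw [e1] at h1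
    exact h1
  · intro g e hne
    rw [Matrix.mul_apply] at hne
    obtain ⟨f, _, hf⟩ := Finset.exists_ne_zero_of_sum_ne_zero hne
    have h1 : φ g f ≠ 0 := left_ne_zero_of_mul hf
    have h2 : ψ f e ≠ 0 := right_ne_zero_of_mul hf
    exact (hψ.deg f e h2).trans (hφ.deg g f h1)
  · rw [← Matrix.mul_assoc, hφ.comm, Matrix.mul_assoc, hψ.comm, Matrix.mul_assoc]
  · set x := M.z ᵥ* (φ.map ev) with hx
    have hxdeg : ∀ e, x e ≠ 0 → M'.deg e = 0 := fun e he => cj2_deg_mul hφ M.z_deg e he
    have hxc : x ᵥ* (M'.D.map ev) = 0 := by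
      rw [hx, Matrix.vecMul_vecMul, ← cj2_comm_map hφ, ← Matrix.vecMul_vecMul, M.z_cyc,
        Matrix.zero_vecMul]
    obtain ⟨w, _, hw⟩ := M'.exact (x + M'.z) (by
        intro e he
        by_cases h1 : x e = 0
        · apply M'.z_deg
          intro h2
          apply he
          rw [Pi.add_apply, h1, h2, add_zero]
        · exact hxdeg e h1) (by
        rw [Matrix.add_vecMul, hxc, M'.z_cyc, add_zero]) (by
        rw [add_dotProduct, hp, M'.pair]
        rfl)
    have hx2 : x = M'.z + w ᵥ* (M'.D.map ev) := by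
      rw [hw]
      funext e
      rw [Pi.add_apply, Pi.add_apply, add_comm (x e), ← add_assoc, CharTwo.add_self_eq_zero,
        zero_add]
    rw [cj2_map_mul, ← Matrix.vecMul_vecMul, ← hx, hx2, Matrix.add_vecMul, add_dotProduct, hq,
      Matrix.vecMul_vecMul, cj2_comm_map hψ, ← Matrix.vecMul_vecMul, ← Matrix.dotProduct_mulVec,
      M''.eps_coc, dotProduct_zero, add_zero]

/-- the dual complex -/
@[reducible] def Obj.dual {n B : ℤ} (M : Obj n B) : Obj n B where
  I := M.I
  pos := fun e => - M.pos e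
  deg := fun e => - M.deg e
  D := M.Dᵀ
  fil := fun g h => by
    have := M.fil h g
    have e : - M.pos g - - M.pos h = M.pos h - M.pos g := by abel
    rw [e]
    exact this
  hdeg := fun g h hne => by
    have := M.hdeg h g hne
    omega
  sq := by
    rw [← Matrix.transpose_mul, M.sq, Matrix.transpose_zero]

theorem exists_mulVec_of_ker {I J : Type} [Fintype I] [Fintype J] (E : Matrix I J (ZMod 2))
    (v : I → ZMod 2) (h : ∀ x : I → ZMod 2, x ᵥ* E = 0 → x ⬝ᵥ v = 0) :
    ∃ w : J → ZMod 2, E *ᵥ w = v := by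
  by_contra hcon
  push Not at hcon
  have hv : v ∉ LinearMap.range E.mulVecLin := by
    rintro ⟨w, hw⟩
    exact hcon w hw
  obtain ⟨f, hf1, hf2⟩ := Submodule.exists_le_ker_of_notMem hv
  have hx : ∀ u : I → ZMod 2, (fun i => f (Pi.single i 1)) ⬝ᵥ u = f u := by
    intro u
    have h1 : u = ∑ i, u i • (Pi.single i 1 : I → ZMod 2) := by
      funext j
      rw [Finset.sum_apply]
      simp [Pi.single_apply]
    conv_rhs => rw [h1]
    rw [map_sum]
    show ∑ i, f (Pi.single i 1) * u i = ∑ i, f (u i • Pi.single i 1)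
    refine Finset.sum_congr rfl fun i _ => ?_
    rw [map_smul, smul_eq_mul, mul_comm]
  apply hf1
  rw [← hx]
  apply h
  funext j
  have h2 := hx (E *ᵥ Pi.single j 1)
  have h3 : f (E *ᵥ Pi.single j 1) = 0 := by
    have : E *ᵥ Pi.single j 1 ∈ LinearMap.range E.mulVecLin := ⟨Pi.single j 1, rfl⟩
    exact hf2 this
  rw [h3] at h2
  rw [Pi.zero_apply, ← h2, Matrix.dotProduct_mulVec]
  simp

/-- the degree `k` part of a cycle is a cycle -/
theorem cj3_left {I : Type} [Fintype I] (E : Matrix I I (ZMod 2)) (deg : I → ℤ)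
    (hE : ∀ i j, E i j ≠ 0 → deg j = deg i + 1) (k : ℤ) (x : I → ZMod 2) (hx : x ᵥ* E = 0) :
    (fun i => if deg i = k then x i else 0) ᵥ* E = 0 := by
  funext j
  have h1 : ∑ i, x i * E i j = 0 := congrFun hx j
  show ∑ i, (if deg i = k then x i else 0) * E i j = 0
  by_cases hj : deg j = k + 1
  · refine Eq.trans ?_ h1
    refine Finset.sum_congr rfl fun i _ => ?_
    by_cases hi : deg i = k
    · rw [if_pos hi]
    · rw [if_neg hi, zero_mul]
      by_cases h2 : E i j = 0
      · rw [h2, mul_zero]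
      · have := hE i j h2
        omega
  · refine Finset.sum_eq_zero fun i _ => ?_
    by_cases hi : deg i = k
    · by_cases h2 : E i j = 0
      · rw [h2, mul_zero]
      · have := hE i j h2
        omega
    · rw [if_neg hi, zero_mul]

/-- a preimage of a homogeneous vector can be made homogeneous -/
theorem cj3_right {I : Type} [Fintype I] (E : Matrix I I (ZMod 2)) (deg : I → ℤ)
    (hE : ∀ i j, E i j ≠ 0 → deg j = deg i + 1) (k : ℤ) (v w : I → ZMod 2)
    (hv : ∀ e, v e ≠ 0 → deg e = k) (hw : E *ᵥ w = v) :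
    E *ᵥ (fun i => if deg i = k + 1 then w i else 0) = v := by
  funext i
  have h1 : ∑ j, E i j * w j = v i := congrFun hw i
  show ∑ j, E i j * (if deg j = k + 1 then w j else 0) = v i
  by_cases hi : deg i = k
  · rw [← h1]
    refine Finset.sum_congr rfl fun j _ => ?_
    by_cases hj : deg j = k + 1
    · rw [if_pos hj]
    · rw [if_neg hj, mul_zero]
      by_cases h2 : E i j = 0
      · rw [h2, zero_mul]
      · have := hE i j h2
        omega
  · have h3 : v i = 0 := by
      by_contra h4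
      exact hi (hv i h4)
    rw [h3]
    refine Finset.sum_eq_zero fun j _ => ?_
    by_cases hj : deg j = k + 1
    · by_cases h2 : E i j = 0
      · rw [h2, zero_mul]
      · have := hE i j h2
        omega
    · rw [if_neg hj, mul_zero]

/-- dot product of a vector with its homogeneous part -/
theorem cj3_dot {I : Type} [Fintype I] (deg : I → ℤ) (k : ℤ) (x v : I → ZMod 2)
    (hv : ∀ e, v e ≠ 0 → deg e = k) :
    (fun i => if deg i = k then x i else 0) ⬝ᵥ v = x ⬝ᵥ v := by
  show ∑ i, (if deg i = k then x i else 0) * v i = ∑ i, x i * v i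
  refine Finset.sum_congr rfl fun i _ => ?_
  by_cases hi : deg i = k
  · rw [if_pos hi]
  · have h3 : v i = 0 := by
      by_contra h4
      exact hi (hv i h4)
    rw [h3, mul_zero, mul_zero]

theorem cj3_hom {n B : ℤ} (M : Obj n B) (i j : M.I) (h : M.D.map ev i j ≠ 0) :
    M.deg j = M.deg i + 1 := by
  apply M.hdeg
  intro h0
  apply h
  rw [Matrix.map_apply, h0, map_zero]

theorem dual_exact {n B : ℤ} (M : GObj n B) (v : M.I → ZMod 2)
    (hv : ∀ e, v e ≠ 0 → - M.deg e = 0) (hc : v ᵥ* (M.Dᵀ.map ev) = 0) (hz : v ⬝ᵥ M.z = 0) :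
    ∃ w : M.I → ZMod 2, (∀ e, w e ≠ 0 → - M.deg e = -1) ∧ w ᵥ* (M.Dᵀ.map ev) = v := by
  have hv' : ∀ e, v e ≠ 0 → M.deg e = 0 := fun e he => by
    have := hv e he
    omega
  have hE := cj3_hom M.toObj
  have hc' : M.D.map ev *ᵥ v = 0 := by
    rw [Matrix.transpose_map, Matrix.vecMul_transpose] at hc
    exact hc
  obtain ⟨w, hw⟩ := exists_mulVec_of_ker (M.D.map ev) v (by
    intro x hx
    have h0 := cj3_left _ M.deg hE 0 x hx
    rw [← cj3_dot M.deg 0 x v hv']
    set x0 : M.I → ZMod 2 := fun i => if M.deg i = 0 then x i else 0 with hx0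
    have hx0d : ∀ e, x0 e ≠ 0 → M.deg e = 0 := by
      intro e he
      by_contra h1
      apply he
      simp only [hx0]
      rw [if_neg h1]
    set c : ZMod 2 := x0 ⬝ᵥ M.eps with hcdef
    obtain ⟨w', _, hw'⟩ := M.exact (x0 + c • M.z) (by
      intro e he
      by_cases h1 : x0 e = 0
      · apply M.z_deg
        intro h2
        apply he
        rw [Pi.add_apply, Pi.smul_apply, h1, h2, smul_zero, add_zero]
      · exact hx0d e h1) (by
      rw [Matrix.add_vecMul, Matrix.smul_vecMul, h0, M.z_cyc, smul_zero, add_zero]) (by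
      rw [add_dotProduct, smul_dotProduct, M.pair, ← hcdef, smul_eq_mul, mul_one]
      exact CharTwo.add_self_eq_zero c)
    have h3 : (x0 + c • M.z) ⬝ᵥ v = 0 := by
      rw [← hw', ← Matrix.dotProduct_mulVec, hc', dotProduct_zero]
    rw [add_dotProduct, smul_dotProduct, dotProduct_comm M.z v, hz, smul_zero, add_zero] at h3
    exact h3)
  refine ⟨fun i => if M.deg i = 0 + 1 then w i else 0, ?_, ?_⟩
  · intro e he
    by_cases h1 : M.deg e = 0 + 1
    · omega
    · exact absurd (if_neg h1) he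
  · rw [Matrix.transpose_map, Matrix.vecMul_transpose]
    exact cj3_right _ M.deg hE 0 v w hv' hw

/-- dual with its generator; exactness by duality of finite dimensional spaces over `F_2` -/
@[reducible] def GObj.dual {n B : ℤ} (M : GObj n B) : GObj n B where
  toObj := M.toObj.dual
  eps := M.z
  z := M.eps
  eps_deg := fun e he => by
    have := M.z_deg e he
    show - M.deg e = 0
    omega
  z_deg := fun e he => by
    have := M.eps_deg e he
    show - M.deg e = 0
    omega
  eps_coc := by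
    have := M.z_cyc
    show (M.Dᵀ.map ev) *ᵥ M.z = 0
    rw [Matrix.transpose_map, Matrix.mulVec_transpose]
    exact this
  z_cyc := by
    have := M.eps_coc
    show M.eps ᵥ* (M.Dᵀ.map ev) = 0
    rw [Matrix.transpose_map, Matrix.vecMul_transpose]
    exact this
  pair := by
    exact (dotProduct_comm M.eps M.z).trans M.pair
  exact := fun v hv hc hz => dual_exact M v hv hc hz

theorem le_dual {n B : ℤ} {M M' : GObj n B} {l : ℤ} (h : Le M M' l) :
    Le M'.dual M.dual l := by
  obtain ⟨φ, hφ, hp⟩ := h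
  refine ⟨φᵀ, ⟨?_, ?_, ?_⟩, ?_⟩
  · intro g e
    have h1 := hφ.fil e g
    have e1 : - M'.pos g - - M.pos e + (l, l) = M.pos e - M'.pos g + (l, l) := by abel
    show Fil n B (- M'.pos g - - M.pos e + (l, l)) (φ e g)
    rw [e1]
    exact h1
  · intro g e hne
    have h1 := hφ.deg e g hne
    show - M.deg e = - M'.deg g
    rw [h1]
  · show M'.Dᵀ * φᵀ = φᵀ * M.Dᵀ
    rw [← Matrix.transpose_mul, ← Matrix.transpose_mul, hφ.comm]
  · show (M'.eps ᵥ* (φᵀ.map ev)) ⬝ᵥ M.z = 1
    rw [Matrix.transpose_map, Matrix.vecMul_transpose, dotProduct_comm, Matrix.dotProduct_mulVec]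
    exact hp

theorem le_dual_dual {n B : ℤ} (M : GObj n B) :
    Le M M.dual.dual 0 ∧ Le M.dual.dual M 0 := by
  constructor
  · refine ⟨(1 : Matrix M.I M.I A), ⟨?_, ?_, ?_⟩, ?_⟩
    · intro g e
      refine cj2_fil_one (d := fun g e => M.pos g - - - M.pos e + (0, 0)) ?_ g e
      intro g
      simp only [sub_self, neg_neg, zero_add, add_zero]
      exact ⟨_root_.le_refl _, _root_.le_refl _⟩
    · intro g e h
      rw [cj2_one_ne h]
      show - - M.deg e = M.deg e
      rw [neg_neg]
    · show M.D * (1 : Matrix M.I M.I A) = (1 : Matrix M.I M.I A) * M.Dᵀᵀ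
      rw [Matrix.one_mul, Matrix.mul_one, Matrix.transpose_transpose]
    · show (M.z ᵥ* ((1 : Matrix M.I M.I A).map ev)) ⬝ᵥ M.eps = 1
      rw [cj2_map_one, Matrix.vecMul_one]
      exact M.pair
  · refine ⟨(1 : Matrix M.I M.I A), ⟨?_, ?_, ?_⟩, ?_⟩
    · intro g e
      refine cj2_fil_one (d := fun g e => - - M.pos g - M.pos e + (0, 0)) ?_ g e
      intro g
      simp only [sub_self, neg_neg, zero_add, add_zero]
      exact ⟨_root_.le_refl _, _root_.le_refl _⟩
    · intro g e h
      rw [cj2_one_ne h]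
      show M.deg e = - - M.deg e
      rw [neg_neg]
    · show M.Dᵀᵀ * (1 : Matrix M.I M.I A) = (1 : Matrix M.I M.I A) * M.D
      rw [Matrix.one_mul, Matrix.mul_one, Matrix.transpose_transpose]
    · show (M.z ᵥ* ((1 : Matrix M.I M.I A).map ev)) ⬝ᵥ M.eps = 1
      rw [cj2_map_one, Matrix.vecMul_one]
      exact M.pair

/-- vanishing of the cohomology in degree `k` at `s = 1` -/
def HZero {n B : ℤ} (M : Obj n B) (k : ℤ) : Prop :=
  ∀ v : M.I → ZMod 2, (∀ e, v e ≠ 0 → M.deg e = k) → v ᵥ* M.E = 0 →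
    ∃ w : M.I → ZMod 2, (∀ e, w e ≠ 0 → M.deg e = k - 1) ∧ w ᵥ* M.E = v

theorem hzero_dual {n B : ℤ} {M : Obj n B} {k : ℤ} (h : HZero M k) : HZero M.dual (-k) := by
  intro v hv hc
  have hv' : ∀ e, v e ≠ 0 → M.deg e = k := fun e he => by
    have := hv e he
    have h2 : - M.deg e = -k := this
    omega
  have hE := cj3_hom M
  have hc' : M.D.map ev *ᵥ v = 0 := by
    have h1 : v ᵥ* (M.Dᵀ.map ev) = 0 := hc
    rw [Matrix.transpose_map, Matrix.vecMul_transpose] at h1
    exact h1
  obtain ⟨w, hw⟩ := exists_mulVec_of_ker (M.D.map ev) v (by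
    intro x hx
    have h0 := cj3_left _ M.deg hE k x hx
    rw [← cj3_dot M.deg k x v hv']
    obtain ⟨w', _, hw'⟩ := h (fun i => if M.deg i = k then x i else 0) (by
      intro e he
      by_contra h1
      exact he (if_neg h1)) h0
    have hw'' : w' ᵥ* (M.D.map ev) = fun i => if M.deg i = k then x i else 0 := hw'
    rw [← hw'', ← Matrix.dotProduct_mulVec, hc', dotProduct_zero])
  refine ⟨fun i => if M.deg i = k + 1 then w i else 0, ?_, ?_⟩
  · intro e he
    have he' : (if M.deg e = k + 1 then w e else 0) ≠ 0 := he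
    show - M.deg e = -k - 1
    by_cases h1 : M.deg e = k + 1
    · omega
    · exact absurd (if_neg h1) he'
  · show (fun i => if M.deg i = k + 1 then w i else 0) ᵥ* (M.Dᵀ.map ev) = v
    rw [Matrix.transpose_map, Matrix.vecMul_transpose]
    exact cj3_right _ M.deg hE k v w hv' hw

/-- `1 + s` is null-homotopic with a homotopy of level `B` -/
def Null {n B : ℤ} (M : Obj n B) : Prop :=
  ∃ h : Matrix M.I M.I A, (∀ g e, Fil n B (M.pos g - M.pos e + (B, B)) (h g e)) ∧
    (∀ g e, h g e ≠ 0 → M.deg e = M.deg g - 1) ∧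
    M.D * h + h * M.D = (1 + sp 1 : A) • (1 : Matrix M.I M.I A)

theorem null_dual {n B : ℤ} {M : Obj n B} (h : Null M) : Null M.dual := by
  obtain ⟨h, h1, h2, h3⟩ := h
  refine ⟨hᵀ, ?_, ?_, ?_⟩
  · intro g e
    have e1 : - M.pos g - - M.pos e + (B, B) = M.pos e - M.pos g + (B, B) := by abel
    show Fil n B (- M.pos g - - M.pos e + (B, B)) (h e g)
    rw [e1]
    exact h1 e g
  · intro g e hne
    have := h2 e g hne
    show - M.deg e = - M.deg g - 1
    omega
  · show M.Dᵀ * hᵀ + hᵀ * M.Dᵀ = (1 + sp 1 : A) • (1 : Matrix M.I M.I A)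
    rw [← Matrix.transpose_mul, ← Matrix.transpose_mul, ← Matrix.transpose_add, add_comm, h3,
      Matrix.transpose_smul, Matrix.transpose_one]

/-- shift of positions by `q` -/
@[reducible] def Obj.shift {n B : ℤ} (q : ℤ × ℤ) (M : Obj n B) : Obj n B where
  I := M.I
  pos := fun e => M.pos e + q
  deg := M.deg
  D := M.D
  fil := fun g h => by
    have := M.fil g h
    have e : M.pos g + q - (M.pos h + q) = M.pos g - M.pos h := by abel
    rw [e]
    exact this
  hdeg := M.hdeg
  sq := M.sq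

@[reducible] def GObj.shift {n B : ℤ} (q : ℤ × ℤ) (M : GObj n B) : GObj n B where
  toObj := M.toObj.shift q
  eps := M.eps
  z := M.z
  eps_deg := M.eps_deg
  z_deg := M.z_deg
  eps_coc := M.eps_coc
  z_cyc := M.z_cyc
  pair := M.pair
  exact := M.exact

theorem le_shift {n B : ℤ} {M M' : GObj n B} {l : ℤ} (q : ℤ × ℤ) (h : Le M M' l) :
    Le (M.shift q) (M'.shift q) l := by
  obtain ⟨φ, hφ, hp⟩ := h
  refine ⟨φ, ⟨?_, hφ.deg, hφ.comm⟩, hp⟩
  intro g e
  have e1 : M.pos g + q - (M'.pos e + q) + (l, l) = M.pos g - M'.pos e + (l, l) := by abel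
  show Fil n B (M.pos g + q - (M'.pos e + q) + (l, l)) (φ g e)
  rw [e1]
  exact hφ.fil g e

theorem le_shift_shift {n B : ℤ} (M : GObj n B) {q q' : ℤ × ℤ} {l : ℤ}
    (h : q' ≤ q + (l, l)) : Le (M.shift q) (M.shift q') l := by
  refine ⟨(1 : Matrix M.I M.I A), ⟨?_, ?_, ?_⟩, ?_⟩
  · intro g e
    refine cj2_fil_one (d := fun g e => M.pos g + q - (M.pos e + q') + (l, l)) ?_ g e
    intro g
    have e1 : M.pos g + q - (M.pos g + q') + (l, l) = q + (l, l) - q' := by abel
    show 0 ≤ M.pos g + q - (M.pos g + q') + (l, l)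
    rw [e1]
    exact sub_nonneg.2 h
  · intro g e h
    rw [cj2_one_ne h]
  · show M.D * (1 : Matrix M.I M.I A) = (1 : Matrix M.I M.I A) * M.D
    rw [Matrix.one_mul, Matrix.mul_one]
  · show (M.z ᵥ* ((1 : Matrix M.I M.I A).map ev)) ⬝ᵥ M.eps = 1
    rw [cj2_map_one, Matrix.vecMul_one]
    exact M.pair

theorem le_shift_cancel {n B : ℤ} (M : GObj n B) {q q' : ℤ × ℤ} (h : q + q' = 0) :
    Le M ((M.shift q).shift q') 0 ∧ Le ((M.shift q).shift q') M 0 := by
  constructor
  · refine ⟨(1 : Matrix M.I M.I A), ⟨?_, ?_, ?_⟩, ?_⟩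
    · intro g e
      refine cj2_fil_one (d := fun g e => M.pos g - (M.pos e + q + q') + (0, 0)) ?_ g e
      intro g
      show 0 ≤ M.pos g - (M.pos g + q + q') + (0, 0)
      rw [add_assoc, h]
      simp only [sub_self, neg_neg, zero_add, add_zero]
      exact ⟨_root_.le_refl _, _root_.le_refl _⟩
    · intro g e h
      rw [cj2_one_ne h]
    · show M.D * (1 : Matrix M.I M.I A) = (1 : Matrix M.I M.I A) * M.D
      rw [Matrix.one_mul, Matrix.mul_one]
    · show (M.z ᵥ* ((1 : Matrix M.I M.I A).map ev)) ⬝ᵥ M.eps = 1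
      rw [cj2_map_one, Matrix.vecMul_one]
      exact M.pair
  · refine ⟨(1 : Matrix M.I M.I A), ⟨?_, ?_, ?_⟩, ?_⟩
    · intro g e
      refine cj2_fil_one (d := fun g e => M.pos g + q + q' - M.pos e + (0, 0)) ?_ g e
      intro g
      show 0 ≤ M.pos g + q + q' - M.pos g + (0, 0)
      rw [add_assoc, h]
      simp only [sub_self, neg_neg, zero_add, add_zero]
      exact ⟨_root_.le_refl _, _root_.le_refl _⟩
    · intro g e h
      rw [cj2_one_ne h]
    · show M.D * (1 : Matrix M.I M.I A) = (1 : Matrix M.I M.I A) * M.D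
      rw [Matrix.one_mul, Matrix.mul_one]
    · show (M.z ᵥ* ((1 : Matrix M.I M.I A).map ev)) ⬝ᵥ M.eps = 1
      rw [cj2_map_one, Matrix.vecMul_one]
      exact M.pair

/-- the unit object `L_0`: one generator at position `0`, degree `0` -/
@[reducible] def L0 (n B : ℤ) : GObj n B where
  I := Unit
  pos := fun _ => 0
  deg := fun _ => 0
  D := 0
  fil := fun g h => fil_zero n B _
  hdeg := fun g h hne => absurd rfl hne
  sq := by simp
  eps := fun _ => 1
  z := fun _ => 1
  eps_deg := fun _ _ => rfl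
  z_deg := fun _ _ => rfl
  eps_coc := by
    ext e
    simp [Matrix.mulVec, dotProduct]
  z_cyc := by
    ext e
    simp [Matrix.vecMul, dotProduct]
  pair := by simp [dotProduct]
  exact := by
    intro v _ _ h
    refine ⟨0, by simp, ?_⟩
    have : v () = 0 := by simpa [dotProduct] using h
    ext e
    simp [this]

/-- differential of the circle object -/
def ShD : Matrix Bool Bool A :=
  Matrix.of fun g h => if g = true ∧ h = false then (1 + sp 1) else 0

theorem ShD_apply (g h : Bool) : ShD g h = if g = true ∧ h = false then (1 + sp 1) else 0 := rfl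

theorem ShD_sq : ShD * ShD = 0 := by
  ext g h : 2
  rw [Matrix.mul_apply, Matrix.zero_apply]
  simp [ShD_apply]

theorem ShD_map : ShD.map ev = 0 := by
  apply Matrix.ext
  intro g h
  rw [Matrix.map_apply, ShD_apply, Matrix.zero_apply]
  by_cases c : g = true ∧ h = false
  · rw [if_pos c, map_add, map_one, ev_sp]
    rfl
  · rw [if_neg c, map_zero]

/-- the circle object: generators `f = false` (position `0`, degree `0`) and
`g = true` (position `(B,0)`, degree `-1`), `D g = (1+s) f`. -/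
@[reducible] def Sh (n B : ℤ) (hB : 0 ≤ B) (hn : B ≤ n) : GObj n B where
  I := Bool
  pos := fun b => if b then (B, 0) else 0
  deg := fun b => if b then -1 else 0
  D := ShD
  fil := fun g h => by
    rw [ShD_apply]
    by_cases c : g = true ∧ h = false
    · obtain ⟨rfl, rfl⟩ := c
      simp only [if_true, and_self, Bool.false_eq_true, if_false, sub_zero]
      apply fil_add
      · exact fil_one ⟨by simpa using hB, by simp⟩
      · exact fil_sp (by simp) (by simp; linarith)
    · rw [if_neg c]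
      exact fil_zero _ _ _
  hdeg := fun g h hne => by
    rw [ShD_apply] at hne
    by_cases c : g = true ∧ h = false
    · obtain ⟨rfl, rfl⟩ := c
      simp
    · rw [if_neg c] at hne
      exact absurd rfl hne
  sq := ShD_sq
  eps := fun b => if b then 0 else 1
  z := fun b => if b then 0 else 1
  eps_deg := fun b hb => by
    cases b <;> simp_all
  z_deg := fun b hb => by
    cases b <;> simp_all
  eps_coc := by
    show ShD.map ev *ᵥ _ = 0
    rw [ShD_map, Matrix.zero_mulVec]
  z_cyc := by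
    show _ ᵥ* ShD.map ev = 0
    rw [ShD_map, Matrix.vecMul_zero]
  pair := by simp [dotProduct]
  exact := by
    intro v hv _ h
    have h1 : v true = 0 := by
      by_contra hcon
      have := hv true hcon
      simp at this
    have h2 : v false = 0 := by
      simpa [dotProduct] using h
    refine ⟨0, fun e he => absurd rfl he, ?_⟩
    rw [Matrix.zero_vecMul]
    funext e
    cases e
    · exact h2.symm
    · exact h1.symm

/-- the homotopy of the circle object -/
def cj4_h : Matrix Bool Bool A :=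
  Matrix.of fun g h => if g = false ∧ h = true then 1 else 0

theorem cj4_h_apply (g h : Bool) : cj4_h g h = if g = false ∧ h = true then 1 else 0 := rfl

theorem null_Sh {n B : ℤ} (hB : 0 ≤ B) (hn : B ≤ n) : Null (Sh n B hB hn).toObj := by
  refine ⟨cj4_h, ?_, ?_, ?_⟩
  · intro g e
    rw [cj4_h_apply]
    by_cases c : g = false ∧ e = true
    · obtain ⟨rfl, rfl⟩ := c
      rw [if_pos ⟨rfl, rfl⟩]
      apply fil_one
      constructor
      · simp
      · simpa using hB
    · rw [if_neg c]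
      exact fil_zero _ _ _
  · intro g e hne
    rw [cj4_h_apply] at hne
    by_cases c : g = false ∧ e = true
    · obtain ⟨rfl, rfl⟩ := c
      simp
    · rw [if_neg c] at hne
      exact absurd rfl hne
  · show ShD * cj4_h + cj4_h * ShD = (1 + sp 1 : A) • (1 : Matrix Bool Bool A)
    apply Matrix.ext
    intro g e
    rw [Matrix.add_apply, Matrix.mul_apply, Matrix.mul_apply, Matrix.smul_apply,
      Fintype.sum_bool, Fintype.sum_bool]
    simp only [ShD_apply, cj4_h_apply]
    cases g <;> cases e <;> simp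

theorem hzero_Sh {n B : ℤ} (hB : 0 ≤ B) (hn : B ≤ n) : HZero (Sh n B hB hn).toObj 1 := by
  intro v hv _
  refine ⟨0, fun e he => absurd rfl he, ?_⟩
  rw [Matrix.zero_vecMul]
  funext e
  by_contra hcon
  have h1 := hv e (Ne.symm hcon)
  cases e <;> simp at h1

end

end MWC
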