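import Pool.Agent.Lib.MP_cbfcf7.C1

/-!
# The twist functor `Φ_i` on objects
-/

namespace MWC

noncomputable section

open scoped Classical
open Matrix

/-- index set of the generators in the class `i` -/
abbrev CI {n B : ℤ} (i : ℤ) (M : Obj n B) : Type := {e : M.I // Cl n i (M.pos e)}

/-- part of `D` with positive `j`-displacement -/
def DT {n B : ℤ} (M : Obj n B) : Matrix M.I M.I A :=
  Matrix.of fun g h => part (fun k => 0 < jj (M.pos g) - jj (M.pos h) - k * n) (M.D g h)

/-- part of `D` with `j`-displacement zero -/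
def DZ {n B : ℤ} (M : Obj n B) : Matrix M.I M.I A :=
  Matrix.of fun g h => part (fun k => jj (M.pos g) - jj (M.pos h) - k * n = 0) (M.D g h)

/-- part of `D` with negative `j`-displacement -/
def DB {n B : ℤ} (M : Obj n B) : Matrix M.I M.I A :=
  Matrix.of fun g h => part (fun k => jj (M.pos g) - jj (M.pos h) - k * n < 0) (M.D g h)

/-- `V → V_C`, the positive part of `D` followed by the projection to class `i` -/
def mA {n B : ℤ} (i : ℤ) (M : Obj n B) : Matrix M.I (CI i M) A := Matrix.of fun g h => DT M g h.1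

/-- the zero part of `D` on class `i` -/
def mB {n B : ℤ} (i : ℤ) (M : Obj n B) : Matrix (CI i M) (CI i M) A :=
  Matrix.of fun g h => DZ M g.1 h.1

/-- inclusion `V_C → V` -/
def mP {n B : ℤ} (i : ℤ) (M : Obj n B) : Matrix (CI i M) M.I A :=
  Matrix.of fun g h => if g.1 = h then 1 else 0

/-- the correction term -/
def mC {n B : ℤ} (i : ℤ) (M : Obj n B) : Matrix M.I (CI i M) A :=
  M.D * mA i M + mA i M * mB i M

/-- index set of `Φ_i M`: `inl e` is `e` (class `≠ i`) or `e_b` (class `i`),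
`inr (inl e)` is `e_t`, `inr (inr e)` is `e_u`. -/
abbrev PI {n B : ℤ} (i : ℤ) (M : Obj n B) : Type := M.I ⊕ (CI i M ⊕ CI i M)

def pPos {n B : ℤ} (i : ℤ) (M : Obj n B) : PI i M → ℤ × ℤ
  | Sum.inl e => M.pos e + (if Cl n i (M.pos e) then (0, 1) else 0)
  | Sum.inr (Sum.inl e) => M.pos e.1 + (1, 0)
  | Sum.inr (Sum.inr e) => M.pos e.1 + (1, 1)

def pDeg {n B : ℤ} (i : ℤ) (M : Obj n B) : PI i M → ℤ
  | Sum.inl e => M.deg e
  | Sum.inr (Sum.inl e) => M.deg e.1
  | Sum.inr (Sum.inr e) => M.deg e.1 - 1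

def pVV {n B : ℤ} (i : ℤ) (M : Obj n B) : Matrix M.I M.I A := M.D + mA i M * mP i M

def pTV {n B : ℤ} (i : ℤ) (M : Obj n B) : Matrix (CI i M) M.I A :=
  mP i M * M.D + (mP i M * mA i M + mB i M) * mP i M

def pTT {n B : ℤ} (i : ℤ) (M : Obj n B) : Matrix (CI i M) (CI i M) A :=
  mP i M * mA i M + mB i M

def pTU {n B : ℤ} (i : ℤ) (M : Obj n B) : Matrix (CI i M) (CI i M) A :=
  mP i M * mC i M + mB i M * mB i M

/-- the differential of `Φ_i M` -/
def pD {n B : ℤ} (i : ℤ) (M : Obj n B) : Matrix (PI i M) (PI i M) A :=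
  Matrix.fromBlocks (pVV i M) (Matrix.fromCols (mA i M) (mC i M))
    (Matrix.fromRows (pTV i M) (mP i M))
    (Matrix.fromBlocks (pTT i M) (pTU i M) 1 (mB i M))

theorem mC_mul_mB_aux {n B : ℤ} (i : ℤ) (M : Obj n B) :
    M.D * mC i M = M.D * (mA i M * mB i M) := by
  unfold mC
  rw [Matrix.mul_add, ← Matrix.mul_assoc, M.sq, Matrix.zero_mul, zero_add]

theorem mat_add_self {α β : Type*} (X : Matrix α β A) : X + X = 0 := by
  apply Matrix.ext
  intro g h
  exact A_add_self (X g h)

theorem cj5_two {α β : Type*} (X : Matrix α β A) : (2 : ℕ) • X = 0 := by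
  rw [two_nsmul, mat_add_self]

theorem cj5_twoz {α β : Type*} (X : Matrix α β A) : (2 : ℤ) • X = 0 := by
  rw [two_zsmul, mat_add_self]

section
variable {V C : Type} [Fintype V] [DecidableEq V] [Fintype C] [DecidableEq C]
  (D : Matrix V V A) (a : Matrix V C A) (b : Matrix C C A) (P : Matrix C V A) (c : Matrix V C A)

theorem cj5_D (hD : D * D = 0) {κ : Type} [Fintype κ] (X : Matrix V κ A) : D * (D * X) = 0 := by
  rw [← Matrix.mul_assoc, hD, Matrix.zero_mul]

theorem cj5_VV (hD : D * D = 0) (hc : c = D * a + a * b) :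
    (D + a * P) * (D + a * P) + a * (P * D + (P * a + b) * P) + c * P = 0 := by
  subst hc
  simp only [Matrix.mul_add, Matrix.add_mul, Matrix.mul_assoc, hD]
  abel_nf
  simp only [cj5_two, cj5_twoz, add_zero, zero_add]

theorem cj5_VT (hc : c = D * a + a * b) :
    (D + a * P) * a + a * (P * a + b) + c = 0 := by
  subst hc
  simp only [Matrix.mul_add, Matrix.add_mul, Matrix.mul_assoc]
  abel_nf
  simp only [cj5_two, cj5_twoz, add_zero, zero_add]

theorem cj5_VU (hD : D * D = 0) (hc : c = D * a + a * b) :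
    (D + a * P) * c + a * (P * c + b * b) + c * b = 0 := by
  subst hc
  simp only [Matrix.mul_add, Matrix.add_mul, Matrix.mul_assoc, cj5_D D hD]
  abel_nf
  simp only [cj5_two, cj5_twoz, add_zero, zero_add]

theorem cj5_TV (hD : D * D = 0) (hc : c = D * a + a * b) :
    (P * D + (P * a + b) * P) * (D + a * P) + (P * a + b) * (P * D + (P * a + b) * P) +
      (P * c + b * b) * P = 0 := by
  subst hc
  simp only [Matrix.mul_add, Matrix.add_mul, Matrix.mul_assoc, hD, Matrix.mul_zero]
  abel_nf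
  simp only [cj5_two, cj5_twoz, add_zero, zero_add]

theorem cj5_TT (hc : c = D * a + a * b) :
    (P * D + (P * a + b) * P) * a + (P * a + b) * (P * a + b) + (P * c + b * b) = 0 := by
  subst hc
  simp only [Matrix.mul_add, Matrix.add_mul, Matrix.mul_assoc]
  abel_nf
  simp only [cj5_two, cj5_twoz, add_zero, zero_add]

theorem cj5_TU (hD : D * D = 0) (hc : c = D * a + a * b) :
    (P * D + (P * a + b) * P) * c + (P * a + b) * (P * c + b * b) + (P * c + b * b) * b = 0 := by
  subst hc
  simp only [Matrix.mul_add, Matrix.add_mul, Matrix.mul_assoc, cj5_D D hD, Matrix.mul_zero]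
  abel_nf
  simp only [cj5_two, cj5_twoz, add_zero, zero_add]

theorem cj5_UV : P * (D + a * P) + (P * D + (P * a + b) * P) + b * P = 0 := by
  simp only [Matrix.mul_add, Matrix.add_mul, Matrix.mul_assoc]
  abel_nf
  simp only [cj5_two, cj5_twoz, add_zero, zero_add]

theorem cj5_UT : P * a + (P * a + b) + b = 0 := by
  abel_nf
  simp only [cj5_two, cj5_twoz, add_zero, zero_add]

theorem cj5_UU : P * c + (P * c + b * b) + b * b = 0 := by
  abel_nf
  simp only [cj5_two, cj5_twoz, add_zero, zero_add]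

end

theorem pD_sq {n B : ℤ} (i : ℤ) (M : Obj n B) : pD i M * pD i M = 0 := by
  have hD := M.sq
  have hc : mC i M = M.D * mA i M + mA i M * mB i M := rfl
  apply Matrix.ext
  rintro (g | g | g) (h | h | h)
  · have := congrFun (congrFun (cj5_VV M.D (mA i M) (mB i M) (mP i M) (mC i M) hD hc) g) h
    simpa [pD, Matrix.mul_apply, Fintype.sum_sum_type, pVV, pTV, pTT, pTU, add_assoc,
      Matrix.one_apply] using this
  · have := congrFun (congrFun (cj5_VT M.D (mA i M) (mB i M) (mP i M) (mC i M) hc) g) h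
    simpa [pD, Matrix.mul_apply, Fintype.sum_sum_type, pVV, pTV, pTT, pTU, add_assoc,
      Matrix.one_apply] using this
  · have := congrFun (congrFun (cj5_VU M.D (mA i M) (mB i M) (mP i M) (mC i M) hD hc) g) h
    simpa [pD, Matrix.mul_apply, Fintype.sum_sum_type, pVV, pTV, pTT, pTU, add_assoc,
      Matrix.one_apply] using this
  · have := congrFun (congrFun (cj5_TV M.D (mA i M) (mB i M) (mP i M) (mC i M) hD hc) g) h
    simpa [pD, Matrix.mul_apply, Fintype.sum_sum_type, pVV, pTV, pTT, pTU, add_assoc,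
      Matrix.one_apply] using this
  · have := congrFun (congrFun (cj5_TT M.D (mA i M) (mB i M) (mP i M) (mC i M) hc) g) h
    simpa [pD, Matrix.mul_apply, Fintype.sum_sum_type, pVV, pTV, pTT, pTU, add_assoc,
      Matrix.one_apply] using this
  · have := congrFun (congrFun (cj5_TU M.D (mA i M) (mB i M) (mP i M) (mC i M) hD hc) g) h
    simpa [pD, Matrix.mul_apply, Fintype.sum_sum_type, pVV, pTV, pTT, pTU, add_assoc,
      Matrix.one_apply] using this
  · have := congrFun (congrFun (cj5_UV M.D (mA i M) (mB i M) (mP i M)) g) h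
    simpa [pD, Matrix.mul_apply, Fintype.sum_sum_type, pVV, pTV, pTT, pTU, add_assoc,
      Matrix.one_apply] using this
  · have := congrFun (congrFun (cj5_UT (mA i M) (mB i M) (mP i M)) g) h
    simpa [pD, Matrix.mul_apply, Fintype.sum_sum_type, pVV, pTV, pTT, pTU, add_assoc,
      Matrix.one_apply] using this
  · have := congrFun (congrFun (cj5_UU (mB i M) (mP i M) (mC i M)) g) h
    simpa [pD, Matrix.mul_apply, Fintype.sum_sum_type, pVV, pTV, pTT, pTU, add_assoc,
      Matrix.one_apply] using this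

theorem cj6_fil_inf {n B : ℤ} {d d' : ℤ × ℤ} {a : A} (ha : Fil n B d a) (hb : Fil n B d' a)
    {e : ℤ × ℤ} (h1 : d.1 ≤ e.1 ∨ d'.1 ≤ e.1) (h2 : d.2 ≤ e.2 ∨ d'.2 ≤ e.2) : Fil n B e a := by
  intro k hk
  have := ha k hk
  have := hb k hk
  constructor
  · rcases h1 with h | h <;> omega
  · rcases h2 with h | h <;> omega

theorem cj6_DT_fil {n B : ℤ} (M : Obj n B) (g h : M.I) :
    Fil n B (M.pos g - M.pos h - (1, 0)) (DT M g h) := by
  intro k hk
  unfold DT at hk
  rw [Matrix.of_apply, coeff_part] at hk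
  by_cases hP : 0 < jj (M.pos g) - jj (M.pos h) - k * n
  · rw [if_pos hP] at hk
    have h1 := M.fil g h k hk
    simp only [jj, Prod.fst_sub, Prod.snd_sub] at *
    have e : k * (B - n) = k * B - k * n := by ring
    constructor
    · linarith [h1.1, h1.2]
    · linarith [h1.1, h1.2]
  · rw [if_neg hP] at hk
    exact absurd rfl hk

theorem cj6_DB_fil {n B : ℤ} (M : Obj n B) (g h : M.I) :
    Fil n B (M.pos g - M.pos h - (0, 1)) (DB M g h) := by
  intro k hk
  unfold DB at hk
  rw [Matrix.of_apply, coeff_part] at hk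
  by_cases hP : jj (M.pos g) - jj (M.pos h) - k * n < 0
  · rw [if_pos hP] at hk
    have h1 := M.fil g h k hk
    simp only [jj, Prod.fst_sub, Prod.snd_sub] at *
    have e : k * (B - n) = k * B - k * n := by ring
    constructor
    · linarith [h1.1, h1.2]
    · linarith [h1.1, h1.2]
  · rw [if_neg hP] at hk
    exact absurd rfl hk

theorem cj6_DZ_fil {n B : ℤ} (M : Obj n B) (g h : M.I) :
    Fil n B (M.pos g - M.pos h) (DZ M g h) := by
  unfold DZ
  rw [Matrix.of_apply]
  exact fil_part _ (M.fil g h)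

theorem cj6_split {n B : ℤ} (M : Obj n B) (g h : M.I) :
    M.D g h = DT M g h + DZ M g h + DB M g h := by
  apply AddMonoidAlgebra.ext
  ext k
  rw [AddMonoidAlgebra.coeff_add, AddMonoidAlgebra.coeff_add, Finsupp.add_apply, Finsupp.add_apply]
  unfold DT DZ DB
  simp only [Matrix.of_apply, coeff_part]
  rcases lt_trichotomy (jj (M.pos g) - jj (M.pos h) - k * n) 0 with h1 | h1 | h1
  · rw [if_neg (by omega), if_neg (by omega), if_pos h1]
    simp
  · rw [if_neg (by omega), if_pos h1, if_neg (by omega)]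
    simp
  · rw [if_pos h1, if_neg (by omega), if_neg (by omega)]
    simp

theorem cj6_DZ_zero {n B : ℤ} (i : ℤ) (M : Obj n B) (g h : M.I) (hh : Cl n i (M.pos h))
    (hg : ¬ Cl n i (M.pos g)) : DZ M g h = 0 := by
  apply AddMonoidAlgebra.ext
  ext k
  unfold DZ
  rw [Matrix.of_apply, coeff_part, if_neg]
  · rfl
  · intro hP
    apply hg
    unfold Cl at *
    obtain ⟨c, hc⟩ := hh
    refine ⟨c + k, ?_⟩
    have : n * (c + k) = n * c + k * n := by ring
    rw [this, ← hc]
    linarith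

theorem cj6_DTD {n B : ℤ} (M : Obj n B) (g h : M.I) :
    M.D g h + DT M g h = DZ M g h + DB M g h := by
  rw [cj6_split M g h]
  have := A_add_self (DT M g h)
  calc DT M g h + DZ M g h + DB M g h + DT M g h
      = (DT M g h + DT M g h) + (DZ M g h + DB M g h) := by abel
    _ = _ := by rw [this, zero_add]

theorem cj6_DTDZ {n B : ℤ} (M : Obj n B) (g h : M.I) :
    M.D g h + (DT M g h + DZ M g h) = DB M g h := by
  rw [cj6_split M g h]
  have := A_add_self (DT M g h)
  have h2 := A_add_self (DZ M g h)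
  calc DT M g h + DZ M g h + DB M g h + (DT M g h + DZ M g h)
      = (DT M g h + DT M g h) + (DZ M g h + DZ M g h) + DB M g h := by abel
    _ = _ := by rw [this, h2, zero_add, zero_add]

theorem cj6_mulP {n B : ℤ} (i : ℤ) (M : Obj n B) {α : Type} (X : Matrix α (CI i M) A) (g : α)
    (h : M.I) : (X * mP i M) g h = if hh : Cl n i (M.pos h) then X g ⟨h, hh⟩ else 0 := by
  rw [Matrix.mul_apply]
  by_cases hh : Cl n i (M.pos h)
  · rw [dif_pos hh, Finset.sum_eq_single ⟨h, hh⟩]
    · simp [mP]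
    · intro b _ hb
      have : b.1 ≠ h := by
        intro h2
        apply hb
        exact Subtype.ext h2
      simp [mP, this]
    · intro h2
      exact absurd (Finset.mem_univ _) h2
  · rw [dif_neg hh]
    apply Finset.sum_eq_zero
    intro b _
    have : b.1 ≠ h := by
      intro h2
      apply hh
      rw [← h2]
      exact b.2
    simp [mP, this]

theorem cj6_Pmul {n B : ℤ} (i : ℤ) (M : Obj n B) {α : Type} (X : Matrix M.I α A) (g : CI i M)
    (h : α) : (mP i M * X) g h = X g.1 h := by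
  rw [Matrix.mul_apply, Finset.sum_eq_single g.1]
  · simp [mP]
  · intro b _ hb
    have : ¬ g.1 = b := fun h2 => hb h2.symm
    simp [mP, this]
  · intro h2
    exact absurd (Finset.mem_univ _) h2

theorem cj6_VV {n B : ℤ} (i : ℤ) (M : Obj n B) (g h : M.I) :
    Fil n B (pPos i M (Sum.inl g) - pPos i M (Sum.inl h)) (pVV i M g h) := by
  unfold pVV
  rw [Matrix.add_apply, cj6_mulP]
  by_cases hh : Cl n i (M.pos h)
  · rw [dif_pos hh]
    have e1 : mA i M g ⟨h, hh⟩ = DT M g h := rfl
    rw [e1]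
    by_cases hg : Cl n i (M.pos g)
    · refine fil_mono (d := M.pos g - M.pos h) ?_ ?_
      · simp only [pPos, if_pos hh, if_pos hg]
        apply le_of_eq
        abel
      · exact fil_add (M.fil g h) (by unfold DT; rw [Matrix.of_apply]; exact fil_part _ (M.fil g h))
    · rw [cj6_DTD, cj6_DZ_zero i M g h hh hg, zero_add]
      refine fil_mono ?_ (cj6_DB_fil M g h)
      simp only [pPos, if_pos hh, if_neg hg]
      apply le_of_eq
      abel
  · rw [dif_neg hh, add_zero]
    refine fil_mono ?_ (M.fil g h)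
    simp only [pPos, if_neg hh]
    by_cases hg : Cl n i (M.pos g)
    · rw [if_pos hg]
      constructor <;> simp
    · rw [if_neg hg]
      constructor <;> simp

theorem cj6_VT {n B : ℤ} (i : ℤ) (M : Obj n B) (g : M.I) (h : CI i M) :
    Fil n B (pPos i M (Sum.inl g) - pPos i M (Sum.inr (Sum.inl h))) (mA i M g h) := by
  refine fil_mono ?_ (cj6_DT_fil M g h.1)
  simp only [pPos]
  by_cases hg : Cl n i (M.pos g)
  · rw [if_pos hg]
    constructor <;> simp <;> omega
  · rw [if_neg hg]
    constructor <;> simp <;> omega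

theorem cj6_TV {n B : ℤ} (i : ℤ) (M : Obj n B) (g : CI i M) (h : M.I) :
    Fil n B (pPos i M (Sum.inr (Sum.inl g)) - pPos i M (Sum.inl h)) (pTV i M g h) := by
  unfold pTV
  rw [Matrix.add_apply, cj6_mulP, cj6_Pmul]
  by_cases hh : Cl n i (M.pos h)
  · rw [dif_pos hh, Matrix.add_apply, cj6_Pmul]
    have e1 : mA i M g.1 ⟨h, hh⟩ = DT M g.1 h := rfl
    have e2 : mB i M g ⟨h, hh⟩ = DZ M g.1 h := rfl
    rw [e1, e2, cj6_DTDZ]
    refine fil_mono ?_ (cj6_DB_fil M g.1 h)
    simp only [pPos, if_pos hh]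
    constructor <;> simp <;> omega
  · rw [dif_neg hh, add_zero]
    refine fil_mono ?_ (M.fil g.1 h)
    simp only [pPos, if_neg hh]
    constructor <;> simp <;> omega

theorem cj6_TT {n B : ℤ} (i : ℤ) (M : Obj n B) (g : CI i M) (h : CI i M) :
    Fil n B (pPos i M (Sum.inr (Sum.inl g)) - pPos i M (Sum.inr (Sum.inl h))) (pTT i M g h) := by
  unfold pTT
  rw [Matrix.add_apply, cj6_Pmul]
  refine fil_mono (d := M.pos g.1 - M.pos h.1) ?_ ?_
  · simp only [pPos]
    constructor <;> simp
  · refine fil_add ?_ (cj6_DZ_fil M g.1 h.1)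
    show Fil n B _ (DT M g.1 h.1)
    unfold DT
    rw [Matrix.of_apply]
    exact fil_part _ (M.fil g.1 h.1)

theorem cj6_mul {n B : ℤ} {α β γ : Type} [Fintype β] (p : α → ℤ × ℤ) (q : β → ℤ × ℤ)
    (r : γ → ℤ × ℤ) (X : Matrix α β A) (Y : Matrix β γ A)
    (hX : ∀ g h, Fil n B (p g - q h) (X g h)) (hY : ∀ g h, Fil n B (q g - r h) (Y g h))
    (g : α) (h : γ) : Fil n B (p g - r h) ((X * Y) g h) := by
  rw [Matrix.mul_apply]
  apply fil_sum
  intro j _
  have := fil_mul (hX g j) (hY j h)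
  have e : p g - q j + (q j - r h) = p g - r h := by abel
  rw [e] at this
  exact this

theorem cj6_alg1 {n B : ℤ} (i : ℤ) (M : Obj n B) :
    pVV i M * pVV i M + mA i M * pTV i M = mC i M * mP i M := by
  unfold pVV pTV mC
  have hD := M.sq
  have e : (M.D + mA i M * mP i M) * (M.D + mA i M * mP i M) +
      mA i M * (mP i M * M.D + (mP i M * mA i M + mB i M) * mP i M) =
      M.D * M.D + (M.D * mA i M + mA i M * mB i M) * mP i M +
      ((mA i M * mP i M * M.D + mA i M * mP i M * M.D) +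
      (mA i M * mP i M * mA i M * mP i M + mA i M * mP i M * mA i M * mP i M)) := by
    simp only [Matrix.mul_add, Matrix.add_mul, Matrix.mul_assoc]
    abel
  rw [e, hD, mat_add_self, mat_add_self, zero_add, add_zero, add_zero]

theorem cj6_alg2 {n B : ℤ} (i : ℤ) (M : Obj n B) :
    pVV i M * mA i M + mA i M * pTT i M = mC i M := by
  unfold pVV pTT mC
  have e : (M.D + mA i M * mP i M) * mA i M + mA i M * (mP i M * mA i M + mB i M) =
      (M.D * mA i M + mA i M * mB i M) +
      (mA i M * mP i M * mA i M + mA i M * mP i M * mA i M) := by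
    simp only [Matrix.mul_add, Matrix.add_mul, Matrix.mul_assoc]
    abel
  rw [e, mat_add_self, add_zero]

theorem cj6_alg3 {n B : ℤ} (i : ℤ) (M : Obj n B) :
    pTV i M * pVV i M + pTT i M * pTV i M = pTU i M * mP i M := by
  unfold pVV pTV pTT pTU mC
  have hD := M.sq
  have e : (mP i M * M.D + (mP i M * mA i M + mB i M) * mP i M) * (M.D + mA i M * mP i M) +
      (mP i M * mA i M + mB i M) * (mP i M * M.D + (mP i M * mA i M + mB i M) * mP i M) =
      mP i M * (M.D * M.D) + (mP i M * (M.D * mA i M + mA i M * mB i M) + mB i M * mB i M) * mP i M +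
      (((mP i M * mA i M + mB i M) * mP i M * M.D + (mP i M * mA i M + mB i M) * mP i M * M.D) +
      ((mP i M * mA i M + mB i M) * mP i M * mA i M * mP i M +
        (mP i M * mA i M + mB i M) * mP i M * mA i M * mP i M)) := by
    simp only [Matrix.mul_add, Matrix.add_mul, Matrix.mul_assoc]
    abel
  rw [e, hD, mat_add_self, mat_add_self, Matrix.mul_zero, zero_add, add_zero, add_zero]

theorem cj6_alg4 {n B : ℤ} (i : ℤ) (M : Obj n B) :
    pTV i M * mA i M + pTT i M * pTT i M = pTU i M := by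
  unfold pTV pTT pTU mC
  have e : (mP i M * M.D + (mP i M * mA i M + mB i M) * mP i M) * mA i M +
      (mP i M * mA i M + mB i M) * (mP i M * mA i M + mB i M) =
      (mP i M * (M.D * mA i M + mA i M * mB i M) + mB i M * mB i M) +
      ((mP i M * mA i M + mB i M) * mP i M * mA i M +
        (mP i M * mA i M + mB i M) * mP i M * mA i M) := by
    simp only [Matrix.mul_add, Matrix.add_mul, Matrix.mul_assoc]
    abel
  rw [e, mat_add_self, add_zero]

theorem cj6_VU {n B : ℤ} (i : ℤ) (M : Obj n B) (g : M.I) (h : CI i M) :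
    Fil n B (pPos i M (Sum.inl g) - pPos i M (Sum.inr (Sum.inr h))) (mC i M g h) := by
  have h1 : Fil n B (pPos i M (Sum.inl g) - pPos i M (Sum.inl h.1)) (mC i M g h) := by
    have := fil_add
      (cj6_mul (fun e => pPos i M (Sum.inl e)) (fun e => pPos i M (Sum.inl e))
        (fun e => pPos i M (Sum.inl e)) _ _ (cj6_VV i M) (cj6_VV i M) g h.1)
      (cj6_mul (fun e => pPos i M (Sum.inl e)) (fun e => pPos i M (Sum.inr (Sum.inl e)))
        (fun e => pPos i M (Sum.inl e)) _ _ (cj6_VT i M) (cj6_TV i M) g h.1)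
    rw [← Matrix.add_apply, cj6_alg1, cj6_mulP, dif_pos h.2] at this
    exact this
  have h2 : Fil n B (pPos i M (Sum.inl g) - pPos i M (Sum.inr (Sum.inl h))) (mC i M g h) := by
    have := fil_add
      (cj6_mul (fun e => pPos i M (Sum.inl e)) (fun e => pPos i M (Sum.inl e))
        (fun e => pPos i M (Sum.inr (Sum.inl e))) _ _ (cj6_VV i M) (cj6_VT i M) g h)
      (cj6_mul (fun e => pPos i M (Sum.inl e)) (fun e => pPos i M (Sum.inr (Sum.inl e)))
        (fun e => pPos i M (Sum.inr (Sum.inl e))) _ _ (cj6_VT i M) (cj6_TT i M) g h)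
    rw [← Matrix.add_apply, cj6_alg2] at this
    exact this
  refine cj6_fil_inf h1 h2 ?_ ?_
  · right
    simp [pPos]
  · left
    simp [pPos, if_pos h.2]

theorem cj6_TU {n B : ℤ} (i : ℤ) (M : Obj n B) (g : CI i M) (h : CI i M) :
    Fil n B (pPos i M (Sum.inr (Sum.inl g)) - pPos i M (Sum.inr (Sum.inr h))) (pTU i M g h) := by
  have h1 : Fil n B (pPos i M (Sum.inr (Sum.inl g)) - pPos i M (Sum.inl h.1)) (pTU i M g h) := by
    have := fil_add
      (cj6_mul (fun e => pPos i M (Sum.inr (Sum.inl e))) (fun e => pPos i M (Sum.inl e))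
        (fun e => pPos i M (Sum.inl e)) _ _ (cj6_TV i M) (cj6_VV i M) g h.1)
      (cj6_mul (fun e => pPos i M (Sum.inr (Sum.inl e))) (fun e => pPos i M (Sum.inr (Sum.inl e)))
        (fun e => pPos i M (Sum.inl e)) _ _ (cj6_TT i M) (cj6_TV i M) g h.1)
    rw [← Matrix.add_apply, cj6_alg3, cj6_mulP, dif_pos h.2] at this
    exact this
  have h2 : Fil n B (pPos i M (Sum.inr (Sum.inl g)) - pPos i M (Sum.inr (Sum.inl h)))
      (pTU i M g h) := by
    have := fil_add
      (cj6_mul (fun e => pPos i M (Sum.inr (Sum.inl e))) (fun e => pPos i M (Sum.inl e))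
        (fun e => pPos i M (Sum.inr (Sum.inl e))) _ _ (cj6_TV i M) (cj6_VT i M) g h)
      (cj6_mul (fun e => pPos i M (Sum.inr (Sum.inl e))) (fun e => pPos i M (Sum.inr (Sum.inl e)))
        (fun e => pPos i M (Sum.inr (Sum.inl e))) _ _ (cj6_TT i M) (cj6_TT i M) g h)
    rw [← Matrix.add_apply, cj6_alg4] at this
    exact this
  refine cj6_fil_inf h1 h2 ?_ ?_
  · right
    simp [pPos]
  · left
    simp [pPos, if_pos h.2]

theorem pD_fil {n B : ℤ} (i : ℤ) (M : Obj n B) (g h : PI i M) :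
    Fil n B (pPos i M g - pPos i M h) (pD i M g h) := by
  rcases g with g | g | g <;> rcases h with h | h | h
  · exact cj6_VV i M g h
  · exact cj6_VT i M g h
  · exact cj6_VU i M g h
  · exact cj6_TV i M g h
  · exact cj6_TT i M g h
  · exact cj6_TU i M g h
  · show Fil n B _ (mP i M g h)
    by_cases e : g.1 = h
    · have : mP i M g h = 1 := by simp [mP, e]
      rw [this]
      apply fil_one
      subst e
      simp only [pPos, if_pos g.2]
      constructor <;> simp
    · have : mP i M g h = 0 := by simp [mP, e]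
      rw [this]
      exact fil_zero _ _ _
  · show Fil n B _ ((1 : Matrix (CI i M) (CI i M) A) g h)
    by_cases e : g = h
    · subst e
      rw [Matrix.one_apply_eq]
      apply fil_one
      simp only [pPos]
      constructor <;> simp
    · rw [Matrix.one_apply_ne e]
      exact fil_zero _ _ _
  · refine fil_mono ?_ (cj6_DZ_fil M g.1 h.1)
    simp only [pPos]
    constructor <;> simp

theorem cj7_add {I J : Type*} (d : I → ℤ) (e : J → ℤ) (k : ℤ) {X Y : Matrix I J A}
    (hX : ∀ g h, X g h ≠ 0 → e h = d g + k) (hY : ∀ g h, Y g h ≠ 0 → e h = d g + k) :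
    ∀ g h, (X + Y) g h ≠ 0 → e h = d g + k := by
  intro g h hne
  rw [Matrix.add_apply] at hne
  by_cases c : X g h = 0
  · refine hY g h fun c' => hne ?_
    rw [c, c', add_zero]
  · exact hX g h c

theorem cj7_mul {I J K : Type*} [Fintype J] (d : I → ℤ) (e : J → ℤ) (f : K → ℤ) (k l m : ℤ)
    {X : Matrix I J A} {Y : Matrix J K A} (hm : k + l = m)
    (hX : ∀ g h, X g h ≠ 0 → e h = d g + k) (hY : ∀ g h, Y g h ≠ 0 → f h = e g + l) :
    ∀ g h, (X * Y) g h ≠ 0 → f h = d g + m := by
  intro g h hne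
  rw [Matrix.mul_apply] at hne
  obtain ⟨j, _, hj⟩ := Finset.exists_ne_zero_of_sum_ne_zero hne
  have h1 := hX g j (left_ne_zero_of_mul hj)
  have h2 := hY j h (right_ne_zero_of_mul hj)
  omega

theorem cj7_mA {n B : ℤ} (i : ℤ) (M : Obj n B) (g : M.I) (h : CI i M) (hne : mA i M g h ≠ 0) :
    M.deg h.1 = M.deg g + 1 := M.hdeg g h.1 (part_ne_zero hne)

theorem cj7_mB {n B : ℤ} (i : ℤ) (M : Obj n B) (g h : CI i M) (hne : mB i M g h ≠ 0) :
    M.deg h.1 = M.deg g.1 + 1 := M.hdeg g.1 h.1 (part_ne_zero hne)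

theorem cj7_mP {n B : ℤ} (i : ℤ) (M : Obj n B) (g : CI i M) (h : M.I) (hne : mP i M g h ≠ 0) :
    M.deg h = M.deg g.1 + 0 := by
  have h1 : g.1 = h := by
    by_contra c
    exact hne (if_neg c)
  rw [h1, add_zero]

theorem cj7_mC {n B : ℤ} (i : ℤ) (M : Obj n B) : ∀ (g : M.I) (h : CI i M), mC i M g h ≠ 0 →
    M.deg h.1 = M.deg g + 2 :=
  cj7_add M.deg (fun h : CI i M => M.deg h.1) 2
    (cj7_mul M.deg M.deg (fun h : CI i M => M.deg h.1) 1 1 2 (by norm_num) M.hdeg (cj7_mA i M))
    (cj7_mul M.deg (fun h : CI i M => M.deg h.1) (fun h : CI i M => M.deg h.1) 1 1 2 (by norm_num)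
      (cj7_mA i M) (cj7_mB i M))

theorem cj7_VV {n B : ℤ} (i : ℤ) (M : Obj n B) : ∀ (g h : M.I), pVV i M g h ≠ 0 →
    M.deg h = M.deg g + 1 :=
  cj7_add M.deg M.deg 1 M.hdeg
    (cj7_mul M.deg (fun h : CI i M => M.deg h.1) M.deg 1 0 1 (by norm_num) (cj7_mA i M) (cj7_mP i M))

theorem cj7_TT {n B : ℤ} (i : ℤ) (M : Obj n B) : ∀ (g h : CI i M), pTT i M g h ≠ 0 →
    M.deg h.1 = M.deg g.1 + 1 :=
  cj7_add (fun h : CI i M => M.deg h.1) (fun h : CI i M => M.deg h.1) 1
    (cj7_mul (fun h : CI i M => M.deg h.1) M.deg (fun h : CI i M => M.deg h.1) 0 1 1 (by norm_num)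
      (cj7_mP i M) (cj7_mA i M)) (cj7_mB i M)

theorem cj7_TV {n B : ℤ} (i : ℤ) (M : Obj n B) : ∀ (g : CI i M) (h : M.I), pTV i M g h ≠ 0 →
    M.deg h = M.deg g.1 + 1 :=
  cj7_add (fun h : CI i M => M.deg h.1) M.deg 1
    (cj7_mul (fun h : CI i M => M.deg h.1) M.deg M.deg 0 1 1 (by norm_num) (cj7_mP i M) M.hdeg)
    (cj7_mul (fun h : CI i M => M.deg h.1) (fun h : CI i M => M.deg h.1) M.deg 1 0 1 (by norm_num)
      (cj7_TT i M) (cj7_mP i M))

theorem cj7_TU {n B : ℤ} (i : ℤ) (M : Obj n B) : ∀ (g h : CI i M), pTU i M g h ≠ 0 →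
    M.deg h.1 = M.deg g.1 + 2 :=
  cj7_add (fun h : CI i M => M.deg h.1) (fun h : CI i M => M.deg h.1) 2
    (cj7_mul (fun h : CI i M => M.deg h.1) M.deg (fun h : CI i M => M.deg h.1) 0 2 2 (by norm_num)
      (cj7_mP i M) (cj7_mC i M))
    (cj7_mul (fun h : CI i M => M.deg h.1) (fun h : CI i M => M.deg h.1)
      (fun h : CI i M => M.deg h.1) 1 1 2 (by norm_num) (cj7_mB i M) (cj7_mB i M))

theorem pD_deg {n B : ℤ} (i : ℤ) (M : Obj n B) (g h : PI i M) (hne : pD i M g h ≠ 0) :
    pDeg i M h = pDeg i M g + 1 := by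
  rcases g with g | g | g <;> rcases h with h | h | h
  · exact cj7_VV i M g h hne
  · exact cj7_mA i M g h hne
  · have := cj7_mC i M g h hne
    show M.deg h.1 - 1 = M.deg g + 1
    omega
  · exact cj7_TV i M g h hne
  · exact cj7_TT i M g h hne
  · have := cj7_TU i M g h hne
    show M.deg h.1 - 1 = M.deg g.1 + 1
    omega
  · have := cj7_mP i M g h hne
    show M.deg h = M.deg g.1 - 1 + 1
    omega
  · show M.deg h.1 = M.deg g.1 - 1 + 1
    have h1 : g = h := by
      by_contra c
      exact hne (Matrix.one_apply_ne c)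
    rw [h1]
    ring
  · have := cj7_mB i M g h hne
    show M.deg h.1 - 1 = M.deg g.1 - 1 + 1
    omega

/-- the twist functor on objects -/
@[reducible] def phi {n B : ℤ} (i : ℤ) (M : Obj n B) : Obj n B where
  I := PI i M
  pos := pPos i M
  deg := pDeg i M
  D := pD i M
  fil := pD_fil i M
  hdeg := pD_deg i M
  sq := pD_sq i M

/-- the projection `Φ_i M → M` -/
def pPi {n B : ℤ} (i : ℤ) (M : Obj n B) : Matrix (PI i M) M.I A :=
  Matrix.fromRows 1 (Matrix.fromRows (mP i M) 0)

theorem pPi_comm {n B : ℤ} (i : ℤ) (M : Obj n B) : pD i M * pPi i M = pPi i M * M.D := by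
  unfold pD pPi
  simp only [Matrix.fromBlocks_mul_fromRows, Matrix.fromCols_mul_fromRows,
    Matrix.fromRows_mul, Matrix.mul_one, Matrix.one_mul, Matrix.mul_zero,
    Matrix.zero_mul]
  have h1 : pVV i M + (mA i M * mP i M + 0) = M.D := by
    unfold pVV
    rw [add_zero, add_assoc, mat_add_self, add_zero]
  rw [h1]
  congr 1
  have h2 : pTV i M + pTT i M * mP i M = mP i M * M.D := by
    unfold pTV pTT
    rw [add_assoc, mat_add_self, add_zero]
  apply Matrix.ext
  rintro (g | g) e
  · simp only [Matrix.add_apply, Matrix.fromRows_apply_inl, add_zero]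
    rw [← Matrix.add_apply, h2]
  · simp only [Matrix.add_apply, Matrix.fromRows_apply_inr, add_zero, Matrix.zero_apply]
    exact A_add_self _

/-- the augmentation of `Φ_i M` -/
def pEps {n B : ℤ} (i : ℤ) (M : GObj n B) : PI i M.toObj → ZMod 2
  | Sum.inl e => M.eps e
  | Sum.inr (Sum.inl e) => M.eps e.1
  | Sum.inr (Sum.inr _) => 0

/-- the generator of `H^0` of `Φ_i M` -/
def pZ {n B : ℤ} (i : ℤ) (M : GObj n B) : PI i M.toObj → ZMod 2
  | Sum.inl e => M.z e
  | Sum.inr (Sum.inl _) => 0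
  | Sum.inr (Sum.inr e) => (M.z ᵥ* ((mA i M.toObj).map ev)) e

theorem cj8_mPev {n B : ℤ} (i : ℤ) (M : Obj n B) (g : CI i M) (h : M.I) :
    ((mP i M).map ev) g h = if g.1 = h then 1 else 0 := by
  rw [Matrix.map_apply]
  unfold mP
  rw [Matrix.of_apply]
  split
  · exact map_one ev
  · exact map_zero ev

theorem cj8_pPi_ev {n B : ℤ} (i : ℤ) (M : Obj n B) :
    (pPi i M).map ev = Matrix.fromRows 1 (Matrix.fromRows ((mP i M).map ev) 0) := by
  unfold pPi
  apply Matrix.ext
  rintro (g | g | g) e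
  · rw [Matrix.map_apply]
    simp only [Matrix.fromRows_apply_inl]
    rw [Matrix.one_apply, Matrix.one_apply]
    split
    · exact map_one ev
    · exact map_zero ev
  · rw [Matrix.map_apply]
    simp only [Matrix.fromRows_apply_inl, Matrix.fromRows_apply_inr]
    rfl
  · rw [Matrix.map_apply]
    simp only [Matrix.fromRows_apply_inr, Matrix.zero_apply]
    exact map_zero ev

theorem cj8_mP_mulVec {n B : ℤ} (i : ℤ) (M : Obj n B) (v : M.I → ZMod 2) (g : CI i M) :
    (((mP i M).map ev) *ᵥ v) g = v g.1 := by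
  rw [Matrix.mulVec, dotProduct, Finset.sum_eq_single g.1]
  · rw [cj8_mPev, if_pos rfl, one_mul]
  · intro b _ hb
    rw [cj8_mPev, if_neg (fun h => hb h.symm), zero_mul]
  · intro h
    exact absurd (Finset.mem_univ _) h

theorem pEps_eq {n B : ℤ} (i : ℤ) (M : GObj n B) :
    pEps i M = ((pPi i M.toObj).map ev) *ᵥ M.eps := by
  rw [cj8_pPi_ev, Matrix.fromRows_mulVec, Matrix.fromRows_mulVec, Matrix.one_mulVec,
    Matrix.zero_mulVec]
  funext e
  rcases e with e | e | e
  · rfl
  · show M.eps e.1 = _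
    simp only [Sum.elim_inr, Sum.elim_inl]
    rw [cj8_mP_mulVec]
  · rfl

theorem pEps_deg {n B : ℤ} (i : ℤ) (M : GObj n B) (e : PI i M.toObj) (h : pEps i M e ≠ 0) :
    pDeg i M.toObj e = 0 := by
  rcases e with e | e | e
  · exact M.eps_deg e h
  · exact M.eps_deg e.1 h
  · exact absurd rfl h

theorem pZ_deg {n B : ℤ} (i : ℤ) (M : GObj n B) (e : PI i M.toObj) (h : pZ i M e ≠ 0) :
    pDeg i M.toObj e = 0 := by
  rcases e with e | e | e
  · exact M.z_deg e h
  · exact absurd rfl h
  · have h' : (∑ g : M.I, M.z g * ev (mA i M.toObj g e)) ≠ 0 := h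
    obtain ⟨g, _, hg⟩ := Finset.exists_ne_zero_of_sum_ne_zero h'
    have h1 := M.z_deg g (left_ne_zero_of_mul hg)
    have h2 : mA i M.toObj g e ≠ 0 := by
      intro c
      apply right_ne_zero_of_mul hg
      rw [c, map_zero]
    have h3 := cj7_mA i M.toObj g e h2
    show M.deg e.1 - 1 = 0
    omega

theorem pEps_coc {n B : ℤ} (i : ℤ) (M : GObj n B) :
    ((pD i M.toObj).map ev) *ᵥ (pEps i M) = 0 := by
  rw [pEps_eq, Matrix.mulVec_mulVec, ← Matrix.map_mul, pPi_comm, Matrix.map_mul,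
    ← Matrix.mulVec_mulVec, M.eps_coc, Matrix.mulVec_zero]

/-- the differential of `Φ_i M` at `s = 1` -/
theorem cj8_pD_ev {n B : ℤ} (i : ℤ) (M : Obj n B) :
    (pD i M).map ev = Matrix.fromBlocks
      (M.E + (mA i M).map ev * (mP i M).map ev)
      (Matrix.fromCols ((mA i M).map ev)
        (M.E * (mA i M).map ev + (mA i M).map ev * (mB i M).map ev))
      (Matrix.fromRows ((mP i M).map ev * M.E +
        ((mP i M).map ev * (mA i M).map ev + (mB i M).map ev) * (mP i M).map ev) ((mP i M).map ev))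
      (Matrix.fromBlocks ((mP i M).map ev * (mA i M).map ev + (mB i M).map ev)
        ((mP i M).map ev * (M.E * (mA i M).map ev + (mA i M).map ev * (mB i M).map ev) +
          (mB i M).map ev * (mB i M).map ev) 1 ((mB i M).map ev)) := by
  have hadd : ∀ {α β : Type} (X Y : Matrix α β A), (X + Y).map ev = X.map ev + Y.map ev := by
    intro α β X Y
    exact Matrix.map_add ev (map_add ev) X Y
  have h1 : (pVV i M).map ev = M.E + (mA i M).map ev * (mP i M).map ev := by
    unfold pVV Obj.E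
    rw [hadd, Matrix.map_mul]
  have h2 : (mC i M).map ev = M.E * (mA i M).map ev + (mA i M).map ev * (mB i M).map ev := by
    unfold mC Obj.E
    rw [hadd, Matrix.map_mul, Matrix.map_mul]
  have h3 : (pTT i M).map ev = (mP i M).map ev * (mA i M).map ev + (mB i M).map ev := by
    unfold pTT
    rw [hadd, Matrix.map_mul]
  have h4 : (pTV i M).map ev = (mP i M).map ev * M.E +
        ((mP i M).map ev * (mA i M).map ev + (mB i M).map ev) * (mP i M).map ev := by
    unfold pTV Obj.E
    rw [hadd, Matrix.map_mul, Matrix.map_mul, hadd, Matrix.map_mul]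
  have h5 : (pTU i M).map ev =
      ((mP i M).map ev * (M.E * (mA i M).map ev + (mA i M).map ev * (mB i M).map ev) +
          (mB i M).map ev * (mB i M).map ev) := by
    unfold pTU
    rw [hadd, Matrix.map_mul, Matrix.map_mul, h2]
  rw [← h4, ← h5, ← h1, ← h2, ← h3]
  unfold pD
  apply Matrix.ext
  rintro (g | g | g) (e | e | e)
  · rfl
  · rfl
  · rfl
  · rfl
  · rfl
  · rfl
  · rfl
  · rw [Matrix.map_apply]
    simp only [Matrix.fromBlocks_apply₂₂, Matrix.fromBlocks_apply₂₁]
    rw [Matrix.one_apply, Matrix.one_apply]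
    split
    · exact map_one ev
    · exact map_zero ev
  · rfl

theorem cj8_mat_add_self {α β : Type*} (X : Matrix α β (ZMod 2)) : X + X = 0 := by
  apply Matrix.ext
  intro g h
  exact CharTwo.add_self_eq_zero (X g h)

theorem cj8_vec_add_self {α : Type*} (X : α → ZMod 2) : X + X = 0 := by
  funext g
  exact CharTwo.add_self_eq_zero (X g)

theorem pZ_cyc {n B : ℤ} (i : ℤ) (M : GObj n B) :
    (pZ i M) ᵥ* ((pD i M.toObj).map ev) = 0 := by
  have hz : M.z ᵥ* M.toObj.E = 0 := M.z_cyc
  have hp : pZ i M = Sum.elim M.z (Sum.elim (0 : CI i M.toObj → ZMod 2) (M.z ᵥ* ((mA i M.toObj).map ev))) := by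
    funext e
    rcases e with e | e | e <;> rfl
  rw [hp, cj8_pD_ev, Matrix.vecMul_fromBlocks]
  have e1 : (Sum.elim (0 : CI i M.toObj → ZMod 2) (M.z ᵥ* ((mA i M.toObj).map ev))) ∘ Sum.inl = 0 := by
    funext e; rfl
  have e2 : (Sum.elim (0 : CI i M.toObj → ZMod 2) (M.z ᵥ* ((mA i M.toObj).map ev))) ∘ Sum.inr =
      (M.z ᵥ* ((mA i M.toObj).map ev)) := by
    funext e; rfl
  have e3 : (Sum.elim M.z (Sum.elim (0 : CI i M.toObj → ZMod 2) (M.z ᵥ* ((mA i M.toObj).map ev)))) ∘ Sum.inl = M.z := by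
    funext e; rfl
  have e4 : (Sum.elim M.z (Sum.elim (0 : CI i M.toObj → ZMod 2) (M.z ᵥ* ((mA i M.toObj).map ev)))) ∘ Sum.inr =
      (Sum.elim (0 : CI i M.toObj → ZMod 2) (M.z ᵥ* ((mA i M.toObj).map ev))) := by
    funext e; rfl
  rw [e3, e4, Matrix.vecMul_fromRows, Matrix.vecMul_fromBlocks, Matrix.vecMul_fromCols, e1, e2]
  simp only [Matrix.zero_vecMul, Matrix.vecMul_one, zero_add, Matrix.vecMul_add]
  rw [← Matrix.vecMul_vecMul, ← Matrix.vecMul_vecMul, ← Matrix.vecMul_vecMul, hz]
  simp only [Matrix.zero_vecMul, zero_add]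
  funext e
  rcases e with e | e | e
  · simp only [Sum.elim_inl, Pi.add_apply, Pi.zero_apply]
    exact CharTwo.add_self_eq_zero _
  · simp only [Sum.elim_inr, Sum.elim_inl, Pi.add_apply, Pi.zero_apply]
    exact CharTwo.add_self_eq_zero _
  · simp only [Sum.elim_inr, Pi.add_apply, Pi.zero_apply]
    exact CharTwo.add_self_eq_zero _

theorem pPair {n B : ℤ} (i : ℤ) (M : GObj n B) : pZ i M ⬝ᵥ pEps i M = 1 := by
  have h := M.pair
  rw [dotProduct] at h ⊢
  rw [Fintype.sum_sum_type, Fintype.sum_sum_type]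
  have h1 : ∀ e : M.I, pZ i M (Sum.inl e) * pEps i M (Sum.inl e) = M.z e * M.eps e := fun e => rfl
  have h2 : ∀ e : CI i M.toObj, pZ i M (Sum.inr (Sum.inl e)) * pEps i M (Sum.inr (Sum.inl e)) = 0 := by
    intro e
    exact zero_mul _
  have h3 : ∀ e : CI i M.toObj, pZ i M (Sum.inr (Sum.inr e)) * pEps i M (Sum.inr (Sum.inr e)) = 0 := by
    intro e
    exact mul_zero _
  rw [Finset.sum_congr rfl (fun e _ => h1 e), Finset.sum_congr rfl (fun e _ => h2 e),
    Finset.sum_congr rfl (fun e _ => h3 e), h]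
  simp

theorem cj9_pPi_ev {n B : ℤ} (i : ℤ) (M : Obj n B) :
    (pPi i M).map ev = Matrix.fromRows 1 (Matrix.fromRows ((mP i M).map ev) 0) := by
  unfold pPi
  apply Matrix.ext
  rintro (g | g | g) e
  · rw [Matrix.map_apply]
    simp only [Matrix.fromRows_apply_inl]
    rw [Matrix.one_apply, Matrix.one_apply]
    split
    · exact map_one ev
    · exact map_zero ev
  · rw [Matrix.map_apply]
    simp only [Matrix.fromRows_apply_inl, Matrix.fromRows_apply_inr]
    rfl
  · rw [Matrix.map_apply]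
    simp only [Matrix.fromRows_apply_inr, Matrix.zero_apply]
    exact map_zero ev

theorem cj9_pD_ev {n B : ℤ} (i : ℤ) (M : Obj n B) :
    (pD i M).map ev = Matrix.fromBlocks
      (M.E + (mA i M).map ev * (mP i M).map ev)
      (Matrix.fromCols ((mA i M).map ev)
        (M.E * (mA i M).map ev + (mA i M).map ev * (mB i M).map ev))
      (Matrix.fromRows ((mP i M).map ev * M.E +
        ((mP i M).map ev * (mA i M).map ev + (mB i M).map ev) * (mP i M).map ev) ((mP i M).map ev))
      (Matrix.fromBlocks ((mP i M).map ev * (mA i M).map ev + (mB i M).map ev)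
        ((mP i M).map ev * (M.E * (mA i M).map ev + (mA i M).map ev * (mB i M).map ev) +
          (mB i M).map ev * (mB i M).map ev) 1 ((mB i M).map ev)) := by
  have hadd : ∀ {α β : Type} (X Y : Matrix α β A), (X + Y).map ev = X.map ev + Y.map ev := by
    intro α β X Y
    exact Matrix.map_add ev (map_add ev) X Y
  have h1 : (pVV i M).map ev = M.E + (mA i M).map ev * (mP i M).map ev := by
    unfold pVV Obj.E
    rw [hadd, Matrix.map_mul]
  have h2 : (mC i M).map ev = M.E * (mA i M).map ev + (mA i M).map ev * (mB i M).map ev := by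
    unfold mC Obj.E
    rw [hadd, Matrix.map_mul, Matrix.map_mul]
  have h3 : (pTT i M).map ev = (mP i M).map ev * (mA i M).map ev + (mB i M).map ev := by
    unfold pTT
    rw [hadd, Matrix.map_mul]
  have h4 : (pTV i M).map ev = (mP i M).map ev * M.E +
        ((mP i M).map ev * (mA i M).map ev + (mB i M).map ev) * (mP i M).map ev := by
    unfold pTV Obj.E
    rw [hadd, Matrix.map_mul, Matrix.map_mul, hadd, Matrix.map_mul]
  have h5 : (pTU i M).map ev =
      ((mP i M).map ev * (M.E * (mA i M).map ev + (mA i M).map ev * (mB i M).map ev) +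
          (mB i M).map ev * (mB i M).map ev) := by
    unfold pTU
    rw [hadd, Matrix.map_mul, Matrix.map_mul, h2]
  rw [← h4, ← h5, ← h1, ← h2, ← h3]
  unfold pD
  apply Matrix.ext
  rintro (g | g | g) (e | e | e)
  · rfl
  · rfl
  · rfl
  · rfl
  · rfl
  · rfl
  · rfl
  · rw [Matrix.map_apply]
    simp only [Matrix.fromBlocks_apply₂₂, Matrix.fromBlocks_apply₂₁]
    rw [Matrix.one_apply, Matrix.one_apply]
    split
    · exact map_one ev
    · exact map_zero ev
  · rfl

theorem cj9_add_self (x : ZMod 2) : x + x = 0 := CharTwo.add_self_eq_zero x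

theorem cj9_eq_of_add {α : Type*} {x y : α → ZMod 2} (h : x + y = 0) : x = y := by
  funext e
  have h1 := congrFun h e
  have h2 : x e + y e = 0 := h1
  have h3 := cj9_add_self (y e)
  calc x e = x e + (y e + y e) := by rw [h3, add_zero]
    _ = (x e + y e) + y e := by ring
    _ = y e := by rw [h2, zero_add]

theorem p_lift_cycle {n B : ℤ} (i : ℤ) (M : Obj n B) (k : ℤ)
    (v : PI i M → ZMod 2) (hv : ∀ e, v e ≠ 0 → pDeg i M e = k)
    (hc : v ᵥ* ((pD i M).map ev) = 0)
    (w : M.I → ZMod 2) (hw : ∀ e, w e ≠ 0 → M.deg e = k - 1)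
    (h : w ᵥ* M.E = v ᵥ* ((pPi i M).map ev)) :
    ∃ w' : PI i M → ZMod 2, (∀ e, w' e ≠ 0 → pDeg i M e = k - 1) ∧
      w' ᵥ* ((pD i M).map ev) = v := by
  set a := (mA i M).map ev with ha
  set b := (mB i M).map ev with hb
  set P := (mP i M).map ev with hP
  set v1 : M.I → ZMod 2 := fun e => v (Sum.inl e) with hv1
  set v2 : CI i M → ZMod 2 := fun e => v (Sum.inr (Sum.inl e)) with hv2
  set v3 : CI i M → ZMod 2 := fun e => v (Sum.inr (Sum.inr e)) with hv3
  have hvv : v = Sum.elim v1 (Sum.elim v2 v3) := by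
    funext e
    rcases e with e | e | e <;> rfl
  -- general product formula
  have hmul : ∀ (x1 : M.I → ZMod 2) (x2 x3 : CI i M → ZMod 2),
      (Sum.elim x1 (Sum.elim x2 x3)) ᵥ* ((pD i M).map ev) =
        Sum.elim (x1 ᵥ* (M.E + a * P) + (x2 ᵥ* (P * M.E + (P * a + b) * P) + x3 ᵥ* P))
          (Sum.elim (x1 ᵥ* a + (x2 ᵥ* (P * a + b) + x3))
            (x1 ᵥ* (M.E * a + a * b) + (x2 ᵥ* (P * (M.E * a + a * b) + b * b) + x3 ᵥ* b))) := by
    intro x1 x2 x3
    rw [cj9_pD_ev, Matrix.vecMul_fromBlocks]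
    have e1 : (Sum.elim x1 (Sum.elim x2 x3)) ∘ Sum.inl = x1 := by funext e; rfl
    have e2 : (Sum.elim x1 (Sum.elim x2 x3)) ∘ Sum.inr = Sum.elim x2 x3 := by funext e; rfl
    have e3 : (Sum.elim x2 x3) ∘ Sum.inl = x2 := by funext e; rfl
    have e4 : (Sum.elim x2 x3) ∘ Sum.inr = x3 := by funext e; rfl
    rw [e1, e2, Matrix.vecMul_fromRows, Matrix.vecMul_fromBlocks, Matrix.vecMul_fromCols, e3, e4,
      Matrix.vecMul_one]
    funext e
    rcases e with e | e | e <;> rfl
  have hpi : ∀ (x1 : M.I → ZMod 2) (x2 x3 : CI i M → ZMod 2),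
      (Sum.elim x1 (Sum.elim x2 x3)) ᵥ* ((pPi i M).map ev) = x1 + x2 ᵥ* P := by
    intro x1 x2 x3
    rw [cj9_pPi_ev, Matrix.vecMul_fromRows]
    have e1 : (Sum.elim x1 (Sum.elim x2 x3)) ∘ Sum.inl = x1 := by funext e; rfl
    have e2 : (Sum.elim x1 (Sum.elim x2 x3)) ∘ Sum.inr = Sum.elim x2 x3 := by funext e; rfl
    have e3 : (Sum.elim x2 x3) ∘ Sum.inl = x2 := by funext e; rfl
    rw [e1, e2, Matrix.vecMul_one, Matrix.vecMul_fromRows, e3, Matrix.vecMul_zero, add_zero]
  rw [hvv, hpi] at h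
  rw [hvv, hmul] at hc
  have hc2 : v1 ᵥ* a + (v2 ᵥ* (P * a + b) + v3) = 0 := by
    funext e
    exact congrFun hc (Sum.inr (Sum.inl e))
  -- c = v2 + w a
  set c : CI i M → ZMod 2 := v2 + w ᵥ* a with hcdef
  have hv1' : v1 = w ᵥ* M.E + v2 ᵥ* P := by
    apply cj9_eq_of_add
    funext e
    have h1 := congrFun h e
    simp only [Pi.add_apply] at h1 ⊢
    rw [h1]
    have h2 := cj9_add_self (v1 e + (v2 ᵥ* P) e)
    calc v1 e + (v1 e + (v2 ᵥ* P) e + (v2 ᵥ* P) e)
        = (v1 e + (v2 ᵥ* P) e) + (v1 e + (v2 ᵥ* P) e) := by ring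
      _ = _ := h2
  have hv3' : v3 = w ᵥ* (M.E * a) + v2 ᵥ* b := by
    have h1 : v3 = v1 ᵥ* a + v2 ᵥ* (P * a + b) := by
      have : (v1 ᵥ* a + v2 ᵥ* (P * a + b)) + v3 = 0 := by rw [add_assoc]; exact hc2
      exact (cj9_eq_of_add this).symm
    rw [h1, hv1', Matrix.add_vecMul, Matrix.vecMul_add, Matrix.vecMul_vecMul, Matrix.vecMul_vecMul]
    funext e
    simp only [Pi.add_apply]
    have h2 := cj9_add_self ((v2 ᵥ* (P * a)) e)
    linear_combination h2
  refine ⟨Sum.elim w (Sum.elim 0 c), ?_, ?_⟩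
  · intro e he
    rcases e with e | e | e
    · exact hw e he
    · exact absurd rfl he
    · show M.deg e.1 - 1 = k - 1
      have hne : c e ≠ 0 := he
      by_cases h2 : v2 e = 0
      · have h3 : (w ᵥ* a) e ≠ 0 := by
          intro h4
          apply hne
          rw [hcdef, Pi.add_apply, h2, h4, add_zero]
        rw [Matrix.vecMul, dotProduct] at h3
        obtain ⟨g, -, hg⟩ := Finset.exists_ne_zero_of_sum_ne_zero h3
        have hwg : w g ≠ 0 := left_ne_zero_of_mul hg
        have hag : a g e ≠ 0 := right_ne_zero_of_mul hg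
        have hA : mA i M g e ≠ 0 := by
          intro h5
          apply hag
          rw [ha, Matrix.map_apply, h5, map_zero]
        have hD : M.D g e.1 ≠ 0 := part_ne_zero hA
        have := M.hdeg g e.1 hD
        have := hw g hwg
        omega
      · have := hv (Sum.inr (Sum.inl e)) h2
        have h5 : M.deg e.1 = k := this
        omega
  · rw [hmul]
    rw [hvv]
    funext e
    rcases e with e | e | e
    · simp only [Sum.elim_inl, Pi.add_apply, Matrix.zero_vecMul, Pi.zero_apply, zero_add]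
      rw [hv1', hcdef, Matrix.add_vecMul, Matrix.vecMul_add, Matrix.vecMul_vecMul]
      simp only [Pi.add_apply]
      have h2 := cj9_add_self ((w ᵥ* (a * P)) e)
      linear_combination h2
    · simp only [Sum.elim_inl, Sum.elim_inr, Pi.add_apply, Matrix.zero_vecMul, Pi.zero_apply, zero_add]
      rw [hcdef]
      simp only [Pi.add_apply]
      have h2 := cj9_add_self ((w ᵥ* a) e)
      linear_combination h2
    · simp only [Sum.elim_inr, Pi.add_apply, Matrix.zero_vecMul, Pi.zero_apply, zero_add]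
      rw [hv3', hcdef, Matrix.add_vecMul, Matrix.vecMul_add, Matrix.vecMul_vecMul]
      simp only [Pi.add_apply]
      have h2 := cj9_add_self ((w ᵥ* (a * b)) e)
      linear_combination h2

theorem cj9_deg {n B : ℤ} (i : ℤ) (M : Obj n B) (k : ℤ) (v : PI i M → ZMod 2)
    (hv : ∀ e, v e ≠ 0 → pDeg i M e = k) (e : M.I) (he : (v ᵥ* ((pPi i M).map ev)) e ≠ 0) :
    M.deg e = k := by
  rw [Matrix.vecMul, dotProduct] at he
  obtain ⟨g, -, hg⟩ := Finset.exists_ne_zero_of_sum_ne_zero he
  have hvg : v g ≠ 0 := left_ne_zero_of_mul hg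
  have hag : ((pPi i M).map ev) g e ≠ 0 := right_ne_zero_of_mul hg
  have hA : pPi i M g e ≠ 0 := by
    intro h5
    apply hag
    rw [Matrix.map_apply, h5, map_zero]
  have h1 := hv g hvg
  unfold pPi at hA
  rcases g with g | g | g
  · rw [Matrix.fromRows_apply_inl, Matrix.one_apply] at hA
    split at hA
    · rename_i hge
      subst hge
      exact h1
    · exact absurd rfl hA
  · rw [Matrix.fromRows_apply_inr, Matrix.fromRows_apply_inl] at hA
    unfold mP at hA
    rw [Matrix.of_apply] at hA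
    split at hA
    · rename_i hge
      subst hge
      exact h1
    · exact absurd rfl hA
  · rw [Matrix.fromRows_apply_inr, Matrix.fromRows_apply_inr] at hA
    exact absurd rfl hA

theorem cj9_cyc {n B : ℤ} (i : ℤ) (M : Obj n B) (v : PI i M → ZMod 2)
    (hc : v ᵥ* ((pD i M).map ev) = 0) : (v ᵥ* ((pPi i M).map ev)) ᵥ* M.E = 0 := by
  unfold Obj.E
  rw [Matrix.vecMul_vecMul, ← Matrix.map_mul, ← pPi_comm, Matrix.map_mul, ← Matrix.vecMul_vecMul, hc,
    Matrix.zero_vecMul]

theorem pExact {n B : ℤ} (i : ℤ) (M : GObj n B) (v : PI i M.toObj → ZMod 2)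
    (hv : ∀ e, v e ≠ 0 → pDeg i M.toObj e = 0)
    (hc : v ᵥ* ((pD i M.toObj).map ev) = 0) (he : v ⬝ᵥ pEps i M = 0) :
    ∃ w : PI i M.toObj → ZMod 2, (∀ e, w e ≠ 0 → pDeg i M.toObj e = -1) ∧
      w ᵥ* ((pD i M.toObj).map ev) = v := by
  obtain ⟨w, hw1, hw2⟩ := M.exact (v ᵥ* ((pPi i M.toObj).map ev)) (cj9_deg i M.toObj 0 v hv)
    (cj9_cyc i M.toObj v hc) (by rw [← Matrix.dotProduct_mulVec, ← pEps_eq]; exact he)
  obtain ⟨w', h1, h2⟩ := p_lift_cycle i M.toObj 0 v hv hc w (fun e he => by rw [hw1 e he]; rfl) hw2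
  exact ⟨w', fun e he => by rw [h1 e he]; rfl, h2⟩

@[reducible] def gphi {n B : ℤ} (i : ℤ) (M : GObj n B) : GObj n B where
  toObj := phi i M.toObj
  eps := pEps i M
  z := pZ i M
  eps_deg := pEps_deg i M
  z_deg := pZ_deg i M
  eps_coc := pEps_coc i M
  z_cyc := pZ_cyc i M
  pair := pPair i M
  exact := pExact i M

theorem pPi_isMap {n B : ℤ} (i : ℤ) (M : Obj n B) : IsMap (phi i M) M 0 (pPi i M) where
  fil := by
    intro g e
    unfold pPi
    rcases g with g | g | g
    · rw [Matrix.fromRows_apply_inl, Matrix.one_apply]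
      split
      · rename_i hge
        subst hge
        apply fil_one
        show (0 : ℤ × ℤ) ≤ (M.pos g + (if Cl n i (M.pos g) then (0, 1) else 0)) - M.pos g + (0, 0)
        have : (M.pos g + (if Cl n i (M.pos g) then ((0, 1) : ℤ × ℤ) else 0)) - M.pos g + (0, 0) =
            (if Cl n i (M.pos g) then ((0, 1) : ℤ × ℤ) else 0) := by
          have : ((0, 0) : ℤ × ℤ) = 0 := rfl
          rw [this]; abel
        rw [this]
        split
        · exact ⟨by norm_num, by norm_num⟩
        · exact _root_.le_refl _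
      · exact fil_zero _ _ _
    · rw [Matrix.fromRows_apply_inr, Matrix.fromRows_apply_inl]
      unfold mP
      rw [Matrix.of_apply]
      split
      · rename_i hge
        subst hge
        apply fil_one
        show (0 : ℤ × ℤ) ≤ (M.pos g.1 + (1, 0)) - M.pos g.1 + (0, 0)
        have : (M.pos g.1 + ((1, 0) : ℤ × ℤ)) - M.pos g.1 + (0, 0) = (1, 0) := by
          have : ((0, 0) : ℤ × ℤ) = 0 := rfl
          rw [this]; abel
        rw [this]
        exact ⟨by norm_num, by norm_num⟩
      · exact fil_zero _ _ _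
    · rw [Matrix.fromRows_apply_inr, Matrix.fromRows_apply_inr]
      exact fil_zero _ _ _
  deg := by
    intro g e hne
    unfold pPi at hne
    rcases g with g | g | g
    · rw [Matrix.fromRows_apply_inl, Matrix.one_apply] at hne
      split at hne
      · rename_i hge
        subst hge
        rfl
      · exact absurd rfl hne
    · rw [Matrix.fromRows_apply_inr, Matrix.fromRows_apply_inl] at hne
      unfold mP at hne
      rw [Matrix.of_apply] at hne
      split at hne
      · rename_i hge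
        subst hge
        rfl
      · exact absurd rfl hne
    · rw [Matrix.fromRows_apply_inr, Matrix.fromRows_apply_inr] at hne
      exact absurd rfl hne
  comm := pPi_comm i M

theorem le_phi {n B : ℤ} (i : ℤ) (M : GObj n B) : Le (gphi i M) M 0 := by
  refine ⟨pPi i M.toObj, pPi_isMap i M.toObj, ?_⟩
  show (pZ i M ᵥ* ((pPi i M.toObj).map ev)) ⬝ᵥ M.eps = 1
  rw [← Matrix.dotProduct_mulVec, ← pEps_eq]
  exact pPair i M

theorem hzero_phi {n B : ℤ} (i : ℤ) {M : Obj n B} {k : ℤ} (h : HZero M k) :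
    HZero (phi i M) k := by
  intro v hv hc
  obtain ⟨w, hw1, hw2⟩ := h (v ᵥ* ((pPi i M).map ev)) (cj9_deg i M k v hv) (cj9_cyc i M v hc)
  exact p_lift_cycle i M k v hv hc w hw1 hw2

/-- the inverse functor, by duality -/
@[reducible] def gpsi {n B : ℤ} (i : ℤ) (M : GObj n B) : GObj n B := (gphi (-i) M.dual).dual

/-- matrix of the inclusion `M → Φ_i M` when no generator has class `i` -/
theorem cj16_fil {n B : ℤ} (i : ℤ) (M : Obj n B) (h : ∀ e, ¬ Cl n i (M.pos e))
    (g : M.I) (e : PI i M) :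
    Fil n B (M.pos g - pPos i M e + (0, 0))
      ((Matrix.fromCols (1 : Matrix M.I M.I A) (0 : Matrix M.I (CI i M ⊕ CI i M) A)) g e) := by
  rcases e with e | e
  · rw [Matrix.fromCols_apply_inl, Matrix.one_apply]
    by_cases hge : g = e
    · subst hge
      rw [if_pos rfl]
      apply fil_one
      have : pPos i M (Sum.inl g) = M.pos g := by
        show M.pos g + (if Cl n i (M.pos g) then (0, 1) else 0) = M.pos g
        rw [if_neg (h g), add_zero]
      rw [this, sub_self]
      exact ⟨by simp, by simp⟩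
    · rw [if_neg hge]
      exact fil_zero _ _ _
  · rw [Matrix.fromCols_apply_inr, Matrix.zero_apply]
    exact fil_zero _ _ _

theorem cj16_comm {n B : ℤ} (i : ℤ) (M : Obj n B) (h : ∀ e, ¬ Cl n i (M.pos e)) :
    M.D * (Matrix.fromCols (1 : Matrix M.I M.I A) (0 : Matrix M.I (CI i M ⊕ CI i M) A)) =
      (Matrix.fromCols (1 : Matrix M.I M.I A) (0 : Matrix M.I (CI i M ⊕ CI i M) A)) *
        pD i M := by
  have hE : IsEmpty (CI i M) := ⟨fun e => h e.1 e.2⟩
  have hAP : mA i M * mP i M = 0 := by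
    apply Matrix.ext
    intro a b
    rw [Matrix.mul_apply, Finset.univ_eq_empty, Finset.sum_empty, Matrix.zero_apply]
  have hD : M.D * (Matrix.fromCols (1 : Matrix M.I M.I A)
      (0 : Matrix M.I (CI i M ⊕ CI i M) A)) = Matrix.fromCols M.D 0 := by
    rw [Matrix.mul_fromCols, Matrix.mul_one, Matrix.mul_zero]
  rw [hD]
  unfold pD
  rw [Matrix.fromCols_mul_fromBlocks, Matrix.one_mul, Matrix.one_mul, Matrix.zero_mul,
    Matrix.zero_mul, add_zero, add_zero]
  unfold pVV
  rw [hAP, add_zero]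
  congr 1
  apply Matrix.ext
  intro a b
  rcases b with b | b
  · exact absurd b.2 (h b.1)
  · exact absurd b.2 (h b.1)

theorem le_phi_of_empty {n B : ℤ} (i : ℤ) (M : GObj n B) (h : ∀ e, ¬ Cl n i (M.pos e)) :
    Le M (gphi i M) 0 := by
  refine ⟨Matrix.fromCols (1 : Matrix M.I M.I A)
    (0 : Matrix M.I (CI i M.toObj ⊕ CI i M.toObj) A), ⟨?_, ?_, ?_⟩, ?_⟩
  · intro g e
    exact cj16_fil i M.toObj h g e
  · intro g e hne
    rcases e with e | e
    · rw [Matrix.fromCols_apply_inl, Matrix.one_apply] at hne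
      by_cases hge : g = e
      · subst hge
        rfl
      · rw [if_neg hge] at hne
        exact absurd rfl hne
    · rw [Matrix.fromCols_apply_inr, Matrix.zero_apply] at hne
      exact absurd rfl hne
  · exact cj16_comm i M.toObj h
  · have hm : (Matrix.fromCols (1 : Matrix M.I M.I A)
        (0 : Matrix M.I (CI i M.toObj ⊕ CI i M.toObj) A)).map ev =
        Matrix.fromCols (1 : Matrix M.I M.I (ZMod 2)) 0 := by
      apply Matrix.ext
      intro a b
      rcases b with b | b
      · rw [Matrix.map_apply, Matrix.fromCols_apply_inl, Matrix.fromCols_apply_inl,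
          Matrix.one_apply, Matrix.one_apply]
        by_cases hab : a = b
        · rw [if_pos hab, if_pos hab, map_one]
        · rw [if_neg hab, if_neg hab, map_zero]
      · rw [Matrix.map_apply, Matrix.fromCols_apply_inr, Matrix.fromCols_apply_inr,
          Matrix.zero_apply, map_zero, Matrix.zero_apply]
    rw [hm]
    show (M.z ᵥ* (Matrix.fromCols (1 : Matrix M.I M.I (ZMod 2))
      (0 : Matrix M.I (CI i M.toObj ⊕ CI i M.toObj) (ZMod 2)))) ⬝ᵥ pEps i M = 1
    rw [Matrix.vecMul_fromCols, Matrix.vecMul_one, Matrix.vecMul_zero]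
    unfold dotProduct
    rw [Fintype.sum_sum_type]
    have h2 : ∑ x : CI i M.toObj ⊕ CI i M.toObj,
        (Sum.elim M.z (0 : CI i M.toObj ⊕ CI i M.toObj → ZMod 2) (Sum.inr x)) *
          pEps i M (Sum.inr x) = 0 := by
      apply Finset.sum_eq_zero
      intro x _
      simp
    rw [h2, add_zero]
    exact M.pair

end

end MWC
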