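import Pool.Agent.Lib.MP_cbfcf7.C2

/-!
# Lifting lemma and its consequences
-/

namespace MWC

noncomputable section

open scoped Classical
open Matrix

/-- A complex over `A` with filtration pieces `F d` (not necessarily free). -/
structure FMod (n B : ℤ) where
  I : Type
  [fin : Fintype I]
  [dec : DecidableEq I]
  deg : I → ℤ
  D : Matrix I I A
  hdeg : ∀ g h, D g h ≠ 0 → deg h = deg g + 1
  sq : D * D = 0
  F : ℤ × ℤ → (I → A) → Prop
  F_zero : ∀ d, F d 0
  F_add : ∀ d v w, F d v → F d w → F d (v + w)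
  F_smul : ∀ d δ (a : A) v, Fil n B δ a → F d v → F (d + δ) (a • v)
  F_D : ∀ d v, F d v → F d (v ᵥ* D)

attribute [instance] FMod.fin FMod.dec

/-- homogeneous vectors of degree `k` -/
def HomDeg {I : Type} {R : Type} [Zero R] (deg : I → ℤ) (k : ℤ) (v : I → R) : Prop :=
  ∀ e, v e ≠ 0 → deg e = k

/-- `ν : X → Y` is a quasi-isomorphism on all pieces -/
structure QI {n B : ℤ} (X Y : FMod n B) (ν : Matrix X.I Y.I A) : Prop where
  hF : ∀ d v, X.F d v → Y.F d (v ᵥ* ν)
  hdeg : ∀ g e, ν g e ≠ 0 → Y.deg e = X.deg g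
  comm : X.D * ν = ν * Y.D
  inj : ∀ (d : ℤ × ℤ) (k : ℤ) (y : X.I → A), X.F d y → HomDeg X.deg (k + 1) y → y ᵥ* X.D = 0 →
    ∀ x : Y.I → A, Y.F d x → HomDeg Y.deg k x → y ᵥ* ν = x ᵥ* Y.D →
    ∃ y' : X.I → A, X.F d y' ∧ HomDeg X.deg k y' ∧ y' ᵥ* X.D = y
  surj : ∀ (d : ℤ × ℤ) (k : ℤ) (c : Y.I → A), Y.F d c → HomDeg Y.deg k c → c ᵥ* Y.D = 0 →
    ∃ x : X.I → A, X.F d x ∧ HomDeg X.deg k x ∧ x ᵥ* X.D = 0 ∧
      ∃ b : Y.I → A, Y.F d b ∧ HomDeg Y.deg (k - 1) b ∧ c = x ᵥ* ν + b ᵥ* Y.D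

theorem cj10_aux_congr {I J : Type} [Fintype I] {v : I → A} {M M' : Matrix I J A}
    (h : ∀ i, v i ≠ 0 → M i = M' i) : v ᵥ* M = v ᵥ* M' := by
  rw [Matrix.vecMul_eq_sum, Matrix.vecMul_eq_sum]
  apply Finset.sum_congr rfl
  intro i _
  by_cases hv : v i = 0
  · rw [hv, zero_smul, zero_smul]
  · rw [h i hv]

theorem cj10_aux_sum {n B : ℤ} (X : FMod n B) (d : ℤ × ℤ) {ι : Type} (s : Finset ι)
    (f : ι → X.I → A) (h : ∀ i ∈ s, X.F d (f i)) : X.F d (∑ i ∈ s, f i) := by
  induction s using Finset.induction_on with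
  | empty =>
    rw [Finset.sum_empty]
    exact X.F_zero d
  | insert a s ha ih =>
    rw [Finset.sum_insert ha]
    exact X.F_add d _ _ (h a (Finset.mem_insert_self a s))
      (ih fun i hi => h i (Finset.mem_insert_of_mem hi))

theorem cj10_aux_F {n B : ℤ} (Q : Obj n B) (X : FMod n B) (l : ℤ) (ψ : Matrix Q.I X.I A)
    (hψ : ∀ g, X.F (Q.pos g + (l, l)) (ψ g)) (g : Q.I) :
    X.F (Q.pos g + (l, l)) (Q.D g ᵥ* ψ) := by
  rw [Matrix.vecMul_eq_sum]
  apply cj10_aux_sum
  intro h _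
  have h1 := X.F_smul (Q.pos h + (l, l)) (Q.pos g - Q.pos h) (Q.D g h) (ψ h) (Q.fil g h) (hψ h)
  have e : Q.pos h + (l, l) + (Q.pos g - Q.pos h) = Q.pos g + (l, l) := by abel
  rw [e] at h1
  exact h1

theorem cj10_aux_deg {n B : ℤ} (Q : Obj n B) {J : Type} (dg : J → ℤ) (r : ℤ)
    (ψ : Matrix Q.I J A) (hψ : ∀ g, HomDeg dg (Q.deg g + r) (ψ g)) (g : Q.I) :
    HomDeg dg (Q.deg g + r + 1) (Q.D g ᵥ* ψ) := by
  intro e he
  have h0 : (Q.D g ᵥ* ψ) e = ∑ h, Q.D g h * ψ h e := rfl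
  rw [h0] at he
  obtain ⟨h, -, hh⟩ := Finset.exists_ne_zero_of_sum_ne_zero he
  have h1 : Q.D g h ≠ 0 := left_ne_zero_of_mul hh
  have h2 : ψ h e ≠ 0 := right_ne_zero_of_mul hh
  have h3 := Q.hdeg g h h1
  have h4 := hψ h e h2
  omega

theorem cj10_aux_add {I : Type} {dg : I → ℤ} {k : ℤ} {v w : I → A} (hv : HomDeg dg k v)
    (hw : HomDeg dg k w) : HomDeg dg k (v + w) := by
  intro e he
  by_cases h : v e = 0
  · apply hw e
    intro h2
    apply he
    rw [Pi.add_apply, h, h2, add_zero]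
  · exact hv e h

theorem cj10_aux_map {n B : ℤ} {X Y : FMod n B} {ν : Matrix X.I Y.I A} (hν : QI X Y ν) {k : ℤ}
    {v : X.I → A} (hv : HomDeg X.deg k v) : HomDeg Y.deg k (v ᵥ* ν) := by
  intro e he
  have h0 : (v ᵥ* ν) e = ∑ h, v h * ν h e := rfl
  rw [h0] at he
  obtain ⟨h, -, hh⟩ := Finset.exists_ne_zero_of_sum_ne_zero he
  have h1 := left_ne_zero_of_mul hh
  have h2 := right_ne_zero_of_mul hh
  rw [hν.hdeg h e h2]
  exact hv h h1

theorem cj10_aux_self {I : Type} (v : I → A) : v + v = 0 := by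
  funext e
  exact A_add_self (v e)

/-- one row of the lifting lemma -/
theorem cj10_aux_row {n B : ℤ} (Q : Obj n B) {X Y : FMod n B} {ν : Matrix X.I Y.I A}
    (hν : QI X Y ν) (l r : ℤ) (φ : Matrix Q.I Y.I A) (χ : Matrix Q.I X.I A)
    (hφ : ∀ g, Y.F (Q.pos g + (l, l)) (φ g)) (hφd : ∀ g, HomDeg Y.deg (Q.deg g + r) (φ g))
    (hχ : ∀ g, X.F (Q.pos g + (l, l)) (χ g)) (hχd : ∀ g, HomDeg X.deg (Q.deg g + r + 1) (χ g))
    (h1 : Q.D * χ = χ * X.D) (h2 : χ * ν = φ * Y.D + Q.D * φ)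
    (ψ : Matrix Q.I X.I A) (K : Matrix Q.I Y.I A)
    (hψ : ∀ g, X.F (Q.pos g + (l, l)) (ψ g)) (hψd : ∀ g, HomDeg X.deg (Q.deg g + r) (ψ g))
    (hK : ∀ g, Y.F (Q.pos g + (l, l)) (K g)) (hKd : ∀ g, HomDeg Y.deg (Q.deg g + r - 1) (K g))
    (g : Q.I)
    (he1 : ∀ h, Q.D g h ≠ 0 → ψ h ᵥ* X.D + Q.D h ᵥ* ψ = χ h)
    (he2 : ∀ h, Q.D g h ≠ 0 → ψ h ᵥ* ν + φ h = K h ᵥ* Y.D + Q.D h ᵥ* K) :
    ∃ (p : X.I → A) (b : Y.I → A), X.F (Q.pos g + (l, l)) p ∧ HomDeg X.deg (Q.deg g + r) p ∧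
      Y.F (Q.pos g + (l, l)) b ∧ HomDeg Y.deg (Q.deg g + r - 1) b ∧
      p ᵥ* X.D + Q.D g ᵥ* ψ = χ g ∧ p ᵥ* ν + φ g = b ᵥ* Y.D + Q.D g ᵥ* K := by
  have hQQ : ∀ {J : Type} (N : Matrix Q.I J A), Q.D g ᵥ* (Q.D * N) = 0 := by
    intro J N
    rw [← Matrix.vecMul_vecMul]
    have : Q.D g ᵥ* Q.D = 0 := by
      rw [← Matrix.mul_apply_eq_vecMul, Q.sq]
      rfl
    rw [this, Matrix.zero_vecMul]
  set y : X.I → A := χ g + Q.D g ᵥ* ψ with hy
  set x0 : Y.I → A := φ g + Q.D g ᵥ* K with hx0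
  have hyF : X.F (Q.pos g + (l, l)) y := X.F_add _ _ _ (hχ g) (cj10_aux_F Q X l ψ hψ g)
  have hyd : HomDeg X.deg (Q.deg g + r + 1) y :=
    cj10_aux_add (hχd g) (cj10_aux_deg Q X.deg r ψ hψd g)
  have hx0F : Y.F (Q.pos g + (l, l)) x0 := Y.F_add _ _ _ (hφ g) (cj10_aux_F Q Y l K hK g)
  have hx0d : HomDeg Y.deg (Q.deg g + r) x0 := by
    apply cj10_aux_add (hφd g)
    have h3 := cj10_aux_deg Q Y.deg (r - 1) K (by
      intro h
      have := hKd h
      have e : Q.deg h + r - 1 = Q.deg h + (r - 1) := by ring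
      rwa [e] at this) g
    have e : Q.deg g + (r - 1) + 1 = Q.deg g + r := by ring
    rwa [e] at h3
  -- the cycle condition
  have hχD : χ g ᵥ* X.D = Q.D g ᵥ* χ := by
    rw [← Matrix.mul_apply_eq_vecMul, ← Matrix.mul_apply_eq_vecMul, h1]
  have hψD : Q.D g ᵥ* (ψ * X.D) = Q.D g ᵥ* χ := by
    have e1 : Q.D g ᵥ* (ψ * X.D) = Q.D g ᵥ* (χ + Q.D * ψ) := by
      apply cj10_aux_congr
      intro h hh
      have h3 := he1 h hh
      rw [Matrix.mul_apply_eq_vecMul]
      change ψ h ᵥ* X.D = χ h + (Q.D * ψ) h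
      rw [Matrix.mul_apply_eq_vecMul, ← h3, add_assoc, cj10_aux_self, add_zero]
    rw [e1, Matrix.vecMul_add, hQQ, add_zero]
  have hyD : y ᵥ* X.D = 0 := by
    rw [hy, Matrix.add_vecMul, Matrix.vecMul_vecMul, hψD, hχD]
    exact cj10_aux_self _
  have hχν : χ g ᵥ* ν = φ g ᵥ* Y.D + Q.D g ᵥ* φ := by
    rw [← Matrix.mul_apply_eq_vecMul, ← Matrix.mul_apply_eq_vecMul, ← Matrix.mul_apply_eq_vecMul,
      h2]
    rfl
  have hψν : Q.D g ᵥ* (ψ * ν) = Q.D g ᵥ* φ + Q.D g ᵥ* (K * Y.D) := by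
    have e1 : Q.D g ᵥ* (ψ * ν) = Q.D g ᵥ* (φ + (K * Y.D + Q.D * K)) := by
      apply cj10_aux_congr
      intro h hh
      have h3 := he2 h hh
      rw [Matrix.mul_apply_eq_vecMul]
      change ψ h ᵥ* ν = φ h + ((K * Y.D) h + (Q.D * K) h)
      rw [Matrix.mul_apply_eq_vecMul, Matrix.mul_apply_eq_vecMul, ← h3,
        add_comm (ψ h ᵥ* ν), ← add_assoc, cj10_aux_self, zero_add]
    rw [e1, Matrix.vecMul_add, Matrix.vecMul_add, hQQ, add_zero]
  have hyν : y ᵥ* ν = x0 ᵥ* Y.D := by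
    rw [hy, hx0, Matrix.add_vecMul, Matrix.add_vecMul, Matrix.vecMul_vecMul,
      Matrix.vecMul_vecMul, hχν, hψν]
    calc φ g ᵥ* Y.D + Q.D g ᵥ* φ + (Q.D g ᵥ* φ + Q.D g ᵥ* (K * Y.D)) =
          φ g ᵥ* Y.D + (Q.D g ᵥ* φ + Q.D g ᵥ* φ) + Q.D g ᵥ* (K * Y.D) := by abel
      _ = φ g ᵥ* Y.D + Q.D g ᵥ* (K * Y.D) := by rw [cj10_aux_self, add_zero]
  obtain ⟨x, hxF, hxd, hxD⟩ := hν.inj (Q.pos g + (l, l)) (Q.deg g + r) y hyF hyd hyD x0 hx0F
    hx0d hyν
  set c : Y.I → A := x ᵥ* ν + x0 with hc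
  have hcF : Y.F (Q.pos g + (l, l)) c := Y.F_add _ _ _ (hν.hF _ _ hxF) hx0F
  have hcd : HomDeg Y.deg (Q.deg g + r) c := cj10_aux_add (cj10_aux_map hν hxd) hx0d
  have hcD : c ᵥ* Y.D = 0 := by
    rw [hc, Matrix.add_vecMul, Matrix.vecMul_vecMul, ← hν.comm, ← Matrix.vecMul_vecMul, hxD, hyν]
    exact cj10_aux_self _
  obtain ⟨x', hx'F, hx'd, hx'D, b, hbF, hbd, hcb⟩ :=
    hν.surj (Q.pos g + (l, l)) (Q.deg g + r) c hcF hcd hcD
  refine ⟨x + x', b, X.F_add _ _ _ hxF hx'F, cj10_aux_add hxd hx'd, hbF, hbd, ?_, ?_⟩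
  · rw [Matrix.add_vecMul, hxD, hx'D, add_zero, hy, add_assoc, cj10_aux_self, add_zero]
  · have h3 : x ᵥ* ν + x0 = x' ᵥ* ν + b ᵥ* Y.D := hcb
    have h4 : x ᵥ* ν = x' ᵥ* ν + b ᵥ* Y.D + x0 := by
      rw [← h3, add_assoc, cj10_aux_self, add_zero]
    rw [Matrix.add_vecMul, h4, hx0]
    calc x' ᵥ* ν + b ᵥ* Y.D + (φ g + Q.D g ᵥ* K) + x' ᵥ* ν + φ g =
          (x' ᵥ* ν + x' ᵥ* ν) + (φ g + φ g) + (b ᵥ* Y.D + Q.D g ᵥ* K) := by abel
      _ = b ᵥ* Y.D + Q.D g ᵥ* K := by
          rw [cj10_aux_self, cj10_aux_self, zero_add, zero_add]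

/-- LIFTING LEMMA: acyclicity of the Hom complex into the cone of a quasi-isomorphism. -/
theorem lift {n B : ℤ} (Q : Obj n B) {X Y : FMod n B} {ν : Matrix X.I Y.I A} (hν : QI X Y ν)
    (l r : ℤ) (φ : Matrix Q.I Y.I A) (χ : Matrix Q.I X.I A)
    (hφ : ∀ g, Y.F (Q.pos g + (l, l)) (φ g)) (hφd : ∀ g, HomDeg Y.deg (Q.deg g + r) (φ g))
    (hχ : ∀ g, X.F (Q.pos g + (l, l)) (χ g)) (hχd : ∀ g, HomDeg X.deg (Q.deg g + r + 1) (χ g))
    (h1 : Q.D * χ = χ * X.D) (h2 : χ * ν = φ * Y.D + Q.D * φ) :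
    ∃ (ψ : Matrix Q.I X.I A) (K : Matrix Q.I Y.I A),
      (∀ g, X.F (Q.pos g + (l, l)) (ψ g)) ∧ (∀ g, HomDeg X.deg (Q.deg g + r) (ψ g)) ∧
      (∀ g, Y.F (Q.pos g + (l, l)) (K g)) ∧ (∀ g, HomDeg Y.deg (Q.deg g + r - 1) (K g)) ∧
      ψ * X.D + Q.D * ψ = χ ∧ ψ * ν + φ = K * Y.D + Q.D * K := by
  set S : ℤ := ∑ g, |Q.deg g| with hS
  have hSg : ∀ g, |Q.deg g| ≤ S := fun g =>
    Finset.single_le_sum (f := fun g => |Q.deg g|) (fun g _ => abs_nonneg _) (Finset.mem_univ g)
  have hS0 : 0 ≤ S := Finset.sum_nonneg fun g _ => abs_nonneg _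
  have key : ∀ j : ℕ, ∃ (ψ : Matrix Q.I X.I A) (K : Matrix Q.I Y.I A),
      (∀ g, X.F (Q.pos g + (l, l)) (ψ g)) ∧ (∀ g, HomDeg X.deg (Q.deg g + r) (ψ g)) ∧
      (∀ g, Y.F (Q.pos g + (l, l)) (K g)) ∧ (∀ g, HomDeg Y.deg (Q.deg g + r - 1) (K g)) ∧
      (∀ g, S + 1 - j ≤ Q.deg g → ψ g ᵥ* X.D + Q.D g ᵥ* ψ = χ g) ∧
      (∀ g, S + 1 - j ≤ Q.deg g → ψ g ᵥ* ν + φ g = K g ᵥ* Y.D + Q.D g ᵥ* K) := by
    intro j
    induction j with
    | zero =>
      refine ⟨0, 0, fun g => X.F_zero _, fun g e he => absurd rfl he, fun g => Y.F_zero _,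
        fun g e he => absurd rfl he, ?_, ?_⟩
      · intro g hg
        have h3 := hSg g
        have h4 := le_abs_self (Q.deg g)
        push_cast at hg
        omega
      · intro g hg
        have h3 := hSg g
        have h4 := le_abs_self (Q.deg g)
        push_cast at hg
        omega
    | succ j ih =>
      obtain ⟨ψ, K, hψ, hψd, hK, hKd, he1, he2⟩ := ih
      have hrow : ∀ g, ∃ (p : X.I → A) (b : Y.I → A), Q.deg g = S + 1 - (j + 1) →
          (X.F (Q.pos g + (l, l)) p ∧ HomDeg X.deg (Q.deg g + r) p ∧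
          Y.F (Q.pos g + (l, l)) b ∧ HomDeg Y.deg (Q.deg g + r - 1) b ∧
          p ᵥ* X.D + Q.D g ᵥ* ψ = χ g ∧ p ᵥ* ν + φ g = b ᵥ* Y.D + Q.D g ᵥ* K) := by
        intro g
        by_cases hg : Q.deg g = S + 1 - (j + 1)
        · obtain ⟨p, b, hpb⟩ := cj10_aux_row Q hν l r φ χ hφ hφd hχ hχd h1 h2 ψ K hψ hψd hK hKd g
            (fun h hh => he1 h (by
              have := Q.hdeg g h hh
              omega))
            (fun h hh => he2 h (by
              have := Q.hdeg g h hh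
              omega))
          exact ⟨p, b, fun _ => hpb⟩
        · exact ⟨0, 0, fun h => absurd h hg⟩
      choose p b hpb using hrow
      set ψ' : Matrix Q.I X.I A := fun g => if Q.deg g = S + 1 - (j + 1) then p g else ψ g with hψ'
      set K' : Matrix Q.I Y.I A := fun g => if Q.deg g = S + 1 - (j + 1) then b g else K g with hK'
      have hψ'1 : ∀ g, Q.deg g = S + 1 - (j + 1) → ψ' g = p g := by
        intro g hg
        rw [hψ']
        exact if_pos hg
      have hψ'2 : ∀ g, Q.deg g ≠ S + 1 - (j + 1) → ψ' g = ψ g := by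
        intro g hg
        rw [hψ']
        exact if_neg hg
      have hK'1 : ∀ g, Q.deg g = S + 1 - (j + 1) → K' g = b g := by
        intro g hg
        rw [hK']
        exact if_pos hg
      have hK'2 : ∀ g, Q.deg g ≠ S + 1 - (j + 1) → K' g = K g := by
        intro g hg
        rw [hK']
        exact if_neg hg
      have hcψ : ∀ g, S + 1 - (j + 1) ≤ Q.deg g → Q.D g ᵥ* ψ' = Q.D g ᵥ* ψ := by
        intro g hg
        apply cj10_aux_congr
        intro h hh
        apply hψ'2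
        have := Q.hdeg g h hh
        omega
      have hcK : ∀ g, S + 1 - (j + 1) ≤ Q.deg g → Q.D g ᵥ* K' = Q.D g ᵥ* K := by
        intro g hg
        apply cj10_aux_congr
        intro h hh
        apply hK'2
        have := Q.hdeg g h hh
        omega
      refine ⟨ψ', K', ?_, ?_, ?_, ?_, ?_, ?_⟩
      · intro g
        by_cases hg : Q.deg g = S + 1 - (j + 1)
        · rw [hψ'1 g hg]
          exact (hpb g hg).1
        · rw [hψ'2 g hg]
          exact hψ g
      · intro g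
        by_cases hg : Q.deg g = S + 1 - (j + 1)
        · rw [hψ'1 g hg]
          exact (hpb g hg).2.1
        · rw [hψ'2 g hg]
          exact hψd g
      · intro g
        by_cases hg : Q.deg g = S + 1 - (j + 1)
        · rw [hK'1 g hg]
          exact (hpb g hg).2.2.1
        · rw [hK'2 g hg]
          exact hK g
      · intro g
        by_cases hg : Q.deg g = S + 1 - (j + 1)
        · rw [hK'1 g hg]
          exact (hpb g hg).2.2.2.1
        · rw [hK'2 g hg]
          exact hKd g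
      · intro g hg
        push_cast at hg
        rw [hcψ g hg]
        by_cases hg2 : Q.deg g = S + 1 - (j + 1)
        · rw [hψ'1 g hg2]
          exact (hpb g hg2).2.2.2.2.1
        · rw [hψ'2 g hg2]
          exact he1 g (by omega)
      · intro g hg
        push_cast at hg
        rw [hcK g hg]
        by_cases hg2 : Q.deg g = S + 1 - (j + 1)
        · rw [hψ'1 g hg2, hK'1 g hg2]
          exact (hpb g hg2).2.2.2.2.2
        · rw [hψ'2 g hg2, hK'2 g hg2]
          exact he2 g (by omega)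
  obtain ⟨ψ, K, hψ, hψd, hK, hKd, he1, he2⟩ := key (2 * S + 1).toNat
  have hj : (((2 * S + 1).toNat : ℕ) : ℤ) = 2 * S + 1 := Int.toNat_of_nonneg (by omega)
  have hall : ∀ g, S + 1 - ((2 * S + 1).toNat : ℕ) ≤ Q.deg g := by
    intro g
    rw [hj]
    have h3 := hSg g
    have h4 := neg_abs_le (Q.deg g)
    omega
  refine ⟨ψ, K, hψ, hψd, hK, hKd, ?_, ?_⟩
  · apply Matrix.ext
    intro g e
    have h3 := congrFun (he1 g (hall g)) e
    rw [← Matrix.mul_apply_eq_vecMul, ← Matrix.mul_apply_eq_vecMul] at h3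
    exact h3
  · apply Matrix.ext
    intro g e
    have h3 := congrFun (he2 g (hall g)) e
    rw [← Matrix.mul_apply_eq_vecMul, ← Matrix.mul_apply_eq_vecMul,
      ← Matrix.mul_apply_eq_vecMul] at h3
    exact h3

/-! Part 1: lemmas to be placed before `Obj.toF`. -/

theorem cj11_coeff_mul {a b : A} {k : ℤ} (hk : (a * b).coeff k ≠ 0) :
    ∃ x y : ℤ, a.coeff x ≠ 0 ∧ b.coeff y ≠ 0 ∧ x + y = k := by
  have hk' : k ∈ (a * b).coeff.support := by simpa using hk
  have := AddMonoidAlgebra.support_coeff_mul_subset a b hk'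
  rw [Finset.mem_add] at this
  obtain ⟨x, hx, y, hy, h⟩ := this
  exact ⟨x, y, by simpa using hx, by simpa using hy, h⟩

theorem cj11_coeff_add {a b : A} {k : ℤ} (hk : (a + b).coeff k ≠ 0) (h : a.coeff k = 0) :
    b.coeff k ≠ 0 := by
  intro h2
  apply hk
  simp [h, h2]

theorem cj11_coeff_sum {ι : Type*} (s : Finset ι) (f : ι → A) {k : ℤ}
    (hk : (∑ i ∈ s, f i).coeff k ≠ 0) : ∃ i ∈ s, (f i).coeff k ≠ 0 := by
  induction s using Finset.induction_on with
  | empty => simp at hk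
  | insert a s ha ih =>
    rw [Finset.sum_insert ha] at hk
    by_cases h : (f a).coeff k = 0
    · have h2 : (∑ i ∈ s, f i).coeff k ≠ 0 := cj11_coeff_add hk h
      obtain ⟨i, hi, hi2⟩ := ih h2
      exact ⟨i, Finset.mem_insert_of_mem hi, hi2⟩
    · exact ⟨a, Finset.mem_insert_self a s, h⟩

theorem cj11_Cl {n i : ℤ} {d : ℤ × ℤ} {l : ℤ} (h : Cl n i (d + (l, l))) : Cl n i d := by
  unfold Cl jj at *
  simp only [Prod.fst_add, Prod.snd_add] at h
  have e : d.1 + l - (d.2 + l) - i = d.1 - d.2 - i := by ring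
  rwa [e] at h

theorem cj11_F_map {n B : ℤ} {I J : Type} [Fintype I] {pos : I → ℤ × ℤ} {pos' : J → ℤ × ℤ} {l : ℤ}
    {φ : Matrix I J A} (hφ : ∀ g e, Fil n B (pos g - pos' e + (l, l)) (φ g e)) (d : ℤ × ℤ)
    (v : I → A) (hv : ∀ e, Fil n B (d - pos e) (v e)) (e : J) :
    Fil n B (d + (l, l) - pos' e) ((v ᵥ* φ) e) := by
  rw [Matrix.vecMul, dotProduct]
  apply fil_sum
  intro g _
  have := fil_mul (hv g) (hφ g e)
  have e1 : d - pos g + (pos g - pos' e + (l, l)) = d + (l, l) - pos' e := by abel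
  rwa [e1] at this

theorem cj11_mF_map {n B i : ℤ} {I J : Type} [Fintype I] {pos : I → ℤ × ℤ} {pos' : J → ℤ × ℤ}
    {l : ℤ} {φ : Matrix I J A} (hφ : ∀ g e, Fil n B (pos g - pos' e + (l, l)) (φ g e)) (d : ℤ × ℤ)
    (v : I → A) (hv : ∀ e, Fil n B (d - pos e) (v e))
    (hv2 : Cl n i d → ∀ e k, (v e).coeff k ≠ 0 → pos e + (k * B, k * (B - n)) ≠ d) :
    Cl n i (d + (l, l)) → ∀ e k, ((v ᵥ* φ) e).coeff k ≠ 0 →
      pos' e + (k * B, k * (B - n)) ≠ d + (l, l) := by
  intro hCl e k hk heq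
  rw [Matrix.vecMul, dotProduct] at hk
  obtain ⟨g, -, hg⟩ := cj11_coeff_sum _ _ hk
  obtain ⟨x, y, hx, hy, hxy⟩ := cj11_coeff_mul hg
  have h1 := hv g x hx
  have h2 := hφ g e y hy
  apply hv2 (cj11_Cl hCl) g x hx
  have h3 := congrArg Prod.fst heq
  have h4 := congrArg Prod.snd heq
  simp only [Prod.fst_add, Prod.snd_add, Prod.fst_sub, Prod.snd_sub] at h1 h2 h3 h4
  obtain ⟨h1a, h1b⟩ := h1
  obtain ⟨h2a, h2b⟩ := h2
  subst hxy
  have e1 : (x + y) * B = x * B + y * B := by ring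
  have e2 : (x + y) * (B - n) = x * (B - n) + y * (B - n) := by ring
  rw [e1] at h3
  rw [e2] at h4
  apply Prod.ext
  · simp only [Prod.fst_add]
    linarith
  · simp only [Prod.snd_add]
    linarith

theorem cj11_toF_F_D {n B : ℤ} (M : Obj n B) (d : ℤ × ℤ) (v : M.I → A)
    (hv : ∀ e, Fil n B (d - M.pos e) (v e)) : ∀ e, Fil n B (d - M.pos e) ((v ᵥ* M.D) e) := by
  intro e
  have h0 : ∀ g e, Fil n B (M.pos g - M.pos e + ((0 : ℤ), (0 : ℤ))) (M.D g e) := by
    intro g e
    have e1 : M.pos g - M.pos e + ((0 : ℤ), (0 : ℤ)) = M.pos g - M.pos e := by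
      have : (((0 : ℤ), (0 : ℤ)) : ℤ × ℤ) = 0 := rfl
      rw [this, add_zero]
    rw [e1]
    exact M.fil g e
  have := cj11_F_map (pos := M.pos) (pos' := M.pos) h0 d v hv e
  have e2 : d + ((0 : ℤ), (0 : ℤ)) = d := by
    have : (((0 : ℤ), (0 : ℤ)) : ℤ × ℤ) = 0 := rfl
    rw [this, add_zero]
  rwa [e2] at this

theorem cj11_mF_F_D {n B : ℤ} (i : ℤ) (M : Obj n B) (d : ℤ × ℤ) (v : M.I → A)
    (hv : (∀ e, Fil n B (d - M.pos e) (v e)) ∧
      (Cl n i d → ∀ e k, (v e).coeff k ≠ 0 → M.pos e + (k * B, k * (B - n)) ≠ d)) :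
    (∀ e, Fil n B (d - M.pos e) ((v ᵥ* M.D) e)) ∧
      (Cl n i d → ∀ e k, ((v ᵥ* M.D) e).coeff k ≠ 0 → M.pos e + (k * B, k * (B - n)) ≠ d) := by
  refine ⟨cj11_toF_F_D M d v hv.1, ?_⟩
  have h0 : ∀ g e, Fil n B (M.pos g - M.pos e + ((0 : ℤ), (0 : ℤ))) (M.D g e) := by
    intro g e
    have e1 : M.pos g - M.pos e + ((0 : ℤ), (0 : ℤ)) = M.pos g - M.pos e := by
      have : (((0 : ℤ), (0 : ℤ)) : ℤ × ℤ) = 0 := rfl
      rw [this, add_zero]
    rw [e1]
    exact M.fil g e
  have := cj11_mF_map (i := i) (pos := M.pos) (pos' := M.pos) h0 d v hv.1 hv.2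
  have e2 : d + ((0 : ℤ), (0 : ℤ)) = d := by
    have : (((0 : ℤ), (0 : ℤ)) : ℤ × ℤ) = 0 := rfl
    rw [this, add_zero]
  rwa [e2] at this

theorem cj11_mF_F_add {n B : ℤ} (i : ℤ) (M : Obj n B) (d : ℤ × ℤ) (v w : M.I → A)
    (hv : (∀ e, Fil n B (d - M.pos e) (v e)) ∧
      (Cl n i d → ∀ e k, (v e).coeff k ≠ 0 → M.pos e + (k * B, k * (B - n)) ≠ d))
    (hw : (∀ e, Fil n B (d - M.pos e) (w e)) ∧
      (Cl n i d → ∀ e k, (w e).coeff k ≠ 0 → M.pos e + (k * B, k * (B - n)) ≠ d)) :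
    (∀ e, Fil n B (d - M.pos e) ((v + w) e)) ∧
      (Cl n i d → ∀ e k, ((v + w) e).coeff k ≠ 0 → M.pos e + (k * B, k * (B - n)) ≠ d) := by
  refine ⟨fun e => fil_add (hv.1 e) (hw.1 e), ?_⟩
  intro hCl e k hk
  by_cases h : (v e).coeff k = 0
  · exact hw.2 hCl e k (cj11_coeff_add hk h)
  · exact hv.2 hCl e k h

theorem cj11_mF_F_smul {n B : ℤ} (i : ℤ) (M : Obj n B) (d δ : ℤ × ℤ) (a : A) (v : M.I → A)
    (ha : Fil n B δ a)
    (hv : (∀ e, Fil n B (d - M.pos e) (v e)) ∧
      (Cl n i d → ∀ e k, (v e).coeff k ≠ 0 → M.pos e + (k * B, k * (B - n)) ≠ d)) :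
    (∀ e, Fil n B (d + δ - M.pos e) ((a • v) e)) ∧
      (Cl n i (d + δ) → ∀ e k, ((a • v) e).coeff k ≠ 0 →
        M.pos e + (k * B, k * (B - n)) ≠ d + δ) := by
  constructor
  · intro e
    have := fil_mul ha (hv.1 e)
    have e1 : δ + (d - M.pos e) = d + δ - M.pos e := by abel
    rw [e1] at this
    exact this
  · intro hCl e k hk heq
    have hk' : (a * v e).coeff k ≠ 0 := hk
    obtain ⟨x, y, hx, hy, hxy⟩ := cj11_coeff_mul hk'
    have h1 := ha x hx
    have h2 := hv.1 e y hy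
    have h3 := congrArg Prod.fst heq
    have h4 := congrArg Prod.snd heq
    simp only [Prod.fst_add, Prod.snd_add, Prod.fst_sub, Prod.snd_sub] at h1 h2 h3 h4
    obtain ⟨h1a, h1b⟩ := h1
    obtain ⟨h2a, h2b⟩ := h2
    subst hxy
    have e1 : (x + y) * B = x * B + y * B := by ring
    have e2 : (x + y) * (B - n) = x * (B - n) + y * (B - n) := by ring
    rw [e1] at h3
    rw [e2] at h4
    have hd1 : δ.1 = x * B := by linarith
    have hd2 : δ.2 = x * (B - n) := by linarith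
    apply hv.2 _ e y hy
    · apply Prod.ext
      · simp only [Prod.fst_add]
        linarith
      · simp only [Prod.snd_add]
        linarith
    · unfold Cl jj at *
      simp only [Prod.fst_add, Prod.snd_add] at hCl
      rw [hd1, hd2] at hCl
      have e3 : d.1 + x * B - (d.2 + x * (B - n)) - i = (d.1 - d.2 - i) + n * x := by ring
      rw [e3] at hCl
      exact (Int.dvd_add_left (Dvd.intro x rfl)).1 hCl

/-- the free filtration of an object -/
@[reducible] def Obj.toF {n B : ℤ} (M : Obj n B) : FMod n B where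
  I := M.I
  deg := M.deg
  D := M.D
  hdeg := M.hdeg
  sq := M.sq
  F := fun d v => ∀ e, Fil n B (d - M.pos e) (v e)
  F_zero := fun d e => fil_zero _ _ _
  F_add := fun d v w hv hw e => fil_add (hv e) (hw e)
  F_smul := fun d δ a v ha hv e => by
    have := fil_mul ha (hv e)
    have e1 : δ + (d - M.pos e) = d + δ - M.pos e := by abel
    rw [e1] at this
    exact this
  F_D := cj11_toF_F_D M

/-- the filtration of the submodule `m_i M` -/
@[reducible] def Obj.mF {n B : ℤ} (i : ℤ) (M : Obj n B) : FMod n B where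
  I := M.I
  deg := M.deg
  D := M.D
  hdeg := M.hdeg
  sq := M.sq
  F := fun d v => (∀ e, Fil n B (d - M.pos e) (v e)) ∧
    (Cl n i d → ∀ e k, (v e).coeff k ≠ 0 → M.pos e + (k * B, k * (B - n)) ≠ d)
  F_zero := fun d => ⟨fun e => fil_zero _ _ _, fun _ e k hk => by simp at hk⟩
  F_add := cj11_mF_F_add i M
  F_smul := cj11_mF_F_smul i M
  F_D := cj11_mF_F_D i M

/-! Part 2: the theorems after the definitions. -/

theorem F_map {n B : ℤ} {M M' : Obj n B} {l : ℤ} {φ : Matrix M.I M'.I A}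
    (hφ : ∀ g e, Fil n B (M.pos g - M'.pos e + (l, l)) (φ g e)) (d : ℤ × ℤ) (v : M.I → A)
    (hv : M.toF.F d v) : M'.toF.F (d + (l, l)) (v ᵥ* φ) := by
  intro e
  exact cj11_F_map (pos := M.pos) (pos' := M'.pos) hφ d v hv e

theorem mF_map {n B : ℤ} (i : ℤ) {M M' : Obj n B} {l : ℤ} {φ : Matrix M.I M'.I A}
    (hφ : ∀ g e, Fil n B (M.pos g - M'.pos e + (l, l)) (φ g e)) (d : ℤ × ℤ) (v : M.I → A)
    (hv : (M.mF i).F d v) : (M'.mF i).F (d + (l, l)) (v ᵥ* φ) := by
  refine ⟨fun e => cj11_F_map (pos := M.pos) (pos' := M'.pos) hφ d v hv.1 e, ?_⟩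
  exact cj11_mF_map (i := i) (pos := M.pos) (pos' := M'.pos) hφ d v hv.1 hv.2

theorem F_sub_mF {n B : ℤ} (i : ℤ) (M : Obj n B) {l : ℤ} (hl : 1 ≤ l) (d : ℤ × ℤ) (v : M.I → A)
    (hv : M.toF.F d v) : (M.mF i).F (d + (l, l)) v := by
  constructor
  · intro e
    apply fil_mono _ (hv e)
    constructor
    · simp only [Prod.fst_add, Prod.fst_sub]
      linarith
    · simp only [Prod.snd_add, Prod.snd_sub]
      linarith
  · intro _ e k hk heq
    have h1 := (hv e k hk).1
    have h3 := congrArg Prod.fst heq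
    simp only [Prod.fst_add, Prod.fst_sub] at h1 h3
    linarith

theorem cj12_jj_add (n B : ℤ) (p : ℤ × ℤ) (k : ℤ) :
    jj (p + (k * B, k * (B - n))) = jj p + k * n := by
  simp only [jj, Prod.fst_add, Prod.snd_add]
  ring

theorem cj12_cl_iff (n B i : ℤ) (p d : ℤ × ℤ) (k : ℤ) (h : p + (k * B, k * (B - n)) = d) :
    Cl n i p ↔ Cl n i d := by
  subst h
  unfold Cl
  rw [cj12_jj_add]
  have : jj p + k * n - i = (jj p - i) + k * n := by ring
  rw [this]
  exact (dvd_add_left (Dvd.intro_left k rfl)).symm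

theorem cj12_part_add (P : ℤ → Prop) (a : A) : part P a + part (fun k => ¬ P k) a = a := by
  ext k
  rw [AddMonoidAlgebra.coeff_add, Finsupp.add_apply, coeff_part, coeff_part]
  by_cases h : P k
  · simp [h]
  · simp [h]

theorem cj12_vecMul_pPi {n B : ℤ} (i : ℤ) (M : Obj n B) (v : PI i M → A) (h : M.I) :
    (v ᵥ* pPi i M) h = v (Sum.inl h) + if c : Cl n i (M.pos h) then v (Sum.inr (Sum.inl ⟨h, c⟩))
      else 0 := by
  unfold pPi
  rw [Matrix.vecMul_fromRows, Matrix.vecMul_fromRows, Matrix.vecMul_one, Matrix.vecMul_zero,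
    add_zero, Pi.add_apply]
  congr 1
  rw [Matrix.vecMul, dotProduct]
  by_cases c : Cl n i (M.pos h)
  · rw [dif_pos c]
    rw [Finset.sum_eq_single (⟨h, c⟩ : CI i M)]
    · simp [mP]
    · intro b _ hb
      have : ¬ (b.1 = h) := fun hbh => hb (Subtype.ext hbh)
      simp [mP, this]
    · intro hn
      exact absurd (Finset.mem_univ _) hn
  · rw [dif_neg c]
    apply Finset.sum_eq_zero
    intro b _
    have : ¬ (b.1 = h) := fun hbh => c (hbh ▸ b.2)
    simp [mP, this]

/-- the U-part goes to zero -/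
def cj12_U {n B : ℤ} (i : ℤ) (M : Obj n B) (a : CI i M → A) : PI i M → A :=
  Sum.elim 0 (Sum.elim 0 a)

theorem cj12_U_pPi {n B : ℤ} (i : ℤ) (M : Obj n B) (a : CI i M → A) :
    cj12_U i M a ᵥ* pPi i M = 0 := by
  funext h
  rw [cj12_vecMul_pPi]
  simp [cj12_U]

theorem cj12_U_pD {n B : ℤ} (i : ℤ) (M : Obj n B) (a : CI i M → A) :
    cj12_U i M a ᵥ* pD i M = Sum.elim (a ᵥ* mP i M) (Sum.elim a (a ᵥ* mB i M)) := by
  unfold cj12_U pD
  rw [Matrix.vecMul_fromBlocks]
  simp only [Sum.elim_comp_inl, Sum.elim_comp_inr, Matrix.zero_vecMul, zero_add,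
    Matrix.vecMul_fromRows, Matrix.vecMul_fromBlocks, Matrix.vecMul_one]

theorem cj12_neg (a b : A) (h : a + b = 0) : a = b := by
  have h1 : a + b + b = b := by rw [h, zero_add]
  rwa [add_assoc, A_add_self, add_zero] at h1

/-- kernel cycles are boundaries of the U-part -/
theorem cj12_kernel {n B : ℤ} (i : ℤ) (M : Obj n B) (y : PI i M → A)
    (hc : y ᵥ* pD i M = 0) (hk : y ᵥ* pPi i M = 0) :
    y = cj12_U i M (fun e => y (Sum.inr (Sum.inl e))) ᵥ* pD i M ∧
    ∀ e : CI i M, y (Sum.inl e.1) = y (Sum.inr (Sum.inl e)) := by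
  have hV : ∀ h : M.I, y (Sum.inl h) = if c : Cl n i (M.pos h) then
      y (Sum.inr (Sum.inl ⟨h, c⟩)) else 0 := by
    intro h
    have h1 := congrFun hk h
    rw [cj12_vecMul_pPi, Pi.zero_apply] at h1
    exact cj12_neg _ _ h1
  have hVC : ∀ e : CI i M, y (Sum.inl e.1) = y (Sum.inr (Sum.inl e)) := by
    intro e
    rw [hV e.1, dif_pos e.2]
  refine ⟨?_, hVC⟩
  set a : CI i M → A := fun e => y (Sum.inr (Sum.inl e)) with ha
  -- V part as a vector
  have hVP : y ∘ Sum.inl = a ᵥ* mP i M := by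
    funext h
    rw [Function.comp_apply, hV h, Matrix.vecMul, dotProduct]
    by_cases c : Cl n i (M.pos h)
    · rw [dif_pos c]
      rw [Finset.sum_eq_single (⟨h, c⟩ : CI i M)]
      · simp [mP, ha]
      · intro b _ hb
        have : ¬ (b.1 = h) := fun hbh => hb (Subtype.ext hbh)
        simp [mP, this]
      · intro hn
        exact absurd (Finset.mem_univ _) hn
    · rw [dif_neg c]
      symm
      apply Finset.sum_eq_zero
      intro b _
      have : ¬ (b.1 = h) := fun hbh => c (hbh ▸ b.2)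
      simp [mP, this]
  have hT : (y ∘ Sum.inr) ∘ Sum.inl = a := rfl
  -- T component of the cycle condition
  have h2 : (y ∘ Sum.inl) ᵥ* mA i M + (((y ∘ Sum.inr) ∘ Sum.inl) ᵥ* pTT i M
      + ((y ∘ Sum.inr) ∘ Sum.inr)) = 0 := by
    have h3 := hc
    unfold pD at h3
    rw [Matrix.vecMul_fromBlocks] at h3
    funext e
    have h4 := congrFun h3 (Sum.inr (Sum.inl e))
    rw [Sum.elim_inr, Matrix.vecMul_fromBlocks, Matrix.vecMul_fromCols, Pi.add_apply, Sum.elim_inl,
      Sum.elim_inl, Matrix.vecMul_one] at h4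
    exact h4
  have hU : (y ∘ Sum.inr) ∘ Sum.inr = a ᵥ* mB i M := by
    rw [hVP, hT] at h2
    unfold pTT at h2
    rw [Matrix.vecMul_add, Matrix.vecMul_vecMul] at h2
    funext e
    have h4 := congrFun h2 e
    simp only [Pi.add_apply, Pi.zero_apply] at h4
    have h5 : (a ᵥ* mB i M) e + ((y ∘ Sum.inr) ∘ Sum.inr) e = 0 := by
      rw [add_assoc, ← add_assoc, A_add_self, zero_add] at h4
      exact h4
    exact (cj12_neg _ _ h5).symm
  rw [cj12_U_pD]
  funext e
  rcases e with e | e | e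
  · exact congrFun hVP e
  · rfl
  · exact congrFun hU e

theorem cj12_kernel_lift {n B : ℤ} (i : ℤ) (M : Obj n B) (d : ℤ × ℤ) (k : ℤ) (y : PI i M → A)
    (hF : (phi i M).toF.F d y) (hd : HomDeg (phi i M).deg (k + 1) y)
    (hc : y ᵥ* pD i M = 0) (hk : y ᵥ* pPi i M = 0) :
    ∃ x : PI i M → A, (phi i M).toF.F d x ∧ HomDeg (phi i M).deg k x ∧ x ᵥ* pD i M = y ∧
      x ᵥ* pPi i M = 0 := by
  obtain ⟨h1, h2⟩ := cj12_kernel i M y hc hk
  refine ⟨cj12_U i M (fun e => y (Sum.inr (Sum.inl e))), ?_, ?_, h1.symm, cj12_U_pPi i M _⟩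
  · intro e
    rcases e with e | e | e
    · exact fil_zero _ _ _
    · exact fil_zero _ _ _
    · intro l hl
      have hl' : (y (Sum.inr (Sum.inl e))).coeff l ≠ 0 := hl
      have hT := hF (Sum.inr (Sum.inl e)) l hl'
      have hV := hF (Sum.inl e.1) l (by rw [h2 e]; exact hl')
      simp only [pPos, if_pos e.2, Prod.fst_sub, Prod.snd_sub, Prod.fst_add, Prod.snd_add] at hT hV ⊢
      constructor
      · linarith [hT.1]
      · linarith [hV.2]
  · intro e he
    rcases e with e | e | e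
    · exact absurd rfl he
    · exact absurd rfl he
    · have he' : y (Sum.inr (Sum.inl e)) ≠ 0 := he
      have := hd (Sum.inr (Sum.inl e)) he'
      simp only [pDeg] at this ⊢
      omega

/-- lift of a vector of `m_i F` -/
theorem cj12_lift {n B : ℤ} (i : ℤ) (M : Obj n B) (d : ℤ × ℤ) (k : ℤ) (x : M.I → A)
    (hF : (M.mF i).F d x) (hd : HomDeg M.deg k x) :
    ∃ x' : PI i M → A, (phi i M).toF.F d x' ∧ HomDeg (phi i M).deg k x' ∧
      x' ᵥ* pPi i M = x := by
  obtain ⟨hF1, hF2⟩ := hF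
  let P : M.I → ℤ → Prop := fun e l => l * (B - n) + (M.pos e).2 + 1 ≤ d.2
  refine ⟨Sum.elim (fun e => if Cl n i (M.pos e) then part (P e) (x e) else x e)
    (Sum.elim (fun e => part (fun l => ¬ P e.1 l) (x e.1)) 0), ?_, ?_, ?_⟩
  · intro e
    rcases e with e | e | e
    · by_cases c : Cl n i (M.pos e)
      · intro l hl
        simp only [Sum.elim_inl, if_pos c] at hl
        rw [coeff_part] at hl
        have hP : P e l := by
          by_contra hP
          rw [if_neg hP] at hl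
          exact hl rfl
        rw [if_pos hP] at hl
        have h1 := hF1 e l hl
        simp only [pPos, if_pos c, Prod.fst_sub, Prod.snd_sub, Prod.fst_add, Prod.snd_add] at h1 ⊢
        have hP' : l * (B - n) + (M.pos e).2 + 1 ≤ d.2 := hP
        constructor
        · linarith [h1.1]
        · linarith
      · have h1 := hF1 e
        simp only [Sum.elim_inl, if_neg c, pPos, add_zero]
        exact h1
    · intro l hl
      have hl1 : (part (fun l => ¬ P e.1 l) (x e.1)).coeff l ≠ 0 := hl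
      rw [coeff_part] at hl1
      have hP : ¬ P e.1 l := by
        by_contra hP
        rw [if_neg (not_not.mpr hP)] at hl1
        exact hl1 rfl
      rw [if_pos hP] at hl1
      have h1 := hF1 e.1 l hl1
      have hP' : ¬ (l * (B - n) + (M.pos e.1).2 + 1 ≤ d.2) := hP
      simp only [pPos, Prod.fst_sub, Prod.snd_sub, Prod.fst_add, Prod.snd_add] at h1 ⊢
      have h2 : l * (B - n) + (M.pos e.1).2 = d.2 := by
        have := h1.2
        omega
      have h3 : l * B + (M.pos e.1).1 ≠ d.1 := by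
        intro h3
        have h4 : M.pos e.1 + (l * B, l * (B - n)) = d := by
          apply Prod.ext
          · simp only [Prod.fst_add]
            linarith
          · simp only [Prod.snd_add]
            linarith
        have h5 : Cl n i d := (cj12_cl_iff n B i (M.pos e.1) d l h4).mp e.2
        exact hF2 h5 e.1 l hl1 h4
      constructor
      · have := h1.1
        have h6 : l * B + (M.pos e.1).1 < d.1 := lt_of_le_of_ne (by linarith) h3
        linarith
      · linarith [h1.2]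
    · exact fil_zero _ _ _
  · intro e he
    rcases e with e | e | e
    · have hx : x e ≠ 0 := by
        intro hx
        apply he
        simp only [Sum.elim_inl, hx]
        by_cases c : Cl n i (M.pos e)
        · rw [if_pos c, part_zero]
        · rw [if_neg c]
      exact hd e hx
    · have hx : x e.1 ≠ 0 := by
        intro hx
        apply he
        simp only [Sum.elim_inr, Sum.elim_inl, hx, part_zero]
      exact hd e.1 hx
    · exact absurd rfl he
  · funext h
    rw [cj12_vecMul_pPi]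
    by_cases c : Cl n i (M.pos h)
    · simp only [Sum.elim_inl, Sum.elim_inr, if_pos c, dif_pos c]
      exact cj12_part_add (P h) (x h)
    · simp only [Sum.elim_inl, if_neg c, dif_neg c, add_zero]

theorem cj12_homdeg_D {n B : ℤ} (M : Obj n B) (k : ℤ) (x : M.I → A) (hd : HomDeg M.deg k x) :
    HomDeg M.deg (k + 1) (x ᵥ* M.D) := by
  intro e he
  rw [Matrix.vecMul, dotProduct] at he
  obtain ⟨g, _, hg⟩ := Finset.exists_ne_zero_of_sum_ne_zero he
  have h1 := hd g (left_ne_zero_of_mul hg)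
  have h2 := M.hdeg g e (right_ne_zero_of_mul hg)
  omega

theorem cj12_homdeg_add {I : Type} {deg : I → ℤ} {k : ℤ} {v w : I → A} (hv : HomDeg deg k v)
    (hw : HomDeg deg k w) : HomDeg deg k (v + w) := by
  intro e he
  by_cases h : v e = 0
  · apply hw e
    intro h2
    apply he
    simp [h, h2]
  · exact hv e h

theorem cj12_vec_add_self {I : Type} (v : I → A) : v + v = 0 := by
  funext e
  exact A_add_self (v e)

/-- (QI) the projection `Φ_i M → m_i M` -/
theorem qi_phi {n B : ℤ} (i : ℤ) (M : Obj n B) : QI (phi i M).toF (M.mF i) (pPi i M) where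
  hF := by
    intro d v hv
    refine ⟨?_, ?_⟩
    · intro h
      rw [cj12_vecMul_pPi]
      apply fil_add
      · refine fil_mono ?_ (hv (Sum.inl h))
        by_cases c : Cl n i (M.pos h)
        · simp only [pPos, if_pos c]
          constructor
          · simp only [Prod.fst_sub, Prod.fst_add]
            linarith
          · simp only [Prod.snd_sub, Prod.snd_add]
            linarith
        · simp only [pPos, if_neg c, add_zero]
          exact _root_.le_refl _
      · by_cases c : Cl n i (M.pos h)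
        · rw [dif_pos c]
          refine fil_mono ?_ (hv (Sum.inr (Sum.inl ⟨h, c⟩)))
          simp only [pPos]
          constructor
          · simp only [Prod.fst_sub, Prod.fst_add]
            linarith
          · simp only [Prod.snd_sub, Prod.snd_add]
            linarith
        · rw [dif_neg c]
          exact fil_zero _ _ _
    · intro hcl h l hl heq
      have hcl' : Cl n i (M.pos h) := (cj12_cl_iff n B i (M.pos h) d l heq).mpr hcl
      rw [cj12_vecMul_pPi, dif_pos hcl', AddMonoidAlgebra.coeff_add, Finsupp.add_apply] at hl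
      subst heq
      by_cases h1 : (v (Sum.inl h)).coeff l = 0
      · rw [h1, zero_add] at hl
        have h2 := hv (Sum.inr (Sum.inl ⟨h, hcl'⟩)) l hl
        simp only [pPos, Prod.fst_sub, Prod.snd_sub, Prod.fst_add, Prod.snd_add] at h2
        linarith [h2.1]
      · have h2 := hv (Sum.inl h) l h1
        simp only [pPos, if_pos hcl', Prod.fst_sub, Prod.snd_sub, Prod.fst_add, Prod.snd_add] at h2
        linarith [h2.2]
  hdeg := by
    intro g e hne
    unfold pPi at hne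
    rcases g with g | g | g
    · rw [Matrix.fromRows_apply_inl, Matrix.one_apply] at hne
      have : g = e := by
        by_contra h
        rw [if_neg h] at hne
        exact hne rfl
      subst this
      rfl
    · rw [Matrix.fromRows_apply_inr, Matrix.fromRows_apply_inl] at hne
      have : g.1 = e := by
        by_contra h
        apply hne
        simp [mP, h]
      subst this
      rfl
    · rw [Matrix.fromRows_apply_inr, Matrix.fromRows_apply_inr] at hne
      exact absurd rfl hne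
  comm := pPi_comm i M
  inj := by
    intro d k y hy hyd hyc x hx hxd hyx
    obtain ⟨x', hx'F, hx'd, hx'⟩ := cj12_lift i M d k x hx hxd
    have hF : (phi i M).toF.F d (y + x' ᵥ* pD i M) :=
      (phi i M).toF.F_add d _ _ hy ((phi i M).toF.F_D d x' hx'F)
    have hd : HomDeg (phi i M).deg (k + 1) (y + x' ᵥ* pD i M) :=
      cj12_homdeg_add hyd (cj12_homdeg_D (phi i M) k x' hx'd)
    have hyc' : y ᵥ* pD i M = 0 := hyc
    have hc : (y + x' ᵥ* pD i M) ᵥ* pD i M = 0 := by
      rw [Matrix.add_vecMul, hyc', Matrix.vecMul_vecMul, pD_sq, Matrix.vecMul_zero, add_zero]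
    have hk : (y + x' ᵥ* pD i M) ᵥ* pPi i M = 0 := by
      rw [Matrix.add_vecMul, Matrix.vecMul_vecMul, pPi_comm, ← Matrix.vecMul_vecMul, hx']
      have hyx' : y ᵥ* pPi i M = x ᵥ* M.D := hyx
      rw [hyx']
      exact cj12_vec_add_self _
    obtain ⟨w, hwF, hwd, hw, _⟩ := cj12_kernel_lift i M d k _ hF hd hc hk
    refine ⟨x' + w, (phi i M).toF.F_add d _ _ hx'F hwF, cj12_homdeg_add hx'd hwd, ?_⟩
    show (x' + w) ᵥ* pD i M = y
    rw [Matrix.add_vecMul, hw, add_comm y, ← add_assoc, cj12_vec_add_self, zero_add]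
  surj := by
    intro d k c hcF hcd hc
    obtain ⟨x', hx'F, hx'd, hx'⟩ := cj12_lift i M d k c hcF hcd
    have hF : (phi i M).toF.F d (x' ᵥ* pD i M) := (phi i M).toF.F_D d x' hx'F
    have hd : HomDeg (phi i M).deg (k + 1) (x' ᵥ* pD i M) := cj12_homdeg_D (phi i M) k x' hx'd
    have hcc : (x' ᵥ* pD i M) ᵥ* pD i M = 0 := by
      rw [Matrix.vecMul_vecMul, pD_sq, Matrix.vecMul_zero]
    have hk : (x' ᵥ* pD i M) ᵥ* pPi i M = 0 := by
      rw [Matrix.vecMul_vecMul, pPi_comm, ← Matrix.vecMul_vecMul, hx']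
      exact hc
    obtain ⟨w, hwF, hwd, hw, hw0⟩ := cj12_kernel_lift i M d k _ hF hd hcc hk
    refine ⟨x' + w, (phi i M).toF.F_add d _ _ hx'F hwF, cj12_homdeg_add hx'd hwd, ?_, 0,
      (M.mF i).F_zero d, fun e he => absurd rfl he, ?_⟩
    · show (x' + w) ᵥ* pD i M = 0
      rw [Matrix.add_vecMul, hw, cj12_vec_add_self]
    · show c = (x' + w) ᵥ* pPi i M + 0 ᵥ* M.D
      rw [Matrix.add_vecMul, hx', hw0, add_zero, Matrix.zero_vecMul, add_zero]

/-- the inclusion `M → Φ_i^- M` (transpose of the projection for the dual) -/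
def pIota {n B : ℤ} (i : ℤ) (M : Obj n B) : Matrix M.I (PI (-i) M.dual) A :=
  (pPi (-i) M.dual)ᵀ

/-- action of the differential of `Φ_i M` on a column vector -/
theorem cj13_pD_mulVec {n B : ℤ} (i : ℤ) (M : Obj n B) (v1 : M.I → A) (v2 v3 : CI i M → A) :
    pD i M *ᵥ (Sum.elim v1 (Sum.elim v2 v3)) =
      Sum.elim (M.D *ᵥ v1 + mA i M *ᵥ (mP i M *ᵥ v1 + v2) + mC i M *ᵥ v3)
       (Sum.elim (mP i M *ᵥ (M.D *ᵥ v1) +
          (mP i M * mA i M + mB i M) *ᵥ (mP i M *ᵥ v1 + v2) +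
          (mP i M * mC i M + mB i M * mB i M) *ᵥ v3)
         (mP i M *ᵥ v1 + v2 + mB i M *ᵥ v3)) := by
  unfold pD pVV pTV pTT pTU
  rw [Matrix.fromBlocks_mulVec]
  simp only [Sum.elim_comp_inl, Sum.elim_comp_inr]
  rw [Matrix.fromCols_mulVec, Matrix.fromRows_mulVec, Matrix.fromBlocks_mulVec]
  simp only [Sum.elim_comp_inl, Sum.elim_comp_inr]
  funext e
  rcases e with e | e | e
  · simp only [Sum.elim_inl, Pi.add_apply, Matrix.add_mulVec, Matrix.mulVec_add,
      Matrix.mulVec_mulVec]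
    ring
  · simp only [Sum.elim_inl, Sum.elim_inr, Pi.add_apply, Matrix.add_mulVec, Matrix.mulVec_add,
      Matrix.mulVec_mulVec, Matrix.add_mul, Matrix.mul_assoc]
    ring
  · simp only [Sum.elim_inr, Pi.add_apply, Matrix.add_mulVec, Matrix.mulVec_add,
      Matrix.mulVec_mulVec, Matrix.one_mulVec]
    ring

theorem cj13_add_self {ι : Type*} (v : ι → A) : v + v = 0 := by
  funext e
  exact A_add_self (v e)

/-- extension by zero -/
def cj13E {n B : ℤ} (i : ℤ) (M : Obj n B) (c : CI i M → A) : M.I → A :=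
  fun e => if h : Cl n i (M.pos e) then c ⟨e, h⟩ else 0

theorem cj13_P_apply {n B : ℤ} (i : ℤ) (M : Obj n B) (v : M.I → A) (e : CI i M) :
    (mP i M *ᵥ v) e = v e.1 := by
  unfold mP Matrix.mulVec dotProduct
  simp only [Matrix.of_apply, ite_mul, one_mul, zero_mul]
  rw [Finset.sum_eq_single e.1]
  · rw [if_pos rfl]
  · intro b _ hb
    rw [if_neg (fun h => hb h.symm)]
  · intro h
    exact absurd (Finset.mem_univ _) h

theorem cj13_P_E {n B : ℤ} (i : ℤ) (M : Obj n B) (c : CI i M → A) :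
    mP i M *ᵥ (cj13E i M c) = c := by
  funext e
  rw [cj13_P_apply]
  unfold cj13E
  rw [dif_pos e.2]

theorem cj13_pPi_mulVec {n B : ℤ} (i : ℤ) (M : Obj n B) (w : M.I → A) :
    pPi i M *ᵥ w = Sum.elim w (Sum.elim (mP i M *ᵥ w) 0) := by
  unfold pPi
  rw [Matrix.fromRows_mulVec, Matrix.fromRows_mulVec, Matrix.one_mulVec, Matrix.zero_mulVec]

/-- the algebraic decomposition -/
theorem cj13_decomp {n B : ℤ} (i : ℤ) (M : Obj n B) (q : PI i M → A) (c1 c2 : CI i M → A)
    (hc : ∀ e, q (Sum.inr (Sum.inr e)) = c1 e + c2 e)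
    (hu : ∀ e, (pD i M *ᵥ q) (Sum.inr (Sum.inr e)) = 0) :
    ∃ w : M.I → A, q + pD i M *ᵥ (Sum.elim (cj13E i M c2) (Sum.elim c1 0)) = pPi i M *ᵥ w := by
  obtain ⟨v1, v2, v3, rfl⟩ : ∃ (v1 : M.I → A) (v2 v3 : CI i M → A),
      q = Sum.elim v1 (Sum.elim v2 v3) := by
    refine ⟨fun e => q (Sum.inl e), fun e => q (Sum.inr (Sum.inl e)),
      fun e => q (Sum.inr (Sum.inr e)), ?_⟩
    funext e
    rcases e with e | e | e <;> rfl
  have hc' : v3 = c1 + c2 := by
    funext e
    exact hc e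
  have hu' : mP i M *ᵥ v1 + v2 + mB i M *ᵥ v3 = 0 := by
    funext e
    have := hu e
    rw [cj13_pD_mulVec] at this
    exact this
  have hu2 : v2 + mB i M *ᵥ v3 = mP i M *ᵥ v1 := by
    have h1 : v2 + mB i M *ᵥ v3 = mP i M *ᵥ v1 + (mP i M *ᵥ v1 + v2 + mB i M *ᵥ v3) := by
      have h2 := cj13_add_self (mP i M *ᵥ v1)
      calc v2 + mB i M *ᵥ v3 = (mP i M *ᵥ v1 + mP i M *ᵥ v1) + (v2 + mB i M *ᵥ v3) := by
            rw [h2, zero_add]
        _ = _ := by abel
    rw [h1, hu', add_zero]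
  refine ⟨v1 + M.D *ᵥ (cj13E i M c2) + mA i M *ᵥ v3, ?_⟩
  rw [cj13_pD_mulVec, cj13_P_E, cj13_pPi_mulVec, Matrix.mulVec_zero, Matrix.mulVec_zero,
    Matrix.mulVec_zero, add_zero, add_zero, add_zero, add_comm c2 c1, ← hc']
  funext e
  rcases e with e | e | e
  · simp only [Pi.add_apply, Sum.elim_inl]
    ring
  · have h3 := congrFun hu2 e
    simp only [Pi.add_apply] at h3
    simp only [Pi.add_apply, Sum.elim_inl, Sum.elim_inr, Matrix.add_mulVec, Matrix.mulVec_add,
      Matrix.mulVec_mulVec]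
    rw [← h3]
    ring
  · simp only [Pi.add_apply, Sum.elim_inr, Pi.zero_apply]
    exact A_add_self _

/-- class conditions on the two sides -/
theorem cj13_cl {n B : ℤ} (i : ℤ) (M : Obj n B) (e : M.I) :
    Cl n (-i) (M.dual.pos e) ↔ Cl n i (M.pos e) := by
  unfold Cl jj
  have e1 : (M.dual.pos e).1 = - (M.pos e).1 := rfl
  have e2 : (M.dual.pos e).2 = - (M.pos e).2 := rfl
  rw [e1, e2]
  have e3 : -(M.pos e).1 - -(M.pos e).2 - -i = -((M.pos e).1 - (M.pos e).2 - i) := by ring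
  rw [e3, dvd_neg]

theorem cj13_vecMul_D {n B : ℤ} (i : ℤ) (M : Obj n B) (q : PI (-i) M.dual → A) :
    q ᵥ* (phi (-i) M.dual).dual.D = pD (-i) M.dual *ᵥ q :=
  Matrix.vecMul_transpose _ _

theorem cj13_vecMul_iota {n B : ℤ} (i : ℤ) (M : Obj n B) (w : M.I → A) :
    w ᵥ* pIota i M = pPi (-i) M.dual *ᵥ w :=
  Matrix.vecMul_transpose _ _

theorem cj13_comm {n B : ℤ} (i : ℤ) (M : Obj n B) :
    M.D * pIota i M = pIota i M * (phi (-i) M.dual).dual.D := by
  have h := congrArg Matrix.transpose (pPi_comm (-i) M.dual)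
  rw [Matrix.transpose_mul, Matrix.transpose_mul] at h
  exact h.symm

theorem cj13_pos_inl {n B : ℤ} (i : ℤ) (M : Obj n B) (e : M.I) (h : Cl n i (M.pos e)) :
    (phi (-i) M.dual).dual.pos (Sum.inl e) = M.pos e - (0, 1) := by
  show - (- M.pos e + (if Cl n (-i) (M.dual.pos e) then (0, 1) else 0)) = _
  rw [if_pos ((cj13_cl i M e).2 h)]
  abel

theorem cj13_pos_inl' {n B : ℤ} (i : ℤ) (M : Obj n B) (e : M.I) (h : ¬ Cl n i (M.pos e)) :
    (phi (-i) M.dual).dual.pos (Sum.inl e) = M.pos e := by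
  show - (- M.pos e + (if Cl n (-i) (M.dual.pos e) then (0, 1) else 0)) = _
  rw [if_neg (fun h' => h ((cj13_cl i M e).1 h'))]
  abel

theorem cj13_pos_t {n B : ℤ} (i : ℤ) (M : Obj n B) (e : CI (-i) M.dual) :
    (phi (-i) M.dual).dual.pos (Sum.inr (Sum.inl e)) = M.pos e.1 - (1, 0) := by
  show - (- M.pos e.1 + (1, 0)) = _
  abel

theorem cj13_pos_u {n B : ℤ} (i : ℤ) (M : Obj n B) (e : CI (-i) M.dual) :
    (phi (-i) M.dual).dual.pos (Sum.inr (Sum.inr e)) = M.pos e.1 - (1, 1) := by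
  show - (- M.pos e.1 + (1, 1)) = _
  abel

/-- the main claim -/
theorem cj13_claim {n B : ℤ} (h2 : 2 ≤ n) (i : ℤ) (M : Obj n B) (d : ℤ × ℤ) (k : ℤ)
    (q : PI (-i) M.dual → A) (hq : ((phi (-i) M.dual).dual.mF i).F d q)
    (hk : HomDeg (phi (-i) M.dual).dual.deg k q)
    (hu : ∀ e, (q ᵥ* (phi (-i) M.dual).dual.D) (Sum.inr (Sum.inr e)) = 0) :
    ∃ w : M.I → A, M.toF.F d w ∧ HomDeg M.deg k w ∧
      ∃ b : PI (-i) M.dual → A, ((phi (-i) M.dual).dual.mF i).F d b ∧
        HomDeg (phi (-i) M.dual).dual.deg (k - 1) b ∧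
        q = w ᵥ* pIota i M + b ᵥ* (phi (-i) M.dual).dual.D := by
  obtain ⟨hqF, hqm⟩ := hq
  set Q := (phi (-i) M.dual).dual with hQ
  let P1 : CI (-i) M.dual → ℤ → Prop := fun e k => k * (B - n) ≤ d.2 - (M.pos e.1).2
  let c1 : CI (-i) M.dual → A := fun e => part (P1 e) (q (Sum.inr (Sum.inr e)))
  let c2 : CI (-i) M.dual → A := fun e => part (fun k => ¬ P1 e k) (q (Sum.inr (Sum.inr e)))
  have hc : ∀ e, q (Sum.inr (Sum.inr e)) = c1 e + c2 e := by
    intro e
    ext k
    rw [AddMonoidAlgebra.coeff_add, Finsupp.add_apply, coeff_part, coeff_part]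
    by_cases h : P1 e k
    · rw [if_pos h, if_neg (not_not.2 h), add_zero]
    · rw [if_neg h, if_pos h, zero_add]
  have hu' : ∀ e, (pD (-i) M.dual *ᵥ q) (Sum.inr (Sum.inr e)) = 0 := by
    intro e
    rw [← cj13_vecMul_D]
    exact hu e
  obtain ⟨w, hw⟩ : ∃ w : M.I → A, q + pD (-i) M.dual *ᵥ
      (Sum.elim (cj13E (-i) M.dual c2) (Sum.elim c1 0)) = pPi (-i) M.dual *ᵥ w :=
    cj13_decomp (-i) M.dual q c1 c2 hc hu'
  set b : PI (-i) M.dual → A := Sum.elim (cj13E (-i) M.dual c2) (Sum.elim c1 0) with hb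
  -- coefficients of `c` are bounded
  have hcF : ∀ (e : CI (-i) M.dual) (k : ℤ), (q (Sum.inr (Sum.inr e))).coeff k ≠ 0 →
      k * B ≤ d.1 - (M.pos e.1).1 + 1 ∧ k * (B - n) ≤ d.2 - (M.pos e.1).2 + 1 := by
    intro e k hk
    have h := hqF (Sum.inr (Sum.inr e)) k hk
    rw [cj13_pos_u] at h
    have h1 : k * B ≤ d.1 - ((M.pos e.1).1 - 1) := h.1
    have h3 : k * (B - n) ≤ d.2 - ((M.pos e.1).2 - 1) := h.2
    constructor <;> linarith
  have hc1 : ∀ (e : CI (-i) M.dual) (k : ℤ), (c1 e).coeff k ≠ 0 →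
      k * B ≤ d.1 - (M.pos e.1).1 + 1 ∧ k * (B - n) ≤ d.2 - (M.pos e.1).2 := by
    intro e k hk
    have h := coeff_part (P1 e) (q (Sum.inr (Sum.inr e))) k
    by_cases h3 : P1 e k
    · rw [if_pos h3] at h
      have h4 := hcF e k (by rw [← h]; exact hk)
      exact ⟨h4.1, h3⟩
    · rw [if_neg h3] at h
      exact absurd h hk
  have hc2 : ∀ (e : CI (-i) M.dual) (k : ℤ), (c2 e).coeff k ≠ 0 →
      k * B ≤ d.1 - (M.pos e.1).1 ∧ k * (B - n) ≤ d.2 - (M.pos e.1).2 + 1 := by
    intro e k hk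
    have h := coeff_part (fun k => ¬ P1 e k) (q (Sum.inr (Sum.inr e))) k
    by_cases h3 : P1 e k
    · rw [if_neg (not_not.2 h3)] at h
      exact absurd h hk
    · rw [if_pos h3] at h
      have hk' : (q (Sum.inr (Sum.inr e))).coeff k ≠ 0 := by rw [← h]; exact hk
      have h4 := hcF e k hk'
      refine ⟨?_, h4.2⟩
      by_contra h5
      have h6 : k * B = d.1 - (M.pos e.1).1 + 1 := by
        have := h4.1
        omega
      have h7 : k * (B - n) = d.2 - (M.pos e.1).2 + 1 := by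
        have h8 := h4.2
        have h9 : ¬ k * (B - n) ≤ d.2 - (M.pos e.1).2 := h3
        omega
      have hcl : Cl n i (M.pos e.1) := (cj13_cl i M e.1).1 e.2
      have hd : Cl n i d := by
        unfold Cl jj at hcl ⊢
        have h8 : d.1 - d.2 - i = ((M.pos e.1).1 - (M.pos e.1).2 - i) + n * k := by
          have : k * (B - n) = k * B - n * k := by ring
          linarith
        rw [h8]
        exact dvd_add hcl (dvd_mul_right _ _)
      apply hqm hd (Sum.inr (Sum.inr e)) k hk'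
      rw [cj13_pos_u]
      apply Prod.ext
      · show (M.pos e.1).1 - 1 + k * B = d.1
        linarith
      · show (M.pos e.1).2 - 1 + k * (B - n) = d.2
        linarith
  have hbF : ∀ e, Fil n B (d - Q.pos e) (b e) := by
    intro e
    rcases e with e | e | e
    · show Fil n B (d - Q.pos (Sum.inl e)) (cj13E (-i) M.dual c2 e)
      unfold cj13E
      by_cases h : Cl n (-i) (M.dual.pos e)
      · rw [dif_pos h, cj13_pos_inl i M e ((cj13_cl i M e).1 h)]
        intro k hk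
        have h1 := hc2 ⟨e, h⟩ k hk
        constructor
        · show k * B ≤ d.1 - ((M.pos e).1 - 0)
          linarith [h1.1]
        · show k * (B - n) ≤ d.2 - ((M.pos e).2 - 1)
          linarith [h1.2]
      · rw [dif_neg h]
        exact fil_zero _ _ _
    · show Fil n B (d - Q.pos (Sum.inr (Sum.inl e))) (c1 e)
      rw [cj13_pos_t]
      intro k hk
      have h1 := hc1 e k hk
      constructor
      · show k * B ≤ d.1 - ((M.pos e.1).1 - 1)
        linarith [h1.1]
      · show k * (B - n) ≤ d.2 - ((M.pos e.1).2 - 0)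
        linarith [h1.2]
    · exact fil_zero _ _ _
  have hn1 : ¬ n ∣ 1 := by
    intro h
    have := Int.le_of_dvd one_pos h
    omega
  have hbm : ∀ e k, (b e).coeff k ≠ 0 → Q.pos e + (k * B, k * (B - n)) ≠ d ∨ ¬ Cl n i d := by
    intro e k hk
    rw [or_iff_not_imp_right, not_not]
    intro hd heq
    rcases e with e | e | e
    · have hk' : (cj13E (-i) M.dual c2 e).coeff k ≠ 0 := hk
      unfold cj13E at hk'
      by_cases h : Cl n (-i) (M.dual.pos e)
      · have hcl := (cj13_cl i M e).1 h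
        rw [cj13_pos_inl i M e hcl] at heq
        apply hn1
        have e1 : (M.pos e).1 - 0 + k * B = d.1 := congrArg Prod.fst heq
        have e2 : (M.pos e).2 - 1 + k * (B - n) = d.2 := congrArg Prod.snd heq
        unfold Cl jj at hcl hd
        have h8 : (1 : ℤ) = (d.1 - d.2 - i) - ((M.pos e).1 - (M.pos e).2 - i) - n * k := by
          have : k * (B - n) = k * B - n * k := by ring
          linarith
        rw [h8]
        exact dvd_sub (dvd_sub hd hcl) (dvd_mul_right _ _)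
      · rw [dif_neg h] at hk'
        simp at hk'
    · rw [cj13_pos_t] at heq
      have hcl := (cj13_cl i M e.1).1 e.2
      apply hn1
      have e1 : (M.pos e.1).1 - 1 + k * B = d.1 := congrArg Prod.fst heq
      have e2 : (M.pos e.1).2 - 0 + k * (B - n) = d.2 := congrArg Prod.snd heq
      unfold Cl jj at hcl hd
      have h8 : (1 : ℤ) = -((d.1 - d.2 - i) - ((M.pos e.1).1 - (M.pos e.1).2 - i) - n * k) := by
        have : k * (B - n) = k * B - n * k := by ring
        linarith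
      rw [h8, dvd_neg]
      exact dvd_sub (dvd_sub hd hcl) (dvd_mul_right _ _)
    · have : (b (Sum.inr (Sum.inr e))) = 0 := rfl
      rw [this] at hk
      simp at hk
  have hbk : HomDeg Q.deg (k - 1) b := by
    have key : ∀ e : CI (-i) M.dual, q (Sum.inr (Sum.inr e)) ≠ 0 → M.deg e.1 = k - 1 := by
      intro e he
      have h := hk (Sum.inr (Sum.inr e)) he
      have h' : - (- M.deg e.1 - 1) = k := h
      omega
    intro e he
    rcases e with e | e | e
    · have he' : cj13E (-i) M.dual c2 e ≠ 0 := he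
      unfold cj13E at he'
      show - (- M.deg e) = k - 1
      by_cases h : Cl n (-i) (M.dual.pos e)
      · rw [dif_pos h] at he'
        have h9 : M.deg e = k - 1 := key ⟨e, h⟩ (part_ne_zero he')
        omega
      · rw [dif_neg h] at he'
        exact absurd rfl he'
    · have he' : c1 e ≠ 0 := he
      show - (- M.deg e.1) = k - 1
      have := key e (part_ne_zero he')
      omega
    · exact absurd rfl he
  have hw' : w ᵥ* pIota i M = q + b ᵥ* Q.D := by
    rw [cj13_vecMul_iota, cj13_vecMul_D]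
    exact hw.symm
  have hwF : Q.toF.F d (w ᵥ* pIota i M) := by
    rw [hw']
    exact Q.toF.F_add d _ _ hqF (Q.toF.F_D d _ hbF)
  have hw1 : ∀ e, (w ᵥ* pIota i M) (Sum.inl e) = w e := by
    intro e
    rw [cj13_vecMul_iota, cj13_pPi_mulVec]
    rfl
  have hw2 : ∀ e, (w ᵥ* pIota i M) (Sum.inr (Sum.inl e)) = w e.1 := by
    intro e
    rw [cj13_vecMul_iota, cj13_pPi_mulVec]
    show (mP (-i) M.dual *ᵥ w) e = w e.1
    rw [cj13_P_apply]
  refine ⟨w, ?_, ?_, b, ⟨hbF, fun hd e k hk => ?_⟩, hbk, ?_⟩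
  · intro e
    by_cases h : Cl n i (M.pos e)
    · have h1 := hwF (Sum.inl e)
      have h3 := hwF (Sum.inr (Sum.inl ⟨e, (cj13_cl i M e).2 h⟩))
      rw [hw1, cj13_pos_inl i M e h] at h1
      rw [hw2, cj13_pos_t] at h3
      intro k hk
      have h4 := (h1 k hk).1
      have h5 := (h3 k hk).2
      constructor
      · have h6 : k * B ≤ d.1 - ((M.pos e).1 - 0) := h4
        show k * B ≤ d.1 - (M.pos e).1
        linarith
      · have h6 : k * (B - n) ≤ d.2 - ((M.pos e).2 - 0) := h5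
        show k * (B - n) ≤ d.2 - (M.pos e).2
        linarith
    · have h1 := hwF (Sum.inl e)
      rw [hw1, cj13_pos_inl' i M e h] at h1
      exact h1
  · intro e he
    have h1 : (q + b ᵥ* Q.D) (Sum.inl e) ≠ 0 := by
      rw [← hw', hw1]
      exact he
    have h3 : q (Sum.inl e) ≠ 0 ∨ (b ᵥ* Q.D) (Sum.inl e) ≠ 0 := by
      by_contra h4
      push Not at h4
      apply h1
      rw [Pi.add_apply, h4.1, h4.2, add_zero]
    have hdd : ∀ g, Q.deg g = k → g = Sum.inl e → M.deg e = k := by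
      rintro g hg rfl
      have : - (- M.deg e) = k := hg
      omega
    rcases h3 with h3 | h3
    · exact hdd _ (hk _ h3) rfl
    · obtain ⟨g, hg⟩ : ∃ g, b g * Q.D g (Sum.inl e) ≠ 0 := by
        by_contra h4
        push Not at h4
        apply h3
        unfold Matrix.vecMul dotProduct
        exact Finset.sum_eq_zero fun g _ => h4 g
      have h5 := hbk g (left_ne_zero_of_mul hg)
      have h6 := Q.hdeg g (Sum.inl e) (right_ne_zero_of_mul hg)
      exact hdd (Sum.inl e) (by omega) rfl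
  · rcases hbm e k hk with h | h
    · exact h
    · exact absurd hd h
  · rw [hw', add_assoc, cj13_add_self, add_zero]

theorem cj13_iota_inj {n B : ℤ} (i : ℤ) (M : Obj n B) {v w : M.I → A}
    (h : v ᵥ* pIota i M = w ᵥ* pIota i M) : v = w := by
  rw [cj13_vecMul_iota, cj13_vecMul_iota, cj13_pPi_mulVec, cj13_pPi_mulVec] at h
  funext e
  exact congrFun h (Sum.inl e)

theorem cj13_iota_u {n B : ℤ} (i : ℤ) (M : Obj n B) (v : M.I → A) (e : CI (-i) M.dual) :
    (v ᵥ* pIota i M) (Sum.inr (Sum.inr e)) = 0 := by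
  rw [cj13_vecMul_iota, cj13_pPi_mulVec]
  rfl

/-- (QI') the inclusion `M → m_i Φ_i^- M` -/
theorem qi_psi {n B : ℤ} (h2 : 2 ≤ n) (i : ℤ) (M : Obj n B) :
    QI M.toF ((phi (-i) M.dual).dual.mF i) (pIota i M) := by
  have hsq : (phi (-i) M.dual).dual.D * (phi (-i) M.dual).dual.D = 0 :=
    (phi (-i) M.dual).dual.sq
  constructor
  · intro d v hv
    rw [cj13_vecMul_iota, cj13_pPi_mulVec]
    constructor
    · intro e
      rcases e with e | e | e
      · show Fil n B (d - (phi (-i) M.dual).dual.pos (Sum.inl e)) (v e)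
        by_cases h : Cl n i (M.pos e)
        · rw [cj13_pos_inl i M e h]
          refine fil_mono ?_ (hv e)
          constructor
          · show d.1 - (M.pos e).1 ≤ d.1 - ((M.pos e).1 - 0)
            linarith
          · show d.2 - (M.pos e).2 ≤ d.2 - ((M.pos e).2 - 1)
            linarith
        · rw [cj13_pos_inl' i M e h]
          exact hv e
      · show Fil n B (d - (phi (-i) M.dual).dual.pos (Sum.inr (Sum.inl e)))
          ((mP (-i) M.dual *ᵥ v) e)
        rw [cj13_pos_t, cj13_P_apply]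
        refine fil_mono ?_ (hv e.1)
        constructor
        · show d.1 - (M.pos e.1).1 ≤ d.1 - ((M.pos e.1).1 - 1)
          linarith
        · show d.2 - (M.pos e.1).2 ≤ d.2 - ((M.pos e.1).2 - 0)
          linarith
      · exact fil_zero _ _ _
    · intro hd e k hk heq
      rcases e with e | e | e
      · have hk' : (v e).coeff k ≠ 0 := hk
        have h1 := hv e k hk'
        have h3 : k * B ≤ d.1 - (M.pos e).1 := h1.1
        have h4 : k * (B - n) ≤ d.2 - (M.pos e).2 := h1.2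
        by_cases h : Cl n i (M.pos e)
        · rw [cj13_pos_inl i M e h] at heq
          have e2 : (M.pos e).2 - 1 + k * (B - n) = d.2 := congrArg Prod.snd heq
          linarith
        · rw [cj13_pos_inl' i M e h] at heq
          apply h
          have e1 : (M.pos e).1 + k * B = d.1 := congrArg Prod.fst heq
          have e2 : (M.pos e).2 + k * (B - n) = d.2 := congrArg Prod.snd heq
          unfold Cl jj at hd ⊢
          have h8 : (M.pos e).1 - (M.pos e).2 - i = (d.1 - d.2 - i) - n * k := by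
            have : k * (B - n) = k * B - n * k := by ring
            linarith
          rw [h8]
          exact dvd_sub hd (dvd_mul_right _ _)
      · have hk' : ((mP (-i) M.dual *ᵥ v) e).coeff k ≠ 0 := hk
        rw [cj13_P_apply] at hk'
        have h1 := hv e.1 k hk'
        have h3 : k * B ≤ d.1 - (M.pos e.1).1 := h1.1
        rw [cj13_pos_t] at heq
        have e1 : (M.pos e.1).1 - 1 + k * B = d.1 := congrArg Prod.fst heq
        linarith
      · have hk' : ((0 : CI (-i) M.dual → A) e).coeff k ≠ 0 := hk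
        simp at hk'
  · intro g e he
    have he' : pPi (-i) M.dual e g ≠ 0 := he
    rcases e with e | e | e
    · have h1 : (1 : Matrix M.I M.I A) e g ≠ 0 := he'
      have h3 : e = g := by
        by_contra h4
        exact h1 (Matrix.one_apply_ne h4)
      subst h3
      show - (- M.deg e) = M.deg e
      omega
    · have h1 : mP (-i) M.dual e g ≠ 0 := he'
      have h3 : e.1 = g := by
        by_contra h4
        apply h1
        unfold mP
        rw [Matrix.of_apply, if_neg h4]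
      subst h3
      show - (- M.deg e.1) = M.deg e.1
      omega
    · exact absurd rfl he'
  · exact cj13_comm i M
  · intro d k y hy hyk hyc x hx hxk hxy
    have hu : ∀ e, (x ᵥ* (phi (-i) M.dual).dual.D) (Sum.inr (Sum.inr e)) = 0 := by
      intro e
      have h1 : x ᵥ* (phi (-i) M.dual).dual.D = y ᵥ* pIota i M := hxy.symm
      rw [h1]
      exact cj13_iota_u i M y e
    obtain ⟨w, hw, hwk, b, hb, hbk, hxe⟩ := cj13_claim h2 i M d k x hx hxk hu
    refine ⟨w, hw, hwk, ?_⟩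
    apply cj13_iota_inj i M
    have h1 : y ᵥ* pIota i M = x ᵥ* (phi (-i) M.dual).dual.D := hxy
    have hz : (b ᵥ* (phi (-i) M.dual).dual.D) ᵥ* (phi (-i) M.dual).dual.D = 0 := by
      rw [Matrix.vecMul_vecMul, hsq, Matrix.vecMul_zero]
    have hv : (w ᵥ* M.D) ᵥ* pIota i M =
        (w ᵥ* pIota i M) ᵥ* (phi (-i) M.dual).dual.D := by
      rw [Matrix.vecMul_vecMul, Matrix.vecMul_vecMul, cj13_comm]
    show (w ᵥ* M.D) ᵥ* pIota i M = y ᵥ* pIota i M
    rw [h1, hxe, Matrix.add_vecMul, hz, add_zero, hv]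
  · intro d k c hc hck hcc
    have hcc' : c ᵥ* (phi (-i) M.dual).dual.D = 0 := hcc
    have hu : ∀ e, (c ᵥ* (phi (-i) M.dual).dual.D) (Sum.inr (Sum.inr e)) = 0 := by
      intro e
      rw [hcc']
      rfl
    obtain ⟨w, hw, hwk, b, hb, hbk, hxe⟩ := cj13_claim h2 i M d k c hc hck hu
    refine ⟨w, hw, hwk, ?_, b, hb, hbk, hxe⟩
    apply cj13_iota_inj i M
    have h1 : w ᵥ* pIota i M = c + b ᵥ* (phi (-i) M.dual).dual.D := by
      rw [hxe, add_assoc, cj13_add_self, add_zero]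
    rw [Matrix.zero_vecMul]
    show (w ᵥ* M.D) ᵥ* pIota i M = 0
    rw [Matrix.vecMul_vecMul, cj13_comm, ← Matrix.vecMul_vecMul, h1, Matrix.add_vecMul,
      Matrix.vecMul_vecMul, hsq, Matrix.vecMul_zero, add_zero]
    exact hcc'

theorem cj14_eq_of_add {α β : Type*} {X Y : Matrix α β A} (h : X + Y = 0) : X = Y := by
  have h1 : X + Y + Y = Y := by rw [h, zero_add]
  rw [add_assoc, mat_add_self, add_zero] at h1
  exact h1

theorem cj14_single_F {n B : ℤ} (M : Obj n B) (g : M.I) :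
    M.toF.F (M.pos g) (Pi.single g 1) := by
  intro e
  by_cases h : e = g
  · subst h
    rw [Pi.single_eq_same]
    apply fil_one
    rw [sub_self]
  · rw [Pi.single_eq_of_ne h]
    exact fil_zero _ _ _

theorem cj14_one_row {n B : ℤ} (M : Obj n B) (g : M.I) :
    M.toF.F (M.pos g) ((1 : Matrix M.I M.I A) g) := by
  intro e
  by_cases h : e = g
  · subst h
    rw [Matrix.one_apply_eq]
    apply fil_one
    rw [sub_self]
  · rw [Matrix.one_apply_ne (Ne.symm h)]
    exact fil_zero _ _ _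

theorem cj14_pPi_row {n B : ℤ} (i : ℤ) (M : Obj n B) (g : PI i M) :
    (M.mF i).F (pPos i M g) (pPi i M g) := by
  have h1 := (qi_phi i M).hF (pPos i M g) (Pi.single g 1) (cj14_single_F (phi i M) g)
  have h2 : (Pi.single g 1 : PI i M → A) ᵥ* pPi i M = pPi i M g := by
    rw [Matrix.single_one_vecMul]
    rfl
  rw [h2] at h1
  exact h1

theorem cj14_pIota_row {n B : ℤ} (h2 : 2 ≤ n) (i : ℤ) (M : Obj n B) (g : M.I) :
    ((phi (-i) M.dual).dual.mF i).F (M.pos g) (pIota i M g) := by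
  have h1 := (qi_psi h2 i M).hF (M.pos g) (Pi.single g 1) (cj14_single_F M g)
  have h2 : (Pi.single g 1 : M.I → A) ᵥ* pIota i M = pIota i M g := by
    rw [Matrix.single_one_vecMul]
    rfl
  rw [h2] at h1
  exact h1

theorem cj14_mul_row {α β γ : Type} [Fintype β] (X : Matrix α β A) (Y : Matrix β γ A) (g : α) :
    (X * Y) g = (X g) ᵥ* Y := by
  funext e
  rfl

/-- the main computation with pairings -/
theorem cj14_pair {α β γ : Type} [Fintype α] [Fintype β] [Fintype γ]
    (DQ : Matrix α α A) (ψ : Matrix α β A) (ν : Matrix β γ A) (φ K : Matrix α γ A)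
    (DY : Matrix γ γ A) (z : α → ZMod 2) (eps : γ → ZMod 2)
    (hz : z ᵥ* (DQ.map ev) = 0) (he : (DY.map ev) *ᵥ eps = 0)
    (h : ψ * ν + φ = K * DY + DQ * K) :
    (z ᵥ* (ψ.map ev)) ⬝ᵥ ((ν.map ev) *ᵥ eps) = (z ᵥ* (φ.map ev)) ⬝ᵥ eps := by
  have h1 : ψ * ν = φ + (K * DY + DQ * K) := by
    rw [← h, add_comm (ψ * ν) φ, ← add_assoc, mat_add_self, zero_add]
  rw [Matrix.dotProduct_mulVec, Matrix.vecMul_vecMul, ← Matrix.map_mul, h1]
  rw [Matrix.map_add _ (map_add ev), Matrix.map_add _ (map_add ev), Matrix.map_mul,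
    Matrix.map_mul, Matrix.vecMul_add, Matrix.vecMul_add, add_dotProduct, add_dotProduct,
    ← Matrix.vecMul_vecMul, ← Matrix.vecMul_vecMul, hz, Matrix.zero_vecMul, zero_dotProduct,
    ← Matrix.dotProduct_mulVec (z ᵥ* K.map ev), he, dotProduct_zero, add_zero, add_zero]

theorem cj14_pZ_pPi {n B : ℤ} (i : ℤ) (M : GObj n B) :
    pZ i M ᵥ* ((pPi i M.toObj).map ev) = M.z := by
  funext e
  have h1 : (pZ i M ᵥ* ((pPi i M.toObj).map ev)) e
      = ∑ g : PI i M.toObj, pZ i M g * ev (pPi i M.toObj g e) := rfl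
  rw [h1, Fintype.sum_sum_type, Fintype.sum_sum_type]
  have h2 : ∑ g : M.I, pZ i M (Sum.inl g) * ev (pPi i M.toObj (Sum.inl g) e) = M.z e := by
    have h3 : ∀ g : M.I, pZ i M (Sum.inl g) * ev (pPi i M.toObj (Sum.inl g) e)
        = if g = e then M.z g else 0 := by
      intro g
      have h4 : pPi i M.toObj (Sum.inl g) e = (1 : Matrix M.I M.I A) g e := rfl
      rw [h4]
      by_cases hg : g = e
      · subst hg
        rw [Matrix.one_apply_eq, map_one, if_pos rfl, mul_one]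
        rfl
      · rw [Matrix.one_apply_ne hg, map_zero, if_neg hg, mul_zero]
    rw [Finset.sum_congr rfl (fun g _ => h3 g), Finset.sum_ite_eq' Finset.univ e M.z]
    simp
  have h5 : ∑ g : CI i M.toObj, pZ i M (Sum.inr (Sum.inl g))
      * ev (pPi i M.toObj (Sum.inr (Sum.inl g)) e) = 0 := by
    apply Finset.sum_eq_zero
    intro g _
    have h6 : pZ i M (Sum.inr (Sum.inl g)) = 0 := rfl
    rw [h6, zero_mul]
  have h7 : ∑ g : CI i M.toObj, pZ i M (Sum.inr (Sum.inr g))
      * ev (pPi i M.toObj (Sum.inr (Sum.inr g)) e) = 0 := by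
    apply Finset.sum_eq_zero
    intro g _
    have h6 : pPi i M.toObj (Sum.inr (Sum.inr g)) e = 0 := rfl
    rw [h6, map_zero, mul_zero]
  rw [h2, h5, h7, add_zero, add_zero]

theorem cj14_pPi_deg {n B : ℤ} (i : ℤ) (M : Obj n B) (g : PI i M) (e : M.I)
    (h : pPi i M g e ≠ 0) : M.deg e = pDeg i M g := (pPi_isMap i M).deg g e h

theorem cj14_exists_of_mul_ne {α β γ : Type} [Fintype β] (X : Matrix α β A) (Y : Matrix β γ A)
    (g : α) (e : γ) (h : (X * Y) g e ≠ 0) : ∃ f, X g f ≠ 0 ∧ Y f e ≠ 0 := by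
  by_contra hcon
  push Not at hcon
  apply h
  rw [Matrix.mul_apply]
  apply Finset.sum_eq_zero
  intro f _
  by_cases h1 : X g f = 0
  · rw [h1, zero_mul]
  · rw [hcon f h1, mul_zero]

theorem le_gphi {n B : ℤ} (i : ℤ) {M M' : GObj n B} {l : ℤ} (h : Le M M' l) :
    Le (gphi i M) (gphi i M') l := by
  obtain ⟨φ0, hφ0, hne⟩ := h
  have hφ : ∀ g, (M'.toObj.mF i).F ((phi i M.toObj).pos g + (l, l)) ((pPi i M.toObj * φ0) g) := by
    intro g
    rw [cj14_mul_row]
    exact mF_map i hφ0.fil _ _ (cj14_pPi_row i M.toObj g)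
  have hφd : ∀ g, HomDeg (M'.toObj.mF i).deg ((phi i M.toObj).deg g + 0)
      ((pPi i M.toObj * φ0) g) := by
    intro g e he
    obtain ⟨f, hf1, hf2⟩ := cj14_exists_of_mul_ne _ _ g e he
    have e1 := cj14_pPi_deg i M.toObj g f hf1
    have e2 := hφ0.deg f e hf2
    show M'.deg e = pDeg i M.toObj g + 0
    rw [e2, e1, add_zero]
  have h2 : (0 : Matrix (PI i M.toObj) (PI i M'.toObj) A) * pPi i M'.toObj
      = (pPi i M.toObj * φ0) * M'.toObj.D + pD i M.toObj * (pPi i M.toObj * φ0) := by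
    rw [Matrix.zero_mul, Matrix.mul_assoc, ← hφ0.comm, ← Matrix.mul_assoc, ← Matrix.mul_assoc,
      pPi_comm, mat_add_self]
  obtain ⟨ψ, K, c1, c2, c3, c4, c5, c6⟩ := lift (phi i M.toObj) (qi_phi i M'.toObj) l 0
    (pPi i M.toObj * φ0) 0 hφ hφd (fun g e => fil_zero _ _ _)
    (fun g e he => absurd rfl he) (by rw [Matrix.mul_zero, Matrix.zero_mul]) h2
  refine ⟨ψ, ⟨?_, ?_, ?_⟩, ?_⟩
  · intro g e
    have := c1 g e
    have e1 : (gphi i M).pos g - (gphi i M').pos e + (l, l)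
        = (phi i M.toObj).pos g + (l, l) - (phi i M'.toObj).pos e := by abel
    rw [e1]
    exact this
  · intro g e he
    have := c2 g e he
    rw [add_zero] at this
    exact this
  · exact (cj14_eq_of_add c5).symm
  · have e1 := cj14_pair (pD i M.toObj) ψ (pPi i M'.toObj) (pPi i M.toObj * φ0) K M'.D (pZ i M)
      M'.eps (pZ_cyc i M) M'.eps_coc c6
    rw [← pEps_eq, Matrix.map_mul, ← Matrix.vecMul_vecMul, cj14_pZ_pPi] at e1
    exact e1.trans hne

/-- (F2) -/
theorem le_gpsi {n B : ℤ} (i : ℤ) {M M' : GObj n B} {l : ℤ} (h : Le M M' l) :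
    Le (gpsi i M) (gpsi i M') l :=
  le_dual (le_gphi (-i) (le_dual h))

/-- (F3) -/
theorem le_phi_psi {n B : ℤ} (h2 : 2 ≤ n) (i : ℤ) (M : GObj n B) :
    Le M (gphi i (gpsi i M)) 0 ∧ Le (gphi i (gpsi i M)) M 0 := by
  have hz : M.z ᵥ* ((pIota i M.toObj).map ev) = pEps (-i) M.dual := by
    rw [pEps_eq]
    show M.z ᵥ* ((pPi (-i) M.toObj.dual)ᵀ.map ev) = (pPi (-i) M.toObj.dual).map ev *ᵥ M.z
    rw [Matrix.transpose_map, Matrix.vecMul_transpose]
  have heps : ((pIota i M.toObj).map ev) *ᵥ (gpsi i M).eps = M.eps := by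
    have h1 := cj14_pZ_pPi (-i) M.dual
    show ((pPi (-i) M.toObj.dual)ᵀ.map ev) *ᵥ pZ (-i) M.dual = M.eps
    rw [Matrix.transpose_map, Matrix.mulVec_transpose]
    exact h1
  constructor
  · have hφd : ∀ g, HomDeg ((gpsi i M).toObj.mF i).deg (M.toObj.deg g + 0)
        (pIota i M.toObj g) := by
      intro g e he
      rw [add_zero]
      exact (qi_psi h2 i M.toObj).hdeg g e he
    obtain ⟨ψ, K, c1, c2, c3, c4, c5, c6⟩ := lift M.toObj (qi_phi i (gpsi i M).toObj) 0 0
      (pIota i M.toObj) 0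
      (fun g => by
        have := cj14_pIota_row h2 i M.toObj g
        have e0 : M.toObj.pos g + ((0 : ℤ), (0 : ℤ)) = M.toObj.pos g := by
          rw [Prod.mk_zero_zero, add_zero]
        rw [e0]
        exact this)
      hφd (fun g e => fil_zero _ _ _)
      (fun g e he => absurd rfl he) (by rw [Matrix.mul_zero, Matrix.zero_mul])
      (by
        have := (qi_psi h2 i M.toObj).comm
        rw [Matrix.zero_mul]
        have e1 : pIota i M.toObj * (gpsi i M).toObj.D = M.toObj.D * pIota i M.toObj := this.symm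
        show 0 = pIota i M.toObj * (gpsi i M).toObj.D + M.toObj.D * pIota i M.toObj
        rw [e1, mat_add_self])
    refine ⟨ψ, ⟨?_, ?_, ?_⟩, ?_⟩
    · intro g e
      have := c1 g e
      have e1 : M.pos g - (gphi i (gpsi i M)).pos e + ((0 : ℤ), (0 : ℤ))
          = M.toObj.pos g + (0, 0) - (phi i (gpsi i M).toObj).pos e := by abel
      rw [e1]
      exact this
    · intro g e he
      have := c2 g e he
      rw [add_zero] at this
      exact this
    · exact (cj14_eq_of_add c5).symm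
    · have e1 := cj14_pair M.D ψ (pPi i (gpsi i M).toObj) (pIota i M.toObj) K (gpsi i M).D M.z
        (gpsi i M).eps M.z_cyc (gpsi i M).eps_coc c6
      rw [← pEps_eq, hz] at e1
      refine e1.trans ?_
      show pEps (-i) M.dual ⬝ᵥ pZ (-i) M.dual = 1
      rw [dotProduct_comm]
      exact pPair (-i) M.dual
  · have hφ : ∀ g, ((gpsi i M).toObj.mF i).F ((phi i (gpsi i M).toObj).pos g + (0, 0))
        (pPi i (gpsi i M).toObj g) := by
      intro g
      rw [Prod.mk_zero_zero, add_zero]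
      exact cj14_pPi_row i (gpsi i M).toObj g
    have hφd : ∀ g, HomDeg ((gpsi i M).toObj.mF i).deg ((phi i (gpsi i M).toObj).deg g + 0)
        (pPi i (gpsi i M).toObj g) := by
      intro g e he
      rw [add_zero]
      exact cj14_pPi_deg i (gpsi i M).toObj g e he
    obtain ⟨ψ, K, c1, c2, c3, c4, c5, c6⟩ := lift (phi i (gpsi i M).toObj) (qi_psi h2 i M.toObj) 0 0
      (pPi i (gpsi i M).toObj) 0 hφ hφd (fun g e => fil_zero _ _ _)
      (fun g e he => absurd rfl he) (by rw [Matrix.mul_zero, Matrix.zero_mul])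
      (by
        rw [Matrix.zero_mul]
        show 0 = pPi i (gpsi i M).toObj * (gpsi i M).toObj.D
          + pD i (gpsi i M).toObj * pPi i (gpsi i M).toObj
        rw [pPi_comm, mat_add_self])
    refine ⟨ψ, ⟨?_, ?_, ?_⟩, ?_⟩
    · intro g e
      have := c1 g e
      have e1 : (gphi i (gpsi i M)).pos g - M.pos e + ((0 : ℤ), (0 : ℤ))
          = (phi i (gpsi i M).toObj).pos g + (0, 0) - M.toObj.pos e := by abel
      rw [e1]
      exact this
    · intro g e he
      have := c2 g e he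
      rw [add_zero] at this
      exact this
    · exact (cj14_eq_of_add c5).symm
    · have e1 := cj14_pair (pD i (gpsi i M).toObj) ψ (pIota i M.toObj)
        (pPi i (gpsi i M).toObj) K (gpsi i M).D (pZ i (gpsi i M))
        (gpsi i M).eps (pZ_cyc i (gpsi i M)) (gpsi i M).eps_coc c6
      rw [heps, cj14_pZ_pPi] at e1
      exact e1.trans (gpsi i M).pair

/-- (F4) -/
theorem le_psi_phi {n B : ℤ} (h2 : 2 ≤ n) (i : ℤ) (M : GObj n B) :
    Le M (gpsi i (gphi i M)) 0 ∧ Le (gpsi i (gphi i M)) M 0 := by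
  have a1 := le_phi_psi h2 (-i) M.dual
  have b1 := le_dual_dual M
  have hX : gpsi (-i) M.dual = (gphi i M.dual.dual).dual := by
    show (gphi (- -i) M.dual.dual).dual = (gphi i M.dual.dual).dual
    rw [neg_neg]
  rw [hX] at a1
  -- comparison of `X` and `Y`
  have x1 : Le (gphi i M.dual.dual).dual (gphi i M).dual 0 := le_dual (le_gphi i b1.1)
  have x2 : Le (gphi i M).dual (gphi i M.dual.dual).dual 0 := le_dual (le_gphi i b1.2)
  have y1 : Le M.dual (gphi (-i) (gphi i M).dual) 0 := by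
    have := le_trans a1.1 (le_gphi (-i) x1)
    simpa using this
  have y2 : Le (gphi (-i) (gphi i M).dual) M.dual 0 := by
    have := le_trans (le_gphi (-i) x2) a1.2
    simpa using this
  constructor
  · have := le_trans b1.1 (le_dual y2)
    simpa using this
  · have := le_trans (le_dual y1) b1.2
    simpa using this

/-- (F5) -/
theorem le_phi_one {n B : ℤ} (i : ℤ) (M : GObj n B) : Le M (gphi i M) 1 := by
  have hφ : ∀ g, (M.toObj.mF i).F (M.toObj.pos g + (1, 1)) ((1 : Matrix M.I M.I A) g) :=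
    fun g => F_sub_mF i M.toObj le_rfl _ _ (cj14_one_row M.toObj g)
  have hφd : ∀ g, HomDeg (M.toObj.mF i).deg (M.toObj.deg g + 0) ((1 : Matrix M.I M.I A) g) := by
    intro g e he
    by_cases h : g = e
    · subst h
      show M.deg g = M.deg g + 0
      rw [add_zero]
    · exact absurd (Matrix.one_apply_ne h) he
  obtain ⟨ψ, K, c1, c2, c3, c4, c5, c6⟩ := lift M.toObj (qi_phi i M.toObj) 1 0
    (1 : Matrix M.I M.I A) 0 hφ hφd (fun g e => fil_zero _ _ _)
    (fun g e he => absurd rfl he) (by rw [Matrix.mul_zero, Matrix.zero_mul])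
    (by
      rw [Matrix.zero_mul]
      show 0 = 1 * M.toObj.D + M.toObj.D * 1
      rw [Matrix.one_mul, Matrix.mul_one, mat_add_self])
  refine ⟨ψ, ⟨?_, ?_, ?_⟩, ?_⟩
  · intro g e
    have := c1 g e
    have e1 : M.pos g - (gphi i M).pos e + ((1 : ℤ), (1 : ℤ))
        = M.toObj.pos g + (1, 1) - (phi i M.toObj).pos e := by abel
    rw [e1]
    exact this
  · intro g e he
    have := c2 g e he
    rw [add_zero] at this
    exact this
  · exact (cj14_eq_of_add c5).symm
  · have e1 := cj14_pair M.D ψ (pPi i M.toObj) 1 K M.D M.z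
      M.eps M.z_cyc M.eps_coc c6
    rw [← pEps_eq, Matrix.map_one _ (map_zero ev) (map_one ev), Matrix.vecMul_one] at e1
    exact e1.trans M.pair

theorem cj15_single_F {n B : ℤ} (M : Obj n B) (g : M.I) :
    M.toF.F (M.pos g) (Pi.single g 1) := by
  intro e
  by_cases h : e = g
  · subst h
    rw [Pi.single_eq_same]
    apply fil_one
    rw [sub_self]
  · rw [Pi.single_eq_of_ne h]
    exact fil_zero _ _ _

theorem cj15_pPi_row {n B : ℤ} (i : ℤ) (M : Obj n B) (g : PI i M) :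
    (M.mF i).F (pPos i M g) (pPi i M g) := by
  have h1 := (qi_phi i M).hF (pPos i M g) (Pi.single g 1) (cj15_single_F (phi i M) g)
  have h2 : (Pi.single g 1 : PI i M → A) ᵥ* pPi i M = pPi i M g := by
    rw [Matrix.single_one_vecMul]
    rfl
  rw [h2] at h1
  exact h1

theorem cj15_exists_of_mul_ne {α β γ : Type} [Fintype β] (X : Matrix α β A) (Y : Matrix β γ A)
    (g : α) (e : γ) (h : (X * Y) g e ≠ 0) : ∃ f, X g f ≠ 0 ∧ Y f e ≠ 0 := by
  by_contra hcon
  push Not at hcon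
  apply h
  rw [Matrix.mul_apply]
  apply Finset.sum_eq_zero
  intro f _
  by_cases h1 : X g f = 0
  · rw [h1, zero_mul]
  · rw [hcon f h1, mul_zero]

/-- (F6) -/
theorem null_phi {n B : ℤ} (hB : 0 ≤ B) (hn : B ≤ n) (i : ℤ) {M : Obj n B} (h : Null M) :
    Null (phi i M) := by
  obtain ⟨h0, hf, hd, hh⟩ := h
  have hφ : ∀ g, (M.mF i).F ((phi i M).pos g + (B, B)) ((pPi i M * h0) g) := by
    intro g
    have e0 : (pPi i M * h0) g = (pPi i M g) ᵥ* h0 := by
      funext e
      rfl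
    rw [e0]
    exact mF_map i hf _ _ (cj15_pPi_row i M g)
  have hφd : ∀ g, HomDeg (M.mF i).deg ((phi i M).deg g + -1) ((pPi i M * h0) g) := by
    intro g e he
    obtain ⟨f, hf1, hf2⟩ := cj15_exists_of_mul_ne _ _ g e he
    have e1 := (pPi_isMap i M).deg g f hf1
    have e2 := hd f e hf2
    show M.deg e = pDeg i M g + -1
    rw [e2, e1]
    rfl
  have hχ : ∀ g, (phi i M).toF.F ((phi i M).pos g + (B, B))
      (((1 + sp 1 : A) • (1 : Matrix (PI i M) (PI i M) A)) g) := by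
    intro g e
    by_cases hge : g = e
    · subst hge
      have e1 : ((1 + sp 1 : A) • (1 : Matrix (PI i M) (PI i M) A)) g g = 1 + sp 1 := by
        rw [Matrix.smul_apply, Matrix.one_apply_eq, smul_eq_mul, mul_one]
      have e2 : (phi i M).pos g + (B, B) - (phi i M).pos g = (B, B) := by abel
      rw [e1, e2]
      apply fil_add
      · exact fil_one ⟨hB, hB⟩
      · exact fil_sp (by simp) (by simp; linarith)
    · have e1 : ((1 + sp 1 : A) • (1 : Matrix (PI i M) (PI i M) A)) g e = 0 := by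
        rw [Matrix.smul_apply, Matrix.one_apply_ne hge, smul_zero]
      rw [e1]
      exact fil_zero _ _ _
  have hχd : ∀ g, HomDeg (phi i M).toF.deg ((phi i M).deg g + -1 + 1)
      (((1 + sp 1 : A) • (1 : Matrix (PI i M) (PI i M) A)) g) := by
    intro g e he
    by_cases hge : g = e
    · subst hge
      show pDeg i M g = pDeg i M g + -1 + 1
      ring
    · exfalso
      apply he
      rw [Matrix.smul_apply, Matrix.one_apply_ne hge, smul_zero]
  obtain ⟨ψ, K, c1, c2, c3, c4, c5, c6⟩ := lift (phi i M) (qi_phi i M) B (-1)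
    (pPi i M * h0) ((1 + sp 1 : A) • (1 : Matrix (PI i M) (PI i M) A)) hφ hφd hχ hχd
    (by
      show pD i M * ((1 + sp 1 : A) • (1 : Matrix (PI i M) (PI i M) A))
        = ((1 + sp 1 : A) • (1 : Matrix (PI i M) (PI i M) A)) * pD i M
      rw [Matrix.mul_smul, Matrix.smul_mul, Matrix.mul_one, Matrix.one_mul])
    (by
      show ((1 + sp 1 : A) • (1 : Matrix (PI i M) (PI i M) A)) * pPi i M
        = (pPi i M * h0) * M.D + pD i M * (pPi i M * h0)
      have e1 : (pPi i M * h0) * M.D + pD i M * (pPi i M * h0)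
          = pPi i M * (M.D * h0 + h0 * M.D) := by
        rw [← Matrix.mul_assoc (pD i M), pPi_comm, Matrix.mul_add, Matrix.mul_assoc,
          Matrix.mul_assoc, add_comm]
      rw [e1, hh, Matrix.mul_smul, Matrix.smul_mul, Matrix.mul_one, Matrix.one_mul])
  refine ⟨ψ, ?_, ?_, ?_⟩
  · intro g e
    have := c1 g e
    have e1 : (phi i M).pos g - (phi i M).pos e + (B, B)
        = (phi i M).pos g + (B, B) - (phi i M).pos e := by abel
    rw [e1]
    exact this
  · intro g e he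
    have := c2 g e he
    show (phi i M).deg e = (phi i M).deg g - 1
    rw [sub_eq_add_neg]
    exact this
  · rw [add_comm]
    exact c5

end

end MWC
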