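import Pool.Agent.Lib.MP_cbfcf7.C3

/-!
# Pairing with the circle object and Lemma Q
-/

namespace MWC

noncomputable section

open scoped Classical
open Matrix

theorem cj17_ev_s : ev (1 + sp 1) = 0 := by
  rw [map_add, map_one, ev_sp]
  rfl

theorem cj17_mulVec_ev {n B : ℤ} (M : GObj n B) (f : M.I → A) (g : M.I) :
    (M.toObj.E *ᵥ fun e => ev (f e)) g = ev ((M.D *ᵥ f) g) := by
  show ∑ e, M.toObj.E g e * ev (f e) = ev (∑ e, M.D g e * f e)
  rw [map_sum]
  refine Finset.sum_congr rfl fun e _ => ?_
  rw [map_mul]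
  rfl

theorem cj17_mul_false {I : Type} [Fintype I] (φ : Matrix I Bool A) (g : I) :
    (φ * ShD) g false = φ g true * (1 + sp 1) := by
  rw [Matrix.mul_apply, Fintype.sum_bool, ShD_apply, ShD_apply]
  simp

theorem cj17_mul_true {I : Type} [Fintype I] (φ : Matrix I Bool A) (g : I) :
    (φ * ShD) g true = 0 := by
  rw [Matrix.mul_apply, Fintype.sum_bool, ShD_apply, ShD_apply]
  simp

theorem cj17_pair {I : Type} [Fintype I] (z : I → ZMod 2) (φ : Matrix I Bool A) :
    (z ᵥ* (φ.map ev)) ⬝ᵥ (fun b : Bool => if b then (0 : ZMod 2) else 1) =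
      z ⬝ᵥ fun e => ev (φ e false) := by
  simp [dotProduct, Matrix.vecMul]

/-- (LC) maps to the circle object -/
theorem le_Sh_iff {n B : ℤ} (hB : 0 < B) (hn : B < n) (M : GObj n B) (l : ℤ) :
    Le M (Sh n B hB.le hn.le) l ↔
      ∃ lam : M.I → ZMod 2, (∀ e, lam e ≠ 0 → M.deg e = 0 ∧ U n B (M.pos e + (l, l))) ∧
        M.toObj.E *ᵥ lam = 0 ∧ M.z ⬝ᵥ lam = 1 := by
  constructor
  · rintro ⟨φ, hφ, hz⟩
    refine ⟨fun e => ev (φ e false), ?_, ?_, ?_⟩
    · intro e he
      have hne : φ e false ≠ 0 := by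
        intro h0
        apply he
        show ev (φ e false) = 0
        rw [h0, map_zero]
      refine ⟨?_, ?_⟩
      · have h1 := hφ.deg e false hne
        simpa using h1.symm
      · have h1 := fil_nonzero (hφ.fil e false) hne
        have h2 : M.pos e - (Sh n B hB.le hn.le).pos false + (l, l) = M.pos e + (l, l) := by
          simp
        rw [h2] at h1
        exact h1
    · funext g
      rw [cj17_mulVec_ev M (fun e => φ e false) g]
      have h1 : (M.D *ᵥ fun e => φ e false) g = (M.D * φ) g false := rfl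
      have h2 : (M.D * φ) g false = (φ * ShD) g false := by
        have := hφ.comm
        exact congrFun (congrFun this g) false
      rw [h1, h2, cj17_mul_false, map_mul, cj17_ev_s, mul_zero]
      rfl
    · rw [← hz]
      exact (cj17_pair M.z φ).symm
  · rintro ⟨lam, h1, h2, h3⟩
    -- the column of the generator in degree zero
    have hU : ∀ e, ∃ k : ℤ, lam e ≠ 0 →
        k * B ≤ (M.pos e + (l, l)).1 ∧ k * (B - n) ≤ (M.pos e + (l, l)).2 := by
      intro e
      by_cases he : lam e ≠ 0
      · obtain ⟨k, hk⟩ := (h1 e he).2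
        exact ⟨k, fun _ => hk⟩
      · exact ⟨0, fun h => absurd h he⟩
    choose k hk using hU
    set f0 : M.I → A := fun e => if lam e ≠ 0 then sp (k e) else 0 with hf0
    have hf0_fil : ∀ e, Fil n B (M.pos e + (l, l)) (f0 e) := by
      intro e
      rw [hf0]
      by_cases he : lam e ≠ 0
      · simp only [if_pos he]
        exact fil_sp (hk e he).1 (hk e he).2
      · simp only [if_neg he]
        exact fil_zero _ _ _
    have hf0_ne : ∀ e, f0 e ≠ 0 → lam e ≠ 0 := by
      intro e he h
      apply he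
      rw [hf0]
      simp only [h, ne_eq, not_true_eq_false, if_false]
    have hf0_ev : ∀ e, ev (f0 e) = lam e := by
      intro e
      rw [hf0]
      have h01 : ∀ x : ZMod 2, x ≠ 0 → x = 1 := by decide
      by_cases he : lam e ≠ 0
      · simp only [if_pos he]
        rw [ev_sp, h01 _ he]
      · simp only [if_neg he]
        rw [map_zero]
        exact (not_not.1 he).symm
    have hDf_fil : ∀ g, Fil n B (M.pos g + (l, l)) ((M.D *ᵥ f0) g) := by
      intro g
      show Fil n B (M.pos g + (l, l)) (∑ e, M.D g e * f0 e)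
      apply fil_sum
      intro e _
      have := fil_mul (M.fil g e) (hf0_fil e)
      have e1 : M.pos g - M.pos e + (M.pos e + (l, l)) = M.pos g + (l, l) := by abel
      rw [e1] at this
      exact this
    have hDf_ev : ∀ g, ev ((M.D *ᵥ f0) g) = 0 := by
      intro g
      rw [← cj17_mulVec_ev]
      have e1 : (fun e => ev (f0 e)) = lam := funext hf0_ev
      rw [e1, h2]
      rfl
    have hdiv : ∀ g, ∃ a' : A, Fil n B (M.pos g + (l, l) - (B, 0)) a' ∧
        (M.D *ᵥ f0) g = (1 + sp 1) * a' := fun g => fil_div hB hn (hDf_fil g) (hDf_ev g)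
    choose a ha1 ha2 using hdiv
    set f1 : M.I → A := fun e => if M.deg e = -1 then a e else 0 with hf1
    have hDf : ∀ g, (M.D *ᵥ f0) g = f1 g * (1 + sp 1) := by
      intro g
      by_cases hg : M.deg g = -1
      · rw [hf1]
        simp only [if_pos hg]
        rw [ha2 g, mul_comm]
      · rw [hf1]
        simp only [if_neg hg]
        rw [zero_mul]
        show ∑ e, M.D g e * f0 e = 0
        apply Finset.sum_eq_zero
        intro e _
        by_cases hD : M.D g e = 0
        · rw [hD, zero_mul]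
        · have h4 := M.hdeg g e hD
          have h5 : f0 e = 0 := by
            by_contra hcon
            have h6 := (h1 e (hf0_ne e hcon)).1
            apply hg
            omega
          rw [h5, mul_zero]
    have hDf1 : ∀ g, (M.D *ᵥ f1) g = 0 := by
      intro g
      have h4 : (M.D *ᵥ f1) g * (1 + sp 1) = 0 := by
        have h5 : (M.D *ᵥ f1) g * (1 + sp 1) = (M.D *ᵥ (M.D *ᵥ f0)) g := by
          show (∑ e, M.D g e * f1 e) * (1 + sp 1) = ∑ e, M.D g e * (M.D *ᵥ f0) e
          rw [Finset.sum_mul]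
          refine Finset.sum_congr rfl fun e _ => ?_
          rw [hDf e, mul_assoc]
        rw [h5, Matrix.mulVec_mulVec, M.sq, Matrix.zero_mulVec]
        rfl
      rcases A_mul_eq_zero h4 with h | h
      · exact h
      · exact absurd h one_add_s_ne_zero
    refine ⟨Matrix.of fun e b => if b then f1 e else f0 e, ⟨?_, ?_, ?_⟩, ?_⟩
    · intro g e
      cases e
      · have e1 : M.pos g - (Sh n B hB.le hn.le).pos false + (l, l) = M.pos g + (l, l) := by simp
        rw [e1]
        exact hf0_fil g
      · have e1 : M.pos g - (Sh n B hB.le hn.le).pos true + (l, l) =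
            M.pos g + (l, l) - (B, 0) := by
          simp only [if_true]
          abel
        rw [e1]
        show Fil n B _ (f1 g)
        by_cases hg : M.deg g = -1
        · rw [hf1]
          simp only [if_pos hg]
          exact ha1 g
        · rw [hf1]
          simp only [if_neg hg]
          exact fil_zero _ _ _
    · intro g e hne
      cases e
      · have h4 : f0 g ≠ 0 := hne
        have h5 := (h1 g (hf0_ne g h4)).1
        simpa using h5.symm
      · have h4 : f1 g ≠ 0 := hne
        have h5 : M.deg g = -1 := by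
          by_contra hcon
          apply h4
          rw [hf1]
          simp only [if_neg hcon]
        simpa using h5.symm
    · apply Matrix.ext
      intro g e
      show (M.D * (Matrix.of fun e b => if b then f1 e else f0 e : Matrix M.I Bool A)) g e =
        ((Matrix.of fun e b => if b then f1 e else f0 e : Matrix M.I Bool A) * ShD) g e
      cases e
      · rw [cj17_mul_false]
        exact hDf g
      · rw [cj17_mul_true]
        exact hDf1 g
    · rw [← h3]
      have h4 := cj17_pair M.z (Matrix.of fun e b => if b then f1 e else f0 e : Matrix M.I Bool A)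
      refine h4.trans ?_
      congr 1
      funext e
      exact hf0_ev e

theorem cj18_aux_sq {n B : ℤ} (M : Obj n B) : M.E * M.E = 0 := by
  have h : (M.D * M.D).map ev = M.D.map ev * M.D.map ev := Matrix.map_mul
  rw [M.sq] at h
  have h0 : (0 : Matrix M.I M.I A).map ev = 0 := Matrix.map_zero ev (map_zero ev)
  rw [h0] at h
  exact h.symm

theorem cj18_aux_deg {n B : ℤ} (M : Obj n B) {g h : M.I} (hne : M.E g h ≠ 0) :
    M.deg h = M.deg g + 1 := by
  apply M.hdeg g h
  intro h0
  apply hne
  change ev (M.D g h) = 0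
  rw [h0, map_zero]

/-- `F_2`-duality: a functional vanishing on the cycles supported in `N` is cohomologous to one
vanishing on `N`. -/
theorem exists_functional {n B : ℤ} (M : GObj n B) (N : Set M.I)
    (hN : ∀ v : M.I → ZMod 2, (∀ e, v e ≠ 0 → M.deg e = 0 ∧ e ∈ N) → v ᵥ* M.toObj.E = 0 →
      v ⬝ᵥ M.eps = 0) :
    ∃ lam : M.I → ZMod 2, (∀ e, lam e ≠ 0 → M.deg e = 0 ∧ e ∉ N) ∧
      M.toObj.E *ᵥ lam = 0 ∧ M.z ⬝ᵥ lam = 1 := by
  set E := M.toObj.E with hE
  obtain ⟨μ, hμ⟩ : ∃ μ : M.I → ZMod 2, (E.submatrix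
      (Subtype.val : {e : M.I // M.deg e = 0 ∧ e ∈ N} → M.I) id) *ᵥ μ =
        fun e => M.eps e.1 := by
    apply exists_mulVec_of_ker
    intro x hx
    -- extension by zero
    set v : M.I → ZMod 2 := fun e => if h : M.deg e = 0 ∧ e ∈ N then x ⟨e, h⟩ else 0 with hv
    have hsum : ∀ f : M.I → ZMod 2, ∑ e, v e * f e =
        ∑ e : {e : M.I // M.deg e = 0 ∧ e ∈ N}, x e * f e.1 := by
      intro f
      rw [← Fintype.sum_subtype_add_sum_subtype (fun e : M.I => M.deg e = 0 ∧ e ∈ N)
        (fun e => v e * f e)]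
      have z2 : ∑ e : {e : M.I // ¬ (M.deg e = 0 ∧ e ∈ N)}, v e.1 * f e.1 = 0 := by
        apply Finset.sum_eq_zero
        intro e _
        have : v e.1 = 0 := by
          simp only [hv]
          rw [dif_neg e.2]
        rw [this, zero_mul]
      rw [z2, add_zero]
      apply Finset.sum_congr rfl
      intro e _
      have : v e.1 = x e := by
        simp only [hv]
        rw [dif_pos e.2]
      rw [this]
    have h1 : v ᵥ* E = 0 := by
      funext j
      change ∑ e, v e * E e j = 0
      rw [hsum (fun e => E e j)]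
      have := congrFun hx j
      exact this
    have h2 := hN v (by
      intro e he
      by_contra hcon
      apply he
      simp only [hv]
      rw [dif_neg hcon]) h1
    change ∑ e : {e : M.I // M.deg e = 0 ∧ e ∈ N}, x e * M.eps e.1 = 0
    rw [← hsum M.eps]
    exact h2
  -- the part of degree one
  set ν : M.I → ZMod 2 := fun e => if M.deg e = 1 then μ e else 0 with hν
  have hE0 : ∀ e, M.deg e = 0 → (E *ᵥ ν) e = (E *ᵥ μ) e := by
    intro e he
    change ∑ h, E e h * ν h = ∑ h, E e h * μ h
    apply Finset.sum_congr rfl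
    intro h _
    by_cases hne : E e h = 0
    · rw [hne, zero_mul, zero_mul]
    · have := cj18_aux_deg M.toObj hne
      have hd : M.deg h = 1 := by rw [this, he]; rfl
      simp only [hν]
      rw [if_pos hd]
  have hE1 : ∀ e, M.deg e ≠ 0 → (E *ᵥ ν) e = 0 := by
    intro e he
    change ∑ h, E e h * ν h = 0
    apply Finset.sum_eq_zero
    intro h _
    by_cases hne : E e h = 0
    · rw [hne, zero_mul]
    · have := cj18_aux_deg M.toObj hne
      have hd : M.deg h ≠ 1 := by
        intro h1
        apply he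
        omega
      simp only [hν]
      rw [if_neg hd, mul_zero]
  have h2 : ∀ a : ZMod 2, a + a = 0 := by decide
  refine ⟨M.eps + E *ᵥ ν, ?_, ?_, ?_⟩
  · intro e he
    rw [Pi.add_apply] at he
    have hd : M.deg e = 0 := by
      by_contra hcon
      apply he
      have h3 : M.eps e = 0 := by
        by_contra h4
        exact hcon (M.eps_deg e h4)
      rw [h3, hE1 e hcon, add_zero]
    refine ⟨hd, ?_⟩
    intro heN
    apply he
    rw [hE0 e hd]
    have h3 := congrFun hμ ⟨e, hd, heN⟩
    have h4 : (E *ᵥ μ) e = M.eps e := h3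
    rw [h4]
    exact h2 _
  · rw [Matrix.mulVec_add, Matrix.mulVec_mulVec, hE, cj18_aux_sq, Matrix.zero_mulVec, add_zero]
    exact M.eps_coc
  · rw [dotProduct_add, Matrix.dotProduct_mulVec]
    have h3 : M.z ᵥ* E = 0 := M.z_cyc
    rw [h3, zero_dotProduct, add_zero]
    exact M.pair

/-- (LC') -/
theorem not_le_Sh {n B : ℤ} (hB : 0 < B) (hn : B < n) (M : GObj n B) (l : ℤ)
    (h : ¬ Le M (Sh n B hB.le hn.le) l) :
    ∃ v : M.I → ZMod 2, (∀ e, v e ≠ 0 → M.deg e = 0 ∧ ¬ U n B (M.pos e + (l, l))) ∧
      v ᵥ* M.toObj.E = 0 ∧ v ⬝ᵥ M.eps = 1 := by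
  by_contra hcon
  push Not at hcon
  apply h
  rw [le_Sh_iff hB hn]
  obtain ⟨lam, h1, h2, h3⟩ := exists_functional M {e | ¬ U n B (M.pos e + (l, l))}
    (fun v hv hv2 => by
      have := hcon v (fun e he => ⟨(hv e he).1, (hv e he).2⟩) hv2
      have h01 : ∀ x : ZMod 2, x ≠ 1 → x = 0 := by decide
      exact h01 _ this)
  refine ⟨lam, fun e he => ⟨(h1 e he).1, ?_⟩, h2, h3⟩
  have := (h1 e he).2
  simpa using this

theorem cj19_aux_fil {n B : ℤ} {I J : Type} [Fintype I] (p : I → ℤ × ℤ) (q : J → ℤ × ℤ)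
    (d δ : ℤ × ℤ) (v : I → A) (X : Matrix I J A) (hv : ∀ g, Fil n B (d - p g) (v g))
    (hX : ∀ g e, Fil n B (p g - q e + δ) (X g e)) (e : J) :
    Fil n B (d + δ - q e) ((v ᵥ* X) e) := by
  change Fil n B (d + δ - q e) (∑ g, v g * X g e)
  apply fil_sum
  intro g _
  have h := fil_mul (hv g) (hX g e)
  have e1 : d - p g + (p g - q e + δ) = d + δ - q e := by abel
  rw [e1] at h
  exact h

theorem cj19_aux_deg {I J : Type} [Fintype I] {v : I → A} {X : Matrix I J A} {e : J}
    (h : (v ᵥ* X) e ≠ 0) : ∃ g, v g ≠ 0 ∧ X g e ≠ 0 := by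
  by_contra hcon
  push Not at hcon
  apply h
  change ∑ g, v g * X g e = 0
  apply Finset.sum_eq_zero
  intro g _
  by_cases h1 : v g = 0
  · rw [h1, zero_mul]
  · rw [hcon g h1, mul_zero]

theorem cj19_aux_ev {I J : Type} [Fintype I] (v : I → A) (X : Matrix I J A) (e : J) :
    ev ((v ᵥ* X) e) = ((fun g => ev (v g)) ᵥ* X.map ev) e := by
  change ev (∑ g, v g * X g e) = ∑ g, ev (v g) * ev (X g e)
  rw [map_sum]
  apply Finset.sum_congr rfl
  intro g _
  rw [map_mul]

theorem cj19_aux_vec {I : Type} (v : I → A) : v + v = 0 := by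
  funext e
  exact A_add_self (v e)

/-- LEMMA Q -/
theorem lemma_Q {n B : ℤ} (hB : 0 < B) (hn : B < n) (M : GObj n B)
    (h1 : HZero M.toObj 1) (h2 : Null M.toObj) (c : ℤ)
    (hc : ¬ Le M (Sh n B hB.le hn.le) (c - 1)) :
    Le (Sh n B hB.le hn.le) M (B - c) := by
  obtain ⟨zb, hzb1, hzb2, hzb3⟩ := not_le_Sh hB hn M (c - 1) hc
  obtain ⟨hh, hh1, hh2, hh3⟩ := h2
  have h01 : ∀ x : ZMod 2, x ≠ 0 → x = 1 := by decide
  set d : ℤ × ℤ := (B - c, -c) with hd
  -- the choice of exponents
  have hk : ∀ e, zb e ≠ 0 → ∃ k : ℤ, k * B ≤ (d - M.pos e).1 ∧ k * (B - n) ≤ (d - M.pos e).2 := by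
    intro e he
    have h3 := (hzb1 e he).2
    have h4 := (u_symm hB hn (M.pos e + (c - 1, c - 1))).not.mp h3
    rw [not_not] at h4
    obtain ⟨k, hk1, hk2⟩ := h4
    refine ⟨k, ?_, ?_⟩
    · simp only [Prod.fst_add] at hk1
      rw [hd, Prod.fst_sub]
      linarith
    · simp only [Prod.snd_add] at hk2
      rw [hd, Prod.snd_sub]
      linarith
  choose! kk hkk1 hkk2 using hk
  set gt : M.I → A := fun e => if zb e = 0 then 0 else sp (kk e) with hgt
  have hgt_fil : ∀ e, Fil n B (d - M.pos e) (gt e) := by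
    intro e
    simp only [hgt]
    by_cases h : zb e = 0
    · rw [if_pos h]
      exact fil_zero _ _ _
    · rw [if_neg h]
      exact fil_sp (hkk1 e h) (hkk2 e h)
  have hgt_ev : ∀ e, ev (gt e) = zb e := by
    intro e
    simp only [hgt]
    by_cases h : zb e = 0
    · rw [if_pos h, map_zero, h]
    · rw [if_neg h, ev_sp, h01 _ h]
  have hgt_deg : ∀ e, gt e ≠ 0 → M.deg e = 0 := by
    intro e he
    by_contra hcon
    apply he
    simp only [hgt]
    rw [if_pos]
    by_contra h
    exact hcon (hzb1 e h).1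
  have hevgt : (fun g => ev (gt g)) = zb := by
    funext e
    exact hgt_ev e
  set y : M.I → A := gt ᵥ* M.D with hy
  have hDfil : ∀ g e, Fil n B (M.pos g - M.pos e + 0) (M.D g e) := by
    intro g e
    rw [add_zero]
    exact M.fil g e
  have hy_fil : ∀ e, Fil n B (d - M.pos e) (y e) := by
    intro e
    have := cj19_aux_fil M.pos M.pos d 0 gt M.D hgt_fil hDfil e
    rwa [add_zero] at this
  have hy_ev : ∀ e, ev (y e) = 0 := by
    intro e
    rw [hy, cj19_aux_ev, hevgt]
    have := congrFun hzb2 e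
    exact this
  have hy_deg : ∀ e, y e ≠ 0 → M.deg e = 1 := by
    intro e he
    obtain ⟨g, hg1, hg2⟩ := cj19_aux_deg he
    have h3 := hgt_deg g hg1
    have h4 := M.hdeg g e hg2
    omega
  choose zz hzz1 hzz2 using fun e => fil_div hB hn (hy_fil e) (hy_ev e)
  have hzz_deg : ∀ e, zz e ≠ 0 → M.deg e = 1 := by
    intro e he
    apply hy_deg
    rw [hzz2 e]
    intro h
    rcases A_mul_eq_zero h with h | h
    · exact one_add_s_ne_zero h
    · exact he h
  have hy_zz : y = (1 + sp 1 : A) • zz := by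
    funext e
    rw [Pi.smul_apply, smul_eq_mul]
    exact hzz2 e
  have hyD : y ᵥ* M.D = 0 := by
    rw [hy, Matrix.vecMul_vecMul, M.sq, Matrix.vecMul_zero]
  have hzzD : zz ᵥ* M.D = 0 := by
    have h3 : (1 + sp 1 : A) • (zz ᵥ* M.D) = 0 := by
      rw [← Matrix.smul_vecMul, ← hy_zz]
      exact hyD
    funext e
    have h4 := congrFun h3 e
    rw [Pi.smul_apply, smul_eq_mul] at h4
    rcases A_mul_eq_zero h4 with h | h
    · exact absurd h one_add_s_ne_zero
    · exact h
  -- the homotopy relation on vectors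
  have hhom : ∀ v : M.I → A, v ᵥ* (hh * M.D) = (1 + sp 1 : A) • v + v ᵥ* (M.D * hh) := by
    intro v
    have h3 : v ᵥ* (M.D * hh) + v ᵥ* (hh * M.D) = (1 + sp 1 : A) • v := by
      rw [← Matrix.vecMul_add, hh3, Matrix.vecMul_smul, Matrix.vecMul_one]
    rw [← h3, add_assoc, add_comm (v ᵥ* (hh * M.D)), ← add_assoc, cj19_aux_vec, zero_add]
  set f0 : M.I → A := gt + zz ᵥ* hh with hf0
  set f1 : M.I → A := gt ᵥ* hh with hf1
  have hf0D : f0 ᵥ* M.D = 0 := by
    rw [hf0, Matrix.add_vecMul, Matrix.vecMul_vecMul, hhom, ← Matrix.vecMul_vecMul, hzzD,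
      Matrix.zero_vecMul, add_zero, ← hy_zz, ← hy]
    exact cj19_aux_vec y
  have hf1D : f1 ᵥ* M.D = (1 + sp 1 : A) • f0 := by
    rw [hf1, Matrix.vecMul_vecMul, hhom, ← Matrix.vecMul_vecMul, ← hy, hy_zz,
      Matrix.smul_vecMul, ← smul_add]
  set φ : Matrix Bool M.I A := Matrix.of fun b => if b then f1 else f0 with hφ
  have hφ0 : ∀ e, φ false e = f0 e := by
    intro e
    rw [hφ]
    simp
  have hφ1 : ∀ e, φ true e = f1 e := by
    intro e
    rw [hφ]
    simp
  refine ⟨φ, ⟨?_, ?_, ?_⟩, ?_⟩
  · intro g e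
    cases g with
    | false =>
      rw [hφ0 e]
      have e0 : (Sh n B hB.le hn.le).pos false - M.pos e + (B - c, B - c) =
          (B - c, B - c) - M.pos e := by
        change (0 : ℤ × ℤ) - M.pos e + (B - c, B - c) = _
        abel
      rw [e0]
      change Fil n B ((B - c, B - c) - M.pos e) (gt e + (zz ᵥ* hh) e)
      apply fil_add
      · refine fil_mono ?_ (hgt_fil e)
        rw [hd]
        constructor
        · simp
        · simp
          linarith
      · have h3 := cj19_aux_fil M.pos M.pos (d - (B, 0)) (B, B) zz hh (by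
          intro g
          have := hzz1 g
          have e1 : d - (B, 0) - M.pos g = d - M.pos g - (B, 0) := by abel
          rw [e1]
          exact this) hh1 e
        have e1 : d - (B, 0) + (B, B) - M.pos e = (B - c, B - c) - M.pos e := by
          rw [hd]
          ext
          · simp
            ring
          · simp
            ring
        rw [e1] at h3
        exact h3
    | true =>
      rw [hφ1 e]
      have e0 : (Sh n B hB.le hn.le).pos true - M.pos e + (B - c, B - c) =
          (B, 0) + (B - c, B - c) - M.pos e := by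
        change ((B, 0) : ℤ × ℤ) - M.pos e + (B - c, B - c) = _
        abel
      rw [e0]
      have h3 := cj19_aux_fil M.pos M.pos d (B, B) gt hh hgt_fil hh1 e
      have e1 : d + (B, B) - M.pos e = (B, 0) + (B - c, B - c) - M.pos e := by
        rw [hd]
        ext
        · simp
          ring
        · simp
          ring
      rw [e1] at h3
      exact h3
  · intro g e hne
    cases g with
    | false =>
      rw [hφ0 e] at hne
      change M.deg e = 0
      by_contra hcon
      apply hne
      change gt e + (zz ᵥ* hh) e = 0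
      have h3 : gt e = 0 := by
        by_contra h
        exact hcon (hgt_deg e h)
      have h4 : (zz ᵥ* hh) e = 0 := by
        by_contra h
        obtain ⟨g, hg1, hg2⟩ := cj19_aux_deg h
        have h5 := hzz_deg g hg1
        have h6 := hh2 g e hg2
        apply hcon
        omega
      rw [h3, h4, add_zero]
    | true =>
      rw [hφ1 e] at hne
      change M.deg e = -1
      obtain ⟨g, hg1, hg2⟩ := cj19_aux_deg hne
      have h5 := hgt_deg g hg1
      have h6 := hh2 g e hg2
      omega
  · apply Matrix.ext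
    intro g e
    change (ShD * φ) g e = (φ * M.D) g e
    rw [Matrix.mul_apply, Matrix.mul_apply]
    cases g with
    | false =>
      have e1 : ∑ j, φ false j * M.D j e = (f0 ᵥ* M.D) e := by
        change _ = ∑ j, f0 j * M.D j e
        apply Finset.sum_congr rfl
        intro j _
        rw [hφ0]
      rw [e1, hf0D]
      apply Finset.sum_eq_zero
      intro j _
      rw [ShD_apply, if_neg (by simp), zero_mul]
    | true =>
      have e1 : ∑ j, φ true j * M.D j e = (f1 ᵥ* M.D) e := by
        change _ = ∑ j, f1 j * M.D j e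
        apply Finset.sum_congr rfl
        intro j _
        rw [hφ1]
      rw [e1, hf1D, Fintype.sum_bool, ShD_apply, ShD_apply, if_neg (by simp), if_pos (by simp),
        zero_mul, zero_add, hφ0, Pi.smul_apply, smul_eq_mul]
  · -- nonzero
    set zb' : M.I → ZMod 2 := fun e => ev (zz e) with hzb'
    have hzb'E : zb' ᵥ* M.toObj.E = 0 := by
      funext e
      have := cj19_aux_ev zz M.D e
      rw [hzzD] at this
      change ev 0 = _ at this
      rw [map_zero] at this
      exact this.symm
    obtain ⟨w, hw1, hw2⟩ := h1 zb' (by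
      intro e he
      apply hzz_deg
      intro h
      apply he
      rw [hzb']
      change ev (zz e) = 0
      rw [h, map_zero]) hzb'E
    have hhb : M.toObj.E * hh.map ev = hh.map ev * M.toObj.E := by
      have h3 : (M.D * hh + hh * M.D).map ev = M.toObj.E * hh.map ev + hh.map ev * M.toObj.E := by
        rw [Matrix.map_add ev (map_add ev), Matrix.map_mul, Matrix.map_mul]
        rfl
      rw [hh3] at h3
      have h4 : ((1 + sp 1 : A) • (1 : Matrix M.I M.I A)).map ev = 0 := by
        apply Matrix.ext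
        intro g e
        rw [Matrix.map_apply, Matrix.smul_apply, smul_eq_mul, map_mul, map_add, map_one, ev_sp]
        have : (1 + 1 : ZMod 2) = 0 := rfl
        rw [this, zero_mul]
        rfl
      rw [h4] at h3
      apply Matrix.ext
      intro g e
      have h5 := congrFun (congrFun h3 g) e
      have h6 : ∀ a b : ZMod 2, 0 = a + b → a = b := by decide
      exact h6 _ _ h5
    have hz : (zb' ᵥ* hh.map ev) ⬝ᵥ M.eps = 0 := by
      rw [← hw2, Matrix.vecMul_vecMul, hhb, ← Matrix.vecMul_vecMul, ← Matrix.dotProduct_mulVec]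
      have : M.toObj.E *ᵥ M.eps = 0 := M.eps_coc
      rw [this, dotProduct_zero]
    have hrow : ((Sh n B hB.le hn.le).z ᵥ* (φ.map ev)) = zb + zb' ᵥ* hh.map ev := by
      funext e
      change ∑ b : Bool, (if b then (0 : ZMod 2) else 1) * ev (φ b e) = zb e + _
      rw [Fintype.sum_bool, if_pos rfl, if_neg (by simp), zero_mul, zero_add, one_mul, hφ0]
      change ev (gt e + (zz ᵥ* hh) e) = zb e + (zb' ᵥ* hh.map ev) e
      rw [map_add, hgt_ev, cj19_aux_ev]
    rw [hrow, add_dotProduct, hz, add_zero]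
    exact hzb3

/-- a bound for all positions -/
theorem cj20_bound {n B : ℤ} (M : GObj n B) :
    ∃ R : ℤ, 0 ≤ R ∧ ∀ e, |(M.pos e).1| ≤ R ∧ |(M.pos e).2| ≤ R := by
  refine ⟨∑ e, (|(M.pos e).1| + |(M.pos e).2|),
    Finset.sum_nonneg fun e _ => add_nonneg (abs_nonneg _) (abs_nonneg _), fun e => ?_⟩
  have h := Finset.single_le_sum (f := fun e => |(M.pos e).1| + |(M.pos e).2|)
    (fun e _ => add_nonneg (abs_nonneg _) (abs_nonneg _)) (Finset.mem_univ e)
  have h1 := abs_nonneg (M.pos e).1
  have h2 := abs_nonneg (M.pos e).2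
  constructor
  · linarith
  · linarith

theorem cj20_U_of_nonneg {n B : ℤ} {p : ℤ × ℤ} (h1 : 0 ≤ p.1) (h2 : 0 ≤ p.2) : U n B p :=
  ⟨0, by simpa using h1, by simpa using h2⟩

theorem cj20_not_U {n B : ℤ} (hB : 0 < B) (hn : B < n) {p : ℤ × ℤ} (h1 : p.1 < 0)
    (h2 : p.2 < 0) : ¬ U n B p := by
  rintro ⟨k, hk1, hk2⟩
  rcases le_or_gt 0 k with hk | hk
  · have : 0 ≤ k * B := mul_nonneg hk hB.le
    linarith
  · have : 0 < k * (B - n) := mul_pos_of_neg_of_neg hk (by linarith)
    linarith

theorem exists_le_Sh {n B : ℤ} (hB : 0 < B) (hn : B < n) (M : GObj n B) :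
    ∃ l : ℤ, Le M (Sh n B hB.le hn.le) l := by
  obtain ⟨R, hR0, hR⟩ := cj20_bound M
  refine ⟨R, (le_Sh_iff hB hn M R).2 ⟨M.eps, fun e he => ⟨M.eps_deg e he, ?_⟩, M.eps_coc,
    M.pair⟩⟩
  apply cj20_U_of_nonneg
  · have := neg_abs_le (M.pos e).1
    have := (hR e).1
    simp only [Prod.fst_add]
    linarith
  · have := neg_abs_le (M.pos e).2
    have := (hR e).2
    simp only [Prod.snd_add]
    linarith

theorem exists_not_le_Sh {n B : ℤ} (hB : 0 < B) (hn : B < n) (M : GObj n B) :
    ∃ l0 : ℤ, ∀ l : ℤ, l < l0 → ¬ Le M (Sh n B hB.le hn.le) l := by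
  obtain ⟨R, hR0, hR⟩ := cj20_bound M
  refine ⟨-R, fun l hl h => ?_⟩
  obtain ⟨lam, h1, h2, h3⟩ := (le_Sh_iff hB hn M l).1 h
  have h0 : lam = 0 := by
    funext e
    by_contra hcon
    refine cj20_not_U hB hn ?_ ?_ (h1 e hcon).2
    · have := le_abs_self (M.pos e).1
      have := (hR e).1
      simp only [Prod.fst_add]
      linarith
    · have := le_abs_self (M.pos e).2
      have := (hR e).2
      simp only [Prod.snd_add]
      linarith
  rw [h0, dotProduct_zero] at h3
  exact zero_ne_one h3

theorem cj20_U_add {n B : ℤ} (p : ℤ × ℤ) : U n B (p + (B, B - n)) ↔ U n B p := by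
  constructor
  · rintro ⟨k, h1, h2⟩
    refine ⟨k - 1, ?_, ?_⟩
    · simp only [Prod.fst_add] at h1
      linarith [sub_one_mul k B]
    · simp only [Prod.snd_add] at h2
      linarith [sub_one_mul k (B - n)]
  · rintro ⟨k, h1, h2⟩
    refine ⟨k + 1, ?_, ?_⟩
    · simp only [Prod.fst_add]
      linarith [add_one_mul k B]
    · simp only [Prod.snd_add]
      linarith [add_one_mul k (B - n)]

/-- translation by `τ`: shifting positions by `(0,-n) = τ - B(1,1)` raises the level by `B` -/
theorem le_Sh_shift {n B : ℤ} (hB : 0 < B) (hn : B < n) (M : GObj n B) (l : ℤ) :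
    Le (M.shift (0, -n)) (Sh n B hB.le hn.le) (l + B) ↔ Le M (Sh n B hB.le hn.le) l := by
  have key : ∀ e : M.I, U n B ((M.pos e + (0, -n)) + (l + B, l + B)) ↔
      U n B (M.pos e + (l, l)) := by
    intro e
    rw [← cj20_U_add (M.pos e + (l, l))]
    have : (M.pos e + (0, -n)) + (l + B, l + B) = M.pos e + (l, l) + (B, B - n) := by
      ext
      · simp only [Prod.fst_add]
        ring
      · simp only [Prod.snd_add]
        ring
    rw [this]
  rw [le_Sh_iff hB hn, le_Sh_iff hB hn]
  constructor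
  · rintro ⟨lam, h1, h2, h3⟩
    exact ⟨lam, fun e he => ⟨(h1 e he).1, (key e).1 (h1 e he).2⟩, h2, h3⟩
  · rintro ⟨lam, h1, h2, h3⟩
    exact ⟨lam, fun e he => ⟨(h1 e he).1, (key e).2 (h1 e he).2⟩, h2, h3⟩

theorem le_L0_Sh {n B : ℤ} (hB : 0 < B) (hn : B < n) (l : ℤ) :
    Le (L0 n B) (Sh n B hB.le hn.le) l ↔ 0 ≤ l := by
  rw [le_Sh_iff hB hn]
  constructor
  · rintro ⟨lam, h1, h2, h3⟩
    by_contra hl
    push Not at hl
    have h0 : lam = 0 := by
      funext e
      by_contra hcon
      refine cj20_not_U hB hn ?_ ?_ (h1 e hcon).2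
      · simpa using hl
      · simpa using hl
    rw [h0, dotProduct_zero] at h3
    exact zero_ne_one h3
  · intro hl
    refine ⟨(L0 n B).eps, fun e _ => ⟨rfl, ?_⟩, (L0 n B).eps_coc, (L0 n B).pair⟩
    apply cj20_U_of_nonneg
    · simpa using hl
    · simpa using hl

end

end MWC
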