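import Pool.Agent.Lib.MP_cbfcf7.C4

/-!
# Words, the functors `Φ_u`, the function `c`
-/

namespace MWC

noncomputable section

open scoped Classical
open Matrix

/-- letters: `sig i`, its inverse, the rotation and its inverse -/
inductive Letter
  | sig (i : ℤ)
  | sigI (i : ℤ)
  | rho
  | rhoI

namespace Letter

def inv : Letter → Letter
  | sig i => sigI i
  | sigI i => sig i
  | rho => rhoI
  | rhoI => rho

theorem inv_inv (s : Letter) : s.inv.inv = s := by cases s <;> rfl

end Letter

/-- inverse word -/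
def winv (u : List Letter) : List Letter := (u.map Letter.inv).reverse

/-- action of a letter on objects -/
def act {n B : ℤ} (s : Letter) (M : GObj n B) : GObj n B :=
  match s with
  | Letter.sig i => gphi i M
  | Letter.sigI i => gpsi i M
  | Letter.rho => M.shift (0, -1)
  | Letter.rhoI => M.shift (0, 1)

/-- action of a word (the leftmost letter acts last) -/
def actW {n B : ℤ} (u : List Letter) (M : GObj n B) : GObj n B := u.foldr act M

theorem actW_append {n B : ℤ} (u v : List Letter) (M : GObj n B) :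
    actW (u ++ v) M = actW u (actW v M) := by
  unfold actW
  rw [List.foldr_append]

theorem le_act {n B : ℤ} (s : Letter) {M M' : GObj n B} {l : ℤ} (h : Le M M' l) :
    Le (act s M) (act s M') l := by
  cases s
  · exact le_gphi _ h
  · exact le_gpsi _ h
  · exact le_shift _ h
  · exact le_shift _ h

theorem le_actW {n B : ℤ} (u : List Letter) {M M' : GObj n B} {l : ℤ} (h : Le M M' l) :
    Le (actW u M) (actW u M') l := by
  induction u with
  | nil => exact h
  | cons s u ih => exact le_act s ih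

theorem act_inv {n B : ℤ} (h2 : 2 ≤ n) (s : Letter) (M : GObj n B) :
    Le M (act s.inv (act s M)) 0 ∧ Le (act s.inv (act s M)) M 0 := by
  cases s
  · exact le_psi_phi h2 _ M
  · exact le_phi_psi h2 _ M
  · exact le_shift_cancel M (by ext <;> simp)
  · exact le_shift_cancel M (by ext <;> simp)

theorem actW_winv {n B : ℤ} (h2 : 2 ≤ n) (u : List Letter) (M : GObj n B) :
    Le M (actW (winv u) (actW u M)) 0 ∧ Le (actW (winv u) (actW u M)) M 0 := by
  induction u generalizing M with
  | nil => exact ⟨le_refl M, le_refl M⟩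
  | cons s u ih =>
    have e : winv (s :: u) = winv u ++ [s.inv] := by simp [winv]
    rw [e, actW_append]
    have e2 : actW [s.inv] (actW (s :: u) M) = act s.inv (act s (actW u M)) := rfl
    rw [e2]
    have h := act_inv h2 s (actW u M)
    have h1 := le_actW (winv u) h.1
    have h2 := le_actW (winv u) h.2
    constructor
    · simpa using le_trans (ih M).1 h1
    · simpa using le_trans h2 (ih M).2

theorem winv_winv (u : List Letter) : winv (winv u) = u := by
  unfold winv
  rw [List.map_reverse, List.reverse_reverse, List.map_map]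
  have : Letter.inv ∘ Letter.inv = id := by
    funext s
    exact s.inv_inv
  rw [this, List.map_id]

theorem null_act {n B : ℤ} (hB : 0 ≤ B) (hn : B ≤ n) (s : Letter) {M : GObj n B}
    (h : Null M.toObj) : Null (act s M).toObj := by
  cases s
  · exact null_phi hB hn _ h
  · exact null_dual (null_phi hB hn _ (null_dual h))
  · obtain ⟨f, h1, h2, h3⟩ := h
    exact ⟨f, fun g e => by
      have := h1 g e
      have e1 : (M.pos g + (0, -1) - (M.pos e + (0, -1)) + (B, B) : ℤ × ℤ) =
        M.pos g - M.pos e + (B, B) := by abel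
      rw [← e1] at this
      exact this, h2, h3⟩
  · obtain ⟨f, h1, h2, h3⟩ := h
    exact ⟨f, fun g e => by
      have := h1 g e
      have e1 : (M.pos g + (0, 1) - (M.pos e + (0, 1)) + (B, B) : ℤ × ℤ) =
        M.pos g - M.pos e + (B, B) := by abel
      rw [← e1] at this
      exact this, h2, h3⟩

theorem hzero_act {n B : ℤ} (s : Letter) {M : GObj n B} {k : ℤ} (h : HZero M.toObj k) :
    HZero (act s M).toObj k := by
  cases s
  · exact hzero_phi _ h
  · have := hzero_dual (hzero_phi (-(by assumption : ℤ)) (hzero_dual h))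
    rw [neg_neg] at this
    exact this
  · exact h
  · exact h

theorem null_actW {n B : ℤ} (hB : 0 ≤ B) (hn : B ≤ n) (u : List Letter) {M : GObj n B}
    (h : Null M.toObj) : Null (actW u M).toObj := by
  induction u with
  | nil => exact h
  | cons s u ih => exact null_act hB hn s ih

theorem hzero_actW {n B : ℤ} (u : List Letter) {M : GObj n B} {k : ℤ} (h : HZero M.toObj k) :
    HZero (actW u M).toObj k := by
  induction u with
  | nil => exact h
  | cons s u ih => exact hzero_act s ih

/-- the minimal level of a map to the circle -/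
theorem exists_min {n B : ℤ} (hB : 0 < B) (hn : B < n) (M : GObj n B) :
    ∃ c : ℤ, ∀ l : ℤ, Le M (Sh n B hB.le hn.le) l ↔ c ≤ l := by
  obtain ⟨l1, h1⟩ := exists_le_Sh hB hn M
  obtain ⟨l0, h0⟩ := exists_not_le_Sh hB hn M
  obtain ⟨c, hc1, hc2⟩ := Int.exists_least_of_bdd
    (P := fun l => Le M (Sh n B hB.le hn.le) l)
    ⟨l0, fun l hl => by
      by_contra hcon
      exact h0 l (by omega) hl⟩ ⟨l1, h1⟩
  exact ⟨c, fun l => ⟨fun hl => hc2 l hl, fun hl => le_mono hl hc1⟩⟩

/-- the function `c` on objects -/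
def cO {n B : ℤ} (hB : 0 < B) (hn : B < n) (M : GObj n B) : ℤ := (exists_min hB hn M).choose

theorem cO_spec {n B : ℤ} (hB : 0 < B) (hn : B < n) (M : GObj n B) (l : ℤ) :
    Le M (Sh n B hB.le hn.le) l ↔ cO hB hn M ≤ l := (exists_min hB hn M).choose_spec l

theorem cO_le {n B : ℤ} (hB : 0 < B) (hn : B < n) {M M' : GObj n B} {l : ℤ} (h : Le M M' l) :
    cO hB hn M ≤ cO hB hn M' + l := by
  rw [← cO_spec hB hn]
  have := le_trans h ((cO_spec hB hn M' _).2 (_root_.le_refl _))
  rwa [add_comm] at this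

/-- the function `c` on words -/
def cW {n B : ℤ} (hB : 0 < B) (hn : B < n) (u : List Letter) : ℤ := cO hB hn (actW u (L0 n B))

/-- the upper defect of a word -/
def pW {n B : ℤ} (hB : 0 < B) (hn : B < n) (u : List Letter) : ℤ :=
  cO hB hn (actW u (Sh n B hB.le hn.le))

theorem cW_append_le {n B : ℤ} (hB : 0 < B) (hn : B < n) (u v : List Letter) :
    cW hB hn (u ++ v) ≤ cW hB hn v + pW hB hn u := by
  unfold cW pW
  rw [actW_append]
  have h1 := (cO_spec hB hn (actW v (L0 n B)) _).2 (_root_.le_refl _)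
  have h2 := le_actW u h1
  have := cO_le hB hn h2
  linarith

theorem cW_le_append {n B : ℤ} (hB : 0 < B) (hn : B < n) (u v : List Letter) :
    cW hB hn v ≤ cW hB hn (u ++ v) + pW hB hn (winv u) := by
  have h1 := cW_append_le hB hn (winv u) (u ++ v)
  have h2 : cW hB hn v ≤ cW hB hn (winv u ++ (u ++ v)) := by
    unfold cW
    rw [actW_append, actW_append]
    have := cO_le hB hn (actW_winv (by omega) u (actW v (L0 n B))).1
    linarith
  linarith

theorem pW_add_le {n B : ℤ} (hB : 0 < B) (hn : B < n) (u : List Letter) :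
    pW hB hn u + pW hB hn (winv u) ≤ B := by
  have hq : Le (Sh n B hB.le hn.le) (actW u (Sh n B hB.le hn.le)) (B - pW hB hn u) := by
    apply lemma_Q hB hn _ (hzero_actW u (hzero_Sh hB.le hn.le)) (null_actW hB.le hn.le u (null_Sh hB.le hn.le))
    rw [cO_spec]
    show ¬ (pW hB hn u ≤ pW hB hn u - 1)
    omega
  have h1 := le_actW (winv u) hq
  have h2 := le_trans h1 (actW_winv (by omega) u (Sh n B hB.le hn.le)).2
  have h3 := (cO_spec hB hn _ _).1 h2
  have h4 : pW hB hn (winv u) ≤ B - pW hB hn u + 0 := h3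
  linarith

/-- the full rotation, `T ^ m` for `m : ℕ` as a word -/
def wT (n : ℤ) : List Letter := List.replicate n.toNat Letter.rho

def wTI (n : ℤ) : List Letter := List.replicate n.toNat Letter.rhoI

theorem cj21_fil_one {n B : ℤ} {I : Type} [DecidableEq I] {d : I → I → ℤ × ℤ}
    (h : ∀ g, 0 ≤ d g g) (g e : I) : Fil n B (d g e) ((1 : Matrix I I A) g e) := by
  by_cases hge : g = e
  · subst hge
    rw [Matrix.one_apply_eq]
    exact fil_one (h g)
  · rw [Matrix.one_apply_ne hge]
    exact fil_zero _ _ _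

theorem cj21_to {n B : ℤ} (M : GObj n B) {q : ℤ × ℤ} {l : ℤ} (h : q ≤ (l, l)) :
    Le M (M.shift q) l := by
  refine ⟨(1 : Matrix M.I M.I A), ⟨?_, ?_, ?_⟩, ?_⟩
  · refine cj21_fil_one (d := fun g e => M.pos g - (M.pos e + q) + (l, l)) ?_
    intro g
    have e1 : M.pos g - (M.pos g + q) + (l, l) = (l, l) - q := by abel
    rw [e1]
    exact sub_nonneg.2 h
  · intro g e hne
    by_cases hge : g = e
    · subst hge
      rfl
    · exact absurd (Matrix.one_apply_ne hge) hne
  · show M.D * 1 = 1 * M.D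
    rw [Matrix.mul_one, Matrix.one_mul]
  · show (M.z ᵥ* ((1 : Matrix M.I M.I A).map ev)) ⬝ᵥ M.eps = 1
    rw [Matrix.map_one _ (map_zero ev) (map_one ev), Matrix.vecMul_one]
    exact M.pair

theorem cj21_from {n B : ℤ} (M : GObj n B) {q : ℤ × ℤ} {l : ℤ} (h : 0 ≤ q + (l, l)) :
    Le (M.shift q) M l := by
  refine ⟨(1 : Matrix M.I M.I A), ⟨?_, ?_, ?_⟩, ?_⟩
  · refine cj21_fil_one (d := fun g e => M.pos g + q - M.pos e + (l, l)) ?_
    intro g
    have e1 : M.pos g + q - M.pos g + (l, l) = q + (l, l) := by abel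
    rw [e1]
    exact h
  · intro g e hne
    by_cases hge : g = e
    · subst hge
      rfl
    · exact absurd (Matrix.one_apply_ne hge) hne
  · show M.D * 1 = 1 * M.D
    rw [Matrix.mul_one, Matrix.one_mul]
  · show (M.z ᵥ* ((1 : Matrix M.I M.I A).map ev)) ⬝ᵥ M.eps = 1
    rw [Matrix.map_one _ (map_zero ev) (map_one ev), Matrix.vecMul_one]
    exact M.pair

theorem cj21_comp {n B : ℤ} (M : GObj n B) (q q' : ℤ × ℤ) :
    Le ((M.shift q).shift q') (M.shift (q + q')) 0 ∧
      Le (M.shift (q + q')) ((M.shift q).shift q') 0 := by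
  constructor
  · refine ⟨(1 : Matrix M.I M.I A), ⟨?_, ?_, ?_⟩, ?_⟩
    · refine cj21_fil_one (d := fun g e => M.pos g + q + q' - (M.pos e + (q + q')) + (0, 0)) ?_
      intro g
      have e1 : M.pos g + q + q' - (M.pos g + (q + q')) + ((0, 0) : ℤ × ℤ) = 0 := by
        have : ((0, 0) : ℤ × ℤ) = 0 := rfl
        rw [this]
        abel
      rw [e1]
    · intro g e hne
      by_cases hge : g = e
      · subst hge
        rfl
      · exact absurd (Matrix.one_apply_ne hge) hne
    · show M.D * 1 = 1 * M.D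
      rw [Matrix.mul_one, Matrix.one_mul]
    · show (M.z ᵥ* ((1 : Matrix M.I M.I A).map ev)) ⬝ᵥ M.eps = 1
      rw [Matrix.map_one _ (map_zero ev) (map_one ev), Matrix.vecMul_one]
      exact M.pair
  · refine ⟨(1 : Matrix M.I M.I A), ⟨?_, ?_, ?_⟩, ?_⟩
    · refine cj21_fil_one (d := fun g e => M.pos g + (q + q') - (M.pos e + q + q') + (0, 0)) ?_
      intro g
      have e1 : M.pos g + (q + q') - (M.pos g + q + q') + ((0, 0) : ℤ × ℤ) = 0 := by
        have : ((0, 0) : ℤ × ℤ) = 0 := rfl
        rw [this]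
        abel
      rw [e1]
    · intro g e hne
      by_cases hge : g = e
      · subst hge
        rfl
      · exact absurd (Matrix.one_apply_ne hge) hne
    · show M.D * 1 = 1 * M.D
      rw [Matrix.mul_one, Matrix.one_mul]
    · show (M.z ᵥ* ((1 : Matrix M.I M.I A).map ev)) ⬝ᵥ M.eps = 1
      rw [Matrix.map_one _ (map_zero ev) (map_one ev), Matrix.vecMul_one]
      exact M.pair

theorem cj21_rep {n B : ℤ} (M : GObj n B) (k : ℕ) :
    Le (actW (List.replicate k Letter.rho) M) (M.shift (0, -(k : ℤ))) 0 ∧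
      Le (M.shift (0, -(k : ℤ))) (actW (List.replicate k Letter.rho) M) 0 := by
  induction k with
  | zero => exact ⟨cj21_to M ⟨by simp, by simp⟩, cj21_from M ⟨by simp, by simp⟩⟩
  | succ k ih =>
    have h1 := le_shift (0, -1) ih.1
    have h2 := le_shift (0, -1) ih.2
    have h3 := cj21_comp M (0, -(k : ℤ)) (0, -1)
    have e1 : ((0, -(k : ℤ)) + (0, -1) : ℤ × ℤ) = (0, -((k + 1 : ℕ) : ℤ)) := by
      ext
      · simp
      · simp
        ring
    rw [e1] at h3
    have h4 := le_trans h1 h3.1
    have h5 := le_trans h3.2 h2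
    rw [add_zero] at h4 h5
    exact ⟨h4, h5⟩

theorem cj21_eq {n B : ℤ} (hB : 0 < B) (hn : B < n) {M M' : GObj n B} (h : Le M M' 0)
    (h' : Le M' M 0) : cO hB hn M = cO hB hn M' := by
  have h1 := cO_le hB hn h
  have h2 := cO_le hB hn h'
  omega

theorem cW_nil {n B : ℤ} (hB : 0 < B) (hn : B < n) : cW hB hn [] = 0 := by
  have h : ∀ l : ℤ, cO hB hn (L0 n B) ≤ l ↔ 0 ≤ l := fun l => by
    rw [← cO_spec hB hn, le_L0_Sh hB hn]
  have h1 := (h 0).2 (_root_.le_refl _)
  have h2 := (h (cO hB hn (L0 n B))).1 (_root_.le_refl _)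
  show cO hB hn (L0 n B) = 0
  omega

theorem cW_T {n B : ℤ} (hB : 0 < B) (hn : B < n) (v : List Letter) :
    cW hB hn (wT n ++ v) = cW hB hn v + B := by
  unfold cW
  rw [actW_append]
  set M := actW v (L0 n B) with hM
  have h1 := cj21_rep M n.toNat
  have e1 : ((n.toNat : ℕ) : ℤ) = n := Int.toNat_of_nonneg (by omega)
  rw [e1] at h1
  have h2 : cO hB hn (actW (wT n) M) = cO hB hn (M.shift (0, -n)) := cj21_eq hB hn h1.1 h1.2
  rw [h2]
  have h3 : ∀ l : ℤ, cO hB hn (M.shift (0, -n)) ≤ l + B ↔ cO hB hn M ≤ l := fun l => by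
    rw [← cO_spec hB hn, ← cO_spec hB hn, le_Sh_shift hB hn]
  have h4 := (h3 (cO hB hn M)).2 (_root_.le_refl _)
  have h5 := (h3 (cO hB hn (M.shift (0, -n)) - B)).1 (by omega)
  omega

theorem cW_rho {n B : ℤ} (hB : 0 < B) (hn : B < n) (v : List Letter) :
    cW hB hn v ≤ cW hB hn (Letter.rho :: v) ∧ cW hB hn (Letter.rho :: v) ≤ cW hB hn v + 1 := by
  have h1 : Le (actW v (L0 n B)) ((actW v (L0 n B)).shift (0, -1)) 0 :=
    cj21_to _ ⟨by simp, by simp⟩
  have h2 : Le ((actW v (L0 n B)).shift (0, -1)) (actW v (L0 n B)) 1 :=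
    cj21_from _ ⟨by simp, by simp⟩
  have h3 := cO_le hB hn h1
  have h4 := cO_le hB hn h2
  have e1 : cW hB hn (Letter.rho :: v) = cO hB hn ((actW v (L0 n B)).shift (0, -1)) := rfl
  have e2 : cW hB hn v = cO hB hn (actW v (L0 n B)) := rfl
  rw [e1, e2]
  constructor
  · linarith
  · exact h4

theorem cW_sig {n B : ℤ} (hB : 0 < B) (hn : B < n) (i : ℤ) (v : List Letter) :
    cW hB hn v - 1 ≤ cW hB hn (Letter.sig i :: v) ∧
      cW hB hn (Letter.sig i :: v) ≤ cW hB hn v := by
  have h3 := cO_le hB hn (le_phi i (actW v (L0 n B)))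
  have h4 := cO_le hB hn (le_phi_one i (actW v (L0 n B)))
  have e1 : cW hB hn (Letter.sig i :: v) = cO hB hn (gphi i (actW v (L0 n B))) := rfl
  have e2 : cW hB hn v = cO hB hn (actW v (L0 n B)) := rfl
  rw [e1, e2]
  constructor
  · linarith
  · linarith

theorem cW_sig_neutral {n B : ℤ} (hB : 0 < B) (hn : B < n) (i : ℤ) (h0 : ¬ n ∣ i)
    (h1 : ¬ n ∣ B - i) (v : List Letter) :
    cW hB hn (Letter.sig i :: v) = cW hB hn v := by
  show cO hB hn (gphi i (actW v (L0 n B))) = cO hB hn (actW v (L0 n B))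
  set P := actW v (L0 n B) with hP
  apply le_antisymm
  · have := cO_le hB hn (le_phi i P)
    linarith
  · rw [← cO_spec hB hn]
    have e1 : Le (gphi i P) (Sh n B hB.le hn.le) (cO hB hn (gphi i P)) :=
      (cO_spec hB hn _ _).2 (_root_.le_refl _)
    have e2 := le_gpsi i e1
    have e3 : Le (Sh n B hB.le hn.le).dual (gphi (-i) (Sh n B hB.le hn.le).dual) 0 := by
      apply le_phi_of_empty
      intro e hcl
      rcases e with _ | _
      · apply h0
        have h3 : jj (-(0 : ℤ × ℤ)) - -i = i := by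
          unfold jj
          simp
        have h4 : n ∣ jj (-(0 : ℤ × ℤ)) - -i := hcl
        rwa [h3] at h4
      · apply h1
        have h3 : jj (-((B, 0) : ℤ × ℤ)) - -i = -(B - i) := by
          unfold jj
          simp only [Prod.fst_neg, Prod.snd_neg]
          ring
        have h4 : n ∣ jj (-((B, 0) : ℤ × ℤ)) - -i := hcl
        rw [h3] at h4
        exact (dvd_neg).1 h4
    have e4 := le_dual e3
    have e5 := (le_dual_dual (Sh n B hB.le hn.le)).2
    have e6 := le_trans (le_psi_phi (by omega) i P).1 (le_trans e2 (le_trans e4 e5))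
    simpa using e6

/-- outer rotation `rho sigma_{B-1} ... sigma_0` -/
def wOut (B : ℤ) : List Letter :=
  Letter.rho :: ((List.range B.toNat).reverse.map fun i => Letter.sig (i : ℤ))

/-- a functional supported at the positions in `W` -/
def cj22_HF {n B : ℤ} (M : GObj n B) (W : ℤ × ℤ → Prop) : Prop :=
  ∃ lam : M.I → ZMod 2, (∀ e, lam e ≠ 0 → M.deg e = 0 ∧ W (M.pos e)) ∧
    M.toObj.E *ᵥ lam = 0 ∧ M.z ⬝ᵥ lam = 1

theorem cj22_lamV {n B : ℤ} (i : ℤ) (M : Obj n B) (lam : M.I → ZMod 2) (e : M.I) :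
    (((pPi i M).map ev) *ᵥ lam) (Sum.inl e) = lam e := by
  have h1 : (((pPi i M).map ev) *ᵥ lam) (Sum.inl e) = ∑ h, ev ((1 : Matrix M.I M.I A) e h) * lam h := rfl
  rw [h1, Finset.sum_eq_single e]
  · rw [Matrix.one_apply_eq, map_one, one_mul]
  · intro h _ hh
    rw [Matrix.one_apply_ne (Ne.symm hh), map_zero, zero_mul]
  · intro h
    exact absurd (Finset.mem_univ e) h

theorem cj22_lamT {n B : ℤ} (i : ℤ) (M : Obj n B) (lam : M.I → ZMod 2) (e : CI i M) :
    (((pPi i M).map ev) *ᵥ lam) (Sum.inr (Sum.inl e)) = lam e.1 := by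
  have h1 : (((pPi i M).map ev) *ᵥ lam) (Sum.inr (Sum.inl e)) = ∑ h, ev (mP i M e h) * lam h := rfl
  rw [h1, Finset.sum_eq_single e.1]
  · unfold mP
    rw [Matrix.of_apply, if_pos rfl, map_one, one_mul]
  · intro h _ hh
    unfold mP
    rw [Matrix.of_apply, if_neg (Ne.symm hh), map_zero, zero_mul]
  · intro h
    exact absurd (Finset.mem_univ e.1) h

theorem cj22_lamU {n B : ℤ} (i : ℤ) (M : Obj n B) (lam : M.I → ZMod 2) (e : CI i M) :
    (((pPi i M).map ev) *ᵥ lam) (Sum.inr (Sum.inr e)) = 0 := by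
  have h1 : (((pPi i M).map ev) *ᵥ lam) (Sum.inr (Sum.inr e)) = ∑ h, ev (0 : A) * lam h := rfl
  rw [h1]
  simp

theorem cj22_step {n B : ℤ} (i : ℤ) (M : GObj n B) {W W' : ℤ × ℤ → Prop}
    (h1 : ∀ p, W p → ¬ Cl n i p → W' p)
    (h2 : ∀ p, W p → Cl n i p → W' (p + (0, 1)) ∧ W' (p + (1, 0)))
    (h : cj22_HF M W) : cj22_HF (gphi i M) W' := by
  obtain ⟨lam, hl1, hl2, hl3⟩ := h
  refine ⟨((pPi i M.toObj).map ev) *ᵥ lam, ?_, ?_, ?_⟩
  · intro e he
    rcases e with e | e | e
    · rw [cj22_lamV] at he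
      obtain ⟨d1, d2⟩ := hl1 e he
      refine ⟨d1, ?_⟩
      show W' (M.pos e + (if Cl n i (M.pos e) then (0, 1) else 0))
      by_cases hc : Cl n i (M.pos e)
      · rw [if_pos hc]
        exact (h2 _ d2 hc).1
      · rw [if_neg hc, add_zero]
        exact h1 _ d2 hc
    · rw [cj22_lamT] at he
      obtain ⟨d1, d2⟩ := hl1 e.1 he
      exact ⟨d1, (h2 _ d2 e.2).2⟩
    · rw [cj22_lamU] at he
      exact absurd rfl he
  · show ((pD i M.toObj).map ev) *ᵥ (((pPi i M.toObj).map ev) *ᵥ lam) = 0
    rw [Matrix.mulVec_mulVec, ← Matrix.map_mul, pPi_comm, Matrix.map_mul, ← Matrix.mulVec_mulVec]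
    have : (M.toObj.D.map ev) *ᵥ lam = 0 := hl2
    rw [this, Matrix.mulVec_zero]
  · show pZ i M ⬝ᵥ (((pPi i M.toObj).map ev) *ᵥ lam) = 1
    unfold dotProduct
    rw [Fintype.sum_sum_type, Fintype.sum_sum_type]
    simp only [cj22_lamV, cj22_lamT, cj22_lamU, mul_zero, Finset.sum_const_zero, add_zero]
    have e1 : ∀ e : CI i M.toObj, pZ i M (Sum.inr (Sum.inl e)) * lam e.1 = 0 := by
      intro e
      show 0 * lam e.1 = 0
      rw [zero_mul]
    simp only [e1, Finset.sum_const_zero, add_zero]
    exact hl3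

theorem cj22_U_up {n B : ℤ} {p q : ℤ × ℤ} (h : p ≤ q) (hp : U n B p) : U n B q := by
  obtain ⟨k, h1, h2⟩ := hp
  exact ⟨k, h1.trans h.1, h2.trans h.2⟩

/-- the explicit sets -/
def cj22_W (n B l : ℤ) (k : ℕ) (p : ℤ × ℤ) : Prop :=
  U n B (p + (l, l)) ∧ ∀ m a : ℤ, 0 ≤ a → a < k → p + (l, l) ≠ (m * B + a, m * (B - n))

/-- the word `sigma_{k-1} ... sigma_0` -/
def cj22_w (k : ℕ) : List Letter := (List.range k).reverse.map (fun i : ℕ => Letter.sig (i : ℤ))

theorem cj22_wOut (B : ℤ) : wOut B = Letter.rho :: cj22_w B.toNat := by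
  unfold wOut cj22_w
  congr 1
  generalize (List.range B.toNat).reverse = L
  induction L with
  | nil => rfl
  | cons a L ih =>
    rw [List.map_cons, ← ih]
    rfl

theorem cj22_main {n B : ℤ} (hB : 0 < B) (hn : B < n) (M : GObj n B) (l : ℤ)
    (h : Le M (Sh n B hB.le hn.le) l) (k : ℕ) (hk : k ≤ B.toNat) :
    cj22_HF (actW (cj22_w k) M) (cj22_W n B l k) := by
  induction k with
  | zero =>
    obtain ⟨lam, h1, h2, h3⟩ := (le_Sh_iff hB hn M l).1 h
    refine ⟨lam, fun e he => ⟨(h1 e he).1, (h1 e he).2, ?_⟩, h2, h3⟩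
    intro m a ha1 ha2
    exfalso
    push_cast at ha2
    omega
  | succ k ih =>
    have ih' := ih (by omega)
    have hw : cj22_w (k + 1) = Letter.sig (k : ℤ) :: cj22_w k := by
      unfold cj22_w
      rw [List.range_succ, List.reverse_append, List.reverse_singleton, List.singleton_append, List.map_cons]
    rw [hw]
    have hkB : (k : ℤ) < B := by omega
    refine cj22_step (k : ℤ) _ ?_ ?_ ih'
    · rintro p ⟨hp1, hp2⟩ hc
      refine ⟨hp1, fun m a ha1 ha2 heq => ?_⟩
      by_cases hak : a < k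
      · exact hp2 m a ha1 hak heq
      · have hak' : a = k := by
          push_cast at ha2
          omega
        subst hak'
        apply hc
        have e1 := congrArg Prod.fst heq
        have e2 := congrArg Prod.snd heq
        simp only [Prod.fst_add, Prod.snd_add] at e1 e2
        unfold Cl jj
        refine ⟨m, ?_⟩
        have : m * (B - n) = m * B - m * n := by ring
        rw [this] at e2
        have e3 : n * m = m * n := by ring
        linarith
    · rintro p ⟨hp1, hp2⟩ hc
      obtain ⟨m', hm1, hm2⟩ := hp1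
      simp only [Prod.fst_add, Prod.snd_add] at hm1 hm2
      refine ⟨⟨⟨m', by simp only [Prod.fst_add, Prod.snd_add]; linarith,
        by simp only [Prod.fst_add, Prod.snd_add]; linarith⟩, ?_⟩,
        ⟨⟨m', by simp only [Prod.fst_add, Prod.snd_add]; linarith,
        by simp only [Prod.fst_add, Prod.snd_add]; linarith⟩, ?_⟩⟩
      · intro m a ha1 ha2 heq
        have e1 := congrArg Prod.fst heq
        have e2 := congrArg Prod.snd heq
        simp only [Prod.fst_add, Prod.snd_add] at e1 e2
        push_cast at ha2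
        have hlt : m < m' := by
          by_contra hcon
          have : m' * (B - n) ≥ m * (B - n) := by nlinarith
          linarith
        have : m' * B ≥ (m + 1) * B := by nlinarith
        have e3 : (m + 1) * B = m * B + B := by ring
        linarith
      · intro m a ha1 ha2 heq
        have e1 := congrArg Prod.fst heq
        have e2 := congrArg Prod.snd heq
        simp only [Prod.fst_add, Prod.snd_add] at e1 e2
        push_cast at ha2
        by_cases ha0 : a = 0
        · have hlt : m' < m := by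
            by_contra hcon
            have : m' * B ≥ m * B := by nlinarith
            linarith
          have : m' * (B - n) ≥ (m - 1) * (B - n) := by nlinarith
          have e3 : (m - 1) * (B - n) = m * (B - n) + (n - B) := by ring
          linarith
        · apply hp2 m (a - 1) (by omega) (by omega)
          apply Prod.ext
          · simp only [Prod.fst_add]
            linarith
          · simp only [Prod.snd_add]
            linarith

theorem cW_out {n B : ℤ} (hB : 0 < B) (hn : B < n) (v : List Letter) :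
    cW hB hn (wOut B ++ v) ≤ cW hB hn v := by
  unfold cW
  rw [← cO_spec hB hn]
  set M := actW v (L0 n B) with hM
  set l := cO hB hn M with hl
  have hle : Le M (Sh n B hB.le hn.le) l := (cO_spec hB hn M l).2 (_root_.le_refl _)
  have h1 := cj22_main hB hn M l hle B.toNat (_root_.le_refl _)
  rw [le_Sh_iff hB hn]
  obtain ⟨lam, h2, h3, h4⟩ := h1
  rw [actW_append, cj22_wOut]
  refine ⟨lam, fun e he => ?_, h3, h4⟩
  obtain ⟨d1, d2, d3⟩ := h2 e he
  refine ⟨d1, ?_⟩
  obtain ⟨m, hm1, hm2⟩ := d2
  set q := (actW (cj22_w B.toNat) M).pos e with hq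
  show U n B (q + (0, -1) + (l, l))
  simp only [Prod.fst_add, Prod.snd_add] at hm1 hm2
  have hdm := Int.emod_add_mul_ediv (q.1 + l) B
  have hd0 := Int.emod_nonneg (q.1 + l) hB.ne'
  have hd1 := Int.emod_lt_of_pos (q.1 + l) hB
  set m' := (q.1 + l) / B with hm'
  set a := (q.1 + l) % B with ha
  have hmm : m ≤ m' := by
    by_contra hcon
    have : m * B ≥ (m' + 1) * B := by nlinarith
    have e3 : (m' + 1) * B = B * m' + B := by ring
    linarith
  refine ⟨m', ?_, ?_⟩
  · simp only [Prod.fst_add]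
    have : m' * B = B * m' := by ring
    linarith
  · simp only [Prod.snd_add]
    have h5 : m' * (B - n) ≤ m * (B - n) := by nlinarith
    have h6 : m' * (B - n) ≠ q.2 + l := by
      intro hcon
      apply d3 m' a hd0 (by omega)
      apply Prod.ext
      · simp only [Prod.fst_add]
        have : m' * B = B * m' := by ring
        linarith
      · simp only [Prod.snd_add]
        linarith
    have h7 : m' * (B - n) < q.2 + l := lt_of_le_of_ne (h5.trans hm2) h6
    linarith

end

end MWC
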