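import Pool.Agent.Lib.MP_cbfcf7.C5

/-!
# Labels in the free group, positivity of arcs
-/

namespace MWC

noncomputable section

open scoped Classical
open Matrix

/-- the free group on the gates -/
abbrev G : Type := FreeGroup ℤ

/-- the vertical arc through the gate `j` -/
def gL (j : ℤ) : G := FreeGroup.of j

/-- `σ_i` on `G` as an endomorphism -/
def sigE (n i : ℤ) : G →* G :=
  FreeGroup.lift fun j => if n ∣ j - i then gL (j - 1) * (gL j)⁻¹ * gL (j + 1) else gL j

/-- `σ_i⁻¹` on `G` as an endomorphism -/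
def sigIE (n i : ℤ) : G →* G :=
  FreeGroup.lift fun j => if n ∣ j - i then gL (j + 1) * (gL j)⁻¹ * gL (j - 1) else gL j

theorem cj23_ndvd {n : ℤ} (hn : 2 ≤ n) (i j : ℤ) (h : n ∣ j - i) :
    ¬ n ∣ j - 1 - i ∧ ¬ n ∣ j + 1 - i := by
  constructor
  · intro h'
    have h1 : n ∣ (j - i) - (j - 1 - i) := dvd_sub h h'
    have e : (j - i) - (j - 1 - i) = 1 := by ring
    rw [e] at h1
    have := Int.le_of_dvd (by norm_num) h1
    omega
  · intro h'
    have h1 : n ∣ (j + 1 - i) - (j - i) := dvd_sub h' h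
    have e : (j + 1 - i) - (j - i) = 1 := by ring
    rw [e] at h1
    have := Int.le_of_dvd (by norm_num) h1
    omega

theorem cj23_sigE (n i j : ℤ) :
    sigE n i (gL j) = if n ∣ j - i then gL (j - 1) * (gL j)⁻¹ * gL (j + 1) else gL j :=
  FreeGroup.lift_apply_of

theorem cj23_sigIE (n i j : ℤ) :
    sigIE n i (gL j) = if n ∣ j - i then gL (j + 1) * (gL j)⁻¹ * gL (j - 1) else gL j :=
  FreeGroup.lift_apply_of

theorem sig_sigI {n : ℤ} (hn : 2 ≤ n) (i : ℤ) :
    (sigE n i).comp (sigIE n i) = MonoidHom.id G ∧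
      (sigIE n i).comp (sigE n i) = MonoidHom.id G := by
  constructor
  · apply FreeGroup.ext_hom
    intro j
    show sigE n i (sigIE n i (gL j)) = gL j
    rw [cj23_sigIE]
    by_cases h : n ∣ j - i
    · obtain ⟨h1, h2⟩ := cj23_ndvd hn i j h
      rw [if_pos h]
      simp only [map_mul, map_inv, cj23_sigE, if_pos h, if_neg h1, if_neg h2]
      group
    · rw [if_neg h, cj23_sigE, if_neg h]
  · apply FreeGroup.ext_hom
    intro j
    show sigIE n i (sigE n i (gL j)) = gL j
    rw [cj23_sigE]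
    by_cases h : n ∣ j - i
    · obtain ⟨h1, h2⟩ := cj23_ndvd hn i j h
      rw [if_pos h]
      simp only [map_mul, map_inv, cj23_sigIE, if_pos h, if_neg h1, if_neg h2]
      group
    · rw [if_neg h, cj23_sigIE, if_neg h]

/-- `σ_i` as an automorphism of `G` -/
def sigG {n : ℤ} (hn : 2 ≤ n) (i : ℤ) : MulAut G :=
  MonoidHom.toMulEquiv (sigE n i) (sigIE n i) (sig_sigI hn i).2 (sig_sigI hn i).1

/-- shift of the gates by `k` -/
def shG (k : ℤ) : MulAut G := FreeGroup.freeGroupCongr (Equiv.addRight k)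

/-- mirror image -/
def mirG : MulAut G := FreeGroup.freeGroupCongr (Equiv.neg ℤ)

/-- letters acting on `G` -/
def evL {n : ℤ} (hn : 2 ≤ n) : Letter → MulAut G
  | Letter.sig i => sigG hn i
  | Letter.sigI i => (sigG hn i)⁻¹
  | Letter.rho => shG 1
  | Letter.rhoI => shG (-1)

/-- words acting on `G` -/
def evW {n : ℤ} (hn : 2 ≤ n) (u : List Letter) : MulAut G := (u.map (evL hn)).prod

/-- the restriction of the complex with matrix `D` to the index set `S` is acyclic -/
def Acyc {I : Type} [Fintype I] (D : Matrix I I (ZMod 2)) (S : Set I) : Prop :=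
  ∀ v : I → ZMod 2, (∀ e, e ∉ S → v e = 0) → (∀ e ∈ S, (v ᵥ* D) e = 0) →
    ∃ w : I → ZMod 2, (∀ e, e ∉ S → w e = 0) ∧ ∀ e ∈ S, (w ᵥ* D) e = v e

/-- the restriction of `D` to `S` squares to zero -/
def SqZ {I : Type} [Fintype I] (D : Matrix I I (ZMod 2)) (S : Set I) : Prop :=
  ∀ g ∈ S, ∀ k ∈ S, ∑ h, (if h ∈ S then D g h * D h k else 0) = 0

/-- restriction of a vector to a set -/
def cj24_res {I : Type} (S : Set I) (v : I → ZMod 2) : I → ZMod 2 :=
  fun e => if e ∈ S then v e else 0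

theorem cj24_res_of_mem {I : Type} {S : Set I} (v : I → ZMod 2) {e : I} (he : e ∈ S) :
    cj24_res S v e = v e := if_pos he

theorem cj24_res_of_notMem {I : Type} {S : Set I} (v : I → ZMod 2) {e : I} (he : e ∉ S) :
    cj24_res S v e = 0 := if_neg he

theorem cj24_nm {I : Type} {S₁ S₂ : Set I} {e : I} (h1 : e ∉ S₁) (h2 : e ∉ S₂) : e ∉ S₁ ∪ S₂ :=
  fun h => h.elim h1 h2

theorem cj24_self (a : ZMod 2) : a + a = 0 := CharTwo.add_self_eq_zero a

/-- applying the restricted differential twice gives zero -/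
theorem cj24_sq {I : Type} [Fintype I] (D : Matrix I I (ZMod 2)) (S : Set I) (hsq : SqZ D S)
    (x : I → ZMod 2) (hx : ∀ e, e ∉ S → x e = 0) (e : I) (he : e ∈ S) :
    (cj24_res S (x ᵥ* D) ᵥ* D) e = 0 := by
  have h1 : (cj24_res S (x ᵥ* D) ᵥ* D) e
      = ∑ g, x g * ∑ h, (if h ∈ S then D g h * D h e else 0) := by
    unfold cj24_res
    simp only [Matrix.vecMul, dotProduct]
    simp only [Finset.mul_sum]
    rw [Finset.sum_comm]
    refine Finset.sum_congr rfl fun h _ => ?_
    by_cases hh : h ∈ S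
    · simp only [if_pos hh]
      rw [Finset.sum_mul]
      refine Finset.sum_congr rfl fun g _ => ?_
      ring
    · simp [hh]
  rw [h1]
  refine Finset.sum_eq_zero fun g _ => ?_
  by_cases hg : g ∈ S
  · rw [hsq g hg e he, mul_zero]
  · rw [hx g hg, zero_mul]

/-- vectors supported in the closed part have no component in the quotient part -/
theorem cj24_zero {I : Type} [Fintype I] (D : Matrix I I (ZMod 2)) (S₁ S₂ : Set I)
    (hc : ∀ g ∈ S₂, ∀ h ∈ S₁, D g h = 0) (x : I → ZMod 2) (hx : ∀ e, e ∉ S₂ → x e = 0)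
    (e : I) (he : e ∈ S₁) : (x ᵥ* D) e = 0 := by
  simp only [Matrix.vecMul, dotProduct]
  refine Finset.sum_eq_zero fun g _ => ?_
  by_cases hg : g ∈ S₂
  · rw [hc g hg e he, mul_zero]
  · rw [hx g hg, zero_mul]

/-- the component in the quotient part only depends on the quotient part of the vector -/
theorem cj24_quot {I : Type} [Fintype I] (D : Matrix I I (ZMod 2)) (S₁ S₂ : Set I)
    (hc : ∀ g ∈ S₂, ∀ h ∈ S₁, D g h = 0) (x : I → ZMod 2)
    (hx : ∀ e, e ∉ S₁ ∪ S₂ → x e = 0) (e : I) (he : e ∈ S₁) :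
    (cj24_res S₁ x ᵥ* D) e = (x ᵥ* D) e := by
  simp only [Matrix.vecMul, dotProduct]
  refine Finset.sum_congr rfl fun g _ => ?_
  by_cases h1 : g ∈ S₁
  · rw [cj24_res_of_mem x h1]
  · rw [cj24_res_of_notMem x h1, zero_mul]
    by_cases h2 : g ∈ S₂
    · rw [hc g h2 e he, mul_zero]
    · rw [hx g (fun h => h.elim h1 h2), zero_mul]

/-- Two out of three: `S = S₁ ⊔ S₂` with `S₂` closed under `D`. -/
theorem acyc_union {I : Type} [Fintype I] (D : Matrix I I (ZMod 2)) (S S₁ S₂ : Set I)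
    (hS : S = S₁ ∪ S₂) (hd : Disjoint S₁ S₂) (hc : ∀ g ∈ S₂, ∀ h ∈ S₁, D g h = 0)
    (hsq : SqZ D S) (h1 : Acyc D S₁) (h2 : Acyc D S₂) : Acyc D S := by
  subst hS
  have hd' : ∀ e ∈ S₁, e ∉ S₂ := fun e he he' => Set.disjoint_left.mp hd he he'
  intro v hv hvD
  obtain ⟨w1, hw1, hw1D⟩ := h1 (cj24_res S₁ v) (fun e he => cj24_res_of_notMem v he)
    (fun e he => by rw [cj24_quot D S₁ S₂ hc v hv e he]; exact hvD e (Or.inl he))
  have hw1' : ∀ e, e ∉ S₁ ∪ S₂ → w1 e = 0 := fun e he => hw1 e (fun h => he (Or.inl h))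
  have hu : ∀ e, e ∉ S₂ → (v + cj24_res (S₁ ∪ S₂) (w1 ᵥ* D)) e = 0 := by
    intro e he
    rw [Pi.add_apply]
    by_cases he1 : e ∈ S₁
    · rw [cj24_res_of_mem _ (Set.mem_union_left S₂ he1), hw1D e he1, cj24_res_of_mem v he1, cj24_self]
    · rw [cj24_res_of_notMem _ (cj24_nm he1 he), hv e (cj24_nm he1 he), add_zero]
  obtain ⟨w2, hw2, hw2D⟩ := h2 (v + cj24_res (S₁ ∪ S₂) (w1 ᵥ* D)) hu (fun e he => by
    rw [Matrix.add_vecMul, Pi.add_apply, hvD e (Or.inr he),
      cj24_sq D (S₁ ∪ S₂) hsq w1 hw1' e (Or.inr he), add_zero])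
  refine ⟨w1 + w2, ?_, ?_⟩
  · intro e he
    rw [Pi.add_apply, hw1 e (fun h => he (Or.inl h)), hw2 e (fun h => he (Or.inr h)), add_zero]
  · rintro e (he | he)
    · rw [Matrix.add_vecMul, Pi.add_apply, hw1D e he, cj24_zero D S₁ S₂ hc w2 hw2 e he,
        cj24_res_of_mem v he, add_zero]
    · rw [Matrix.add_vecMul, Pi.add_apply, hw2D e he, Pi.add_apply,
        cj24_res_of_mem _ (Set.mem_union_right S₁ he), add_left_comm, cj24_self, add_zero]

theorem acyc_left {I : Type} [Fintype I] (D : Matrix I I (ZMod 2)) (S S₁ S₂ : Set I)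
    (hS : S = S₁ ∪ S₂) (hd : Disjoint S₁ S₂) (hc : ∀ g ∈ S₂, ∀ h ∈ S₁, D g h = 0)
    (hsq : SqZ D S) (h : Acyc D S) (h2 : Acyc D S₂) : Acyc D S₁ := by
  subst hS
  have hd' : ∀ e ∈ S₁, e ∉ S₂ := fun e he he' => Set.disjoint_left.mp hd he he'
  intro v hv hvD
  have hv' : ∀ e, e ∉ S₁ ∪ S₂ → v e = 0 := fun e he => hv e (fun h => he (Or.inl h))
  have hceq : cj24_res S₂ (v ᵥ* D) = cj24_res (S₁ ∪ S₂) (v ᵥ* D) := by
    funext e
    by_cases he2 : e ∈ S₂
    · rw [cj24_res_of_mem _ he2, cj24_res_of_mem _ (Set.mem_union_right S₁ he2)]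
    · by_cases he1 : e ∈ S₁
      · rw [cj24_res_of_notMem _ he2, cj24_res_of_mem _ (Set.mem_union_left S₂ he1), hvD e he1]
      · rw [cj24_res_of_notMem _ he2, cj24_res_of_notMem _ (cj24_nm he1 he2)]
  obtain ⟨w2, hw2, hw2D⟩ := h2 (cj24_res S₂ (v ᵥ* D)) (fun e he => cj24_res_of_notMem _ he)
    (fun e he => by
      rw [hceq]
      exact cj24_sq D (S₁ ∪ S₂) hsq v hv' e (Or.inr he))
  obtain ⟨w, hw, hwD⟩ := h (v + w2) (fun e he => by
      rw [Pi.add_apply, hv' e he, hw2 e (fun h => he (Or.inr h)), add_zero]) (by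
      rintro e (he | he)
      · rw [Matrix.add_vecMul, Pi.add_apply, hvD e he, cj24_zero D S₁ S₂ hc w2 hw2 e he, add_zero]
      · rw [Matrix.add_vecMul, Pi.add_apply, hw2D e he, cj24_res_of_mem _ he, cj24_self])
  refine ⟨cj24_res S₁ w, fun e he => cj24_res_of_notMem _ he, fun e he => ?_⟩
  rw [cj24_quot D S₁ S₂ hc w hw e he, hwD e (Or.inl he), Pi.add_apply, hw2 e (hd' e he), add_zero]

theorem acyc_right {I : Type} [Fintype I] (D : Matrix I I (ZMod 2)) (S S₁ S₂ : Set I)
    (hS : S = S₁ ∪ S₂) (hd : Disjoint S₁ S₂) (hc : ∀ g ∈ S₂, ∀ h ∈ S₁, D g h = 0)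
    (hsq : SqZ D S) (h : Acyc D S) (h1 : Acyc D S₁) : Acyc D S₂ := by
  subst hS
  have hd' : ∀ e ∈ S₁, e ∉ S₂ := fun e he he' => Set.disjoint_left.mp hd he he'
  intro v hv hvD
  have hv' : ∀ e, e ∉ S₁ ∪ S₂ → v e = 0 := fun e he => hv e (fun h => he (Or.inr h))
  obtain ⟨w, hw, hwD⟩ := h v hv' (by
    rintro e (he | he)
    · exact cj24_zero D S₁ S₂ hc v hv e he
    · exact hvD e he)
  obtain ⟨x, hx, hxD⟩ := h1 (cj24_res S₁ w) (fun e he => cj24_res_of_notMem _ he) (fun e he => by
    rw [cj24_quot D S₁ S₂ hc w hw e he, hwD e (Or.inl he), hv e (hd' e he)])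
  have hx' : ∀ e, e ∉ S₁ ∪ S₂ → x e = 0 := fun e he => hx e (fun h => he (Or.inl h))
  refine ⟨w + cj24_res (S₁ ∪ S₂) (x ᵥ* D), ?_, ?_⟩
  · intro e he
    rw [Pi.add_apply]
    by_cases he1 : e ∈ S₁
    · rw [cj24_res_of_mem _ (Set.mem_union_left S₂ he1), hxD e he1, cj24_res_of_mem w he1, cj24_self]
    · rw [cj24_res_of_notMem _ (cj24_nm he1 he), hw e (cj24_nm he1 he), add_zero]
  · intro e he
    rw [Matrix.add_vecMul, Pi.add_apply, hwD e (Or.inr he),
      cj24_sq D (S₁ ∪ S₂) hsq x hx' e (Or.inr he), add_zero]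

/-- `SqZ` is inherited by order convex subsets -/
theorem cj25_sqz {I : Type} [Fintype I] (D : Matrix I I (ZMod 2)) (S T : Set I) (hT : T ⊆ S)
    (hsq : SqZ D S) (hconv : ∀ g ∈ T, ∀ k ∈ T, ∀ h ∈ S, h ∉ T → D g h * D h k = 0) : SqZ D T := by
  intro g hg k hk
  refine Eq.trans ?_ (hsq g (hT hg) k (hT hk))
  refine Finset.sum_congr rfl fun h _ => ?_
  by_cases h1 : h ∈ T
  · rw [if_pos h1, if_pos (hT h1)]
  · rw [if_neg h1]
    by_cases h2 : h ∈ S
    · rw [if_pos h2, hconv g hg k hk h h2 h1]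
    · rw [if_neg h2]

theorem cj25_empty {I : Type} [Fintype I] (D : Matrix I I (ZMod 2)) (S : Set I) (hS : S = ∅) :
    Acyc D S := by
  subst hS
  intro v _ _
  exact ⟨0, fun _ _ => rfl, fun e he => absurd he (Set.notMem_empty e)⟩

theorem acyc_of_levels {I : Type} [Fintype I] (D : Matrix I I (ZMod 2)) (S : Set I) (f : I → ℤ)
    (hf : ∀ g ∈ S, ∀ h ∈ S, D g h ≠ 0 → f g ≤ f h) (hsq : SqZ D S)
    (h : ∀ j : ℤ, Acyc D {e | e ∈ S ∧ f e = j}) : Acyc D S := by
  set N : ℤ := 1 + ∑ e, |f e| with hN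
  have hb : ∀ e, |f e| < N := by
    intro e
    have := Finset.single_le_sum (f := fun e => |f e|) (fun i _ => abs_nonneg (f i))
      (Finset.mem_univ e)
    rw [hN]
    have h2 : |f e| ≤ ∑ e, |f e| := this
    omega
  have key : ∀ m : ℕ, Acyc D {e | e ∈ S ∧ N - m ≤ f e} := by
    intro m
    induction m with
    | zero =>
      apply cj25_empty
      rw [Set.eq_empty_iff_forall_notMem]
      rintro e ⟨_, he⟩
      have h1 := hb e
      have h2 := le_abs_self (f e)
      push_cast at he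
      omega
    | succ m ih =>
      refine acyc_union D _ {e | e ∈ S ∧ f e = N - (m + 1 : ℕ)} {e | e ∈ S ∧ N - m ≤ f e}
        ?_ ?_ ?_ ?_ (h _) ih
      · ext e
        simp only [Set.mem_ofPred_eq, Set.mem_union]
        push_cast
        constructor
        · rintro ⟨h1, h2⟩
          by_cases h3 : f e = N - (m + 1)
          · exact Or.inl ⟨h1, h3⟩
          · exact Or.inr ⟨h1, by omega⟩
        · rintro (⟨h1, h2⟩ | ⟨h1, h2⟩)
          · exact ⟨h1, by omega⟩
          · exact ⟨h1, by omega⟩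
      · rw [Set.disjoint_left]
        rintro e ⟨_, h2⟩ ⟨_, h3⟩
        push_cast at h2
        omega
      · rintro g ⟨hg, hg'⟩ k ⟨hk, hk'⟩
        by_contra h1
        have := hf g hg k hk h1
        push_cast at hk'
        omega
      · refine cj25_sqz D S _ (fun e he => he.1) hsq ?_
        rintro g ⟨hg, hg'⟩ k ⟨hk, hk'⟩ x hx hxT
        by_cases h1 : D g x = 0
        · rw [h1, zero_mul]
        · exfalso
          have := hf g hg x hx h1
          exact hxT ⟨hx, by omega⟩
  have hfin := key (2 * N).toNat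
  have hSe : {e | e ∈ S ∧ N - ((2 * N).toNat : ℕ) ≤ f e} = S := by
    ext e
    simp only [Set.mem_ofPred_eq]
    constructor
    · exact fun h1 => h1.1
    · intro h1
      refine ⟨h1, ?_⟩
      have h2 := hb e
      have h3 := neg_abs_le (f e)
      have h4 := abs_nonneg (f e)
      omega
  rwa [hSe] at hfin

theorem acyc_level {I : Type} [Fintype I] (D : Matrix I I (ZMod 2)) (S : Set I) (f : I → ℤ)
    (hf : ∀ g ∈ S, ∀ h ∈ S, D g h ≠ 0 → f g ≤ f h) (hsq : SqZ D S) (j₀ : ℤ)
    (hS : Acyc D S)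
    (h : ∀ j : ℤ, j ≠ j₀ → Acyc D {e | e ∈ S ∧ f e = j}) : Acyc D {e | e ∈ S ∧ f e = j₀} := by
  -- closed subsets
  have hsqge : SqZ D {e | e ∈ S ∧ j₀ ≤ f e} := by
    refine cj25_sqz D S _ (fun e he => he.1) hsq ?_
    rintro g ⟨hg, hg'⟩ k ⟨hk, hk'⟩ x hx hxT
    by_cases h1 : D g x = 0
    · rw [h1, zero_mul]
    · exfalso
      have := hf g hg x hx h1
      exact hxT ⟨hx, by omega⟩
  have hsqgt : SqZ D {e | e ∈ S ∧ j₀ < f e} := by
    refine cj25_sqz D S _ (fun e he => he.1) hsq ?_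
    rintro g ⟨hg, hg'⟩ k ⟨hk, hk'⟩ x hx hxT
    by_cases h1 : D g x = 0
    · rw [h1, zero_mul]
    · exfalso
      have := hf g hg x hx h1
      exact hxT ⟨hx, by omega⟩
  have hsqlt : SqZ D {e | e ∈ S ∧ f e < j₀} := by
    refine cj25_sqz D S _ (fun e he => he.1) hsq ?_
    rintro g ⟨hg, hg'⟩ k ⟨hk, hk'⟩ x hx hxT
    by_cases h1 : D x k = 0
    · rw [h1, mul_zero]
    · exfalso
      have := hf x hx k hk h1
      exact hxT ⟨hx, by omega⟩
  have hlt : Acyc D {e | e ∈ S ∧ f e < j₀} := by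
    refine acyc_of_levels D _ f (fun g hg k hk => hf g hg.1 k hk.1) hsqlt fun j => ?_
    by_cases hj : j < j₀
    · have e1 : {e | e ∈ {e | e ∈ S ∧ f e < j₀} ∧ f e = j} = {e | e ∈ S ∧ f e = j} := by
        ext e
        simp only [Set.mem_ofPred_eq]
        constructor
        · rintro ⟨⟨h1, _⟩, h3⟩
          exact ⟨h1, h3⟩
        · rintro ⟨h1, h3⟩
          exact ⟨⟨h1, by omega⟩, h3⟩
      rw [e1]
      exact h j (by omega)
    · apply cj25_empty
      rw [Set.eq_empty_iff_forall_notMem]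
      rintro e ⟨⟨_, h2⟩, h3⟩
      omega
  have hgt : Acyc D {e | e ∈ S ∧ j₀ < f e} := by
    refine acyc_of_levels D _ f (fun g hg k hk => hf g hg.1 k hk.1) hsqgt fun j => ?_
    by_cases hj : j₀ < j
    · have e1 : {e | e ∈ {e | e ∈ S ∧ j₀ < f e} ∧ f e = j} = {e | e ∈ S ∧ f e = j} := by
        ext e
        simp only [Set.mem_ofPred_eq]
        constructor
        · rintro ⟨⟨h1, _⟩, h3⟩
          exact ⟨h1, h3⟩
        · rintro ⟨h1, h3⟩
          exact ⟨⟨h1, by omega⟩, h3⟩
      rw [e1]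
      exact h j (by omega)
    · apply cj25_empty
      rw [Set.eq_empty_iff_forall_notMem]
      rintro e ⟨⟨_, h2⟩, h3⟩
      omega
  have hge : Acyc D {e | e ∈ S ∧ j₀ ≤ f e} := by
    refine acyc_right D S {e | e ∈ S ∧ f e < j₀} {e | e ∈ S ∧ j₀ ≤ f e} ?_ ?_ ?_ hsq hS hlt
    · ext e
      simp only [Set.mem_ofPred_eq, Set.mem_union]
      constructor
      · intro h1
        by_cases h2 : f e < j₀
        · exact Or.inl ⟨h1, h2⟩
        · exact Or.inr ⟨h1, by omega⟩
      · rintro (h1 | h1)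
        · exact h1.1
        · exact h1.1
    · rw [Set.disjoint_left]
      rintro e ⟨_, h2⟩ ⟨_, h3⟩
      omega
    · rintro g ⟨hg, hg'⟩ k ⟨hk, hk'⟩
      by_contra h1
      have := hf g hg k hk h1
      omega
  refine acyc_left D {e | e ∈ S ∧ j₀ ≤ f e} {e | e ∈ S ∧ f e = j₀} {e | e ∈ S ∧ j₀ < f e}
    ?_ ?_ ?_ hsqge hge hgt
  · ext e
    simp only [Set.mem_ofPred_eq, Set.mem_union]
    constructor
    · rintro ⟨h1, h2⟩
      by_cases h3 : f e = j₀
      · exact Or.inl ⟨h1, h3⟩
      · exact Or.inr ⟨h1, by omega⟩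
    · rintro (⟨h1, h2⟩ | ⟨h1, h2⟩)
      · exact ⟨h1, by omega⟩
      · exact ⟨h1, by omega⟩
  · rw [Set.disjoint_left]
    rintro e ⟨_, h2⟩ ⟨_, h3⟩
    omega
  · rintro g ⟨hg, hg'⟩ k ⟨hk, hk'⟩
    by_contra h1
    have := hf g hg k hk h1
    omega

theorem cj26_sum {I : Type} [Fintype I] (D : Matrix I I (ZMod 2)) (S : Set I) (x : I → ZMod 2) (e : I) (he : e ∈ S) :
    ((fun g => if g ∈ S then x g else 0) ᵥ* D) e =
      (x ᵥ* (Matrix.of fun g h => if g ∈ S ∧ h ∈ S then D g h else 0)) e := by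
  simp only [Matrix.vecMul, dotProduct, Matrix.of_apply]
  refine Finset.sum_congr rfl fun g _ => ?_
  by_cases hg : g ∈ S
  · simp [hg, he]
  · simp [hg]

theorem cj26_sum' {I : Type} [Fintype I] (D : Matrix I I (ZMod 2)) (S : Set I) (w : I → ZMod 2) (e : I) (he : e ∈ S) :
    (D *ᵥ (fun g => if g ∈ S then w g else 0)) e =
      ((Matrix.of fun g h => if g ∈ S ∧ h ∈ S then D g h else 0) *ᵥ w) e := by
  simp only [Matrix.mulVec, dotProduct, Matrix.of_apply]
  refine Finset.sum_congr rfl fun g _ => ?_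
  by_cases hg : g ∈ S
  · simp [hg, he]
  · simp [hg]

/-- duality of acyclicity -/
theorem acyc_transpose {I : Type} [Fintype I] (D : Matrix I I (ZMod 2)) (S : Set I)
    (hsq : SqZ D S) (h : Acyc D S) : Acyc Dᵀ S := by
  intro v hv hD
  have hD' : ∀ e ∈ S, (D *ᵥ v) e = 0 := by
    intro e he
    have := hD e he
    rwa [Matrix.vecMul_transpose] at this
  obtain ⟨w, hw⟩ := exists_mulVec_of_ker (Matrix.of fun g h => if g ∈ S ∧ h ∈ S then D g h else 0) v (by
    intro x hx
    obtain ⟨u, hu1, hu2⟩ := h (fun g => if g ∈ S then x g else 0) (fun e he => if_neg he) (by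
      intro e he
      rw [cj26_sum D S x e he, hx]
      rfl)
    have h1 : x ⬝ᵥ v = (u ᵥ* D) ⬝ᵥ v := by
      simp only [dotProduct]
      refine Finset.sum_congr rfl fun e _ => ?_
      by_cases he : e ∈ S
      · rw [hu2 e he]
        simp [he]
      · rw [hv e he, mul_zero, mul_zero]
    rw [h1, ← Matrix.dotProduct_mulVec]
    simp only [dotProduct]
    refine Finset.sum_eq_zero fun e _ => ?_
    by_cases he : e ∈ S
    · rw [hD' e he, mul_zero]
    · rw [hu1 e he, zero_mul])
  refine ⟨fun g => if g ∈ S then w g else 0, fun e he => if_neg he, fun e he => ?_⟩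
  rw [Matrix.vecMul_transpose, cj26_sum' D S w e he, hw]

/-- Labels of the generators of a ray object: `x e` is the below vertex of the edge of `e`, and
`x e * gL (jj (pos e))` the above vertex; `a0` is the arc. -/
structure Lab {n B : ℤ} (M : Obj n B) (a0 : G) (x : M.I → G) : Prop where
  const : ∀ g h k, k ≠ 0 → (M.D g h).coeff k = 0
  tb : ∀ g h, M.D g h ≠ 0 → (M.pos g).1 = (M.pos h).1 → x g = x h
  tt : ∀ g h, M.D g h ≠ 0 → (M.pos g).2 = (M.pos h).2 →
    x g * gL (jj (M.pos g)) = x h * gL (jj (M.pos h))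
  ab : ∀ (f : G) (a : ℤ), ¬ (f = 1 ∧ a = 0) → Acyc M.E {e | x e = f ∧ (M.pos e).1 = a}
  at' : ∀ (c : G) (b : ℤ), c ≠ a0 →
    Acyc M.E {e | x e * gL (jj (M.pos e)) = c ∧ (M.pos e).2 = b}

theorem cj27_empty {I : Type} [Fintype I] (D : Matrix I I (ZMod 2)) (S : Set I) (hS : ∀ e, e ∉ S) : Acyc D S := by
  intro v hv _
  exact ⟨0, fun _ _ => rfl, fun e he => absurd he (hS e)⟩

theorem lab_L0 (n B : ℤ) : Lab (L0 n B).toObj (gL 0) (fun _ => 1) where
  const := fun g h k _ => by
    show ((0 : Matrix Unit Unit A) g h).coeff k = 0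
    simp
  tb := fun g h hne => absurd rfl hne
  tt := fun g h hne => absurd rfl hne
  ab := fun f a hfa => by
    refine cj27_empty _ _ fun e he => hfa ?_
    exact ⟨he.1.symm, he.2.symm⟩
  at' := fun c b hc => by
    refine cj27_empty _ _ fun e he => hc ?_
    have h1 := he.1
    have h2 : jj ((L0 n B).pos e) = 0 := rfl
    rw [h2, one_mul] at h1
    exact h1.symm

/-- new labels for `Φ_i` -/
def pLab {n B : ℤ} (hn : 2 ≤ n) (i : ℤ) (M : Obj n B) (x : M.I → G) : PI i M → G
  | Sum.inl e => sigG hn i (x e)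
  | Sum.inr (Sum.inl e) => sigG hn i (x e.1) * gL (jj (M.pos e.1) - 1) * (gL (jj (M.pos e.1)))⁻¹
  | Sum.inr (Sum.inr e) => sigG hn i (x e.1) * gL (jj (M.pos e.1) - 1) * (gL (jj (M.pos e.1)))⁻¹

/-- constant Laurent polynomials -/
def cj29_cst (a : A) : Prop := ∀ k : ℤ, k ≠ 0 → a.coeff k = 0

theorem cj29_cst_zero : cj29_cst 0 := by
  intro k _
  simp

theorem cj29_cst_one : cj29_cst 1 := by
  intro k hk
  rw [← sp_zero, coeff_sp, if_neg hk]

theorem cj29_cst_add {a b : A} (ha : cj29_cst a) (hb : cj29_cst b) : cj29_cst (a + b) := by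
  intro k hk
  simp [ha k hk, hb k hk]

theorem cj29_cst_sum {ι : Type*} (s : Finset ι) (f : ι → A) (h : ∀ i ∈ s, cj29_cst (f i)) :
    cj29_cst (∑ i ∈ s, f i) := by
  induction s using Finset.induction_on with
  | empty => simpa using cj29_cst_zero
  | insert a s ha ih =>
    rw [Finset.sum_insert ha]
    exact cj29_cst_add (h a (Finset.mem_insert_self a s))
      (ih fun i hi => h i (Finset.mem_insert_of_mem hi))

theorem cj29_cst_mul {a b : A} (ha : cj29_cst a) (hb : cj29_cst b) : cj29_cst (a * b) := by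
  intro k hk
  by_contra hne
  have hk' : k ∈ (a * b).coeff.support := by simpa using hne
  have := AddMonoidAlgebra.support_coeff_mul_subset a b hk'
  rw [Finset.mem_add] at this
  obtain ⟨x, hx, y, hy, rfl⟩ := this
  have hx0 : x = 0 := by
    by_contra h
    exact (by simpa using hx : a.coeff x ≠ 0) (ha x h)
  have hy0 : y = 0 := by
    by_contra h
    exact (by simpa using hy : b.coeff y ≠ 0) (hb y h)
  apply hk
  rw [hx0, hy0, add_zero]

theorem cj29_cst_part {a : A} (P : ℤ → Prop) (ha : cj29_cst a) : cj29_cst (part P a) := by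
  intro k hk
  rw [coeff_part, ha k hk]
  simp

theorem cj29_cst_matmul {α β γ : Type*} [Fintype β] {X : Matrix α β A} {Y : Matrix β γ A}
    (hX : ∀ g h, cj29_cst (X g h)) (hY : ∀ g h, cj29_cst (Y g h)) (g : α) (h : γ) :
    cj29_cst ((X * Y) g h) := by
  rw [Matrix.mul_apply]
  exact cj29_cst_sum _ _ fun k _ => cj29_cst_mul (hX g k) (hY k h)

theorem cj29_cst_mA {n B : ℤ} (i : ℤ) {M : Obj n B} (h : ∀ g h, cj29_cst (M.D g h)) :
    ∀ g e, cj29_cst (mA i M g e) := by
  intro g e
  exact cj29_cst_part _ (h g e.1)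

theorem cj29_cst_mB {n B : ℤ} (i : ℤ) {M : Obj n B} (h : ∀ g h, cj29_cst (M.D g h)) :
    ∀ g e, cj29_cst (mB i M g e) := by
  intro g e
  exact cj29_cst_part _ (h g.1 e.1)

theorem cj29_cst_mP {n B : ℤ} (i : ℤ) (M : Obj n B) : ∀ g e, cj29_cst (mP i M g e) := by
  intro g e
  unfold mP
  rw [Matrix.of_apply]
  split_ifs
  · exact cj29_cst_one
  · exact cj29_cst_zero

theorem cj29_cst_matadd {α β : Type*} {X Y : Matrix α β A}
    (hX : ∀ g h, cj29_cst (X g h)) (hY : ∀ g h, cj29_cst (Y g h)) (g : α) (h : β) :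
    cj29_cst ((X + Y) g h) := by
  rw [Matrix.add_apply]
  exact cj29_cst_add (hX g h) (hY g h)

theorem cj29_cst_mC {n B : ℤ} (i : ℤ) {M : Obj n B} (h : ∀ g h, cj29_cst (M.D g h)) :
    ∀ g e, cj29_cst (mC i M g e) :=
  cj29_cst_matadd (cj29_cst_matmul h (cj29_cst_mA i h))
    (cj29_cst_matmul (cj29_cst_mA i h) (cj29_cst_mB i h))

theorem cj29_VV {n B : ℤ} (i : ℤ) (M : Obj n B) (g h : M.I) :
    pD i M (Sum.inl g) (Sum.inl h) = pVV i M g h := rfl

theorem cj29_VT {n B : ℤ} (i : ℤ) (M : Obj n B) (g : M.I) (h : CI i M) :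
    pD i M (Sum.inl g) (Sum.inr (Sum.inl h)) = mA i M g h := rfl

theorem cj29_VU {n B : ℤ} (i : ℤ) (M : Obj n B) (g : M.I) (h : CI i M) :
    pD i M (Sum.inl g) (Sum.inr (Sum.inr h)) = mC i M g h := rfl

theorem cj29_TV {n B : ℤ} (i : ℤ) (M : Obj n B) (g : CI i M) (h : M.I) :
    pD i M (Sum.inr (Sum.inl g)) (Sum.inl h) = pTV i M g h := rfl

theorem cj29_TT {n B : ℤ} (i : ℤ) (M : Obj n B) (g h : CI i M) :
    pD i M (Sum.inr (Sum.inl g)) (Sum.inr (Sum.inl h)) = pTT i M g h := rfl

theorem cj29_TU {n B : ℤ} (i : ℤ) (M : Obj n B) (g h : CI i M) :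
    pD i M (Sum.inr (Sum.inl g)) (Sum.inr (Sum.inr h)) = pTU i M g h := rfl

theorem cj29_UV {n B : ℤ} (i : ℤ) (M : Obj n B) (g : CI i M) (h : M.I) :
    pD i M (Sum.inr (Sum.inr g)) (Sum.inl h) = mP i M g h := rfl

theorem cj29_UT {n B : ℤ} (i : ℤ) (M : Obj n B) (g h : CI i M) :
    pD i M (Sum.inr (Sum.inr g)) (Sum.inr (Sum.inl h)) = (1 : Matrix (CI i M) (CI i M) A) g h := rfl

theorem cj29_UU {n B : ℤ} (i : ℤ) (M : Obj n B) (g h : CI i M) :
    pD i M (Sum.inr (Sum.inr g)) (Sum.inr (Sum.inr h)) = mB i M g h := rfl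

theorem lab_phi_const {n B : ℤ} (i : ℤ) {M : Obj n B}
    (h : ∀ g h k, k ≠ 0 → (M.D g h).coeff k = 0) :
    ∀ g h k, k ≠ 0 → ((phi i M).D g h).coeff k = 0 := by
  have hD : ∀ g h, cj29_cst (M.D g h) := h
  have hA := cj29_cst_mA i hD
  have hB := cj29_cst_mB i hD
  have hP := cj29_cst_mP i M
  have hC := cj29_cst_mC i hD
  have key : ∀ g e, cj29_cst (pD i M g e) := by
    intro g e
    rcases g with g | g | g <;> rcases e with e | e | e
    · rw [cj29_VV]
      exact cj29_cst_matadd hD (cj29_cst_matmul hA hP) g e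
    · rw [cj29_VT]
      exact hA g e
    · rw [cj29_VU]
      exact hC g e
    · rw [cj29_TV]
      exact cj29_cst_matadd (cj29_cst_matmul hP hD)
        (cj29_cst_matmul (cj29_cst_matadd (cj29_cst_matmul hP hA) hB) hP) g e
    · rw [cj29_TT]
      exact cj29_cst_matadd (cj29_cst_matmul hP hA) hB g e
    · rw [cj29_TU]
      exact cj29_cst_matadd (cj29_cst_matmul hP hC) (cj29_cst_matmul hB hB) g e
    · rw [cj29_UV]
      exact hP g e
    · rw [cj29_UT, Matrix.one_apply]
      split_ifs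
      · exact cj29_cst_one
      · exact cj29_cst_zero
    · rw [cj29_UU]
      exact hB g e
  exact key

/-! nonzero entries -/

theorem cj29_mul_ne {α β γ : Type*} [Fintype β] {X : Matrix α β A} {Y : Matrix β γ A} {g : α} {h : γ}
    (hne : (X * Y) g h ≠ 0) : ∃ k, X g k ≠ 0 ∧ Y k h ≠ 0 := by
  by_contra hcon
  push Not at hcon
  apply hne
  rw [Matrix.mul_apply]
  apply Finset.sum_eq_zero
  intro k _
  by_cases hk : X g k = 0
  · rw [hk, zero_mul]
  · rw [hcon k hk, mul_zero]

theorem cj29_add_ne {α β : Type*} {X Y : Matrix α β A} {g : α} {h : β}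
    (hne : (X + Y) g h ≠ 0) : X g h ≠ 0 ∨ Y g h ≠ 0 := by
  by_contra hcon
  push Not at hcon
  apply hne
  rw [Matrix.add_apply, hcon.1, hcon.2, add_zero]

theorem cj29_mP_ne {n B : ℤ} {i : ℤ} {M : Obj n B} {g : CI i M} {h : M.I} (hne : mP i M g h ≠ 0) : g.1 = h := by
  by_contra hcon
  apply hne
  unfold mP
  rw [Matrix.of_apply, if_neg hcon]

/-- displacement of a nonzero constant entry -/
theorem cj29_disp {n B : ℤ} {M : Obj n B} (hc : ∀ g h k, k ≠ 0 → (M.D g h).coeff k = 0) {g h : M.I}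
    (hne : M.D g h ≠ 0) : (M.pos h).1 ≤ (M.pos g).1 ∧ (M.pos h).2 ≤ (M.pos g).2 := by
  have h0 : (M.D g h).coeff 0 ≠ 0 := by
    intro h0
    apply hne
    ext k
    by_cases hk : k = 0
    · rw [hk, h0]
      simp
    · rw [hc g h k hk]
      simp
  have := M.fil g h 0 h0
  simp only [zero_mul, Prod.fst_sub, Prod.snd_sub] at this
  constructor <;> linarith [this.1, this.2]

theorem cj29_part {a : A} (hc : ∀ k : ℤ, k ≠ 0 → a.coeff k = 0) {P : ℤ → Prop} (hne : part P a ≠ 0) :
    a ≠ 0 ∧ P 0 := by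
  refine ⟨part_ne_zero hne, ?_⟩
  by_contra hP
  apply hne
  ext k
  rw [coeff_part]
  by_cases hk : k = 0
  · rw [hk, if_neg hP]
    simp
  · rw [hc k hk]
    simp

theorem cj29_DT {n B : ℤ} {M : Obj n B} (hc : ∀ g h k, k ≠ 0 → (M.D g h).coeff k = 0) {g h : M.I}
    (hne : DT M g h ≠ 0) : M.D g h ≠ 0 ∧ jj (M.pos h) < jj (M.pos g) := by
  unfold DT at hne
  rw [Matrix.of_apply] at hne
  obtain ⟨h1, h2⟩ := cj29_part (hc g h) hne
  refine ⟨h1, ?_⟩
  rw [zero_mul] at h2
  linarith

theorem cj29_DZ {n B : ℤ} {M : Obj n B} (hc : ∀ g h k, k ≠ 0 → (M.D g h).coeff k = 0) {g h : M.I}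
    (hne : DZ M g h ≠ 0) : M.D g h ≠ 0 ∧ jj (M.pos g) = jj (M.pos h) := by
  unfold DZ at hne
  rw [Matrix.of_apply] at hne
  obtain ⟨h1, h2⟩ := cj29_part (hc g h) hne
  refine ⟨h1, ?_⟩
  rw [zero_mul] at h2
  linarith

/-- the entries of `mC` -/
theorem cj29_mC {n B : ℤ} {i : ℤ} {M : Obj n B} (hc : ∀ g h k, k ≠ 0 → (M.D g h).coeff k = 0) {g : M.I}
    {h : CI i M} (hne : mC i M g h ≠ 0) :
    (∃ k, M.D g k ≠ 0 ∧ M.D k h.1 ≠ 0 ∧ jj (M.pos h.1) < jj (M.pos k)) ∨
    (∃ k : CI i M, M.D g k.1 ≠ 0 ∧ jj (M.pos k.1) < jj (M.pos g) ∧ M.D k.1 h.1 ≠ 0 ∧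
      jj (M.pos k.1) = jj (M.pos h.1)) := by
  unfold mC at hne
  rcases cj29_add_ne hne with h1 | h1
  · left
    obtain ⟨k, hk1, hk2⟩ := cj29_mul_ne h1
    have := cj29_DT hc hk2
    exact ⟨k, hk1, this.1, this.2⟩
  · right
    obtain ⟨k, hk1, hk2⟩ := cj29_mul_ne h1
    have e1 := cj29_DT hc hk1
    have e2 := cj29_DZ hc hk2
    exact ⟨k, e1.1, e1.2, e2.1, e2.2⟩

/-- action of the automorphism on the letters -/
theorem cj29_sig_cl {n : ℤ} (hn : 2 ≤ n) (i j : ℤ) (h : n ∣ j - i) :
    sigG hn i (gL j) = gL (j - 1) * (gL j)⁻¹ * gL (j + 1) := by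
  show sigE n i (gL j) = _
  unfold sigE gL
  rw [FreeGroup.lift_apply_of, if_pos h]

theorem cj29_sig_ncl {n : ℤ} (hn : 2 ≤ n) (i j : ℤ) (h : ¬ n ∣ j - i) :
    sigG hn i (gL j) = gL j := by
  show sigE n i (gL j) = _
  unfold sigE gL
  rw [FreeGroup.lift_apply_of, if_neg h]

theorem cj29_ndvd_succ {n : ℤ} (hn : 2 ≤ n) {i j : ℤ} (h : n ∣ j - i) : ¬ n ∣ j + 1 - i := by
  intro h1
  have h2 : n ∣ (j + 1 - i) - (j - i) := dvd_sub h1 h
  have e : (j + 1 - i) - (j - i) = 1 := by ring
  rw [e] at h2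
  have := Int.le_of_dvd one_pos h2
  omega

/-- the basic computation: `x g L_{j+1} = x h L_j` with `j` of class `i` -/
theorem cj29_basic {n : ℤ} (hn : 2 ≤ n) {i j : ℤ} (h : n ∣ j - i) {x y : G}
    (hxy : x * gL (j + 1) = y * gL j) :
    sigG hn i x = sigG hn i y * gL (j - 1) * (gL j)⁻¹ := by
  have h1 := congrArg (sigG hn i) hxy
  rw [map_mul, map_mul, cj29_sig_cl hn i j h, cj29_sig_ncl hn i (j + 1) (cj29_ndvd_succ hn h)] at h1
  have h2 : sigG hn i x = sigG hn i y * (gL (j - 1) * (gL j)⁻¹ * gL (j + 1)) * (gL (j + 1))⁻¹ :=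
    eq_mul_inv_of_mul_eq h1
  rw [h2]
  group

/-- a pure step upwards -/
theorem cj29_step {n B : ℤ} (hn : 2 ≤ n) {i : ℤ} {M : Obj n B} {a0 : G} {x : M.I → G}
    (h : Lab M a0 x) {k e : M.I} (he : Cl n i (M.pos e)) (hD : M.D k e ≠ 0)
    (hj : jj (M.pos e) < jj (M.pos k)) (hal : (M.pos k).1 ≤ (M.pos e).1 + 1) :
    sigG hn i (x k) = sigG hn i (x e) * gL (jj (M.pos e) - 1) * (gL (jj (M.pos e)))⁻¹ := by
  have h1 := cj29_disp h.const hD
  have h2 : (M.pos k).2 = (M.pos e).2 := by
    unfold jj at hj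
    omega
  have h3 : jj (M.pos k) = jj (M.pos e) + 1 := by
    unfold jj at hj ⊢
    omega
  have h4 := h.tt k e hD h2
  rw [h3] at h4
  exact cj29_basic hn he h4

theorem cj29_pos_V {n B : ℤ} (i : ℤ) (M : Obj n B) (g : M.I) :
    (pPos i M (Sum.inl g)).1 = (M.pos g).1 := by
  show (M.pos g + (if Cl n i (M.pos g) then (0, 1) else 0)).1 = (M.pos g).1
  split_ifs <;> simp

theorem cj29_pos_T {n B : ℤ} (i : ℤ) (M : Obj n B) (g : CI i M) :
    (pPos i M (Sum.inr (Sum.inl g))).1 = (M.pos g.1).1 + 1 := rfl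

theorem cj29_pos_U {n B : ℤ} (i : ℤ) (M : Obj n B) (g : CI i M) :
    (pPos i M (Sum.inr (Sum.inr g))).1 = (M.pos g.1).1 + 1 := rfl

theorem lab_phi_tb {n B : ℤ} (hn : 3 ≤ n) (i : ℤ) {M : Obj n B} {a0 : G} {x : M.I → G}
    (h : Lab M a0 x) (g e : (phi i M).I) (hne : (phi i M).D g e ≠ 0)
    (hp : ((phi i M).pos g).1 = ((phi i M).pos e).1) :
    pLab (by omega) i M x g = pLab (by omega) i M x e := by
  have hn2 : (2 : ℤ) ≤ n := by omega
  have hc := h.const
  have hne' : pD i M g e ≠ 0 := hne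
  have hp' : (pPos i M g).1 = (pPos i M e).1 := hp
  clear hne hp
  rcases g with g | g | g <;> rcases e with e | e | e
  · -- VV
    rw [cj29_pos_V, cj29_pos_V] at hp'
    rw [cj29_VV] at hne'
    have hD : M.D g e ≠ 0 := by
      rcases cj29_add_ne hne' with h1 | h1
      · exact h1
      · obtain ⟨k, hk1, hk2⟩ := cj29_mul_ne h1
        have e1 := cj29_mP_ne hk2
        rw [← e1]
        exact (cj29_DT hc hk1).1
    show sigG hn2 i (x g) = sigG hn2 i (x e)
    rw [h.tb g e hD hp']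
  · -- VT
    rw [cj29_pos_V, cj29_pos_T] at hp'
    rw [cj29_VT] at hne'
    have h1 := cj29_DT hc hne'
    exact cj29_step hn2 h e.2 h1.1 h1.2 (by omega)
  · -- VU
    rw [cj29_pos_V, cj29_pos_U] at hp'
    rw [cj29_VU] at hne'
    show sigG hn2 i (x g) = sigG hn2 i (x e.1) * gL (jj (M.pos e.1) - 1) * (gL (jj (M.pos e.1)))⁻¹
    rcases cj29_mC hc hne' with ⟨k, h1, h2, h3⟩ | ⟨k, h1, h2, h3, h4⟩
    · have d1 := cj29_disp hc h1
      have d2 := cj29_disp hc h2
      have hk : (M.pos g).1 = (M.pos k).1 := by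
        unfold jj at h3
        omega
      rw [h.tb g k h1 hk]
      exact cj29_step hn2 h e.2 h2 h3 (by omega)
    · have d1 := cj29_disp hc h1
      have d2 := cj29_disp hc h3
      have hk : (M.pos k.1).1 = (M.pos e.1).1 := by
        unfold jj at h2
        omega
      rw [← h.tb k.1 e.1 h3 hk, ← h4]
      exact cj29_step hn2 h k.2 h1 h2 (by omega)
  · -- TV
    exfalso
    rw [cj29_pos_T, cj29_pos_V] at hp'
    rw [cj29_TV] at hne'
    have hD : M.D g.1 e ≠ 0 := by
      rcases cj29_add_ne hne' with h1 | h1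
      · obtain ⟨k, hk1, hk2⟩ := cj29_mul_ne h1
        rw [cj29_mP_ne hk1]
        exact hk2
      · obtain ⟨k, hk1, hk2⟩ := cj29_mul_ne h1
        rw [← cj29_mP_ne hk2]
        rcases cj29_add_ne hk1 with h2 | h2
        · obtain ⟨l, hl1, hl2⟩ := cj29_mul_ne h2
          rw [cj29_mP_ne hl1]
          exact (cj29_DT hc hl2).1
        · exact (cj29_DZ hc h2).1
    have := (cj29_disp hc hD).1
    omega
  · -- TT
    rw [cj29_pos_T, cj29_pos_T] at hp'
    rw [cj29_TT] at hne'
    show sigG hn2 i (x g.1) * gL (jj (M.pos g.1) - 1) * (gL (jj (M.pos g.1)))⁻¹ =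
      sigG hn2 i (x e.1) * gL (jj (M.pos e.1) - 1) * (gL (jj (M.pos e.1)))⁻¹
    rcases cj29_add_ne hne' with h2 | h2
    · exfalso
      obtain ⟨l, hl1, hl2⟩ := cj29_mul_ne h2
      have e1 := cj29_mP_ne hl1
      have e2 := cj29_DT hc hl2
      rw [← e1] at e2
      have e3 := cj29_disp hc e2.1
      have e4 := e2.2
      unfold jj at e4
      omega
    · have e2 := cj29_DZ hc h2
      rw [h.tb g.1 e.1 e2.1 (by omega), e2.2]
  · -- TU
    rw [cj29_pos_T, cj29_pos_U] at hp'
    rw [cj29_TU] at hne'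
    show sigG hn2 i (x g.1) * gL (jj (M.pos g.1) - 1) * (gL (jj (M.pos g.1)))⁻¹ =
      sigG hn2 i (x e.1) * gL (jj (M.pos e.1) - 1) * (gL (jj (M.pos e.1)))⁻¹
    rcases cj29_add_ne hne' with h2 | h2
    · exfalso
      obtain ⟨l, hl1, hl2⟩ := cj29_mul_ne h2
      have e1 := cj29_mP_ne hl1
      rw [← e1] at hl2
      rcases cj29_mC hc hl2 with ⟨k, h1, h2, h3⟩ | ⟨k, h1, h2, h3, h4⟩
      · have d1 := cj29_disp hc h1
        have d2 := cj29_disp hc h2
        unfold jj at h3
        omega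
      · have d1 := cj29_disp hc h1
        have d2 := cj29_disp hc h3
        unfold jj at h2
        omega
    · obtain ⟨k, hk1, hk2⟩ := cj29_mul_ne h2
      have e1 := cj29_DZ hc hk1
      have e2 := cj29_DZ hc hk2
      have d1 := cj29_disp hc e1.1
      have d2 := cj29_disp hc e2.1
      rw [h.tb g.1 k.1 e1.1 (by omega), h.tb k.1 e.1 e2.1 (by omega), e1.2, e2.2]
  · -- UV
    exfalso
    rw [cj29_pos_U, cj29_pos_V] at hp'
    rw [cj29_UV] at hne'
    rw [cj29_mP_ne hne'] at hp'
    omega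
  · -- UT
    rw [cj29_UT, Matrix.one_apply] at hne'
    have e1 : g = e := by
      by_contra hcon
      rw [if_neg hcon] at hne'
      exact hne' rfl
    rw [e1]
    rfl
  · -- UU
    rw [cj29_pos_U, cj29_pos_U] at hp'
    rw [cj29_UU] at hne'
    have e1 := cj29_DZ hc hne'
    show sigG hn2 i (x g.1) * gL (jj (M.pos g.1) - 1) * (gL (jj (M.pos g.1)))⁻¹ =
      sigG hn2 i (x e.1) * gL (jj (M.pos e.1) - 1) * (gL (jj (M.pos e.1)))⁻¹
    rw [h.tb g.1 e.1 e1.1 (by omega), e1.2]

theorem cj30_VV {n B : ℤ} (i : ℤ) (M : Obj n B) (g h : M.I) :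
    pD i M (Sum.inl g) (Sum.inl h) = pVV i M g h := rfl

theorem cj30_VT {n B : ℤ} (i : ℤ) (M : Obj n B) (g : M.I) (h : CI i M) :
    pD i M (Sum.inl g) (Sum.inr (Sum.inl h)) = mA i M g h := rfl

theorem cj30_VU {n B : ℤ} (i : ℤ) (M : Obj n B) (g : M.I) (h : CI i M) :
    pD i M (Sum.inl g) (Sum.inr (Sum.inr h)) = mC i M g h := rfl

theorem cj30_TV {n B : ℤ} (i : ℤ) (M : Obj n B) (g : CI i M) (h : M.I) :
    pD i M (Sum.inr (Sum.inl g)) (Sum.inl h) = pTV i M g h := rfl

theorem cj30_TT {n B : ℤ} (i : ℤ) (M : Obj n B) (g h : CI i M) :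
    pD i M (Sum.inr (Sum.inl g)) (Sum.inr (Sum.inl h)) = pTT i M g h := rfl

theorem cj30_TU {n B : ℤ} (i : ℤ) (M : Obj n B) (g h : CI i M) :
    pD i M (Sum.inr (Sum.inl g)) (Sum.inr (Sum.inr h)) = pTU i M g h := rfl

theorem cj30_UV {n B : ℤ} (i : ℤ) (M : Obj n B) (g : CI i M) (h : M.I) :
    pD i M (Sum.inr (Sum.inr g)) (Sum.inl h) = mP i M g h := rfl

theorem cj30_UT {n B : ℤ} (i : ℤ) (M : Obj n B) (g h : CI i M) :
    pD i M (Sum.inr (Sum.inr g)) (Sum.inr (Sum.inl h)) = (1 : Matrix (CI i M) (CI i M) A) g h := rfl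

theorem cj30_UU {n B : ℤ} (i : ℤ) (M : Obj n B) (g h : CI i M) :
    pD i M (Sum.inr (Sum.inr g)) (Sum.inr (Sum.inr h)) = mB i M g h := rfl

/-! nonzero entries -/

theorem cj30_mul_ne {α β γ : Type*} [Fintype β] {X : Matrix α β A} {Y : Matrix β γ A} {g : α} {h : γ}
    (hne : (X * Y) g h ≠ 0) : ∃ k, X g k ≠ 0 ∧ Y k h ≠ 0 := by
  by_contra hcon
  push Not at hcon
  apply hne
  rw [Matrix.mul_apply]
  apply Finset.sum_eq_zero
  intro k _
  by_cases hk : X g k = 0
  · rw [hk, zero_mul]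
  · rw [hcon k hk, mul_zero]

theorem cj30_add_ne {α β : Type*} {X Y : Matrix α β A} {g : α} {h : β}
    (hne : (X + Y) g h ≠ 0) : X g h ≠ 0 ∨ Y g h ≠ 0 := by
  by_contra hcon
  push Not at hcon
  apply hne
  rw [Matrix.add_apply, hcon.1, hcon.2, add_zero]

theorem cj30_mP_ne {n B : ℤ} {i : ℤ} {M : Obj n B} {g : CI i M} {h : M.I} (hne : mP i M g h ≠ 0) : g.1 = h := by
  by_contra hcon
  apply hne
  unfold mP
  rw [Matrix.of_apply, if_neg hcon]

/-- displacement of a nonzero constant entry -/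
theorem cj30_disp {n B : ℤ} {M : Obj n B} (hc : ∀ g h k, k ≠ 0 → (M.D g h).coeff k = 0) {g h : M.I}
    (hne : M.D g h ≠ 0) : (M.pos h).1 ≤ (M.pos g).1 ∧ (M.pos h).2 ≤ (M.pos g).2 := by
  have h0 : (M.D g h).coeff 0 ≠ 0 := by
    intro h0
    apply hne
    ext k
    by_cases hk : k = 0
    · rw [hk, h0]
      simp
    · rw [hc g h k hk]
      simp
  have := M.fil g h 0 h0
  simp only [zero_mul, Prod.fst_sub, Prod.snd_sub] at this
  constructor <;> linarith [this.1, this.2]

theorem cj30_part {a : A} (hc : ∀ k : ℤ, k ≠ 0 → a.coeff k = 0) {P : ℤ → Prop} (hne : part P a ≠ 0) :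
    a ≠ 0 ∧ P 0 := by
  refine ⟨part_ne_zero hne, ?_⟩
  by_contra hP
  apply hne
  ext k
  rw [coeff_part]
  by_cases hk : k = 0
  · rw [hk, if_neg hP]
    simp
  · rw [hc k hk]
    simp

theorem cj30_DT {n B : ℤ} {M : Obj n B} (hc : ∀ g h k, k ≠ 0 → (M.D g h).coeff k = 0) {g h : M.I}
    (hne : DT M g h ≠ 0) : M.D g h ≠ 0 ∧ jj (M.pos h) < jj (M.pos g) := by
  unfold DT at hne
  rw [Matrix.of_apply] at hne
  obtain ⟨h1, h2⟩ := cj30_part (hc g h) hne
  refine ⟨h1, ?_⟩
  rw [zero_mul] at h2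
  linarith

theorem cj30_DZ {n B : ℤ} {M : Obj n B} (hc : ∀ g h k, k ≠ 0 → (M.D g h).coeff k = 0) {g h : M.I}
    (hne : DZ M g h ≠ 0) : M.D g h ≠ 0 ∧ jj (M.pos g) = jj (M.pos h) := by
  unfold DZ at hne
  rw [Matrix.of_apply] at hne
  obtain ⟨h1, h2⟩ := cj30_part (hc g h) hne
  refine ⟨h1, ?_⟩
  rw [zero_mul] at h2
  linarith

/-- the entries of `mC` -/
theorem cj30_mC {n B : ℤ} {i : ℤ} {M : Obj n B} (hc : ∀ g h k, k ≠ 0 → (M.D g h).coeff k = 0) {g : M.I}
    {h : CI i M} (hne : mC i M g h ≠ 0) :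
    (∃ k, M.D g k ≠ 0 ∧ M.D k h.1 ≠ 0 ∧ jj (M.pos h.1) < jj (M.pos k)) ∨
    (∃ k : CI i M, M.D g k.1 ≠ 0 ∧ jj (M.pos k.1) < jj (M.pos g) ∧ M.D k.1 h.1 ≠ 0 ∧
      jj (M.pos k.1) = jj (M.pos h.1)) := by
  unfold mC at hne
  rcases cj30_add_ne hne with h1 | h1
  · left
    obtain ⟨k, hk1, hk2⟩ := cj30_mul_ne h1
    have := cj30_DT hc hk2
    exact ⟨k, hk1, this.1, this.2⟩
  · right
    obtain ⟨k, hk1, hk2⟩ := cj30_mul_ne h1
    have e1 := cj30_DT hc hk1
    have e2 := cj30_DZ hc hk2
    exact ⟨k, e1.1, e1.2, e2.1, e2.2⟩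

/-- action of the automorphism on the letters -/
theorem cj30_sig_cl {n : ℤ} (hn : 2 ≤ n) (i j : ℤ) (h : n ∣ j - i) :
    sigG hn i (gL j) = gL (j - 1) * (gL j)⁻¹ * gL (j + 1) := by
  show sigE n i (gL j) = _
  unfold sigE gL
  rw [FreeGroup.lift_apply_of, if_pos h]

theorem cj30_sig_ncl {n : ℤ} (hn : 2 ≤ n) (i j : ℤ) (h : ¬ n ∣ j - i) :
    sigG hn i (gL j) = gL j := by
  show sigE n i (gL j) = _
  unfold sigE gL
  rw [FreeGroup.lift_apply_of, if_neg h]

theorem cj30_ndvd_succ {n : ℤ} (hn : 2 ≤ n) {i j : ℤ} (h : n ∣ j - i) : ¬ n ∣ j + 1 - i := by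
  intro h1
  have h2 : n ∣ (j + 1 - i) - (j - i) := dvd_sub h1 h
  have e : (j + 1 - i) - (j - i) = 1 := by ring
  rw [e] at h2
  have := Int.le_of_dvd one_pos h2
  omega

/-- the basic computation: `x g L_{j+1} = x h L_j` with `j` of class `i` -/
theorem cj30_basic {n : ℤ} (hn : 2 ≤ n) {i j : ℤ} (h : n ∣ j - i) {x y : G}
    (hxy : x * gL (j + 1) = y * gL j) :
    sigG hn i x = sigG hn i y * gL (j - 1) * (gL j)⁻¹ := by
  have h1 := congrArg (sigG hn i) hxy
  rw [map_mul, map_mul, cj30_sig_cl hn i j h, cj30_sig_ncl hn i (j + 1) (cj30_ndvd_succ hn h)] at h1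
  have h2 : sigG hn i x = sigG hn i y * (gL (j - 1) * (gL j)⁻¹ * gL (j + 1)) * (gL (j + 1))⁻¹ :=
    eq_mul_inv_of_mul_eq h1
  rw [h2]
  group

/-- a pure step upwards -/
theorem cj30_step {n B : ℤ} (hn : 2 ≤ n) {i : ℤ} {M : Obj n B} {a0 : G} {x : M.I → G}
    (h : Lab M a0 x) {k e : M.I} (he : Cl n i (M.pos e)) (hD : M.D k e ≠ 0)
    (hj : jj (M.pos e) < jj (M.pos k)) (hal : (M.pos k).1 ≤ (M.pos e).1 + 1) :
    sigG hn i (x k) = sigG hn i (x e) * gL (jj (M.pos e) - 1) * (gL (jj (M.pos e)))⁻¹ := by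
  have h1 := cj30_disp h.const hD
  have h2 : (M.pos k).2 = (M.pos e).2 := by
    unfold jj at hj
    omega
  have h3 : jj (M.pos k) = jj (M.pos e) + 1 := by
    unfold jj at hj ⊢
    omega
  have h4 := h.tt k e hD h2
  rw [h3] at h4
  exact cj30_basic hn he h4

theorem cj30_DB {n B : ℤ} {M : Obj n B} (hc : ∀ g h k, k ≠ 0 → (M.D g h).coeff k = 0) {g h : M.I}
    (hne : DB M g h ≠ 0) : M.D g h ≠ 0 ∧ jj (M.pos g) < jj (M.pos h) := by
  unfold DB at hne
  rw [Matrix.of_apply] at hne
  obtain ⟨h1, h2⟩ := cj30_part (hc g h) hne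
  refine ⟨h1, ?_⟩
  rw [zero_mul] at h2
  linarith

/-- the three parts -/
theorem cj30_split {n B : ℤ} (M : Obj n B) (g h : M.I) :
    M.D g h = DT M g h + DZ M g h + DB M g h := by
  ext k
  unfold DT DZ DB
  simp only [Matrix.of_apply, AddMonoidAlgebra.coeff_add, Finsupp.add_apply, coeff_part]
  rcases lt_trichotomy (jj (M.pos g) - jj (M.pos h) - k * n) 0 with h1 | h1 | h1
  · rw [if_neg (by omega), if_neg (by omega), if_pos h1]
    simp
  · rw [if_neg (by omega), if_pos h1, if_neg (by omega)]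
    simp
  · rw [if_pos h1, if_neg (by omega), if_neg (by omega)]
    simp

/-- `D` without its positive part -/
def cj30_N {n B : ℤ} (M : Obj n B) : Matrix M.I M.I A := M.D + DT M

theorem cj30_N_ne {n B : ℤ} {M : Obj n B} (hc : ∀ g h k, k ≠ 0 → (M.D g h).coeff k = 0) {g h : M.I}
    (hne : M.D g h + DT M g h ≠ 0) : M.D g h ≠ 0 ∧ jj (M.pos g) ≤ jj (M.pos h) := by
  have e : M.D g h + DT M g h = DZ M g h + DB M g h := by
    rw [cj30_split M g h]
    have := A_add_self (DT M g h)
    calc DT M g h + DZ M g h + DB M g h + DT M g h = (DT M g h + DT M g h) + (DZ M g h + DB M g h) := by ring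
      _ = DZ M g h + DB M g h := by rw [this, zero_add]
  rw [e] at hne
  by_cases h1 : DZ M g h = 0
  · have h2 : DB M g h ≠ 0 := by
      intro h2
      rw [h1, h2, add_zero] at hne
      exact hne rfl
    have := cj30_DB hc h2
    exact ⟨this.1, this.2.le⟩
  · have := cj30_DZ hc h1
    exact ⟨this.1, this.2.le⟩

theorem cj30_DB_eq {n B : ℤ} (M : Obj n B) (g h : M.I) :
    M.D g h + (DT M g h + DZ M g h) = DB M g h := by
  rw [cj30_split M g h]
  have := A_add_self (DT M g h + DZ M g h)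
  calc DT M g h + DZ M g h + DB M g h + (DT M g h + DZ M g h) =
      ((DT M g h + DZ M g h) + (DT M g h + DZ M g h)) + DB M g h := by ring
    _ = DB M g h := by rw [this, zero_add]

/-- entries of `mA * mP` -/
theorem cj30_AP {n B : ℤ} (i : ℤ) (M : Obj n B) (g h : M.I) :
    (mA i M * mP i M) g h = if Cl n i (M.pos h) then DT M g h else 0 := by
  rw [Matrix.mul_apply]
  split_ifs with hh
  · rw [Finset.sum_eq_single (⟨h, hh⟩ : CI i M)]
    · unfold mA mP
      simp
    · intro k _ hk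
      unfold mP
      rw [Matrix.of_apply, if_neg, mul_zero]
      intro hcon
      exact hk (Subtype.ext hcon)
    · intro hcon
      exact absurd (Finset.mem_univ _) hcon
  · apply Finset.sum_eq_zero
    intro k _
    unfold mP
    rw [Matrix.of_apply, if_neg, mul_zero]
    intro hcon
    apply hh
    rw [← hcon]
    exact k.2

/-- multiplication by `mP` on the left is the restriction of rows -/
theorem cj30_Pmul {n B : ℤ} (i : ℤ) (M : Obj n B) {γ : Type*} (X : Matrix M.I γ A) (g : CI i M) (h : γ) :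
    (mP i M * X) g h = X g.1 h := by
  rw [Matrix.mul_apply, Finset.sum_eq_single g.1]
  · unfold mP
    simp
  · intro k _ hk
    unfold mP
    rw [Matrix.of_apply, if_neg (fun h => hk h.symm), zero_mul]
  · intro hcon
    exact absurd (Finset.mem_univ _) hcon

/-- multiplication by `mP` on the right -/
theorem cj30_mulP {n B : ℤ} (i : ℤ) (M : Obj n B) {γ : Type*} (X : Matrix γ (CI i M) A) (g : γ) (h : M.I)
    (hh : Cl n i (M.pos h)) : (X * mP i M) g h = X g ⟨h, hh⟩ := by
  rw [Matrix.mul_apply, Finset.sum_eq_single (⟨h, hh⟩ : CI i M)]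
  · unfold mP
    simp
  · intro k _ hk
    unfold mP
    rw [Matrix.of_apply, if_neg, mul_zero]
    intro hcon
    exact hk (Subtype.ext hcon)
  · intro hcon
    exact absurd (Finset.mem_univ _) hcon

theorem cj30_mulP' {n B : ℤ} (i : ℤ) (M : Obj n B) {γ : Type*} (X : Matrix γ (CI i M) A) (g : γ) (h : M.I)
    (hh : ¬ Cl n i (M.pos h)) : (X * mP i M) g h = 0 := by
  rw [Matrix.mul_apply]
  apply Finset.sum_eq_zero
  intro k _
  unfold mP
  rw [Matrix.of_apply, if_neg, mul_zero]
  intro hcon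
  apply hh
  rw [← hcon]
  exact k.2

/-- sums over the class against `DZ` -/
theorem cj30_sumDZ {n B : ℤ} (i : ℤ) {M : Obj n B} (hc : ∀ g h k, k ≠ 0 → (M.D g h).coeff k = 0)
    (f : M.I → A) (h : CI i M) :
    ∑ k : CI i M, f k.1 * DZ M k.1 h.1 = ∑ k : M.I, f k * DZ M k h.1 := by
  rw [← Finset.sum_filter_add_sum_filter_not Finset.univ (fun k => Cl n i (M.pos k)) (fun k => f k * DZ M k h.1)]
  have h2 : ∑ k ∈ Finset.univ.filter (fun k => ¬ Cl n i (M.pos k)), f k * DZ M k h.1 = 0 := by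
    apply Finset.sum_eq_zero
    intro k hk
    have hk' := (Finset.mem_filter.1 hk).2
    by_cases h3 : DZ M k h.1 = 0
    · rw [h3, mul_zero]
    · exfalso
      apply hk'
      have := (cj30_DZ hc h3).2
      unfold Cl
      rw [this]
      exact h.2
  rw [h2, add_zero]
  exact (Finset.sum_subtype (p := fun k => Cl n i (M.pos k)) (Finset.univ.filter (fun k => Cl n i (M.pos k)))
    (by intro k; simp) (fun k => f k * DZ M k h.1)).symm

/-- second formula for `mC` -/
theorem cj30_mC_eq {n B : ℤ} (i : ℤ) {M : Obj n B} (hc : ∀ g h k, k ≠ 0 → (M.D g h).coeff k = 0) (g : M.I)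
    (h : CI i M) :
    mC i M g h = ∑ k, M.D g k * DB M k h.1 + ∑ k : CI i M, (M.D g k.1 + DT M g k.1) * DZ M k.1 h.1 := by
  have h1 : mC i M g h = ∑ k, M.D g k * DT M k h.1 + ∑ k : CI i M, DT M g k.1 * DZ M k.1 h.1 := rfl
  have h2 : ∑ k, M.D g k * M.D k h.1 = 0 := by
    have := congrFun (congrFun M.sq g) h.1
    rw [Matrix.mul_apply] at this
    exact this
  have h3 : ∑ k, M.D g k * DT M k h.1 + ∑ k, M.D g k * DZ M k h.1 + ∑ k, M.D g k * DB M k h.1 = 0 := by
    rw [← Finset.sum_add_distrib, ← Finset.sum_add_distrib, ← h2]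
    apply Finset.sum_congr rfl
    intro k _
    rw [cj30_split M k h.1]
    ring
  have h4 : ∑ k : CI i M, (M.D g k.1 + DT M g k.1) * DZ M k.1 h.1 =
      ∑ k, M.D g k * DZ M k h.1 + ∑ k : CI i M, DT M g k.1 * DZ M k.1 h.1 := by
    rw [← cj30_sumDZ i hc (fun k => M.D g k) h, ← Finset.sum_add_distrib]
    apply Finset.sum_congr rfl
    intro k _
    ring
  rw [h1, h4]
  have h5 : ∑ k, M.D g k * DT M k h.1 = ∑ k, M.D g k * DB M k h.1 + ∑ k, M.D g k * DZ M k h.1 := by
    have e1 := A_add_self (∑ k, M.D g k * DZ M k h.1)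
    have e2 := A_add_self (∑ k, M.D g k * DB M k h.1)
    calc ∑ k, M.D g k * DT M k h.1 = ∑ k, M.D g k * DT M k h.1 +
          (∑ k, M.D g k * DZ M k h.1 + ∑ k, M.D g k * DZ M k h.1) +
          (∑ k, M.D g k * DB M k h.1 + ∑ k, M.D g k * DB M k h.1) := by rw [e1, e2, add_zero, add_zero]
      _ = (∑ k, M.D g k * DT M k h.1 + ∑ k, M.D g k * DZ M k h.1 + ∑ k, M.D g k * DB M k h.1) +
          (∑ k, M.D g k * DB M k h.1 + ∑ k, M.D g k * DZ M k h.1) := by ring
      _ = ∑ k, M.D g k * DB M k h.1 + ∑ k, M.D g k * DZ M k h.1 := by rw [h3, zero_add]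
  rw [h5]
  ring

theorem cj30_sum_ne {ι : Type*} {s : Finset ι} {f : ι → A} (h : ∑ k ∈ s, f k ≠ 0) : ∃ k, f k ≠ 0 := by
  by_contra hcon
  push Not at hcon
  exact h (Finset.sum_eq_zero fun k _ => hcon k)

theorem cj30_mulne {a b : A} (h : a * b ≠ 0) : a ≠ 0 ∧ b ≠ 0 := by
  constructor
  · rintro rfl
    exact h (zero_mul _)
  · rintro rfl
    exact h (mul_zero _)

theorem cj30_addne {a b : A} (h : a + b ≠ 0) : a ≠ 0 ∨ b ≠ 0 := by
  by_contra hcon
  push Not at hcon
  exact h (by rw [hcon.1, hcon.2, add_zero])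

/-- the entries of `mC`, second form -/
theorem cj30_mC2 {n B : ℤ} {i : ℤ} {M : Obj n B} (hc : ∀ g h k, k ≠ 0 → (M.D g h).coeff k = 0) {g : M.I}
    {h : CI i M} (hne : mC i M g h ≠ 0) :
    (∃ k, M.D g k ≠ 0 ∧ M.D k h.1 ≠ 0 ∧ jj (M.pos k) < jj (M.pos h.1)) ∨
    (∃ k : CI i M, M.D g k.1 ≠ 0 ∧ jj (M.pos g) ≤ jj (M.pos k.1) ∧ M.D k.1 h.1 ≠ 0 ∧
      jj (M.pos k.1) = jj (M.pos h.1)) := by
  rw [cj30_mC_eq i hc] at hne
  rcases cj30_addne hne with h1 | h1
  · left
    obtain ⟨k, hk⟩ := cj30_sum_ne h1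
    obtain ⟨hk1, hk2⟩ := cj30_mulne hk
    have := cj30_DB hc hk2
    exact ⟨k, hk1, this.1, this.2⟩
  · right
    obtain ⟨k, hk⟩ := cj30_sum_ne h1
    obtain ⟨hk1, hk2⟩ := cj30_mulne hk
    have e1 := cj30_N_ne hc hk1
    have e2 := cj30_DZ hc hk2
    exact ⟨k, e1.1, e1.2, e2.1, e2.2⟩

/-- the entries of the block `TU` -/
theorem cj30_TU2 {n B : ℤ} {i : ℤ} {M : Obj n B} (hc : ∀ g h k, k ≠ 0 → (M.D g h).coeff k = 0) {g : CI i M}
    {h : CI i M} (hne : pTU i M g h ≠ 0) :
    (∃ k, M.D g.1 k ≠ 0 ∧ M.D k h.1 ≠ 0 ∧ jj (M.pos k) < jj (M.pos h.1)) ∨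
    (∃ k : CI i M, M.D g.1 k.1 ≠ 0 ∧ jj (M.pos g.1) < jj (M.pos k.1) ∧ M.D k.1 h.1 ≠ 0 ∧
      jj (M.pos k.1) = jj (M.pos h.1)) := by
  unfold pTU at hne
  rw [Matrix.add_apply, cj30_Pmul, cj30_mC_eq i hc] at hne
  have e1 : (mB i M * mB i M) g h = ∑ k : CI i M, DZ M g.1 k.1 * DZ M k.1 h.1 := rfl
  rw [e1, add_assoc, ← Finset.sum_add_distrib] at hne
  have e2 : ∀ k : CI i M, (M.D g.1 k.1 + DT M g.1 k.1) * DZ M k.1 h.1 + DZ M g.1 k.1 * DZ M k.1 h.1 =
      DB M g.1 k.1 * DZ M k.1 h.1 := by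
    intro k
    rw [← cj30_DB_eq M g.1 k.1]
    ring
  simp only [e2] at hne
  rcases cj30_addne hne with h1 | h1
  · left
    obtain ⟨k, hk⟩ := cj30_sum_ne h1
    obtain ⟨hk1, hk2⟩ := cj30_mulne hk
    have := cj30_DB hc hk2
    exact ⟨k, hk1, this.1, this.2⟩
  · right
    obtain ⟨k, hk⟩ := cj30_sum_ne h1
    obtain ⟨hk1, hk2⟩ := cj30_mulne hk
    have e1 := cj30_DB hc hk1
    have e2 := cj30_DZ hc hk2
    exact ⟨k, e1.1, e1.2, e2.1, e2.2⟩

/-! above labels -/

theorem cj30_ndvd_pred {n : ℤ} (hn : 2 ≤ n) {i j : ℤ} (h : n ∣ j - i) : ¬ n ∣ j - 1 - i := by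
  intro h1
  have h2 : n ∣ (j - i) - (j - 1 - i) := dvd_sub h h1
  have e : (j - i) - (j - 1 - i) = 1 := by ring
  rw [e] at h2
  have := Int.le_of_dvd one_pos h2
  omega

/-- outside the class -/
theorem cj30_aN {n B : ℤ} (hn : 2 ≤ n) (i : ℤ) (M : Obj n B) (x : M.I → G) (g : M.I)
    (hg : ¬ Cl n i (M.pos g)) :
    pLab hn i M x (Sum.inl g) * gL (jj (pPos i M (Sum.inl g))) = sigG hn i (x g * gL (jj (M.pos g))) := by
  have e : pPos i M (Sum.inl g) = M.pos g := by
    show M.pos g + (if Cl n i (M.pos g) then (0, 1) else 0) = M.pos g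
    rw [if_neg hg, add_zero]
  rw [e, map_mul, cj30_sig_ncl hn i _ hg]
  rfl

theorem cj30_aB {n B : ℤ} (hn : 2 ≤ n) (i : ℤ) (M : Obj n B) (x : M.I → G) (g : M.I)
    (hg : Cl n i (M.pos g)) :
    pLab hn i M x (Sum.inl g) * gL (jj (pPos i M (Sum.inl g))) = sigG hn i (x g) * gL (jj (M.pos g) - 1) := by
  have e : jj (pPos i M (Sum.inl g)) = jj (M.pos g) - 1 := by
    have e1 : pPos i M (Sum.inl g) = M.pos g + (0, 1) := by
      show M.pos g + (if Cl n i (M.pos g) then (0, 1) else 0) = M.pos g + (0, 1)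
      rw [if_pos hg]
    rw [e1]
    unfold jj
    simp only [Prod.fst_add, Prod.snd_add]
    ring
  rw [e]
  rfl

theorem cj30_aT {n B : ℤ} (hn : 2 ≤ n) (i : ℤ) (M : Obj n B) (x : M.I → G) (g : CI i M) :
    pLab hn i M x (Sum.inr (Sum.inl g)) * gL (jj (pPos i M (Sum.inr (Sum.inl g)))) =
      sigG hn i (x g.1 * gL (jj (M.pos g.1))) := by
  have e : jj (pPos i M (Sum.inr (Sum.inl g))) = jj (M.pos g.1) + 1 := by
    show jj (M.pos g.1 + (1, 0)) = _
    unfold jj
    simp only [Prod.fst_add, Prod.snd_add]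
    ring
  rw [e, map_mul, cj30_sig_cl hn i _ g.2]
  show sigG hn i (x g.1) * gL (jj (M.pos g.1) - 1) * (gL (jj (M.pos g.1)))⁻¹ * gL (jj (M.pos g.1) + 1) = _
  group

theorem cj30_aU {n B : ℤ} (hn : 2 ≤ n) (i : ℤ) (M : Obj n B) (x : M.I → G) (g : CI i M) :
    pLab hn i M x (Sum.inr (Sum.inr g)) * gL (jj (pPos i M (Sum.inr (Sum.inr g)))) =
      sigG hn i (x g.1) * gL (jj (M.pos g.1) - 1) := by
  have e : jj (pPos i M (Sum.inr (Sum.inr g))) = jj (M.pos g.1) := by
    show jj (M.pos g.1 + (1, 1)) = _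
    unfold jj
    simp only [Prod.fst_add, Prod.snd_add]
    ring
  rw [e]
  show sigG hn i (x g.1) * gL (jj (M.pos g.1) - 1) * (gL (jj (M.pos g.1)))⁻¹ * gL (jj (M.pos g.1)) = _
  group

theorem cj30_bN {n B : ℤ} (i : ℤ) (M : Obj n B) (g : M.I) (hg : ¬ Cl n i (M.pos g)) :
    (pPos i M (Sum.inl g)).2 = (M.pos g).2 := by
  show (M.pos g + (if Cl n i (M.pos g) then (0, 1) else 0)).2 = (M.pos g).2
  rw [if_neg hg, add_zero]

theorem cj30_bB {n B : ℤ} (i : ℤ) (M : Obj n B) (g : M.I) (hg : Cl n i (M.pos g)) :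
    (pPos i M (Sum.inl g)).2 = (M.pos g).2 + 1 := by
  show (M.pos g + (if Cl n i (M.pos g) then (0, 1) else 0)).2 = (M.pos g).2 + 1
  rw [if_pos hg]
  rfl

theorem cj30_bT {n B : ℤ} (i : ℤ) (M : Obj n B) (g : CI i M) :
    (pPos i M (Sum.inr (Sum.inl g))).2 = (M.pos g.1).2 := by
  show (M.pos g.1).2 + 0 = _
  rw [add_zero]

theorem cj30_bU {n B : ℤ} (i : ℤ) (M : Obj n B) (g : CI i M) :
    (pPos i M (Sum.inr (Sum.inr g))).2 = (M.pos g.1).2 + 1 := rfl

/-- a pure step downwards: `k` just below `e`, of class `i` -/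
theorem cj30_down {n B : ℤ} (hn : 2 ≤ n) {i : ℤ} {M : Obj n B} {a0 : G} {x : M.I → G}
    (h : Lab M a0 x) {k e : M.I} (he : Cl n i (M.pos e)) (hD : M.D k e ≠ 0)
    (hj : jj (M.pos k) < jj (M.pos e)) (hbe : (M.pos k).2 ≤ (M.pos e).2 + 1) :
    x k = x e ∧ jj (M.pos k) = jj (M.pos e) - 1 ∧ ¬ Cl n i (M.pos k) ∧
      sigG hn i (x k * gL (jj (M.pos k))) = sigG hn i (x e) * gL (jj (M.pos e) - 1) := by
  have h1 := cj30_disp h.const hD
  have h2 : (M.pos k).1 = (M.pos e).1 := by
    unfold jj at hj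
    omega
  have h3 : jj (M.pos k) = jj (M.pos e) - 1 := by
    unfold jj at hj ⊢
    omega
  have h4 := h.tb k e hD h2
  have h5 : ¬ n ∣ jj (M.pos e) - 1 - i := cj30_ndvd_pred hn he
  refine ⟨h4, h3, ?_, ?_⟩
  · unfold Cl
    rw [h3]
    exact h5
  · rw [h3, map_mul, cj30_sig_ncl hn i _ h5, h4]

theorem lab_phi_tt {n B : ℤ} (hn : 3 ≤ n) (i : ℤ) {M : Obj n B} {a0 : G} {x : M.I → G}
    (h : Lab M a0 x) (g e : (phi i M).I) (hne : (phi i M).D g e ≠ 0)
    (hp : ((phi i M).pos g).2 = ((phi i M).pos e).2) :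
    pLab (by omega) i M x g * gL (jj ((phi i M).pos g)) =
      pLab (by omega) i M x e * gL (jj ((phi i M).pos e)) := by
  have hn2 : (2 : ℤ) ≤ n := by omega
  have hc := h.const
  have hne' : pD i M g e ≠ 0 := hne
  have hp' : (pPos i M g).2 = (pPos i M e).2 := hp
  clear hne hp
  show pLab hn2 i M x g * gL (jj (pPos i M g)) = pLab hn2 i M x e * gL (jj (pPos i M e))
  rcases g with g | g | g <;> rcases e with e | e | e
  · -- VV
    rw [cj30_VV] at hne'
    unfold pVV at hne'
    rw [Matrix.add_apply, cj30_AP] at hne'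
    by_cases hg : Cl n i (M.pos g) <;> by_cases he : Cl n i (M.pos e)
    · rw [if_pos he] at hne'
      have e1 := cj30_N_ne hc hne'
      have d1 := cj30_disp hc e1.1
      rw [cj30_bB i M g hg, cj30_bB i M e he] at hp'
      have e2 : (M.pos g).1 = (M.pos e).1 := by
        have := e1.2
        unfold jj at this
        omega
      have e3 : M.pos g = M.pos e := Prod.ext e2 (by omega)
      rw [cj30_aB hn2 i M x g hg, cj30_aB hn2 i M x e he, h.tb g e e1.1 e2, e3]
    · exfalso
      rw [if_neg he, add_zero] at hne'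
      have d1 := cj30_disp hc hne'
      rw [cj30_bB i M g hg, cj30_bN i M e he] at hp'
      omega
    · rw [if_pos he] at hne'
      have e1 := cj30_N_ne hc hne'
      rw [cj30_bN i M g hg, cj30_bB i M e he] at hp'
      have e4 : jj (M.pos g) ≠ jj (M.pos e) := by
        intro hcon
        apply hg
        unfold Cl
        rw [hcon]
        exact he
      have e5 := cj30_down hn2 h he e1.1 (lt_of_le_of_ne e1.2 e4) (by omega)
      rw [cj30_aN hn2 i M x g hg, cj30_aB hn2 i M x e he, e5.2.2.2]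
    · rw [if_neg he, add_zero] at hne'
      rw [cj30_bN i M g hg, cj30_bN i M e he] at hp'
      rw [cj30_aN hn2 i M x g hg, cj30_aN hn2 i M x e he, h.tt g e hne' hp']
  · -- VT
    rw [cj30_VT] at hne'
    have e1 := cj30_DT hc hne'
    have d1 := cj30_disp hc e1.1
    by_cases hg : Cl n i (M.pos g)
    · exfalso
      rw [cj30_bB i M g hg, cj30_bT] at hp'
      omega
    · rw [cj30_bN i M g hg, cj30_bT] at hp'
      rw [cj30_aN hn2 i M x g hg, cj30_aT, h.tt g e.1 e1.1 hp']
  · -- VU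
    rw [cj30_VU] at hne'
    rcases cj30_mC2 hc hne' with ⟨k, h1, h2, h3⟩ | ⟨k, h1, h2, h3, h4⟩
    · have d1 := cj30_disp hc h1
      have d2 := cj30_disp hc h2
      have d3 : (M.pos e.1).2 + 1 ≤ (M.pos k).2 := by
        unfold jj at h3
        omega
      by_cases hg : Cl n i (M.pos g)
      · exfalso
        rw [cj30_bB i M g hg, cj30_bU] at hp'
        omega
      · rw [cj30_bN i M g hg, cj30_bU] at hp'
        have e5 := cj30_down hn2 h e.2 h2 h3 (by omega)
        rw [cj30_aN hn2 i M x g hg, cj30_aU, h.tt g k h1 (by omega), e5.2.2.2]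
    · have d1 := cj30_disp hc h1
      have d2 := cj30_disp hc h3
      by_cases hg : Cl n i (M.pos g)
      · rw [cj30_bB i M g hg, cj30_bU] at hp'
        have e2 : (M.pos g).1 = (M.pos k.1).1 := by
          unfold jj at h2
          omega
        have e3 : (M.pos k.1).1 = (M.pos e.1).1 := by
          unfold jj at h4
          omega
        have e6 : jj (M.pos g) = jj (M.pos e.1) := by
          unfold jj
          omega
        rw [cj30_aB hn2 i M x g hg, cj30_aU, h.tb g k.1 h1 e2, h.tb k.1 e.1 h3 e3, e6]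
      · rw [cj30_bN i M g hg, cj30_bU] at hp'
        have e4 : jj (M.pos g) ≠ jj (M.pos k.1) := by
          intro hcon
          apply hg
          unfold Cl
          rw [hcon]
          exact k.2
        have e3 : (M.pos k.1).2 + 1 ≤ (M.pos g).2 := by
          have := lt_of_le_of_ne h2 e4
          unfold jj at this
          omega
        have e5 := cj30_down hn2 h k.2 h1 (lt_of_le_of_ne h2 e4) (by omega)
        have e7 : (M.pos k.1).1 = (M.pos e.1).1 := by
          unfold jj at h4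
          omega
        rw [cj30_aN hn2 i M x g hg, cj30_aU, e5.2.2.2, h.tb k.1 e.1 h3 e7, h4]
  · -- TV
    rw [cj30_TV] at hne'
    unfold pTV at hne'
    rw [Matrix.add_apply, cj30_Pmul] at hne'
    by_cases he : Cl n i (M.pos e)
    · exfalso
      rw [cj30_mulP i M _ g e he, Matrix.add_apply, cj30_Pmul] at hne'
      have e0 : M.D g.1 e + (mA i M g.1 ⟨e, he⟩ + mB i M g ⟨e, he⟩) = DB M g.1 e := cj30_DB_eq M g.1 e
      rw [e0] at hne'
      have e1 := cj30_DB hc hne'
      rw [cj30_bT, cj30_bB i M e he] at hp'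
      have e5 := cj30_down hn2 h he e1.1 e1.2 (by omega)
      exact e5.2.2.1 g.2
    · rw [cj30_mulP' i M _ g e he, add_zero] at hne'
      rw [cj30_bT, cj30_bN i M e he] at hp'
      rw [cj30_aT, cj30_aN hn2 i M x e he, h.tt g.1 e hne' hp']
  · -- TT
    rw [cj30_TT] at hne'
    unfold pTT at hne'
    rw [Matrix.add_apply, cj30_Pmul] at hne'
    have hD : M.D g.1 e.1 ≠ 0 := by
      rcases cj30_addne hne' with h1 | h1
      · exact (cj30_DT hc h1).1
      · exact (cj30_DZ hc h1).1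
    rw [cj30_bT, cj30_bT] at hp'
    rw [cj30_aT, cj30_aT, h.tt g.1 e.1 hD hp']
  · -- TU
    rw [cj30_TU] at hne'
    rw [cj30_bT, cj30_bU] at hp'
    rcases cj30_TU2 hc hne' with ⟨k, h1, h2, h3⟩ | ⟨k, h1, h2, h3, h4⟩
    · have d1 := cj30_disp hc h1
      have d2 := cj30_disp hc h2
      have d3 : (M.pos e.1).2 + 1 ≤ (M.pos k).2 := by
        unfold jj at h3
        omega
      have e5 := cj30_down hn2 h e.2 h2 h3 (by omega)
      rw [cj30_aT, cj30_aU, h.tt g.1 k h1 (by omega), e5.2.2.2]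
    · exfalso
      have d1 := cj30_disp hc h1
      have d2 := cj30_disp hc h3
      have e5 := cj30_down hn2 h k.2 h1 h2 (by omega)
      exact e5.2.2.1 g.2
  · -- UV
    rw [cj30_UV] at hne'
    have e1 := cj30_mP_ne hne'
    rw [← e1, cj30_aU, cj30_aB hn2 i M x g.1 g.2]
  · -- UT
    exfalso
    rw [cj30_UT, Matrix.one_apply] at hne'
    have e1 : g = e := by
      by_contra hcon
      rw [if_neg hcon] at hne'
      exact hne' rfl
    rw [e1, cj30_bU, cj30_bT] at hp'
    omega
  · -- UU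
    rw [cj30_UU] at hne'
    have e1 := cj30_DZ hc hne'
    rw [cj30_bU, cj30_bU] at hp'
    have e2 : (M.pos g.1).1 = (M.pos e.1).1 := by
      have := e1.2
      unfold jj at this
      omega
    rw [cj30_aU, cj30_aU, h.tb g.1 e.1 e1.1 e2, e1.2]

/-- transport of acyclicity along an injection -/
theorem cj31_transfer {I J : Type} [Fintype I] [Fintype J] (D : Matrix I I (ZMod 2))
    (D' : Matrix J J (ZMod 2)) (S : Set I) (S' : Set J) (ι : J → I) (hinj : Set.InjOn ι S')
    (hS : S = ι '' S') (hD : ∀ g ∈ S', ∀ h ∈ S', D (ι g) (ι h) = D' g h) (h : Acyc D' S') :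
    Acyc D S := by
  -- sums over `S`
  have key : ∀ F : I → ZMod 2, (∀ i, i ∉ S → F i = 0) →
      ∑ i, F i = ∑ j, (if j ∈ S' then F (ι j) else 0) := by
    intro F hF
    have e1 : ∑ j, (if j ∈ S' then F (ι j) else 0) =
        ∑ j ∈ Finset.univ.filter (fun j => j ∈ S'), F (ι j) := by
      rw [Finset.sum_filter]
    have hi : Set.InjOn ι ((Finset.univ.filter (fun j => j ∈ S') : Finset J) : Set J) := by
      intro a ha b hb hab
      rw [Finset.mem_coe, Finset.mem_filter] at ha hb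
      exact hinj ha.2 hb.2 hab
    rw [e1, ← Finset.sum_image hi]
    symm
    refine Finset.sum_subset (Finset.subset_univ _) fun i _ hni => hF i fun hiS => hni ?_
    rw [hS] at hiS
    obtain ⟨j, hj, rfl⟩ := hiS
    exact Finset.mem_image.2 ⟨j, Finset.mem_filter.2 ⟨Finset.mem_univ _, hj⟩, rfl⟩
  intro v hv hc
  obtain ⟨w', hw0, hw⟩ := h (fun j => if j ∈ S' then v (ι j) else 0)
    (fun j hj => if_neg hj) (fun k hk => by
      have h1 := hc (ι k) (by rw [hS]; exact ⟨k, hk, rfl⟩)
      have h2 : (v ᵥ* D) (ι k) = ∑ i, v i * D i (ι k) := rfl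
      rw [h2, key (fun i => v i * D i (ι k)) (fun i hi => by rw [hv i hi, zero_mul])] at h1
      refine Eq.trans (Finset.sum_congr rfl fun j _ => ?_) h1
      show (if j ∈ S' then v (ι j) else 0) * D' j k = _
      by_cases hj : j ∈ S'
      · rw [if_pos hj, if_pos hj, hD j hj k hk]
      · rw [if_neg hj, if_neg hj, zero_mul])
  refine ⟨fun i => ∑ j, if j ∈ S' ∧ ι j = i then w' j else 0, ?_, ?_⟩
  · intro i hi
    refine Finset.sum_eq_zero fun j _ => if_neg ?_
    rintro ⟨hj, rfl⟩
    exact hi (by rw [hS]; exact ⟨j, hj, rfl⟩)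
  · intro i hi
    rw [hS] at hi
    obtain ⟨k, hk, rfl⟩ := hi
    have h1 := hw k hk
    rw [if_pos hk] at h1
    rw [← h1]
    show ∑ i, (∑ j, if j ∈ S' ∧ ι j = i then w' j else 0) * D i (ι k) = ∑ j, w' j * D' j k
    have e1 : ∀ i, (∑ j, if j ∈ S' ∧ ι j = i then w' j else 0) * D i (ι k) =
        ∑ j, if ι j = i then (if j ∈ S' then w' j * D (ι j) (ι k) else 0) else 0 := by
      intro i
      rw [Finset.sum_mul]
      refine Finset.sum_congr rfl fun j _ => ?_
      by_cases hj : j ∈ S'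
      · by_cases hji : ι j = i
        · rw [if_pos ⟨hj, hji⟩, if_pos hji, if_pos hj, hji]
        · rw [if_neg fun h => hji h.2, if_neg hji, zero_mul]
      · rw [if_neg fun h => hj h.1, if_neg hj, zero_mul, ite_self]
    rw [Finset.sum_congr rfl fun i _ => e1 i, Finset.sum_comm]
    refine Finset.sum_congr rfl fun j _ => ?_
    rw [Finset.sum_ite_eq, if_pos (Finset.mem_univ _)]
    by_cases hj : j ∈ S'
    · rw [if_pos hj, hD j hj k hk]
    · rw [if_neg hj, hw0 j hj, zero_mul]

/-- the complex with matrix `[[β, κ], [1, β]]` -/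
theorem cj31_pairs {T : Type} [Fintype T] [DecidableEq T] (β κ : Matrix T T (ZMod 2)) (T0 : Set T) :
    Acyc (Matrix.fromBlocks β κ 1 β) {j : T ⊕ T | Sum.elim id id j ∈ T0} := by
  intro v hv hc
  refine ⟨Sum.elim (fun _ => 0) (fun e => v (Sum.inl e)), ?_, ?_⟩
  · rintro (e | e) he
    · rfl
    · exact hv (Sum.inl e) he
  · have h0 : ∀ a b : ZMod 2, a + b = 0 → a = b := by decide
    rintro (e | e) he
    · show ∑ j : T ⊕ T, _ = _
      rw [Fintype.sum_sum_type]
      simp only [Sum.elim_inl, Sum.elim_inr, zero_mul, Finset.sum_const_zero, zero_add,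
        Matrix.fromBlocks_apply₂₁, Matrix.one_apply, mul_ite, mul_one, mul_zero,
        Finset.sum_ite_eq', Finset.mem_univ, if_true]
    · have h1 := hc (Sum.inl e) he
      have h2 : (v ᵥ* Matrix.fromBlocks β κ 1 β) (Sum.inl e) =
          ∑ g, v (Sum.inl g) * β g e + v (Sum.inr e) := by
        show ∑ j : T ⊕ T, _ = _
        rw [Fintype.sum_sum_type]
        simp only [Matrix.fromBlocks_apply₁₁,
          Matrix.fromBlocks_apply₂₁, Matrix.one_apply, mul_ite, mul_one, mul_zero,
          Finset.sum_ite_eq', Finset.mem_univ, if_true]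
      rw [h2] at h1
      show ∑ j : T ⊕ T, _ = _
      rw [Fintype.sum_sum_type]
      simp only [Sum.elim_inl, Sum.elim_inr, zero_mul, Finset.sum_const_zero, zero_add,
        Matrix.fromBlocks_apply₂₂]
      exact h0 _ _ h1

theorem cj31_le {n B : ℤ} {M : Obj n B} (hc : ∀ g h k, k ≠ 0 → (M.D g h).coeff k = 0)
    {g h : M.I} (hne : M.D g h ≠ 0) : M.pos h ≤ M.pos g := by
  have h0 : (M.D g h).coeff 0 ≠ 0 := by
    intro h0
    apply hne
    ext k
    by_cases hk : k = 0
    · rw [hk, h0]; rfl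
    · rw [hc g h k hk]; rfl
  have := M.fil g h 0 h0
  simp only [zero_mul, Prod.fst_sub, Prod.snd_sub] at this
  exact ⟨by linarith [this.1], by linarith [this.2]⟩

theorem cj31_DT {n B : ℤ} {M : Obj n B} (hc : ∀ g h k, k ≠ 0 → (M.D g h).coeff k = 0)
    (g h : M.I) : DT M g h = if 0 < jj (M.pos g) - jj (M.pos h) then M.D g h else 0 := by
  show part _ (M.D g h) = _
  ext k
  rw [coeff_part]
  by_cases hk : k = 0
  · subst hk
    rw [zero_mul, sub_zero]
    split_ifs <;> rfl
  · rw [hc g h k hk, ite_self]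
    split_ifs
    · rw [hc g h k hk]
    · rfl

theorem cj31_DZ {n B : ℤ} {M : Obj n B} (hc : ∀ g h k, k ≠ 0 → (M.D g h).coeff k = 0)
    (g h : M.I) : DZ M g h = if jj (M.pos g) - jj (M.pos h) = 0 then M.D g h else 0 := by
  show part _ (M.D g h) = _
  ext k
  rw [coeff_part]
  by_cases hk : k = 0
  · subst hk
    rw [zero_mul, sub_zero]
    split_ifs <;> rfl
  · rw [hc g h k hk, ite_self]
    split_ifs
    · rw [hc g h k hk]
    · rfl

theorem cj31_mulP {n B : ℤ} (i : ℤ) (M : Obj n B) {α : Type} (X : Matrix α (CI i M) A) (g : α)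
    (h : M.I) : (X * mP i M) g h = if hC : Cl n i (M.pos h) then X g ⟨h, hC⟩ else 0 := by
  rw [Matrix.mul_apply]
  by_cases hC : Cl n i (M.pos h)
  · rw [dif_pos hC, Finset.sum_eq_single ⟨h, hC⟩]
    · simp [mP]
    · intro e _ he
      have : e.1 ≠ h := fun h' => he (Subtype.ext h')
      simp [mP, this]
    · intro h'
      exact absurd (Finset.mem_univ _) h'
  · rw [dif_neg hC]
    refine Finset.sum_eq_zero fun e _ => ?_
    have : e.1 ≠ h := fun h' => hC (h' ▸ e.2)
    simp [mP, this]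

theorem cj31_Pmul {n B : ℤ} (i : ℤ) (M : Obj n B) {α : Type} (Y : Matrix M.I α A) (g : CI i M)
    (h : α) : (mP i M * Y) g h = Y g.1 h := by
  rw [Matrix.mul_apply, Finset.sum_eq_single g.1]
  · simp [mP]
  · intro e _ he
    simp [mP, Ne.symm he]
  · intro h'
    exact absurd (Finset.mem_univ _) h'

/-- label sets: the differential restricted to them squares to zero -/
theorem cj31_sqz {n B : ℤ} (N : Obj n B) (L : N.I → G) (c : N.I → ℤ)
    (h1 : ∀ g h, N.D g h ≠ 0 → c h ≤ c g) (h2 : ∀ g h, N.D g h ≠ 0 → c g = c h → L g = L h)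
    (f : G) (a : ℤ) : SqZ N.E {e | L e = f ∧ c e = a} := by
  rintro g ⟨hg1, hg2⟩ k ⟨hk1, hk2⟩
  have h3 : (N.E * N.E) g k = 0 := by
    have e : N.E * N.E = (N.D * N.D).map ev := by
      unfold Obj.E
      rw [Matrix.map_mul]
    rw [e, N.sq]
    simp
  rw [Matrix.mul_apply] at h3
  refine Eq.trans (Finset.sum_congr rfl fun h _ => ?_) h3
  by_cases hm : h ∈ {e | L e = f ∧ c e = a}
  · rw [if_pos hm]
  · rw [if_neg hm]
    by_cases hA : N.D g h = 0
    · have : N.E g h = 0 := by
        show ev (N.D g h) = 0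
        rw [hA, map_zero]
      rw [this, zero_mul]
    · by_cases hB : N.D h k = 0
      · have : N.E h k = 0 := by
          show ev (N.D h k) = 0
          rw [hB, map_zero]
        rw [this, mul_zero]
      · exfalso
        apply hm
        have e1 := h1 g h hA
        have e2 := h1 h k hB
        have e3 : c h = a := by omega
        exact ⟨by rw [← h2 g h hA (by rw [hg2, e3]), hg1], e3⟩

theorem lab_phi_ab {n B : ℤ} (hn : 3 ≤ n) (i : ℤ) {M : Obj n B} {a0 : G} {x : M.I → G}
    (h : Lab M a0 x) (f : G) (a : ℤ) (hfa : ¬ (f = 1 ∧ a = 0)) :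
    Acyc (phi i M).E {e | pLab (by omega) i M x e = f ∧ ((phi i M).pos e).1 = a} := by
  have hn2 : (2 : ℤ) ≤ n := by omega
  have hc := h.const
  have hcφ := lab_phi_const i h.const
  -- jj and positions
  have hDT0 : ∀ g e : M.I, (M.pos g).1 = (M.pos e).1 → DT M g e = 0 := by
    intro g e he
    rw [cj31_DT hc]
    split_ifs with h1
    · by_contra hne
      have h2 := (cj31_le hc hne).2
      unfold jj at h1
      omega
    · rfl
  have hD0 : ∀ g e : M.I, (M.pos g).1 < (M.pos e).1 → M.D g e = 0 := by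
    intro g e he
    by_contra hne
    have h2 := (cj31_le hc hne).1
    omega
  have hDT0' : ∀ g e : M.I, (M.pos g).1 < (M.pos e).1 → DT M g e = 0 := by
    intro g e he
    rw [cj31_DT hc, hD0 g e he, ite_self]
  have hDZ0' : ∀ g e : M.I, (M.pos g).1 < (M.pos e).1 → DZ M g e = 0 := by
    intro g e he
    rw [cj31_DZ hc, hD0 g e he, ite_self]
  set S : Set (phi i M).I := {e | pLab hn2 i M x e = f ∧ ((phi i M).pos e).1 = a} with hSdef
  have hsq : SqZ (phi i M).E S := by
    refine cj31_sqz (phi i M) (pLab hn2 i M x) (fun e => ((phi i M).pos e).1) ?_ ?_ f a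
    · intro g e hne
      exact (cj31_le hcφ hne).1
    · intro g e hne he
      exact lab_phi_tb hn i h g e hne he
  have hp1 : ∀ e : M.I, ((phi i M).pos (Sum.inl e)).1 = (M.pos e).1 := by
    intro e
    show (M.pos e + (if Cl n i (M.pos e) then (0, 1) else 0)).1 = _
    split_ifs <;> simp
  have hp2 : ∀ e : CI i M, ((phi i M).pos (Sum.inr (Sum.inl e))).1 = (M.pos e.1).1 + 1 := by
    intro e
    rfl
  have hp3 : ∀ e : CI i M, ((phi i M).pos (Sum.inr (Sum.inr e))).1 = (M.pos e.1).1 + 1 := by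
    intro e
    rfl
  refine acyc_union (phi i M).E S {j | ∃ e, j = Sum.inl e ∧ Sum.inl e ∈ S}
    {j | ∃ e, j = Sum.inr e ∧ Sum.inr e ∈ S} ?_ ?_ ?_ hsq ?_ ?_
  · ext j
    rcases j with e | e
    · simp only [Set.mem_union, Set.mem_setOf_eq, Sum.inl.injEq, exists_eq_left', reduceCtorEq,
        false_and, exists_false, or_false]
    · simp only [Set.mem_union, Set.mem_setOf_eq, Sum.inr.injEq, exists_eq_left', reduceCtorEq,
        false_and, exists_false, false_or]
  · rw [Set.disjoint_left]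
    rintro j ⟨e, rfl, -⟩ ⟨e', he', -⟩
    exact absurd he' (by simp)
  · rintro g ⟨g', rfl, hg⟩ k ⟨e, rfl, he⟩
    have ha1 : (M.pos e).1 = a := (hp1 e).symm.trans he.2
    rcases g' with g' | g'
    · have ha2 : (M.pos g'.1).1 + 1 = a := (hp2 g').symm.trans hg.2
      show ev (pTV i M g' e) = 0
      have e1 : pTV i M g' e = 0 := by
        unfold pTV
        rw [Matrix.add_apply, cj31_Pmul, cj31_mulP, hD0 g'.1 e (by omega), zero_add]
        split_ifs with hC
        · rw [Matrix.add_apply, cj31_Pmul]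
          show DT M g'.1 e + DZ M g'.1 e = 0
          rw [hDT0' g'.1 e (by omega), hDZ0' g'.1 e (by omega), add_zero]
        · rfl
      rw [e1, map_zero]
    · have ha2 : (M.pos g'.1).1 + 1 = a := (hp3 g').symm.trans hg.2
      show ev (if g'.1 = e then 1 else 0) = 0
      rw [if_neg, map_zero]
      rintro rfl
      omega
  · -- the part coming from `M`
    refine cj31_transfer (phi i M).E M.E _
      {e | x e = (sigG hn2 i)⁻¹ f ∧ (M.pos e).1 = a} Sum.inl (fun _ _ _ _ h => Sum.inl_injective h)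
      ?_ ?_ (h.ab _ a ?_)
    · ext j
      constructor
      · rintro ⟨e, rfl, he1, he2⟩
        refine ⟨e, ⟨?_, (hp1 e).symm.trans he2⟩, rfl⟩
        have he1' : sigG hn2 i (x e) = f := he1
        rw [← he1', MulAut.inv_apply_self]
      · rintro ⟨e, ⟨he1, he2⟩, rfl⟩
        refine ⟨e, rfl, ?_, (hp1 e).trans he2⟩
        show sigG hn2 i (x e) = f
        rw [he1, MulAut.apply_inv_self]
    · rintro g ⟨-, hg⟩ e ⟨-, he⟩
      show ev (pVV i M g e) = ev (M.D g e)
      unfold pVV
      rw [Matrix.add_apply, cj31_mulP]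
      split_ifs with hC
      · show ev (M.D g e + DT M g e) = _
        rw [hDT0 g e (by omega), add_zero]
      · rw [add_zero]
    · rintro ⟨h1, h2⟩
      refine hfa ⟨?_, h2⟩
      have := congrArg (sigG hn2 i) h1
      rwa [MulAut.apply_inv_self, map_one] at this
  · -- the new generators
    have hpairs := cj31_pairs ((mB i M).map ev) ((pTU i M).map ev)
      {e : CI i M | (Sum.inr (Sum.inl e) : PI i M) ∈ S}
    refine cj31_transfer (phi i M).E _ _ _ Sum.inr (fun _ _ _ _ h => Sum.inr_injective h)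
      ?_ ?_ hpairs
    · ext j
      constructor
      · rintro ⟨e, rfl, he⟩
        refine ⟨e, ?_, rfl⟩
        rcases e with e | e
        · exact he
        · exact he
      · rintro ⟨e, he, rfl⟩
        refine ⟨e, rfl, ?_⟩
        rcases e with e | e
        · exact he
        · exact he
    · rintro g hg e he
      rcases g with g | g <;> rcases e with e | e
      · have h1 : (M.pos g.1).1 + 1 = a := hg.2
        have h2 : (M.pos e.1).1 + 1 = a := he.2
        show ev (pTT i M g e) = ev (mB i M g e)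
        unfold pTT
        rw [Matrix.add_apply, cj31_Pmul]
        show ev (DT M g.1 e.1 + mB i M g e) = _
        rw [hDT0 g.1 e.1 (by omega), zero_add]
      · rfl
      · show ev ((1 : Matrix (CI i M) (CI i M) A) g e) =
          (1 : Matrix (CI i M) (CI i M) (ZMod 2)) g e
        rw [Matrix.one_apply, Matrix.one_apply]
        split_ifs
        · exact map_one ev
        · exact map_zero ev
      · rfl

/-- transport of acyclicity along an injection -/
theorem cj32_transfer {I J : Type} [Fintype I] [Fintype J] (D : Matrix I I (ZMod 2))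
    (D' : Matrix J J (ZMod 2)) (S : Set I) (S' : Set J) (ι : J → I) (hinj : Set.InjOn ι S')
    (hS : S = ι '' S') (hD : ∀ g ∈ S', ∀ h ∈ S', D (ι g) (ι h) = D' g h) (h : Acyc D' S') :
    Acyc D S := by
  -- sums over `S`
  have key : ∀ F : I → ZMod 2, (∀ i, i ∉ S → F i = 0) →
      ∑ i, F i = ∑ j, (if j ∈ S' then F (ι j) else 0) := by
    intro F hF
    have e1 : ∑ j, (if j ∈ S' then F (ι j) else 0) =
        ∑ j ∈ Finset.univ.filter (fun j => j ∈ S'), F (ι j) := by
      rw [Finset.sum_filter]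
    have hi : Set.InjOn ι ((Finset.univ.filter (fun j => j ∈ S') : Finset J) : Set J) := by
      intro a ha b hb hab
      rw [Finset.mem_coe, Finset.mem_filter] at ha hb
      exact hinj ha.2 hb.2 hab
    rw [e1, ← Finset.sum_image hi]
    symm
    refine Finset.sum_subset (Finset.subset_univ _) fun i _ hni => hF i fun hiS => hni ?_
    rw [hS] at hiS
    obtain ⟨j, hj, rfl⟩ := hiS
    exact Finset.mem_image.2 ⟨j, Finset.mem_filter.2 ⟨Finset.mem_univ _, hj⟩, rfl⟩
  intro v hv hc
  obtain ⟨w', hw0, hw⟩ := h (fun j => if j ∈ S' then v (ι j) else 0)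
    (fun j hj => if_neg hj) (fun k hk => by
      have h1 := hc (ι k) (by rw [hS]; exact ⟨k, hk, rfl⟩)
      have h2 : (v ᵥ* D) (ι k) = ∑ i, v i * D i (ι k) := rfl
      rw [h2, key (fun i => v i * D i (ι k)) (fun i hi => by rw [hv i hi, zero_mul])] at h1
      refine Eq.trans (Finset.sum_congr rfl fun j _ => ?_) h1
      show (if j ∈ S' then v (ι j) else 0) * D' j k = _
      by_cases hj : j ∈ S'
      · rw [if_pos hj, if_pos hj, hD j hj k hk]
      · rw [if_neg hj, if_neg hj, zero_mul])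
  refine ⟨fun i => ∑ j, if j ∈ S' ∧ ι j = i then w' j else 0, ?_, ?_⟩
  · intro i hi
    refine Finset.sum_eq_zero fun j _ => if_neg ?_
    rintro ⟨hj, rfl⟩
    exact hi (by rw [hS]; exact ⟨j, hj, rfl⟩)
  · intro i hi
    rw [hS] at hi
    obtain ⟨k, hk, rfl⟩ := hi
    have h1 := hw k hk
    rw [if_pos hk] at h1
    rw [← h1]
    show ∑ i, (∑ j, if j ∈ S' ∧ ι j = i then w' j else 0) * D i (ι k) = ∑ j, w' j * D' j k
    have e1 : ∀ i, (∑ j, if j ∈ S' ∧ ι j = i then w' j else 0) * D i (ι k) =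
        ∑ j, if ι j = i then (if j ∈ S' then w' j * D (ι j) (ι k) else 0) else 0 := by
      intro i
      rw [Finset.sum_mul]
      refine Finset.sum_congr rfl fun j _ => ?_
      by_cases hj : j ∈ S'
      · by_cases hji : ι j = i
        · rw [if_pos ⟨hj, hji⟩, if_pos hji, if_pos hj, hji]
        · rw [if_neg fun h => hji h.2, if_neg hji, zero_mul]
      · rw [if_neg fun h => hj h.1, if_neg hj, zero_mul, ite_self]
    rw [Finset.sum_congr rfl fun i _ => e1 i, Finset.sum_comm]
    refine Finset.sum_congr rfl fun j _ => ?_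
    rw [Finset.sum_ite_eq, if_pos (Finset.mem_univ _)]
    by_cases hj : j ∈ S'
    · rw [if_pos hj, hD j hj k hk]
    · rw [if_neg hj, hw0 j hj, zero_mul]

/-- the complex with matrix `[[β, κ], [1, β]]` -/
theorem cj32_pairs {T : Type} [Fintype T] [DecidableEq T] (β κ : Matrix T T (ZMod 2)) (T0 : Set T) :
    Acyc (Matrix.fromBlocks β κ 1 β) {j : T ⊕ T | Sum.elim id id j ∈ T0} := by
  intro v hv hc
  refine ⟨Sum.elim (fun _ => 0) (fun e => v (Sum.inl e)), ?_, ?_⟩
  · rintro (e | e) he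
    · rfl
    · exact hv (Sum.inl e) he
  · have h0 : ∀ a b : ZMod 2, a + b = 0 → a = b := by decide
    rintro (e | e) he
    · show ∑ j : T ⊕ T, _ = _
      rw [Fintype.sum_sum_type]
      simp only [Sum.elim_inl, Sum.elim_inr, zero_mul, Finset.sum_const_zero, zero_add,
        Matrix.fromBlocks_apply₂₁, Matrix.one_apply, mul_ite, mul_one, mul_zero,
        Finset.sum_ite_eq', Finset.mem_univ, if_true]
    · have h1 := hc (Sum.inl e) he
      have h2 : (v ᵥ* Matrix.fromBlocks β κ 1 β) (Sum.inl e) =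
          ∑ g, v (Sum.inl g) * β g e + v (Sum.inr e) := by
        show ∑ j : T ⊕ T, _ = _
        rw [Fintype.sum_sum_type]
        simp only [Matrix.fromBlocks_apply₁₁,
          Matrix.fromBlocks_apply₂₁, Matrix.one_apply, mul_ite, mul_one, mul_zero,
          Finset.sum_ite_eq', Finset.mem_univ, if_true]
      rw [h2] at h1
      show ∑ j : T ⊕ T, _ = _
      rw [Fintype.sum_sum_type]
      simp only [Sum.elim_inl, Sum.elim_inr, zero_mul, Finset.sum_const_zero, zero_add,
        Matrix.fromBlocks_apply₂₂]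
      exact h0 _ _ h1

theorem cj32_le {n B : ℤ} {M : Obj n B} (hc : ∀ g h k, k ≠ 0 → (M.D g h).coeff k = 0)
    {g h : M.I} (hne : M.D g h ≠ 0) : M.pos h ≤ M.pos g := by
  have h0 : (M.D g h).coeff 0 ≠ 0 := by
    intro h0
    apply hne
    ext k
    by_cases hk : k = 0
    · rw [hk, h0]; rfl
    · rw [hc g h k hk]; rfl
  have := M.fil g h 0 h0
  simp only [zero_mul, Prod.fst_sub, Prod.snd_sub] at this
  exact ⟨by linarith [this.1], by linarith [this.2]⟩

theorem cj32_DT {n B : ℤ} {M : Obj n B} (hc : ∀ g h k, k ≠ 0 → (M.D g h).coeff k = 0)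
    (g h : M.I) : DT M g h = if 0 < jj (M.pos g) - jj (M.pos h) then M.D g h else 0 := by
  show part _ (M.D g h) = _
  ext k
  rw [coeff_part]
  by_cases hk : k = 0
  · subst hk
    rw [zero_mul, sub_zero]
    split_ifs <;> rfl
  · rw [hc g h k hk, ite_self]
    split_ifs
    · rw [hc g h k hk]
    · rfl

theorem cj32_DZ {n B : ℤ} {M : Obj n B} (hc : ∀ g h k, k ≠ 0 → (M.D g h).coeff k = 0)
    (g h : M.I) : DZ M g h = if jj (M.pos g) - jj (M.pos h) = 0 then M.D g h else 0 := by
  show part _ (M.D g h) = _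
  ext k
  rw [coeff_part]
  by_cases hk : k = 0
  · subst hk
    rw [zero_mul, sub_zero]
    split_ifs <;> rfl
  · rw [hc g h k hk, ite_self]
    split_ifs
    · rw [hc g h k hk]
    · rfl

theorem cj32_mulP {n B : ℤ} (i : ℤ) (M : Obj n B) {α : Type} (X : Matrix α (CI i M) A) (g : α)
    (h : M.I) : (X * mP i M) g h = if hC : Cl n i (M.pos h) then X g ⟨h, hC⟩ else 0 := by
  rw [Matrix.mul_apply]
  by_cases hC : Cl n i (M.pos h)
  · rw [dif_pos hC, Finset.sum_eq_single ⟨h, hC⟩]
    · simp [mP]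
    · intro e _ he
      have : e.1 ≠ h := fun h' => he (Subtype.ext h')
      simp [mP, this]
    · intro h'
      exact absurd (Finset.mem_univ _) h'
  · rw [dif_neg hC]
    refine Finset.sum_eq_zero fun e _ => ?_
    have : e.1 ≠ h := fun h' => hC (h' ▸ e.2)
    simp [mP, this]

theorem cj32_Pmul {n B : ℤ} (i : ℤ) (M : Obj n B) {α : Type} (Y : Matrix M.I α A) (g : CI i M)
    (h : α) : (mP i M * Y) g h = Y g.1 h := by
  rw [Matrix.mul_apply, Finset.sum_eq_single g.1]
  · simp [mP]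
  · intro e _ he
    simp [mP, Ne.symm he]
  · intro h'
    exact absurd (Finset.mem_univ _) h'

/-- label sets: the differential restricted to them squares to zero -/
theorem cj32_sqz {n B : ℤ} (N : Obj n B) (L : N.I → G) (c : N.I → ℤ)
    (h1 : ∀ g h, N.D g h ≠ 0 → c h ≤ c g) (h2 : ∀ g h, N.D g h ≠ 0 → c g = c h → L g = L h)
    (f : G) (a : ℤ) : SqZ N.E {e | L e = f ∧ c e = a} := by
  rintro g ⟨hg1, hg2⟩ k ⟨hk1, hk2⟩
  have h3 : (N.E * N.E) g k = 0 := by
    have e : N.E * N.E = (N.D * N.D).map ev := by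
      unfold Obj.E
      rw [Matrix.map_mul]
    rw [e, N.sq]
    simp
  rw [Matrix.mul_apply] at h3
  refine Eq.trans (Finset.sum_congr rfl fun h _ => ?_) h3
  by_cases hm : h ∈ {e | L e = f ∧ c e = a}
  · rw [if_pos hm]
  · rw [if_neg hm]
    by_cases hA : N.D g h = 0
    · have : N.E g h = 0 := by
        show ev (N.D g h) = 0
        rw [hA, map_zero]
      rw [this, zero_mul]
    · by_cases hB : N.D h k = 0
      · have : N.E h k = 0 := by
          show ev (N.D h k) = 0
          rw [hB, map_zero]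
        rw [this, mul_zero]
      · exfalso
        apply hm
        have e1 := h1 g h hA
        have e2 := h1 h k hB
        have e3 : c h = a := by omega
        exact ⟨by rw [← h2 g h hA (by rw [hg2, e3]), hg1], e3⟩

theorem cj32_sig {n : ℤ} (hn : 2 ≤ n) (i j : ℤ) :
    sigG hn i (gL j) = if n ∣ j - i then gL (j - 1) * (gL j)⁻¹ * gL (j + 1) else gL j := by
  show sigE n i (gL j) = _
  unfold sigE
  rw [gL, FreeGroup.lift_apply_of]
  rfl

theorem lab_phi_at {n B : ℤ} (hn : 3 ≤ n) (i : ℤ) {M : Obj n B} {a0 : G} {x : M.I → G}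
    (h : Lab M a0 x) (c : G) (b : ℤ) (hc : c ≠ sigG (by omega : (2:ℤ) ≤ n) i a0) :
    Acyc (phi i M).E {e | pLab (by omega) i M x e * gL (jj ((phi i M).pos e)) = c ∧
      ((phi i M).pos e).2 = b} := by
  have hn2 : (2 : ℤ) ≤ n := by omega
  have hcc := h.const
  have hcφ := lab_phi_const i h.const
  have hD0 : ∀ g e : M.I, (M.pos g).2 < (M.pos e).2 → M.D g e = 0 := by
    intro g e he
    by_contra hne
    have h2 := (cj32_le hcc hne).2
    omega
  have hDT0' : ∀ g e : M.I, (M.pos g).2 < (M.pos e).2 → DT M g e = 0 := by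
    intro g e he
    rw [cj32_DT hcc, hD0 g e he, ite_self]
  -- for equal second coordinates
  have hjj : ∀ g e : M.I, (M.pos g).2 = (M.pos e).2 → M.D g e ≠ 0 →
      0 ≤ jj (M.pos g) - jj (M.pos e) := by
    intro g e he hne
    have h2 := (cj32_le hcc hne).1
    unfold jj
    omega
  have hDTZ : ∀ g e : M.I, (M.pos g).2 = (M.pos e).2 → DT M g e + DZ M g e = M.D g e := by
    intro g e he
    rw [cj32_DT hcc, cj32_DZ hcc]
    by_cases hne : M.D g e = 0
    · rw [hne, ite_self, ite_self, add_zero]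
    · have h2 := hjj g e he hne
      by_cases h3 : 0 < jj (M.pos g) - jj (M.pos e)
      · rw [if_pos h3, if_neg (by omega), add_zero]
      · rw [if_neg h3, if_pos (by omega), zero_add]
  set S : Set (phi i M).I := {e | pLab hn2 i M x e * gL (jj ((phi i M).pos e)) = c ∧
    ((phi i M).pos e).2 = b} with hSdef
  have hsq : SqZ (phi i M).E S := by
    refine cj32_sqz (phi i M) (fun e => pLab hn2 i M x e * gL (jj ((phi i M).pos e)))
      (fun e => ((phi i M).pos e).2) ?_ ?_ c b
    · intro g e hne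
      exact (cj32_le hcφ hne).2
    · intro g e hne he
      exact lab_phi_tt hn i h g e hne he
  -- positions
  have hq1 : ∀ e : M.I, ¬ Cl n i (M.pos e) → (phi i M).pos (Sum.inl e) = M.pos e := by
    intro e he
    show M.pos e + (if Cl n i (M.pos e) then (0, 1) else 0) = _
    rw [if_neg he, add_zero]
  have hq2 : ∀ e : M.I, Cl n i (M.pos e) →
      (phi i M).pos (Sum.inl e) = M.pos e + (0, 1) := by
    intro e he
    show M.pos e + (if Cl n i (M.pos e) then (0, 1) else 0) = _
    rw [if_pos he]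
  have hq3 : ∀ e : CI i M, (phi i M).pos (Sum.inr (Sum.inl e)) = M.pos e.1 + (1, 0) :=
    fun _ => rfl
  have hq4 : ∀ e : CI i M, (phi i M).pos (Sum.inr (Sum.inr e)) = M.pos e.1 + (1, 1) :=
    fun _ => rfl
  -- above vertices
  have hl1 : ∀ e : M.I, ¬ Cl n i (M.pos e) →
      pLab hn2 i M x (Sum.inl e) * gL (jj ((phi i M).pos (Sum.inl e))) =
        sigG hn2 i (x e * gL (jj (M.pos e))) := by
    intro e he
    have he' : ¬ n ∣ jj (M.pos e) - i := he
    rw [hq1 e he, map_mul, cj32_sig, if_neg he']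
    rfl
  have hl3 : ∀ e : CI i M,
      pLab hn2 i M x (Sum.inr (Sum.inl e)) * gL (jj ((phi i M).pos (Sum.inr (Sum.inl e)))) =
        sigG hn2 i (x e.1 * gL (jj (M.pos e.1))) := by
    intro e
    have h1 : jj (M.pos e.1 + (1, 0)) = jj (M.pos e.1) + 1 := by
      unfold jj
      simp only [Prod.fst_add, Prod.snd_add]
      ring
    have h2 : n ∣ jj (M.pos e.1) - i := e.2
    rw [hq3 e, map_mul, cj32_sig, if_pos h2, h1]
    show sigG hn2 i (x e.1) * gL (jj (M.pos e.1) - 1) * (gL (jj (M.pos e.1)))⁻¹ * _ = _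
    simp only [mul_assoc]
  have hl24 : ∀ e : CI i M,
      pLab hn2 i M x (Sum.inl e.1) * gL (jj ((phi i M).pos (Sum.inl e.1))) =
      pLab hn2 i M x (Sum.inr (Sum.inr e)) * gL (jj ((phi i M).pos (Sum.inr (Sum.inr e)))) := by
    intro e
    have h1 : jj (M.pos e.1 + (0, 1)) = jj (M.pos e.1) - 1 := by
      unfold jj
      simp only [Prod.fst_add, Prod.snd_add]
      ring
    have h2 : jj (M.pos e.1 + (1, 1)) = jj (M.pos e.1) := by
      unfold jj
      simp only [Prod.fst_add, Prod.snd_add]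
      ring
    rw [hq4 e, hq2 e.1 e.2, h1, h2]
    show sigG hn2 i (x e.1) * _ =
      sigG hn2 i (x e.1) * gL (jj (M.pos e.1) - 1) * (gL (jj (M.pos e.1)))⁻¹ * _
    simp only [mul_assoc, inv_mul_cancel, mul_one]
  -- the partition
  let top : PI i M → Prop := fun j =>
    Sum.elim (fun e => ¬ Cl n i (M.pos e)) (Sum.elim (fun _ => True) (fun _ => False)) j
  refine acyc_union (phi i M).E S {j | j ∈ S ∧ top j} {j | j ∈ S ∧ ¬ top j} ?_ ?_ ?_ hsq ?_ ?_
  · ext j
    constructor
    · intro hj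
      by_cases ht : top j
      · exact Or.inl ⟨hj, ht⟩
      · exact Or.inr ⟨hj, ht⟩
    · rintro (hj | hj)
      · exact hj.1
      · exact hj.1
  · rw [Set.disjoint_left]
    rintro j ⟨-, h1⟩ ⟨-, h2⟩
    exact h2 h1
  · rintro g ⟨hg, hgt⟩ k ⟨hk, hkt⟩
    rcases g with g | g | g
    · have hgC : Cl n i (M.pos g) := by
        by_contra hcon
        exact hgt hcon
      have hgb : (M.pos g).2 + 1 = b := by
        have := hg.2
        rw [hq2 g hgC] at this
        exact this
      rcases k with k | k | k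
      · have hkC : ¬ Cl n i (M.pos k) := hkt
        have hkb : (M.pos k).2 = b := by
          have := hk.2
          rw [hq1 k hkC] at this
          exact this
        show ev (pVV i M g k) = 0
        have e1 : pVV i M g k = 0 := by
          unfold pVV
          rw [Matrix.add_apply, cj32_mulP, dif_neg hkC, hD0 g k (by omega), add_zero]
        rw [e1, map_zero]
      · have hkb : (M.pos k.1).2 = b := by
          have := hk.2
          rw [hq3 k] at this
          simpa using this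
        show ev (DT M g k.1) = 0
        rw [hDT0' g k.1 (by omega), map_zero]
      · exact absurd hkt (fun h => h)
    · exact absurd trivial hgt
    · have hgb : (M.pos g.1).2 + 1 = b := by
        have := hg.2
        rw [hq4 g] at this
        exact this
      rcases k with k | k | k
      · have hkC : ¬ Cl n i (M.pos k) := hkt
        show ev (if g.1 = k then 1 else 0) = 0
        rw [if_neg, map_zero]
        intro h'
        exact hkC (h' ▸ g.2)
      · have hkb : (M.pos k.1).2 = b := by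
          have := hk.2
          rw [hq3 k] at this
          simpa using this
        show ev ((1 : Matrix (CI i M) (CI i M) A) g k) = 0
        rw [Matrix.one_apply, if_neg, map_zero]
        rintro rfl
        omega
      · exact absurd hkt (fun h => h)
  · -- the part coming from `M`
    have hinj : Set.InjOn (fun e : M.I => if hC : Cl n i (M.pos e)
        then (Sum.inr (Sum.inl ⟨e, hC⟩) : PI i M) else Sum.inl e)
        {e | x e * gL (jj (M.pos e)) = (sigG hn2 i)⁻¹ c ∧ (M.pos e).2 = b} := by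
      intro e _ e' _ hee
      by_cases h1 : Cl n i (M.pos e) <;> by_cases h2 : Cl n i (M.pos e')
      · simp only [dif_pos h1, dif_pos h2] at hee
        exact congrArg Subtype.val (Sum.inl_injective (Sum.inr_injective hee))
      · simp only [dif_pos h1, dif_neg h2] at hee
        exact absurd hee (by simp)
      · simp only [dif_neg h1, dif_pos h2] at hee
        exact absurd hee (by simp)
      · simp only [dif_neg h1, dif_neg h2] at hee
        exact Sum.inl_injective hee
    refine cj32_transfer (phi i M).E M.E _ _ _ hinj ?_ ?_ (h.at' _ b ?_)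
    · ext j
      constructor
      · rintro ⟨⟨hj1, hj2⟩, hjt⟩
        rcases j with e | e | e
        · have heC : ¬ Cl n i (M.pos e) := hjt
          refine ⟨e, ⟨?_, ?_⟩, ?_⟩
          · rw [hl1 e heC] at hj1
            rw [← hj1, MulAut.inv_apply_self]
          · rw [hq1 e heC] at hj2
            exact hj2
          · show (if hC : Cl n i (M.pos e) then _ else _) = _
            rw [dif_neg heC]
        · refine ⟨e.1, ⟨?_, ?_⟩, ?_⟩
          · rw [hl3 e] at hj1
            rw [← hj1, MulAut.inv_apply_self]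
          · rw [hq3 e] at hj2
            simpa using hj2
          · show (if hC : Cl n i (M.pos e.1) then _ else _) = _
            rw [dif_pos e.2]
        · exact absurd hjt (fun h => h)
      · rintro ⟨e, ⟨he1, he2⟩, rfl⟩
        by_cases heC : Cl n i (M.pos e)
        · simp only [dif_pos heC]
          refine ⟨⟨?_, ?_⟩, trivial⟩
          · rw [hl3 ⟨e, heC⟩]
            show sigG hn2 i (x e * gL (jj (M.pos e))) = c
            rw [he1, MulAut.apply_inv_self]
          · rw [hq3 ⟨e, heC⟩]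
            simpa using he2
        · simp only [dif_neg heC]
          refine ⟨⟨?_, ?_⟩, heC⟩
          · rw [hl1 e heC, he1, MulAut.apply_inv_self]
          · rw [hq1 e heC]
            exact he2
    · rintro g ⟨-, hg⟩ e ⟨-, he⟩
      have hge : (M.pos g).2 = (M.pos e).2 := by omega
      by_cases hgC : Cl n i (M.pos g) <;> by_cases heC : Cl n i (M.pos e)
      · simp only [dif_pos hgC, dif_pos heC]
        show ev (pTT i M ⟨g, hgC⟩ ⟨e, heC⟩) = ev (M.D g e)
        unfold pTT
        rw [Matrix.add_apply, cj32_Pmul]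
        show ev (DT M g e + DZ M g e) = _
        rw [hDTZ g e hge]
      · simp only [dif_pos hgC, dif_neg heC]
        show ev (pTV i M ⟨g, hgC⟩ e) = ev (M.D g e)
        unfold pTV
        rw [Matrix.add_apply, cj32_Pmul, cj32_mulP, dif_neg heC, add_zero]
      · simp only [dif_neg hgC, dif_pos heC]
        show ev (DT M g e) = ev (M.D g e)
        congr 1
        rw [← hDTZ g e hge, cj32_DZ hcc]
        split_ifs with h3
        · by_cases hne : M.D g e = 0
          · rw [hne, add_zero]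
          · exfalso
            have h4 : jj (M.pos g) = jj (M.pos e) := by omega
            apply hgC
            show n ∣ jj (M.pos g) - i
            rw [h4]
            exact heC
        · rw [add_zero]
      · simp only [dif_neg hgC, dif_neg heC]
        show ev (pVV i M g e) = ev (M.D g e)
        unfold pVV
        rw [Matrix.add_apply, cj32_mulP, dif_neg heC, add_zero]
    · intro h1
      apply hc
      rw [← h1, MulAut.apply_inv_self]
  · -- the new generators
    have hpairs := cj32_pairs ((mB i M).map ev)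
      (Matrix.of fun (g e : CI i M) => ev (mC i M g.1 e))
      {e : CI i M | (Sum.inl e.1 : PI i M) ∈ S}
    have hiff : ∀ e : CI i M, (Sum.inl e.1 : PI i M) ∈ S ↔ (Sum.inr (Sum.inr e) : PI i M) ∈ S := by
      intro e
      have h2 : ((phi i M).pos (Sum.inl e.1)).2 = ((phi i M).pos (Sum.inr (Sum.inr e))).2 := by
        rw [hq4 e, hq2 e.1 e.2]
        rfl
      show (_ ∧ _) ↔ (_ ∧ _)
      rw [hl24 e, h2]
    refine cj32_transfer (phi i M).E _ _ _
      (Sum.elim (fun e : CI i M => (Sum.inl e.1 : PI i M)) (fun e => Sum.inr (Sum.inr e)))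
      ?_ ?_ ?_ hpairs
    · rintro (e | e) - (e' | e') - hee
      · have := Sum.inl_injective (show (Sum.inl e.1 : PI i M) = Sum.inl e'.1 from hee)
        rw [Subtype.ext this]
      · exact absurd (show (Sum.inl e.1 : PI i M) = Sum.inr (Sum.inr e') from hee) (by simp)
      · exact absurd (show (Sum.inr (Sum.inr e) : PI i M) = Sum.inl e'.1 from hee) (by simp)
      · have := Sum.inr_injective (Sum.inr_injective
          (show (Sum.inr (Sum.inr e) : PI i M) = Sum.inr (Sum.inr e') from hee))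
        rw [this]
    · ext j
      constructor
      · rintro ⟨hj, hjt⟩
        rcases j with e | e | e
        · have heC : Cl n i (M.pos e) := by
            by_contra hcon
            exact hjt hcon
          exact ⟨Sum.inl ⟨e, heC⟩, hj, rfl⟩
        · exact absurd trivial hjt
        · exact ⟨Sum.inr e, (hiff e).2 hj, rfl⟩
      · rintro ⟨e, he, rfl⟩
        rcases e with e | e
        · exact ⟨he, fun h' => h' e.2⟩
        · exact ⟨(hiff e).1 he, fun h' => h'⟩
    · have hb2 : ∀ e : CI i M, (Sum.inl e.1 : PI i M) ∈ S → (M.pos e.1).2 + 1 = b := by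
        intro e he
        have := he.2
        rw [hq2 e.1 e.2] at this
        exact this
      rintro g hg e he
      rcases g with g | g <;> rcases e with e | e
      · have h1 := hb2 g hg
        have h2 := hb2 e he
        show ev (pVV i M g.1 e.1) = ev (DZ M g.1 e.1)
        unfold pVV
        rw [Matrix.add_apply, cj32_mulP, dif_pos e.2]
        show ev (M.D g.1 e.1 + DT M g.1 e.1) = _
        rw [← hDTZ g.1 e.1 (by omega)]
        congr 1
        rw [add_comm (DT M g.1 e.1), add_assoc, A_add_self, add_zero]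
      · rfl
      · show ev (if g.1 = e.1 then 1 else 0) = (1 : Matrix (CI i M) (CI i M) (ZMod 2)) g e
        rw [Matrix.one_apply]
        by_cases hge : g = e
        · rw [if_pos hge, if_pos (congrArg Subtype.val hge), map_one]
        · rw [if_neg hge, if_neg (fun h' => hge (Subtype.ext h')), map_zero]
      · rfl

theorem lab_phi {n B : ℤ} (hn : 3 ≤ n) (i : ℤ) {M : Obj n B} {a0 : G} {x : M.I → G}
    (h : Lab M a0 x) :
    Lab (phi i M) (sigG (by omega : (2:ℤ) ≤ n) i a0) (pLab (by omega) i M x) where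
  const := lab_phi_const i h.const
  tb := lab_phi_tb hn i h
  tt := lab_phi_tt hn i h
  ab := lab_phi_ab hn i h
  at' := lab_phi_at hn i h

theorem cj28_mir (j : ℤ) : mirG (gL j) = gL (-j) := by
  unfold mirG gL
  simp [FreeGroup.freeGroupCongr]

theorem cj28_jj (p : ℤ × ℤ) : jj (-p) = -jj p := by
  unfold jj
  simp only [Prod.fst_neg, Prod.snd_neg]
  ring

theorem cj28_pos {n B : ℤ} {M : Obj n B} (hconst : ∀ g h k, k ≠ 0 → (M.D g h).coeff k = 0) {g h : M.I}
    (hne : M.D g h ≠ 0) : (M.pos h).1 ≤ (M.pos g).1 ∧ (M.pos h).2 ≤ (M.pos g).2 := by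
  have h0 : (M.D g h).coeff 0 ≠ 0 := by
    intro h0
    apply hne
    ext k
    by_cases hk : k = 0
    · rw [hk, h0]
      simp
    · rw [hconst g h k hk]
      simp
  have h1 := M.fil g h 0 h0
  simp only [zero_mul, Prod.fst_sub, Prod.snd_sub, sub_nonneg] at h1
  exact h1

theorem cj28_E {n B : ℤ} {M : Obj n B} {g h : M.I} (hne : M.E g h ≠ 0) : M.D g h ≠ 0 := by
  intro h0
  apply hne
  show ev (M.D g h) = 0
  rw [h0, map_zero]

theorem cj28_sq {n B : ℤ} (M : Obj n B) (g k : M.I) : ∑ h, M.E g h * M.E h k = 0 := by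
  have h1 : M.E * M.E = 0 := by
    unfold Obj.E
    rw [← Matrix.map_mul, M.sq]
    ext i j
    simp
  have h2 := congrFun (congrFun h1 g) k
  rwa [Matrix.mul_apply] at h2

theorem cj28_SqZ {n B : ℤ} (M : Obj n B) (S : Set M.I)
    (hS : ∀ g ∈ S, ∀ k ∈ S, ∀ h, M.D g h ≠ 0 → M.D h k ≠ 0 → h ∈ S) : SqZ M.E S := by
  intro g hg k hk
  refine Eq.trans (Finset.sum_congr rfl fun h _ => ?_) (cj28_sq M g k)
  by_cases hh : h ∈ S
  · rw [if_pos hh]
  · rw [if_neg hh]
    symm
    by_contra hne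
    have h1 : M.E g h ≠ 0 := fun h0 => hne (by rw [h0, zero_mul])
    have h2 : M.E h k ≠ 0 := fun h0 => hne (by rw [h0, mul_zero])
    exact hh (hS g hg k hk h (cj28_E h1) (cj28_E h2))

theorem cj28_dualE {n B : ℤ} (M : Obj n B) : M.dual.E = (M.E)ᵀ := by
  unfold Obj.E
  rw [Matrix.transpose_map]

theorem lab_dual {n B : ℤ} {M : Obj n B} {a0 : G} {x : M.I → G} (h : Lab M a0 x) :
    Lab M.dual (mirG a0) (fun e => mirG (x e)) where
  const := fun g e l hl => h.const e g l hl
  tb := fun g e hne hp => by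
    have h1 : (M.pos e).1 = (M.pos g).1 := by
      have h2 : (-M.pos g).1 = (-M.pos e).1 := hp
      rw [Prod.fst_neg, Prod.fst_neg, neg_inj] at h2
      exact h2.symm
    exact (congrArg mirG (h.tb e g hne h1)).symm
  tt := fun g e hne hp => by
    have h1 : (M.pos e).2 = (M.pos g).2 := by
      have h2 : (-M.pos g).2 = (-M.pos e).2 := hp
      rw [Prod.snd_neg, Prod.snd_neg, neg_inj] at h2
      exact h2.symm
    have h2 := congrArg mirG (h.tt e g hne h1)
    rw [map_mul, map_mul, cj28_mir, cj28_mir] at h2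
    show mirG (x g) * gL (jj (-M.pos g)) = mirG (x e) * gL (jj (-M.pos e))
    rw [cj28_jj, cj28_jj]
    exact h2.symm
  ab := fun f a hfa => by
    have h1 := h.ab (mirG.symm f) (-a) (by
      rintro ⟨h2, h3⟩
      refine hfa ⟨?_, by linarith⟩
      rw [MulEquiv.symm_apply_eq] at h2
      rw [h2, map_one])
    have hS : {e | mirG (x e) = f ∧ (M.dual.pos e).1 = a} = {e | x e = mirG.symm f ∧ (M.pos e).1 = -a} := by
      ext e
      have h2 : (M.dual.pos e).1 = -(M.pos e).1 := rfl
      rw [Set.mem_setOf_eq, Set.mem_setOf_eq, h2, MulEquiv.eq_symm_apply]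
      constructor
      · rintro ⟨h4, h5⟩
        exact ⟨h4, by linarith⟩
      · rintro ⟨h4, h5⟩
        exact ⟨h4, by linarith⟩
    show Acyc M.dual.E {e | mirG (x e) = f ∧ (M.dual.pos e).1 = a}
    rw [hS, cj28_dualE]
    refine acyc_transpose M.E _ (cj28_SqZ M _ ?_) h1
    rintro g ⟨hg1, hg2⟩ k ⟨hk1, hk2⟩ e hne1 hne2
    have p1 := (cj28_pos h.const hne1).1
    have p2 := (cj28_pos h.const hne2).1
    have p3 : (M.pos g).1 = (M.pos e).1 := by linarith
    refine ⟨?_, by linarith⟩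
    rw [← h.tb g e hne1 p3]
    exact hg1
  at' := fun c b hc => by
    have h1 := h.at' (mirG.symm c) (-b) (by
      intro h2
      rw [MulEquiv.symm_apply_eq] at h2
      exact hc h2)
    have hS : {e | mirG (x e) * gL (jj (M.dual.pos e)) = c ∧ (M.dual.pos e).2 = b} =
        {e | x e * gL (jj (M.pos e)) = mirG.symm c ∧ (M.pos e).2 = -b} := by
      ext e
      have h2 : (M.dual.pos e).2 = -(M.pos e).2 := rfl
      have h3 : jj (M.dual.pos e) = -jj (M.pos e) := cj28_jj (M.pos e)
      rw [Set.mem_setOf_eq, Set.mem_setOf_eq, h2, h3, MulEquiv.eq_symm_apply, map_mul, cj28_mir]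
      constructor
      · rintro ⟨h4, h5⟩
        exact ⟨h4, by linarith⟩
      · rintro ⟨h4, h5⟩
        exact ⟨h4, by linarith⟩
    show Acyc M.dual.E {e | mirG (x e) * gL (jj (M.dual.pos e)) = c ∧ (M.dual.pos e).2 = b}
    rw [hS, cj28_dualE]
    refine acyc_transpose M.E _ (cj28_SqZ M _ ?_) h1
    rintro g ⟨hg1, hg2⟩ k ⟨hk1, hk2⟩ e hne1 hne2
    have p1 := (cj28_pos h.const hne1).2
    have p2 := (cj28_pos h.const hne2).2
    have p3 : (M.pos g).2 = (M.pos e).2 := by linarith
    refine ⟨?_, by linarith⟩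
    rw [← h.tt g e hne1 p3]
    exact hg1

theorem cj23_mir (j : ℤ) : mirG (gL j) = gL (-j) := by
  show FreeGroup.freeGroupCongr (Equiv.neg ℤ) (FreeGroup.of j) = FreeGroup.of (-j)
  simp

theorem mir_sig {n : ℤ} (hn : 2 ≤ n) (i : ℤ) (a : G) :
    mirG (sigG hn (-i) (mirG a)) = (sigG hn i)⁻¹ a := by
  have h : (mirG.toMonoidHom.comp ((sigE n (-i)).comp mirG.toMonoidHom)) = sigIE n i := by
    apply FreeGroup.ext_hom
    intro j
    show mirG (sigE n (-i) (mirG (gL j))) = sigIE n i (gL j)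
    rw [cj23_mir, cj23_sigE, cj23_sigIE]
    have e : -j - -i = -(j - i) := by ring
    have e' : n ∣ -j - -i ↔ n ∣ j - i := by rw [e, dvd_neg]
    by_cases h : n ∣ j - i
    · rw [if_pos h, if_pos (e'.2 h), map_mul, map_mul, map_inv, cj23_mir, cj23_mir, cj23_mir]
      have e1 : -(-j - 1) = j + 1 := by ring
      have e2 : -(-j + 1) = j - 1 := by ring
      rw [e1, e2, neg_neg]
    · rw [if_neg h, if_neg (fun h' => h (e'.1 h')), cj23_mir, neg_neg]
  have h2 := DFunLike.congr_fun h a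
  exact h2

theorem cj27_sh (k j : ℤ) : shG k (gL j) = gL (j + k) := by
  unfold shG gL
  simp [FreeGroup.freeGroupCongr]

theorem cj27_jj (k : ℤ) (p : ℤ × ℤ) : jj (p + (0, -k)) = jj p + k := by
  unfold jj
  simp only [Prod.fst_add, Prod.snd_add]
  ring

theorem lab_shift {n B : ℤ} (k : ℤ) {M : Obj n B} {a0 : G} {x : M.I → G} (h : Lab M a0 x) :
    Lab (M.shift (0, -k)) (shG k a0) (fun e => shG k (x e)) where
  const := fun g e l hl => h.const g e l hl
  tb := fun g e hne hp => by
    have hp' : (M.pos g).1 = (M.pos e).1 := by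
      have h1 : (M.pos g + (0, -k)).1 = (M.pos e + (0, -k)).1 := hp
      simpa using h1
    exact congrArg (shG k) (h.tb g e hne hp')
  tt := fun g e hne hp => by
    have hp' : (M.pos g).2 = (M.pos e).2 := by
      have h1 : (M.pos g + (0, -k)).2 = (M.pos e + (0, -k)).2 := hp
      simpa using h1
    have h2 := congrArg (shG k) (h.tt g e hne hp')
    rw [map_mul, map_mul, cj27_sh, cj27_sh] at h2
    show shG k (x g) * gL (jj (M.pos g + (0, -k))) = shG k (x e) * gL (jj (M.pos e + (0, -k)))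
    rw [cj27_jj, cj27_jj]
    exact h2
  ab := fun f a hfa => by
    have h1 := h.ab ((shG k).symm f) a (by
      rintro ⟨h2, h3⟩
      refine hfa ⟨?_, h3⟩
      rw [MulEquiv.symm_apply_eq] at h2
      rw [h2, map_one])
    have hS : {e | shG k (x e) = f ∧ ((M.shift (0, -k)).pos e).1 = a} =
        {e | x e = (shG k).symm f ∧ (M.pos e).1 = a} := by
      ext e
      have h2 : ((M.shift (0, -k)).pos e).1 = (M.pos e).1 := by
        show (M.pos e + (0, -k)).1 = _
        simp
      rw [Set.mem_setOf_eq, Set.mem_setOf_eq, h2, MulEquiv.eq_symm_apply]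
    show Acyc M.E {e | shG k (x e) = f ∧ ((M.shift (0, -k)).pos e).1 = a}
    rw [hS]
    exact h1
  at' := fun c b hc => by
    have h1 := h.at' ((shG k).symm c) (b + k) (by
      intro h2
      rw [MulEquiv.symm_apply_eq] at h2
      exact hc h2)
    have hS : {e | shG k (x e) * gL (jj ((M.shift (0, -k)).pos e)) = c ∧ ((M.shift (0, -k)).pos e).2 = b} =
        {e | x e * gL (jj (M.pos e)) = (shG k).symm c ∧ (M.pos e).2 = b + k} := by
      ext e
      have h2 : ((M.shift (0, -k)).pos e).2 = (M.pos e).2 - k := by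
        show (M.pos e + (0, -k)).2 = _
        simp [sub_eq_add_neg]
      have h3 : jj ((M.shift (0, -k)).pos e) = jj (M.pos e) + k := cj27_jj k (M.pos e)
      rw [Set.mem_setOf_eq, Set.mem_setOf_eq, h2, h3, MulEquiv.eq_symm_apply, map_mul, cj27_sh]
      constructor
      · rintro ⟨h4, h5⟩
        exact ⟨h4, by linarith⟩
      · rintro ⟨h4, h5⟩
        exact ⟨h4, by linarith⟩
    show Acyc M.E {e | shG k (x e) * gL (jj ((M.shift (0, -k)).pos e)) = c ∧ ((M.shift (0, -k)).pos e).2 = b}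
    rw [hS]
    exact h1

theorem lab_act {n B : ℤ} (hn : 3 ≤ n) (s : Letter) {M : GObj n B} {a0 : G}
    {x : M.I → G} (h : Lab M.toObj a0 x) :
    ∃ x' : (act s M).I → G, Lab (act s M).toObj (evL (by omega : (2:ℤ) ≤ n) s a0) x' := by
  cases s with
  | sig i => exact ⟨_, lab_phi hn i h⟩
  | sigI i =>
    have h2 := lab_dual (lab_phi hn (-i) (lab_dual h))
    rw [mir_sig] at h2
    exact ⟨_, h2⟩
  | rho => exact ⟨_, lab_shift 1 h⟩
  | rhoI =>
    have := lab_shift (-1) h
    exact ⟨_, this⟩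

theorem lab_actW {n B : ℤ} (hn : 3 ≤ n) (u : List Letter) :
    ∃ x : (actW u (L0 n B)).I → G,
      Lab (actW u (L0 n B)).toObj (evW (by omega : (2:ℤ) ≤ n) u (gL 0)) x := by
  induction u with
  | nil => exact ⟨_, lab_L0 n B⟩
  | cons s u ih =>
    obtain ⟨x, hx⟩ := ih
    exact lab_act hn s hx

/-- displacement of a nonzero constant entry -/
theorem cj33_disp {n B : ℤ} {M : Obj n B} (hc : ∀ g h k, k ≠ 0 → (M.D g h).coeff k = 0) {g h : M.I}
    (hne : M.D g h ≠ 0) : (M.pos h).1 ≤ (M.pos g).1 ∧ (M.pos h).2 ≤ (M.pos g).2 := by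
  have h0 : (M.D g h).coeff 0 ≠ 0 := by
    intro h0
    apply hne
    ext k
    by_cases hk : k = 0
    · rw [hk, h0]
      simp
    · rw [hc g h k hk]
      simp
  have := M.fil g h 0 h0
  simp only [zero_mul, Prod.fst_sub, Prod.snd_sub] at this
  constructor <;> linarith [this.1, this.2]

theorem cj33_E {n B : ℤ} {M : Obj n B} {g h : M.I} (hne : M.E g h ≠ 0) : M.D g h ≠ 0 := by
  intro h0
  apply hne
  show ev (M.D g h) = 0
  rw [h0, map_zero]

theorem cj33_sqz {n B : ℤ} {M : Obj n B} (S : Set M.I)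
    (hS : ∀ g ∈ S, ∀ k ∈ S, ∀ h, M.D g h ≠ 0 → M.D h k ≠ 0 → h ∈ S) : SqZ M.E S := by
  intro g hg k hk
  have h1 : (M.E * M.E) g k = 0 := by
    have : M.E * M.E = 0 := by
      unfold Obj.E
      rw [← Matrix.map_mul, M.sq]
      apply Matrix.ext
      intro a b
      show ev ((0 : Matrix M.I M.I A) a b) = 0
      rw [Matrix.zero_apply, map_zero]
    rw [this, Matrix.zero_apply]
  rw [Matrix.mul_apply] at h1
  refine Eq.trans ?_ h1
  apply Finset.sum_congr rfl
  intro h _
  by_cases hh : h ∈ S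
  · rw [if_pos hh]
  · rw [if_neg hh]
    by_cases e1 : M.E g h = 0
    · rw [e1, zero_mul]
    · by_cases e2 : M.E h k = 0
      · rw [e2, mul_zero]
      · exact absurd (hS g hg k hk h (cj33_E e1) (cj33_E e2)) hh

theorem cj33_empty {I : Type} [Fintype I] (D : Matrix I I (ZMod 2)) (S : Set I) (hS : ∀ e, e ∉ S) : Acyc D S := by
  intro v _ _
  exact ⟨0, fun _ _ => rfl, fun e he => absurd he (hS e)⟩

theorem cj33_word_pos {v : G} {j : ℤ} (h : v.toWord.getLast? ≠ some (j, false)) :
    (v * gL j).toWord = v.toWord ++ [(j, true)] := by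
  unfold gL
  rw [FreeGroup.toWord_mul, FreeGroup.toWord_of]
  apply FreeGroup.IsReduced.reduce_eq
  apply List.IsChain.append
  · exact FreeGroup.isReduced_toWord
  · exact FreeGroup.IsReduced.singleton
  · rintro ⟨a, b⟩ ha ⟨c, d⟩ hc hac
    simp only [List.head?_cons, Option.mem_def, Option.some.injEq, Prod.mk.injEq] at hc
    obtain ⟨rfl, rfl⟩ := hc
    simp only at hac
    subst hac
    cases b with
    | true => rfl
    | false => exact absurd ha h

theorem cj33_word_neg {v : G} {j : ℤ} (h : v.toWord.getLast? ≠ some (j, true)) :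
    (v * (gL j)⁻¹).toWord = v.toWord ++ [(j, false)] := by
  unfold gL
  have e : ((FreeGroup.of j)⁻¹ : G).toWord = [(j, false)] := by
    rw [FreeGroup.toWord_inv, FreeGroup.toWord_of]
    rfl
  rw [FreeGroup.toWord_mul, e]
  apply FreeGroup.IsReduced.reduce_eq
  apply List.IsChain.append
  · exact FreeGroup.isReduced_toWord
  · exact FreeGroup.IsReduced.singleton
  · rintro ⟨a, b⟩ ha ⟨c, d⟩ hc hac
    simp only [List.head?_cons, Option.mem_def, Option.some.injEq, Prod.mk.injEq] at hc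
    obtain ⟨rfl, rfl⟩ := hc
    simp only at hac
    subst hac
    cases b with
    | false => rfl
    | true => exact absurd ha h

theorem cj33_closure {a : G} (ha : a ∈ Subgroup.closure {g : G | ∃ j : ℤ, j ≤ 0 ∧ g = gL j}) :
    ∀ q ∈ a.toWord, q.1 ≤ 0 := by
  induction ha using Subgroup.closure_induction with
  | mem y hy =>
    obtain ⟨j, hj, rfl⟩ := hy
    intro q hq
    unfold gL at hq
    rw [FreeGroup.toWord_of, List.mem_singleton] at hq
    rw [hq]
    exact hj
  | one =>
    intro q hq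
    rw [FreeGroup.toWord_one] at hq
    exact absurd hq List.not_mem_nil
  | mul y z _ _ hy hz =>
    intro q hq
    rw [FreeGroup.toWord_mul] at hq
    have hq' := (FreeGroup.Red.sublist (FreeGroup.reduce.red (L := y.toWord ++ z.toWord))).subset hq
    rcases List.mem_append.1 hq' with h | h
    · exact hy q h
    · exact hz q h
  | inv y _ hy =>
    intro q hq
    rw [FreeGroup.toWord_inv] at hq
    unfold FreeGroup.invRev at hq
    rw [List.mem_reverse, List.mem_map] at hq
    obtain ⟨r, hr, rfl⟩ := hq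
    exact hy r hr

/-- letters with positive index -/
def cj33_bad (v : G) : Prop := ∃ q ∈ v.toWord, (0 : ℤ) < q.1

theorem cj33_claim {n B : ℤ} {M : Obj n B} {a0 : G} {x : M.I → G} (h : Lab M a0 x)
    (ha0 : ∀ q ∈ a0.toWord, q.1 ≤ 0) (N : ℕ) (hN : ∀ e, (x e).norm + 1 < N) (k : ℕ) :
    ∀ v : G, cj33_bad v → N ≤ v.norm + k →
      (∀ p, v.toWord.getLast? = some (jj p, false) → Acyc M.E {e | x e = v ∧ M.pos e = p}) ∧
      (∀ p, v.toWord.getLast? = some (jj p, true) →
        Acyc M.E {e | x e * gL (jj (M.pos e)) = v ∧ M.pos e = p}) := by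
  induction k with
  | zero =>
    intro v _ hv
    rw [add_zero] at hv
    constructor
    · intro p _
      apply cj33_empty
      rintro e ⟨he, _⟩
      have := hN e
      rw [he] at this
      omega
    · intro p _
      apply cj33_empty
      rintro e ⟨he, _⟩
      have h1 := hN e
      have h2 := FreeGroup.norm_mul_le (x e) (gL (jj (M.pos e)))
      have h3 : (gL (jj (M.pos e))).norm = 1 := by
        unfold gL
        exact FreeGroup.norm_of _
      rw [he] at h2
      omega
  | succ k ih =>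
    intro v hbad hv
    have hbadL : ∀ (l : ℤ × Bool) (v' : G), v'.toWord = v.toWord ++ [l] → cj33_bad v' ∧ v'.norm = v.norm + 1 := by
      intro l v' hv'
      obtain ⟨q, hq, hq0⟩ := hbad
      refine ⟨⟨q, ?_, hq0⟩, ?_⟩
      · rw [hv']
        exact List.mem_append_left _ hq
      · unfold FreeGroup.norm
        rw [hv', List.length_append, List.length_singleton]
    constructor
    · intro p hlast
      set S : Set M.I := {e | x e = v ∧ (M.pos e).1 = p.1} with hS
      have hv1 : v ≠ 1 := by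
        rintro rfl
        obtain ⟨q, hq, _⟩ := hbad
        rw [FreeGroup.toWord_one] at hq
        exact List.not_mem_nil hq
      have hacS : Acyc M.E S := h.ab v p.1 (fun hc => hv1 hc.1)
      have hf : ∀ g ∈ S, ∀ e ∈ S, M.E g e ≠ 0 → jj (M.pos g) ≤ jj (M.pos e) := by
        intro g hg e he hne
        have d := cj33_disp h.const (cj33_E hne)
        have e1 : (M.pos g).1 = p.1 := hg.2
        have e2 : (M.pos e).1 = p.1 := he.2
        unfold jj
        omega
      have hsq : SqZ M.E S := by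
        apply cj33_sqz
        intro g hg e he k hk1 hk2
        have d1 := cj33_disp h.const hk1
        have d2 := cj33_disp h.const hk2
        have e1 : (M.pos g).1 = p.1 := hg.2
        have e2 : (M.pos e).1 = p.1 := he.2
        have e3 : (M.pos k).1 = p.1 := by omega
        refine ⟨?_, e3⟩
        rw [← h.tb g k hk1 (by omega)]
        exact hg.1
      have hlev := acyc_level M.E S (fun e => jj (M.pos e)) hf hsq (jj p) hacS (by
        intro j hj
        have hw := cj33_word_pos (v := v) (j := j) (by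
          rw [hlast]
          intro hcon
          simp only [Option.some.injEq, Prod.mk.injEq, and_true] at hcon
          exact hj hcon.symm)
        obtain ⟨b1, b2⟩ := hbadL _ _ hw
        have key := (ih _ b1 (by omega)).2 (p.1, p.1 - j) (by
          rw [hw, List.getLast?_append_of_ne_nil _ (List.cons_ne_nil _ _)]
          have : jj (p.1, p.1 - j) = j := by
            unfold jj
            ring
          rw [this]
          rfl)
        have eset : {e | e ∈ S ∧ jj (M.pos e) = j} =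
            {e | x e * gL (jj (M.pos e)) = v * gL j ∧ M.pos e = (p.1, p.1 - j)} := by
          ext e
          constructor
          · rintro ⟨⟨h1, h2⟩, h3⟩
            refine ⟨by rw [h3, h1], ?_⟩
            apply Prod.ext
            · exact h2
            · show (M.pos e).2 = p.1 - j
              unfold jj at h3
              omega
          · rintro ⟨h1, h2⟩
            have h3 : jj (M.pos e) = j := by
              rw [h2]
              unfold jj
              ring
            rw [h3] at h1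
            exact ⟨⟨mul_right_cancel h1, by rw [h2]⟩, h3⟩
        rw [eset]
        exact key)
      have eset2 : {e | e ∈ S ∧ jj (M.pos e) = jj p} = {e | x e = v ∧ M.pos e = p} := by
        ext e
        constructor
        · rintro ⟨⟨h1, h2⟩, h3⟩
          refine ⟨h1, Prod.ext h2 ?_⟩
          unfold jj at h3
          omega
        · rintro ⟨h1, h2⟩
          exact ⟨⟨h1, by rw [h2]⟩, by rw [h2]⟩
      rw [← eset2]
      exact hlev
    · intro p hlast
      set S : Set M.I := {e | x e * gL (jj (M.pos e)) = v ∧ (M.pos e).2 = p.2} with hS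
      have hv1 : v ≠ a0 := by
        rintro rfl
        obtain ⟨q, hq, hq0⟩ := hbad
        have := ha0 q hq
        omega
      have hacS : Acyc M.E S := h.at' v p.2 hv1
      have hf : ∀ g ∈ S, ∀ e ∈ S, M.E g e ≠ 0 → - jj (M.pos g) ≤ - jj (M.pos e) := by
        intro g hg e he hne
        have d := cj33_disp h.const (cj33_E hne)
        have e1 : (M.pos g).2 = p.2 := hg.2
        have e2 : (M.pos e).2 = p.2 := he.2
        unfold jj
        omega
      have hsq : SqZ M.E S := by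
        apply cj33_sqz
        intro g hg e he k hk1 hk2
        have d1 := cj33_disp h.const hk1
        have d2 := cj33_disp h.const hk2
        have e1 : (M.pos g).2 = p.2 := hg.2
        have e2 : (M.pos e).2 = p.2 := he.2
        have e3 : (M.pos k).2 = p.2 := by omega
        refine ⟨?_, e3⟩
        rw [← h.tt g k hk1 (by omega)]
        exact hg.1
      have hlev := acyc_level M.E S (fun e => - jj (M.pos e)) hf hsq (- jj p) hacS (by
        intro j hj
        have hw := cj33_word_neg (v := v) (j := -j) (by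
          rw [hlast]
          intro hcon
          simp only [Option.some.injEq, Prod.mk.injEq, and_true] at hcon
          omega)
        obtain ⟨b1, b2⟩ := hbadL _ _ hw
        have key := (ih _ b1 (by omega)).1 (p.2 + -j, p.2) (by
          rw [hw, List.getLast?_append_of_ne_nil _ (List.cons_ne_nil _ _)]
          have : jj (p.2 + -j, p.2) = -j := by
            unfold jj
            ring
          rw [this]
          rfl)
        have eset : {e | e ∈ S ∧ - jj (M.pos e) = j} =
            {e | x e = v * (gL (-j))⁻¹ ∧ M.pos e = (p.2 + -j, p.2)} := by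
          ext e
          constructor
          · rintro ⟨⟨h1, h2⟩, h3⟩
            have h4 : jj (M.pos e) = -j := by omega
            refine ⟨by rw [← h1, h4, mul_inv_cancel_right], ?_⟩
            apply Prod.ext
            · show (M.pos e).1 = p.2 + -j
              unfold jj at h4
              omega
            · exact h2
          · rintro ⟨h1, h2⟩
            have h3 : jj (M.pos e) = -j := by
              rw [h2]
              unfold jj
              ring
            refine ⟨⟨?_, by rw [h2]⟩, by omega⟩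
            rw [h1, h3, inv_mul_cancel_right]
        rw [eset]
        exact key)
      have eset2 : {e | e ∈ S ∧ - jj (M.pos e) = - jj p} =
          {e | x e * gL (jj (M.pos e)) = v ∧ M.pos e = p} := by
        ext e
        constructor
        · rintro ⟨⟨h1, h2⟩, h3⟩
          refine ⟨h1, Prod.ext ?_ h2⟩
          unfold jj at h3
          omega
        · rintro ⟨h1, h2⟩
          exact ⟨⟨h1, by rw [h2]⟩, by rw [h2]⟩
      rw [← eset2]
      exact hlev

theorem lab_acyc {n B : ℤ} {M : Obj n B} {a0 : G} {x : M.I → G} (h : Lab M a0 x)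
    (ha : a0 ∈ Subgroup.closure {g : G | ∃ j : ℤ, j ≤ 0 ∧ g = gL j}) (p : ℤ × ℤ) (hp : 0 < jj p) :
    Acyc M.E {e | M.pos e = p} := by
  have ha0 := cj33_closure ha
  obtain ⟨N, hN⟩ : ∃ N : ℕ, ∀ e, (x e).norm + 1 < N := by
    refine ⟨Finset.univ.sup (fun e => (x e).norm) + 2, fun e => ?_⟩
    have : (x e).norm ≤ Finset.univ.sup (fun e => (x e).norm) :=
      Finset.le_sup (f := fun e => (x e).norm) (Finset.mem_univ e)
    omega
  have hone : ∀ v : G, Acyc M.E {e | x e = v ∧ M.pos e = p} := by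
    intro v
    by_cases hl : v.toWord.getLast? = some (jj p, false)
    · exact (cj33_claim h ha0 N hN N v ⟨(jj p, false), List.mem_of_getLast? hl, hp⟩ (by omega)).1 p hl
    · have hw := cj33_word_pos hl
      have key := (cj33_claim h ha0 N hN N (v * gL (jj p)) ⟨(jj p, true), by
        rw [hw]
        exact List.mem_append_right _ (List.mem_singleton.2 rfl), hp⟩ (by omega)).2 p (by
          rw [hw, List.getLast?_append_of_ne_nil _ (List.cons_ne_nil _ _)]
          rfl)
      have eset : {e | x e = v ∧ M.pos e = p} = {e | x e * gL (jj (M.pos e)) = v * gL (jj p) ∧ M.pos e = p} := by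
        ext e
        constructor
        · rintro ⟨h1, h2⟩
          exact ⟨by rw [h1, h2], h2⟩
        · rintro ⟨h1, h2⟩
          rw [h2] at h1
          exact ⟨mul_right_cancel h1, h2⟩
      rw [eset]
      exact key
  set T : Finset G := Finset.univ.image x with hT
  have hmem : ∀ e, x e ∈ T := fun e => Finset.mem_image_of_mem x (Finset.mem_univ e)
  have hinj : ∀ e e', (((T.equivFin ⟨x e, hmem e⟩ : Fin T.card) : ℕ) : ℤ) =
      (((T.equivFin ⟨x e', hmem e'⟩ : Fin T.card) : ℕ) : ℤ) → x e = x e' := by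
    intro e e' he
    have h1 : T.equivFin ⟨x e, hmem e⟩ = T.equivFin ⟨x e', hmem e'⟩ := by
      apply Fin.ext
      exact_mod_cast he
    exact congrArg Subtype.val (T.equivFin.injective h1)
  apply acyc_of_levels M.E {e | M.pos e = p}
    (fun e => (((T.equivFin ⟨x e, hmem e⟩ : Fin T.card) : ℕ) : ℤ))
  · intro g hg e he hne
    have e1 : M.pos g = p := hg
    have e2 : M.pos e = p := he
    have e3 : x g = x e := h.tb g e (cj33_E hne) (by rw [e1, e2])
    have e4 : (⟨x g, hmem g⟩ : T) = ⟨x e, hmem e⟩ := Subtype.ext e3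
    simp only [e4]
    exact _root_.le_refl _
  · apply cj33_sqz
    intro g hg e he k hk1 hk2
    have e1 : M.pos g = p := hg
    have e2 : M.pos e = p := he
    have d1 := cj33_disp h.const hk1
    have d2 := cj33_disp h.const hk2
    rw [e1] at d1
    rw [e2] at d2
    exact Prod.ext (by omega) (by omega)
  · intro j
    by_cases hj : ∃ e0, (((T.equivFin ⟨x e0, hmem e0⟩ : Fin T.card) : ℕ) : ℤ) = j
    · obtain ⟨e0, he0⟩ := hj
      have eset : {e | e ∈ {e | M.pos e = p} ∧ (((T.equivFin ⟨x e, hmem e⟩ : Fin T.card) : ℕ) : ℤ) = j} =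
          {e | x e = x e0 ∧ M.pos e = p} := by
        ext e
        constructor
        · rintro ⟨h1, h2⟩
          exact ⟨hinj e e0 (h2.trans he0.symm), h1⟩
        · rintro ⟨h1, h2⟩
          refine ⟨h2, ?_⟩
          have e4 : (⟨x e, hmem e⟩ : T) = ⟨x e0, hmem e0⟩ := Subtype.ext h1
          show (((T.equivFin ⟨x e, hmem e⟩ : Fin T.card) : ℕ) : ℤ) = j
          rw [e4]
          exact he0
      rw [eset]
      exact hone (x e0)
    · apply cj33_empty
      rintro e ⟨_, he⟩
      exact hj ⟨e, he⟩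

theorem cj34_vm {I : Type} [Fintype I] (D : Matrix I I (ZMod 2)) (v : I → ZMod 2) (e : I) :
    (v ᵥ* D) e = ∑ g, v g * D g e := rfl

theorem cj34_mv {I : Type} [Fintype I] (D : Matrix I I (ZMod 2)) (v : I → ZMod 2) (e : I) :
    (D *ᵥ v) e = ∑ g, D e g * v g := rfl

theorem cj34_labels {I : Type} [Fintype I] (D : Matrix I I (ZMod 2)) (S : Set I) (x : I → G)
    (hx : ∀ g ∈ S, ∀ h ∈ S, D g h ≠ 0 → x g = x h)
    (h : ∀ f : G, Acyc D {e | x e = f ∧ e ∈ S}) : Acyc D S := by
  intro v hv hvD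
  have key : ∀ f : G, ∃ w : I → ZMod 2, (∀ e, e ∉ {e | x e = f ∧ e ∈ S} → w e = 0) ∧
      ∀ e ∈ {e | x e = f ∧ e ∈ S}, (w ᵥ* D) e = if x e = f then v e else 0 := by
    intro f
    apply h f (fun e => if x e = f then v e else 0)
    · intro e he
      by_cases hxe : x e = f
      · simp only [hxe, if_true]
        apply hv
        intro heS
        exact he ⟨hxe, heS⟩
      · simp [hxe]
    · rintro e ⟨hxe, heS⟩
      refine Eq.trans ?_ (hvD e heS)
      rw [cj34_vm, cj34_vm]
      apply Finset.sum_congr rfl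
      intro g _
      by_cases hg : x g = f
      · simp only [hg, if_true]
      · simp only [hg, if_false]
        by_cases hgS : g ∈ S
        · by_cases hD : D g e = 0
          · rw [hD, mul_zero, mul_zero]
          · exact absurd ((hx g hgS e heS hD).trans hxe) hg
        · rw [hv g hgS, zero_mul]
  choose W hW1 hW2 using key
  refine ⟨fun e => W (x e) e, ?_, ?_⟩
  · intro e he
    apply hW1
    rintro ⟨_, h2⟩
    exact he h2
  · intro e he
    have := hW2 (x e) e ⟨rfl, he⟩
    rw [if_pos rfl] at this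
    rw [← this, cj34_vm, cj34_vm]
    apply Finset.sum_congr rfl
    intro g _
    by_cases hgS : g ∈ S
    · by_cases hD : D g e = 0
      · rw [hD, mul_zero, mul_zero]
      · rw [hx g hgS e he hD]
    · rw [hW1 (x g) g (fun hh => hgS hh.2), hW1 (x e) g (fun hh => hgS hh.2)]

theorem cj34_sqz {I : Type} [Fintype I] (D : Matrix I I (ZMod 2)) (hD : D * D = 0) (S : Set I)
    (hS : ∀ g ∈ S, ∀ k ∈ S, ∀ h, D g h ≠ 0 → D h k ≠ 0 → h ∈ S) : SqZ D S := by
  intro g hg k hk
  have h0 : (D * D) g k = 0 := by rw [hD]; rfl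
  rw [Matrix.mul_apply] at h0
  refine Eq.trans ?_ h0
  apply Finset.sum_congr rfl
  intro h _
  by_cases hh : h ∈ S
  · rw [if_pos hh]
  · rw [if_neg hh]
    by_cases h1 : D g h = 0
    · rw [h1, zero_mul]
    · by_cases h2 : D h k = 0
      · rw [h2, mul_zero]
      · exact absurd (hS g hg k hk h h1 h2) hh

theorem cj34_empty {I : Type} [Fintype I] (D : Matrix I I (ZMod 2)) (S : Set I) (hS : ∀ e, e ∉ S) :
    Acyc D S :=
  fun _ _ _ => ⟨0, fun _ _ => rfl, fun e he => absurd he (hS e)⟩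

theorem cj34_congr {I : Type} [Fintype I] (D : Matrix I I (ZMod 2)) {S T : Set I} (hST : S = T)
    (h : Acyc D T) : Acyc D S := by
  rw [hST]; exact h

/-- the constant of `A` -/
theorem cj34_const (a : A) (ha : ∀ k, k ≠ 0 → a.coeff k = 0) :
    a = if ev a = 1 then 1 else 0 := by
  have h1 : a = if a.coeff 0 = 1 then 1 else 0 := by
    ext k
    by_cases hk : k = 0
    · subst hk
      by_cases h0 : a.coeff 0 = 1
      · rw [if_pos h0, h0, ← sp_zero, coeff_sp, if_pos rfl]
      · rw [if_neg h0]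
        have : ∀ z : ZMod 2, z ≠ 1 → z = 0 := by decide
        rw [this _ h0]
        simp
    · rw [ha k hk]
      by_cases h0 : a.coeff 0 = 1
      · rw [if_pos h0, ← sp_zero, coeff_sp, if_neg hk]
      · rw [if_neg h0]
        simp
  by_cases h0 : a.coeff 0 = 1
  · rw [if_pos h0] at h1
    rw [h1, map_one, if_pos rfl]
  · rw [if_neg h0] at h1
    rw [h1, map_zero, if_neg (by decide)]

theorem cj34_ind_add (a b : ZMod 2) :
    ((if a + b = 1 then 1 else 0 : A)) = (if a = 1 then 1 else 0) + (if b = 1 then 1 else 0) := by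
  have h1 : (1 : A) + 1 = 0 := A_add_self 1
  have hz : ∀ z : ZMod 2, z = 0 ∨ z = 1 := by decide
  rcases hz a with rfl | rfl <;> rcases hz b with rfl | rfl
  · simp
  · simp
  · simp
  · rw [if_neg (by decide), if_pos rfl, h1]

theorem cj34_ind_mul (a b : ZMod 2) :
    ((if a * b = 1 then 1 else 0 : A)) = (if a = 1 then 1 else 0) * (if b = 1 then 1 else 0) := by
  have hz : ∀ z : ZMod 2, z = 0 ∨ z = 1 := by decide
  rcases hz a with rfl | rfl <;> rcases hz b with rfl | rfl <;> simp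

theorem cj34_ind_sum {I : Type} (s : Finset I) (f : I → ZMod 2) :
    ((if ∑ i ∈ s, f i = 1 then 1 else 0 : A)) = ∑ i ∈ s, (if f i = 1 then 1 else 0) := by
  induction s using Finset.induction_on with
  | empty => simp
  | insert a s ha ih => rw [Finset.sum_insert ha, Finset.sum_insert ha, cj34_ind_add, ih]

theorem cj34_add_self (a : ZMod 2) : a + a = 0 := by
  revert a; decide

/-- Consequence 3 -/
theorem lab_le {n B : ℤ} {M : GObj n B} {a0 : G} {x : M.I → G} (h : Lab M.toObj a0 x)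
    (ha : ∀ p : ℤ × ℤ, 0 < jj p → Acyc M.toObj.E {e | M.pos e = p}) : Le M (L0 n B) 0 := by
  have hED : ∀ g e, M.toObj.E g e = ev (M.D g e) := fun g e => rfl
  have hDE : ∀ g e, M.D g e = if M.toObj.E g e = 1 then 1 else 0 := fun g e =>
    cj34_const _ (fun k hk => h.const g e k hk)
  have hne : ∀ g e, M.toObj.E g e ≠ 0 → M.D g e ≠ 0 := by
    intro g e h1 h2
    apply h1
    rw [hED, h2, map_zero]
  have hpos : ∀ g e, M.toObj.E g e ≠ 0 →
      (M.pos e).1 ≤ (M.pos g).1 ∧ (M.pos e).2 ≤ (M.pos g).2 := by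
    intro g e h1
    have h2 : (M.D g e).coeff 0 ≠ 0 := by
      intro h3
      apply hne g e h1
      ext k
      by_cases hk : k = 0
      · subst hk; rw [h3]; simp
      · rw [h.const g e k hk]; simp
    have h3 := M.fil g e 0 h2
    simp only [zero_mul, Prod.fst_sub, Prod.snd_sub] at h3
    omega
  have hEE : M.toObj.E * M.toObj.E = 0 := by
    have : (M.D * M.D).map ev = 0 := by rw [M.sq]; ext; simp
    rw [Matrix.map_mul] at this
    exact this
  set E := M.toObj.E with hE
  -- the first set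
  have hS1 : Acyc E {e | (M.pos e).1 < 0} := by
    apply acyc_of_levels E _ (fun e => - (M.pos e).1)
    · intro g _ e _ hD
      have := (hpos g e hD).1
      omega
    · apply cj34_sqz E hEE
      intro g hg k _ e h1 _
      have := (hpos g e h1).1
      simp only [Set.mem_ofPred_eq] at hg ⊢
      omega
    · intro j
      apply cj34_labels E _ x
      · rintro g ⟨_, hg⟩ e ⟨_, he⟩ hD
        apply h.tb g e (hne g e hD)
        omega
      · intro f
        by_cases hj : 0 < j
        · apply cj34_congr E _ (h.ab f (-j) (by omega))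
          ext e
          simp only [Set.mem_ofPred_eq]
          constructor
          · rintro ⟨h1, h2, h3⟩
            exact ⟨h1, by omega⟩
          · rintro ⟨h1, h2⟩
            exact ⟨h1, by omega, by omega⟩
        · apply cj34_empty
          rintro e ⟨_, h2, h3⟩
          simp only [Set.mem_ofPred_eq] at h2
          omega
  have hS2 : Acyc E {e | 0 ≤ (M.pos e).1 ∧ (M.pos e).2 < 0} := by
    have hsqz : ∀ j, SqZ E {e | e ∈ {e | 0 ≤ (M.pos e).1 ∧ (M.pos e).2 < 0} ∧
        - (M.pos e).1 = j} := by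
      intro j
      apply cj34_sqz E hEE
      rintro g ⟨⟨hg1, hg2⟩, hg3⟩ k ⟨⟨hk1, hk2⟩, hk3⟩ e h1 h2
      have h3 := hpos g e h1
      have h4 := hpos e k h2
      refine ⟨⟨?_, ?_⟩, ?_⟩ <;> omega
    apply acyc_of_levels E _ (fun e => - (M.pos e).1)
    · intro g _ e _ hD
      have := (hpos g e hD).1
      omega
    · apply cj34_sqz E hEE
      rintro g ⟨hg1, hg2⟩ k ⟨hk1, hk2⟩ e h1 h2
      have h3 := hpos g e h1
      have h4 := hpos e k h2
      refine ⟨?_, ?_⟩ <;> omega
    · intro j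
      apply acyc_of_levels E _ (fun e => - (M.pos e).2)
      · intro g _ e _ hD
        have := (hpos g e hD).2
        omega
      · exact hsqz j
      · intro j'
        by_cases hj : j ≤ 0 ∧ 0 < j'
        · apply cj34_congr E _ (ha (-j, -j') (by unfold jj; simp only; omega))
          ext e
          simp only [Set.mem_ofPred_eq, Prod.ext_iff]
          constructor
          · rintro ⟨⟨h1, h2⟩, h3⟩
            exact ⟨by omega, by omega⟩
          · rintro ⟨h1, h2⟩
            exact ⟨⟨⟨by omega, by omega⟩, by omega⟩, by omega⟩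
        · apply cj34_empty
          rintro e ⟨⟨⟨h1, h2⟩, h3⟩, h4⟩
          omega
  -- duals
  have hsq1 : SqZ E {e | (M.pos e).1 < 0} := by
    apply cj34_sqz E hEE
    intro g hg k _ e h1 _
    have := (hpos g e h1).1
    simp only [Set.mem_ofPred_eq] at hg ⊢
    omega
  have hsq2 : SqZ E {e | 0 ≤ (M.pos e).1 ∧ (M.pos e).2 < 0} := by
    apply cj34_sqz E hEE
    rintro g ⟨hg1, hg2⟩ k ⟨hk1, hk2⟩ e h1 h2
    have h3 := hpos g e h1
    have h4 := hpos e k h2
    refine ⟨?_, ?_⟩ <;> omega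
  have hT1 := acyc_transpose E _ hsq1 hS1
  have hT2 := acyc_transpose E _ hsq2 hS2
  have heps : E *ᵥ M.eps = 0 := M.eps_coc
  obtain ⟨w1, hw1, hw1'⟩ := hT1 (fun e => if (M.pos e).1 < 0 then M.eps e else 0)
    (by
      intro e he
      have he' : ¬ (M.pos e).1 < 0 := he
      simp [he'])
    (by
      intro e he
      have he' : (M.pos e).1 < 0 := he
      have h0 := congrFun heps e
      rw [Matrix.vecMul_transpose, cj34_mv]
      rw [cj34_mv] at h0
      refine Eq.trans ?_ h0
      apply Finset.sum_congr rfl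
      intro g _
      by_cases hD : E e g = 0
      · rw [hD, zero_mul, zero_mul]
      · have := (hpos e g hD).1
        rw [if_pos (by omega)])
  have hw1E : ∀ e, (M.pos e).1 < 0 → (E *ᵥ w1) e = M.eps e := by
    intro e he
    have := hw1' e he
    rw [Matrix.vecMul_transpose] at this
    rw [this, if_pos he]
  set lam0 : M.I → ZMod 2 := M.eps + E *ᵥ w1 with hlam0
  have hlam0E : E *ᵥ lam0 = 0 := by
    rw [hlam0, Matrix.mulVec_add, heps, Matrix.mulVec_mulVec, hEE, Matrix.zero_mulVec, add_zero]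
  have hlam0S : ∀ e, (M.pos e).1 < 0 → lam0 e = 0 := by
    intro e he
    rw [hlam0, Pi.add_apply, hw1E e he, cj34_add_self]
  obtain ⟨w2, hw2, hw2'⟩ := hT2
    (fun e => if 0 ≤ (M.pos e).1 ∧ (M.pos e).2 < 0 then lam0 e else 0)
    (by
      intro e he
      have he' : ¬ (0 ≤ (M.pos e).1 ∧ (M.pos e).2 < 0) := he
      simp only [if_neg he'])
    (by
      intro e he
      have he' : 0 ≤ (M.pos e).1 ∧ (M.pos e).2 < 0 := he
      have h0 := congrFun hlam0E e
      rw [Matrix.vecMul_transpose, cj34_mv]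
      rw [cj34_mv] at h0
      refine Eq.trans ?_ h0
      apply Finset.sum_congr rfl
      intro g _
      by_cases hD : E e g = 0
      · rw [hD, zero_mul, zero_mul]
      · have h2 := hpos e g hD
        by_cases hg : (M.pos g).1 < 0
        · rw [hlam0S g hg, if_neg (by omega)]
        · rw [if_pos (by omega)])
  have hw2E : ∀ e, 0 ≤ (M.pos e).1 ∧ (M.pos e).2 < 0 → (E *ᵥ w2) e = lam0 e := by
    intro e he
    have := hw2' e he
    rw [Matrix.vecMul_transpose] at this
    rw [this, if_pos he]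
  have hlamS : ∀ e, ¬ (0 ≤ (M.pos e).1 ∧ 0 ≤ (M.pos e).2) → lam0 e + (E *ᵥ w2) e = 0 := by
    intro e he
    by_cases h1 : (M.pos e).1 < 0
    · rw [hlam0S e h1, zero_add]
      simp only [Matrix.mulVec, dotProduct]
      apply Finset.sum_eq_zero
      intro g _
      by_cases hD : E e g = 0
      · rw [hD, zero_mul]
      · have h2 := hpos e g hD
        rw [hw2 g (fun hg => by have := hg.1; omega), mul_zero]
    · rw [hw2E e ⟨by omega, by omega⟩, cj34_add_self]
  -- homogeneous part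
  set w : M.I → ZMod 2 := fun e => if M.deg e = 1 then w1 e + w2 e else 0 with hw
  have hw0 : ∀ e, M.deg e = 0 → (E *ᵥ w) e = (E *ᵥ w1) e + (E *ᵥ w2) e := by
    intro e he
    simp only [Matrix.mulVec, dotProduct]
    rw [← Finset.sum_add_distrib]
    apply Finset.sum_congr rfl
    intro g _
    by_cases hD : E e g = 0
    · rw [hD, zero_mul, zero_mul, zero_mul, add_zero]
    · have h2 := M.hdeg e g (hne e g hD)
      rw [hw]
      simp only
      rw [if_pos (by omega)]
      ring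
  have hwn : ∀ e, M.deg e ≠ 0 → (E *ᵥ w) e = 0 := by
    intro e he
    simp only [Matrix.mulVec, dotProduct]
    apply Finset.sum_eq_zero
    intro g _
    by_cases hD : E e g = 0
    · rw [hD, zero_mul]
    · have h2 := M.hdeg e g (hne e g hD)
      rw [hw]
      simp only
      rw [if_neg (by omega), mul_zero]
  set lam : M.I → ZMod 2 := M.eps + E *ᵥ w with hlam
  have hlamE : E *ᵥ lam = 0 := by
    rw [hlam, Matrix.mulVec_add, heps, Matrix.mulVec_mulVec, hEE, Matrix.zero_mulVec, add_zero]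
  have hlamdeg : ∀ e, lam e ≠ 0 → M.deg e = 0 := by
    intro e he
    by_contra hcon
    apply he
    rw [hlam, Pi.add_apply, hwn e hcon, add_zero]
    by_contra h2
    exact hcon (M.eps_deg e h2)
  have hlampos : ∀ e, lam e ≠ 0 → 0 ≤ (M.pos e).1 ∧ 0 ≤ (M.pos e).2 := by
    intro e he
    by_contra hcon
    apply he
    have hd := hlamdeg e he
    rw [hlam, Pi.add_apply, hw0 e hd, ← add_assoc]
    exact hlamS e hcon
  have hzl : M.z ⬝ᵥ lam = 1 := by
    rw [hlam, dotProduct_add, M.pair, Matrix.dotProduct_mulVec]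
    have : M.z ᵥ* E = 0 := M.z_cyc
    rw [this, zero_dotProduct, add_zero]
  have hz2 : ∀ z : ZMod 2, z = 0 ∨ z = 1 := by decide
  refine ⟨Matrix.of fun e _ => if lam e = 1 then 1 else 0, ⟨?_, ?_, ?_⟩, ?_⟩
  · intro g e
    rw [Matrix.of_apply]
    by_cases hl : lam g = 1
    · rw [if_pos hl]
      apply fil_one
      have h1 := hlampos g (by rw [hl]; decide)
      constructor
      · simpa using h1.1
      · simpa using h1.2
    · rw [if_neg hl]
      exact fil_zero _ _ _
  · intro g e hge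
    rw [Matrix.of_apply] at hge
    by_cases hl : lam g = 1
    · exact (hlamdeg g (by rw [hl]; decide)).symm
    · rw [if_neg hl] at hge
      exact absurd rfl hge
  · apply Matrix.ext
    intro g e
    rw [Matrix.mul_apply]
    have hr : ((Matrix.of fun e _ => if lam e = 1 then 1 else 0 : Matrix M.I Unit A) *
        (L0 n B).D) g e = 0 := by
      show ((Matrix.of fun e _ => if lam e = 1 then 1 else 0 : Matrix M.I Unit A) *
        (0 : Matrix Unit Unit A)) g e = 0
      rw [Matrix.mul_zero]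
      rfl
    rw [hr]
    have h0 := congrFun hlamE g
    simp only [Matrix.mulVec, dotProduct, Pi.zero_apply] at h0
    have h1 := cj34_ind_sum Finset.univ (fun i => E g i * lam i)
    rw [h0, if_neg (by decide)] at h1
    refine Eq.trans ?_ h1.symm
    apply Finset.sum_congr rfl
    intro i _
    rw [cj34_ind_mul, Matrix.of_apply, hDE g i]
  · have h3 : (M.z ᵥ* ((Matrix.of fun e (_ : Unit) => if lam e = 1 then (1:A) else 0 :
        Matrix M.I Unit A).map ev)) ⬝ᵥ (fun _ : Unit => (1 : ZMod 2)) = M.z ⬝ᵥ lam := by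
      simp only [dotProduct, Matrix.vecMul, Finset.univ_unique, Finset.sum_singleton, mul_one]
      apply Finset.sum_congr rfl
      intro i _
      rw [Matrix.map_apply, Matrix.of_apply]
      rcases hz2 (lam i) with hl | hl
      · rw [hl, if_neg (by decide), map_zero]
      · rw [hl, if_pos rfl, map_one]
    exact h3.trans hzl

/-- (c3): if the arc of `u` lies to the left of `L_0` then `c (v u) ≤ c v`. -/
theorem cW_append_arc {n B : ℤ} (hB : 0 < B) (hn : B < n) (hn3 : 3 ≤ n) (v u : List Letter)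
    (hu : evW (by omega : (2:ℤ) ≤ n) u (gL 0) ∈
      Subgroup.closure {g : G | ∃ j : ℤ, j ≤ 0 ∧ g = gL j}) :
    cW hB hn (v ++ u) ≤ cW hB hn v := by
  obtain ⟨x, hx⟩ := lab_actW (B := B) hn3 u
  have h1 := lab_le hx (lab_acyc hx hu)
  unfold cW
  rw [actW_append]
  have := cO_le hB hn (le_actW v h1)
  linarith

theorem evW_append {n : ℤ} (hn : 2 ≤ n) (u v : List Letter) :
    evW hn (u ++ v) = evW hn u * evW hn v := by
  unfold evW
  rw [List.map_append, List.prod_append]

theorem cj23_sh (k j : ℤ) : shG k (gL j) = gL (j + k) := by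
  show FreeGroup.freeGroupCongr (Equiv.addRight k) (FreeGroup.of j) = FreeGroup.of (j + k)
  simp

theorem cj23_ext {f g : MulAut G} (h : ∀ j, f (gL j) = g (gL j)) : f = g := by
  have h1 : f.toMonoidHom = g.toMonoidHom := by
    apply FreeGroup.ext_hom
    intro j
    exact h j
  apply MulEquiv.ext
  intro a
  exact DFunLike.congr_fun h1 a

theorem cj23_sh_mul (k l : ℤ) : shG k * shG l = shG (k + l) := by
  apply cj23_ext
  intro j
  rw [MulAut.mul_apply, cj23_sh, cj23_sh, cj23_sh]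
  congr 1
  ring

theorem cj23_sh_zero : shG 0 = 1 := by
  apply cj23_ext
  intro j
  rw [cj23_sh, add_zero]
  rfl

theorem evL_inv {n : ℤ} (hn : 2 ≤ n) (s : Letter) : evL hn s.inv = (evL hn s)⁻¹ := by
  cases s with
  | sig i => rfl
  | sigI i => exact (inv_inv _).symm
  | rho =>
    show shG (-1) = (shG 1)⁻¹
    rw [eq_comm, _root_.inv_eq_iff_mul_eq_one, cj23_sh_mul]
    exact cj23_sh_zero
  | rhoI =>
    show shG 1 = (shG (-1))⁻¹
    rw [eq_comm, _root_.inv_eq_iff_mul_eq_one, cj23_sh_mul]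
    exact cj23_sh_zero

theorem evW_winv {n : ℤ} (hn : 2 ≤ n) (u : List Letter) :
    evW hn (winv u) = (evW hn u)⁻¹ := by
  induction u with
  | nil => simp [winv, evW]
  | cons s u ih =>
    have e : winv (s :: u) = winv u ++ [s.inv] := by simp [winv]
    rw [e, evW_append, ih]
    have e1 : evW hn [s.inv] = (evL hn s)⁻¹ := by
      simp [evW, evL_inv]
    have e2 : evW hn (s :: u) = evL hn s * evW hn u := by
      simp [evW]
    rw [e1, e2, _root_.mul_inv_rev]

/-- (c3+) monotonicity of `c` in the arc, for arbitrary words -/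
theorem cW_arc_le {n B : ℤ} (hB : 0 < B) (hn : B < n) (hn3 : 3 ≤ n) (u1 u2 : List Letter)
    (hu : (evW (by omega : (2:ℤ) ≤ n) u1)⁻¹ (evW (by omega : (2:ℤ) ≤ n) u2 (gL 0)) ∈
      Subgroup.closure {g : G | ∃ j : ℤ, j ≤ 0 ∧ g = gL j}) :
    cW hB hn u2 ≤ cW hB hn u1 := by
  have h1 : cW hB hn (u1 ++ (winv u1 ++ u2)) ≤ cW hB hn u1 := by
    apply cW_append_arc hB hn hn3
    rw [evW_append, evW_winv]
    exact hu
  have h2 : cW hB hn u2 ≤ cW hB hn (u1 ++ (winv u1 ++ u2)) := by
    unfold cW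
    rw [actW_append, actW_append]
    have h := (actW_winv (by omega) (winv u1) (actW u2 (L0 n B))).1
    rw [winv_winv] at h
    have := cO_le hB hn h
    linarith
  linarith

/-- `c` depends only on the arc -/
theorem cW_arc_eq {n B : ℤ} (hB : 0 < B) (hn : B < n) (hn3 : 3 ≤ n) (u1 u2 : List Letter)
    (hu : evW (by omega : (2:ℤ) ≤ n) u1 (gL 0) = evW (by omega : (2:ℤ) ≤ n) u2 (gL 0)) :
    cW hB hn u1 = cW hB hn u2 := by
  have h0 : gL 0 ∈ Subgroup.closure {g : G | ∃ j : ℤ, j ≤ 0 ∧ g = gL j} :=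
    Subgroup.subset_closure ⟨0, _root_.le_refl _, rfl⟩
  apply le_antisymm
  · apply cW_arc_le hB hn hn3
    rw [hu, MulAut.inv_apply_self]
    exact h0
  · apply cW_arc_le hB hn hn3
    rw [← hu, MulAut.inv_apply_self]
    exact h0

end

end MWC
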