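import Mathlib

/-!
# Definitions for the Milnor-Wood inequality of area preserving planar actions

Homeomorphisms of the plane with a continuous choice of the angle of rotation of chords,
the surface group, the Euler number of an action by the recipe of Milnor.
-/

namespace MWC

noncomputable section

open scoped Classical
open Complex MeasureTheory

/-- commutator -/
def cm {H : Type*} [Group H] (x y : H) : H := x * y * x⁻¹ * y⁻¹

/-- `θ` is a continuous choice of the angle (in turns) by which `f` rotates chords -/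
structure IsLift (f : ℂ ≃ₜ ℂ) (θ : ℂ → ℂ → ℝ) : Prop where
  diag : ∀ x, θ x x = 0
  cont : ContinuousOn (fun p : ℂ × ℂ => θ p.1 p.2) {p | p.1 ≠ p.2}
  angle : ∀ x y, x ≠ y → ∃ s : ℝ, 0 < s ∧
    f y - f x = s * exp (2 * Real.pi * I * θ x y) * (y - x)

/-- orientation preserving homeomorphisms of the plane -/
def OrientationPreserving (f : ℂ ≃ₜ ℂ) : Prop := ∃ θ, IsLift f θ

/-- the group of homeomorphisms with a chosen continuous angle of rotation of chords -/
@[ext] structure LH where
  f : ℂ ≃ₜ ℂ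
  θ : ℂ → ℂ → ℝ
  h : IsLift f θ

theorem isLift_mul {f g : ℂ ≃ₜ ℂ} {θ θ' : ℂ → ℂ → ℝ} (h : IsLift f θ) (h' : IsLift g θ') :
    IsLift (f * g) (fun x y => θ (g x) (g y) + θ' x y) where
  diag := fun x => by simp [h.diag, h'.diag]
  cont := by
    apply ContinuousOn.add
    · have h1 : ContinuousOn (fun p : ℂ × ℂ => (g p.1, g p.2)) {p | p.1 ≠ p.2} := by
        apply Continuous.continuousOn
        fun_prop
      exact h.cont.comp h1 (fun p hp => fun hcon => hp (g.injective hcon))
    · exact h'.cont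
  angle := fun x y hxy => by
    obtain ⟨s, hs, h1⟩ := h'.angle x y hxy
    obtain ⟨t, ht, h2⟩ := h.angle (g x) (g y) (fun hcon => hxy (g.injective hcon))
    refine ⟨t * s, mul_pos ht hs, ?_⟩
    show f (g y) - f (g x) = _
    rw [h2, h1]
    push_cast
    rw [mul_add, Complex.exp_add]
    ring

theorem isLift_one : IsLift 1 (fun _ _ => 0) where
  diag := fun _ => rfl
  cont := continuousOn_const
  angle := fun x y _ => ⟨1, one_pos, by simp⟩

theorem isLift_inv {f : ℂ ≃ₜ ℂ} {θ : ℂ → ℂ → ℝ} (h : IsLift f θ) :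
    IsLift f⁻¹ (fun x y => - θ (f⁻¹ x) (f⁻¹ y)) where
  diag := fun x => by simp [h.diag]
  cont := by
    apply ContinuousOn.neg
    have h1 : ContinuousOn (fun p : ℂ × ℂ => ((f⁻¹ : ℂ ≃ₜ ℂ) p.1, (f⁻¹ : ℂ ≃ₜ ℂ) p.2))
        {p | p.1 ≠ p.2} := by
      apply Continuous.continuousOn
      exact ((f⁻¹ : ℂ ≃ₜ ℂ).continuous.comp continuous_fst).prodMk
        ((f⁻¹ : ℂ ≃ₜ ℂ).continuous.comp continuous_snd)
    exact h.cont.comp h1 (fun p hp => fun hcon => hp ((f⁻¹ : ℂ ≃ₜ ℂ).injective hcon))
  angle := fun x y hxy => by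
    obtain ⟨s, hs, h1⟩ := h.angle (f⁻¹ x) (f⁻¹ y)
      (fun hcon => hxy ((f⁻¹ : ℂ ≃ₜ ℂ).injective hcon))
    refine ⟨s⁻¹, inv_pos.2 hs, ?_⟩
    have e1 : f ((f⁻¹ : ℂ ≃ₜ ℂ) y) = y := f.apply_symm_apply y
    have e2 : f ((f⁻¹ : ℂ ≃ₜ ℂ) x) = x := f.apply_symm_apply x
    rw [e1, e2] at h1
    rw [h1]
    have hs' : (s : ℂ) ≠ 0 := by exact_mod_cast hs.ne'
    push_cast
    rw [mul_neg, Complex.exp_neg]
    have := Complex.exp_ne_zero (2 * Real.pi * I * θ ((f⁻¹ : ℂ ≃ₜ ℂ) x) ((f⁻¹ : ℂ ≃ₜ ℂ) y))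
    field_simp

instance : Group LH where
  mul F G' := ⟨F.f * G'.f, fun x y => F.θ (G'.f x) (G'.f y) + G'.θ x y, isLift_mul F.h G'.h⟩
  one := ⟨1, fun _ _ => 0, isLift_one⟩
  inv F := ⟨F.f⁻¹, fun x y => - F.θ (F.f⁻¹ x) (F.f⁻¹ y), isLift_inv F.h⟩
  mul_assoc F G' H := by
    apply LH.ext
    · exact mul_assoc _ _ _
    · funext x y
      exact add_assoc _ _ _
  one_mul F := by
    apply LH.ext
    · exact one_mul _
    · funext x y
      exact zero_add _
  mul_one F := by
    apply LH.ext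
    · exact mul_one _
    · funext x y
      exact add_zero _
  inv_mul_cancel F := by
    apply LH.ext
    · exact inv_mul_cancel _
    · funext x y
      show - F.θ (F.f⁻¹ (F.f x)) (F.f⁻¹ (F.f y)) + F.θ x y = 0
      have e1 : ∀ x, (F.f⁻¹ : ℂ ≃ₜ ℂ) (F.f x) = x := fun x => F.f.symm_apply_apply x
      rw [e1, e1]
      ring

/-- the full turn, a central element of `LH` -/
def LH.T : LH where
  f := 1
  θ := fun x y => if x = y then 0 else 1
  h := {
    diag := fun x => by simp
    cont := by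
      apply (continuousOn_const (c := (1 : ℝ))).congr
      intro p hp
      simp only [Set.mem_ofPred_eq] at hp
      simp [hp]
    angle := fun x y hxy => ⟨1, one_pos, by
      rw [if_neg hxy]
      have : exp (2 * Real.pi * I * (1 : ℝ)) = 1 := by
        rw [Complex.ofReal_one, mul_one, Complex.exp_two_pi_mul_I]
      rw [this]
      simp⟩ }

/-- relator of the surface group of genus `g` -/
def surfaceRel (g : ℕ) : FreeGroup (Fin g ⊕ Fin g) :=
  ((List.finRange g).map fun i =>
    cm (FreeGroup.of (Sum.inl i)) (FreeGroup.of (Sum.inr i))).prod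

/-- the fundamental group of the closed oriented surface of genus `g` -/
abbrev SurfaceGroup (g : ℕ) : Type := PresentedGroup {surfaceRel g}

/-- standard generators -/
def sgA {g : ℕ} (i : Fin g) : SurfaceGroup g := PresentedGroup.of (Sum.inl i)
def sgB {g : ℕ} (i : Fin g) : SurfaceGroup g := PresentedGroup.of (Sum.inr i)

/-- `e` is the Euler number of the action `ρ`: for all lifts of the generators, the product of
commutators is the `e`-th power of the full turn (Milnor's recipe). -/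
def IsEulerNumber {g : ℕ} (ρ : SurfaceGroup g →* (ℂ ≃ₜ ℂ)) (e : ℤ) : Prop :=
  ∀ A B : Fin g → LH, (∀ i, (A i).f = ρ (sgA i)) → (∀ i, (B i).f = ρ (sgB i)) →
    ((List.finRange g).map fun i => cm (A i) (B i)).prod = LH.T ^ e

end

end MWC
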