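import Pool.Agent.Lib.MP_cbfcf7.Z0

/-!
# Block G, part 1: estimates for perturbed words of strip homeomorphisms
-/

namespace MWC

noncomputable section

open scoped Classical
open Complex MeasureTheory

/-- the covering `ℂ → ℂ \ {0}`, `Re z` = minus the angle, `|E z| = exp (2 π Im z)` -/
def Ec (z : ℂ) : ℂ := exp (-(2 * Real.pi * I * z))

theorem gj1_aux (g : ℂ → ℂ) (hc : Continuous g)
    (h : ∀ z w : ℂ, z ≠ w → (g w - g z) / (w - z) ∈ slitPlane) (p : ℂ) : LocOP g p := by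
  refine ⟨1, one_pos, fun q => arg ((g q - g p) / (q - p)) / (2 * Real.pi), ?_, ?_⟩
  · refine ContinuousOn.div_const ?_ _
    intro q hq
    have hqp : q ≠ p := hq.1
    have h1 : ContinuousAt (fun q => (g q - g p) / (q - p)) q := by
      refine ContinuousAt.div ?_ ?_ (sub_ne_zero.2 hqp)
      · exact (hc.continuousAt).sub continuousAt_const
      · exact continuousAt_id.sub continuousAt_const
    have h2 : ContinuousAt arg ((g q - g p) / (q - p)) :=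
      continuousAt_arg (h p q (Ne.symm hqp))
    exact (ContinuousAt.comp (f := fun q => (g q - g p) / (q - p)) h2 h1).continuousWithinAt
  · intro q hqp _
    have hr : (g q - g p) / (q - p) ∈ slitPlane := h p q (Ne.symm hqp)
    have hr0 : (g q - g p) / (q - p) ≠ 0 := slitPlane_ne_zero hr
    refine ⟨‖(g q - g p) / (q - p)‖, norm_pos_iff.2 hr0, ?_⟩
    have e1 : (2 * Real.pi * I * ((arg ((g q - g p) / (q - p)) / (2 * Real.pi) : ℝ) : ℂ))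
        = arg ((g q - g p) / (q - p)) * I := by
      push_cast
      have hpi : (Real.pi : ℂ) ≠ 0 := by exact_mod_cast Real.pi_ne_zero
      field_simp
    show g q - g p = (‖(g q - g p) / (q - p)‖ : ℝ) *
      exp (2 * Real.pi * I * ((arg ((g q - g p) / (q - p)) / (2 * Real.pi) : ℝ) : ℂ)) * (q - p)
    rw [e1, norm_mul_exp_arg_mul_I]
    rw [div_mul_cancel₀ _ (sub_ne_zero.2 hqp)]

theorem gj1_inv {z : ℂ} (hz : z ∈ slitPlane) : z⁻¹ ∈ slitPlane := by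
  rw [mem_slitPlane_iff_arg] at hz ⊢
  refine ⟨?_, inv_ne_zero hz.2⟩
  rw [arg_inv, if_neg hz.1]
  intro hc
  have h1 := neg_pi_lt_arg z
  linarith

theorem locOP_of_slit (g : ℂ ≃ₜ ℂ) (h : ∀ z w : ℂ, z ≠ w → (g w - g z) / (w - z) ∈ slitPlane) :
    (∀ p, LocOP g p) ∧ ∀ p, LocOP g.symm p := by
  refine ⟨gj1_aux g g.continuous h, gj1_aux g.symm g.symm.continuous ?_⟩
  intro z w hzw
  have hne : g.symm z ≠ g.symm w := fun e => hzw (g.symm.injective e)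
  have h1 := h (g.symm z) (g.symm w) hne
  rw [g.apply_symm_apply, g.apply_symm_apply] at h1
  have h2 := gj1_inv h1
  rwa [inv_div] at h2

/-- strip homeomorphism covering an area preserving homeomorphism of the plane fixing `0` -/
def CoverArea (F : ℂ ≃ₜ ℂ) : Prop :=
  F ∈ SH 1 ∧ ∃ a : ℂ ≃ₜ ℂ, MeasurePreserving a volume volume ∧ a 0 = 0 ∧ ∀ z, Ec (F z) = a (Ec z)

/-- one-sided properties of an admissible perturbation -/
structure PertO (κ : ℂ → ℂ) (cn c1 yf ε : ℝ) : Prop where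
  re_le : ∀ z : ℂ, z.im ≤ yf → |(κ z).re - z.re| ≤ 1
  lo : ∀ z : ℂ, min z.im cn - 1 ≤ (κ z).im
  hi : ∀ z : ℂ, z.im ≤ yf → (κ z).im ≤ max z.im c1 + 1
  close : ∀ z : ℂ, c1 + 1 ≤ z.im → z.im ≤ yf → ‖κ z - z‖ ≤ ε

/-- admissible perturbation -/
structure Pert (κ : ℂ ≃ₜ ℂ) (cn c1 yf ε : ℝ) : Prop where
  mem : κ ∈ SH 1
  out : PertO κ cn c1 yf ε
  inv : PertO κ.symm cn c1 yf ε

/-- perturbed letters -/
def LP (cn c1 yf ε : ℝ) (g g' : ℂ ≃ₜ ℂ) : Prop :=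
  g ∈ SH 1 ∧ ∃ κ : ℂ ≃ₜ ℂ, Pert κ cn c1 yf ε ∧ (g' = κ * g ∨ g' = g * κ)

theorem Pert.symm {κ : ℂ ≃ₜ ℂ} {cn c1 yf ε : ℝ} (h : Pert κ cn c1 yf ε) :
    Pert κ⁻¹ cn c1 yf ε :=
  ⟨inv_mem h.mem, h.inv, h.out⟩

theorem LP.symm {cn c1 yf ε : ℝ} {g g' : ℂ ≃ₜ ℂ} (h : LP cn c1 yf ε g g') :
    LP cn c1 yf ε g⁻¹ g'⁻¹ := by
  obtain ⟨hg, κ, hκ, h1 | h1⟩ := h
  · exact ⟨inv_mem hg, κ⁻¹, hκ.symm, Or.inr (by rw [h1, mul_inv_rev])⟩
  · exact ⟨inv_mem hg, κ⁻¹, hκ.symm, Or.inl (by rw [h1, mul_inv_rev])⟩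

/-! ### exact homeomorphisms -/

theorem gj2_per {g : ℂ ≃ₜ ℂ} (hg : g ∈ SH 1) (k : ℤ) : ∀ z : ℂ, g (z + k) = g z + k := by
  have h1 : ∀ z : ℂ, g (z + 1) = g z + 1 := by
    intro z
    have := hg.1 z
    simpa using this
  have h2 : ∀ z : ℂ, g (z - 1) = g z - 1 := by
    intro z
    have := h1 (z - 1)
    rw [sub_add_cancel] at this
    rw [this, add_sub_cancel_right]
  induction k using Int.induction_on with
  | zero => intro z; simp
  | succ i ih =>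
    intro z
    have e : z + ((i : ℤ) + 1 : ℤ) = (z + ((i : ℤ) : ℂ)) + 1 := by push_cast; ring
    rw [e, h1, ih]
    push_cast
    ring
  | pred i ih =>
    intro z
    have e : z + ((-(i : ℤ) - 1 : ℤ) : ℂ) = (z + ((-(i : ℤ) : ℤ) : ℂ)) - 1 := by push_cast; ring
    rw [e, h2, ih]
    push_cast
    ring

/-- reduction to the fundamental strip -/
theorem gj2_red {g : ℂ ≃ₜ ℂ} (hg : g ∈ SH 1) (z : ℂ) :
    ∃ (k : ℤ) (z' : ℂ), z = z' + k ∧ 0 ≤ z'.re ∧ z'.re ≤ 1 ∧ z'.im = z.im ∧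
      g z = g z' + k := by
  refine ⟨⌊z.re⌋, z - (⌊z.re⌋ : ℤ), by ring, ?_, ?_, ?_, ?_⟩
  · simp only [sub_re, intCast_re]
    have := Int.floor_le z.re
    linarith
  · simp only [sub_re, intCast_re]
    have := Int.lt_floor_add_one z.re
    linarith
  · simp
  · rw [← gj2_per hg, sub_add_cancel]

theorem gj2_compact (a b c d : ℝ) : IsCompact (Set.Icc a b ×ℂ Set.Icc c d) :=
  isCompact_Icc.reProdIm isCompact_Icc

theorem sh_lower {g : ℂ ≃ₜ ℂ} (hg : g ∈ SH 1) (a : ℝ) : ∃ a' : ℝ, ∀ z : ℂ, a ≤ z.im →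
    a' ≤ (g z).im := by
  obtain ⟨M', hM'⟩ := hg.2.1.1 0
  obtain ⟨C, hC⟩ := (gj2_compact 0 1 a M').exists_bound_of_continuousOn (f := fun z => (g z).im)
    (continuous_im.comp g.continuous).continuousOn
  refine ⟨min 0 (-C), ?_⟩
  intro z hz
  by_cases h : M' ≤ z.im
  · exact (min_le_left _ _).trans (hM' z h)
  · push Not at h
    obtain ⟨k, z', e1, e2, e3, e4, e5⟩ := gj2_red hg z
    have h1 := hC z' ⟨⟨e2, e3⟩, ⟨by rw [e4]; exact hz, by rw [e4]; exact h.le⟩⟩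
    rw [Real.norm_eq_abs] at h1
    have h2 := (abs_le.1 h1).1
    rw [e5]
    simp only [add_im, intCast_im, add_zero]
    exact (min_le_right _ _).trans h2

theorem sh_upper {g : ℂ ≃ₜ ℂ} (hg : g ∈ SH 1) (b : ℝ) : ∃ b' : ℝ, ∀ z : ℂ, z.im ≤ b →
    (g z).im ≤ b' := by
  obtain ⟨M', hM'⟩ := hg.2.1.2 0
  obtain ⟨C, hC⟩ := (gj2_compact 0 1 M' b).exists_bound_of_continuousOn (f := fun z => (g z).im)
    (continuous_im.comp g.continuous).continuousOn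
  refine ⟨max 0 C, ?_⟩
  intro z hz
  by_cases h : z.im ≤ M'
  · exact (hM' z h).trans (le_max_left _ _)
  · push Not at h
    obtain ⟨k, z', e1, e2, e3, e4, e5⟩ := gj2_red hg z
    have h1 := hC z' ⟨⟨e2, e3⟩, ⟨by rw [e4]; exact h.le, by rw [e4]; exact hz⟩⟩
    rw [Real.norm_eq_abs] at h1
    have h2 := (abs_le.1 h1).2
    rw [e5]
    simp only [add_im, intCast_im, add_zero]
    exact h2.trans (le_max_right _ _)

theorem sh_disp {g : ℂ ≃ₜ ℂ} (hg : g ∈ SH 1) (a b : ℝ) : ∃ Δ : ℝ, ∀ z : ℂ, a ≤ z.im →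
    z.im ≤ b → |(g z).re - z.re| ≤ Δ := by
  obtain ⟨C, hC⟩ := (gj2_compact 0 1 a b).exists_bound_of_continuousOn
    (f := fun z => (g z).re - z.re)
    ((continuous_re.comp g.continuous).sub continuous_re).continuousOn
  refine ⟨C, ?_⟩
  intro z hz1 hz2
  obtain ⟨k, z', e1, e2, e3, e4, e5⟩ := gj2_red hg z
  have h1 := hC z' ⟨⟨e2, e3⟩, ⟨by rw [e4]; exact hz1, by rw [e4]; exact hz2⟩⟩
  rw [Real.norm_eq_abs] at h1
  have e6 : (g z).re - z.re = (g z').re - z'.re := by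
    rw [e5, e1]
    simp only [add_re, intCast_re]
    ring
  rw [e6]
  exact h1

theorem sh_unif {g : ℂ ≃ₜ ℂ} (hg : g ∈ SH 1) (a b η : ℝ) (hη : 0 < η) : ∃ δ > 0, ∀ z w : ℂ,
    a ≤ z.im → z.im ≤ b → ‖w - z‖ ≤ δ → ‖g w - g z‖ ≤ η := by
  have huc := (gj2_compact (-1) 2 (a - 1) (b + 1)).uniformContinuousOn_of_continuous
    (f := g) g.continuous.continuousOn
  obtain ⟨δ, hδ, h⟩ := Metric.uniformContinuousOn_iff.1 huc η hη
  refine ⟨min (δ / 2) 1, by positivity, ?_⟩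
  intro z w hz1 hz2 hwz
  obtain ⟨k, z', e1, e2, e3, e4, e5⟩ := gj2_red hg z
  have hd1 : ‖w - z‖ ≤ δ / 2 := hwz.trans (min_le_left _ _)
  have hd2 : ‖w - z‖ ≤ 1 := hwz.trans (min_le_right _ _)
  have f1 : w - k - z' = w - z := by rw [e1]; ring
  have f2 : g w = g (w - k) + k := by rw [← gj2_per hg, sub_add_cancel]
  have f3 : g w - g z = g (w - k) - g z' := by rw [f2, e5]; ring
  have hre := abs_le.1 (abs_re_le_norm (w - k - z'))
  have him := abs_le.1 (abs_im_le_norm (w - k - z'))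
  rw [f1] at hre him
  have e6 : (w - (k : ℂ)).re - z'.re = (w - z).re := by rw [← f1, ← sub_re]
  have e7 : (w - (k : ℂ)).im - z'.im = (w - z).im := by rw [← f1, ← sub_im]
  have hz' : z' ∈ Set.Icc (-1 : ℝ) 2 ×ℂ Set.Icc (a - 1) (b + 1) :=
    ⟨⟨by linarith, by linarith⟩, ⟨by rw [e4]; linarith, by rw [e4]; linarith⟩⟩
  have hw' : w - (k : ℂ) ∈ Set.Icc (-1 : ℝ) 2 ×ℂ Set.Icc (a - 1) (b + 1) := by
    rw [e4] at e7
    refine ⟨⟨?_, ?_⟩, ⟨?_, ?_⟩⟩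
    · linarith [hre.1]
    · linarith [hre.2]
    · linarith [him.1]
    · linarith [him.2]
  have h1 := h (w - k) hw' z' hz' (by rw [dist_eq_norm, f1]; linarith)
  rw [dist_eq_norm] at h1
  rw [f3]
  exact h1.le

/-! ### perturbed letters -/

theorem lp_lower {g : ℂ ≃ₜ ℂ} (hg : g ∈ SH 1) (cn a : ℝ) : ∃ a' : ℝ,
    ∀ c1 yf ε g', LP cn c1 yf ε g g' → ∀ z : ℂ, a ≤ z.im → a' ≤ (g' z).im := by
  obtain ⟨a0, h0⟩ := sh_lower hg a
  obtain ⟨a2, h2⟩ := sh_lower hg (min a cn - 1)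
  refine ⟨min (min a0 cn - 1) a2, ?_⟩
  rintro c1 yf ε g' ⟨-, κ, hκ, h1 | h1⟩ z hz
  · subst h1
    show min (min a0 cn - 1) a2 ≤ (κ (g z)).im
    have h3 := hκ.out.lo (g z)
    have h4 : min a0 cn ≤ min (g z).im cn := min_le_min_right _ (h0 z hz)
    have h5 := min_le_left (min a0 cn - 1) a2
    linarith
  · subst h1
    show min (min a0 cn - 1) a2 ≤ (g (κ z)).im
    have h3 := hκ.out.lo z
    have h4 : min a cn ≤ min z.im cn := min_le_min_right _ hz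
    have h5 := min_le_right (min a0 cn - 1) a2
    have h6 := h2 (κ z) (by linarith)
    linarith

theorem lp_upper {g : ℂ ≃ₜ ℂ} (hg : g ∈ SH 1) (c1 b : ℝ) : ∃ b' Y : ℝ,
    ∀ cn yf ε g', Y ≤ yf → LP cn c1 yf ε g g' → ∀ z : ℂ, z.im ≤ b → (g' z).im ≤ b' := by
  obtain ⟨b0, h0⟩ := sh_upper hg b
  obtain ⟨b2, h2⟩ := sh_upper hg (max b c1 + 1)
  refine ⟨max (max b0 c1 + 1) b2, max b b0, ?_⟩
  rintro cn yf ε g' hY ⟨-, κ, hκ, h1 | h1⟩ z hz
  · subst h1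
    show (κ (g z)).im ≤ max (max b0 c1 + 1) b2
    have h7 := h0 z hz
    have h3 := hκ.out.hi (g z) (by linarith [le_max_right b b0])
    have h4 : max (g z).im c1 ≤ max b0 c1 := max_le_max_right _ h7
    have h5 := le_max_left (max b0 c1 + 1) b2
    linarith
  · subst h1
    show (g (κ z)).im ≤ max (max b0 c1 + 1) b2
    have h3 := hκ.out.hi z (by linarith [le_max_left b b0])
    have h4 : max z.im c1 ≤ max b c1 := max_le_max_right _ hz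
    have h5 := le_max_right (max b0 c1 + 1) b2
    have h6 := h2 (κ z) (by linarith)
    linarith

theorem lp_disp {g : ℂ ≃ₜ ℂ} (hg : g ∈ SH 1) (cn c1 a b : ℝ) : ∃ Δ Y : ℝ,
    ∀ yf ε g', Y ≤ yf → LP cn c1 yf ε g g' → ∀ z : ℂ, a ≤ z.im → z.im ≤ b →
      |(g' z).re - z.re| ≤ Δ := by
  obtain ⟨b0, h0⟩ := sh_upper hg b
  obtain ⟨D1, h1⟩ := sh_disp hg a b
  obtain ⟨D2, h2⟩ := sh_disp hg (min a cn - 1) (max b c1 + 1)
  refine ⟨max (D1 + 1) (D2 + 1), max b b0, ?_⟩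
  rintro yf ε g' hY ⟨-, κ, hκ, h3 | h3⟩ z hza hzb
  · subst h3
    show |(κ (g z)).re - z.re| ≤ max (D1 + 1) (D2 + 1)
    have h4 := h0 z hzb
    have h5 := hκ.out.re_le (g z) (by linarith [le_max_right b b0])
    have h6 := h1 z hza hzb
    have h7 := le_max_left (D1 + 1) (D2 + 1)
    have h8 := abs_sub_le (κ (g z)).re (g z).re z.re
    linarith
  · subst h3
    show |(g (κ z)).re - z.re| ≤ max (D1 + 1) (D2 + 1)
    have hy : z.im ≤ yf := by linarith [le_max_left b b0]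
    have h5 := hκ.out.re_le z hy
    have h9 := hκ.out.lo z
    have h10 := hκ.out.hi z hy
    have h11 : min a cn ≤ min z.im cn := min_le_min_right _ hza
    have h12 : max z.im c1 ≤ max b c1 := max_le_max_right _ hzb
    have h6 := h2 (κ z) (by linarith) (by linarith)
    have h7 := le_max_right (D1 + 1) (D2 + 1)
    have h8 := abs_sub_le (g (κ z)).re (κ z).re z.re
    linarith

theorem lp_close {g : ℂ ≃ₜ ℂ} (hg : g ∈ SH 1) (a : ℝ) : ∃ c : ℝ, ∀ b η : ℝ, 0 < η →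
    ∃ Y ε₀ : ℝ, 0 < ε₀ ∧ ∀ cn c1 yf ε g', c1 ≤ c → Y ≤ yf → ε ≤ ε₀ → LP cn c1 yf ε g g' →
      ∀ z : ℂ, a ≤ z.im → z.im ≤ b → ‖g' z - g z‖ ≤ η := by
  obtain ⟨a0, h0⟩ := sh_lower hg a
  refine ⟨min a0 a - 1, ?_⟩
  intro b η hη
  obtain ⟨b0, hb0⟩ := sh_upper hg b
  obtain ⟨δ, hδ, hu⟩ := sh_unif hg a b η hη
  refine ⟨max b b0, min η δ, lt_min hη hδ, ?_⟩
  rintro cn c1 yf ε g' hc hY hε ⟨-, κ, hκ, h3 | h3⟩ z hza hzb
  · subst h3
    show ‖κ (g z) - g z‖ ≤ η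
    have h4 := h0 z hza
    have h5 := hb0 z hzb
    have h6 := hκ.out.close (g z) (by linarith [min_le_left a0 a]) (by linarith [le_max_right b b0])
    have h7 := min_le_left η δ
    linarith
  · subst h3
    show ‖g (κ z) - g z‖ ≤ η
    have h6 := hκ.out.close z (by linarith [min_le_right a0 a]) (by linarith [le_max_left b b0])
    have h7 := min_le_right η δ
    exact hu z (κ z) hza hzb (by linarith)

/-! ### perturbed words -/

theorem word_lower (gs : List (ℂ ≃ₜ ℂ)) (hg : ∀ g ∈ gs, g ∈ SH 1) (cn a : ℝ) : ∃ a' : ℝ,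
    ∀ c1 yf ε gs', List.Forall₂ (LP cn c1 yf ε) gs gs' → ∀ z : ℂ, a ≤ z.im →
      a' ≤ (gs'.prod z).im := by
  induction gs with
  | nil =>
    refine ⟨a, ?_⟩
    intro c1 yf ε gs' h z hz
    rw [List.forall₂_nil_left_iff] at h
    subst h
    exact hz
  | cons g t ih =>
    obtain ⟨a1, h1⟩ := ih (fun x hx => hg x (List.mem_cons_of_mem _ hx))
    obtain ⟨a2, h2⟩ := lp_lower (hg g List.mem_cons_self) cn a1
    refine ⟨a2, ?_⟩
    intro c1 yf ε gs' h z hz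
    rw [List.forall₂_cons_left_iff] at h
    obtain ⟨g', t', hgg, htt, rfl⟩ := h
    rw [List.prod_cons]
    show a2 ≤ (g' (t'.prod z)).im
    exact h2 c1 yf ε g' hgg _ (h1 c1 yf ε t' htt z hz)

theorem word_upper (gs : List (ℂ ≃ₜ ℂ)) (hg : ∀ g ∈ gs, g ∈ SH 1) (c1 b : ℝ) : ∃ b' Y : ℝ,
    ∀ cn yf ε gs', Y ≤ yf → List.Forall₂ (LP cn c1 yf ε) gs gs' → ∀ z : ℂ, z.im ≤ b →
      (gs'.prod z).im ≤ b' := by
  induction gs with
  | nil =>
    refine ⟨b, 0, ?_⟩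
    intro cn yf ε gs' _ h z hz
    rw [List.forall₂_nil_left_iff] at h
    subst h
    exact hz
  | cons g t ih =>
    obtain ⟨b1, Y1, h1⟩ := ih (fun x hx => hg x (List.mem_cons_of_mem _ hx))
    obtain ⟨b2, Y2, h2⟩ := lp_upper (hg g List.mem_cons_self) c1 b1
    refine ⟨b2, max Y1 Y2, ?_⟩
    intro cn yf ε gs' hY h z hz
    rw [List.forall₂_cons_left_iff] at h
    obtain ⟨g', t', hgg, htt, rfl⟩ := h
    rw [List.prod_cons]
    show (g' (t'.prod z)).im ≤ b2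
    exact h2 cn yf ε g' ((le_max_right _ _).trans hY) hgg _
      (h1 cn yf ε t' ((le_max_left _ _).trans hY) htt z hz)

theorem word_disp (gs : List (ℂ ≃ₜ ℂ)) (hg : ∀ g ∈ gs, g ∈ SH 1) (cn c1 a b : ℝ) : ∃ Δ Y : ℝ,
    ∀ yf ε gs', Y ≤ yf → List.Forall₂ (LP cn c1 yf ε) gs gs' → ∀ z : ℂ, a ≤ z.im →
      (gs'.prod z).im ≤ b → |(gs'.prod z).re - z.re| ≤ Δ := by
  induction gs generalizing b with
  | nil =>
    refine ⟨0, 0, ?_⟩
    intro yf ε gs' _ h z _ _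
    rw [List.forall₂_nil_left_iff] at h
    subst h
    show |z.re - z.re| ≤ 0
    simp
  | cons g t ih =>
    have hgm : g ∈ SH 1 := hg g List.mem_cons_self
    have htm : ∀ x ∈ t, x ∈ SH 1 := fun x hx => hg x (List.mem_cons_of_mem _ hx)
    obtain ⟨b2, Y2, h2⟩ := lp_upper (inv_mem hgm) c1 b
    obtain ⟨D1, Y1, h1⟩ := ih htm b2
    obtain ⟨a2, h3⟩ := word_lower t htm cn a
    obtain ⟨D3, Y3, h4⟩ := lp_disp hgm cn c1 a2 b2
    refine ⟨D1 + D3, max (max Y1 Y2) Y3, ?_⟩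
    intro yf ε gs' hY h z hza hzb
    rw [List.forall₂_cons_left_iff] at h
    obtain ⟨g', t', hgg, htt, rfl⟩ := h
    rw [List.prod_cons] at hzb ⊢
    have hY1 : Y1 ≤ yf := ((le_max_left _ _).trans (le_max_left _ _)).trans hY
    have hY2 : Y2 ≤ yf := ((le_max_right _ _).trans (le_max_left _ _)).trans hY
    have hY3 : Y3 ≤ yf := (le_max_right _ _).trans hY
    obtain ⟨w, hw⟩ : ∃ w : ℂ, w = t'.prod z := ⟨_, rfl⟩
    have e1 : (g' * t'.prod) z = g' w := by rw [hw]; rfl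
    rw [e1] at hzb ⊢
    have h5 : w.im ≤ b2 := by
      have h6 := h2 cn yf ε g'⁻¹ hY2 hgg.symm (g' w) hzb
      have e2 : (g'⁻¹ : ℂ ≃ₜ ℂ) (g' w) = w := g'.symm_apply_apply w
      rwa [e2] at h6
    have h6 : a2 ≤ w.im := by
      rw [hw]
      exact h3 c1 yf ε t' htt z hza
    have h7 : |w.re - z.re| ≤ D1 := by
      rw [hw] at h5 ⊢
      exact h1 yf ε t' hY1 htt z hza h5
    have h8 := h4 yf ε g' hY3 hgg w h6 h5
    have h9 := abs_sub_le (g' w).re w.re z.re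
    linarith

theorem gj4_prod_mem (gs : List (ℂ ≃ₜ ℂ)) (hg : ∀ g ∈ gs, g ∈ SH 1) : gs.prod ∈ SH 1 :=
  list_prod_mem hg

theorem word_close (gs : List (ℂ ≃ₜ ℂ)) (hg : ∀ g ∈ gs, g ∈ SH 1) (a : ℝ) : ∃ c : ℝ,
    ∀ b η : ℝ, 0 < η → ∃ Y ε₀ : ℝ, 0 < ε₀ ∧ ∀ cn c1 yf ε gs', c1 ≤ c → Y ≤ yf → ε ≤ ε₀ →
      List.Forall₂ (LP cn c1 yf ε) gs gs' →
      ∀ z : ℂ, a ≤ z.im → z.im ≤ b → ‖gs'.prod z - gs.prod z‖ ≤ η := by
  induction gs with
  | nil =>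
    refine ⟨0, ?_⟩
    intro b η hη
    refine ⟨0, 1, one_pos, ?_⟩
    intro cn c1 yf ε gs' _ _ _ h z _ _
    rw [List.forall₂_nil_left_iff] at h
    subst h
    rw [sub_self, norm_zero]
    exact hη.le
  | cons g t ih =>
    have hgm : g ∈ SH 1 := hg g List.mem_cons_self
    have htm : ∀ x ∈ t, x ∈ SH 1 := fun x hx => hg x (List.mem_cons_of_mem _ hx)
    have htp := gj4_prod_mem t htm
    obtain ⟨a2, ha2⟩ := sh_lower htp a
    obtain ⟨ct, hct⟩ := ih htm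
    obtain ⟨cg, hcg⟩ := lp_close hgm (a2 - 1)
    refine ⟨min ct cg, ?_⟩
    intro b η hη
    obtain ⟨b2, hb2⟩ := sh_upper htp b
    obtain ⟨δ, hδ, hu⟩ := sh_unif hgm a2 b2 (η / 2) (by linarith)
    obtain ⟨Y1, e1, he1, h1⟩ := hct b (min 1 δ) (lt_min one_pos hδ)
    obtain ⟨Y2, e2, he2, h2⟩ := hcg (b2 + 1) (η / 2) (by linarith)
    refine ⟨max Y1 Y2, min e1 e2, lt_min he1 he2, ?_⟩
    intro cn c1 yf ε gs' hc hY hε h z hza hzb
    rw [List.forall₂_cons_left_iff] at h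
    obtain ⟨g', t', hgg, htt, rfl⟩ := h
    rw [List.prod_cons, List.prod_cons]
    obtain ⟨w', hw'⟩ : ∃ w' : ℂ, w' = t'.prod z := ⟨_, rfl⟩
    obtain ⟨w, hw⟩ : ∃ w : ℂ, w = t.prod z := ⟨_, rfl⟩
    have q1 : (g' * t'.prod) z = g' w' := by rw [hw']; rfl
    have q2 : (g * t.prod) z = g w := by rw [hw]; rfl
    rw [q1, q2]
    have h3 : ‖w' - w‖ ≤ min 1 δ := by
      rw [hw, hw']
      exact h1 cn c1 yf ε t' (hc.trans (min_le_left _ _)) ((le_max_left _ _).trans hY)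
        (hε.trans (min_le_left _ _)) htt z hza hzb
    have h4 : a2 ≤ w.im := by rw [hw]; exact ha2 z hza
    have h5 : w.im ≤ b2 := by rw [hw]; exact hb2 z hzb
    have h6 : |w'.im - w.im| ≤ 1 := by
      have h7 := Complex.abs_im_le_norm (w' - w)
      rw [Complex.sub_im] at h7
      exact (h7.trans h3).trans (min_le_left _ _)
    rw [abs_le] at h6
    have h7 := h2 cn c1 yf ε g' (hc.trans (min_le_right _ _)) ((le_max_right _ _).trans hY)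
        (hε.trans (min_le_right _ _)) hgg w' (by linarith [h6.1]) (by linarith [h6.2])
    have h8 := hu w w' h4 h5 (h3.trans (min_le_right _ _))
    have h9 : g' w' - g w = (g' w' - g w') + (g w' - g w) := by ring
    rw [h9]
    have h10 := norm_add_le (g' w' - g w') (g w' - g w)
    linarith

/-- the perturbed list of pairs -/
def PertPairs (cn c1 yf ε : ℝ) (p p' : (ℂ ≃ₜ ℂ) × (ℂ ≃ₜ ℂ)) : Prop :=
  ∃ κ κ' : ℂ ≃ₜ ℂ, Pert κ cn c1 yf ε ∧ Pert κ' cn c1 yf ε ∧ p' = (κ * p.1, κ' * p.2)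

/-- the letters of the product of commutators -/
def gj5_letters (L : List ((ℂ ≃ₜ ℂ) × (ℂ ≃ₜ ℂ))) : List (ℂ ≃ₜ ℂ) :=
  L.flatMap fun p => [p.1, p.2, p.1⁻¹, p.2⁻¹]

theorem gj5_prod (L : List ((ℂ ≃ₜ ℂ) × (ℂ ≃ₜ ℂ))) :
    (gj5_letters L).prod = (L.map fun p => cm p.1 p.2).prod := by
  induction L with
  | nil => simp [gj5_letters]
  | cons p L ih =>
    have e : gj5_letters (p :: L) = [p.1, p.2, p.1⁻¹, p.2⁻¹] ++ gj5_letters L := by
      simp [gj5_letters]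
    rw [e, List.prod_append, ih, List.map_cons, List.prod_cons]
    simp [cm, mul_assoc]

theorem gj5_mem (L : List ((ℂ ≃ₜ ℂ) × (ℂ ≃ₜ ℂ))) (hL : ∀ p ∈ L, p.1 ∈ SH 1 ∧ p.2 ∈ SH 1) :
    ∀ g ∈ gj5_letters L, g ∈ SH 1 := by
  intro g hg
  unfold gj5_letters at hg
  rw [List.mem_flatMap] at hg
  obtain ⟨p, hp, hg⟩ := hg
  obtain ⟨h1, h2⟩ := hL p hp
  simp only [List.mem_cons, List.not_mem_nil, or_false] at hg
  rcases hg with rfl | rfl | rfl | rfl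
  · exact h1
  · exact h2
  · exact inv_mem h1
  · exact inv_mem h2

theorem gj5_forall {cn c1 yf ε : ℝ} (L L' : List ((ℂ ≃ₜ ℂ) × (ℂ ≃ₜ ℂ)))
    (hL : ∀ p ∈ L, p.1 ∈ SH 1 ∧ p.2 ∈ SH 1)
    (h : List.Forall₂ (PertPairs cn c1 yf ε) L L') :
    List.Forall₂ (LP cn c1 yf ε) (gj5_letters L) (gj5_letters L') := by
  induction h with
  | nil => exact List.Forall₂.nil
  | @cons p p' L L' hp hL' ih =>
    obtain ⟨h1, h2⟩ := hL p (List.mem_cons_self)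
    obtain ⟨κ, κ', hκ, hκ', rfl⟩ := hp
    have e : gj5_letters (p :: L) = [p.1, p.2, p.1⁻¹, p.2⁻¹] ++ gj5_letters L := by
      simp [gj5_letters]
    have e' : gj5_letters ((κ * p.1, κ' * p.2) :: L') =
        [κ * p.1, κ' * p.2, (κ * p.1)⁻¹, (κ' * p.2)⁻¹] ++ gj5_letters L' := by
      simp [gj5_letters]
    rw [e, e']
    have a1 : LP cn c1 yf ε p.1 (κ * p.1) := ⟨h1, κ, hκ, Or.inl rfl⟩
    have a2 : LP cn c1 yf ε p.2 (κ' * p.2) := ⟨h2, κ', hκ', Or.inl rfl⟩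
    have ih' := ih (fun q hq => hL q (List.mem_cons_of_mem _ hq))
    simp only [List.cons_append, List.nil_append]
    exact .cons a1 (.cons a2 (.cons a1.symm (.cons a2.symm ih')))

/-- the letters of the inverse -/
def gj5_inv (gs : List (ℂ ≃ₜ ℂ)) : List (ℂ ≃ₜ ℂ) := (gs.map (fun g => g⁻¹)).reverse

theorem gj5_inv_prod (gs : List (ℂ ≃ₜ ℂ)) : (gj5_inv gs).prod = gs.prod⁻¹ := by
  unfold gj5_inv
  rw [List.prod_inv_reverse]

theorem gj5_inv_mem (gs : List (ℂ ≃ₜ ℂ)) (h : ∀ g ∈ gs, g ∈ SH 1) :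
    ∀ g ∈ gj5_inv gs, g ∈ SH 1 := by
  intro g hg
  unfold gj5_inv at hg
  rw [List.mem_reverse, List.mem_map] at hg
  obtain ⟨f, hf, rfl⟩ := hg
  exact inv_mem (h f hf)

theorem gj5_inv_forall {cn c1 yf ε : ℝ} (gs gs' : List (ℂ ≃ₜ ℂ))
    (h : List.Forall₂ (LP cn c1 yf ε) gs gs') :
    List.Forall₂ (LP cn c1 yf ε) (gj5_inv gs) (gj5_inv gs') := by
  unfold gj5_inv
  rw [List.forall₂_reverse_iff, List.forall₂_map_left_iff, List.forall₂_map_right_iff]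
  exact h.imp (fun _ _ hab => hab.symm)

theorem est (L : List ((ℂ ≃ₜ ℂ) × (ℂ ≃ₜ ℂ))) (hL : ∀ p ∈ L, p.1 ∈ SH 1 ∧ p.2 ∈ SH 1) (m : ℤ)
    (y0 : ℝ) (h : ∀ z : ℂ, y0 ≤ z.im → (L.map fun p => cm p.1 p.2).prod z = z + m) :
    ∃ yE c1 : ℝ, c1 ≤ yE ∧ ∀ cn yd : ℝ, ∃ k : ℕ, ∀ yS : ℝ, ∃ yf ε : ℝ, 0 < ε ∧
      ∀ L' : List ((ℂ ≃ₜ ℂ) × (ℂ ≃ₜ ℂ)), List.Forall₂ (PertPairs cn c1 yf ε) L L' →
      ∀ w : ℂ, yd ≤ w.im → w.im ≤ yS →
        ((L'.map fun p => cm p.1 p.2).prod w - m).re ≤ 0 →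
        (((L'.map fun p => cm p.1 p.2).prod w - m).im ≤ yE →
          ((L'.map fun p => cm p.1 p.2).prod w - m).re ≤ -k) → w.re < 1 := by
  set gs := gj5_letters L with hgs
  have hgsm : ∀ g ∈ gs, g ∈ SH 1 := gj5_mem L hL
  have him : ∀ g ∈ gj5_inv gs, g ∈ SH 1 := gj5_inv_mem gs hgsm
  obtain ⟨c, hc⟩ := word_close (gj5_inv gs) him y0
  refine ⟨y0, min c y0, min_le_right _ _, ?_⟩
  intro cn yd
  obtain ⟨Δ, Y1, hΔ⟩ := word_disp gs hgsm cn (min c y0) yd y0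
  refine ⟨⌈|Δ| + |(m : ℝ)|⌉₊ + 1, ?_⟩
  intro yS
  obtain ⟨b', Y2, hb'⟩ := word_upper gs hgsm (min c y0) yS
  obtain ⟨Y3, ε₀, hε₀, hY3⟩ := hc b' (1 / 2) (by norm_num)
  refine ⟨max Y1 (max Y2 Y3), ε₀, hε₀, ?_⟩
  intro L' hL' w hw1 hw2 hre him2
  have hF := gj5_forall L L' hL hL'
  have hFi := gj5_inv_forall _ _ hF
  rw [← gj5_prod L'] at hre him2
  have hW : gs.prod = (L.map fun p => cm p.1 p.2).prod := gj5_prod L
  set W' := (gj5_letters L').prod with hW'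
  set v : ℂ := W' w with hv
  have hY1 : Y1 ≤ max Y1 (max Y2 Y3) := le_max_left _ _
  have hY2 : Y2 ≤ max Y1 (max Y2 Y3) := (le_max_left _ _).trans (le_max_right _ _)
  have hY3' : Y3 ≤ max Y1 (max Y2 Y3) := (le_max_right _ _).trans (le_max_right _ _)
  have hvm : (v - (m : ℂ)).re = v.re - m := by simp
  have hvi : (v - (m : ℂ)).im = v.im := by simp
  rw [hvm] at hre
  rw [hvi, hvm] at him2
  rcases _root_.le_or_gt v.im y0 with hle | hgt
  · -- case (b)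
    have h1 := hΔ _ _ _ hY1 hF w hw1 hle
    rw [← hW', ← hv] at h1
    have h2 := him2 hle
    have h3 := Nat.le_ceil (|Δ| + |(m : ℝ)|)
    push_cast at h2
    have h4 := (abs_le.mp h1).1
    have h5 := le_abs_self Δ
    have h6 := le_abs_self (m : ℝ)
    linarith
  · -- case (a)
    have h1 : v.im ≤ b' := hb' _ _ _ _ hY2 hF w hw2
    have h2 := hY3 cn (min c y0) _ ε₀ _ (min_le_left _ _) hY3' _root_.le_rfl hFi v hgt.le h1
    rw [gj5_inv_prod, gj5_inv_prod, ← hW'] at h2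
    have h3 : (W'⁻¹ : ℂ ≃ₜ ℂ) v = w := by
      rw [hv]
      exact W'.symm_apply_apply w
    have h4 : (gs.prod⁻¹ : ℂ ≃ₜ ℂ) v = v - m := by
      have h5 : gs.prod (v - m) = v := by
        rw [hW]
        have h6 := h (v - m) (by rw [hvi]; exact hgt.le)
        rw [h6]
        ring
      calc (gs.prod⁻¹ : ℂ ≃ₜ ℂ) v = gs.prod.symm (gs.prod (v - m)) := by rw [h5]; rfl
        _ = v - m := gs.prod.symm_apply_apply _
    rw [h3, h4] at h2
    have h7 := (Complex.abs_re_le_norm (w - (v - m))).trans h2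
    have h8 := (abs_le.mp h7).2
    rw [Complex.sub_re, hvm] at h8
    linarith

end

end MWC
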