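import Pool.Agent.Lib.MP_cbfcf7.G0

/-!
# Block G, part 2: invariant finite obstacle sets (Hall matching and pushes)
-/

namespace MWC

noncomputable section

open scoped Classical
open Complex MeasureTheory

/-- half-open grid cell of side `s` -/
def cell (s : ℝ) (c : ℤ × ℤ) : Set ℂ :=
  {z | c.1 * s ≤ z.re ∧ z.re < (c.1 + 1) * s ∧ c.2 * s ≤ z.im ∧ z.im < (c.2 + 1) * s}

/-- half-open square `[-t,t)²` -/
def sqr (t : ℝ) : Set ℂ := {z | -t ≤ z.re ∧ z.re < t ∧ -t ≤ z.im ∧ z.im < t}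

/-- cells of the square with `2r × 2r` cells, outside the square with `2q × 2q` cells -/
def cells (q r : ℕ) : Finset (ℤ × ℤ) :=
  (Finset.Ico (-(r : ℤ)) r ×ˢ Finset.Ico (-(r : ℤ)) r) \
    (Finset.Ico (-(q : ℤ)) q ×ˢ Finset.Ico (-(q : ℤ)) q)

/-- volume of a half-open rectangle -/
theorem gj6_rect (a b c d : ℝ) :
    volume {z : ℂ | a ≤ z.re ∧ z.re < b ∧ c ≤ z.im ∧ z.im < d}
      = ENNReal.ofReal (b - a) * ENNReal.ofReal (d - c) := by
  have h1 : {z : ℂ | a ≤ z.re ∧ z.re < b ∧ c ≤ z.im ∧ z.im < d}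
      = Complex.measurableEquivRealProd ⁻¹' (Set.Ico a b ×ˢ Set.Ico c d) := by
    ext z
    simp only [Set.mem_ofPred_eq, Set.mem_preimage, Set.mem_prod, Set.mem_Ico,
      Complex.measurableEquivRealProd_apply]
    tauto
  rw [h1, Complex.volume_preserving_equiv_real_prod.measure_preimage
    ((measurableSet_Ico.prod measurableSet_Ico).nullMeasurableSet),
    Measure.volume_eq_prod, Measure.prod_prod, Real.volume_Ico, Real.volume_Ico]

theorem volume_cell (s : ℝ) (hs : 0 < s) (c : ℤ × ℤ) :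
    volume (cell s c) = ENNReal.ofReal (s ^ 2) := by
  unfold cell
  rw [gj6_rect]
  have e1 : ((c.1 : ℝ) + 1) * s - c.1 * s = s := by ring
  have e2 : ((c.2 : ℝ) + 1) * s - c.2 * s = s := by ring
  rw [e1, e2, ← ENNReal.ofReal_mul hs.le]
  congr 1
  ring

theorem volume_sqr (t : ℝ) (ht : 0 < t) : volume (sqr t) = ENNReal.ofReal (4 * t ^ 2) := by
  unfold sqr
  rw [gj6_rect]
  rw [← ENNReal.ofReal_mul (by linarith)]
  congr 1
  ring

/-- the index of the cell containing a point -/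
def gj7_idx (s : ℝ) (z : ℂ) : ℤ × ℤ := (⌊z.re / s⌋, ⌊z.im / s⌋)

theorem gj7_cell_iff {s : ℝ} (hs : 0 < s) (c : ℤ × ℤ) (z : ℂ) :
    z ∈ cell s c ↔ gj7_idx s z = c := by
  unfold cell gj7_idx
  rw [Set.mem_ofPred_eq, Prod.ext_iff, Int.floor_eq_iff, Int.floor_eq_iff, le_div_iff₀ hs,
    le_div_iff₀ hs, div_lt_iff₀ hs, div_lt_iff₀ hs]
  tauto

theorem gj7_sqr_iff {s : ℝ} (hs : 0 < s) (n : ℕ) (z : ℂ) :
    z ∈ sqr (n * s) ↔
      gj7_idx s z ∈ Finset.Ico (-(n : ℤ)) n ×ˢ Finset.Ico (-(n : ℤ)) n := by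
  unfold sqr gj7_idx
  rw [Set.mem_ofPred_eq, Finset.mem_product, Finset.mem_Ico, Finset.mem_Ico, Int.le_floor,
    Int.le_floor, Int.floor_lt, Int.floor_lt, le_div_iff₀ hs, le_div_iff₀ hs, div_lt_iff₀ hs,
    div_lt_iff₀ hs]
  push_cast
  rw [neg_mul]
  tauto

theorem gj7_idx_mem {s : ℝ} (hs : 0 < s) (z : ℂ) : z ∈ cell s (gj7_idx s z) :=
  (gj7_cell_iff hs _ z).mpr rfl

theorem gj7_cells_iff {s : ℝ} (hs : 0 < s) (q r : ℕ) (z : ℂ) :
    gj7_idx s z ∈ cells q r ↔ z ∈ sqr (r * s) ∧ z ∉ sqr (q * s) := by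
  unfold cells
  rw [Finset.mem_sdiff, ← gj7_sqr_iff hs, ← gj7_sqr_iff hs]

theorem gj7_meas_cell (s : ℝ) (c : ℤ × ℤ) : MeasurableSet (cell s c) := by
  have e : cell s c = Complex.re ⁻¹' Set.Ico (c.1 * s) ((c.1 + 1) * s) ∩
      Complex.im ⁻¹' Set.Ico (c.2 * s) ((c.2 + 1) * s) := by
    ext z
    simp only [cell, Set.mem_ofPred_eq, Set.mem_inter_iff, Set.mem_preimage, Set.mem_Ico]
    tauto
  rw [e]
  exact (Complex.measurable_re measurableSet_Ico).inter (Complex.measurable_im measurableSet_Ico)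

theorem gj7_meas_sqr (t : ℝ) : MeasurableSet (sqr t) := by
  have e : sqr t = Complex.re ⁻¹' Set.Ico (-t) t ∩ Complex.im ⁻¹' Set.Ico (-t) t := by
    ext z
    simp only [sqr, Set.mem_ofPred_eq, Set.mem_inter_iff, Set.mem_preimage, Set.mem_Ico]
    tauto
  rw [e]
  exact (Complex.measurable_re measurableSet_Ico).inter (Complex.measurable_im measurableSet_Ico)

/-- union of cells -/
def gj7_U (s : ℝ) (B : Finset (ℤ × ℤ)) : Set ℂ := {z | gj7_idx s z ∈ B}

theorem gj7_U_eq {s : ℝ} (hs : 0 < s) (B : Finset (ℤ × ℤ)) :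
    gj7_U s B = ⋃ c ∈ B, cell s c := by
  ext z
  simp only [gj7_U, Set.mem_ofPred_eq, Set.mem_iUnion, exists_prop]
  constructor
  · intro h
    exact ⟨_, h, gj7_idx_mem hs z⟩
  · rintro ⟨c, hc, hz⟩
    rwa [(gj7_cell_iff hs c z).mp hz]

theorem gj7_U_meas {s : ℝ} (hs : 0 < s) (B : Finset (ℤ × ℤ)) : MeasurableSet (gj7_U s B) := by
  rw [gj7_U_eq hs]
  exact B.measurableSet_biUnion fun c _ => gj7_meas_cell s c

theorem gj7_U_vol {s : ℝ} (hs : 0 < s) (B : Finset (ℤ × ℤ)) :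
    volume (gj7_U s B) = B.card * ENNReal.ofReal (s ^ 2) := by
  rw [gj7_U_eq hs, measure_biUnion_finset]
  · simp only [volume_cell s hs, Finset.sum_const, nsmul_eq_mul]
  · intro c _ c' _ hcc
    rw [Function.onFun, Set.disjoint_left]
    intro z hz hz'
    exact hcc (((gj7_cell_iff hs c z).mp hz).symm.trans ((gj7_cell_iff hs c' z).mp hz'))
  · intro c _
    exact gj7_meas_cell s c

theorem gj7_UM_vol {s : ℝ} (hs : 0 < s) (q r : ℕ) (B : Finset (ℤ × ℤ)) (hB : B ⊆ cells q r) :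
    volume (sqr (q * s) ∪ gj7_U s B) =
      volume (sqr (q * s)) + B.card * ENNReal.ofReal (s ^ 2) := by
  rw [measure_union _ (gj7_U_meas hs B), gj7_U_vol hs]
  rw [Set.disjoint_left]
  intro z hz hz'
  exact ((gj7_cells_iff hs q r z).mp (hB hz')).2 hz

theorem gj7_image {a : ℂ ≃ₜ ℂ} (ha : MeasurePreserving a volume volume) (S : Set ℂ)
    (hS : MeasurableSet S) : volume (a '' S) = volume S := by
  have h1 : MeasurableSet (a '' S) := a.measurableEmbedding.measurableSet_image.mpr hS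
  have h2 := ha.measure_preimage h1.nullMeasurableSet
  rw [Set.preimage_image_eq _ a.injective] at h2
  exact h2.symm

theorem gj7_card_le {s : ℝ} (hs : 0 < s) (x y : ℕ) (v : ENNReal) (hv : v ≠ ⊤)
    (h : v + x * ENNReal.ofReal (s ^ 2) ≤ v + y * ENNReal.ofReal (s ^ 2)) : x ≤ y := by
  have h1 : (x : ENNReal) * ENNReal.ofReal (s ^ 2) ≤ y * ENNReal.ofReal (s ^ 2) :=
    (ENNReal.add_le_add_iff_left hv).mp h
  have h0 : ENNReal.ofReal (s ^ 2) ≠ 0 := by
    rw [Ne, ENNReal.ofReal_eq_zero, not_le]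
    positivity
  have h2 : (x : ENNReal) ≤ y :=
    (ENNReal.mul_le_mul_iff_left h0 ENNReal.ofReal_ne_top).mp h1
  exact_mod_cast h2

/-- the relation of the matching -/
def gj7_R (a : ℂ → ℂ) (s : ℝ) (q r : ℕ) (c c' : ℤ × ℤ) : Prop :=
  (∃ x ∈ cell s c, a x ∈ cell s c') ∨
    ((∃ x ∈ cell s c, a x ∈ sqr (q * s)) ∧ (∃ x ∈ sqr (q * s), a x ∈ cell s c')) ∨
    ((∃ x ∈ cell s c, a x ∉ sqr (r * s)) ∧ (∃ x, x ∉ sqr (r * s) ∧ a x ∈ cell s c'))

/-- HALL condition -/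
theorem gj7_hall (a : ℂ ≃ₜ ℂ) (ha : MeasurePreserving a volume volume) (s : ℝ) (hs : 0 < s)
    (q r : ℕ) (hq : 0 < q) (hM : a '' sqr (q * s) ⊆ sqr (r * s))
    (hM' : sqr (q * s) ⊆ a '' sqr (r * s)) (A N : Finset (ℤ × ℤ)) (hA : A ⊆ cells q r)
    (hN : N ⊆ cells q r)
    (hAN : ∀ c ∈ A, ∀ c' ∈ cells q r, gj7_R a s q r c c' → c' ∈ N) : A.card ≤ N.card := by
  have hMfin : volume (sqr ((q : ℝ) * s)) ≠ ⊤ := by
    rw [volume_sqr _ (by positivity)]
    exact ENNReal.ofReal_ne_top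
  -- images of points of `A`-cells
  have key1 : ∀ x, gj7_idx s x ∈ A → a x ∈ sqr (r * s) → a x ∉ sqr (q * s) →
      gj7_idx s (a x) ∈ N := by
    intro x hx h1 h2
    exact hAN _ hx _ ((gj7_cells_iff hs q r (a x)).mpr ⟨h1, h2⟩)
      (Or.inl ⟨x, gj7_idx_mem hs x, gj7_idx_mem hs (a x)⟩)
  have hsub : (cells q r \ N).card ≤ (cells q r \ A).card → A.card ≤ N.card := by
    intro h
    rw [Finset.card_sdiff_of_subset hA, Finset.card_sdiff_of_subset hN] at h
    have h1 := Finset.card_le_card hA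
    have h2 := Finset.card_le_card hN
    omega
  by_cases hPM : ∃ c ∈ A, ∃ x ∈ cell s c, a x ∈ sqr (q * s)
  · obtain ⟨c0, hc0, x0, hx0, hx0'⟩ := hPM
    have key2 : ∀ x ∈ sqr (q * s), a x ∈ sqr (q * s) ∨ gj7_idx s (a x) ∈ N := by
      intro x hx
      by_cases h : a x ∈ sqr (q * s)
      · exact Or.inl h
      · right
        exact hAN c0 hc0 _ ((gj7_cells_iff hs q r (a x)).mpr ⟨hM ⟨x, hx, rfl⟩, h⟩)
          (Or.inr (Or.inl ⟨⟨x0, hx0, hx0'⟩, ⟨x, hx, gj7_idx_mem hs (a x)⟩⟩))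
    by_cases hPO : ∃ c ∈ A, ∃ x ∈ cell s c, a x ∉ sqr (r * s)
    · -- case 4
      obtain ⟨c1, hc1, x1, hx1, hx1'⟩ := hPO
      apply hsub
      have h1 : gj7_U s (cells q r \ N) ⊆ a '' gj7_U s (cells q r \ A) := by
        intro y hy
        have hy' : gj7_idx s y ∈ cells q r ∧ gj7_idx s y ∉ N := Finset.mem_sdiff.mp hy
        obtain ⟨x, rfl⟩ := a.surjective y
        refine ⟨x, ?_, rfl⟩
        have hyc := (gj7_cells_iff hs q r (a x)).mp hy'.1
        have hxO : x ∈ sqr (r * s) := by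
          by_contra hcon
          exact hy'.2 (hAN c1 hc1 _ hy'.1
            (Or.inr (Or.inr ⟨⟨x1, hx1, hx1'⟩, ⟨x, hcon, gj7_idx_mem hs (a x)⟩⟩)))
        have hxM : x ∉ sqr (q * s) := by
          intro hcon
          rcases key2 x hcon with h | h
          · exact hyc.2 h
          · exact hy'.2 h
        show gj7_idx s x ∈ cells q r \ A
        rw [Finset.mem_sdiff]
        exact ⟨(gj7_cells_iff hs q r x).mpr ⟨hxO, hxM⟩,
          fun hcon => hy'.2 (key1 x hcon hyc.1 hyc.2)⟩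
      have h2 := measure_mono (μ := volume) h1
      rw [gj7_image ha _ (gj7_U_meas hs _), gj7_U_vol hs, gj7_U_vol hs] at h2
      refine gj7_card_le hs _ _ 0 ENNReal.zero_ne_top ?_
      simpa using h2
    · -- case 2
      push Not at hPO
      have h1 : a '' (sqr (q * s) ∪ gj7_U s A) ⊆ sqr (q * s) ∪ gj7_U s N := by
        rintro _ ⟨x, hx | hx, rfl⟩
        · exact key2 x hx
        · by_cases h : a x ∈ sqr (q * s)
          · exact Or.inl h
          · right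
            exact key1 x hx (hPO _ hx x (gj7_idx_mem hs x)) h
      have h2 := measure_mono (μ := volume) h1
      rw [gj7_image ha _ ((gj7_meas_sqr _).union (gj7_U_meas hs _)), gj7_UM_vol hs q r A hA,
        gj7_UM_vol hs q r N hN] at h2
      exact gj7_card_le hs _ _ _ hMfin h2
  · push Not at hPM
    by_cases hPO : ∃ c ∈ A, ∃ x ∈ cell s c, a x ∉ sqr (r * s)
    · -- case 3
      obtain ⟨c1, hc1, x1, hx1, hx1'⟩ := hPO
      apply hsub
      have h1 : sqr (q * s) ∪ gj7_U s (cells q r \ N) ⊆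
          a '' (sqr (q * s) ∪ gj7_U s (cells q r \ A)) := by
        rintro y (hy | hy)
        · obtain ⟨x, hx, rfl⟩ := hM' hy
          refine ⟨x, ?_, rfl⟩
          by_cases hxM : x ∈ sqr (q * s)
          · exact Or.inl hxM
          · right
            show gj7_idx s x ∈ cells q r \ A
            rw [Finset.mem_sdiff]
            exact ⟨(gj7_cells_iff hs q r x).mpr ⟨hx, hxM⟩,
              fun hcon => hPM _ hcon x (gj7_idx_mem hs x) hy⟩
        · have hy' : gj7_idx s y ∈ cells q r ∧ gj7_idx s y ∉ N := Finset.mem_sdiff.mp hy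
          obtain ⟨x, rfl⟩ := a.surjective y
          refine ⟨x, ?_, rfl⟩
          have hyc := (gj7_cells_iff hs q r (a x)).mp hy'.1
          have hxO : x ∈ sqr (r * s) := by
            by_contra hcon
            exact hy'.2 (hAN c1 hc1 _ hy'.1
              (Or.inr (Or.inr ⟨⟨x1, hx1, hx1'⟩, ⟨x, hcon, gj7_idx_mem hs (a x)⟩⟩)))
          by_cases hxM : x ∈ sqr (q * s)
          · exact Or.inl hxM
          · right
            show gj7_idx s x ∈ cells q r \ A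
            rw [Finset.mem_sdiff]
            exact ⟨(gj7_cells_iff hs q r x).mpr ⟨hxO, hxM⟩,
              fun hcon => hy'.2 (key1 x hcon hyc.1 hyc.2)⟩
      have h2 := measure_mono (μ := volume) h1
      rw [gj7_image ha _ ((gj7_meas_sqr _).union (gj7_U_meas hs _)),
        gj7_UM_vol hs q r _ Finset.sdiff_subset, gj7_UM_vol hs q r _ Finset.sdiff_subset] at h2
      exact gj7_card_le hs _ _ _ hMfin h2
    · -- case 1
      push Not at hPO
      have h1 : a '' gj7_U s A ⊆ gj7_U s N := by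
        rintro _ ⟨x, hx, rfl⟩
        exact key1 x hx (hPO _ hx x (gj7_idx_mem hs x)) (hPM _ hx x (gj7_idx_mem hs x))
      have h2 := measure_mono (μ := volume) h1
      rw [gj7_image ha _ (gj7_U_meas hs _), gj7_U_vol hs, gj7_U_vol hs] at h2
      refine gj7_card_le hs _ _ 0 ENNReal.zero_ne_top ?_
      simpa using h2

/-- MATCHING of cells along an area preserving homeomorphism -/
theorem hall_match (a : ℂ ≃ₜ ℂ) (ha : MeasurePreserving a volume volume) (s : ℝ) (hs : 0 < s)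
    (q r : ℕ) (hq : 0 < q) (hqr : q < r) (hM : a '' sqr (q * s) ⊆ sqr (r * s))
    (hM' : sqr (q * s) ⊆ a '' sqr (r * s)) :
    ∃ π : ℤ × ℤ → ℤ × ℤ, Set.BijOn π (cells q r) (cells q r) ∧ ∀ c ∈ cells q r,
      (∃ x ∈ cell s c, a x ∈ cell s (π c)) ∨
      ((∃ x ∈ cell s c, a x ∈ sqr (q * s)) ∧ (∃ x ∈ sqr (q * s), a x ∈ cell s (π c))) ∨
      ((∃ x ∈ cell s c, a x ∉ sqr (r * s)) ∧ (∃ x, x ∉ sqr (r * s) ∧ a x ∈ cell s (π c))) := by
  set C := cells q r with hC
  have hall : ∀ S : Finset C, S.card ≤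
      (S.biUnion fun c : C => C.filter fun c' => gj7_R a s q r (c : ℤ × ℤ) c').card := by
    intro S
    have h1 : S.card = (S.map (Function.Embedding.subtype _)).card := (Finset.card_map _).symm
    rw [h1]
    apply gj7_hall a ha s hs q r hq hM hM'
    · intro c hc
      rw [Finset.mem_map] at hc
      obtain ⟨d, _, rfl⟩ := hc
      exact d.2
    · intro c hc
      rw [Finset.mem_biUnion] at hc
      obtain ⟨d, _, hc⟩ := hc
      exact (Finset.mem_filter.mp hc).1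
    · intro c hc c' hc' hR
      rw [Finset.mem_map] at hc
      obtain ⟨d, hd, rfl⟩ := hc
      rw [Finset.mem_biUnion]
      exact ⟨d, hd, Finset.mem_filter.mpr ⟨hc', hR⟩⟩
  obtain ⟨f, hf, hf'⟩ := (Finset.all_card_le_biUnion_card_iff_exists_injective _).mp hall
  refine ⟨fun c => if h : c ∈ C then f ⟨c, h⟩ else c, ?_, ?_⟩
  · have hmaps : Set.MapsTo (fun c => if h : c ∈ C then f ⟨c, h⟩ else c) (C : Set (ℤ × ℤ))
        (C : Set (ℤ × ℤ)) := by
      intro c hc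
      have hc' : c ∈ C := hc
      simp only [hc', dif_pos]
      exact (Finset.mem_filter.mp (hf' ⟨c, hc'⟩)).1
    have hinj : Set.InjOn (fun c => if h : c ∈ C then f ⟨c, h⟩ else c) (C : Set (ℤ × ℤ)) := by
      intro c hc d hd hcd
      have hc' : c ∈ C := hc
      have hd' : d ∈ C := hd
      simp only [hc', hd', dif_pos] at hcd
      exact congrArg Subtype.val (hf hcd)
    refine ⟨hmaps, hinj, ?_⟩
    exact Finset.surjOn_of_injOn_of_card_le _ hmaps hinj _root_.le_rfl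
  · intro c hc
    have h1 := (Finset.mem_filter.mp (hf' ⟨c, hc⟩)).2
    simp only [hc, dif_pos]
    exact h1

theorem gj6_im_null : volume {z : ℂ | z.im = 0} = 0 := by
  have h1 : {z : ℂ | z.im = 0} = (LinearMap.ker Complex.imLm : Set ℂ) := by
    ext z
    simp
  rw [h1]
  apply Measure.addHaar_submodule
  intro h
  have h2 : I ∈ LinearMap.ker Complex.imLm := by
    rw [h]
    exact Submodule.mem_top
  rw [LinearMap.mem_ker, Complex.imLm_coe, Complex.I_im] at h2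
  exact one_ne_zero h2

theorem gj6_pick (V : Set ℂ) (hV : IsOpen V) (hne : V.Nonempty) (bad : Finset ℝ) :
    ∃ z ∈ V, z.im ≠ 0 ∧ ‖z‖ ∉ bad := by
  by_contra hcon
  push Not at hcon
  have h1 : V ⊆ {z : ℂ | z.im = 0} ∪ ⋃ b ∈ bad, Metric.sphere (0 : ℂ) b := by
    intro z hz
    by_cases h : z.im = 0
    · exact Or.inl h
    · refine Or.inr ?_
      have h2 := hcon z hz h
      rw [Set.mem_iUnion₂]
      exact ⟨‖z‖, h2, by rw [mem_sphere_zero_iff_norm]⟩
  have h2 : volume (⋃ b ∈ bad, Metric.sphere (0 : ℂ) b) = 0 := by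
    refine (measure_biUnion_null_iff (I := (bad : Set ℝ)) bad.countable_toSet).2 ?_
    intro b _
    exact Measure.addHaar_sphere volume 0 b
  have h3 : volume V = 0 :=
    measure_mono_null h1 (measure_union_null gj6_im_null h2)
  exact (hV.measure_pos volume hne).ne' h3

theorem gj6_cell_ne (s : ℝ) (hs : 0 < s) (c : ℤ × ℤ) : (interior (cell s c)).Nonempty := by
  have h1 : IsOpen {z : ℂ | c.1 * s < z.re ∧ z.re < (c.1 + 1) * s ∧ c.2 * s < z.im ∧
      z.im < (c.2 + 1) * s} := by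
    apply IsOpen.inter (isOpen_lt continuous_const continuous_re)
    apply IsOpen.inter (isOpen_lt continuous_re continuous_const)
    exact IsOpen.inter (isOpen_lt continuous_const continuous_im)
      (isOpen_lt continuous_im continuous_const)
  refine ⟨⟨(c.1 + 1 / 2) * s, (c.2 + 1 / 2) * s⟩, interior_maximal ?_ h1 ?_⟩
  · rintro z ⟨a1, a2, a3, a4⟩
    exact ⟨a1.le, a2, a3.le, a4⟩
  · refine ⟨?_, ?_, ?_, ?_⟩ <;> show (_ : ℝ) < _ <;> nlinarith

/-- generic points in the cells -/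
theorem generic_points (s : ℝ) (hs : 0 < s) (I : Finset (ℤ × ℤ)) (bad : Finset ℝ) :
    ∃ x : ℤ × ℤ → ℂ, (∀ c ∈ I, x c ∈ interior (cell s c)) ∧ (∀ c ∈ I, (x c).im ≠ 0) ∧
      (∀ c ∈ I, ∀ c' ∈ I, ‖x c‖ = ‖x c'‖ → c = c') ∧ (∀ c ∈ I, ‖x c‖ ∉ bad) := by
  induction I using Finset.induction_on with
  | empty => exact ⟨fun _ => 0, by simp, by simp, by simp, by simp⟩
  | insert a I ha ih =>
    obtain ⟨x, h1, h2, h3, h4⟩ := ih
    obtain ⟨z, z1, z2, z3⟩ := gj6_pick (interior (cell s a)) isOpen_interior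
      (gj6_cell_ne s hs a) (bad ∪ I.image fun c => ‖x c‖)
    rw [Finset.mem_union, not_or] at z3
    obtain ⟨z4, z5⟩ := z3
    have z6 : ∀ c ∈ I, ‖x c‖ ≠ ‖z‖ := by
      intro c hc h
      exact z5 (Finset.mem_image.2 ⟨c, hc, h⟩)
    have hxa : Function.update x a z a = z := Function.update_self a z x
    have hxc : ∀ c ∈ I, Function.update x a z c = x c := by
      intro c hc
      apply Function.update_of_ne
      rintro rfl
      exact ha hc
    refine ⟨Function.update x a z, ?_, ?_, ?_, ?_⟩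
    · intro c hc
      rcases Finset.mem_insert.1 hc with rfl | hc
      · rw [hxa]; exact z1
      · rw [hxc c hc]; exact h1 c hc
    · intro c hc
      rcases Finset.mem_insert.1 hc with rfl | hc
      · rw [hxa]; exact z2
      · rw [hxc c hc]; exact h2 c hc
    · intro c hc c' hc' h
      rcases Finset.mem_insert.1 hc with e | hc1
      · rcases Finset.mem_insert.1 hc' with e' | hc1'
        · rw [e, e']
        · rw [e, hxa, hxc c' hc1'] at h
          exact absurd h.symm (z6 c' hc1')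
      · rcases Finset.mem_insert.1 hc' with e' | hc1'
        · rw [e', hxa, hxc c hc1] at h
          exact absurd h (z6 c hc1)
        · rw [hxc c hc1, hxc c' hc1'] at h
          exact h3 c hc1 c' hc1' h
    · intro c hc
      rcases Finset.mem_insert.1 hc with rfl | hc
      · rw [hxa]; exact z4
      · rw [hxc c hc]; exact h4 c hc

/-- the hat field -/
def gj8_f {I : Type} (p v : I → ℂ) (r : ℝ) (z : ℂ) : ℂ :=
  if h : ∃ x : I × ℤ, ‖z - p x.1 - x.2‖ < r then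
    ((1 - ‖z - p h.choose.1 - h.choose.2‖ / r : ℝ) : ℂ) * v h.choose.1
  else 0

theorem gj8_unique {I : Type} {p : I → ℂ} {r : ℝ}
    (hp : ∀ i j : I, ∀ k : ℤ, (i ≠ j ∨ k ≠ 0) → 2 * r ≤ ‖p i - p j - k‖) {z : ℂ} {i j : I}
    {k l : ℤ} (h1 : ‖z - p i - k‖ < r) (h2 : ‖z - p j - l‖ < r) : i = j ∧ k = l := by
  by_contra hne
  have h3 : i ≠ j ∨ k - l ≠ 0 := by
    by_cases hij : i = j
    · right
      intro h4
      exact hne ⟨hij, by omega⟩
    · exact Or.inl hij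
  have h4 := hp i j (k - l) h3
  have h5 : p i - p j - ((k - l : ℤ) : ℂ) = (z - p j - l) - (z - p i - k) -
      2 * ((k : ℂ) - l) := by
    push_cast
    ring
  have h3' : i ≠ j ∨ l - k ≠ 0 := by
    rcases h3 with h | h
    · exact Or.inl h
    · right
      omega
  have h4' := hp i j (l - k) h3'
  have h5' : p i - p j - ((l - k : ℤ) : ℂ) = (z - p j - l) - (z - p i - k) := by
    push_cast
    ring
  rw [h5'] at h4'
  have h6 := norm_sub_le (z - p j - l) (z - p i - k)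
  linarith

theorem gj8_in {I : Type} {p v : I → ℂ} {r : ℝ}
    (hp : ∀ i j : I, ∀ k : ℤ, (i ≠ j ∨ k ≠ 0) → 2 * r ≤ ‖p i - p j - k‖) {z : ℂ} {i : I}
    {k : ℤ} (h1 : ‖z - p i - k‖ < r) :
    gj8_f p v r z = ((1 - ‖z - p i - k‖ / r : ℝ) : ℂ) * v i := by
  have h : ∃ x : I × ℤ, ‖z - p x.1 - x.2‖ < r := ⟨(i, k), h1⟩
  unfold gj8_f
  rw [dif_pos h]
  obtain ⟨h3, h4⟩ := gj8_unique hp h.choose_spec h1
  rw [h3, h4]

theorem gj8_out {I : Type} {p v : I → ℂ} {r : ℝ} {z : ℂ}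
    (h : ¬ ∃ x : I × ℤ, ‖z - p x.1 - x.2‖ < r) : gj8_f p v r z = 0 := by
  unfold gj8_f
  rw [dif_neg h]

theorem gj8_norm_in {r m t : ℝ} {v : ℂ} (hr : 0 < r) (hv : ‖v‖ ≤ m) (ht : t < r) :
    ‖((1 - t / r : ℝ) : ℂ) * v‖ ≤ (r - t) * (m / r) := by
  have h1 : 0 ≤ 1 - t / r := by
    have : t / r ≤ 1 := (div_le_one hr).2 ht.le
    linarith
  rw [norm_mul, Complex.norm_real, Real.norm_of_nonneg h1]
  calc (1 - t / r) * ‖v‖ ≤ (1 - t / r) * m := mul_le_mul_of_nonneg_left hv h1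
    _ = (r - t) * (m / r) := by field_simp

theorem gj8_lip {I : Type} {p v : I → ℂ} {r m : ℝ} (hr : 0 < r)
    (hp : ∀ i j : I, ∀ k : ℤ, (i ≠ j ∨ k ≠ 0) → 2 * r ≤ ‖p i - p j - k‖)
    (hm : ∀ i, ‖v i‖ ≤ m) (hm0 : 0 ≤ m) (z w : ℂ) :
    ‖gj8_f p v r z - gj8_f p v r w‖ ≤ m / r * ‖z - w‖ := by
  have hmr : 0 ≤ m / r := by positivity
  have key : ∀ z w : ℂ, (∃ x : I × ℤ, ‖z - p x.1 - x.2‖ < r) →
      ¬ (∃ x : I × ℤ, ‖w - p x.1 - x.2‖ < r) →
      ‖gj8_f p v r z - gj8_f p v r w‖ ≤ m / r * ‖z - w‖ := by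
    intro z w hz hw
    obtain ⟨⟨i, k⟩, h1⟩ := hz
    have h1' : ‖z - p i - k‖ < r := h1
    rw [gj8_in hp h1', gj8_out hw, sub_zero]
    refine (gj8_norm_in hr (hm i) h1').trans ?_
    have h2 : r ≤ ‖w - p i - k‖ := by
      by_contra h3
      exact hw ⟨(i, k), not_le.1 h3⟩
    have h3 : w - p i - k = (z - p i - k) - (z - w) := by ring
    have h4 := norm_sub_le (z - p i - k) (z - w)
    rw [← h3] at h4
    have h5 : r - ‖z - p i - k‖ ≤ ‖z - w‖ := by linarith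
    calc (r - ‖z - p i - k‖) * (m / r) ≤ ‖z - w‖ * (m / r) := mul_le_mul_of_nonneg_right h5 hmr
      _ = m / r * ‖z - w‖ := by ring
  by_cases hz : ∃ x : I × ℤ, ‖z - p x.1 - x.2‖ < r
  · by_cases hw : ∃ x : I × ℤ, ‖w - p x.1 - x.2‖ < r
    · obtain ⟨⟨i, k⟩, h1⟩ := hz
      obtain ⟨⟨j, l⟩, h2⟩ := hw
      have h1' : ‖z - p i - k‖ < r := h1
      have h2' : ‖w - p j - l‖ < r := h2
      rw [gj8_in hp h1', gj8_in hp h2']
      by_cases hs : i = j ∧ k = l
      · obtain ⟨hij, hkl⟩ := hs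
        subst hij
        subst hkl
        have h3 : ((1 - ‖z - p i - k‖ / r : ℝ) : ℂ) * v i - ((1 - ‖w - p i - k‖ / r : ℝ) : ℂ) * v i
            = (((‖w - p i - k‖ - ‖z - p i - k‖) / r : ℝ) : ℂ) * v i := by
          push_cast
          ring
        rw [h3, norm_mul, Complex.norm_real, Real.norm_eq_abs, abs_div, abs_of_pos hr]
        have h4 := abs_norm_sub_norm_le (w - p i - k) (z - p i - k)
        have h5 : (w - p i - k) - (z - p i - k) = -(z - w) := by ring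
        rw [h5, norm_neg] at h4
        calc |‖w - p i - k‖ - ‖z - p i - k‖| / r * ‖v i‖ ≤ ‖z - w‖ / r * m := by
              refine mul_le_mul ?_ (hm i) (norm_nonneg _) (by positivity)
              exact div_le_div_of_nonneg_right h4 hr.le
          _ = m / r * ‖z - w‖ := by ring
      · have h3' : i ≠ j ∨ l - k ≠ 0 := by
          by_cases hij : i = j
          · right
            intro h4
            exact hs ⟨hij, by omega⟩
          · exact Or.inl hij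
        have h4 := hp i j (l - k) h3'
        have h5 : p i - p j - ((l - k : ℤ) : ℂ) = (w - p j - l) - (z - p i - k) + (z - w) := by
          push_cast
          ring
        rw [h5] at h4
        have h6 := norm_add_le ((w - p j - l) - (z - p i - k)) (z - w)
        have h7 := norm_sub_le (w - p j - l) (z - p i - k)
        refine (norm_sub_le _ _).trans ?_
        have h8 := gj8_norm_in hr (hm i) h1'
        have h9 := gj8_norm_in hr (hm j) h2'
        have h10 : (r - ‖z - p i - k‖) + (r - ‖w - p j - l‖) ≤ ‖z - w‖ := by linarith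
        calc _ ≤ (r - ‖z - p i - k‖) * (m / r) + (r - ‖w - p j - l‖) * (m / r) := add_le_add h8 h9
          _ = ((r - ‖z - p i - k‖) + (r - ‖w - p j - l‖)) * (m / r) := by ring
          _ ≤ ‖z - w‖ * (m / r) := mul_le_mul_of_nonneg_right h10 hmr
          _ = m / r * ‖z - w‖ := by ring
    · exact key z w hz hw
  · by_cases hw : ∃ x : I × ℤ, ‖w - p x.1 - x.2‖ < r
    · have h1 := key w z hw hz
      rw [norm_sub_rev, norm_sub_rev z w]
      exact h1
    · rw [gj8_out hz, gj8_out hw, sub_zero, norm_zero]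
      positivity

theorem gj8_bd {I : Type} {p v : I → ℂ} {r m : ℝ} (hr : 0 < r)
    (hp : ∀ i j : I, ∀ k : ℤ, (i ≠ j ∨ k ≠ 0) → 2 * r ≤ ‖p i - p j - k‖)
    (hm : ∀ i, ‖v i‖ ≤ m) (hm0 : 0 ≤ m) (z : ℂ) : ‖gj8_f p v r z‖ ≤ m := by
  by_cases hz : ∃ x : I × ℤ, ‖z - p x.1 - x.2‖ < r
  · obtain ⟨⟨i, k⟩, h1⟩ := hz
    have h1' : ‖z - p i - k‖ < r := h1
    rw [gj8_in hp h1']
    refine (gj8_norm_in hr (hm i) h1').trans ?_
    have h2 : r - ‖z - p i - k‖ ≤ r := by linarith [norm_nonneg (z - p i - k)]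
    calc (r - ‖z - p i - k‖) * (m / r) ≤ r * (m / r) :=
          mul_le_mul_of_nonneg_right h2 (by positivity)
      _ = m := by field_simp
  · rw [gj8_out hz, norm_zero]
    exact hm0

theorem gj8_per {I : Type} {p v : I → ℂ} {r : ℝ}
    (hp : ∀ i j : I, ∀ k : ℤ, (i ≠ j ∨ k ≠ 0) → 2 * r ≤ ‖p i - p j - k‖) (z : ℂ) :
    gj8_f p v r (z + (1 : ℝ)) = gj8_f p v r z := by
  by_cases hz : ∃ x : I × ℤ, ‖z - p x.1 - x.2‖ < r
  · obtain ⟨⟨i, k⟩, h1⟩ := hz
    have h1' : ‖z - p i - k‖ < r := h1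
    have h2 : z + (1 : ℝ) - p i - ((k + 1 : ℤ) : ℂ) = z - p i - k := by
      push_cast
      ring
    have h3 : ‖z + (1 : ℝ) - p i - ((k + 1 : ℤ) : ℂ)‖ < r := by
      rw [h2]
      exact h1'
    rw [gj8_in hp h1', gj8_in hp h3, h2]
  · have hw : ¬ ∃ x : I × ℤ, ‖z + (1 : ℝ) - p x.1 - x.2‖ < r := by
      rintro ⟨⟨i, k⟩, h1⟩
      apply hz
      refine ⟨(i, k - 1), ?_⟩
      have h2 : z - p i - ((k - 1 : ℤ) : ℂ) = z + (1 : ℝ) - p i - k := by
        push_cast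
        ring
      show ‖z - p i - ((k - 1 : ℤ) : ℂ)‖ < r
      rw [h2]
      exact h1
    rw [gj8_out hz, gj8_out hw]

theorem gj8_finmax {I : Type} [Fintype I] (v : I → ℂ) (r : ℝ) (hr : 0 < r)
    (hv : ∀ i, ‖v i‖ < r) : ∃ m, 0 ≤ m ∧ m < r ∧ ∀ i, ‖v i‖ ≤ m := by
  by_cases hne : Nonempty I
  · obtain ⟨i, hi⟩ := Finite.exists_max (fun i => ‖v i‖)
    exact ⟨‖v i‖, norm_nonneg _, hv i, hi⟩
  · exact ⟨0, _root_.le_refl _, hr, fun i => absurd ⟨i⟩ hne⟩

/-- one small simultaneous push -/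
theorem push_small {I : Type} [Fintype I] (p v : I → ℂ) (r : ℝ) (hr : 0 < r) (hr2 : r < 1 / 4)
    (hp : ∀ i j : I, ∀ k : ℤ, (i ≠ j ∨ k ≠ 0) → 2 * r ≤ ‖p i - p j - k‖)
    (hv : ∀ i, ‖v i‖ < r) :
    ∃ κ : ℂ ≃ₜ ℂ, κ ∈ SH 1 ∧ (∀ i, κ (p i) = p i + v i) ∧
      ∀ z, ∃ t : ℝ, 0 ≤ t ∧ t ≤ 1 ∧ (κ z = z ∨ ∃ i, ∃ k : ℤ, ‖z - p i - k‖ < r ∧
        κ z = z + t * v i) := by
  obtain ⟨m, hm0, hmr, hm⟩ := gj8_finmax v r hr hv
  have hlam : m / r < 1 := (div_lt_one hr).2 hmr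
  have hlam0 : 0 ≤ m / r := by positivity
  have hlip := gj8_lip hr hp hm hm0
  have happ : ApproximatesLinearOn (fun z : ℂ => z + gj8_f p v r z)
      ((ContinuousLinearEquiv.refl ℝ ℂ : ℂ ≃L[ℝ] ℂ) : ℂ →L[ℝ] ℂ) Set.univ
      (⟨m / r, hlam0⟩ : NNReal) := by
    intro x _ y _
    have h1 : x + gj8_f p v r x - (y + gj8_f p v r y) -
        ((ContinuousLinearEquiv.refl ℝ ℂ : ℂ ≃L[ℝ] ℂ) : ℂ →L[ℝ] ℂ) (x - y) =
        gj8_f p v r x - gj8_f p v r y := by
      simp only [ContinuousLinearEquiv.coe_coe, ContinuousLinearEquiv.refl_apply]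
      ring
    show ‖x + gj8_f p v r x - (y + gj8_f p v r y) -
        ((ContinuousLinearEquiv.refl ℝ ℂ : ℂ ≃L[ℝ] ℂ) : ℂ →L[ℝ] ℂ) (x - y)‖ ≤ m / r * ‖x - y‖
    rw [h1]
    exact hlip x y
  have hN : Subsingleton ℂ ∨ (⟨m / r, hlam0⟩ : NNReal) <
      ‖(((ContinuousLinearEquiv.refl ℝ ℂ : ℂ ≃L[ℝ] ℂ).symm : ℂ ≃L[ℝ] ℂ) : ℂ →L[ℝ] ℂ)‖₊⁻¹ := by
    right
    have h2 : ‖(((ContinuousLinearEquiv.refl ℝ ℂ : ℂ ≃L[ℝ] ℂ).symm : ℂ ≃L[ℝ] ℂ) : ℂ →L[ℝ] ℂ)‖₊
        = 1 := by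
      have : (((ContinuousLinearEquiv.refl ℝ ℂ : ℂ ≃L[ℝ] ℂ).symm : ℂ ≃L[ℝ] ℂ) : ℂ →L[ℝ] ℂ) =
          ContinuousLinearMap.id ℝ ℂ := rfl
      rw [this]
      exact ContinuousLinearMap.nnnorm_id
    rw [h2, inv_one]
    exact hlam
  obtain ⟨κ, hκ⟩ : ∃ κ : ℂ ≃ₜ ℂ, ∀ z, κ z = z + gj8_f p v r z :=
    ⟨happ.toHomeomorph _ hN, fun z => rfl⟩
  have hbd := gj8_bd hr hp hm hm0
  have hslit : ∀ z w : ℂ, z ≠ w → (κ w - κ z) / (w - z) ∈ slitPlane := by
    intro z w hzw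
    have h1 : w - z ≠ 0 := sub_ne_zero.2 (Ne.symm hzw)
    have h2 : (κ w - κ z) / (w - z) = 1 + (gj8_f p v r w - gj8_f p v r z) / (w - z) := by
      rw [hκ, hκ]
      field_simp
      ring
    have h3 : ‖(gj8_f p v r w - gj8_f p v r z) / (w - z)‖ < 1 := by
      rw [norm_div, div_lt_one (norm_pos_iff.2 h1)]
      refine (hlip w z).trans_lt ?_
      have h4 : 0 < ‖w - z‖ := norm_pos_iff.2 h1
      nlinarith
    rw [h2]
    left
    rw [Complex.add_re, Complex.one_re]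
    have h4 := (abs_le.1 (Complex.abs_re_le_norm ((gj8_f p v r w - gj8_f p v r z) / (w - z)))).1
    linarith
  obtain ⟨hl1, hl2⟩ := locOP_of_slit κ hslit
  have him : ∀ z, |(κ z).im - z.im| ≤ m := by
    intro z
    have h1 : (κ z).im - z.im = (gj8_f p v r z).im := by
      rw [hκ, Complex.add_im]
      ring
    rw [h1]
    exact (Complex.abs_im_le_norm _).trans (hbd z)
  have him' : ∀ z, |(κ.symm z).im - z.im| ≤ m := by
    intro z
    have h1 := him (κ.symm z)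
    rw [κ.apply_symm_apply] at h1
    rw [abs_sub_comm]
    exact h1
  have hends : ∀ g : ℂ → ℂ, (∀ z, |(g z).im - z.im| ≤ m) → Ends g := by
    intro g hg
    refine ⟨fun M => ⟨M + m, fun z hz => ?_⟩, fun M => ⟨M - m, fun z hz => ?_⟩⟩
    · have := (abs_le.1 (hg z)).1
      linarith
    · have := (abs_le.1 (hg z)).2
      linarith
  refine ⟨κ, ⟨?_, hends κ him, hends κ.symm him', hl1, hl2⟩, ?_, ?_⟩
  · intro z
    rw [hκ, hκ, gj8_per hp]
    ring
  · intro i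
    have h1 : ‖p i - p i - ((0 : ℤ) : ℂ)‖ < r := by
      simpa using hr
    rw [hκ, gj8_in hp h1]
    simp
  · intro z
    by_cases hz : ∃ x : I × ℤ, ‖z - p x.1 - x.2‖ < r
    · obtain ⟨⟨i, k⟩, h1⟩ := hz
      have h1' : ‖z - p i - k‖ < r := h1
      refine ⟨1 - ‖z - p i - k‖ / r, ?_, ?_, Or.inr ⟨i, k, h1', ?_⟩⟩
      · have : ‖z - p i - k‖ / r ≤ 1 := (div_le_one hr).2 h1'.le
        linarith
      · have : 0 ≤ ‖z - p i - k‖ / r := by positivity
        linarith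
      · rw [hκ, gj8_in hp h1']
    · refine ⟨0, _root_.le_refl _, zero_le_one, Or.inl ?_⟩
      rw [hκ, gj8_out hz, add_zero]

section

open Filter Topology

/-- uniform separation of two moving points modulo `ℤ` -/
theorem gj9_sep {I : Type} (P Q : I → ℂ)
    (hd : ∀ i j : I, ∀ k : ℤ, (i ≠ j ∨ k ≠ 0) → ∀ t : ℝ, 0 ≤ t → t ≤ 1 →
      (P i + t * (Q i - P i)) - (P j + t * (Q j - P j)) - k ≠ 0) (i j : I) :
    ∃ δ > 0, ∀ r : ℝ, r ≤ δ → ∀ k : ℤ, (i ≠ j ∨ k ≠ 0) → ∀ t : ℝ, 0 ≤ t → t ≤ 1 →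
      2 * r ≤ ‖(P i + t * (Q i - P i)) - (P j + t * (Q j - P j)) - k‖ := by
  set φ : ℝ → ℂ := fun t => (P i + t * (Q i - P i)) - (P j + t * (Q j - P j)) with hφ
  have hφc : Continuous φ := by
    rw [hφ]
    fun_prop
  have hK : IsCompact (φ '' Set.Icc 0 1) := isCompact_Icc.image hφc
  have hT : IsClosed ((fun k : ℤ => (k : ℂ)) '' {k : ℤ | i ≠ j ∨ k ≠ 0}) :=
    Complex.isClosedEmbedding_intCast.isClosedMap _ (isClosed_discrete _)
  have hdis : Disjoint (φ '' Set.Icc 0 1) ((fun k : ℤ => (k : ℂ)) '' {k : ℤ | i ≠ j ∨ k ≠ 0}) := by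
    rw [Set.disjoint_left]
    rintro x ⟨t, ht, rfl⟩ ⟨k, hk, hk2⟩
    have h1 := hd i j k hk t ht.1 ht.2
    apply h1
    have h2 : (k : ℂ) = φ t := hk2
    rw [h2, hφ]
    ring
  obtain ⟨δ, hδ, hδ2⟩ := hdis.exists_thickenings hK hT
  refine ⟨δ / 2, by positivity, fun r hr k hk t ht0 ht1 => ?_⟩
  by_contra hlt
  rw [not_le] at hlt
  have h1 : ‖φ t - k‖ < 2 * r := hlt
  rw [Set.disjoint_left] at hδ2
  refine hδ2 (a := φ t) ?_ ?_
  · exact Metric.self_subset_thickening hδ _ ⟨t, ⟨ht0, ht1⟩, rfl⟩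
  · rw [Metric.mem_thickening_iff]
    refine ⟨(k : ℂ), ⟨k, hk, rfl⟩, ?_⟩
    rw [dist_eq_norm]
    linarith

theorem gj9_unif {I : Type} [Fintype I] (A : I → I → ℝ → Prop)
    (h : ∀ i j, ∃ δ > 0, ∀ r : ℝ, r ≤ δ → A i j r) : ∃ δ > 0, ∀ r : ℝ, r ≤ δ → ∀ i j, A i j r := by
  choose δ hδ0 hδ using h
  by_cases hne : Nonempty (I × I)
  · obtain ⟨x, hx⟩ := Finite.exists_min (fun x : I × I => δ x.1 x.2)
    refine ⟨δ x.1 x.2, hδ0 _ _, fun r hr i j => hδ i j r (hr.trans (hx (i, j)))⟩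
  · exact ⟨1, one_pos, fun r _ i j => absurd ⟨(i, j)⟩ hne⟩

/-- one step -/
theorem gj9_step {I : Type} [Fintype I] (p v : I → ℂ) (r ε : ℝ) (hr : 0 < r) (hr2 : r < 1 / 4)
    (hrε : r ≤ ε)
    (hp : ∀ i j : I, ∀ k : ℤ, (i ≠ j ∨ k ≠ 0) → 2 * r ≤ ‖p i - p j - k‖)
    (hv : ∀ i, ‖v i‖ < r) (a b : ℝ) (ha0 : 0 ≤ a) (hb0 : 0 ≤ b) (ha : ∀ i, |(v i).re| ≤ a)
    (hb : ∀ i, |(v i).im| ≤ b) (c c' : ℝ) (hc : ∀ i, v i ≠ 0 → c ≤ (p i).im ∧ (p i).im ≤ c') :
    ∃ κ : ℂ ≃ₜ ℂ, κ ∈ SH 1 ∧ (∀ i, κ (p i) = p i + v i) ∧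
      (∀ z, |(κ z).re - z.re| ≤ a) ∧ (∀ z, |(κ z).im - z.im| ≤ b) ∧
      (∀ z : ℂ, z.im ≤ c - ε ∨ c' + ε ≤ z.im → κ z = z) := by
  obtain ⟨κ, h1, h2, h3⟩ := push_small p v r hr hr2 hp hv
  refine ⟨κ, h1, h2, ?_, ?_, ?_⟩
  · intro z
    obtain ⟨t, ht0, ht1, h4 | ⟨i, k, -, h4⟩⟩ := h3 z
    · rw [h4, sub_self, abs_zero]
      exact ha0
    · have h5 : (κ z).re - z.re = t * (v i).re := by
        rw [h4, Complex.add_re, Complex.re_ofReal_mul]
        ring
      rw [h5, abs_mul, abs_of_nonneg ht0]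
      calc t * |(v i).re| ≤ 1 * |(v i).re| := mul_le_mul_of_nonneg_right ht1 (abs_nonneg _)
        _ ≤ a := by
          rw [one_mul]
          exact ha i
  · intro z
    obtain ⟨t, ht0, ht1, h4 | ⟨i, k, -, h4⟩⟩ := h3 z
    · rw [h4, sub_self, abs_zero]
      exact hb0
    · have h5 : (κ z).im - z.im = t * (v i).im := by
        rw [h4, Complex.add_im, Complex.im_ofReal_mul]
        ring
      rw [h5, abs_mul, abs_of_nonneg ht0]
      calc t * |(v i).im| ≤ 1 * |(v i).im| := mul_le_mul_of_nonneg_right ht1 (abs_nonneg _)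
        _ ≤ b := by
          rw [one_mul]
          exact hb i
  · intro z hz
    obtain ⟨t, ht0, ht1, h4 | ⟨i, k, h5, h4⟩⟩ := h3 z
    · exact h4
    · by_cases hvi : v i = 0
      · rw [h4, hvi, mul_zero, add_zero]
      · exfalso
        obtain ⟨h6, h7⟩ := hc i hvi
        have h8 := (Complex.abs_im_le_norm (z - p i - k)).trans_lt h5
        have h9 : (z - p i - k).im = z.im - (p i).im := by
          rw [Complex.sub_im, Complex.sub_im, Complex.intCast_im, sub_zero]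
        rw [h9, abs_lt] at h8
        rcases hz with hz | hz
        · linarith [h8.1]
        · linarith [h8.2]

/-- motion along segments without collisions -/
theorem push_path {I : Type} [Fintype I] (P Q : I → ℂ) (ε : ℝ) (hε : 0 < ε)
    (hd : ∀ i j : I, ∀ k : ℤ, (i ≠ j ∨ k ≠ 0) → ∀ t : ℝ, 0 ≤ t → t ≤ 1 →
      (P i + t * (Q i - P i)) - (P j + t * (Q j - P j)) - k ≠ 0)
    (ρ : ℝ) (hρ0 : 0 ≤ ρ) (hρ : ∀ i, |(Q i - P i).re| ≤ ρ)
    (ρ' : ℝ) (hρ0' : 0 ≤ ρ') (hρ' : ∀ i, |(Q i - P i).im| ≤ ρ')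
    (c c' : ℝ) (hc : ∀ i, P i ≠ Q i → c ≤ (P i).im ∧ c ≤ (Q i).im ∧ (P i).im ≤ c' ∧
      (Q i).im ≤ c') :
    ∃ κ : ℂ ≃ₜ ℂ, κ ∈ SH 1 ∧ (∀ i, κ (P i) = Q i) ∧
      (∀ z, |(κ z).re - z.re| ≤ ρ + ε) ∧ (∀ z, |(κ z).im - z.im| ≤ ρ' + ε) ∧
      (∀ z : ℂ, z.im ≤ c - ε ∨ c' + ε ≤ z.im → κ z = z) := by
  obtain ⟨δ, hδ, hsep⟩ := gj9_unif (fun i j r => ∀ k : ℤ, (i ≠ j ∨ k ≠ 0) → ∀ t : ℝ, 0 ≤ t →
    t ≤ 1 → 2 * r ≤ ‖(P i + t * (Q i - P i)) - (P j + t * (Q j - P j)) - k‖)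
    (fun i j => gj9_sep P Q hd i j)
  obtain ⟨r, hr0, hr4, hrε, hrδ⟩ : ∃ r : ℝ, 0 < r ∧ r < 1 / 4 ∧ r ≤ ε ∧ r ≤ δ := by
    refine ⟨min (1 / 8) (min ε δ), ?_, ?_, ?_, ?_⟩
    · exact lt_min (by norm_num) (lt_min hε hδ)
    · exact (min_le_left _ _).trans_lt (by norm_num)
    · exact (min_le_right _ _).trans (min_le_left _ _)
    · exact (min_le_right _ _).trans (min_le_right _ _)
  have hsep' := hsep r hrδ
  -- number of steps
  obtain ⟨N, hN0, hN⟩ : ∃ N : ℕ, 0 < N ∧ ∀ i, ‖Q i - P i‖ / N < r := by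
    obtain ⟨m, hm0, hm⟩ : ∃ m : ℝ, 0 ≤ m ∧ ∀ i, ‖Q i - P i‖ ≤ m := by
      by_cases hne : Nonempty I
      · obtain ⟨i, hi⟩ := Finite.exists_max (fun i => ‖Q i - P i‖)
        exact ⟨‖Q i - P i‖, norm_nonneg _, hi⟩
      · exact ⟨0, _root_.le_refl _, fun i => absurd ⟨i⟩ hne⟩
    obtain ⟨N, hN⟩ := exists_nat_gt (m / r)
    have hN0 : (0 : ℝ) < N := lt_of_le_of_lt (by positivity) hN
    refine ⟨N, by exact_mod_cast hN0, fun i => ?_⟩
    rw [div_lt_iff₀ hN0]
    rw [div_lt_iff₀ hr0] at hN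
    linarith [hm i]
  have hNR : (0 : ℝ) < N := by exact_mod_cast hN0
  have hNC : (N : ℂ) ≠ 0 := by exact_mod_cast hN0.ne'
  -- induction on the number of steps
  have main : ∀ l : ℕ, l ≤ N → ∃ κ : ℂ ≃ₜ ℂ, κ ∈ SH 1 ∧
      (∀ i, κ (P i) = P i + (((l : ℝ) / N : ℝ) : ℂ) * (Q i - P i)) ∧
      (∀ z, |(κ z).re - z.re| ≤ l / N * ρ) ∧ (∀ z, |(κ z).im - z.im| ≤ l / N * ρ') ∧
      (∀ z : ℂ, z.im ≤ c - ε ∨ c' + ε ≤ z.im → κ z = z) := by
    intro l
    induction l with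
    | zero =>
      intro _
      refine ⟨1, one_mem _, ?_, ?_, ?_, ?_⟩
      · intro i
        simp
      · intro z
        simp
      · intro z
        simp
      · intro z _
        rfl
    | succ l ih =>
      intro hl
      obtain ⟨κ, h1, h2, h3, h4, h5⟩ := ih (by omega)
      have ht0 : (0 : ℝ) ≤ (l : ℝ) / N := by positivity
      have ht1 : (l : ℝ) / N ≤ 1 := by
        rw [div_le_one hNR]
        exact_mod_cast (by omega : l ≤ N)
      obtain ⟨κ', g1, g2, g3, g4, g5⟩ := gj9_step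
        (fun i => P i + (((l : ℝ) / N : ℝ) : ℂ) * (Q i - P i)) (fun i => (Q i - P i) / N) r ε hr0
        hr4 hrε (fun i j k hk => hsep' i j k hk _ ht0 ht1)
        (fun i => by
          rw [norm_div, Complex.norm_natCast]
          exact hN i)
        (ρ / N) (ρ' / N) (by positivity) (by positivity)
        (fun i => by
          have e1 : ((Q i - P i) / N).re = (Q i - P i).re / N := by
            rw [Complex.div_natCast_re]
          rw [e1, abs_div, abs_of_pos hNR]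
          exact div_le_div_of_nonneg_right (hρ i) hNR.le)
        (fun i => by
          have e1 : ((Q i - P i) / N).im = (Q i - P i).im / N := by
            rw [Complex.div_natCast_im]
          rw [e1, abs_div, abs_of_pos hNR]
          exact div_le_div_of_nonneg_right (hρ' i) hNR.le) c c'
        (fun i hi => by
          have hne : P i ≠ Q i := by
            intro he
            apply hi
            simp [he]
          obtain ⟨k1, k2, k3, k4⟩ := hc i hne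
          have e1 : (P i + (((l : ℝ) / N : ℝ) : ℂ) * (Q i - P i)).im =
              (1 - (l : ℝ) / N) * (P i).im + (l : ℝ) / N * (Q i).im := by
            rw [Complex.add_im, Complex.im_ofReal_mul, Complex.sub_im]
            ring
          show c ≤ (P i + (((l : ℝ) / N : ℝ) : ℂ) * (Q i - P i)).im ∧
            (P i + (((l : ℝ) / N : ℝ) : ℂ) * (Q i - P i)).im ≤ c'
          rw [e1]
          have ht1' : 0 ≤ 1 - (l : ℝ) / N := by linarith
          constructor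
          · nlinarith [mul_le_mul_of_nonneg_left k1 ht1', mul_le_mul_of_nonneg_left k2 ht0]
          · nlinarith [mul_le_mul_of_nonneg_left k3 ht1', mul_le_mul_of_nonneg_left k4 ht0])
      have hcomp : ∀ z, (κ' * κ) z = κ' (κ z) := fun z => rfl
      refine ⟨κ' * κ, mul_mem g1 h1, ?_, ?_, ?_, ?_⟩
      · intro i
        rw [hcomp, h2 i]
        have e1 := g2 i
        rw [e1]
        push_cast
        field_simp
        ring
      · intro z
        rw [hcomp]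
        have e1 := g3 (κ z)
        have e2 := h3 z
        have e3 : ((l + 1 : ℕ) : ℝ) / N * ρ = ρ / N + l / N * ρ := by
          push_cast
          field_simp
          ring
        rw [e3]
        have e4 : (κ' (κ z)).re - z.re = ((κ' (κ z)).re - (κ z).re) + ((κ z).re - z.re) := by ring
        rw [e4]
        exact (abs_add_le _ _).trans (add_le_add e1 e2)
      · intro z
        rw [hcomp]
        have e1 := g4 (κ z)
        have e2 := h4 z
        have e3 : ((l + 1 : ℕ) : ℝ) / N * ρ' = ρ' / N + l / N * ρ' := by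
          push_cast
          field_simp
          ring
        rw [e3]
        have e4 : (κ' (κ z)).im - z.im = ((κ' (κ z)).im - (κ z).im) + ((κ z).im - z.im) := by ring
        rw [e4]
        exact (abs_add_le _ _).trans (add_le_add e1 e2)
      · intro z hz
        rw [hcomp, h5 z hz, g5 z hz]
  obtain ⟨κ, h1, h2, h3, h4, h5⟩ := main N (_root_.le_refl _)
  have hNN : (N : ℝ) / N = 1 := div_self hNR.ne'
  refine ⟨κ, h1, ?_, ?_, ?_, h5⟩
  · intro i
    rw [h2 i, hNN]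
    push_cast
    ring
  · intro z
    have := h3 z
    rw [hNN, one_mul] at this
    linarith
  · intro z
    have := h4 z
    rw [hNN, one_mul] at this
    linarith

end

section

open Filter Topology

/-- separation of two points modulo `ℤ` -/
theorem gj10_sep {I : Type} (P : I → ℂ)
    (hP : ∀ i j : I, ∀ k : ℤ, (i ≠ j ∨ k ≠ 0) → P i - P j - k ≠ 0) (i j : I) :
    ∃ δ > 0, ∀ k : ℤ, (i ≠ j ∨ k ≠ 0) → δ ≤ ‖P i - P j - k‖ := by
  have hT : IsClosed ((fun k : ℤ => (k : ℂ)) '' {k : ℤ | i ≠ j ∨ k ≠ 0}) :=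
    Complex.isClosedEmbedding_intCast.isClosedMap _ (isClosed_discrete _)
  have hdis : P i - P j ∉ ((fun k : ℤ => (k : ℂ)) '' {k : ℤ | i ≠ j ∨ k ≠ 0}) := by
    rintro ⟨k, hk, hk2⟩
    apply hP i j k hk
    have h2 : (k : ℂ) = P i - P j := hk2
    rw [h2, sub_self]
  obtain ⟨δ, hδ, hδ2⟩ := Metric.isOpen_iff.1 hT.isOpen_compl _ hdis
  refine ⟨δ, hδ, fun k hk => ?_⟩
  by_contra hlt
  rw [not_le] at hlt
  have h1 : (k : ℂ) ∈ Metric.ball (P i - P j) δ := by
    rw [Metric.mem_ball, dist_comm, dist_eq_norm]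
    exact hlt
  exact hδ2 h1 ⟨k, hk, rfl⟩

theorem gj10_unif {I : Type} [Fintype I] (P : I → ℂ)
    (hP : ∀ i j : I, ∀ k : ℤ, (i ≠ j ∨ k ≠ 0) → P i - P j - k ≠ 0) :
    ∃ δ > 0, ∀ i j : I, ∀ k : ℤ, (i ≠ j ∨ k ≠ 0) → δ ≤ ‖P i - P j - k‖ := by
  choose δ hδ0 hδ using gj10_sep P hP
  by_cases hne : Nonempty (I × I)
  · obtain ⟨x, hx⟩ := Finite.exists_min (fun x : I × I => δ x.1 x.2)
    exact ⟨δ x.1 x.2, hδ0 _ _, fun i j k hk => (hx (i, j)).trans (hδ i j k hk)⟩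
  · exact ⟨1, one_pos, fun i j => absurd ⟨(i, j)⟩ hne⟩

/-- the perturbed points -/
def gj10_pt {I : Type} (P Q : I → ℂ) (w : I → ℂ) (i : I) : ℂ :=
  if P i = Q i then P i else P i + w i

theorem gj10_pt_cont {I : Type} (P Q : I → ℂ) (i : I) :
    Continuous fun w : I → ℂ => gj10_pt P Q w i := by
  by_cases h : P i = Q i
  · simp only [gj10_pt, if_pos h]
    exact continuous_const
  · simp only [gj10_pt, if_neg h]
    fun_prop

/-- the determinant -/
def gj10_g {I : Type} (P Q : I → ℂ) (i j : I) (k : ℤ) (w : I → ℂ) : ℝ :=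
  ((gj10_pt P Q w i - gj10_pt P Q w j - k) * starRingEnd ℂ (Q i - Q j - k)).im

theorem gj10_g_cont {I : Type} (P Q : I → ℂ) (i j : I) (k : ℤ) :
    Continuous (gj10_g P Q i j k) := by
  have h1 := gj10_pt_cont P Q i
  have h2 := gj10_pt_cont P Q j
  exact Complex.continuous_im.comp (((h1.sub h2).sub continuous_const).mul continuous_const)

theorem gj10_dir {I : Type} (P Q : I → ℂ) {i j : I} (hij : i ≠ j) (hm : P i ≠ Q i ∨ P j ≠ Q j)
    (d : ℂ) : ∃ u : I → ℂ, ∃ σ : ℝ, σ ≠ 0 ∧ ∀ (w : I → ℂ) (s : ℝ),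
      gj10_pt P Q (fun l => w l + s * u l) i - gj10_pt P Q (fun l => w l + s * u l) j =
        gj10_pt P Q w i - gj10_pt P Q w j + ((s * σ : ℝ) : ℂ) * (Complex.I * d) := by
  by_cases hi : P i = Q i
  · have hj : P j ≠ Q j := by
      rcases hm with h | h
      · exact absurd hi h
      · exact h
    refine ⟨fun l => if l = j then Complex.I * d else 0, -1, by norm_num, fun w s => ?_⟩
    simp only [gj10_pt, if_pos hi, if_neg hj]
    push_cast
    ring
  · refine ⟨fun l => if l = i then Complex.I * d else 0, 1, by norm_num, fun w s => ?_⟩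
    by_cases hj : P j = Q j
    · simp only [gj10_pt, if_neg hi, if_pos hj]
      push_cast
      ring
    · simp only [gj10_pt, if_neg hi, if_neg hj, if_neg (Ne.symm hij)]
      push_cast
      ring

theorem gj10_dense {I : Type} [Fintype I] (P Q : I → ℂ)
    {i j : I} {k : ℤ} (hQ : Q i - Q j - k ≠ 0) (hij : i ≠ j) (hm : P i ≠ Q i ∨ P j ≠ Q j) :
    Dense {w : I → ℂ | gj10_g P Q i j k w ≠ 0} := by
  intro w
  by_cases hw : gj10_g P Q i j k w = 0
  · obtain ⟨u, σ, hσ, hu⟩ := gj10_dir P Q hij hm (Q i - Q j - k)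
    have hcont : Continuous fun s : ℝ => (fun l => w l + s * u l : I → ℂ) := by fun_prop
    have ht : Tendsto (fun s : ℝ => (fun l => w l + s * u l : I → ℂ)) (𝓝[≠] 0) (𝓝 w) := by
      have h1 := (hcont.tendsto 0).mono_left (nhdsWithin_le_nhds (s := {0}ᶜ))
      have h2 : (fun l => w l + ((0 : ℝ) : ℂ) * u l : I → ℂ) = w := by
        funext l
        simp
      rwa [h2] at h1
    refine mem_closure_of_tendsto ht ?_
    filter_upwards [self_mem_nhdsWithin] with s hs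
    have hs' : s ≠ 0 := hs
    show gj10_g P Q i j k (fun l => w l + s * u l) ≠ 0
    have h1 : gj10_g P Q i j k (fun l => w l + s * u l) =
        gj10_g P Q i j k w + s * σ * Complex.normSq (Q i - Q j - k) := by
      unfold gj10_g
      rw [hu w s]
      have h2 : (gj10_pt P Q w i - gj10_pt P Q w j + ((s * σ : ℝ) : ℂ) * (Complex.I * (Q i - Q j - k)) - k)
          * starRingEnd ℂ (Q i - Q j - k) =
          (gj10_pt P Q w i - gj10_pt P Q w j - k) * starRingEnd ℂ (Q i - Q j - k) +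
          ((s * σ : ℝ) : ℂ) * (Complex.I * ((Q i - Q j - k) * starRingEnd ℂ (Q i - Q j - k))) := by
        ring
      rw [h2, Complex.mul_conj, Complex.add_im, Complex.im_ofReal_mul, Complex.I_mul_im,
        Complex.ofReal_re]
    rw [h1, hw, zero_add]
    exact mul_ne_zero (mul_ne_zero hs' hσ) (by
      rw [Ne, Complex.normSq_eq_zero]
      exact hQ)
  · exact subset_closure hw

theorem gj10_generic {I : Type} [Fintype I] (P Q : I → ℂ)
    (hQ : ∀ i j : I, ∀ k : ℤ, (i ≠ j ∨ k ≠ 0) → Q i - Q j - k ≠ 0) (δ : ℝ) (hδ : 0 < δ) :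
    ∃ w : I → ℂ, (∀ i, ‖w i‖ < δ) ∧ ∀ i j : I, ∀ k : ℤ, i ≠ j → (P i ≠ Q i ∨ P j ≠ Q j) →
      gj10_g P Q i j k w ≠ 0 := by
  have hD : Dense (⋂ x : I × I × ℤ, {w : I → ℂ | x.1 ≠ x.2.1 ∧ (P x.1 ≠ Q x.1 ∨ P x.2.1 ≠ Q x.2.1) →
      gj10_g P Q x.1 x.2.1 x.2.2 w ≠ 0}) := by
    refine dense_iInter_of_isOpen (fun x => ?_) (fun x => ?_)
    · by_cases hc : x.1 ≠ x.2.1 ∧ (P x.1 ≠ Q x.1 ∨ P x.2.1 ≠ Q x.2.1)
      · have h1 : {w : I → ℂ | x.1 ≠ x.2.1 ∧ (P x.1 ≠ Q x.1 ∨ P x.2.1 ≠ Q x.2.1) →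
            gj10_g P Q x.1 x.2.1 x.2.2 w ≠ 0} = {w | gj10_g P Q x.1 x.2.1 x.2.2 w ≠ 0} := by
          ext w
          exact ⟨fun h => h hc, fun h _ => h⟩
        rw [h1]
        exact isOpen_ne_fun (gj10_g_cont P Q _ _ _) continuous_const
      · have h1 : {w : I → ℂ | x.1 ≠ x.2.1 ∧ (P x.1 ≠ Q x.1 ∨ P x.2.1 ≠ Q x.2.1) →
            gj10_g P Q x.1 x.2.1 x.2.2 w ≠ 0} = Set.univ := by
          ext w
          exact ⟨fun _ => trivial, fun _ h => absurd h hc⟩
        rw [h1]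
        exact isOpen_univ
    · by_cases hc : x.1 ≠ x.2.1 ∧ (P x.1 ≠ Q x.1 ∨ P x.2.1 ≠ Q x.2.1)
      · refine (gj10_dense P Q (k := x.2.2) (hQ x.1 x.2.1 x.2.2 (Or.inl hc.1)) hc.1 hc.2).mono ?_
        intro w hw _
        exact hw
      · have h1 : {w : I → ℂ | x.1 ≠ x.2.1 ∧ (P x.1 ≠ Q x.1 ∨ P x.2.1 ≠ Q x.2.1) →
            gj10_g P Q x.1 x.2.1 x.2.2 w ≠ 0} = Set.univ := by
          ext w
          exact ⟨fun _ => trivial, fun _ h => absurd h hc⟩
        rw [h1]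
        exact dense_univ
  obtain ⟨w, hw1, hw2⟩ := hD.inter_open_nonempty (Metric.ball (0 : I → ℂ) δ) Metric.isOpen_ball
    ⟨0, Metric.mem_ball_self hδ⟩
  refine ⟨w, fun i => ?_, fun i j k hij hm => ?_⟩
  · rw [mem_ball_zero_iff] at hw1
    exact (norm_le_pi_norm w i).trans_lt hw1
  · rw [Set.mem_iInter] at hw2
    exact hw2 (i, j, k) ⟨hij, hm⟩

/-- PUSH LEMMA -/
theorem push {I : Type} [Fintype I] (P Q : I → ℂ) (ε : ℝ) (hε : 0 < ε)
    (hP : ∀ i j : I, ∀ k : ℤ, (i ≠ j ∨ k ≠ 0) → P i - P j - k ≠ 0)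
    (hQ : ∀ i j : I, ∀ k : ℤ, (i ≠ j ∨ k ≠ 0) → Q i - Q j - k ≠ 0)
    (ρ : ℝ) (hρ0 : 0 ≤ ρ) (hρ : ∀ i, |(Q i - P i).re| ≤ ρ)
    (ρ' : ℝ) (hρ0' : 0 ≤ ρ') (hρ' : ∀ i, |(Q i - P i).im| ≤ ρ')
    (c c' : ℝ) (hcc : c ≤ c') (hc : ∀ i, P i ≠ Q i → c ≤ (P i).im ∧ c ≤ (Q i).im ∧ (P i).im ≤ c' ∧
      (Q i).im ≤ c') :
    ∃ κ : ℂ ≃ₜ ℂ, κ ∈ SH 1 ∧ (∀ i, κ (P i) = Q i) ∧
      (∀ z, |(κ z).re - z.re| ≤ ρ + ε) ∧ (∀ z, |(κ z).im - z.im| ≤ ρ' + ε) ∧
      (∀ z : ℂ, z.im ≤ c - ε ∨ c' + ε ≤ z.im → κ z = z) := by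
  obtain ⟨δ0, hδ0, hsep⟩ := gj10_unif P hP
  obtain ⟨δ, hδ, hδε, hδδ⟩ : ∃ δ : ℝ, 0 < δ ∧ δ ≤ ε / 4 ∧ δ ≤ δ0 / 4 :=
    ⟨min (ε / 4) (δ0 / 4), lt_min (by positivity) (by positivity), min_le_left _ _,
      min_le_right _ _⟩
  obtain ⟨w, hwδ, hw⟩ := gj10_generic P Q hQ δ hδ
  obtain ⟨P', hP'⟩ : ∃ P' : I → ℂ, P' = gj10_pt P Q w := ⟨_, rfl⟩
  have hfix : ∀ i, P i = Q i → P' i = P i := by
    intro i hi
    rw [hP', gj10_pt, if_pos hi]
  have hnear : ∀ i, ‖P' i - P i‖ ≤ δ := by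
    intro i
    rw [hP', gj10_pt]
    by_cases hi : P i = Q i
    · rw [if_pos hi, sub_self, norm_zero]
      exact hδ.le
    · rw [if_neg hi, add_sub_cancel_left]
      exact (hwδ i).le
  have hnre : ∀ i, |(P' i - P i).re| ≤ δ := fun i => (Complex.abs_re_le_norm _).trans (hnear i)
  have hnim : ∀ i, |(P' i - P i).im| ≤ δ := fun i => (Complex.abs_im_le_norm _).trans (hnear i)
  -- first path
  have hd1 : ∀ i j : I, ∀ k : ℤ, (i ≠ j ∨ k ≠ 0) → ∀ t : ℝ, 0 ≤ t → t ≤ 1 →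
      (P i + t * (P' i - P i)) - (P j + t * (P' j - P j)) - k ≠ 0 := by
    intro i j k hk t ht0 ht1 h0
    have h1 := hsep i j k hk
    have h2 : P i - P j - k = (t : ℂ) * ((P' j - P j) - (P' i - P i)) := by
      linear_combination h0
    rw [h2, norm_mul, Complex.norm_real, Real.norm_of_nonneg ht0] at h1
    have h3 := norm_sub_le (P' j - P j) (P' i - P i)
    have h4 : t * ‖(P' j - P j) - (P' i - P i)‖ ≤ 1 * (δ + δ) :=
      mul_le_mul ht1 (h3.trans (add_le_add (hnear j) (hnear i))) (norm_nonneg _) zero_le_one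
    linarith
  obtain ⟨κ1, a1, a2, a3, a4, a5⟩ := push_path P P' (ε / 4) (by positivity) hd1 δ hδ.le hnre δ hδ.le
    hnim (c - δ) (c' + δ) (by
      intro i hi
      have hne : P i ≠ Q i := fun he => hi (hfix i he).symm
      obtain ⟨k1, k2, k3, k4⟩ := hc i hne
      have h1 := abs_le.1 (hnim i)
      rw [Complex.sub_im] at h1
      refine ⟨by linarith, by linarith [h1.1], by linarith, by linarith [h1.2]⟩)
  -- second path
  have hd2 : ∀ i j : I, ∀ k : ℤ, (i ≠ j ∨ k ≠ 0) → ∀ t : ℝ, 0 ≤ t → t ≤ 1 →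
      (P' i + t * (Q i - P' i)) - (P' j + t * (Q j - P' j)) - k ≠ 0 := by
    intro i j k hk t ht0 ht1 h0
    by_cases hij : i = j
    · subst hij
      have hk0 : k ≠ 0 := by
        rcases hk with h | h
        · exact absurd rfl h
        · exact h
      rw [sub_self, zero_sub, neg_eq_zero] at h0
      exact hk0 (by exact_mod_cast h0)
    · by_cases hm : P i ≠ Q i ∨ P j ≠ Q j
      · have h1 := hw i j k hij hm
        unfold gj10_g at h1
        rw [← hP'] at h1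
        have h2 : (((1 - t : ℝ) : ℂ) * ((P' i - P' j - k) * starRingEnd ℂ (Q i - Q j - k)) +
            ((t : ℝ) : ℂ) * ((Q i - Q j - k) * starRingEnd ℂ (Q i - Q j - k))) = 0 := by
          push_cast
          linear_combination (starRingEnd ℂ (Q i - Q j - k)) * h0
        have h3 := congrArg Complex.im h2
        rw [Complex.add_im, Complex.im_ofReal_mul, Complex.im_ofReal_mul, Complex.mul_conj,
          Complex.ofReal_im, mul_zero, add_zero, Complex.zero_im] at h3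
        rcases mul_eq_zero.1 h3 with h4 | h4
        · have ht : t = 1 := by linarith
          rw [ht, Complex.ofReal_one] at h0
          apply hQ i j k hk
          linear_combination h0
        · exact h1 h4
      · rw [not_or, not_not, not_not] at hm
        obtain ⟨hm1, hm2⟩ := hm
        rw [hfix i hm1, hfix j hm2, ← hm1, ← hm2] at h0
        apply hP i j k hk
        linear_combination h0
  obtain ⟨κ2, b1, b2, b3, b4, b5⟩ := push_path P' Q (ε / 4) (by positivity) hd2 (ρ + δ)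
    (by positivity) (by
      intro i
      have h1 : (Q i - P' i).re = (Q i - P i).re - (P' i - P i).re := by
        simp only [Complex.sub_re]
        ring
      rw [h1]
      exact (abs_sub _ _).trans (add_le_add (hρ i) (hnre i))) (ρ' + δ) (by positivity) (by
      intro i
      have h1 : (Q i - P' i).im = (Q i - P i).im - (P' i - P i).im := by
        simp only [Complex.sub_im]
        ring
      rw [h1]
      exact (abs_sub _ _).trans (add_le_add (hρ' i) (hnim i))) (c - δ) (c' + δ) (by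
      intro i hi
      have hne : P i ≠ Q i := fun he => hi ((hfix i he).trans he)
      obtain ⟨k1, k2, k3, k4⟩ := hc i hne
      have h1 := abs_le.1 (hnim i)
      rw [Complex.sub_im] at h1
      refine ⟨by linarith [h1.1], by linarith, by linarith [h1.2], by linarith⟩)
  have hcomp : ∀ z, (κ2 * κ1) z = κ2 (κ1 z) := fun z => rfl
  refine ⟨κ2 * κ1, mul_mem b1 a1, ?_, ?_, ?_, ?_⟩
  · intro i
    rw [hcomp, a2, b2]
  · intro z
    rw [hcomp]
    have h1 := a3 z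
    have h2 := b3 (κ1 z)
    have h3 : (κ2 (κ1 z)).re - z.re = ((κ2 (κ1 z)).re - (κ1 z).re) + ((κ1 z).re - z.re) := by ring
    rw [h3]
    refine (abs_add_le _ _).trans ?_
    linarith
  · intro z
    rw [hcomp]
    have h1 := a4 z
    have h2 := b4 (κ1 z)
    have h3 : (κ2 (κ1 z)).im - z.im = ((κ2 (κ1 z)).im - (κ1 z).im) + ((κ1 z).im - z.im) := by ring
    rw [h3]
    refine (abs_add_le _ _).trans ?_
    linarith
  · intro z hz
    rw [hcomp]
    have h1 : z.im ≤ c - δ - ε / 4 ∨ c' + δ + ε / 4 ≤ z.im := by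
      rcases hz with h | h
      · left
        linarith
      · right
        linarith
    rw [a5 z h1, b5 z h1]

end

/-- first stage: small displacement -/
structure GJ11A (f : ℂ → ℂ) (ε : ℝ) : Prop where
  re : ∀ z, |(f z).re - z.re| ≤ 1 / 4
  im : ∀ z, |(f z).im - z.im| ≤ 1 / 4
  cl : ∀ z, ‖f z - z‖ ≤ ε

/-- second stage: supported in a band -/
structure GJ11B (f : ℂ → ℂ) (cn c1 : ℝ) : Prop where
  re : ∀ z, |(f z).re - z.re| ≤ 3 / 4
  fix : ∀ z : ℂ, z.im ≤ cn - 1 / 4 ∨ c1 - 1 / 2 ≤ z.im → f z = z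
  band : ∀ z : ℂ, cn - 1 / 4 < z.im → z.im < c1 - 1 / 2 →
    cn - 1 / 4 < (f z).im ∧ (f z).im < c1 - 1 / 2

/-- third stage: supported high -/
structure GJ11C (f : ℂ → ℂ) (yf : ℝ) : Prop where
  fix : ∀ z : ℂ, z.im ≤ yf + 1 / 2 → f z = z
  up : ∀ z : ℂ, yf + 1 / 2 < z.im → yf + 1 / 2 < (f z).im

theorem gj11_Asymm {κ : ℂ ≃ₜ ℂ} {ε : ℝ} (h : GJ11A κ ε) : GJ11A κ.symm ε := by
  refine ⟨fun z => ?_, fun z => ?_, fun z => ?_⟩
  · have h1 := h.re (κ.symm z)
    rw [κ.apply_symm_apply, abs_sub_comm] at h1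
    exact h1
  · have h1 := h.im (κ.symm z)
    rw [κ.apply_symm_apply, abs_sub_comm] at h1
    exact h1
  · have h1 := h.cl (κ.symm z)
    rw [κ.apply_symm_apply, norm_sub_rev] at h1
    exact h1

theorem gj11_B {κ : ℂ ≃ₜ ℂ} {cn c1 : ℝ} (h1 : ∀ z, |(κ z).re - z.re| ≤ 3 / 4)
    (h2 : ∀ z : ℂ, z.im ≤ cn - 1 / 4 ∨ c1 - 1 / 2 ≤ z.im → κ z = z) : GJ11B κ cn c1 := by
  refine ⟨h1, h2, fun z hz hz' => ?_⟩
  by_contra hcon
  have h3 : (κ z).im ≤ cn - 1 / 4 ∨ c1 - 1 / 2 ≤ (κ z).im := by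
    by_contra h4
    rw [not_or, not_le, not_le] at h4
    exact hcon h4
  have h5 : κ z = z := κ.injective (h2 _ h3)
  rw [h5] at h3
  rcases h3 with h3 | h3 <;> linarith

theorem gj11_C {κ : ℂ ≃ₜ ℂ} {yf : ℝ} (h2 : ∀ z : ℂ, z.im ≤ yf + 1 / 2 → κ z = z) :
    GJ11C κ yf := by
  refine ⟨h2, fun z hz => ?_⟩
  by_contra hcon
  have h5 : κ z = z := κ.injective (h2 _ (not_lt.1 hcon))
  rw [h5] at hcon
  exact hcon hz

theorem gj11_Bsymm {κ : ℂ ≃ₜ ℂ} {cn c1 : ℝ} (h : GJ11B κ cn c1) : GJ11B κ.symm cn c1 := by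
  apply gj11_B
  · intro z
    have h1 := h.re (κ.symm z)
    rw [κ.apply_symm_apply, abs_sub_comm] at h1
    exact h1
  · intro z hz
    have h1 := congrArg κ.symm (h.fix z hz)
    rw [κ.symm_apply_apply] at h1
    exact h1.symm

theorem gj11_Csymm {κ : ℂ ≃ₜ ℂ} {yf : ℝ} (h : GJ11C κ yf) : GJ11C κ.symm yf := by
  apply gj11_C
  intro z hz
  have h1 := congrArg κ.symm (h.fix z hz)
  rw [κ.symm_apply_apply] at h1
  exact h1.symm

/-- the image under the second stage -/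
theorem gj11_Bcases {f : ℂ → ℂ} {cn c1 : ℝ} (h : GJ11B f cn c1) (z : ℂ) :
    f z = z ∨ (cn - 1 / 4 < (f z).im ∧ (f z).im < c1 - 1 / 2) := by
  by_cases h1 : z.im ≤ cn - 1 / 4 ∨ c1 - 1 / 2 ≤ z.im
  · exact Or.inl (h.fix z h1)
  · rw [not_or, not_le, not_le] at h1
    exact Or.inr (h.band z h1.1 h1.2)

theorem gj11_Ccases {f : ℂ → ℂ} {yf : ℝ} (h : GJ11C f yf) (z : ℂ) :
    f z = z ∨ yf + 1 / 2 < (f z).im := by
  by_cases h1 : z.im ≤ yf + 1 / 2
  · exact Or.inl (h.fix z h1)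
  · exact Or.inr (h.up z (not_le.1 h1))

theorem gj11_out {f1 f2 f3 : ℂ → ℂ} {cn c1 yf ε : ℝ} (hcc : cn ≤ c1 - 1) (hyf : c1 ≤ yf)
    (h1 : GJ11A f1 ε) (h2 : GJ11B f2 cn c1) (h3 : GJ11C f3 yf) :
    PertO (fun z => f3 (f2 (f1 z))) cn c1 yf ε := by
  -- for `z` not high the third map is the identity
  have key : ∀ z : ℂ, z.im ≤ yf → f3 (f2 (f1 z)) = f2 (f1 z) ∧
      (f2 (f1 z)).im ≤ max (z.im + 1 / 4) (c1 - 1 / 2) := by
    intro z hz
    have him := abs_le.1 (h1.im z)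
    have hb : (f2 (f1 z)).im ≤ max (z.im + 1 / 4) (c1 - 1 / 2) := by
      rcases gj11_Bcases h2 (f1 z) with h | h
      · rw [h]
        exact le_max_of_le_left (by linarith)
      · exact le_max_of_le_right h.2.le
    refine ⟨h3.fix _ (hb.trans ?_), hb⟩
    apply max_le <;> linarith
  refine ⟨fun z hz => ?_, fun z => ?_, fun z hz => ?_, fun z hz hz' => ?_⟩
  · show |(f3 (f2 (f1 z))).re - z.re| ≤ 1
    rw [(key z hz).1]
    have e1 := abs_le.1 (h1.re z)
    have e2 := abs_le.1 (h2.re (f1 z))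
    rw [abs_le]
    constructor <;> linarith
  · show min z.im cn - 1 ≤ (f3 (f2 (f1 z))).im
    have him := abs_le.1 (h1.im z)
    have m1 := min_le_left z.im cn
    have m2 := min_le_right z.im cn
    rcases gj11_Ccases h3 (f2 (f1 z)) with h | h
    · rw [h]
      rcases gj11_Bcases h2 (f1 z) with h' | h'
      · rw [h']
        linarith
      · linarith [h'.1]
    · linarith
  · show (f3 (f2 (f1 z))).im ≤ max z.im c1 + 1
    rw [(key z hz).1]
    refine (key z hz).2.trans ?_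
    have m1 := le_max_left z.im c1
    have m2 := le_max_right z.im c1
    apply max_le <;> linarith
  · show ‖f3 (f2 (f1 z)) - z‖ ≤ ε
    rw [(key z hz').1]
    have him := abs_le.1 (h1.im z)
    rw [h2.fix (f1 z) (Or.inr (by linarith))]
    exact h1.cl z

theorem gj11_inv {f1 f2 f3 : ℂ → ℂ} {cn c1 yf ε : ℝ} (hcc : cn ≤ c1 - 1) (hyf : c1 ≤ yf)
    (h1 : GJ11A f1 ε) (h2 : GJ11B f2 cn c1) (h3 : GJ11C f3 yf) :
    PertO (fun z => f1 (f2 (f3 z))) cn c1 yf ε := by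
  have key : ∀ z : ℂ, z.im ≤ yf → f3 z = z := fun z hz => h3.fix z (by linarith)
  refine ⟨fun z hz => ?_, fun z => ?_, fun z hz => ?_, fun z hz hz' => ?_⟩
  · show |(f1 (f2 (f3 z))).re - z.re| ≤ 1
    rw [key z hz]
    have e1 := abs_le.1 (h1.re (f2 z))
    have e2 := abs_le.1 (h2.re z)
    rw [abs_le]
    constructor <;> linarith
  · show min z.im cn - 1 ≤ (f1 (f2 (f3 z))).im
    have him := abs_le.1 (h1.im (f2 (f3 z)))
    have m1 := min_le_left z.im cn
    have m2 := min_le_right z.im cn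
    have h4 : min z.im cn - 1 / 4 ≤ (f2 (f3 z)).im := by
      rcases gj11_Bcases h2 (f3 z) with h' | h'
      · rw [h']
        rcases gj11_Ccases h3 z with h | h
        · rw [h]
          linarith
        · linarith
      · linarith [h'.1]
    linarith
  · show (f1 (f2 (f3 z))).im ≤ max z.im c1 + 1
    rw [key z hz]
    have him := abs_le.1 (h1.im (f2 z))
    have m1 := le_max_left z.im c1
    have m2 := le_max_right z.im c1
    rcases gj11_Bcases h2 z with h | h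
    · rw [h] at him ⊢
      linarith
    · linarith [h.2]
  · show ‖f1 (f2 (f3 z)) - z‖ ≤ ε
    rw [key z hz', h2.fix z (Or.inr (by linarith))]
    exact h1.cl z

/-- a small generic vertical translation -/
theorem gj11_exists_t {I : Type} [Fintype I] (P Q : I → ℂ) (r : ℝ) (hr : 0 < r) :
    ∃ t : ℝ, 0 < t ∧ t < r ∧ ∀ i j, t ≠ (Q i).im - (P j).im := by
  obtain ⟨t, ht, ht'⟩ := (Set.Ioo_infinite hr).exists_notMem_finset
    (Finset.univ.image fun ij : I × I => (Q ij.1).im - (P ij.2).im)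
  refine ⟨t, ht.1, ht.2, fun i j h => ht' ?_⟩
  rw [Finset.mem_image]
  exact ⟨(i, j), Finset.mem_univ _, h.symm⟩

/-- the mixed configurations are distinct modulo `ℤ` -/
theorem gj11_mixed {I : Type} [Fintype I] (P Q : I → ℂ) (t : ℝ)
    (ht : ∀ i j, t ≠ (Q i).im - (P j).im)
    (hP : ∀ i j : I, ∀ k : ℤ, (i ≠ j ∨ k ≠ 0) → P i - P j - k ≠ 0)
    (hQ : ∀ i j : I, ∀ k : ℤ, (i ≠ j ∨ k ≠ 0) → Q i - Q j - k ≠ 0) (S : I → Prop)
    (i j : I) (k : ℤ) (hij : i ≠ j ∨ k ≠ 0) :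
    (if S i then Q i else P i + t * Complex.I) - (if S j then Q j else P j + t * Complex.I) - k ≠ 0 := by
  by_cases hi : S i <;> by_cases hj : S j
  · rw [if_pos hi, if_pos hj]
    exact hQ i j k hij
  · rw [if_pos hi, if_neg hj]
    intro h
    have h1 := congrArg Complex.im h
    simp only [sub_im, add_im, mul_im, ofReal_re, ofReal_im, I_re, I_im, intCast_im, zero_im] at h1
    exact ht i j (by linarith)
  · rw [if_neg hi, if_pos hj]
    intro h
    have h1 := congrArg Complex.im h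
    simp only [sub_im, add_im, mul_im, ofReal_re, ofReal_im, I_re, I_im, intCast_im, zero_im] at h1
    exact ht j i (by linarith)
  · rw [if_neg hi, if_neg hj, add_sub_add_right_eq_sub]
    exact hP i j k hij

theorem gj11_le_sum {I : Type} [Fintype I] (f : I → ℝ) (i : I) : |f i| ≤ ∑ j, |f j| :=
  Finset.single_le_sum (f := fun j => |f j|) (fun j _ => abs_nonneg _) (Finset.mem_univ i)

/-- three stage push: ordinary, near, far pairs -/
theorem three_push {I : Type} [Fintype I] (P Q : I → ℂ) (cn c1 yf ε : ℝ) (hε : 0 < ε)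
    (hcc : cn ≤ c1 - 1) (hyf : c1 ≤ yf)
    (hP : ∀ i j : I, ∀ k : ℤ, (i ≠ j ∨ k ≠ 0) → P i - P j - k ≠ 0)
    (hQ : ∀ i j : I, ∀ k : ℤ, (i ≠ j ∨ k ≠ 0) → Q i - Q j - k ≠ 0)
    (h : ∀ i, ‖Q i - P i‖ ≤ ε / 4 ∧ ‖Q i - P i‖ ≤ 1 / 8 ∨
      (|(Q i - P i).re| ≤ 1 / 2 ∧ cn ≤ (P i).im ∧ cn ≤ (Q i).im ∧ (P i).im ≤ c1 - 1 ∧
        (Q i).im ≤ c1 - 1) ∨
      (yf + 1 ≤ (P i).im ∧ yf + 1 ≤ (Q i).im)) :
    ∃ κ : ℂ ≃ₜ ℂ, Pert κ cn c1 yf ε ∧ ∀ i, κ (P i) = Q i := by
  obtain ⟨r, hr⟩ : ∃ r : ℝ, r = min (ε / 4) (1 / 8) := ⟨_, rfl⟩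
  have hr0 : 0 < r := by rw [hr]; exact lt_min (by positivity) (by norm_num)
  have hr1 : r ≤ ε / 4 := by rw [hr]; exact min_le_left _ _
  have hr2 : r ≤ 1 / 8 := by rw [hr]; exact min_le_right _ _
  obtain ⟨t, ht0, htr, ht⟩ := gj11_exists_t P Q r hr0
  -- the two intermediate configurations
  obtain ⟨O, hO⟩ : ∃ O : I → Prop, ∀ i, O i ↔ ‖Q i - P i‖ ≤ r := ⟨_, fun i => Iff.rfl⟩
  obtain ⟨N, hN⟩ : ∃ N : I → Prop, ∀ i, N i ↔ (|(Q i - P i).re| ≤ 1 / 2 ∧ cn ≤ (P i).im ∧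
    cn ≤ (Q i).im ∧ (P i).im ≤ c1 - 1 ∧ (Q i).im ≤ c1 - 1) := ⟨_, fun i => Iff.rfl⟩
  obtain ⟨P1, hP1⟩ : ∃ P1 : I → ℂ, ∀ i, P1 i = if O i then Q i else P i + t * Complex.I :=
    ⟨_, fun i => rfl⟩
  obtain ⟨P2, hP2⟩ : ∃ P2 : I → ℂ, ∀ i, P2 i = if O i ∨ N i then Q i else P i + t * Complex.I :=
    ⟨_, fun i => rfl⟩
  have hd1 : ∀ i j : I, ∀ k : ℤ, (i ≠ j ∨ k ≠ 0) → P1 i - P1 j - k ≠ 0 := by
    intro i j k hij
    rw [hP1, hP1]
    exact gj11_mixed P Q t ht hP hQ O i j k hij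
  have hd2 : ∀ i j : I, ∀ k : ℤ, (i ≠ j ∨ k ≠ 0) → P2 i - P2 j - k ≠ 0 := by
    intro i j k hij
    rw [hP2, hP2]
    have e := gj11_mixed P Q t ht hP hQ (fun i => O i ∨ N i) i j k hij
    convert e
  -- stage 1
  obtain ⟨κ1, s1, g1, re1, im1, -⟩ := push P P1 r hr0 hP hd1 r hr0.le (by
      intro i
      rw [hP1]
      by_cases hi : O i
      · rw [if_pos hi]
        exact (abs_re_le_norm _).trans ((hO i).1 hi)
      · rw [if_neg hi, add_sub_cancel_left]
        simp only [mul_re, ofReal_re, ofReal_im, I_re, I_im, mul_zero, zero_mul, sub_zero, abs_zero]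
        exact hr0.le) r hr0.le (by
      intro i
      rw [hP1]
      by_cases hi : O i
      · rw [if_pos hi]
        exact (abs_im_le_norm _).trans ((hO i).1 hi)
      · rw [if_neg hi, add_sub_cancel_left]
        simp only [mul_im, ofReal_re, ofReal_im, I_re, I_im, mul_one, zero_mul, add_zero]
        rw [abs_of_pos ht0]
        exact htr.le)
    (-(∑ i, |(P i).im| + ∑ i, |(P1 i).im|)) (∑ i, |(P i).im| + ∑ i, |(P1 i).im|) (by
      have e1 : 0 ≤ ∑ i, |(P i).im| := Finset.sum_nonneg fun i _ => abs_nonneg _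
      have e2 : 0 ≤ ∑ i, |(P1 i).im| := Finset.sum_nonneg fun i _ => abs_nonneg _
      linarith) (by
      intro i _
      have e1 : 0 ≤ ∑ i, |(P i).im| := Finset.sum_nonneg fun i _ => abs_nonneg _
      have e2 : 0 ≤ ∑ i, |(P1 i).im| := Finset.sum_nonneg fun i _ => abs_nonneg _
      have e3 := abs_le.1 (gj11_le_sum (fun i => (P i).im) i)
      have e4 := abs_le.1 (gj11_le_sum (fun i => (P1 i).im) i)
      refine ⟨?_, ?_, ?_, ?_⟩ <;> linarith [e3.1, e3.2, e4.1, e4.2])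
  have A1 : GJ11A κ1 ε := by
    refine ⟨fun z => (re1 z).trans (by linarith), fun z => (im1 z).trans (by linarith), fun z => ?_⟩
    have e1 := re1 z
    have e2 := im1 z
    have e3 := norm_le_abs_re_add_abs_im (κ1 z - z)
    rw [sub_re, sub_im] at e3
    linarith
  -- stage 2
  obtain ⟨κ2, s2, g2, re2, -, fix2⟩ := push P1 P2 (1 / 4) (by norm_num) hd1 hd2 (1 / 2)
    (by norm_num) (by
      intro i
      rw [hP1, hP2]
      by_cases hi : O i
      · rw [if_pos (Or.inl hi), if_pos hi, sub_self]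
        simp
      · by_cases hn : N i
        · rw [if_pos (Or.inr hn), if_neg hi]
          have e1 := ((hN i).1 hn).1
          simp only [sub_re, add_re, mul_re, ofReal_re, ofReal_im, I_re, I_im, mul_zero, zero_mul,
            sub_zero, add_zero] at e1 ⊢
          exact e1
        · rw [if_neg (not_or.2 ⟨hi, hn⟩), if_neg hi, sub_self]
          simp)
    (∑ i, |(P2 i - P1 i).im|) (Finset.sum_nonneg fun i _ => abs_nonneg _)
    (fun i => gj11_le_sum (fun i => (P2 i - P1 i).im) i) cn (c1 - 1 + 1 / 8) (by linarith) (by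
      intro i hne
      rw [hP1, hP2] at hne
      rw [hP1, hP2]
      by_cases hi : O i
      · rw [if_pos (Or.inl hi), if_pos hi] at hne
        exact absurd rfl hne
      · by_cases hn : N i
        · rw [if_pos (Or.inr hn), if_neg hi]
          obtain ⟨e1, e2, e3, e4, e5⟩ := (hN i).1 hn
          simp only [add_im, mul_im, ofReal_re, ofReal_im, I_re, I_im, mul_one, zero_mul, add_zero]
          refine ⟨?_, ?_, ?_, ?_⟩ <;> linarith
        · rw [if_neg (not_or.2 ⟨hi, hn⟩), if_neg hi] at hne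
          exact absurd rfl hne)
  have A2 : GJ11B κ2 cn c1 := by
    apply gj11_B
    · intro z
      exact (re2 z).trans (by norm_num)
    · intro z hz
      apply fix2
      rcases hz with hz | hz
      · exact Or.inl hz
      · right
        linarith
  -- stage 3
  obtain ⟨κ3, s3, g3, -, -, fix3⟩ := push P2 Q (1 / 4) (by norm_num) hd2 hQ
    (∑ i, |(Q i - P2 i).re|) (Finset.sum_nonneg fun i _ => abs_nonneg _)
    (fun i => gj11_le_sum (fun i => (Q i - P2 i).re) i)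
    (∑ i, |(Q i - P2 i).im|) (Finset.sum_nonneg fun i _ => abs_nonneg _)
    (fun i => gj11_le_sum (fun i => (Q i - P2 i).im) i)
    (yf + 1) (|yf + 1| + ∑ i, |(P2 i).im| + ∑ i, |(Q i).im|) (by
      have e1 : 0 ≤ ∑ i, |(P2 i).im| := Finset.sum_nonneg fun i _ => abs_nonneg _
      have e2 : 0 ≤ ∑ i, |(Q i).im| := Finset.sum_nonneg fun i _ => abs_nonneg _
      have e3 := le_abs_self (yf + 1)
      linarith) (by
      intro i hne
      have e1 : 0 ≤ ∑ i, |(P2 i).im| := Finset.sum_nonneg fun i _ => abs_nonneg _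
      have e2 : 0 ≤ ∑ i, |(Q i).im| := Finset.sum_nonneg fun i _ => abs_nonneg _
      have e3 := abs_le.1 (gj11_le_sum (fun i => (P2 i).im) i)
      have e4 := abs_le.1 (gj11_le_sum (fun i => (Q i).im) i)
      have e5 := abs_nonneg (yf + 1)
      have hnot : ¬ (O i ∨ N i) := by
        intro hon
        apply hne
        rw [hP2, if_pos hon]
      have hfar : yf + 1 ≤ (P i).im ∧ yf + 1 ≤ (Q i).im := by
        rcases h i with h' | h' | h'
        · exact absurd (Or.inl ((hO i).2 (by rw [hr]; exact le_min h'.1 h'.2))) hnot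
        · exact absurd (Or.inr ((hN i).2 h')) hnot
        · exact h'
      have e6 : (P2 i).im = (P i).im + t := by
        rw [hP2, if_neg hnot]
        simp
      refine ⟨?_, hfar.2, ?_, ?_⟩
      · rw [e6]
        linarith [hfar.1]
      · linarith [e3.2]
      · linarith [e4.2])
  have A3 : GJ11C κ3 yf := by
    apply gj11_C
    intro z hz
    apply fix3
    left
    linarith
  refine ⟨κ3 * (κ2 * κ1), ⟨mul_mem s3 (mul_mem s2 s1), ?_, ?_⟩, ?_⟩
  · exact gj11_out (f1 := κ1) (f2 := κ2) (f3 := κ3) hcc hyf A1 A2 A3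
  · exact gj11_inv (f1 := κ1.symm) (f2 := κ2.symm) (f3 := κ3.symm) hcc hyf (gj11_Asymm A1)
      (gj11_Bsymm A2) (gj11_Csymm A3)
  · intro i
    show κ3 (κ2 (κ1 (P i))) = Q i
    rw [g1, g2, g3]

theorem gj12_near (P u : ℂ) (hu : ‖u‖ ≤ 1 / 2) :
    ∃ Q, Ec Q = Ec P * (1 + u) ∧ ‖Q - P‖ ≤ ‖u‖ := by
  have h1 : (1 : ℂ) + u ≠ 0 := by
    intro h
    have h2 : u = -1 := by linear_combination h
    rw [h2, norm_neg, norm_one] at hu
    norm_num at hu
  have hpi : (Real.pi : ℂ) ≠ 0 := by exact_mod_cast Real.pi_ne_zero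
  refine ⟨P + I * log (1 + u) / (2 * Real.pi), ?_, ?_⟩
  · unfold Ec
    have e : -(2 * (Real.pi : ℂ) * I * (P + I * log (1 + u) / (2 * Real.pi))) =
        -(2 * Real.pi * I * P) + log (1 + u) := by
      field_simp
      ring_nf
      rw [I_sq]
      ring
    rw [e, Complex.exp_add, Complex.exp_log h1]
  · rw [add_sub_cancel_left, norm_div, norm_mul, norm_I, one_mul, norm_mul, Complex.norm_ofNat,
      Complex.norm_real, Real.norm_eq_abs, abs_of_pos Real.pi_pos,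
      div_le_iff₀ (by positivity)]
    have h3 := Complex.norm_log_one_add_half_le_self hu
    have h4 := Real.pi_gt_three
    have h5 := norm_nonneg u
    nlinarith

/-- lifting nearby points -/
theorem exists_near_lift (ρ η : ℝ) (hρ : 0 < ρ) (hη : 0 < η) : ∃ δ > 0, ∀ P v : ℂ,
    ρ ≤ ‖Ec P‖ → ‖v - Ec P‖ ≤ δ → ∃ Q, Ec Q = v ∧ ‖Q - P‖ ≤ η := by
  refine ⟨min (ρ / 2) (ρ * η), lt_min (by positivity) (by positivity), ?_⟩
  intro P v hP hv
  have hE : Ec P ≠ 0 := Complex.exp_ne_zero _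
  have hEn : 0 < ‖Ec P‖ := norm_pos_iff.2 hE
  set u : ℂ := (v - Ec P) / Ec P with hu
  have hun : ‖u‖ = ‖v - Ec P‖ / ‖Ec P‖ := norm_div _ _
  have h1 : ‖u‖ ≤ 1 / 2 := by
    rw [hun, div_le_iff₀ hEn]
    have := hv.trans (min_le_left _ _)
    linarith
  have h2 : ‖u‖ ≤ η := by
    rw [hun, div_le_iff₀ hEn]
    have h3 := hv.trans (min_le_right _ _)
    nlinarith
  obtain ⟨Q, hQ, hQ2⟩ := gj12_near P u h1
  refine ⟨Q, ?_, hQ2.trans h2⟩
  rw [hQ, hu]
  field_simp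
  ring

theorem gj12_int (z : ℂ) (k : ℤ) : Ec (z + k) = Ec z := by
  unfold Ec
  have e : -(2 * (Real.pi : ℂ) * I * (z + k)) =
      -(2 * Real.pi * I * z) + ((-k : ℤ) : ℂ) * (2 * Real.pi * I) := by
    push_cast
    ring
  rw [e, Complex.exp_add, Complex.exp_int_mul_two_pi_mul_I, mul_one]

theorem exists_half_lift (P v : ℂ) (hv : v ≠ 0) : ∃ Q, Ec Q = v ∧ |(Q - P).re| ≤ 1 / 2 ∧
    Q.im = Real.log ‖v‖ / (2 * Real.pi) := by
  have hpi : (Real.pi : ℂ) ≠ 0 := by exact_mod_cast Real.pi_ne_zero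
  set Q0 : ℂ := I * log v / (2 * Real.pi) with hQ0
  have h1 : Ec Q0 = v := by
    unfold Ec
    have e : -(2 * (Real.pi : ℂ) * I * Q0) = log v := by
      rw [hQ0]
      field_simp
      rw [I_sq]
      ring
    rw [e, Complex.exp_log hv]
  have h2 : Q0.im = Real.log ‖v‖ / (2 * Real.pi) := by
    have e : Q0 = (I * log v) / ((2 * Real.pi : ℝ) : ℂ) := by
      rw [hQ0]
      push_cast
      rfl
    rw [e, Complex.div_ofReal_im, Complex.mul_im, Complex.I_re, Complex.I_im, zero_mul, one_mul,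
      zero_add, Complex.log_re]
  refine ⟨Q0 + ((-round (Q0 - P).re : ℤ) : ℂ), ?_, ?_, ?_⟩
  · rw [gj12_int, h1]
  · have e : (Q0 + ((-round (Q0 - P).re : ℤ) : ℂ) - P).re = (Q0 - P).re - round (Q0 - P).re := by
      rw [Complex.sub_re, Complex.add_re, Complex.intCast_re]
      push_cast
      rw [Complex.sub_re]
      ring
    rw [e]
    exact abs_sub_round _
  · rw [Complex.add_im, Complex.intCast_im, add_zero, h2]

theorem gj13_norm_Ec (z : ℂ) : ‖Ec z‖ = Real.exp (2 * Real.pi * z.im) := by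
  unfold Ec
  rw [Complex.norm_exp]
  congr 1
  simp

theorem gj13_Ec_eq {z w : ℂ} (h : Ec z = Ec w) : ∃ k : ℤ, z = w + k := by
  unfold Ec at h
  rw [Complex.exp_eq_exp_iff_exists_int] at h
  obtain ⟨n, hn⟩ := h
  refine ⟨-n, ?_⟩
  have h2 : (2 * Real.pi * I : ℂ) ≠ 0 := Complex.two_pi_I_ne_zero
  have h3 : (2 * Real.pi * I : ℂ) * z = (2 * Real.pi * I : ℂ) * (w + ((-n : ℤ) : ℂ)) := by
    push_cast
    linear_combination -hn
  exact mul_left_cancel₀ h2 h3

theorem gj13_Ec_add_int (z : ℂ) (k : ℤ) : Ec (z + k) = Ec z := by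
  unfold Ec
  rw [Complex.exp_eq_exp_iff_exists_int]
  refine ⟨-k, ?_⟩
  push_cast
  ring

theorem gj13_Ec_ne (z : ℂ) : Ec z ≠ 0 := Complex.exp_ne_zero _

theorem gj13_sqr_le {t : ℝ} {z : ℂ} (h : z ∈ sqr t) : ‖z‖ ≤ 2 * t := by
  obtain ⟨h1, h2, h3, h4⟩ := h
  have h5 := Complex.norm_le_abs_re_add_abs_im z
  have h6 : |z.re| ≤ t := abs_le.2 ⟨h1, h2.le⟩
  have h7 : |z.im| ≤ t := abs_le.2 ⟨h3, h4.le⟩
  linarith

theorem gj13_not_sqr {t : ℝ} {z : ℂ} (h : z ∉ sqr t) : t ≤ ‖z‖ := by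
  by_contra hcon
  rw [not_le] at hcon
  apply h
  have h1 := Complex.abs_re_le_norm z
  have h2 := Complex.abs_im_le_norm z
  have h3 := abs_lt.1 (lt_of_le_of_lt h1 hcon)
  have h4 := abs_lt.1 (lt_of_le_of_lt h2 hcon)
  exact ⟨h3.1.le, h3.2, h4.1.le, h4.2⟩

theorem gj13_diam {s : ℝ} {c : ℤ × ℤ} {z w : ℂ} (hz : z ∈ cell s c) (hw : w ∈ cell s c) :
    ‖z - w‖ ≤ 2 * s := by
  obtain ⟨h1, h2, h3, h4⟩ := hz
  obtain ⟨g1, g2, g3, g4⟩ := hw
  have h5 := Complex.norm_le_abs_re_add_abs_im (z - w)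
  have h6 : |(z - w).re| ≤ s := by
    rw [Complex.sub_re]
    exact abs_le.2 ⟨by linarith, by linarith⟩
  have h7 : |(z - w).im| ≤ s := by
    rw [Complex.sub_im]
    exact abs_le.2 ⟨by linarith, by linarith⟩
  linarith

theorem gj13_int_aux {s x : ℝ} (hs : 0 < s) {a b : ℤ} (h1 : a * s ≤ x) (h2 : x < (b + 1) * s) :
    a ≤ b := by
  have h3 : (a : ℝ) * s < (b + 1) * s := lt_of_le_of_lt h1 h2
  have h4 : (a : ℝ) < b + 1 := lt_of_mul_lt_mul_right h3 hs.le
  have h5 : a < b + 1 := by exact_mod_cast h4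
  omega

theorem gj13_cell_inj {s : ℝ} (hs : 0 < s) {c c' : ℤ × ℤ} {z : ℂ} (hz : z ∈ cell s c)
    (hz' : z ∈ cell s c') : c = c' := by
  obtain ⟨h1, h2, h3, h4⟩ := hz
  obtain ⟨g1, g2, g3, g4⟩ := hz'
  have a1 := gj13_int_aux hs h1 g2
  have a2 := gj13_int_aux hs g1 h2
  have a3 := gj13_int_aux hs h3 g4
  have a4 := gj13_int_aux hs g3 h4
  exact Prod.ext (by omega) (by omega)

theorem gj13_not_in {s : ℝ} (hs : 0 < s) {q r : ℕ} {c : ℤ × ℤ} (hc : c ∈ cells q r) {z : ℂ}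
    (hz : z ∈ cell s c) : z ∉ sqr (q * s) := by
  intro h
  obtain ⟨h1, h2, h3, h4⟩ := hz
  obtain ⟨g1, g2, g3, g4⟩ := h
  unfold cells at hc
  rw [Finset.mem_sdiff] at hc
  apply hc.2
  rw [Finset.mem_product, Finset.mem_Ico, Finset.mem_Ico]
  have k1 : (-(q : ℤ)) ≤ c.1 := by
    apply gj13_int_aux hs (x := z.re) _ h2
    push_cast
    linarith
  have k2 : c.1 ≤ (q : ℤ) - 1 := by
    apply gj13_int_aux hs (x := z.re) h1
    push_cast
    linarith
  have k3 : (-(q : ℤ)) ≤ c.2 := by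
    apply gj13_int_aux hs (x := z.im) _ h4
    push_cast
    linarith
  have k4 : c.2 ≤ (q : ℤ) - 1 := by
    apply gj13_int_aux hs (x := z.im) h3
    push_cast
    linarith
  exact ⟨⟨k1, by omega⟩, ⟨k3, by omega⟩⟩

theorem gj13_mem_sqr {s : ℝ} (hs : 0 < s) {q r : ℕ} {c : ℤ × ℤ} (hc : c ∈ cells q r) {z : ℂ}
    (hz : z ∈ cell s c) : z ∈ sqr (r * s) := by
  obtain ⟨h1, h2, h3, h4⟩ := hz
  unfold cells at hc
  rw [Finset.mem_sdiff, Finset.mem_product, Finset.mem_Ico, Finset.mem_Ico] at hc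
  obtain ⟨⟨⟨k1, k2⟩, ⟨k3, k4⟩⟩, -⟩ := hc
  have k1' : (-(r : ℝ)) ≤ (c.1 : ℝ) := by exact_mod_cast k1
  have k2' : (c.1 : ℝ) + 1 ≤ (r : ℝ) := by exact_mod_cast k2
  have k3' : (-(r : ℝ)) ≤ (c.2 : ℝ) := by exact_mod_cast k3
  have k4' : (c.2 : ℝ) + 1 ≤ (r : ℝ) := by exact_mod_cast k4
  have m1 := mul_le_mul_of_nonneg_right k1' hs.le
  have m2 := mul_le_mul_of_nonneg_right k2' hs.le
  have m3 := mul_le_mul_of_nonneg_right k3' hs.le
  have m4 := mul_le_mul_of_nonneg_right k4' hs.le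
  exact ⟨by linarith, by linarith, by linarith, by linarith⟩

/-- continuous at zero, in metric form -/
theorem gj13_small (a : ℂ ≃ₜ ℂ) (h0 : a 0 = 0) (e : ℝ) (he : 0 < e) :
    ∃ d > 0, ∀ x, ‖x‖ < d → ‖a x‖ < e := by
  have h1 : ContinuousAt a 0 := a.continuous.continuousAt
  rw [Metric.continuousAt_iff] at h1
  obtain ⟨d, hd, h2⟩ := h1 e he
  refine ⟨d, hd, fun x hx => ?_⟩
  have h3 := h2 (x := x) (by rw [dist_zero_right]; exact hx)
  rw [h0, dist_zero_right] at h3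
  exact h3

theorem gj13_bdd (a : ℂ ≃ₜ ℂ) (K : ℝ) : ∃ B > 0, ∀ x, ‖x‖ ≤ K → ‖a x‖ < B := by
  have h1 : IsCompact (a '' Metric.closedBall 0 K) :=
    (isCompact_closedBall (0 : ℂ) K).image a.continuous
  obtain ⟨B, hB⟩ := h1.isBounded.exists_norm_le
  refine ⟨max B 0 + 1, by positivity, fun x hx => ?_⟩
  have h2 : a x ∈ a '' Metric.closedBall 0 K :=
    ⟨x, by rw [mem_closedBall_zero_iff]; exact hx, rfl⟩
  have h3 := hB _ h2
  have h4 := le_max_left B 0
  linarith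

theorem gj13_unif (a : ℂ ≃ₜ ℂ) (K e : ℝ) (he : 0 < e) : ∃ d > 0, ∀ x y, ‖x‖ ≤ K → ‖y‖ ≤ K →
    ‖x - y‖ < d → ‖a x - a y‖ < e := by
  have h1 : UniformContinuousOn a (Metric.closedBall 0 K) :=
    (isCompact_closedBall (0 : ℂ) K).uniformContinuousOn_of_continuous a.continuous.continuousOn
  rw [Metric.uniformContinuousOn_iff] at h1
  obtain ⟨d, hd, h2⟩ := h1 e he
  refine ⟨d, hd, fun x y hx hy hxy => ?_⟩
  have h3 := h2 x (by rw [mem_closedBall_zero_iff]; exact hx) y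
    (by rw [mem_closedBall_zero_iff]; exact hy) (by rw [dist_eq_norm]; exact hxy)
  rw [dist_eq_norm] at h3
  exact h3

theorem gj13_im_le {z : ℂ} {c : ℝ} (h : ‖Ec z‖ ≤ Real.exp (2 * Real.pi * c)) : z.im ≤ c := by
  rw [gj13_norm_Ec, Real.exp_le_exp] at h
  have hp : 0 < 2 * Real.pi := by positivity
  exact le_of_mul_le_mul_left h hp

theorem gj13_le_im {z : ℂ} {c : ℝ} (h : Real.exp (2 * Real.pi * c) ≤ ‖Ec z‖) : c ≤ z.im := by
  rw [gj13_norm_Ec, Real.exp_le_exp] at h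
  have hp : 0 < 2 * Real.pi := by positivity
  exact le_of_mul_le_mul_left h hp

theorem single_modif (F : ℂ ≃ₜ ℂ) (hF : CoverArea F) (c1 : ℝ) :
    ∃ μ₀ > 0, ∀ μ : ℝ, 0 < μ → μ ≤ μ₀ → ∃ cn : ℝ, cn ≤ c1 - 1 ∧ ∀ yf ε : ℝ, c1 ≤ yf → 0 < ε →
      ∃ R₀ : ℕ, ∀ R ≥ R₀, ∃ q₀ : ℕ, ∀ q ≥ q₀, ∀ p : ℤ × ℤ → ℂ,
        (∀ c ∈ cells q (R * q), Ec (p c) ∈ interior (cell (μ / q) c)) →
        ∃ κ : ℂ ≃ₜ ℂ, Pert κ cn c1 yf ε ∧ ∃ π : ℤ × ℤ → ℤ × ℤ,
          Set.BijOn π (cells q (R * q)) (cells q (R * q)) ∧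
          ∀ c ∈ cells q (R * q), ∃ l : ℤ, κ (F (p c)) = p (π c) + l := by
  obtain ⟨hF1, a, ha, ha0, hEa⟩ := hF
  set E1 : ℝ := Real.exp (2 * Real.pi * (c1 - 1)) with hE1
  have hE1pos : 0 < E1 := Real.exp_pos _
  obtain ⟨d0, hd0, hd0'⟩ := gj13_small a ha0 (E1 / 2) (by positivity)
  refine ⟨min (E1 / 4) (d0 / 4), by positivity, fun μ hμ hμ0 => ?_⟩
  have hμ1 : 4 * μ ≤ E1 := by
    have := _root_.le_trans hμ0 (min_le_left _ _)
    linarith
  have hμ2 : 2 * μ < d0 := by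
    have := _root_.le_trans hμ0 (min_le_right _ _)
    linarith
  have hsm : ∀ x ∈ sqr μ, ‖a x‖ ≤ E1 / 2 := fun x hx =>
    (hd0' x (lt_of_le_of_lt (gj13_sqr_le hx) hμ2)).le
  obtain ⟨ρ, hρ, hρ'⟩ := gj13_small a.symm (by rw [← ha0, a.symm_apply_apply, ha0]) μ hμ
  have hρ2 : ∀ x, μ ≤ ‖x‖ → ρ ≤ ‖a x‖ := by
    intro x hx
    by_contra hcon
    rw [not_le] at hcon
    have h1 := hρ' _ hcon
    rw [a.symm_apply_apply] at h1
    linarith
  refine ⟨min (c1 - 1) (Real.log (min μ ρ) / (2 * Real.pi)), min_le_left _ _,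
    fun yf ε hyf hε => ?_⟩
  set cn : ℝ := min (c1 - 1) (Real.log (min μ ρ) / (2 * Real.pi)) with hcn
  have hcn1 : Real.exp (2 * Real.pi * cn) ≤ min μ ρ := by
    have hm : 0 < min μ ρ := lt_min hμ hρ
    have hp : 0 < 2 * Real.pi := by positivity
    rw [← Real.le_log_iff_exp_le hm]
    have h1 : cn ≤ Real.log (min μ ρ) / (2 * Real.pi) := min_le_right _ _
    rw [le_div_iff₀ hp] at h1
    linarith
  set K : ℝ := Real.exp (2 * Real.pi * (yf + 1)) + 1 with hK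
  obtain ⟨B1, hB1, hB1'⟩ := gj13_bdd a (2 * μ)
  obtain ⟨B2, hB2, hB2'⟩ := gj13_bdd a.symm (2 * μ)
  obtain ⟨K', hK', hK''⟩ := gj13_bdd a.symm K
  obtain ⟨R₀, hR₀⟩ := exists_nat_gt (2 + (B1 + B2 + K + K') / μ)
  have hKpos : 0 < K := by positivity
  refine ⟨R₀, fun R hR => ?_⟩
  have hRR : (2 : ℝ) + (B1 + B2 + K + K') / μ < R := by
    have h1 : (R₀ : ℝ) ≤ R := by exact_mod_cast hR
    linarith
  have hRμ : 2 * μ + (B1 + B2 + K + K') < R * μ := by
    have h1 := mul_lt_mul_of_pos_right hRR hμ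
    have h2 : (2 + (B1 + B2 + K + K') / μ) * μ = 2 * μ + (B1 + B2 + K + K') := by
      field_simp
    linarith
  have hR1 : 1 < R := by
    have h1 : 0 < (B1 + B2 + K + K') / μ := by positivity
    have h2 : (1 : ℝ) < R := by linarith
    exact_mod_cast h2
  -- smallness
  obtain ⟨δ, hδ, hδ'⟩ := exists_near_lift ρ (min (ε / 4) (1 / 8)) hρ (by positivity)
  set η : ℝ := min (δ / 2) (min (E1 / 2) 1) with hη
  have hηpos : 0 < η := by positivity
  have hη1 : η ≤ δ / 2 := min_le_left _ _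
  have hη2 : η ≤ E1 / 2 := _root_.le_trans (min_le_right _ _) (min_le_left _ _)
  have hη3 : η ≤ 1 := _root_.le_trans (min_le_right _ _) (min_le_right _ _)
  obtain ⟨d, hd, hd'⟩ := gj13_unif a (2 * (R * μ)) η hηpos
  obtain ⟨q₀, hq₀⟩ := exists_nat_gt (2 * μ / d + 2 * μ / η + 1)
  refine ⟨q₀, fun q hq p hp => ?_⟩
  have hqr : 2 * μ / d + 2 * μ / η + 1 < q := by
    have h1 : (q₀ : ℝ) ≤ q := by exact_mod_cast hq
    linarith
  have h2d : 0 < 2 * μ / d := by positivity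
  have h2η : 0 < 2 * μ / η := by positivity
  have hq0' : (0 : ℝ) < q := by linarith
  have hq0 : 0 < q := by exact_mod_cast hq0'
  set s : ℝ := μ / q with hs
  have hspos : 0 < s := by positivity
  have hqs : (q : ℝ) * s = μ := by
    rw [hs]
    field_simp
  have hrs : ((R * q : ℕ) : ℝ) * s = R * μ := by
    push_cast
    rw [mul_assoc, hqs]
  have hsd : 2 * s < d := by
    rw [hs]
    have h1 : 2 * μ / d < q := by linarith
    rw [div_lt_iff₀ hd] at h1
    rw [show 2 * (μ / q) = 2 * μ / q by ring, div_lt_iff₀ hq0']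
    linarith
  have hsη : 2 * s ≤ η := by
    rw [hs]
    have h1 : 2 * μ / η < q := by linarith
    rw [div_lt_iff₀ hηpos] at h1
    rw [show 2 * (μ / q) = 2 * μ / q by ring, div_le_iff₀ hq0']
    linarith
  have hM : a '' sqr (q * s) ⊆ sqr ((R * q : ℕ) * s) := by
    rw [hqs, hrs]
    rintro _ ⟨x, hx, rfl⟩
    by_contra hcon
    have h1 := gj13_not_sqr hcon
    have h2 := hB1' x (gj13_sqr_le hx)
    linarith
  have hM' : sqr (q * s) ⊆ a '' sqr ((R * q : ℕ) * s) := by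
    rw [hqs, hrs]
    intro x hx
    refine ⟨a.symm x, ?_, a.apply_symm_apply x⟩
    by_contra hcon
    have h1 := gj13_not_sqr hcon
    have h2 := hB2' x (gj13_sqr_le hx)
    linarith
  obtain ⟨π, hπ, hπ'⟩ := hall_match a ha s hspos q (R * q) hq0 (by nlinarith) hM hM'
  rw [hqs, hrs] at hπ'
  have hx : ∀ c ∈ cells q (R * q), Ec (p c) ∈ cell s c := fun c hc => interior_subset (hp c hc)
  have hxnorm : ∀ c ∈ cells q (R * q), ∀ z ∈ cell s c, μ ≤ ‖z‖ := by
    intro c hc z hz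
    have h1 := gj13_not_in hspos hc hz
    rw [hqs] at h1
    exact gj13_not_sqr h1
  have hxnorm2 : ∀ c ∈ cells q (R * q), ∀ z ∈ cell s c, ‖z‖ ≤ 2 * (R * μ) := by
    intro c hc z hz
    have h1 := gj13_mem_sqr hspos hc hz
    rw [hrs] at h1
    exact gj13_sqr_le h1
  have hclose : ∀ c ∈ cells q (R * q), ∀ z ∈ cell s c, ‖a z - a (Ec (p c))‖ < η := by
    intro c hc z hz
    apply hd' _ _ (hxnorm2 c hc z hz) (hxnorm2 c hc _ (hx c hc))
    exact lt_of_le_of_lt (gj13_diam hz (hx c hc)) hsd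
  -- the targets
  have hQ : ∀ c ∈ cells q (R * q), ∃ Q : ℂ, Ec Q = Ec (p (π c)) ∧
      (‖Q - F (p c)‖ ≤ ε / 4 ∧ ‖Q - F (p c)‖ ≤ 1 / 8 ∨
      (|(Q - F (p c)).re| ≤ 1 / 2 ∧ cn ≤ (F (p c)).im ∧ cn ≤ Q.im ∧ (F (p c)).im ≤ c1 - 1 ∧
        Q.im ≤ c1 - 1) ∨
      (yf + 1 ≤ (F (p c)).im ∧ yf + 1 ≤ Q.im)) := by
    intro c hc
    have hπc : π c ∈ cells q (R * q) := hπ.mapsTo hc
    have hEP : Ec (F (p c)) = a (Ec (p c)) := hEa _
    rcases hπ' c hc with ⟨x, hx1, hx2⟩ | ⟨⟨x, hx1, hx2⟩, ⟨x', hx1', hx2'⟩⟩ |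
      ⟨⟨x, hx1, hx2⟩, ⟨x', hx1', hx2'⟩⟩
    · have h1 := hclose c hc x hx1
      have h2 := gj13_diam (hx _ hπc) hx2
      obtain ⟨Q, hQ1, hQ2⟩ := hδ' (F (p c)) (Ec (p (π c)))
        (by rw [hEP]; exact hρ2 _ (hxnorm c hc _ (hx c hc)))
        (by
          rw [hEP]
          calc ‖Ec (p (π c)) - a (Ec (p c))‖
              = ‖(Ec (p (π c)) - a x) + (a x - a (Ec (p c)))‖ := by congr 1; ring
            _ ≤ ‖Ec (p (π c)) - a x‖ + ‖a x - a (Ec (p c))‖ := norm_add_le _ _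
            _ ≤ δ := by linarith)
      exact ⟨Q, hQ1, Or.inl ⟨_root_.le_trans hQ2 (min_le_left _ _), _root_.le_trans hQ2 (min_le_right _ _)⟩⟩
    · obtain ⟨Q, hQ1, hQ2, -⟩ := exists_half_lift (F (p c)) (Ec (p (π c))) (gj13_Ec_ne _)
      refine ⟨Q, hQ1, Or.inr (Or.inl ⟨hQ2, ?_, ?_, ?_, ?_⟩)⟩
      · apply gj13_le_im
        rw [hEP]
        exact _root_.le_trans hcn1 (_root_.le_trans (min_le_right _ _) (hρ2 _ (hxnorm c hc _ (hx c hc))))
      · apply gj13_le_im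
        rw [hQ1]
        exact _root_.le_trans hcn1 (_root_.le_trans (min_le_left _ _) (hxnorm _ hπc _ (hx _ hπc)))
      · apply gj13_im_le
        rw [hEP, ← hE1]
        have h1 := hclose c hc x hx1
        have h2 : ‖a x‖ ≤ 2 * μ := gj13_sqr_le hx2
        have h3 : ‖a (Ec (p c))‖ ≤ ‖a x‖ + ‖a x - a (Ec (p c))‖ := by
          calc ‖a (Ec (p c))‖ = ‖a x - (a x - a (Ec (p c)))‖ := by congr 1; ring
            _ ≤ _ := norm_sub_le _ _
        linarith
      · apply gj13_im_le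
        rw [hQ1, ← hE1]
        have h1 := gj13_diam (hx _ hπc) hx2'
        have h2 := hsm x' hx1'
        have h3 : ‖Ec (p (π c))‖ ≤ ‖Ec (p (π c)) - a x'‖ + ‖a x'‖ := by
          calc ‖Ec (p (π c))‖ = ‖(Ec (p (π c)) - a x') + a x'‖ := by congr 1; ring
            _ ≤ _ := norm_add_le _ _
        linarith
    · obtain ⟨Q, hQ1, hQ2, -⟩ := exists_half_lift (F (p c)) (Ec (p (π c))) (gj13_Ec_ne _)
      refine ⟨Q, hQ1, Or.inr (Or.inr ⟨?_, ?_⟩)⟩
      · apply gj13_le_im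
        rw [hEP]
        have h1 := hclose c hc x hx1
        have h2 := gj13_not_sqr hx2
        have h3 : ‖a x‖ ≤ ‖a (Ec (p c))‖ + ‖a x - a (Ec (p c))‖ := by
          calc ‖a x‖ = ‖a (Ec (p c)) + (a x - a (Ec (p c)))‖ := by congr 1; ring
            _ ≤ _ := norm_add_le _ _
        linarith
      · apply gj13_le_im
        rw [hQ1]
        have h1 := gj13_diam hx2' (hx _ hπc)
        have h2 := gj13_not_sqr hx1'
        have h3 : K < ‖a x'‖ := by
          by_contra hcon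
          rw [not_lt] at hcon
          have h4 := hK'' _ hcon
          rw [a.symm_apply_apply] at h4
          linarith
        have h5 : ‖a x'‖ ≤ ‖Ec (p (π c))‖ + ‖a x' - Ec (p (π c))‖ := by
          calc ‖a x'‖ = ‖Ec (p (π c)) + (a x' - Ec (p (π c)))‖ := by congr 1; ring
            _ ≤ _ := norm_add_le _ _
        linarith
  choose! Q hQ1 hQ2 using hQ
  have hFadd : ∀ (z : ℂ) (k : ℤ), F (z + k) = F z + k := by
    intro z k
    have h1 : ∀ z : ℂ, F (z + ((1 : ℝ) : ℂ)) = F z + ((1 : ℝ) : ℂ) := hF1.1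
    have h2 : ∀ (n : ℕ) (z : ℂ), F (z + n) = F z + n := by
      intro n
      induction n with
      | zero => intro z; simp
      | succ m ih =>
        intro z
        have h3 := h1 (z + m)
        rw [ih] at h3
        push_cast at h3 ⊢
        rw [← add_assoc, h3, add_assoc]
    rcases Int.eq_nat_or_neg k with ⟨n, rfl | rfl⟩
    · exact_mod_cast h2 n z
    · have h3 := h2 n (z + ((-(n : ℤ) : ℤ) : ℂ))
      push_cast at h3 ⊢
      rw [neg_add_cancel_right] at h3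
      rw [h3]
      ring
  obtain ⟨κ, hκ1, hκ2⟩ := three_push (I := {c // c ∈ cells q (R * q)})
    (fun i => F (p i.1)) (fun i => Q i.1) cn c1 yf ε hε (min_le_left _ _) hyf
    (by
      rintro ⟨i, hi⟩ ⟨j, hj⟩ k hijk hcon
      have h1 : F (p i) = F (p j + k) := by
        rw [hFadd]
        linear_combination hcon
      have h2 : p i = p j + k := F.injective h1
      have h3 : Ec (p i) = Ec (p j) := by rw [h2, gj13_Ec_add_int]
      have h4 : i = j := by
        apply gj13_cell_inj hspos (hx i hi)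
        rw [h3]
        exact hx j hj
      subst h4
      have h5 : (k : ℂ) = 0 := by linear_combination -h2
      have h6 : k = 0 := by exact_mod_cast h5
      rcases hijk with h | h
      · exact h rfl
      · exact h h6)
    (by
      rintro ⟨i, hi⟩ ⟨j, hj⟩ k hijk hcon
      have h2 : Q i = Q j + k := by linear_combination hcon
      have h3 : Ec (p (π i)) = Ec (p (π j)) := by
        rw [← hQ1 i hi, ← hQ1 j hj, h2, gj13_Ec_add_int]
      have hπi : π i ∈ cells q (R * q) := hπ.mapsTo hi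
      have hπj : π j ∈ cells q (R * q) := hπ.mapsTo hj
      have h4 : π i = π j := by
        apply gj13_cell_inj hspos (hx _ hπi)
        rw [h3]
        exact hx _ hπj
      have h4' : i = j := hπ.injOn hi hj h4
      subst h4'
      have h5 : (k : ℂ) = 0 := by linear_combination -h2
      have h6 : k = 0 := by exact_mod_cast h5
      rcases hijk with h | h
      · exact h rfl
      · exact h h6)
    (fun i => hQ2 i.1 i.2)
  refine ⟨κ, hκ1, π, hπ, fun c hc => ?_⟩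
  have h1 := hκ2 ⟨c, hc⟩
  obtain ⟨k, hk⟩ := gj13_Ec_eq (hQ1 c hc)
  exact ⟨k, by rw [h1, hk]⟩

theorem gj14_mem_cells (q r : ℕ) (c : ℤ × ℤ) : c ∈ cells q r ↔
    ((-(r : ℤ) ≤ c.1 ∧ c.1 < r) ∧ (-(r : ℤ) ≤ c.2 ∧ c.2 < r)) ∧
      ¬ ((-(q : ℤ) ≤ c.1 ∧ c.1 < q) ∧ (-(q : ℤ) ≤ c.2 ∧ c.2 < q)) := by
  unfold cells
  simp only [Finset.mem_sdiff, Finset.mem_product, Finset.mem_Ico]

theorem gj14_card_box (m : ℕ) :
    (Finset.Ico (-(m : ℤ)) m ×ˢ Finset.Ico (-(m : ℤ)) m).card = 4 * m ^ 2 := by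
  rw [Finset.card_product, Int.card_Ico]
  have : ((m : ℤ) - -(m : ℤ)).toNat = 2 * m := by omega
  rw [this]
  ring

/-- upper bound for the number of small cells -/
theorem gj14_upper (s rE : ℝ) (hs : 0 < s) (I : Finset (ℤ × ℤ)) (x : ℤ × ℤ → ℂ)
    (hx : ∀ c ∈ I, x c ∈ cell s c) (m : ℕ) (hm : rE / s + 1 ≤ m) :
    (I.filter fun c => ‖x c‖ < rE).card ≤ 4 * m ^ 2 := by
  rw [← gj14_card_box m]
  apply Finset.card_le_card
  intro c hc
  rw [Finset.mem_filter] at hc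
  obtain ⟨h1, h2⟩ := hc
  obtain ⟨a1, a2, a3, a4⟩ := hx c h1
  have hre := abs_lt.1 ((Complex.abs_re_le_norm (x c)).trans_lt h2)
  have him := abs_lt.1 ((Complex.abs_im_le_norm (x c)).trans_lt h2)
  have hm' : rE + s ≤ m * s := by
    have := mul_le_mul_of_nonneg_right hm hs.le
    rw [add_mul, div_mul_cancel₀ _ hs.ne', one_mul] at this
    exact this
  have key : ∀ t : ℤ, ∀ y : ℝ, t * s ≤ y → y < (t + 1) * s → -rE < y → y < rE →
      -(m : ℤ) ≤ t ∧ t < m := by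
    intro t y b1 b2 b3 b4
    constructor
    · have h5 : (-(m : ℝ)) * s < ((t : ℝ)) * s := by
        nlinarith
      have h6 : (-(m : ℝ)) < (t : ℝ) := lt_of_mul_lt_mul_right h5 hs.le
      have h7 : (-(m : ℤ)) < t := by exact_mod_cast h6
      omega
    · have h5 : (t : ℝ) * s < (m : ℝ) * s := by
        nlinarith
      have h6 : (t : ℝ) < (m : ℝ) := lt_of_mul_lt_mul_right h5 hs.le
      exact_mod_cast h6
  rw [Finset.mem_product, Finset.mem_Ico, Finset.mem_Ico]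
  exact ⟨key c.1 _ a1 a2 hre.1 hre.2, key c.2 _ a3 a4 him.1 him.2⟩

/-- lower bound for the number of cells in a disc -/
theorem gj14_lower (s rS : ℝ) (hs : 0 < s) (hS : 0 < rS) (q r M : ℕ) (x : ℤ × ℤ → ℂ)
    (hx : ∀ c ∈ cells q r, x c ∈ cell s c) (hM : M * s ≤ rS / 3) (hMr : M ≤ r) :
    4 * M ^ 2 ≤ ((cells q r).filter fun c => ‖x c‖ < rS).card + 4 * q ^ 2 := by
  rw [← gj14_card_box M, ← gj14_card_box q]
  have h1 : (Finset.Ico (-(M : ℤ)) M ×ˢ Finset.Ico (-(M : ℤ)) M) ⊆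
      ((cells q r).filter fun c => ‖x c‖ < rS) ∪
        (Finset.Ico (-(q : ℤ)) q ×ˢ Finset.Ico (-(q : ℤ)) q) := by
    intro c hc
    rw [Finset.mem_product, Finset.mem_Ico, Finset.mem_Ico] at hc
    rw [Finset.mem_union]
    by_cases hq : c ∈ (Finset.Ico (-(q : ℤ)) q ×ˢ Finset.Ico (-(q : ℤ)) q)
    · exact Or.inr hq
    · left
      have hcc : c ∈ cells q r := by
        unfold cells
        rw [Finset.mem_sdiff]
        refine ⟨?_, hq⟩
        rw [Finset.mem_product, Finset.mem_Ico, Finset.mem_Ico]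
        omega
      rw [Finset.mem_filter]
      refine ⟨hcc, ?_⟩
      obtain ⟨a1, a2, a3, a4⟩ := hx c hcc
      obtain ⟨⟨b1, b2⟩, b3, b4⟩ := hc
      have key : ∀ t : ℤ, ∀ y : ℝ, t * s ≤ y → y < (t + 1) * s → -(M : ℤ) ≤ t → t < M →
          |y| ≤ rS / 3 := by
        intro t y d1 d2 d3 d4
        have e1 : (-(M : ℝ)) ≤ t := by exact_mod_cast d3
        have e2 : (t : ℝ) + 1 ≤ M := by exact_mod_cast d4
        rw [abs_le]
        constructor
        · have := mul_le_mul_of_nonneg_right e1 hs.le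
          linarith
        · have := mul_le_mul_of_nonneg_right e2 hs.le
          linarith
      have k1 := key c.1 _ a1 a2 b1 b2
      have k2 := key c.2 _ a3 a4 b3 b4
      have := Complex.norm_le_abs_re_add_abs_im (x c)
      linarith
  exact (Finset.card_le_card h1).trans (Finset.card_union_le _ _)

/-- counting cells -/
theorem counts (μ rE : ℝ) (hμ : 0 < μ) (hE : 10 * μ ≤ rE) (k : ℕ) :
    ∃ rS : ℝ, Real.exp (2 * Real.pi) * rE ≤ rS ∧ ∃ R₀ : ℕ, ∀ R ≥ R₀, ∃ q₀ : ℕ, ∀ q ≥ q₀,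
      ∀ x : ℤ × ℤ → ℂ, (∀ c ∈ cells q (R * q), x c ∈ interior (cell (μ / q) c)) →
        2 ≤ ((cells q (R * q)).filter fun c => ‖x c‖ < rE).card ∧
        ((cells q (R * q)).filter fun c => ‖x c‖ < rE).card <
          ((cells q (R * q)).filter fun c => ‖x c‖ < rS).card ∧
        ((cells q (R * q)).filter fun c => ‖x c‖ < rS).card + 2 ≤ (cells q (R * q)).card ∧
        3 * k * ((cells q (R * q)).filter fun c => ‖x c‖ < rE).card ≤
          ((cells q (R * q)).filter fun c => ‖x c‖ < rS).card := by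
  have hrE : 0 < rE := by linarith
  set rS : ℝ := (Real.exp (2 * Real.pi) + 1000) * ((k : ℝ) + 1) * rE with hrS
  have hexp : 0 < Real.exp (2 * Real.pi) := Real.exp_pos _
  have hk0 : (0 : ℝ) ≤ (k : ℝ) := Nat.cast_nonneg k
  have hS1 : Real.exp (2 * Real.pi) * rE ≤ rS := by
    rw [hrS]
    apply mul_le_mul_of_nonneg_right _ hrE.le
    nlinarith
  have hS2 : 1000 * ((k : ℝ) + 1) * rE ≤ rS := by
    rw [hrS]
    apply mul_le_mul_of_nonneg_right _ hrE.le
    nlinarith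
  have hS3 : rE ≤ rS := by nlinarith
  have hS0 : 0 < rS := by linarith
  refine ⟨rS, hS1, ⌈rS / μ⌉₊ + 3, fun R hR => ⟨1, fun q hq x hx' => ?_⟩⟩
  have hq1 : 1 ≤ q := hq
  have hq' : (1 : ℝ) ≤ q := by exact_mod_cast hq1
  have hq0 : (0 : ℝ) < q := by linarith
  set s : ℝ := μ / q with hs
  have hs0 : 0 < s := div_pos hμ hq0
  have hsq : s * q = μ := by rw [hs]; field_simp
  have hsμ : s ≤ μ := by nlinarith
  have hx : ∀ c ∈ cells q (R * q), x c ∈ cell s c := fun c hc => interior_subset (hx' c hc)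
  have hR3 : 3 ≤ R := by omega
  have hRr : rS / μ + 3 ≤ R := by
    have h1 : rS / μ ≤ (⌈rS / μ⌉₊ : ℝ) := Nat.le_ceil _
    have h2 : ((⌈rS / μ⌉₊ : ℝ)) + 3 ≤ R := by exact_mod_cast hR
    linarith
  have hRμ : rS + 3 * μ ≤ R * μ := by
    have := mul_le_mul_of_nonneg_right hRr hμ.le
    rw [add_mul, div_mul_cancel₀ _ hμ.ne'] at this
    linarith
  have hRq : 3 * q ≤ R * q := Nat.mul_le_mul_right q hR3
  set r : ℕ := R * q with hr
  have hrr : (r : ℝ) * s = R * μ := by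
    rw [hr]
    push_cast
    rw [mul_assoc, mul_comm (q : ℝ) s, hsq]
  -- (1) two small cells
  have h2E : 2 ≤ ((cells q r).filter fun c => ‖x c‖ < rE).card := by
    have hsub : ({((q : ℤ), (0 : ℤ)), ((q : ℤ) + 1, (0 : ℤ))} : Finset (ℤ × ℤ)) ⊆
        (cells q r).filter fun c => ‖x c‖ < rE := by
      intro c hc
      have hc' : ∃ t : ℤ, (t = q ∨ t = q + 1) ∧ c = (t, 0) := by
        rw [Finset.mem_insert, Finset.mem_singleton] at hc
        rcases hc with rfl | rfl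
        · exact ⟨_, Or.inl rfl, rfl⟩
        · exact ⟨_, Or.inr rfl, rfl⟩
      obtain ⟨t, ht, rfl⟩ := hc'
      have hmem : ((t, 0) : ℤ × ℤ) ∈ cells q r := by
        rw [gj14_mem_cells]
        simp only
        omega
      rw [Finset.mem_filter]
      refine ⟨hmem, ?_⟩
      obtain ⟨a1, a2, a3, a4⟩ := hx _ hmem
      simp only at a1 a2 a3 a4
      have ht1 : (q : ℝ) ≤ t := by
        have : (q : ℤ) ≤ t := by omega
        exact_mod_cast this
      have ht2 : (t : ℝ) ≤ q + 1 := by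
        have : t ≤ (q : ℤ) + 1 := by omega
        exact_mod_cast this
      have hre : |(x (t, 0)).re| ≤ 3 * μ := by
        rw [abs_le]
        constructor
        · have : 0 ≤ (t : ℝ) * s := mul_nonneg (by linarith) hs0.le
          linarith
        · have := mul_le_mul_of_nonneg_right ht2 hs0.le
          nlinarith
      have him : |(x (t, 0)).im| ≤ μ := by
        rw [abs_le]
        push_cast at a3 a4
        constructor
        · linarith
        · linarith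
      have := Complex.norm_le_abs_re_add_abs_im (x (t, 0))
      linarith
    have hcard : ({((q : ℤ), (0 : ℤ)), ((q : ℤ) + 1, (0 : ℤ))} : Finset (ℤ × ℤ)).card = 2 := by
      apply Finset.card_pair
      intro h
      have := congrArg Prod.fst h
      simp at this
    calc 2 = _ := hcard.symm
      _ ≤ _ := Finset.card_le_card hsub
  -- (3) two large cells
  have h3 : ((cells q r).filter fun c => ‖x c‖ < rS).card + 2 ≤ (cells q r).card := by
    have hmemL : ∀ t : ℤ, (t = 0 ∨ t = 1) → (((r : ℤ) - 1, t) : ℤ × ℤ) ∈ cells q r := by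
      intro t ht
      rw [gj14_mem_cells]
      simp only
      omega
    have hsub : ({((r : ℤ) - 1, (0 : ℤ)), ((r : ℤ) - 1, (1 : ℤ))} : Finset (ℤ × ℤ)) ⊆
        (cells q r).filter fun c => ¬ ‖x c‖ < rS := by
      intro c hc
      have hc' : ∃ t : ℤ, (t = 0 ∨ t = 1) ∧ c = ((r : ℤ) - 1, t) := by
        rw [Finset.mem_insert, Finset.mem_singleton] at hc
        rcases hc with rfl | rfl
        · exact ⟨_, Or.inl rfl, rfl⟩
        · exact ⟨_, Or.inr rfl, rfl⟩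
      obtain ⟨t, ht, rfl⟩ := hc'
      have hmem := hmemL t ht
      rw [Finset.mem_filter]
      refine ⟨hmem, ?_⟩
      obtain ⟨a1, -, -, -⟩ := hx _ hmem
      simp only at a1
      push_cast at a1
      have h5 : rS ≤ (x ((r : ℤ) - 1, t)).re := by
        have : ((r : ℝ) - 1) * s = R * μ - s := by
          rw [sub_mul, hrr, one_mul]
        rw [this] at a1
        linarith
      have := (le_abs_self _).trans (Complex.abs_re_le_norm (x ((r : ℤ) - 1, t)))
      rw [not_lt]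
      linarith
    have hcard : ({((r : ℤ) - 1, (0 : ℤ)), ((r : ℤ) - 1, (1 : ℤ))} : Finset (ℤ × ℤ)).card = 2 := by
      apply Finset.card_pair
      intro h
      have := congrArg Prod.snd h
      simp at this
    have h4 : 2 ≤ ((cells q r).filter fun c => ¬ ‖x c‖ < rS).card := by
      calc 2 = _ := hcard.symm
        _ ≤ _ := Finset.card_le_card hsub
    have h5 := Finset.card_filter_add_card_filter_not (s := cells q r) (fun c => ‖x c‖ < rS)
    omega
  -- (4) the ratio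
  have hmain : 3 * (k + 1) * ((cells q r).filter fun c => ‖x c‖ < rE).card ≤
      ((cells q r).filter fun c => ‖x c‖ < rS).card := by
    set u : ℝ := rE / s with hu
    have hus : u * s = rE := by rw [hu]; exact div_mul_cancel₀ _ hs0.ne'
    have hu10 : 10 * q ≤ u := by
      rw [hu, le_div_iff₀ hs0]
      nlinarith
    set m : ℕ := ⌈u + 1⌉₊ with hm
    have hm1 : u + 1 ≤ m := Nat.le_ceil _
    have hm2 : (m : ℝ) ≤ 2 * u := by
      have := Nat.ceil_lt_add_one (show 0 ≤ u + 1 by linarith)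
      rw [← hm] at this
      linarith
    set M : ℕ := ⌊rS / (3 * s)⌋₊ with hMdef
    have hM1 : (M : ℝ) ≤ rS / (3 * s) := Nat.floor_le (by positivity)
    have hM2 : rS / (3 * s) < M + 1 := Nat.lt_floor_add_one _
    have hMs : M * s ≤ rS / 3 := by
      have := mul_le_mul_of_nonneg_right hM1 hs0.le
      have e : rS / (3 * s) * s = rS / 3 := by
        field_simp
      linarith
    have hMr : M ≤ r := by
      have h1 : (M : ℝ) * s ≤ r * s := by
        rw [hrr]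
        linarith
      have h2 : (M : ℝ) ≤ r := le_of_mul_le_mul_right h1 hs0
      exact_mod_cast h2
    have hup := gj14_upper s rE hs0 (cells q r) x hx m hm1
    have hlo := gj14_lower s rS hs0 hS0 q r M x hx hMs hMr
    have hM3 : 300 * ((k : ℝ) + 1) * u ≤ M := by
      have h1 : 1000 * ((k : ℝ) + 1) * u / 3 ≤ rS / (3 * s) := by
        rw [le_div_iff₀ (by positivity)]
        have : 1000 * ((k : ℝ) + 1) * u / 3 * (3 * s) = 1000 * ((k : ℝ) + 1) * (u * s) := by ring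
        rw [this, hus]
        exact hS2
      have h2 : 10 ≤ u := by linarith
      have h3 : 1 ≤ ((k : ℝ) + 1) * u := by nlinarith
      nlinarith
    have hfin : 3 * ((k : ℝ) + 1) * (m : ℝ) ^ 2 + (q : ℝ) ^ 2 ≤ (M : ℝ) ^ 2 := by
      have hu0 : 0 < u := by linarith
      have h1 : (m : ℝ) ^ 2 ≤ 4 * u ^ 2 := by
        have hm0 : (0 : ℝ) ≤ m := Nat.cast_nonneg m
        nlinarith
      have h2 : (q : ℝ) ^ 2 ≤ u ^ 2 := by
        have : (q : ℝ) ≤ u := by linarith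
        exact pow_le_pow_left₀ hq0.le this 2
      have h3 : (300 * ((k : ℝ) + 1) * u) ^ 2 ≤ (M : ℝ) ^ 2 :=
        pow_le_pow_left₀ (by positivity) hM3 2
      have h4 : 0 < u ^ 2 := by positivity
      have h5 : 3 * ((k : ℝ) + 1) * (m : ℝ) ^ 2 ≤ 3 * ((k : ℝ) + 1) * (4 * u ^ 2) :=
        mul_le_mul_of_nonneg_left h1 (by positivity)
      have h6 : (300 * ((k : ℝ) + 1) * u) ^ 2 = 90000 * ((k : ℝ) + 1) ^ 2 * u ^ 2 := by ring
      have h7 : 3 * ((k : ℝ) + 1) * (4 * u ^ 2) + u ^ 2 ≤ 90000 * ((k : ℝ) + 1) ^ 2 * u ^ 2 := by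
        have h8 : 12 * ((k : ℝ) + 1) + 1 ≤ 90000 * ((k : ℝ) + 1) ^ 2 := by nlinarith
        calc 3 * ((k : ℝ) + 1) * (4 * u ^ 2) + u ^ 2 = (12 * ((k : ℝ) + 1) + 1) * u ^ 2 := by ring
          _ ≤ _ := mul_le_mul_of_nonneg_right h8 h4.le
      linarith
    have hfin' : 3 * (k + 1) * m ^ 2 + q ^ 2 ≤ M ^ 2 := by exact_mod_cast hfin
    have h9 : 3 * (k + 1) * ((cells q r).filter fun c => ‖x c‖ < rE).card ≤
        3 * (k + 1) * (4 * m ^ 2) := Nat.mul_le_mul_left _ hup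
    have h10 : 3 * (k + 1) * (4 * m ^ 2) = 4 * (3 * (k + 1) * m ^ 2) := by ring
    omega
  refine ⟨h2E, ?_, h3, ?_⟩
  · have h6 : 3 * (k + 1) * ((cells q r).filter fun c => ‖x c‖ < rE).card =
        3 * k * ((cells q r).filter fun c => ‖x c‖ < rE).card +
          3 * ((cells q r).filter fun c => ‖x c‖ < rE).card := by ring
    omega
  · have h6 : 3 * (k + 1) * ((cells q r).filter fun c => ‖x c‖ < rE).card =
        3 * k * ((cells q r).filter fun c => ‖x c‖ < rE).card +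
          3 * ((cells q r).filter fun c => ‖x c‖ < rE).card := by ring
    omega

/-- obstacles in the strip generated by finitely many points -/
def XT {n : ℕ} (P : Fin n → ℂ) : Set ℂ := {z | ∃ i, ∃ l : ℤ, z = P i + l}

theorem gj15_pertO_mono {κ : ℂ → ℂ} {cn cn' c1 yf yf' ε : ℝ} (h : PertO κ cn c1 yf ε)
    (hc : cn' ≤ cn) (hy : yf' ≤ yf) : PertO κ cn' c1 yf' ε where
  re_le := fun z hz => h.re_le z (hz.trans hy)
  lo := fun z => by
    refine _root_.le_trans ?_ (h.lo z)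
    have := min_le_min_left z.im hc
    linarith
  hi := fun z hz => h.hi z (hz.trans hy)
  close := fun z hz hz' => h.close z hz (hz'.trans hy)

theorem gj15_pert_mono {κ : ℂ ≃ₜ ℂ} {cn cn' c1 yf yf' ε : ℝ} (h : Pert κ cn c1 yf ε)
    (hc : cn' ≤ cn) (hy : yf' ≤ yf) : Pert κ cn' c1 yf' ε :=
  ⟨h.mem, gj15_pertO_mono h.out hc hy, gj15_pertO_mono h.inv hc hy⟩

/-- the list version of `single_modif` -/
theorem gj15_list (Fs : List (ℂ ≃ₜ ℂ)) (hF : ∀ F ∈ Fs, CoverArea F) (c1 : ℝ) :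
    ∃ μ₀ > 0, ∀ μ : ℝ, 0 < μ → μ ≤ μ₀ → ∃ cn : ℝ, cn ≤ c1 - 1 ∧ ∀ yf ε : ℝ, c1 ≤ yf → 0 < ε →
      ∃ R₀ : ℕ, ∀ R ≥ R₀, ∃ q₀ : ℕ, ∀ q ≥ q₀, ∀ p : ℤ × ℤ → ℂ,
        (∀ c ∈ cells q (R * q), Ec (p c) ∈ interior (cell (μ / q) c)) →
        ∀ F ∈ Fs, ∃ κ : ℂ ≃ₜ ℂ, Pert κ cn c1 yf ε ∧ ∃ π : ℤ × ℤ → ℤ × ℤ,
          Set.BijOn π (cells q (R * q)) (cells q (R * q)) ∧
          ∀ c ∈ cells q (R * q), ∃ l : ℤ, κ (F (p c)) = p (π c) + l := by
  induction Fs with
  | nil =>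
    refine ⟨1, one_pos, fun μ _ _ => ⟨c1 - 1, le_rfl, fun yf ε _ _ => ⟨0, fun R _ => ⟨0,
      fun q _ p _ F hF => ?_⟩⟩⟩⟩
    simp at hF
  | cons F₀ Fs ih =>
    obtain ⟨μ₁, hμ₁, h1⟩ := single_modif F₀ (hF F₀ (by simp)) c1
    obtain ⟨μ₂, hμ₂, h2⟩ := ih (fun F h => hF F (by simp [h]))
    refine ⟨min μ₁ μ₂, lt_min hμ₁ hμ₂, fun μ hμ hμle => ?_⟩
    obtain ⟨cn₁, hcn₁, h1⟩ := h1 μ hμ (hμle.trans (min_le_left _ _))
    obtain ⟨cn₂, hcn₂, h2⟩ := h2 μ hμ (hμle.trans (min_le_right _ _))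
    refine ⟨min cn₁ cn₂, (min_le_left _ _).trans hcn₁, fun yf ε hyf hε => ?_⟩
    obtain ⟨R₁, h1⟩ := h1 yf ε hyf hε
    obtain ⟨R₂, h2⟩ := h2 yf ε hyf hε
    refine ⟨max R₁ R₂, fun R hR => ?_⟩
    obtain ⟨q₁, h1⟩ := h1 R ((le_max_left _ _).trans hR)
    obtain ⟨q₂, h2⟩ := h2 R ((le_max_right _ _).trans hR)
    refine ⟨max q₁ q₂, fun q hq p hp F hFm => ?_⟩
    rcases List.mem_cons.1 hFm with rfl | hFm
    · obtain ⟨κ, hκ, h3⟩ := h1 q ((le_max_left _ _).trans hq) p hp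
      exact ⟨κ, gj15_pert_mono hκ (min_le_left _ _) le_rfl, h3⟩
    · obtain ⟨κ, hκ, h3⟩ := h2 q ((le_max_right _ _).trans hq) p hp F hFm
      exact ⟨κ, gj15_pert_mono hκ (min_le_right _ _) le_rfl, h3⟩

/-- lifts with real part in `(0,1)` -/
theorem gj15_lift (v : ℂ) (hv : v.im ≠ 0) : ∃ Q : ℂ, Ec Q = v ∧ 0 < Q.re ∧ Q.re < 1 ∧
    Q.im = Real.log ‖v‖ / (2 * Real.pi) := by
  have hv0 : v ≠ 0 := by
    rintro rfl
    exact hv rfl
  obtain ⟨Q, h1, h2, h3⟩ := exists_half_lift (1 / 2 : ℝ) v hv0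
  rw [Complex.sub_re, Complex.ofReal_re, abs_le] at h2
  have key : ∀ m : ℤ, Q.re ≠ m := by
    intro m hm
    apply hv
    rw [← h1]
    unfold Ec
    have e : -(2 * (Real.pi : ℂ) * I * Q) =
        ((2 * Real.pi * Q.im : ℝ) : ℂ) + ((-m : ℤ) : ℂ) * (2 * Real.pi * I) := by
      have : Q = (m : ℂ) + Q.im * I := by
        apply Complex.ext
        · simp [hm]
        · simp
      rw [this]
      simp only [Complex.add_im, Complex.mul_im, Complex.ofReal_re, Complex.ofReal_im, Complex.I_re,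
        Complex.I_im, Complex.intCast_im]
      push_cast
      linear_combination (-2 * (Real.pi : ℂ) * Q.im) * Complex.I_sq
    rw [e, Complex.exp_add, Complex.exp_int_mul_two_pi_mul_I, mul_one, ← Complex.ofReal_exp,
      Complex.ofReal_im]
  have k0 := key 0
  have k1 := key 1
  push_cast at k0 k1
  refine ⟨Q, h1, lt_of_le_of_ne (by linarith) (Ne.symm k0), lt_of_le_of_ne (by linarith) k1, h3⟩

theorem gj15_per {g : ℂ ≃ₜ ℂ} (hg : g ∈ SH 1) (l : ℤ) (z : ℂ) : g (z + l) = g z + l := by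
  have h1 : ∀ z : ℂ, g (z + 1) = g z + 1 := by
    intro z
    have := hg.1 z
    simpa using this
  induction l using Int.induction_on with
  | zero => simp
  | succ i ih =>
    have e : z + ((i + 1 : ℤ) : ℂ) = (z + ((i : ℤ) : ℂ)) + 1 := by
      push_cast
      ring
    rw [e, h1, ih]
    push_cast
    ring
  | pred i ih =>
    have e : (z + ((-i - 1 : ℤ) : ℂ)) + 1 = z + ((-i : ℤ) : ℂ) := by
      push_cast
      ring
    have h2 := h1 (z + ((-i - 1 : ℤ) : ℂ))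
    rw [e, ih] at h2
    have h3 : g (z + ((-i - 1 : ℤ) : ℂ)) = g z + ((-i : ℤ) : ℂ) - 1 := by
      rw [h2]
      ring
    rw [h3]
    push_cast
    ring

theorem gj15_norm {μ : ℝ} (hμ : 0 < μ) {q r : ℕ} (hq : 0 < q) {c : ℤ × ℤ} (hc : c ∈ cells q r)
    {x : ℂ} (hx : x ∈ interior (cell (μ / q) c)) : μ ≤ ‖x‖ := by
  obtain ⟨h1, h2, h3, h4⟩ := interior_subset hx
  have hq' : (0 : ℝ) < q := by exact_mod_cast hq
  have hs : 0 < μ / q := div_pos hμ hq'
  have hqs : (q : ℝ) * (μ / q) = μ := by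
    field_simp
  unfold cells at hc
  rw [Finset.mem_sdiff, Finset.mem_product, Finset.mem_Ico, Finset.mem_Ico] at hc
  have hc' := hc.2
  rw [Finset.mem_product, Finset.mem_Ico, Finset.mem_Ico] at hc'
  have hre := Complex.abs_re_le_norm x
  have him := Complex.abs_im_le_norm x
  by_cases a1 : (q : ℤ) ≤ c.1
  · have : (q : ℝ) ≤ c.1 := by exact_mod_cast a1
    have := mul_le_mul_of_nonneg_right this hs.le
    have := le_abs_self x.re
    linarith
  by_cases a2 : c.1 + 1 ≤ -(q : ℤ)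
  · have : ((c.1 : ℝ) + 1) ≤ -(q : ℝ) := by exact_mod_cast a2
    have := mul_le_mul_of_nonneg_right this hs.le
    have := neg_abs_le x.re
    linarith
  by_cases a3 : (q : ℤ) ≤ c.2
  · have : (q : ℝ) ≤ c.2 := by exact_mod_cast a3
    have := mul_le_mul_of_nonneg_right this hs.le
    have := le_abs_self x.im
    linarith
  by_cases a4 : c.2 + 1 ≤ -(q : ℤ)
  · have : ((c.2 : ℝ) + 1) ≤ -(q : ℝ) := by exact_mod_cast a4
    have := mul_le_mul_of_nonneg_right this hs.le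
    have := neg_abs_le x.im
    linarith
  exfalso
  apply hc'
  omega

theorem gj15_count {n : ℕ} (f : Fin n → ℝ) (hf : StrictMono f) (r : ℝ) (i : Fin n) :
    f i < r ↔ (i : ℕ) < (Finset.univ.filter fun j => f j < r).card := by
  constructor
  · intro h
    have h1 : Finset.Iic i ⊆ Finset.univ.filter fun j => f j < r := by
      intro j hj
      rw [Finset.mem_Iic] at hj
      rw [Finset.mem_filter]
      exact ⟨Finset.mem_univ _, (hf.monotone hj).trans_lt h⟩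
    have h2 := Finset.card_le_card h1
    rw [Fin.card_Iic] at h2
    omega
  · intro h
    by_contra hcon
    push Not at hcon
    have h1 : (Finset.univ.filter fun j => f j < r) ⊆ Finset.Iio i := by
      intro j hj
      rw [Finset.mem_filter] at hj
      rw [Finset.mem_Iio]
      by_contra hji
      push Not at hji
      have := hf.monotone hji
      linarith [hj.2]
    have h2 := Finset.card_le_card h1
    rw [Fin.card_Iio] at h2
    omega

/-- sorting a finite set by an injective real function -/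
theorem gj15_sort {α : Type} (C : Finset α) (f : α → ℝ)
    (hf : ∀ c ∈ C, ∀ c' ∈ C, f c = f c' → c = c') :
    ∃ e : Fin C.card → α, (∀ i, e i ∈ C) ∧ (∀ c ∈ C, ∃ i, e i = c) ∧
      StrictMono (fun i => f (e i)) ∧
      ∀ (r : ℝ) (i : Fin C.card), f (e i) < r ↔ (i : ℕ) < (C.filter fun c => f c < r).card := by
  have hinj : Set.InjOn f C := fun c hc c' hc' h => hf c hc c' hc' h
  have hcard : (C.image f).card = C.card := Finset.card_image_of_injOn hinj
  set φ := (C.image f).orderEmbOfFin hcard with hφ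
  have hmem : ∀ i, ∃ c ∈ C, f c = φ i := by
    intro i
    have := Finset.orderEmbOfFin_mem (C.image f) hcard i
    rwa [Finset.mem_image] at this
  choose e heC hef using hmem
  have hmono : StrictMono (fun i => f (e i)) := by
    intro i j hij
    show f (e i) < f (e j)
    rw [hef, hef]
    exact φ.strictMono hij
  have heinj : Function.Injective e := by
    intro i j hij
    apply hmono.injective
    show f (e i) = f (e j)
    rw [hij]
  have himg : Finset.univ.image e = C := by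
    apply Finset.eq_of_subset_of_card_le
    · intro c hc
      rw [Finset.mem_image] at hc
      obtain ⟨i, -, rfl⟩ := hc
      exact heC i
    · rw [Finset.card_image_of_injective _ heinj, Finset.card_univ, Fintype.card_fin]
  refine ⟨e, heC, ?_, hmono, ?_⟩
  · intro c hc
    rw [← himg, Finset.mem_image] at hc
    obtain ⟨i, -, hi⟩ := hc
    exact ⟨i, hi⟩
  · intro r i
    rw [gj15_count (fun i => f (e i)) hmono r i]
    have h1 : C.filter (fun c => f c < r) =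
        (Finset.univ.filter fun j => f (e j) < r).image e := by
      have h2 : (Finset.univ.image e).filter (fun c => f c < r) =
        (Finset.univ.filter fun j => f (e j) < r).image e := Finset.filter_image
      rw [← h2]
      congr 1
      exact himg.symm
    rw [h1, Finset.card_image_of_injective _ heinj]

theorem gj15_log_lt {v : ℝ} (hv : 0 < v) (y : ℝ) : Real.log v / (2 * Real.pi) < y ↔
    v < Real.exp (2 * Real.pi * y) := by
  rw [div_lt_iff₀ (by positivity), ← Real.log_lt_iff_lt_exp hv, mul_comm y]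

theorem gj15_log_eq {v : ℝ} (hv : 0 < v) (y : ℝ) (h : Real.log v / (2 * Real.pi) = y) :
    v = Real.exp (2 * Real.pi * y) := by
  rw [← h]
  have : 2 * Real.pi * (Real.log v / (2 * Real.pi)) = Real.log v := by
    have := Real.pi_pos
    field_simp
  rw [this, Real.exp_log hv]

theorem modif (Fs : List (ℂ ≃ₜ ℂ)) (hF : ∀ F ∈ Fs, CoverArea F) (c1 : ℝ) :
    ∃ cn yd : ℝ, ∀ (k : ℕ) (yE : ℝ), c1 ≤ yE → ∃ yS : ℝ, yE + 1 ≤ yS ∧ ∀ (yf ε : ℝ), 0 < ε →
      ∃ (n nE B : ℕ) (P : Fin n → ℂ), StrictMono (fun i => (P i).im) ∧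
        (∀ i, 0 < (P i).re ∧ (P i).re < 1) ∧ (∀ i, yd < (P i).im) ∧
        (∀ i, (P i).im ≠ yE ∧ (P i).im ≠ yS) ∧
        (∀ i, (P i).im < yE ↔ (i : ℕ) < nE) ∧ (∀ i, (P i).im < yS ↔ (i : ℕ) < B) ∧
        2 ≤ nE ∧ nE < B ∧ B + 2 ≤ n ∧ 3 * k * nE ≤ B ∧
        ∀ F ∈ Fs, ∃ κ : ℂ ≃ₜ ℂ, Pert κ cn c1 yf ε ∧ ∀ z, κ (F z) ∈ XT P ↔ z ∈ XT P := by
  have hpi : 0 < 2 * Real.pi := by positivity
  obtain ⟨μ₀, hμ₀, h0⟩ := gj15_list Fs hF c1
  set μ : ℝ := min μ₀ (Real.exp (2 * Real.pi * c1) / 10) with hμdef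
  have hμ : 0 < μ := lt_min hμ₀ (by positivity)
  obtain ⟨cn, hcn, h1⟩ := h0 μ hμ (min_le_left _ _)
  refine ⟨cn, Real.log (μ / 2) / (2 * Real.pi), fun k yE hyE => ?_⟩
  set rE : ℝ := Real.exp (2 * Real.pi * yE) with hrE
  have hE : 10 * μ ≤ rE := by
    have h2 : μ ≤ Real.exp (2 * Real.pi * c1) / 10 := min_le_right _ _
    have h3 : Real.exp (2 * Real.pi * c1) ≤ rE := Real.exp_le_exp.2 (by gcongr)
    linarith
  obtain ⟨rS, hrS, R₁, h2⟩ := counts μ rE hμ hE k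
  have hrEpos : 0 < rE := Real.exp_pos _
  have hrSpos : 0 < rS := lt_of_lt_of_le (by positivity) hrS
  set yS : ℝ := Real.log rS / (2 * Real.pi) with hyS
  have hrS' : Real.exp (2 * Real.pi * yS) = rS := (gj15_log_eq hrSpos yS rfl).symm
  refine ⟨yS, ?_, fun yf ε hε => ?_⟩
  · rw [hyS, le_div_iff₀ hpi, Real.le_log_iff_exp_le hrSpos]
    refine _root_.le_trans (le_of_eq ?_) hrS
    rw [hrE, ← Real.exp_add]
    congr 1
    ring
  · obtain ⟨R₂, h3⟩ := h1 (max yf c1) ε (le_max_right _ _) hε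
    obtain ⟨q₁, h4⟩ := h2 (max R₁ R₂) (le_max_left _ _)
    obtain ⟨q₂, h5⟩ := h3 (max R₁ R₂) (le_max_right _ _)
    set R := max R₁ R₂ with hR
    set q := max (max q₁ q₂) 1 with hq
    have hq1 : q₁ ≤ q := (le_max_left _ _).trans (le_max_left _ _)
    have hq2 : q₂ ≤ q := (le_max_right _ _).trans (le_max_left _ _)
    have hq0 : 0 < q := lt_of_lt_of_le one_pos (le_max_right _ _)
    have hq' : (0 : ℝ) < q := by exact_mod_cast hq0
    obtain ⟨x, hx1, hx2, hx3, hx4⟩ := generic_points (μ / q) (div_pos hμ hq') (cells q (R * q))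
      {rE, rS}
    set C := cells q (R * q) with hC
    obtain ⟨c1', c2', c3', c4'⟩ := h4 q hq1 x hx1
    have hlift : ∀ c : ℤ × ℤ, ∃ Q : ℂ, c ∈ C → Ec Q = x c ∧ 0 < Q.re ∧ Q.re < 1 ∧
        Q.im = Real.log ‖x c‖ / (2 * Real.pi) := by
      intro c
      by_cases hc : c ∈ C
      · obtain ⟨Q, hQ⟩ := gj15_lift (x c) (hx2 c hc)
        exact ⟨Q, fun _ => hQ⟩
      · exact ⟨0, fun h => absurd h hc⟩
    choose p hp using hlift
    have hnorm : ∀ c ∈ C, μ ≤ ‖x c‖ := fun c hc => gj15_norm hμ hq0 hc (hx1 c hc)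
    have hpos : ∀ c ∈ C, 0 < ‖x c‖ := fun c hc => hμ.trans_le (hnorm c hc)
    obtain ⟨e, he1, he2, he3, he4⟩ := gj15_sort C (fun c => ‖x c‖) hx3
    refine ⟨C.card, (C.filter fun c => ‖x c‖ < rE).card, (C.filter fun c => ‖x c‖ < rS).card,
      fun i => p (e i), ?_, ?_, ?_, ?_, ?_, ?_, c1', c2', c3', c4', ?_⟩
    · intro i j hij
      show (p (e i)).im < (p (e j)).im
      rw [(hp _ (he1 i)).2.2.2, (hp _ (he1 j)).2.2.2]
      apply div_lt_div_of_pos_right _ hpi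
      exact Real.log_lt_log (hpos _ (he1 i)) (he3 hij)
    · intro i
      exact ⟨(hp _ (he1 i)).2.1, (hp _ (he1 i)).2.2.1⟩
    · intro i
      show _ < (p (e i)).im
      rw [(hp _ (he1 i)).2.2.2]
      apply div_lt_div_of_pos_right _ hpi
      apply Real.log_lt_log (by positivity)
      have := hnorm _ (he1 i)
      linarith
    · intro i
      have h6 := hx4 _ (he1 i)
      rw [Finset.mem_insert, Finset.mem_singleton, not_or] at h6
      constructor
      · intro h7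
        have h7' : (p (e i)).im = yE := h7
        rw [(hp _ (he1 i)).2.2.2] at h7'
        exact h6.1 (gj15_log_eq (hpos _ (he1 i)) yE h7')
      · intro h7
        have h7' : (p (e i)).im = yS := h7
        rw [(hp _ (he1 i)).2.2.2] at h7'
        exact h6.2 ((gj15_log_eq (hpos _ (he1 i)) yS h7').trans hrS')
    · intro i
      rw [← he4 rE i]
      show (p (e i)).im < yE ↔ _
      rw [(hp _ (he1 i)).2.2.2, gj15_log_lt (hpos _ (he1 i))]
    · intro i
      rw [← he4 rS i]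
      show (p (e i)).im < yS ↔ _
      rw [(hp _ (he1 i)).2.2.2, gj15_log_lt (hpos _ (he1 i)), hrS']
    · intro F hFm
      obtain ⟨κ, hκ, π, hπ, h6⟩ := h5 q hq2 p
        (fun c hc => by rw [(hp c hc).1]; exact hx1 c hc) F hFm
      refine ⟨κ, gj15_pert_mono hκ le_rfl (le_max_left _ _), fun z => ?_⟩
      have hFS : F ∈ SH 1 := (hF F hFm).1
      have hκS : κ ∈ SH 1 := hκ.mem
      constructor
      · rintro ⟨i, l, hl⟩
        obtain ⟨c, hc, hc'⟩ := hπ.surjOn (he1 i)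
        have hcC : c ∈ C := hc
        obtain ⟨l', hl'⟩ := h6 c hcC
        obtain ⟨j, hj⟩ := he2 c hcC
        refine ⟨j, l - l', ?_⟩
        apply F.injective
        apply κ.injective
        show κ (F z) = κ (F (p (e j) + ((l - l' : ℤ) : ℂ)))
        rw [gj15_per hFS, gj15_per hκS, hj, hl', hc', hl]
        push_cast
        ring
      · rintro ⟨i, l, rfl⟩
        obtain ⟨l', hl'⟩ := h6 (e i) (he1 i)
        obtain ⟨j, hj⟩ := he2 (π (e i)) (hπ.mapsTo (he1 i))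
        refine ⟨j, l' + l, ?_⟩
        show κ (F (p (e i) + (l : ℂ))) = p (e j) + ((l' + l : ℤ) : ℂ)
        rw [gj15_per hFS, gj15_per hκS, hj, hl']
        push_cast
        ring

end

end MWC
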