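import Pool.Agent.Lib.MP_cbfcf7.G1

/-!
# Block G, part 3: normalisation of the obstacles, twists, final geometric statement
-/

namespace MWC

noncomputable section

open scoped Classical
open Complex MeasureTheory

/-- `g` maps the vertical line over `i` to a path with crossing word `w` -/
def CrossWord (g : ℂ → ℂ) (i : ℤ) (w : G) : Prop :=
  ∃ (r : ℕ) (t : ℕ → ℝ) (s : ℕ → Bool) (j : ℕ → ℤ),
    (∀ l < r, t l < t (l + 1)) ∧
    (∀ u ≤ t 0, (g (i + u * I)).im < 0) ∧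
    (∀ u, t r ≤ u → 0 < (g (i + u * I)).im) ∧
    (∀ l ≤ r, if s l then 0 < (g (i + t l * I)).im else (g (i + t l * I)).im < 0) ∧
    (∀ l < r, ∀ u, t l ≤ u → u ≤ t (l + 1) → (g (i + u * I)).im = 0 →
      |(g (i + u * I)).re - j l| < 1 / 2) ∧
    w = ((List.range r).map fun l => crossC (j l) (s l) (s (l + 1))).prod

/-- the projective reparametrisation of `[0,1]` -/
def gj16_L (E s : ℝ) : ℝ := s * E / (1 - s + s * E)

theorem gj16_den {E s : ℝ} (hE : 0 < E) (h0 : 0 ≤ s) (h1 : s ≤ 1) : 0 < 1 - s + s * E := by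
  rcases eq_or_lt_of_le h0 with h | h
  · rw [← h]; norm_num
  · have := mul_pos h hE
    linarith

theorem gj16_nonneg {E s : ℝ} (hE : 0 < E) (h0 : 0 ≤ s) (h1 : s ≤ 1) : 0 ≤ gj16_L E s :=
  div_nonneg (mul_nonneg h0 hE.le) (gj16_den hE h0 h1).le

theorem gj16_lt_one {E s : ℝ} (hE : 0 < E) (h0 : 0 ≤ s) (h1 : s < 1) : gj16_L E s < 1 := by
  unfold gj16_L
  rw [div_lt_one (gj16_den hE h0 h1.le)]
  linarith

theorem gj16_mono {E s s' : ℝ} (hE : 0 < E) (h0 : 0 ≤ s) (h : s < s') (h1 : s' ≤ 1) :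
    gj16_L E s < gj16_L E s' := by
  unfold gj16_L
  rw [div_lt_div_iff₀ (gj16_den hE h0 (h.le.trans h1)) (gj16_den hE (h0.trans h.le) h1)]
  nlinarith [mul_pos (sub_pos.2 h) hE]

theorem gj16_inv {E F s : ℝ} (hE : 0 < E) (hEF : E * F = 1) (h0 : 0 ≤ s) (h1 : s ≤ 1) :
    gj16_L F (gj16_L E s) = s := by
  have hd := gj16_den hE h0 h1
  have hF : F = E⁻¹ := by
    field_simp
    linarith
  unfold gj16_L
  rw [hF]
  have h2 : 1 - s * E / (1 - s + s * E) + s * E / (1 - s + s * E) * E⁻¹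
      = 1 / (1 - s + s * E) := by
    field_simp
    ring
  rw [h2]
  field_simp

theorem gj16_zero (E : ℝ) : gj16_L E 0 = 0 := by
  unfold gj16_L
  simp

theorem gj16_one {E : ℝ} (hE : 0 < E) : gj16_L E 1 = 1 := by
  unfold gj16_L
  rw [sub_self, zero_add, one_mul, div_self hE.ne']

/-- the map of the line -/
def gj16_f (E x : ℝ) : ℝ := x + (gj16_L E (Int.fract x) - Int.fract x)

theorem gj16_f_eq (E x : ℝ) : gj16_f E x = ⌊x⌋ + gj16_L E (Int.fract x) := by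
  unfold gj16_f
  have := Int.self_sub_fract x
  linarith

theorem gj16_fract_f {E : ℝ} (hE : 0 < E) (x : ℝ) :
    Int.fract (gj16_f E x) = gj16_L E (Int.fract x) := by
  rw [gj16_f_eq, Int.fract_intCast_add, Int.fract_eq_self]
  exact ⟨gj16_nonneg hE (Int.fract_nonneg x) (Int.fract_lt_one x).le,
    gj16_lt_one hE (Int.fract_nonneg x) (Int.fract_lt_one x)⟩

theorem gj16_f_inv {E F : ℝ} (hE : 0 < E) (hEF : E * F = 1) (x : ℝ) :
    gj16_f F (gj16_f E x) = x := by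
  have h1 := gj16_fract_f hE x
  have h2 := gj16_inv hE hEF (Int.fract_nonneg x) (Int.fract_lt_one x).le
  have h3 : gj16_f F (gj16_f E x) = gj16_f E x + (gj16_L F (Int.fract (gj16_f E x))
      - Int.fract (gj16_f E x)) := rfl
  rw [h3, h1, h2]
  unfold gj16_f
  ring

theorem gj16_f_mono {E : ℝ} (hE : 0 < E) {x y : ℝ} (h : x < y) : gj16_f E x < gj16_f E y := by
  rw [gj16_f_eq, gj16_f_eq]
  have a1 := Int.fract_nonneg x
  have a2 := Int.fract_lt_one x
  have a3 := Int.fract_nonneg y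
  have a4 := Int.fract_lt_one y
  rcases eq_or_lt_of_le (Int.floor_mono h.le) with hf | hf
  · rw [hf]
    have : Int.fract x < Int.fract y := by
      have b1 := Int.self_sub_floor x
      have b2 := Int.self_sub_floor y
      rw [← b1, ← b2, hf]
      linarith
    linarith [gj16_mono hE a1 this a4.le]
  · have b1 : ((⌊x⌋ : ℤ) : ℝ) + 1 ≤ (⌊y⌋ : ℤ) := by exact_mod_cast hf
    linarith [gj16_lt_one hE a1 a2, gj16_nonneg hE a3 a4.le]

theorem gj16_f_add_one (E x : ℝ) : gj16_f E (x + 1) = gj16_f E x + 1 := by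
  unfold gj16_f
  rw [Int.fract_add_one]
  ring

theorem gj16_cont (t : ℝ → ℝ) (ht : Continuous t) :
    Continuous fun z : ℂ => gj16_f (Real.exp (t z.im)) z.re := by
  have hc : Continuous fun q : ℂ × ℝ => Real.exp (t q.1.im) :=
    Real.continuous_exp.comp (ht.comp (continuous_im.comp continuous_fst))
  have h0 : ContinuousOn (Function.uncurry fun (z : ℂ) (s : ℝ) =>
      gj16_L (Real.exp (t z.im)) s - s) (Set.univ ×ˢ Set.Icc 0 1) := by
    apply ContinuousOn.sub _ continuousOn_snd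
    unfold gj16_L
    apply ContinuousOn.div
    · exact (continuous_snd.mul hc).continuousOn
    · exact ((continuous_const.sub continuous_snd).add (continuous_snd.mul hc)).continuousOn
    · rintro ⟨z, s⟩ ⟨_, hs⟩
      exact (gj16_den (Real.exp_pos _) hs.1 hs.2).ne'
  have h2 : ∀ z : ℂ, (fun (z : ℂ) (s : ℝ) => gj16_L (Real.exp (t z.im)) s - s) z 0
      = (fun (z : ℂ) (s : ℝ) => gj16_L (Real.exp (t z.im)) s - s) z 1 := by
    intro z
    show gj16_L (Real.exp (t z.im)) 0 - 0 = gj16_L (Real.exp (t z.im)) 1 - 1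
    rw [gj16_zero, gj16_one (Real.exp_pos _)]
    norm_num
  have h1 := ContinuousOn.comp_fract (s := fun z : ℂ => z.re) h0 continuous_re h2
  exact continuous_re.add h1

theorem gj16_mk_cont {u : ℂ → ℝ} (hu : Continuous u) : Continuous fun z : ℂ => (⟨u z, z.im⟩ : ℂ) := by
  have h : (fun z : ℂ => (⟨u z, z.im⟩ : ℂ)) = fun z : ℂ => (u z : ℂ) + (z.im : ℂ) * I := by
    funext z
    apply Complex.ext <;> simp
  rw [h]
  exact (continuous_ofReal.comp hu).add ((continuous_ofReal.comp continuous_im).mul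
    continuous_const)

/-- the homeomorphism -/
def gj16_X (t : ℝ → ℝ) (ht : Continuous t) : ℂ ≃ₜ ℂ where
  toFun z := ⟨gj16_f (Real.exp (t z.im)) z.re, z.im⟩
  invFun z := ⟨gj16_f (Real.exp (-t z.im)) z.re, z.im⟩
  left_inv z := by
    apply Complex.ext
    · exact gj16_f_inv (Real.exp_pos _) (by rw [← Real.exp_add, add_neg_cancel, Real.exp_zero]) _
    · rfl
  right_inv z := by
    apply Complex.ext
    · exact gj16_f_inv (Real.exp_pos _) (by rw [← Real.exp_add, neg_add_cancel, Real.exp_zero]) _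
    · rfl
  continuous_toFun := gj16_mk_cont (gj16_cont t ht)
  continuous_invFun := gj16_mk_cont (gj16_cont (fun y => -t y) ht.neg)

/-- horizontal reparametrisation moving the obstacles to the prescribed angles -/
theorem exists_chi {n : ℕ} (P : Fin n → ℂ) (hP : StrictMono fun i => (P i).im)
    (hP2 : ∀ i, 0 < (P i).re ∧ (P i).re < 1) :
    ∃ X : ℂ ≃ₜ ℂ, (∀ z, (X z).im = z.im) ∧ (∀ z, X (z + 1) = X z + 1) ∧
      (∀ z w : ℂ, z.im = w.im → z.re < w.re → (X z).re < (X w).re) ∧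
      (∀ z : ℂ, z.re = 0 → (X z).re = 0) ∧
      ∀ i : Fin n, (X (P i)).re = ((i : ℝ) + 1 / 2) / n := by
  set x1 : Fin n → ℝ := fun i => ((i : ℝ) + 1 / 2) / n with hx1
  set EE : Fin n → ℝ := fun i => x1 i * (1 - (P i).re) / ((P i).re * (1 - x1 i)) with hEE
  set q := Lagrange.interpolate Finset.univ (fun i => (P i).im) (fun i => Real.log (EE i)) with hq
  have hqv : ∀ i, q.eval (P i).im = Real.log (EE i) := by
    intro i
    exact Lagrange.eval_interpolate_at_node _ (hP.injective.injOn) (Finset.mem_univ i)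
  refine ⟨gj16_X (fun y => q.eval y) q.continuous, fun z => rfl, ?_, ?_, ?_, ?_⟩
  · intro z
    apply Complex.ext
    · show gj16_f (Real.exp (q.eval (z + 1).im)) (z + 1).re
        = (gj16_X (fun y => q.eval y) q.continuous z + 1).re
      rw [add_im, one_im, add_zero, add_re, one_re, add_re, one_re, gj16_f_add_one]
      rfl
    · show (z + 1).im = (gj16_X (fun y => q.eval y) q.continuous z + 1).im
      rw [add_im, add_im]
      rfl
  · intro z w h1 h2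
    show gj16_f (Real.exp (q.eval z.im)) z.re < gj16_f (Real.exp (q.eval w.im)) w.re
    rw [h1]
    exact gj16_f_mono (Real.exp_pos _) h2
  · intro z hz
    show gj16_f (Real.exp (q.eval z.im)) z.re = 0
    rw [hz]
    unfold gj16_f
    rw [Int.fract_zero, gj16_zero]
    norm_num
  · intro i
    show gj16_f (Real.exp (q.eval (P i).im)) (P i).re = x1 i
    have hn : (0 : ℝ) < n := by
      have := i.pos
      exact_mod_cast this
    have hi : ((i : ℕ) : ℝ) + 1 ≤ n := by exact_mod_cast i.isLt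
    have hi0 : (0 : ℝ) ≤ (i : ℕ) := Nat.cast_nonneg _
    have b0 : 0 < x1 i := by
      simp only [hx1]
      positivity
    have b1 : x1 i < 1 := by
      simp only [hx1]
      rw [div_lt_one hn]
      linarith
    obtain ⟨c0, c1⟩ := hP2 i
    have hE0 : 0 < EE i := by
      simp only [hEE]
      exact div_pos (mul_pos b0 (by linarith)) (mul_pos c0 (by linarith))
    rw [hqv, Real.exp_log hE0, gj16_f_eq, Int.fract_eq_self.2 ⟨c0.le, c1⟩,
      Int.floor_eq_zero_iff.2 ⟨c0.le, c1⟩]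
    unfold gj16_L
    simp only [hEE]
    have d1 : (1 - x1 i) ≠ 0 := by linarith
    have d2 : (1 - (P i).re) ≠ 0 := by linarith
    have d3 : (P i).re ≠ 0 := c0.ne'
    have e1 : (P i).re * (x1 i * (1 - (P i).re) / ((P i).re * (1 - x1 i)))
        = x1 i * (1 - (P i).re) / (1 - x1 i) := by
      field_simp
    have e2 : 1 - (P i).re + x1 i * (1 - (P i).re) / (1 - x1 i) = (1 - (P i).re) / (1 - x1 i) := by
      field_simp
      ring
    rw [e1, e2]
    push_cast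
    rw [zero_add]
    field_simp

/-- squared sine vanishing exactly at `j + 1/2` modulo `n` -/
def gj17_S (n : ℕ) (j : Fin n) (x : ℝ) : ℝ := Real.sin (Real.pi * (x - (j : ℝ) - 1 / 2) / n) ^ 2

/-- the weights -/
def gj17_w (n : ℕ) (i : Fin n) (x : ℝ) : ℝ := ∏ j ∈ Finset.univ.erase i, gj17_S n j x

theorem gj17_S_cont (n : ℕ) (j : Fin n) : Continuous (gj17_S n j) := by
  unfold gj17_S
  fun_prop

theorem gj17_w_cont (n : ℕ) (i : Fin n) : Continuous (gj17_w n i) := by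
  unfold gj17_w
  exact continuous_finsetProd _ fun j _ => gj17_S_cont n j

theorem gj17_S_nonneg (n : ℕ) (j : Fin n) (x : ℝ) : 0 ≤ gj17_S n j x := sq_nonneg _

theorem gj17_w_nonneg (n : ℕ) (i : Fin n) (x : ℝ) : 0 ≤ gj17_w n i x :=
  Finset.prod_nonneg fun j _ => gj17_S_nonneg n j x

theorem gj17_S_per {n : ℕ} (hn : 0 < n) (j : Fin n) (x : ℝ) :
    gj17_S n j (x + n) = gj17_S n j x := by
  have hn' : (n : ℝ) ≠ 0 := by exact_mod_cast hn.ne'
  unfold gj17_S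
  have e : Real.pi * (x + n - (j : ℝ) - 1 / 2) / n =
      Real.pi * (x - (j : ℝ) - 1 / 2) / n + Real.pi := by
    field_simp
    ring
  rw [e, Real.sin_add_pi, neg_sq]

theorem gj17_w_per {n : ℕ} (hn : 0 < n) (i : Fin n) (x : ℝ) :
    gj17_w n i (x + n) = gj17_w n i x :=
  Finset.prod_congr rfl fun j _ => gj17_S_per hn j x

theorem gj17_S_zero {n : ℕ} (hn : 0 < n) (j : Fin n) (x : ℝ) (h : gj17_S n j x = 0) :
    ∃ m : ℤ, x - (j : ℝ) - 1 / 2 = m * n := by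
  have hn' : (n : ℝ) ≠ 0 := by exact_mod_cast hn.ne'
  unfold gj17_S at h
  rw [sq_eq_zero_iff, Real.sin_eq_zero_iff] at h
  obtain ⟨m, hm⟩ := h
  refine ⟨m, ?_⟩
  have hpi := Real.pi_ne_zero
  rw [eq_div_iff hn'] at hm
  have h1 : Real.pi * (x - (j : ℝ) - 1 / 2) = Real.pi * (m * n) := by
    rw [← hm]
    ring
  exact mul_left_cancel₀ hpi h1

theorem gj17_exists_pos {n : ℕ} (hn : 0 < n) (x : ℝ) : ∃ i, 0 < gj17_w n i x := by
  by_contra hcon
  push Not at hcon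
  have h0 : ∀ i, ∃ j, j ≠ i ∧ gj17_S n j x = 0 := by
    intro i
    have h1 : gj17_w n i x = 0 := _root_.le_antisymm (hcon i) (gj17_w_nonneg n i x)
    unfold gj17_w at h1
    obtain ⟨j, hj, hj0⟩ := Finset.prod_eq_zero_iff.1 h1
    exact ⟨j, (Finset.mem_erase.1 hj).1, hj0⟩
  obtain ⟨j, _, hj⟩ := h0 ⟨0, hn⟩
  obtain ⟨j', hne, hj'⟩ := h0 j
  obtain ⟨m, hm⟩ := gj17_S_zero hn j x hj
  obtain ⟨m', hm'⟩ := gj17_S_zero hn j' x hj'
  have h1 : ((j' : ℕ) : ℝ) - ((j : ℕ) : ℝ) = ((m - m' : ℤ) : ℝ) * n := by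
    push_cast
    linarith
  have h2 : ((j' : ℕ) : ℤ) - ((j : ℕ) : ℤ) = (m - m') * n := by exact_mod_cast h1
  have h3 := j.2
  have h4 := j'.2
  have h5 : m - m' = 0 := by
    by_contra h6
    have h7 : (n : ℤ) ≤ |(m - m') * n| := by
      rw [abs_mul]
      have h8 : 1 ≤ |m - m'| := Int.one_le_abs h6
      have h9 : |(n : ℤ)| = n := abs_of_nonneg (by omega)
      rw [h9]
      nlinarith
    rw [← h2] at h7
    have h10 : |((j' : ℕ) : ℤ) - ((j : ℕ) : ℤ)| < n := by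
      rw [abs_lt]
      constructor <;> omega
    omega
  rw [h5, zero_mul] at h2
  apply hne
  apply Fin.ext
  omega

theorem exists_height {n : ℕ} (hn : 0 < n) (h : Fin n → ℝ) :
    ∃ Λ : ℝ → ℝ, Continuous Λ ∧ (∀ x, Λ (x + n) = Λ x) ∧
      (∀ i : Fin n, Λ ((i : ℝ) + 1 / 2) = h i) ∧
      (∀ c, (∀ i, c < h i) → ∀ x, c < Λ x) ∧ (∀ c, (∀ i, h i < c) → ∀ x, Λ x < c) := by
  have hW : ∀ x, 0 < ∑ i, gj17_w n i x := fun x => by
    obtain ⟨i, hi⟩ := gj17_exists_pos hn x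
    exact Finset.sum_pos' (fun i _ => gj17_w_nonneg n i x) ⟨i, Finset.mem_univ i, hi⟩
  refine ⟨fun x => (∑ i, gj17_w n i x * h i) / ∑ i, gj17_w n i x, ?_, ?_, ?_, ?_, ?_⟩
  · refine Continuous.div ?_ ?_ fun x => (hW x).ne'
    · exact continuous_finsetSum _ fun i _ => (gj17_w_cont n i).mul continuous_const
    · exact continuous_finsetSum _ fun i _ => gj17_w_cont n i
  · intro x
    show (∑ i, gj17_w n i (x + n) * h i) / ∑ i, gj17_w n i (x + n) = _
    simp only [gj17_w_per hn]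
  · intro i
    show (∑ j, gj17_w n j ((i : ℝ) + 1 / 2) * h j) / ∑ j, gj17_w n j ((i : ℝ) + 1 / 2) = h i
    have hz : ∀ j, j ≠ i → gj17_w n j ((i : ℝ) + 1 / 2) = 0 := by
      intro j hj
      refine Finset.prod_eq_zero (Finset.mem_erase.2 ⟨Ne.symm hj, Finset.mem_univ i⟩) ?_
      unfold gj17_S
      have e : Real.pi * ((i : ℝ) + 1 / 2 - (i : ℝ) - 1 / 2) / n = 0 := by
        rw [add_sub_cancel_left, sub_self, mul_zero, zero_div]
      rw [e, Real.sin_zero]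
      norm_num
    have h1 : ∑ j, gj17_w n j ((i : ℝ) + 1 / 2) = gj17_w n i ((i : ℝ) + 1 / 2) :=
      Finset.sum_eq_single i (fun j _ hj => hz j hj) (fun hi => absurd (Finset.mem_univ i) hi)
    have h2 : ∑ j, gj17_w n j ((i : ℝ) + 1 / 2) * h j = gj17_w n i ((i : ℝ) + 1 / 2) * h i :=
      Finset.sum_eq_single i (fun j _ hj => by rw [hz j hj, zero_mul])
        (fun hi => absurd (Finset.mem_univ i) hi)
    have h3 := hW ((i : ℝ) + 1 / 2)
    rw [h1] at h3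
    rw [h1, h2, mul_div_assoc, mul_div_cancel₀ _ h3.ne']
  · intro c hc x
    show c < (∑ i, gj17_w n i x * h i) / ∑ i, gj17_w n i x
    rw [lt_div_iff₀ (hW x)]
    obtain ⟨i, hi⟩ := gj17_exists_pos hn x
    have h1 : 0 < ∑ i, gj17_w n i x * (h i - c) :=
      Finset.sum_pos' (fun i _ => mul_nonneg (gj17_w_nonneg n i x) (by linarith [hc i]))
        ⟨i, Finset.mem_univ i, mul_pos hi (by linarith [hc i])⟩
    have h2 : ∑ i, gj17_w n i x * (h i - c) = ∑ i, gj17_w n i x * h i - c * ∑ i, gj17_w n i x := by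
      rw [Finset.mul_sum, ← Finset.sum_sub_distrib]
      exact Finset.sum_congr rfl fun i _ => by ring
    linarith
  · intro c hc x
    show (∑ i, gj17_w n i x * h i) / ∑ i, gj17_w n i x < c
    rw [div_lt_iff₀ (hW x)]
    obtain ⟨i, hi⟩ := gj17_exists_pos hn x
    have h1 : 0 < ∑ i, gj17_w n i x * (c - h i) :=
      Finset.sum_pos' (fun i _ => mul_nonneg (gj17_w_nonneg n i x) (by linarith [hc i]))
        ⟨i, Finset.mem_univ i, mul_pos hi (by linarith [hc i])⟩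
    have h2 : ∑ i, gj17_w n i x * (c - h i) = c * ∑ i, gj17_w n i x - ∑ i, gj17_w n i x * h i := by
      rw [Finset.mul_sum, ← Finset.sum_sub_distrib]
      exact Finset.sum_congr rfl fun i _ => by ring
    linarith

theorem gj18_mk_cont {f g : ℂ → ℝ} (hf : Continuous f) (hg : Continuous g) :
    Continuous fun z => (⟨f z, g z⟩ : ℂ) := by
  have h : (fun z => (⟨f z, g z⟩ : ℂ)) = fun z => ((f z : ℝ) : ℂ) + ((g z : ℝ) : ℂ) * I := by
    funext z
    exact Complex.mk_eq_add_mul_I _ _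
  rw [h]
  exact (Complex.continuous_ofReal.comp hf).add
    ((Complex.continuous_ofReal.comp hg).mul continuous_const)

theorem shear_cont (Λ : ℝ → ℝ) (hΛ : Continuous Λ) :
    Continuous fun z : ℂ => (⟨z.re, z.im - Λ z.re⟩ : ℂ) :=
  gj18_mk_cont continuous_re (continuous_im.sub (hΛ.comp continuous_re))

theorem shear_cont_inv (Λ : ℝ → ℝ) (hΛ : Continuous Λ) :
    Continuous fun z : ℂ => (⟨z.re, z.im + Λ z.re⟩ : ℂ) :=
  gj18_mk_cont continuous_re (continuous_im.add (hΛ.comp continuous_re))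

theorem twist_cont (τ : ℝ → ℝ) (hτ : Continuous τ) :
    Continuous fun z : ℂ => (⟨z.re + τ z.im, z.im⟩ : ℂ) :=
  gj18_mk_cont (continuous_re.add (hτ.comp continuous_im)) continuous_im

theorem twist_cont_inv (τ : ℝ → ℝ) (hτ : Continuous τ) :
    Continuous fun z : ℂ => (⟨z.re - τ z.im, z.im⟩ : ℂ) :=
  gj18_mk_cont (continuous_re.sub (hτ.comp continuous_im)) continuous_im

theorem dilate_cont (n : ℝ) : Continuous fun z : ℂ => (⟨n * z.re, z.im⟩ : ℂ) :=
  gj18_mk_cont (continuous_const.mul continuous_re) continuous_im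

theorem dilate_cont_inv (n : ℝ) : Continuous fun z : ℂ => (⟨n⁻¹ * z.re, z.im⟩ : ℂ) :=
  gj18_mk_cont (continuous_const.mul continuous_re) continuous_im

/-- the shear `(x,y) ↦ (x, y - Λ x)` -/
def shear (Λ : ℝ → ℝ) (hΛ : Continuous Λ) : ℂ ≃ₜ ℂ where
  toFun z := ⟨z.re, z.im - Λ z.re⟩
  invFun z := ⟨z.re, z.im + Λ z.re⟩
  left_inv z := by
    apply Complex.ext <;> simp
  right_inv z := by
    apply Complex.ext <;> simp
  continuous_toFun := shear_cont Λ hΛ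
  continuous_invFun := shear_cont_inv Λ hΛ

/-- the twist `(x,y) ↦ (x + τ y, y)` -/
def twist (τ : ℝ → ℝ) (hτ : Continuous τ) : ℂ ≃ₜ ℂ where
  toFun z := ⟨z.re + τ z.im, z.im⟩
  invFun z := ⟨z.re - τ z.im, z.im⟩
  left_inv z := by
    apply Complex.ext <;> simp
  right_inv z := by
    apply Complex.ext <;> simp
  continuous_toFun := twist_cont τ hτ
  continuous_invFun := twist_cont_inv τ hτ

/-- real dilation of the first coordinate by `n` -/
def dilate (n : ℝ) (hn : n ≠ 0) : ℂ ≃ₜ ℂ where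
  toFun z := ⟨n * z.re, z.im⟩
  invFun z := ⟨n⁻¹ * z.re, z.im⟩
  left_inv z := by
    apply Complex.ext <;> simp [hn]
  right_inv z := by
    apply Complex.ext <;> simp [hn]
  continuous_toFun := dilate_cont n
  continuous_invFun := dilate_cont_inv n

/-- ramp function: `a` for `y ≤ c`, `b` for `y ≥ d`, affine in between -/
def ramp (a b c d : ℝ) (y : ℝ) : ℝ := a + (b - a) * max 0 (min 1 ((y - c) / (d - c)))

theorem ramp_cont (a b c d : ℝ) : Continuous (ramp a b c d) := by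
  unfold ramp
  have h : Continuous fun y : ℝ => (y - c) / (d - c) :=
    (continuous_id.sub continuous_const).div_const _
  exact continuous_const.add
    (continuous_const.mul (continuous_const.max (continuous_const.min h)))

theorem gj19_slitA {a b : ℂ} (hb : b ≠ 0) (h : a.im = b.im) (h2 : b.im = 0 → 0 < a.re * b.re) :
    a / b ∈ slitPlane := by
  rw [Complex.mem_slitPlane_iff]
  have hN : 0 < normSq b := normSq_pos.2 hb
  by_cases hi : b.im = 0
  · left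
    have h3 := h2 hi
    rw [Complex.div_re, hi, mul_zero, zero_div, add_zero]
    exact div_pos h3 hN
  · by_cases hr : a.re = b.re
    · left
      have hab : a = b := Complex.ext hr h
      rw [hab, div_self hb]
      simp
    · right
      rw [Complex.div_im, h, ← sub_div]
      apply div_ne_zero _ hN.ne'
      have : b.im * b.re - a.re * b.im = b.im * (b.re - a.re) := by ring
      rw [this]
      exact mul_ne_zero hi (sub_ne_zero.2 (Ne.symm hr))

theorem gj19_slitB {a b : ℂ} (hb : b ≠ 0) (h : a.re = b.re) (h2 : b.re = 0 → a = b) :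
    a / b ∈ slitPlane := by
  rw [Complex.mem_slitPlane_iff]
  have hN : 0 < normSq b := normSq_pos.2 hb
  by_cases hab : a = b
  · left
    rw [hab, div_self hb]
    simp
  · right
    have hr : b.re ≠ 0 := fun h0 => hab (h2 h0)
    have hi : a.im ≠ b.im := fun h0 => hab (Complex.ext h h0)
    rw [Complex.div_im, h, ← sub_div]
    apply div_ne_zero _ hN.ne'
    have : a.im * b.re - b.re * b.im = b.re * (a.im - b.im) := by ring
    rw [this]
    exact mul_ne_zero hr (sub_ne_zero.2 hi)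

/-- composition of local orientation preserving maps -/
theorem gj19_LocOP_comp {f g : ℂ → ℂ} (hf : Continuous f) (hfi : Function.Injective f) {p : ℂ}
    (h1 : LocOP f p) (h2 : LocOP g (f p)) : LocOP (fun z => g (f z)) p := by
  obtain ⟨e1, he1, θ1, c1, H1⟩ := h1
  obtain ⟨e2, he2, θ2, c2, H2⟩ := h2
  obtain ⟨δ, hδ, Hδ⟩ := Metric.continuous_iff.1 hf p e2 he2
  refine ⟨min e1 δ, lt_min he1 hδ, fun q => θ1 q + θ2 (f q), ?_, ?_⟩
  · apply ContinuousOn.add
    · apply c1.mono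
      intro q hq
      exact ⟨hq.1, lt_of_lt_of_le hq.2 (min_le_left _ _)⟩
    · apply c2.comp hf.continuousOn
      intro q hq
      refine ⟨fun h => hq.1 (hfi h), ?_⟩
      have := Hδ q (by rw [dist_eq_norm]; exact lt_of_lt_of_le hq.2 (min_le_right _ _))
      rwa [dist_eq_norm] at this
  · intro q hq1 hq2
    obtain ⟨s1, hs1, E1⟩ := H1 q hq1 (lt_of_lt_of_le hq2 (min_le_left _ _))
    have hd := Hδ q (by rw [dist_eq_norm]; exact lt_of_lt_of_le hq2 (min_le_right _ _))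
    rw [dist_eq_norm] at hd
    obtain ⟨s2, hs2, E2⟩ := H2 (f q) (fun h => hq1 (hfi h)) hd
    refine ⟨s1 * s2, mul_pos hs1 hs2, ?_⟩
    rw [E2, E1]
    have e3 : (2 * Real.pi * I * ((θ1 q + θ2 (f q) : ℝ) : ℂ) : ℂ) =
        2 * Real.pi * I * θ1 q + 2 * Real.pi * I * θ2 (f q) := by
      push_cast
      ring
    rw [e3, Complex.exp_add]
    push_cast
    ring

/-- locally orientation preserving in both directions -/
def gj19N (g : ℂ ≃ₜ ℂ) : Prop := (∀ p, LocOP g p) ∧ ∀ p, LocOP g.symm p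

theorem gj19N_mul {f g : ℂ ≃ₜ ℂ} (hf : gj19N f) (hg : gj19N g) : gj19N (f * g) := by
  constructor
  · intro p
    exact gj19_LocOP_comp (f := g) (g := f) g.continuous g.injective (hg.1 p) (hf.1 (g p))
  · intro p
    exact gj19_LocOP_comp (f := f.symm) (g := g.symm) f.symm.continuous f.symm.injective
      (hf.2 p) (hg.2 (f.symm p))

theorem gj19N_inv {f : ℂ ≃ₜ ℂ} (hf : gj19N f) : gj19N f⁻¹ := ⟨hf.2, hf.1⟩

/-- ends in both directions -/
def gj19E (g : ℂ ≃ₜ ℂ) : Prop := Ends g ∧ Ends g.symm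

theorem gj19_ends_comp {f g : ℂ → ℂ} (hf : Ends f) (hg : Ends g) : Ends (fun z => g (f z)) := by
  constructor
  · intro M
    obtain ⟨M1, h1⟩ := hg.1 M
    obtain ⟨M2, h2⟩ := hf.1 M1
    exact ⟨M2, fun z hz => h1 _ (h2 z hz)⟩
  · intro M
    obtain ⟨M1, h1⟩ := hg.2 M
    obtain ⟨M2, h2⟩ := hf.2 M1
    exact ⟨M2, fun z hz => h1 _ (h2 z hz)⟩

theorem gj19E_mul {f g : ℂ ≃ₜ ℂ} (hf : gj19E f) (hg : gj19E g) : gj19E (f * g) :=
  ⟨gj19_ends_comp (f := g) (g := f) hg.1 hf.1,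
    gj19_ends_comp (f := f.symm) (g := g.symm) hf.2 hg.2⟩

theorem gj19E_inv {f : ℂ ≃ₜ ℂ} (hf : gj19E f) : gj19E f⁻¹ := ⟨hf.2, hf.1⟩

theorem gj19_ends_bdd {g : ℂ → ℂ} (C : ℝ) (h : ∀ z, |(g z).im - z.im| ≤ C) : Ends g := by
  constructor
  · intro M
    refine ⟨M + C, fun z hz => ?_⟩
    have := abs_le.1 (h z)
    linarith [this.1]
  · intro M
    refine ⟨M - C, fun z hz => ?_⟩
    have := abs_le.1 (h z)
    linarith [this.2]

theorem gj19E_bdd {g : ℂ ≃ₜ ℂ} (C : ℝ) (h : ∀ z, |(g z).im - z.im| ≤ C) : gj19E g := by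
  refine ⟨gj19_ends_bdd C h, gj19_ends_bdd C fun z => ?_⟩
  have := h (g.symm z)
  rw [g.apply_symm_apply] at this
  rw [abs_sub_comm]
  exact this

theorem gj19_bdd {n : ℕ} (hn : 0 < n) (Λ : ℝ → ℝ) (hΛ : Continuous Λ)
    (hΛ1 : ∀ x, Λ (x + n) = Λ x) : ∃ C, ∀ x, |Λ x| ≤ C := by
  obtain ⟨C, hC⟩ := (isCompact_Icc (a := (0 : ℝ)) (b := n)).exists_bound_of_continuousOn
    hΛ.continuousOn
  refine ⟨C, fun x => ?_⟩
  have hp : Function.Periodic Λ (n : ℝ) := hΛ1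
  obtain ⟨y, hy, hxy⟩ := hp.exists_mem_Ico₀ (by exact_mod_cast hn) x
  rw [hxy]
  exact hC y ⟨hy.1, hy.2.le⟩

theorem gj19_shear_N (Λ : ℝ → ℝ) (hΛ : Continuous Λ) : gj19N (shear Λ hΛ) := by
  apply locOP_of_slit
  intro z w hzw
  have hb : w - z ≠ 0 := sub_ne_zero.2 (Ne.symm hzw)
  apply gj19_slitB hb
  · change w.re - z.re = (w - z).re
    simp
  · intro h
    rw [Complex.sub_re] at h
    have h2 : w.re = z.re := by linarith
    apply Complex.ext
    · change w.re - z.re = (w - z).re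
      simp
    · change (w.im - Λ w.re) - (z.im - Λ z.re) = (w - z).im
      rw [h2, Complex.sub_im]
      ring

theorem gj19_dilate_N (n : ℝ) (hn : 0 < n) (hn' : n ≠ 0) : gj19N (dilate n hn') := by
  apply locOP_of_slit
  intro z w hzw
  have hb : w - z ≠ 0 := sub_ne_zero.2 (Ne.symm hzw)
  apply gj19_slitA hb
  · change w.im - z.im = (w - z).im
    simp
  · intro h
    have e1 : (dilate n hn' w - dilate n hn' z).re = n * (w - z).re := by
      change n * w.re - n * z.re = _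
      rw [Complex.sub_re]
      ring
    have h3 : (w - z).re ≠ 0 := fun h0 => hb (Complex.ext h0 h)
    rw [e1, mul_assoc]
    exact mul_pos hn (mul_self_pos.2 h3)

theorem gj19_X_N (X : ℂ ≃ₜ ℂ) (hX1 : ∀ z, (X z).im = z.im)
    (hX3 : ∀ z w : ℂ, z.im = w.im → z.re < w.re → (X z).re < (X w).re) : gj19N X := by
  apply locOP_of_slit
  intro z w hzw
  have hb : w - z ≠ 0 := sub_ne_zero.2 (Ne.symm hzw)
  apply gj19_slitA hb
  · rw [Complex.sub_im, Complex.sub_im, hX1, hX1]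
  · intro h
    rw [Complex.sub_im] at h
    have h2 : z.im = w.im := by linarith
    rw [Complex.sub_re, Complex.sub_re]
    rcases lt_trichotomy z.re w.re with h3 | h3 | h3
    · have := hX3 z w h2 h3
      exact mul_pos (by linarith) (by linarith)
    · exact absurd (Complex.ext h3 h2) hzw
    · have := hX3 w z h2.symm h3
      exact mul_pos_of_neg_of_neg (by linarith) (by linarith)

/-- conjugation of a strip homeomorphism by the normalisation -/
theorem conj_mem_HX {n : ℕ} (hn : 0 < n) (P : Fin n → ℂ) (X : ℂ ≃ₜ ℂ)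
    (hX1 : ∀ z, (X z).im = z.im) (hX2 : ∀ z, X (z + 1) = X z + 1)
    (hX3 : ∀ z w : ℂ, z.im = w.im → z.re < w.re → (X z).re < (X w).re)
    (hX5 : ∀ i : Fin n, (X (P i)).re = ((i : ℝ) + 1 / 2) / n)
    (Λ : ℝ → ℝ) (hΛ : Continuous Λ) (hΛ1 : ∀ x, Λ (x + n) = Λ x)
    (hΛ2 : ∀ i : Fin n, Λ ((i : ℝ) + 1 / 2) = (P i).im) (hn' : (n : ℝ) ≠ 0)
    (F : ℂ ≃ₜ ℂ) (hF : F ∈ SH 1) (hF2 : ∀ z, F z ∈ XT P ↔ z ∈ XT P) :
    (shear Λ hΛ * dilate n hn' * X) * F * (shear Λ hΛ * dilate n hn' * X)⁻¹ ∈ HX (n : ℤ) := by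
  have hnR : (0 : ℝ) < n := by exact_mod_cast hn
  obtain ⟨hFp, hFe, hFes, hFl, hFls⟩ := hF
  obtain ⟨C, hC⟩ := gj19_bdd hn Λ hΛ hΛ1
  have hper : Function.Periodic Λ (n : ℝ) := hΛ1
  set Ψ : ℂ ≃ₜ ℂ := shear Λ hΛ * dilate n hn' * X with hΨ
  have hre : ∀ z, (Ψ z).re = n * (X z).re := fun z => rfl
  have him : ∀ z, (Ψ z).im = z.im - Λ (n * (X z).re) := by
    intro z
    change (X z).im - Λ (n * (X z).re) = _
    rw [hX1]
  have hN : gj19N (Ψ * F * Ψ⁻¹) := by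
    have h1 : gj19N Ψ := gj19N_mul (gj19N_mul (gj19_shear_N Λ hΛ) (gj19_dilate_N n hnR hn'))
      (gj19_X_N X hX1 hX3)
    exact gj19N_mul (gj19N_mul h1 ⟨hFl, hFls⟩) (gj19N_inv h1)
  have hE : gj19E (Ψ * F * Ψ⁻¹) := by
    have h1 : gj19E Ψ := gj19E_bdd C (fun z => by
      rw [him z]
      have := hC (n * (X z).re)
      have e1 : z.im - Λ (n * (X z).re) - z.im = -Λ (n * (X z).re) := by ring
      rw [e1, abs_neg]
      exact this)
    exact gj19E_mul (gj19E_mul h1 ⟨hFe, hFes⟩) (gj19E_inv h1)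
  have hstep : ∀ z, Ψ (z + 1) = Ψ z + (n : ℂ) := by
    intro z
    apply Complex.ext
    · rw [hre, hX2, Complex.add_re, Complex.add_re, hre]
      simp
      ring
    · rw [him, hX2, Complex.add_im, Complex.add_im, him]
      have e1 : (n : ℝ) * ((X z) + 1).re = n * (X z).re + n := by
        simp
        ring
      rw [e1, hΛ1]
      simp
  have hXl : ∀ (l : ℤ) (z : ℂ), X (z + l) = X z + l := by
    have hnat : ∀ (m : ℕ) (z : ℂ), X (z + m) = X z + m := by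
      intro m
      induction m with
      | zero => intro z; simp
      | succ m ih =>
        intro z
        have e1 : z + ((m + 1 : ℕ) : ℂ) = (z + m) + 1 := by push_cast; ring
        rw [e1, hX2, ih]
        push_cast
        ring
    intro l z
    rcases Int.eq_nat_or_neg l with ⟨m, hm | hm⟩
    · rw [hm]
      exact hnat m z
    · have h1 := hnat m (z + l)
      have e1 : z + (l : ℂ) + m = z := by
        rw [hm]
        push_cast
        ring
      rw [e1] at h1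
      rw [h1, hm]
      push_cast
      ring
  have hobs1 : ∀ (i : Fin n) (l : ℤ), Ψ (P i + l) = (((i : ℤ) + n * l : ℤ) : ℂ) + 1 / 2 := by
    intro i l
    have e0 : (n : ℝ) * (X (P i + l)).re = ((i : ℝ) + 1 / 2) + l * n := by
      rw [hXl, Complex.add_re, hX5]
      have e2 : ((l : ℂ)).re = l := by simp
      rw [e2]
      field_simp
    apply Complex.ext
    · rw [hre, e0]
      have e3 : ((((i : ℤ) + n * l : ℤ) : ℂ) + 1 / 2).re = (((i : ℤ) + n * l : ℤ) : ℝ) + 1 / 2 := by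
        have : ((((i : ℤ) + n * l : ℤ) : ℂ) + 1 / 2) =
            (((((i : ℤ) + n * l : ℤ) : ℝ) + 1 / 2 : ℝ) : ℂ) := by
          push_cast
          ring
        rw [this, Complex.ofReal_re]
      rw [e3]
      push_cast
      ring
    · rw [him, e0]
      have e4 : Λ (((i : ℝ) + 1 / 2) + l * n) = (P i).im := by
        have := hper.int_mul l ((i : ℝ) + 1 / 2)
        rw [this, hΛ2]
      rw [e4]
      have e5 : ((((i : ℤ) + n * l : ℤ) : ℂ) + 1 / 2).im = 0 := by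
        have : ((((i : ℤ) + n * l : ℤ) : ℂ) + 1 / 2) =
            (((((i : ℤ) + n * l : ℤ) : ℝ) + 1 / 2 : ℝ) : ℂ) := by
          push_cast
          ring
        rw [this, Complex.ofReal_im]
      rw [e5, Complex.add_im]
      simp
  have hobs : ∀ z, Ψ z ∈ Obs ↔ z ∈ XT P := by
    intro z
    constructor
    · rintro ⟨h1, k, h2⟩
      have hn0 : (0 : ℤ) < n := by exact_mod_cast hn
      have h3 := Int.emod_nonneg k hn0.ne'
      have h4 := Int.emod_lt_of_pos k hn0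
      obtain ⟨t, ht⟩ := Int.eq_ofNat_of_zero_le h3
      have h5 : t < n := by omega
      refine ⟨⟨t, h5⟩, k / n, ?_⟩
      apply Ψ.injective
      rw [hobs1]
      have h6 := Int.emod_add_mul_ediv k n
      have h7 : (((⟨t, h5⟩ : Fin n) : ℕ) : ℤ) + n * (k / n) = k := by
        rw [ht] at h6
        exact h6
      rw [h7]
      apply Complex.ext
      · rw [h2]
        have : ((k : ℂ) + 1 / 2) = (((k : ℝ) + 1 / 2 : ℝ) : ℂ) := by
          push_cast
          ring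
        rw [this, Complex.ofReal_re]
      · rw [h1]
        have : ((k : ℂ) + 1 / 2) = (((k : ℝ) + 1 / 2 : ℝ) : ℂ) := by
          push_cast
          ring
        rw [this, Complex.ofReal_im]
    · rintro ⟨i, l, rfl⟩
      rw [hobs1]
      have : ((((i : ℤ) + n * l : ℤ) : ℂ) + 1 / 2) =
          (((((i : ℤ) + n * l : ℤ) : ℝ) + 1 / 2 : ℝ) : ℂ) := by
        push_cast
        ring
      rw [this]
      refine ⟨Complex.ofReal_im _, (i : ℤ) + n * l, Complex.ofReal_re _⟩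
  have hmem : (Ψ * F * Ψ⁻¹) ∈ SH ((n : ℤ) : ℝ) := by
    refine ⟨?_, hE.1, hE.2, hN.1, hN.2⟩
    intro z
    change Ψ (F (Ψ.symm (z + (((n : ℤ) : ℝ) : ℂ)))) = Ψ (F (Ψ.symm z)) + (((n : ℤ) : ℝ) : ℂ)
    have e1 : ((((n : ℤ) : ℝ)) : ℂ) = (n : ℂ) := by push_cast; rfl
    rw [e1]
    have e2 : Ψ.symm (z + (n : ℂ)) = Ψ.symm z + 1 := by
      rw [Homeomorph.symm_apply_eq, hstep, Homeomorph.apply_symm_apply]
    have e3 : F (Ψ.symm z + 1) = F (Ψ.symm z) + 1 := by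
      have := hFp (Ψ.symm z)
      simpa using this
    rw [e2, e3, hstep]
  refine ⟨hmem, ?_⟩
  intro z
  change Ψ (F (Ψ.symm z)) ∈ Obs ↔ z ∈ Obs
  rw [hobs, hF2, ← hobs, Homeomorph.apply_symm_apply]

theorem gj20_slit (a b : ℂ) (hb : b ≠ 0) (h : ∀ r : ℝ, r ≤ 0 → a = r * b → False) :
    a / b ∈ slitPlane := by
  rw [Complex.mem_slitPlane_iff]
  by_contra hcon
  push Not at hcon
  apply h (a / b).re hcon.1
  have : (((a / b).re : ℝ) : ℂ) = a / b := by
    apply Complex.ext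
    · simp
    · simp [hcon.2]
  rw [this, div_mul_cancel₀ _ hb]

theorem gj20_bdd {n : ℕ} (hn : 0 < n) (Λ : ℝ → ℝ) (hΛ : Continuous Λ)
    (hΛ1 : ∀ x, Λ (x + n) = Λ x) : ∃ C : ℝ, ∀ x, |Λ x| ≤ C := by
  have hp : Function.Periodic Λ (n : ℝ) := hΛ1
  have hc : IsCompact (Set.range Λ) := hp.compact_of_continuous (by positivity) hΛ
  obtain ⟨C, hC⟩ := hc.isBounded.exists_norm_le
  exact ⟨C, fun x => hC _ (Set.mem_range_self x)⟩

theorem gj20_shear_apply (Λ : ℝ → ℝ) (hΛ : Continuous Λ) (z : ℂ) :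
    shear Λ hΛ z = ⟨z.re, z.im - Λ z.re⟩ := rfl

theorem gj20_shear_symm_apply (Λ : ℝ → ℝ) (hΛ : Continuous Λ) (z : ℂ) :
    (shear Λ hΛ).symm z = ⟨z.re, z.im + Λ z.re⟩ := rfl

theorem gj20_twist_apply (τ : ℝ → ℝ) (hτ : Continuous τ) (z : ℂ) :
    twist τ hτ z = ⟨z.re + τ z.im, z.im⟩ := rfl

theorem gj20_twist_symm_apply (τ : ℝ → ℝ) (hτ : Continuous τ) (z : ℂ) :
    (twist τ hτ).symm z = ⟨z.re - τ z.im, z.im⟩ := rfl

theorem gj20_shear_mem {n : ℕ} (hn : 0 < n) (Λ : ℝ → ℝ) (hΛ : Continuous Λ)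
    (hΛ1 : ∀ x, Λ (x + n) = Λ x) : shear Λ hΛ ∈ SH ((n : ℤ) : ℝ) := by
  obtain ⟨C, hC⟩ := gj20_bdd hn Λ hΛ hΛ1
  have hloc := locOP_of_slit (shear Λ hΛ) (by
    intro z w hzw
    apply gj20_slit _ _ (sub_ne_zero.2 (Ne.symm hzw))
    intro r hr h
    rw [gj20_shear_apply, gj20_shear_apply] at h
    have h1 := congrArg Complex.re h
    have h2 := congrArg Complex.im h
    simp at h1 h2
    by_cases hre : w.re = z.re
    · rw [hre] at h2
      have h3 : (r - 1) * (w.im - z.im) = 0 := by linarith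
      rcases mul_eq_zero.1 h3 with h4 | h4
      · linarith
      · exact hzw (Complex.ext hre.symm (by linarith))
    · have h3 : (r - 1) * (w.re - z.re) = 0 := by linarith
      rcases mul_eq_zero.1 h3 with h4 | h4
      · linarith
      · exact hre (by linarith))
  refine ⟨?_, ⟨?_, ?_⟩, ⟨?_, ?_⟩, hloc.1, hloc.2⟩
  · intro z
    rw [gj20_shear_apply, gj20_shear_apply]
    apply Complex.ext
    · simp
    · have := hΛ1 z.re
      simp [this]
  · intro M
    refine ⟨M + C, fun z hz => ?_⟩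
    rw [gj20_shear_apply]
    have := abs_le.1 (hC z.re)
    show M ≤ z.im - Λ z.re
    linarith
  · intro M
    refine ⟨M - C, fun z hz => ?_⟩
    rw [gj20_shear_apply]
    have := abs_le.1 (hC z.re)
    show z.im - Λ z.re ≤ M
    linarith
  · intro M
    refine ⟨M + C, fun z hz => ?_⟩
    rw [gj20_shear_symm_apply]
    have := abs_le.1 (hC z.re)
    show M ≤ z.im + Λ z.re
    linarith
  · intro M
    refine ⟨M - C, fun z hz => ?_⟩
    rw [gj20_shear_symm_apply]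
    have := abs_le.1 (hC z.re)
    show z.im + Λ z.re ≤ M
    linarith

theorem gj20_twist_mem (n : ℕ) (τ : ℝ → ℝ) (hτ : Continuous τ) :
    twist τ hτ ∈ SH ((n : ℤ) : ℝ) := by
  have hloc := locOP_of_slit (twist τ hτ) (by
    intro z w hzw
    apply gj20_slit _ _ (sub_ne_zero.2 (Ne.symm hzw))
    intro r hr h
    rw [gj20_twist_apply, gj20_twist_apply] at h
    have h1 := congrArg Complex.re h
    have h2 := congrArg Complex.im h
    simp at h1 h2
    by_cases him : w.im = z.im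
    · rw [him] at h1
      have h3 : (r - 1) * (w.re - z.re) = 0 := by linarith
      rcases mul_eq_zero.1 h3 with h4 | h4
      · linarith
      · exact hzw (Complex.ext (by linarith) him.symm)
    · have h3 : (r - 1) * (w.im - z.im) = 0 := by linarith
      rcases mul_eq_zero.1 h3 with h4 | h4
      · linarith
      · exact him (by linarith))
  refine ⟨?_, ⟨?_, ?_⟩, ⟨?_, ?_⟩, hloc.1, hloc.2⟩
  · intro z
    rw [gj20_twist_apply, gj20_twist_apply]
    apply Complex.ext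
    · simp
      ring
    · simp
  · intro M
    exact ⟨M, fun z hz => hz⟩
  · intro M
    exact ⟨M, fun z hz => hz⟩
  · intro M
    exact ⟨M, fun z hz => hz⟩
  · intro M
    exact ⟨M, fun z hz => hz⟩

theorem gj20_periodic_int {n : ℕ} (Λ : ℝ → ℝ) (hΛ1 : ∀ x, Λ (x + n) = Λ x) (m : ℤ) (x : ℝ) :
    Λ (x + m * n) = Λ x := by
  have hp : Function.Periodic Λ (n : ℝ) := hΛ1
  exact hp.int_mul m x

theorem gj20_half {n : ℕ} (hn : 0 < n) (h : Fin n → ℝ)
    (Λ : ℝ → ℝ) (hΛ1 : ∀ x, Λ (x + n) = Λ x)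
    (hΛ2 : ∀ i : Fin n, Λ ((i : ℝ) + 1 / 2) = h i) (k : ℤ) :
    ∃ i : Fin n, (((i : ℕ) : ℤ) = k % n) ∧ Λ ((k : ℝ) + 1 / 2) = h i := by
  have hn' : (0 : ℤ) < n := by exact_mod_cast hn
  have h0 : 0 ≤ k % (n : ℤ) := Int.emod_nonneg _ hn'.ne'
  have h1 : k % (n : ℤ) < n := Int.emod_lt_of_pos _ hn'
  refine ⟨⟨(k % (n : ℤ)).toNat, by omega⟩, ?_, ?_⟩
  · simp only
    rw [Int.toNat_of_nonneg h0]
  · rw [← hΛ2]
    have e1 : (((k % (n : ℤ)).toNat : ℕ) : ℝ) = ((k % (n : ℤ) : ℤ) : ℝ) := by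
      have := Int.toNat_of_nonneg h0
      exact_mod_cast this
    simp only
    rw [e1]
    have e2 : (k : ℝ) = ((k % (n : ℤ) : ℤ) : ℝ) + ((k / (n : ℤ) : ℤ) : ℝ) * (n : ℝ) := by
      have := Int.emod_add_mul_ediv k (n : ℤ)
      have h3 : ((k % (n : ℤ) : ℤ) : ℝ) + (n : ℝ) * ((k / (n : ℤ) : ℤ) : ℝ) = (k : ℝ) := by
        exact_mod_cast this
      rw [← h3]
      ring
    rw [show (k : ℝ) + 1 / 2 = (((k % (n : ℤ) : ℤ) : ℝ) + 1 / 2) +
      ((k / (n : ℤ) : ℤ) : ℝ) * (n : ℝ) by rw [e2]; ring_nf]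
    rw [gj20_periodic_int Λ hΛ1]

theorem gj20_ramp_lo (a b c d y : ℝ) (hcd : c < d) (hy : y ≤ c) : ramp a b c d y = a := by
  unfold ramp
  have h1 : (y - c) / (d - c) ≤ 0 := div_nonpos_of_nonpos_of_nonneg (by linarith) (by linarith)
  have h2 : min 1 ((y - c) / (d - c)) ≤ 0 := (min_le_right _ _).trans h1
  rw [max_eq_left h2]
  ring

theorem gj20_ramp_hi (a b c d y : ℝ) (hcd : c < d) (hy : d ≤ y) : ramp a b c d y = b := by
  unfold ramp
  have h1 : 1 ≤ (y - c) / (d - c) := by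
    rw [le_div_iff₀ (by linarith)]
    linarith
  rw [min_eq_left h1, max_eq_right zero_le_one]
  ring

theorem twist_mem_HX {n : ℕ} (hn : 0 < n) (h : Fin n → ℝ)
    (Λ : ℝ → ℝ) (hΛ : Continuous Λ) (hΛ1 : ∀ x, Λ (x + n) = Λ x)
    (hΛ2 : ∀ i : Fin n, Λ ((i : ℝ) + 1 / 2) = h i) (a b : ℤ) (c d : ℝ) (hcd : c < d)
    (hh : ∀ i, h i < c ∨ d < h i) :
    (shear Λ hΛ) * (twist (ramp (a * n) (b * n) c d) (ramp_cont _ _ _ _)) * (shear Λ hΛ)⁻¹ ∈
      HX (n : ℤ) := by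
  have hS := gj20_shear_mem hn Λ hΛ hΛ1
  have hT := gj20_twist_mem n (ramp (a * n) (b * n) c d) (ramp_cont _ _ _ _)
  refine ⟨mul_mem (mul_mem hS hT) (inv_mem hS), ?_⟩
  intro z
  -- `z = S w`
  obtain ⟨w, rfl⟩ : ∃ w, z = shear Λ hΛ w :=
    ⟨(shear Λ hΛ).symm z, ((shear Λ hΛ).apply_symm_apply z).symm⟩
  have e1 : ((shear Λ hΛ) * (twist (ramp (a * n) (b * n) c d) (ramp_cont _ _ _ _)) *
      (shear Λ hΛ)⁻¹ : ℂ ≃ₜ ℂ) (shear Λ hΛ w) =
      shear Λ hΛ (twist (ramp (a * n) (b * n) c d) (ramp_cont _ _ _ _) w) := by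
    show shear Λ hΛ (twist (ramp (a * n) (b * n) c d) (ramp_cont _ _ _ _)
      ((shear Λ hΛ).symm (shear Λ hΛ w))) = _
    rw [(shear Λ hΛ).symm_apply_apply]
  rw [e1]
  have key : ∀ k : ℤ, w.im = Λ ((k : ℝ) + 1 / 2) →
      ∃ m : ℤ, ramp (a * n) (b * n) c d w.im = m * n := by
    intro k hk
    obtain ⟨i, -, hi⟩ := gj20_half hn h Λ hΛ1 hΛ2 k
    rw [hk, hi]
    rcases hh i with h1 | h1
    · exact ⟨a, gj20_ramp_lo _ _ _ _ _ hcd h1.le⟩
    · exact ⟨b, gj20_ramp_hi _ _ _ _ _ hcd h1.le⟩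
  have lhs : shear Λ hΛ (twist (ramp (a * n) (b * n) c d) (ramp_cont _ _ _ _) w) ∈ Obs ↔
      w.im - Λ (w.re + ramp (a * n) (b * n) c d w.im) = 0 ∧
        ∃ k : ℤ, w.re + ramp (a * n) (b * n) c d w.im = k + 1 / 2 := Iff.rfl
  have rhs : shear Λ hΛ w ∈ Obs ↔ w.im - Λ w.re = 0 ∧ ∃ k : ℤ, w.re = k + 1 / 2 := Iff.rfl
  rw [lhs, rhs]
  constructor
  · rintro ⟨h1, k, h2⟩
    rw [h2] at h1
    obtain ⟨m, hm⟩ := key k (by linarith)
    rw [hm] at h2
    have h3 : w.re = (k : ℝ) + 1 / 2 + ((-m : ℤ) : ℝ) * n := by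
      push_cast
      linarith
    refine ⟨?_, k - m * n, ?_⟩
    · rw [h3, gj20_periodic_int Λ hΛ1]
      exact h1
    · push_cast
      rw [h3]
      push_cast
      ring
  · rintro ⟨h1, k, h2⟩
    rw [h2] at h1
    obtain ⟨m, hm⟩ := key k (by linarith)
    refine ⟨?_, k + m * n, ?_⟩
    · rw [hm, h2, gj20_periodic_int Λ hΛ1]
      exact h1
    · push_cast
      rw [hm, h2]
      ring

/-- translation by `n` -/
def transl (n : ℤ) : ℂ ≃ₜ ℂ := Homeomorph.addRight (n : ℂ)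

theorem gj18_transl_apply (n : ℤ) (z : ℂ) : transl n z = z + n := rfl

theorem gj18_transl_symm (n : ℤ) (z : ℂ) : (transl n).symm z = z - n := by
  rw [Homeomorph.symm_apply_eq, gj18_transl_apply]
  ring

theorem gj18_locOP {g : ℂ → ℂ} {c : ℂ} (hg : ∀ z, g z = z + c) (p : ℂ) : LocOP g p := by
  refine ⟨1, one_pos, fun _ => 0, continuousOn_const, ?_⟩
  intro q _ _
  refine ⟨1, one_pos, ?_⟩
  rw [hg, hg]
  simp

theorem gj18_ends {g : ℂ → ℂ} (hg : ∀ z, (g z).im = z.im) : Ends g := by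
  refine ⟨fun M => ⟨M, fun z hz => ?_⟩, fun M => ⟨M, fun z hz => ?_⟩⟩
  · rw [hg]
    exact hz
  · rw [hg]
    exact hz

theorem transl_mem_HX (n : ℤ) : transl n ∈ HX n := by
  show ((∀ z, transl n (z + (n : ℝ)) = transl n z + (n : ℝ)) ∧ Ends (transl n) ∧
    Ends (transl n).symm ∧ (∀ p, LocOP (transl n) p) ∧ ∀ p, LocOP (transl n).symm p) ∧
    ∀ z, transl n z ∈ Obs ↔ z ∈ Obs
  refine ⟨⟨?_, ?_, ?_, ?_, ?_⟩, ?_⟩
  · intro z
    rw [gj18_transl_apply, gj18_transl_apply]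
    ring
  · apply gj18_ends
    intro z
    rw [gj18_transl_apply]
    simp
  · apply gj18_ends
    intro z
    rw [gj18_transl_symm]
    simp
  · exact gj18_locOP (fun z => gj18_transl_apply n z)
  · apply gj18_locOP (c := -(n : ℂ))
    intro z
    rw [gj18_transl_symm]
    ring
  · intro z
    rw [gj18_transl_apply]
    unfold Obs
    rw [Set.mem_ofPred_eq, Set.mem_ofPred_eq]
    have h1 : (z + (n : ℂ)).im = z.im := by simp
    have h2 : (z + (n : ℂ)).re = z.re + n := by simp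
    rw [h1, h2]
    constructor
    · rintro ⟨h3, k, hk⟩
      refine ⟨h3, k - n, ?_⟩
      push_cast
      linarith
    · rintro ⟨h3, k, hk⟩
      refine ⟨h3, k + n, ?_⟩
      push_cast
      linarith

/-- crossing word of a twist -/
def twistArc (n m0 : ℕ) (a : ℤ) (k : ℕ) : G :=
  ((List.range k).map fun l => gL ((a + l) * n) * (gL ((a + l) * n + m0))⁻¹).prod *
    gL ((a + k) * n)

theorem twistArc_arc0 (n nE k : ℕ) : twistArc n nE (-k) k = arc0 n nE k := by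
  unfold twistArc arc0
  congr 1
  · congr 1
    apply List.map_congr_left
    intro l _
    have e : (-(k : ℤ) + l) * n = ((l : ℤ) - k) * n := by ring
    rw [e]
  · congr 1
    ring

theorem twistArc_arc1 (n B K : ℕ) (hK : 1 ≤ K) : twistArc n B 1 (K - 1) = arc1 n B K := by
  unfold twistArc arc1
  congr 1
  · congr 1
    apply List.map_congr_left
    intro l _
    have e : ((1 : ℤ) + l) * n = ((l : ℤ) + 1) * n := by ring
    rw [e]
  · congr 1
    have e : ((1 : ℤ) + ((K - 1 : ℕ) : ℤ)) = K := by omega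
    rw [e]

theorem gj21_apply (Λ : ℝ → ℝ) (hΛ : Continuous Λ) (τ : ℝ → ℝ) (hτ : Continuous τ) (u : ℝ) :
    ((shear Λ hΛ) * (twist τ hτ) * (shear Λ hΛ)⁻¹ : ℂ ≃ₜ ℂ) (((0 : ℤ) : ℂ) + u * I) =
      ⟨τ (u + Λ 0), (u + Λ 0) - Λ (τ (u + Λ 0))⟩ := by
  have e : (((0 : ℤ) : ℂ) + u * I) = ⟨0, u⟩ := by apply Complex.ext <;> simp
  rw [e]
  show (⟨0 + τ (u + Λ 0), u + Λ 0 - Λ (0 + τ (u + Λ 0))⟩ : ℂ) = _
  rw [zero_add]

/-! ### the ramp -/

theorem gj21_ramp_lo (a b c d y : ℝ) (hcd : c < d) (hy : y ≤ c) : ramp a b c d y = a := by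
  unfold ramp
  have h1 : (y - c) / (d - c) ≤ 0 := div_nonpos_of_nonpos_of_nonneg (by linarith) (by linarith)
  have h2 : min 1 ((y - c) / (d - c)) ≤ 0 := (min_le_right _ _).trans h1
  rw [max_eq_left h2]
  ring

theorem gj21_ramp_hi (a b c d y : ℝ) (hcd : c < d) (hy : d ≤ y) : ramp a b c d y = b := by
  unfold ramp
  have h1 : 1 ≤ (y - c) / (d - c) := by
    rw [le_div_iff₀ (by linarith)]
    linarith
  rw [min_eq_left h1, max_eq_right zero_le_one]
  ring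

theorem gj21_ramp_mid (a b c d t : ℝ) (hcd : c < d) (h0 : 0 ≤ t) (h1 : t ≤ 1) :
    ramp a b c d (c + (d - c) * t) = a + (b - a) * t := by
  unfold ramp
  have hne : d - c ≠ 0 := by linarith
  have e : (c + (d - c) * t - c) / (d - c) = t := by
    field_simp
    ring
  rw [e, min_eq_right h1, max_eq_right h0]

theorem gj21_ramp_mono (a b c d : ℝ) (hab : a ≤ b) (hcd : c < d) : Monotone (ramp a b c d) := by
  intro x y hxy
  unfold ramp
  have h1 : (x - c) / (d - c) ≤ (y - c) / (d - c) :=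
    div_le_div_of_nonneg_right (by linarith) (by linarith)
  have h2 : max 0 (min 1 ((x - c) / (d - c))) ≤ max 0 (min 1 ((y - c) / (d - c))) :=
    max_le_max_left _ (min_le_min_left _ h1)
  have := mul_le_mul_of_nonneg_left h2 (show 0 ≤ b - a by linarith)
  linarith

/-! ### values of `Λ` at half-integers -/

theorem gj21_half {n : ℕ} (hn : 0 < n) (h : Fin n → ℝ)
    (Λ : ℝ → ℝ) (hΛ1 : ∀ x, Λ (x + n) = Λ x)
    (hΛ2 : ∀ i : Fin n, Λ ((i : ℝ) + 1 / 2) = h i) (a : ℤ) (l : ℕ) :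
    Λ ((a : ℝ) * n + l + 1 / 2) = h ⟨l % n, Nat.mod_lt _ hn⟩ := by
  have hp : Function.Periodic Λ (n : ℝ) := hΛ1
  rw [← hΛ2]
  have e : (l : ℝ) = ((l % n : ℕ) : ℝ) + (n : ℝ) * ((l / n : ℕ) : ℝ) := by
    have := Nat.mod_add_div l n
    exact_mod_cast this.symm
  have e3 : ((a + ((l / n : ℕ) : ℤ) : ℤ) : ℝ) = (a : ℝ) + ((l / n : ℕ) : ℝ) := by
    rw [Int.cast_add, Int.cast_natCast]
  have e2 : (a : ℝ) * n + l + 1 / 2 = (((l % n : ℕ) : ℝ) + 1 / 2) +
      ((a + ((l / n : ℕ) : ℤ) : ℤ) : ℝ) * (n : ℝ) := by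
    rw [e3]
    linear_combination e
  rw [e2]
  exact hp.int_mul _ _

theorem gj21_half_int {n : ℕ} (hn : 0 < n) (h : Fin n → ℝ)
    (Λ : ℝ → ℝ) (hΛ1 : ∀ x, Λ (x + n) = Λ x)
    (hΛ2 : ∀ i : Fin n, Λ ((i : ℝ) + 1 / 2) = h i) (k : ℤ) :
    ∃ i : Fin n, Λ ((k : ℝ) + 1 / 2) = h i := by
  have hn' : (0 : ℤ) < n := by exact_mod_cast hn
  have h0 : 0 ≤ k % (n : ℤ) := Int.emod_nonneg _ hn'.ne'
  refine ⟨⟨(k % (n : ℤ)).toNat % n, Nat.mod_lt _ hn⟩, ?_⟩
  · have h1 := gj21_half hn h Λ hΛ1 hΛ2 (k / (n : ℤ)) (k % (n : ℤ)).toNat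
    rw [← h1]
    congr 1
    have e1 : (((k % (n : ℤ)).toNat : ℕ) : ℝ) = ((k % (n : ℤ) : ℤ) : ℝ) := by
      have := Int.toNat_of_nonneg h0
      exact_mod_cast this
    rw [e1]
    have := Int.emod_add_mul_ediv k (n : ℤ)
    have h3 : ((k % (n : ℤ) : ℤ) : ℝ) + (n : ℝ) * ((k / (n : ℤ) : ℤ) : ℝ) = (k : ℝ) := by
      exact_mod_cast this
    linear_combination -h3

/-! ### the word -/

/-- side of the path at time `l` -/
def gj21_s (n m0 : ℕ) (l : ℕ) : Bool := if l = 0 then false else decide ((l - 1) % n < m0)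

theorem gj21_block (m0 : ℕ) (hm0 : 0 < m0) (x y : G) (N : ℕ) :
    ((List.range N).map fun r => if r = 0 then x else if r = m0 then y else 1).prod =
      if N = 0 then 1 else if N ≤ m0 then x else x * y := by
  induction N with
  | zero => simp
  | succ N ih =>
    rw [List.range_succ, List.map_append, List.prod_append, ih]
    simp only [List.map_cons, List.map_nil, List.prod_cons, List.prod_nil, mul_one]
    by_cases h0 : N = 0
    · subst h0
      have : (1 : ℕ) ≤ m0 := hm0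
      simp [this]
    · rw [if_neg h0, if_neg h0, if_neg (Nat.succ_ne_zero N)]
      by_cases h1 : N < m0
      · rw [if_pos h1.le, if_neg h1.ne, if_pos (show N + 1 ≤ m0 by omega), mul_one]
      · by_cases h2 : N = m0
        · rw [if_pos h2.le, if_pos h2, if_neg (by omega)]
        · rw [if_neg (by omega), if_neg h2, if_neg (by omega), mul_one]

theorem gj21_term (n m0 : ℕ) (hm0 : 0 < m0) (hm1 : m0 < n) (a : ℤ) (k r : ℕ) (hr : r < n) :
    crossC (a * n + ((k * n + r : ℕ) : ℤ)) (gj21_s n m0 (k * n + r))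
      (gj21_s n m0 (k * n + r + 1)) =
      if r = 0 then gL ((a + k) * n) else if r = m0 then (gL ((a + k) * n + m0))⁻¹ else 1 := by
  have e1 : gj21_s n m0 (k * n + r + 1) = decide (r < m0) := by
    unfold gj21_s
    rw [if_neg (Nat.succ_ne_zero _), Nat.add_sub_cancel, Nat.mul_add_mod', Nat.mod_eq_of_lt hr]
  have e2 : gj21_s n m0 (k * n + r) = if r = 0 then false else decide (r - 1 < m0) := by
    unfold gj21_s
    by_cases h0 : r = 0
    · subst h0
      rw [if_pos rfl]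
      by_cases hk : k * n + 0 = 0
      · rw [if_pos hk]
      · rw [if_neg hk]
        have hk1 : k ≠ 0 := by
          rintro rfl
          apply hk
          simp
        obtain ⟨k', rfl⟩ := Nat.exists_eq_succ_of_ne_zero hk1
        have e3 : (k'.succ * n + 0 - 1) = k' * n + (n - 1) := by
          rw [Nat.succ_mul]
          omega
        rw [e3, Nat.mul_add_mod', Nat.mod_eq_of_lt (by omega)]
        rw [decide_eq_false_iff_not]
        omega
    · rw [if_neg (show k * n + r ≠ 0 by omega), if_neg h0]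
      have e3 : k * n + r - 1 = k * n + (r - 1) := by omega
      rw [e3, Nat.mul_add_mod', Nat.mod_eq_of_lt (by omega)]
  rw [e1, e2]
  have hj : (a * n + ((k * n + r : ℕ) : ℤ)) = (a + k) * n + r := by
    push_cast
    ring
  rw [hj]
  unfold crossC
  by_cases h0 : r = 0
  · subst h0
    simp [hm0]
  · rw [if_neg h0, if_neg h0]
    by_cases h1 : r = m0
    · subst h1
      have : r - 1 < r := by omega
      simp [this]
    · rw [if_neg h1]
      have : decide (r - 1 < m0) = decide (r < m0) := by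
        rw [decide_eq_decide]
        omega
      rw [this, if_pos rfl]

theorem gj21_prod (n m0 : ℕ) (hm0 : 0 < m0) (hm1 : m0 < n) (a : ℤ) (k : ℕ) :
    twistArc n m0 a k = ((List.range (k * n + 1)).map fun l : ℕ =>
      crossC (a * n + (l : ℤ)) (gj21_s n m0 l) (gj21_s n m0 (l + 1))).prod := by
  have key : ∀ k : ℕ, ((List.range (k * n)).map fun l : ℕ =>
      crossC (a * n + (l : ℤ)) (gj21_s n m0 l) (gj21_s n m0 (l + 1))).prod =
      ((List.range k).map fun l : ℕ => gL ((a + l) * n) * (gL ((a + l) * n + m0))⁻¹).prod := by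
    intro k
    induction k with
    | zero => simp
    | succ k ih =>
      rw [Nat.succ_mul, List.range_add, List.map_append, List.prod_append, ih, List.range_succ,
        List.map_append, List.prod_append, List.map_map]
      congr 1
      have e : ((List.range n).map ((fun l : ℕ =>
          crossC (a * n + (l : ℤ)) (gj21_s n m0 l) (gj21_s n m0 (l + 1))) ∘ fun x => k * n + x)) =
          (List.range n).map fun r => if r = 0 then gL ((a + k) * n) else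
            if r = m0 then (gL ((a + k) * n + m0))⁻¹ else 1 := by
        apply List.map_congr_left
        intro r hr
        rw [List.mem_range] at hr
        exact gj21_term n m0 hm0 hm1 a k r hr
      rw [e, gj21_block m0 hm0, if_neg (by omega), if_neg (by omega)]
      simp
  rw [List.range_succ, List.map_append, List.prod_append, key]
  unfold twistArc
  have h1 := gj21_term n m0 hm0 hm1 a k 0 (by omega)
  rw [if_pos rfl] at h1
  rw [← h1, List.map_cons, List.map_nil, List.prod_cons, List.prod_nil, mul_one, Nat.add_zero]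
  congr 1
  have e1 : (List.range k >>= fun a : ℕ => (pure (a : ℤ) : List ℤ)) =
      (List.range k).map fun a : ℕ => (a : ℤ) := by
    rw [bind_pure_comp]
    rfl
  rw [e1, List.map_map]
  rfl

/-! ### the times -/

/-- height of the path at time `l` -/
def gj21_v (N : ℕ) (c d c0 d0 : ℝ) (l : ℕ) : ℝ :=
  if l = 0 then c0 else if l ≤ N then c + (d - c) * (((l : ℝ) - 1 / 2) / N) else d0

theorem gj21_mid (N l : ℕ) (h1 : l ≠ 0) (h2 : l ≤ N) :
    0 < ((l : ℝ) - 1 / 2) / N ∧ ((l : ℝ) - 1 / 2) / N < 1 := by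
  have hl : (1 : ℝ) ≤ l := by exact_mod_cast Nat.one_le_iff_ne_zero.2 h1
  have hlN : (l : ℝ) ≤ N := by exact_mod_cast h2
  have hN : (0 : ℝ) < N := by linarith
  constructor
  · apply div_pos _ hN
    linarith
  · rw [div_lt_one hN]
    linarith

theorem gj21_v_mid (N : ℕ) (c d c0 d0 : ℝ) (hcd : c < d) (l : ℕ) (h1 : l ≠ 0) (h2 : l ≤ N) :
    c < gj21_v N c d c0 d0 l ∧ gj21_v N c d c0 d0 l < d := by
  unfold gj21_v
  rw [if_neg h1, if_pos h2]
  obtain ⟨h3, h4⟩ := gj21_mid N l h1 h2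
  constructor
  · nlinarith
  · nlinarith

theorem gj21_v_lt (N : ℕ) (c d c0 d0 : ℝ) (hcd : c < d) (hc0 : c0 < c) (hd0 : d < d0) (l : ℕ)
    (hl : l ≤ N) : gj21_v N c d c0 d0 l < gj21_v N c d c0 d0 (l + 1) := by
  by_cases h0 : l = 0
  · subst h0
    have e0 : gj21_v N c d c0 d0 0 = c0 := by
      unfold gj21_v
      rw [if_pos rfl]
    rw [e0]
    by_cases h1 : 0 + 1 ≤ N
    · exact hc0.trans (gj21_v_mid N c d c0 d0 hcd (0 + 1) (by omega) h1).1
    · unfold gj21_v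
      rw [if_neg (by omega), if_neg h1]
      linarith
  · by_cases h1 : l + 1 ≤ N
    · unfold gj21_v
      rw [if_neg h0, if_pos hl, if_neg (by omega), if_pos h1]
      have hN : (0 : ℝ) < N := by
        have : 0 < N := by omega
        exact_mod_cast this
      have h3 : ((l : ℝ) - 1 / 2) / N < (((l + 1 : ℕ) : ℝ) - 1 / 2) / N := by
        apply div_lt_div_of_pos_right _ hN
        push_cast
        linarith
      have := mul_lt_mul_of_pos_left h3 (show 0 < d - c by linarith)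
      linarith
    · have h2 := (gj21_v_mid N c d c0 d0 hcd l h0 hl).2
      have e : gj21_v N c d c0 d0 (l + 1) = d0 := by
        unfold gj21_v
        rw [if_neg (by omega), if_neg h1]
      rw [e]
      linarith

theorem twist_cross {n : ℕ} (hn : 0 < n) (h : Fin n → ℝ)
    (Λ : ℝ → ℝ) (hΛ : Continuous Λ) (hΛ1 : ∀ x, Λ (x + n) = Λ x)
    (hΛ2 : ∀ i : Fin n, Λ ((i : ℝ) + 1 / 2) = h i)
    (hΛ3 : ∀ c, (∀ i, c < h i) → ∀ x, c < Λ x) (hΛ4 : ∀ c, (∀ i, h i < c) → ∀ x, Λ x < c)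
    (m0 : ℕ) (hm0 : 0 < m0) (hm1 : m0 < n) (a : ℤ) (k : ℕ) (c d : ℝ) (hcd : c < d)
    (hlo : ∀ i : Fin n, (i : ℕ) < m0 → h i < c) (hhi : ∀ i : Fin n, m0 ≤ (i : ℕ) → d < h i) :
    CrossWord ((shear Λ hΛ) * (twist (ramp (a * n) ((a + k : ℤ) * n) c d) (ramp_cont _ _ _ _)) *
      (shear Λ hΛ)⁻¹ : ℂ ≃ₜ ℂ) 0 (twistArc n m0 a k) := by
  set τ : ℝ → ℝ := ramp (a * n) ((a + k : ℤ) * n) c d with hτ
  set g : ℂ ≃ₜ ℂ := (shear Λ hΛ) * (twist τ (ramp_cont _ _ _ _)) * (shear Λ hΛ)⁻¹ with hg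
  have hgre : ∀ u : ℝ, (g (((0 : ℤ) : ℂ) + u * I)).re = τ (u + Λ 0) := by
    intro u
    rw [hg, gj21_apply]
  have hgim : ∀ u : ℝ, (g (((0 : ℤ) : ℂ) + u * I)).im = (u + Λ 0) - Λ (τ (u + Λ 0)) := by
    intro u
    rw [hg, gj21_apply]
  have hnR : (0 : ℝ) < n := by exact_mod_cast hn
  have hkn : (a : ℝ) * n ≤ ((a + k : ℤ) : ℝ) * n := by
    push_cast
    have : (0 : ℝ) ≤ k := Nat.cast_nonneg k
    nlinarith
  have hmono : Monotone τ := gj21_ramp_mono _ _ _ _ hkn hcd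
  -- bounds of the heights
  obtain ⟨c0, hc0, hc0'⟩ : ∃ c0 : ℝ, c0 < c ∧ ∀ i, c0 < h i := by
    obtain ⟨M, hM⟩ := (Set.finite_range h).bddBelow
    refine ⟨min c M - 1, ?_, fun i => ?_⟩
    · have := min_le_left c M
      linarith
    · have h1 := min_le_right c M
      have h2 := hM (Set.mem_range_self i)
      linarith
  obtain ⟨d0, hd0, hd0'⟩ : ∃ d0 : ℝ, d < d0 ∧ ∀ i, h i < d0 := by
    obtain ⟨M, hM⟩ := (Set.finite_range h).bddAbove
    refine ⟨max d M + 1, ?_, fun i => ?_⟩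
    · have := le_max_left d M
      linarith
    · have h1 := le_max_right d M
      have h2 := hM (Set.mem_range_self i)
      linarith
  -- zeros of the imaginary part do not lie over half-integers
  have hzero : ∀ v : ℝ, ∀ K : ℤ, τ v = K + 1 / 2 → v - Λ (τ v) = 0 → False := by
    intro v K h1 h2
    obtain ⟨i, hi⟩ := gj21_half_int hn h Λ hΛ1 hΛ2 K
    rw [h1, hi] at h2
    by_cases him : (i : ℕ) < m0
    · have h3 := hlo i him
      have h4 : τ v = a * n := gj21_ramp_lo _ _ _ _ _ hcd (by linarith)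
      rw [h4] at h1
      have h5 : ((2 * (a * n) : ℤ) : ℝ) = ((2 * K + 1 : ℤ) : ℝ) := by
        push_cast
        linarith
      have h6 : 2 * (a * n) = 2 * K + 1 := by exact_mod_cast h5
      omega
    · have h3 := hhi i (by omega)
      have h4 : τ v = (a + k : ℤ) * n := gj21_ramp_hi _ _ _ _ _ hcd (by linarith)
      rw [h4] at h1
      have h5 : ((2 * ((a + k) * n) : ℤ) : ℝ) = ((2 * K + 1 : ℤ) : ℝ) := by
        push_cast
        push_cast at h1
        linarith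
      have h6 : 2 * ((a + k) * n) = 2 * K + 1 := by exact_mod_cast h5
      omega
  -- values of `τ` at the times
  set V : ℕ → ℝ := gj21_v (k * n) c d c0 d0 with hV
  have hV0 : V 0 = c0 := by
    rw [hV]
    unfold gj21_v
    rw [if_pos rfl]
  have hVr : V (k * n + 1) = d0 := by
    rw [hV]
    unfold gj21_v
    rw [if_neg (by omega), if_neg (by omega)]
  have hVτ : ∀ l : ℕ, l ≠ 0 → l ≤ k * n → τ (V l) = a * n + l - 1 / 2 := by
    intro l h1 h2
    obtain ⟨h3, h4⟩ := gj21_mid (k * n) l h1 h2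
    have e : V l = c + (d - c) * (((l : ℝ) - 1 / 2) / ((k * n : ℕ) : ℝ)) := by
      rw [hV]
      unfold gj21_v
      rw [if_neg h1, if_pos h2]
    rw [e, hτ, gj21_ramp_mid _ _ _ _ _ hcd h3.le h4.le]
    have hkn0 : ((k * n : ℕ) : ℝ) ≠ 0 := by
      have : k * n ≠ 0 := by omega
      exact_mod_cast this
    have e2 : (((a + k : ℤ) : ℝ) * n - a * n) = ((k * n : ℕ) : ℝ) := by
      push_cast
      ring
    rw [e2, mul_div_cancel₀ _ hkn0]
    ring
  have hτ0 : τ c0 = a * n := gj21_ramp_lo _ _ _ _ _ hcd hc0.le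
  have hτr : τ d0 = (a + k : ℤ) * n := gj21_ramp_hi _ _ _ _ _ hcd hd0.le
  have hlow : ∀ l : ℕ, l ≤ k * n → a * n + l - 1 / 2 ≤ τ (V l) := by
    intro l hl
    by_cases h0 : l = 0
    · subst h0
      rw [hV0, hτ0]
      push_cast
      linarith
    · rw [hVτ l h0 hl]
  have hup : ∀ l : ℕ, l ≤ k * n → τ (V (l + 1)) ≤ a * n + l + 1 / 2 := by
    intro l hl
    by_cases h0 : l + 1 ≤ k * n
    · rw [hVτ (l + 1) (by omega) h0]
      push_cast
      linarith
    · have : l = k * n := by omega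
      subst this
      rw [hVr, hτr]
      push_cast
      linarith
  refine ⟨k * n + 1, fun l => V l - Λ 0, gj21_s n m0, fun l => a * n + (l : ℤ), ?_, ?_, ?_, ?_, ?_,
    gj21_prod n m0 hm0 hm1 a k⟩
  · intro l hl
    have := gj21_v_lt (k * n) c d c0 d0 hcd hc0 hd0 l (by omega)
    simp only
    linarith
  · intro u hu
    simp only at hu
    rw [hV0] at hu
    rw [hgim]
    have := hΛ3 c0 hc0' (τ (u + Λ 0))
    linarith
  · intro u hu
    simp only at hu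
    rw [hVr] at hu
    rw [hgim]
    have := hΛ4 d0 hd0' (τ (u + Λ 0))
    linarith
  · intro l hl
    rw [hgim]
    have e0 : V l - Λ 0 + Λ 0 = V l := by ring
    rw [e0]
    by_cases h0 : l = 0
    · subst h0
      have es : gj21_s n m0 0 = false := by
        unfold gj21_s
        rw [if_pos rfl]
      rw [es]
      simp only [Bool.false_eq_true, if_false]
      rw [hV0]
      have := hΛ3 c0 hc0' (τ c0)
      linarith
    · have es : gj21_s n m0 l = decide ((l - 1) % n < m0) := by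
        unfold gj21_s
        rw [if_neg h0]
      rw [es]
      by_cases h1 : l ≤ k * n
      · have hv := gj21_v_mid (k * n) c d c0 d0 hcd l h0 h1
        rw [← hV] at hv
        have e1 : τ (V l) = (a : ℝ) * n + ((l - 1 : ℕ) : ℝ) + 1 / 2 := by
          rw [hVτ l h0 h1, Nat.cast_sub (Nat.one_le_iff_ne_zero.2 h0)]
          push_cast
          ring
        have e2 := gj21_half hn h Λ hΛ1 hΛ2 a (l - 1)
        rw [e1, e2]
        by_cases h2 : (l - 1) % n < m0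
        · have h3 := hlo ⟨(l - 1) % n, Nat.mod_lt _ hn⟩ h2
          simp only [h2, decide_true, if_true]
          linarith [hv.1]
        · have h3 := hhi ⟨(l - 1) % n, Nat.mod_lt _ hn⟩ (by simpa using h2)
          simp only [h2, decide_false, Bool.false_eq_true, if_false]
          linarith [hv.2]
      · have hl' : l = k * n + 1 := by omega
        subst hl'
        have h2 : (k * n + 1 - 1) % n < m0 := by
          rw [Nat.add_sub_cancel, Nat.mul_mod_left]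
          exact hm0
        simp only [h2, decide_true, if_true]
        rw [hVr]
        have := hΛ4 d0 hd0' (τ d0)
        linarith
  · intro l hl u hu1 hu2 him
    rw [hgim] at him
    rw [hgre]
    simp only at hu1 hu2
    have h1 : τ (V l) ≤ τ (u + Λ 0) := hmono (by linarith)
    have h2 : τ (u + Λ 0) ≤ τ (V (l + 1)) := hmono (by linarith)
    have h3 := hlow l (by omega)
    have h4 := hup l (by omega)
    push_cast
    rw [abs_lt]
    constructor
    · apply lt_of_le_of_ne (by linarith)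
      intro h5
      apply hzero (u + Λ 0) (a * n + l - 1) _ him
      push_cast
      linarith
    · apply lt_of_le_of_ne (by linarith)
      intro h5
      apply hzero (u + Λ 0) (a * n + l) _ him
      push_cast
      linarith

theorem exists_K (f : ℂ ≃ₜ ℂ) (hf : f ∈ SH 1) (γ : ℝ → ℂ) (hγ : Continuous γ)
    (hγ2 : ∀ u, (γ u).im = u) (a b : ℝ) :
    ∃ K : ℕ, 1 ≤ K ∧ ∀ u, a ≤ (f.symm (γ u)).im → (f.symm (γ u)).im ≤ b →
      (f.symm (γ u)).re < K := by
  obtain ⟨a', ha'⟩ := sh_lower hf a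
  obtain ⟨b', hb'⟩ := sh_upper hf b
  have hcont : ContinuousOn (fun u => (f.symm (γ u)).re) (Set.Icc a' b') :=
    (continuous_re.comp (f.symm.continuous.comp hγ)).continuousOn
  obtain ⟨C, hC⟩ := (isCompact_Icc.image_of_continuousOn hcont).bddAbove
  refine ⟨⌈C⌉₊ + 1, by omega, ?_⟩
  intro u h1 h2
  have h3 := ha' _ h1
  have h4 := hb' _ h2
  rw [f.apply_symm_apply, hγ2] at h3 h4
  have h5 : (f.symm (γ u)).re ≤ C := hC ⟨u, ⟨h3, h4⟩, rfl⟩
  have h6 : C ≤ ⌈C⌉₊ := Nat.le_ceil C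
  push_cast
  linarith

theorem gj22_gap {n : ℕ} (h : Fin n → ℝ) (y : ℝ) (hy : ∀ i, h i ≠ y) :
    ∃ y' : ℝ, y < y' ∧ y' ≤ y + 1 ∧ ∀ i, h i < y ∨ y' < h i := by
  have h1 : ∀ᶠ y' in nhdsWithin y (Set.Ioi y), ∀ i, h i < y ∨ y' < h i := by
    rw [Filter.eventually_all]
    intro i
    rcases lt_or_gt_of_ne (hy i) with h2 | h2
    · exact Filter.Eventually.of_forall fun _ => Or.inl h2
    · filter_upwards [mem_nhdsWithin_of_mem_nhds (Iio_mem_nhds h2)] with y' hy'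
      exact Or.inr hy'
  have h2 : ∀ᶠ y' in nhdsWithin y (Set.Ioi y), y < y' := self_mem_nhdsWithin
  have h3 : ∀ᶠ y' in nhdsWithin y (Set.Ioi y), y' < y + 1 :=
    mem_nhdsWithin_of_mem_nhds (Iio_mem_nhds (by linarith))
  obtain ⟨y', h4, h5, h6⟩ := (h1.and (h2.and h3)).exists
  exact ⟨y', h5, h6.le, h4⟩

theorem gj22_Xadd (X : ℂ ≃ₜ ℂ) (hX2 : ∀ z, X (z + 1) = X z + 1) (l : ℤ) (z : ℂ) :
    X (z + l) = X z + l := by
  induction l using Int.induction_on with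
  | zero => simp
  | succ i ih =>
    push_cast at ih ⊢
    rw [← add_assoc, hX2, ih]
    ring
  | pred i ih =>
    have h := hX2 (z + ((-(i : ℤ) - 1 : ℤ) : ℂ))
    have e : z + ((-(i : ℤ) - 1 : ℤ) : ℂ) + 1 = z + ((-(i : ℤ) : ℤ) : ℂ) := by
      push_cast
      ring
    rw [e, ih] at h
    have h2 : X (z + ((-(i : ℤ) - 1 : ℤ) : ℂ)) = X z + ((-(i : ℤ) : ℤ) : ℂ) - 1 := by
      rw [h]
      ring
    rw [h2]
    push_cast
    ring

theorem gj22_Xint (X : ℂ ≃ₜ ℂ) (hX2 : ∀ z, X (z + 1) = X z + 1)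
    (hX4 : ∀ z : ℂ, z.re = 0 → (X z).re = 0) (l : ℤ) (z : ℂ) (hz : z.re = l) :
    (X z).re = l := by
  have h := gj22_Xadd X hX2 l (z - l)
  rw [sub_add_cancel] at h
  rw [h, Complex.add_re, hX4 (z - l) (by simp [hz]), Complex.intCast_re, zero_add]

theorem gj22_Xlt (X : ℂ ≃ₜ ℂ) (hX2 : ∀ z, X (z + 1) = X z + 1)
    (hX3 : ∀ z w : ℂ, z.im = w.im → z.re < w.re → (X z).re < (X w).re)
    (hX4 : ∀ z : ℂ, z.re = 0 → (X z).re = 0) (l : ℤ) (z : ℂ) (hz : z.re < l) :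
    (X z).re < l := by
  have h := hX3 z ⟨l, z.im⟩ rfl hz
  rwa [gj22_Xint X hX2 hX4 l ⟨l, z.im⟩ rfl] at h

theorem gj22_Xle (X : ℂ ≃ₜ ℂ) (hX2 : ∀ z, X (z + 1) = X z + 1)
    (hX3 : ∀ z w : ℂ, z.im = w.im → z.re < w.re → (X z).re < (X w).re)
    (hX4 : ∀ z : ℂ, z.re = 0 → (X z).re = 0) (l : ℤ) (z : ℂ) (hz : (X z).re ≤ l) :
    z.re ≤ l := by
  by_contra hcon
  push Not at hcon
  have h := hX3 ⟨l, z.im⟩ z rfl hcon
  rw [gj22_Xint X hX2 hX4 l ⟨l, z.im⟩ rfl] at h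
  linarith

theorem gj22_ramp_lo (a b c d y : ℝ) (hcd : c < d) (hy : y ≤ c) : ramp a b c d y = a := by
  unfold ramp
  have h1 : (y - c) / (d - c) ≤ 0 := div_nonpos_of_nonpos_of_nonneg (by linarith) (by linarith)
  have h2 : max 0 (min 1 ((y - c) / (d - c))) = 0 := max_eq_left ((min_le_right _ _).trans h1)
  rw [h2]
  ring

theorem gj22_ramp_hi (a b c d y : ℝ) (hcd : c < d) (hy : d ≤ y) : ramp a b c d y = b := by
  unfold ramp
  have h1 : 1 ≤ (y - c) / (d - c) := by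
    rw [le_div_iff₀ (by linarith)]
    linarith
  rw [min_eq_left h1, max_eq_right (by norm_num)]
  ring

theorem gj22_ramp_ge (a b c d y : ℝ) (hab : a ≤ b) : a ≤ ramp a b c d y := by
  unfold ramp
  have h1 : 0 ≤ (b - a) * max 0 (min 1 ((y - c) / (d - c))) :=
    mul_nonneg (by linarith) (le_max_left _ _)
  linarith

theorem gj22_ramp_le (a b c d y : ℝ) (hab : a ≤ b) : ramp a b c d y ≤ b := by
  unfold ramp
  have h0 : max 0 (min 1 ((y - c) / (d - c))) ≤ 1 := max_le (by norm_num) (min_le_left _ _)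
  have h1 : (b - a) * max 0 (min 1 ((y - c) / (d - c))) ≤ (b - a) * 1 :=
    mul_le_mul_of_nonneg_left h0 (by linarith)
  linarith

theorem gj22_zpow (m : ℤ) (z : ℂ) : (transl 1 ^ m) z = z + m := by
  induction m using Int.induction_on generalizing z with
  | zero => simp
  | succ i ih =>
    rw [zpow_add_one]
    show (transl 1 ^ (i : ℤ)) (transl 1 z) = _
    rw [ih]
    show z + ((1 : ℤ) : ℂ) + _ = _
    push_cast
    ring
  | pred i ih =>
    have h := ih ((transl 1)⁻¹ z)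
    rw [zpow_sub_one]
    show (transl 1 ^ (-(i : ℤ))) ((transl 1)⁻¹ z) = _
    rw [h]
    show z + -((1 : ℤ) : ℂ) + _ = _
    push_cast
    ring

theorem gj22_transl_SH : transl 1 ∈ SH 1 := by
  have h := (transl_mem_HX 1).1
  rw [Int.cast_one] at h
  exact h

/-- the last path -/
theorem gj22_left (n : ℝ) (hn : 0 < n) (hn' : n ≠ 0) (X : ℂ ≃ₜ ℂ)
    (hX1 : ∀ z, (X z).im = z.im) (hX2 : ∀ z, X (z + 1) = X z + 1)
    (hX3 : ∀ z w : ℂ, z.im = w.im → z.re < w.re → (X z).re < (X w).re)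
    (hX4 : ∀ z : ℂ, z.re = 0 → (X z).re = 0) (Λ : ℝ → ℝ) (hΛ : Continuous Λ)
    (yd yX yE yS : ℝ) (hlo : ∀ x, yd < Λ x) (hhi : ∀ x, Λ x < yX) (k K : ℕ)
    (τ0 τ1 : ℝ → ℝ) (hτ0 : Continuous τ0) (hτ1 : Continuous τ1) (h1 : ∀ y, τ0 y ≤ 0)
    (h2 : ∀ y, y ≤ yE → τ0 y = -k * n) (h3 : ∀ y, n ≤ τ1 y) (h4 : ∀ y, yS + 1 ≤ y → τ1 y = K * n)
    (f : ℂ ≃ₜ ℂ)
    (hf : ∀ w : ℂ, yd ≤ w.im → w.im ≤ yS + 1 → (f w).re ≤ 0 →
      ((f w).im ≤ yE → (f w).re ≤ -k) → w.re < 1)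
    (hK : ∀ u : ℝ, yd ≤ (f.symm (X.symm ⟨n⁻¹ * τ0 u, u⟩)).im →
      (f.symm (X.symm ⟨n⁻¹ * τ0 u, u⟩)).im ≤ yX → (f.symm (X.symm ⟨n⁻¹ * τ0 u, u⟩)).re < K)
    (u : ℝ)
    (h0 : ((shear Λ hΛ * (twist τ1 hτ1)⁻¹ * dilate n hn' * X * f⁻¹ * X⁻¹ * (dilate n hn')⁻¹ *
      twist τ0 hτ0 * (shear Λ hΛ)⁻¹ : ℂ ≃ₜ ℂ) (u * I)).im = 0) :
    ((shear Λ hΛ * (twist τ1 hτ1)⁻¹ * dilate n hn' * X * f⁻¹ * X⁻¹ * (dilate n hn')⁻¹ *
      twist τ0 hτ0 * (shear Λ hΛ)⁻¹ : ℂ ≃ₜ ℂ) (u * I)).re < 1 / 2 := by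
  have hsh : (shear Λ hΛ)⁻¹ (u * I) = ⟨0, u + Λ 0⟩ := by
    show (⟨((u : ℂ) * I).re, ((u : ℂ) * I).im + Λ ((u : ℂ) * I).re⟩ : ℂ) = _
    have e1 : ((u : ℂ) * I).re = 0 := by simp
    have e2 : ((u : ℂ) * I).im = u := by simp
    rw [e1, e2]
  obtain ⟨v, hv⟩ : ∃ v : ℝ, v = u + Λ 0 := ⟨_, rfl⟩
  have hD : (dilate n hn')⁻¹ ((twist τ0 hτ0) ((shear Λ hΛ)⁻¹ (u * I))) = ⟨n⁻¹ * τ0 v, v⟩ := by
    rw [hsh, ← hv]
    show (⟨n⁻¹ * (0 + τ0 v), v⟩ : ℂ) = _
    rw [zero_add]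
  obtain ⟨γ, hγ⟩ : ∃ γ : ℂ, γ = X.symm ⟨n⁻¹ * τ0 v, v⟩ := ⟨_, rfl⟩
  obtain ⟨w, hw⟩ : ∃ w : ℂ, w = f.symm γ := ⟨_, rfl⟩
  have hval : (shear Λ hΛ * (twist τ1 hτ1)⁻¹ * dilate n hn' * X * f⁻¹ * X⁻¹ * (dilate n hn')⁻¹ *
      twist τ0 hτ0 * (shear Λ hΛ)⁻¹ : ℂ ≃ₜ ℂ) (u * I) =
      ⟨n * (X w).re - τ1 w.im, w.im - Λ (n * (X w).re - τ1 w.im)⟩ := by
    show (shear Λ hΛ) ((twist τ1 hτ1)⁻¹ (dilate n hn' (X (f.symm (X.symm ((dilate n hn')⁻¹
      ((twist τ0 hτ0) ((shear Λ hΛ)⁻¹ (u * I))))))))) = _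
    rw [hD, ← hγ, ← hw]
    show (⟨n * (X w).re - τ1 (X w).im, (X w).im - Λ (n * (X w).re - τ1 (X w).im)⟩ : ℂ) = _
    rw [hX1]
  rw [hval] at h0 ⊢
  have h0' : w.im - Λ (n * (X w).re - τ1 w.im) = 0 := h0
  show n * (X w).re - τ1 w.im < 1 / 2
  have hw1 : yd < w.im := by
    have := hlo (n * (X w).re - τ1 w.im)
    linarith
  have hw2 : w.im < yX := by
    have := hhi (n * (X w).re - τ1 w.im)
    linarith
  have hfw : f w = γ := by rw [hw]; exact f.apply_symm_apply γ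
  have hXγ : X γ = ⟨n⁻¹ * τ0 v, v⟩ := by rw [hγ]; exact X.apply_symm_apply _
  have hγim : γ.im = v := by
    rw [← hX1, hXγ]
  rcases le_or_gt w.im (yS + 1) with hc | hc
  · have hw3 : w.re < 1 := by
      apply hf w hw1.le hc
      · rw [hfw]
        have := gj22_Xle X hX2 hX3 hX4 0 γ (by
          rw [hXγ, Int.cast_zero]
          exact mul_nonpos_of_nonneg_of_nonpos (inv_nonneg.2 hn.le) (h1 v))
        simpa using this
      · rw [hfw, hγim]
        intro hvE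
        have := gj22_Xle X hX2 hX3 hX4 (-k) γ (by
          rw [hXγ]
          show n⁻¹ * τ0 v ≤ _
          rw [h2 v hvE]
          push_cast
          apply le_of_eq
          field_simp)
        simpa using this
    have hw4 : (X w).re < 1 := by
      have := gj22_Xlt X hX2 hX3 hX4 1 w (by simpa using hw3)
      simpa using this
    have h5 := h3 w.im
    have h6 : n * (X w).re < n * 1 := mul_lt_mul_of_pos_left hw4 hn
    linarith
  · have hw3 : w.re < K := by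
      have := hK v
      rw [← hγ, ← hw] at this
      exact this hw1.le hw2.le
    have hw4 : (X w).re < K := by
      have := gj22_Xlt X hX2 hX3 hX4 K w (by simpa using hw3)
      simpa using this
    rw [h4 w.im hc.le]
    have h6 : n * (X w).re < n * K := mul_lt_mul_of_pos_left hw4 hn
    linarith

/-- product of conjugates -/
theorem gj22_prod {H : Type} [Group H] (Φ : H) (L : List (H × H)) (a b : H × H → H)
    (c d : H × H → H) (h1 : ∀ p ∈ L, c p = Φ * a p * Φ⁻¹) (h2 : ∀ p ∈ L, d p = Φ * b p * Φ⁻¹) :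
    (L.map fun p => cm (c p) (d p)).prod = Φ * (L.map fun p => cm (a p) (b p)).prod * Φ⁻¹ := by
  induction L with
  | nil => simp
  | cons p L ih =>
    rw [List.map_cons, List.prod_cons, List.map_cons, List.prod_cons,
      ih (fun q hq => h1 q (List.mem_cons_of_mem _ hq)) (fun q hq => h2 q (List.mem_cons_of_mem _ hq)),
      h1 p List.mem_cons_self, h2 p List.mem_cons_self]
    unfold cm
    group

theorem gj22_T {n : ℕ} (X : ℂ ≃ₜ ℂ) (hX2 : ∀ z, X (z + 1) = X z + 1)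
    (Λ : ℝ → ℝ) (hΛ : Continuous Λ) (hΛ1 : ∀ x, Λ (x + n) = Λ x) (hn' : (n : ℝ) ≠ 0) :
    (shear Λ hΛ * dilate n hn' * X) * transl 1 * (shear Λ hΛ * dilate n hn' * X)⁻¹ =
      transl n := by
  rw [mul_inv_eq_iff_eq_mul]
  apply Homeomorph.ext
  intro z
  show (⟨n * (X (z + ((1 : ℤ) : ℂ))).re, (X (z + ((1 : ℤ) : ℂ))).im -
    Λ (n * (X (z + ((1 : ℤ) : ℂ))).re)⟩ : ℂ) =
    (⟨n * (X z).re, (X z).im - Λ (n * (X z).re)⟩ : ℂ) + ((n : ℤ) : ℂ)
  rw [Int.cast_one, hX2]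
  have e : (n : ℝ) * (X z + 1).re = n * (X z).re + n := by
    rw [Complex.add_re, Complex.one_re]
    ring
  rw [e, hΛ1]
  apply Complex.ext
  · simp
  · simp

theorem gj22_coe_cm {H : Type} [Group H] (K : Subgroup H) (x y : K) :
    ((cm x y : K) : H) = cm (x : H) (y : H) := by
  unfold cm
  rw [Subgroup.coe_mul, Subgroup.coe_mul, Subgroup.coe_mul, Subgroup.coe_inv, Subgroup.coe_inv]

theorem gj22_cont (c : ℝ) (τ : ℝ → ℝ) (hτ : Continuous τ) (X : ℂ ≃ₜ ℂ) :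
    Continuous fun u : ℝ => X.symm (⟨c * τ u, u⟩ : ℂ) := by
  have h1 : Continuous fun u : ℝ => (⟨c * τ u, u⟩ : ℂ) := by
    have e : (fun u : ℝ => (⟨c * τ u, u⟩ : ℂ)) = fun u : ℝ => ((c * τ u : ℝ) : ℂ) + (u : ℂ) * I := by
      funext u
      exact Complex.mk_eq_add_mul_I _ _
    rw [e]
    exact (Complex.continuous_ofReal.comp (continuous_const.mul hτ)).add
      (Complex.continuous_ofReal.mul continuous_const)
  exact X.symm.continuous.comp h1

theorem gj22_bound {n : ℕ} (h : Fin n → ℝ) : ∃ y : ℝ, ∀ i, h i < y := by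
  obtain ⟨y, hy⟩ := (Set.finite_range h).bddAbove
  exact ⟨y + 1, fun i => (hy ⟨i, rfl⟩).trans_lt (by linarith)⟩

theorem block_G (L : List ((ℂ ≃ₜ ℂ) × (ℂ ≃ₜ ℂ))) (hL : ∀ p ∈ L, CoverArea p.1 ∧ CoverArea p.2)
    (m : ℤ) (y0 : ℝ) (h : ∀ z : ℂ, y0 ≤ z.im → (L.map fun p => cm p.1 p.2).prod z = z + m) :
    ∃ n B nE k K : ℕ, 2 ≤ nE ∧ nE < B ∧ B + 2 ≤ n ∧ 3 * k * nE ≤ B ∧ 1 ≤ K ∧
      ∃ L' : List (HX (n : ℤ) × HX (n : ℤ)), L'.length = L.length ∧
      ∃ g0 g1 : HX (n : ℤ), CrossWord (g0 : ℂ ≃ₜ ℂ) 0 (arc0 n nE k) ∧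
        CrossWord (g1 : ℂ ≃ₜ ℂ) 0 (arc1 n B K) ∧
        ∀ u : ℝ, (((g1⁻¹ * (((⟨transl n, transl_mem_HX n⟩ : HX (n : ℤ)) ^ m)⁻¹ *
          (L'.map fun p => cm p.1 p.2).prod)⁻¹ * g0 : HX (n : ℤ)) : ℂ ≃ₜ ℂ) (u * I)).im = 0 →
          (((g1⁻¹ * (((⟨transl n, transl_mem_HX n⟩ : HX (n : ℤ)) ^ m)⁻¹ *
          (L'.map fun p => cm p.1 p.2).prod)⁻¹ * g0 : HX (n : ℤ)) : ℂ ≃ₜ ℂ) (u * I)).re < 1 / 2 := by
  obtain ⟨yE, c1, hc1, hest⟩ := est L (fun p hp => ⟨(hL p hp).1.1, (hL p hp).2.1⟩) m y0 h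
  obtain ⟨cn, yd, hmod⟩ := modif (L.flatMap fun p => [p.1, p.2]) (by
    intro F hF
    obtain ⟨p, hp, hF⟩ := List.mem_flatMap.1 hF
    simp only [List.mem_cons, List.not_mem_nil, or_false] at hF
    rcases hF with rfl | rfl
    · exact (hL p hp).1
    · exact (hL p hp).2) c1
  obtain ⟨k, hk⟩ := hest cn yd
  obtain ⟨yS, hES, hmod2⟩ := hmod k yE hc1
  obtain ⟨yf, ε, hε, hk2⟩ := hk (yS + 1)
  obtain ⟨n, nE, B, P, hP1, hP2, hP3, hP4, hP5, hP6, hnE, hEB, hBn, hkB, hFs⟩ := hmod2 yf ε hε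
  choose! κ hκ1 hκ2 using hFs
  have hn : 0 < n := by omega
  have hnR : (0 : ℝ) < n := by exact_mod_cast hn
  have hn' : (n : ℝ) ≠ 0 := hnR.ne'
  obtain ⟨X, hX1, hX2, hX3, hX4, hX5⟩ := exists_chi P hP1 hP2
  obtain ⟨Λ, hΛ, hΛ1, hΛ2, hΛ3, hΛ4⟩ := exists_height hn (fun i => (P i).im)
  obtain ⟨yE', hE1, -, hE2⟩ := gj22_gap (fun i => (P i).im) yE (fun i => (hP4 i).1)
  obtain ⟨yS', hS1, hS2, hS3⟩ := gj22_gap (fun i => (P i).im) yS (fun i => (hP4 i).2)
  obtain ⟨yX, hyX⟩ := gj22_bound (fun i => (P i).im)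
  have hmem : ∀ p ∈ L, p.1 ∈ (L.flatMap fun p => [p.1, p.2]) ∧
      p.2 ∈ (L.flatMap fun p => [p.1, p.2]) := by
    intro p hp
    exact ⟨List.mem_flatMap.2 ⟨p, hp, by simp⟩, List.mem_flatMap.2 ⟨p, hp, by simp⟩⟩
  -- the modified list
  obtain ⟨a, ha⟩ : ∃ a : (ℂ ≃ₜ ℂ) × (ℂ ≃ₜ ℂ) → (ℂ ≃ₜ ℂ), a = fun p => κ p.1 * p.1 := ⟨_, rfl⟩
  obtain ⟨b, hb⟩ : ∃ b : (ℂ ≃ₜ ℂ) × (ℂ ≃ₜ ℂ) → (ℂ ≃ₜ ℂ), b = fun p => κ p.2 * p.2 := ⟨_, rfl⟩
  have haS : ∀ p ∈ L, a p ∈ SH 1 := by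
    intro p hp
    rw [ha]
    exact mul_mem (hκ1 _ (hmem p hp).1).mem (hL p hp).1.1
  have hbS : ∀ p ∈ L, b p ∈ SH 1 := by
    intro p hp
    rw [hb]
    exact mul_mem (hκ1 _ (hmem p hp).2).mem (hL p hp).2.1
  have haX : ∀ p ∈ L, ∀ z, a p z ∈ XT P ↔ z ∈ XT P := by
    intro p hp
    rw [ha]
    exact hκ2 _ (hmem p hp).1
  have hbX : ∀ p ∈ L, ∀ z, b p z ∈ XT P ↔ z ∈ XT P := by
    intro p hp
    rw [hb]
    exact hκ2 _ (hmem p hp).2
  have hF2 : List.Forall₂ (PertPairs cn c1 yf ε) L (L.map fun p => (a p, b p)) := by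
    rw [List.forall₂_map_right_iff, List.forall₂_same]
    intro p hp
    refine ⟨κ p.1, κ p.2, hκ1 _ (hmem p hp).1, hκ1 _ (hmem p hp).2, ?_⟩
    rw [ha, hb]
  obtain ⟨W, hW⟩ : ∃ W : ℂ ≃ₜ ℂ, W = (L.map fun p => cm (a p) (b p)).prod := ⟨_, rfl⟩
  have hW1 : ((L.map fun p => (a p, b p)).map fun p => cm p.1 p.2).prod = W := by
    rw [hW, List.map_map]
    rfl
  have hWS : W ∈ SH 1 := by
    rw [hW]
    apply Subgroup.list_prod_mem
    intro x hx
    obtain ⟨p, hp, rfl⟩ := List.mem_map.1 hx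
    exact mul_mem (mul_mem (mul_mem (haS p hp) (hbS p hp)) (inv_mem (haS p hp)))
      (inv_mem (hbS p hp))
  obtain ⟨f, hf⟩ : ∃ f : ℂ ≃ₜ ℂ, f = (transl 1 ^ m)⁻¹ * W := ⟨_, rfl⟩
  have hfS : f ∈ SH 1 := by
    rw [hf]
    exact mul_mem (inv_mem (Subgroup.zpow_mem _ gj22_transl_SH m)) hWS
  have hfw : ∀ w, f w = W w - m := by
    intro w
    rw [hf]
    show (transl 1 ^ m).symm (W w) = _
    rw [Homeomorph.symm_apply_eq, gj22_zpow]
    ring
  -- the conjugation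
  obtain ⟨Φ, hΦ⟩ : ∃ Φ : ℂ ≃ₜ ℂ, Φ = shear Λ hΛ * dilate n hn' * X := ⟨_, rfl⟩
  have hconj : ∃ conj : (ℂ ≃ₜ ℂ) → HX (n : ℤ), ∀ F, F ∈ SH 1 → (∀ z, F z ∈ XT P ↔ z ∈ XT P) →
      (conj F : ℂ ≃ₜ ℂ) = Φ * F * Φ⁻¹ := by
    refine ⟨fun F => if hF : F ∈ SH 1 ∧ ∀ z, F z ∈ XT P ↔ z ∈ XT P then
      ⟨Φ * F * Φ⁻¹, by
        rw [hΦ]
        exact conj_mem_HX hn P X hX1 hX2 hX3 hX5 Λ hΛ hΛ1 hΛ2 hn' F hF.1 hF.2⟩ else 1, ?_⟩
    intro F h1 h2
    show ((if hF : F ∈ SH 1 ∧ ∀ z, F z ∈ XT P ↔ z ∈ XT P then _ else 1 : HX (n : ℤ)) : ℂ ≃ₜ ℂ) = _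
    rw [dif_pos ⟨h1, h2⟩]
  obtain ⟨conj, hconj⟩ := hconj
  -- the twists
  obtain ⟨τ0, hτ0⟩ : ∃ τ0 : ℝ → ℝ,
      τ0 = ramp (((-(k : ℤ) : ℤ) : ℝ) * n) (((-(k : ℤ) + k : ℤ) : ℝ) * n) yE yE' := ⟨_, rfl⟩
  have hτ0c : Continuous τ0 := by rw [hτ0]; exact ramp_cont _ _ _ _
  obtain ⟨K, hK1, hK⟩ := exists_K f hfS (fun u => X.symm ⟨(n : ℝ)⁻¹ * τ0 u, u⟩)
    (gj22_cont _ τ0 hτ0c X) (fun u => by
      rw [← hX1]
      show (X (X.symm _)).im = u
      rw [X.apply_symm_apply]) yd yX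
  have hKc : ((1 + ((K - 1 : ℕ) : ℤ) : ℤ) : ℝ) = K := by
    have : (1 + ((K - 1 : ℕ) : ℤ) : ℤ) = (K : ℤ) := by omega
    rw [this]
    norm_num
  obtain ⟨τ1, hτ1⟩ : ∃ τ1 : ℝ → ℝ,
      τ1 = ramp (((1 : ℤ) : ℝ) * n) (((1 + ((K - 1 : ℕ) : ℤ) : ℤ) : ℝ) * n) yS yS' := ⟨_, rfl⟩
  have hτ1c : Continuous τ1 := by rw [hτ1]; exact ramp_cont _ _ _ _
  have hg0 := twist_cross hn (fun i => (P i).im) Λ hΛ hΛ1 hΛ2 hΛ3 hΛ4 nE (by omega) (by omega)
    (-(k : ℤ)) k yE yE' hE1 (fun i hi => (hP5 i).2 hi) (fun i hi => by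
      rcases hE2 i with h3 | h3
      · exact absurd ((hP5 i).1 h3) (by omega)
      · exact h3)
  rw [twistArc_arc0] at hg0
  have hg1 := twist_cross hn (fun i => (P i).im) Λ hΛ hΛ1 hΛ2 hΛ3 hΛ4 B (by omega) (by omega)
    1 (K - 1) yS yS' hS1 (fun i hi => (hP6 i).2 hi) (fun i hi => by
      rcases hS3 i with h3 | h3
      · exact absurd ((hP6 i).1 h3) (by omega)
      · exact h3)
  rw [twistArc_arc1 n B K hK1] at hg1
  have hm0 := twist_mem_HX hn (fun i => (P i).im) Λ hΛ hΛ1 hΛ2 (-(k : ℤ)) (-(k : ℤ) + k) yE yE'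
    hE1 hE2
  have hm1 := twist_mem_HX hn (fun i => (P i).im) Λ hΛ hΛ1 hΛ2 1 (1 + ((K - 1 : ℕ) : ℤ)) yS yS'
    hS1 hS3
  refine ⟨n, B, nE, k, K, hnE, hEB, hBn, hkB, hK1, L.map fun p => (conj (a p), conj (b p)),
    List.length_map _, ⟨_, hm0⟩, ⟨_, hm1⟩, hg0, hg1, ?_⟩
  have hprod : ((((L.map fun p => (conj (a p), conj (b p))).map
      fun p => cm p.1 p.2).prod : HX (n : ℤ)) : ℂ ≃ₜ ℂ) = Φ * W * Φ⁻¹ := by
    rw [Subgroup.val_list_prod, List.map_map, List.map_map, hW,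
      ← gj22_prod Φ L a b (fun p => (conj (a p) : ℂ ≃ₜ ℂ)) (fun p => (conj (b p) : ℂ ≃ₜ ℂ))
      (fun p hp => hconj _ (haS p hp) (haX p hp)) (fun p hp => hconj _ (hbS p hp) (hbX p hp))]
    congr 1
  have hT := gj22_T X hX2 Λ hΛ hΛ1 hn'
  rw [← hΦ] at hT
  have hleft := gj22_left (n : ℝ) hnR hn' X hX1 hX2 hX3 hX4 Λ hΛ yd yX yE yS (hΛ3 yd hP3)
    (hΛ4 yX hyX) k K τ0 τ1 hτ0c hτ1c (fun y => by
      rw [hτ0]
      refine (gj22_ramp_le _ _ _ _ _ ?_).trans ?_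
      · apply mul_le_mul_of_nonneg_right _ hnR.le
        have : (-(k : ℤ) : ℤ) ≤ (-(k : ℤ) + k : ℤ) := by omega
        exact_mod_cast this
      · have : (-(k : ℤ) + k : ℤ) = 0 := by omega
        rw [this]
        simp) (fun y hy => by
      rw [hτ0, gj22_ramp_lo _ _ _ _ _ hE1 hy]
      push_cast
      ring) (fun y => by
      rw [hτ1]
      refine _root_.le_trans ?_ (gj22_ramp_ge _ _ _ _ _ ?_)
      · simp
      · apply mul_le_mul_of_nonneg_right _ hnR.le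
        have : (1 : ℤ) ≤ (1 + ((K - 1 : ℕ) : ℤ) : ℤ) := by omega
        exact_mod_cast this) (fun y hy => by
      rw [hτ1, gj22_ramp_hi _ _ _ _ _ hS1 (hS2.trans hy), hKc]) f
    (fun w hw1 hw2 hw3 hw4 => by
      apply hk2 _ hF2 w hw1 hw2
      · rw [hW1, ← hfw]
        exact hw3
      · rw [hW1, ← hfw]
        exact hw4) hK
  intro u
  have hG : (((⟨_, hm1⟩ : HX (n : ℤ))⁻¹ * (((⟨transl n, transl_mem_HX n⟩ : HX (n : ℤ)) ^ m)⁻¹ *
      ((L.map fun p => (conj (a p), conj (b p))).map fun p => cm p.1 p.2).prod)⁻¹ *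
      (⟨_, hm0⟩ : HX (n : ℤ)) : HX (n : ℤ)) : ℂ ≃ₜ ℂ) =
      shear Λ hΛ * (twist τ1 hτ1c)⁻¹ * dilate n hn' * X * f⁻¹ * X⁻¹ * (dilate n hn')⁻¹ *
      twist τ0 hτ0c * (shear Λ hΛ)⁻¹ := by
    rw [Subgroup.coe_mul, Subgroup.coe_mul, Subgroup.coe_inv, Subgroup.coe_inv, Subgroup.coe_mul,
      Subgroup.coe_inv, Subgroup.coe_zpow, hprod]
    show _⁻¹ * ((transl n ^ m)⁻¹ * _)⁻¹ * _ = _
    rw [← hT, conj_zpow, hf, hΦ]
    subst hτ0 hτ1
    group
  rw [hG]
  exact hleft u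

theorem transl_comm {n : ℤ} (g : HX n) :
    g * ⟨transl n, transl_mem_HX n⟩ = ⟨transl n, transl_mem_HX n⟩ * g := by
  apply Subtype.ext
  apply Homeomorph.ext
  intro z
  have h : (g : ℂ ≃ₜ ℂ) (z + ((n : ℝ) : ℂ)) = (g : ℂ ≃ₜ ℂ) z + ((n : ℝ) : ℂ) := g.2.1.1 z
  have e : (((n : ℝ)) : ℂ) = (n : ℂ) := by push_cast; rfl
  rw [e] at h
  exact h

theorem gj18_shG (n i : ℤ) : shG n (gL i) = gL (i + n) := by
  unfold shG gL
  simp

theorem psi_transl {n : ℤ} (Ψ : HX n →* MulAut G)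
    (t3 : ∀ (g : HX n) (i : ℤ) (r : ℕ) (t : ℕ → ℝ) (s : ℕ → Bool) (j : ℕ → ℤ),
        (∀ l < r, t l < t (l + 1)) →
        (∀ u ≤ t 0, ((g : ℂ ≃ₜ ℂ) (i + u * I)).im < 0) →
        (∀ u, t r ≤ u → 0 < ((g : ℂ ≃ₜ ℂ) (i + u * I)).im) →
        (∀ l ≤ r, if s l then 0 < ((g : ℂ ≃ₜ ℂ) (i + t l * I)).im
          else ((g : ℂ ≃ₜ ℂ) (i + t l * I)).im < 0) →
        (∀ l < r, ∀ u, t l ≤ u → u ≤ t (l + 1) → ((g : ℂ ≃ₜ ℂ) (i + u * I)).im = 0 →
          |((g : ℂ ≃ₜ ℂ) (i + u * I)).re - j l| < 1 / 2) →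
        Ψ g (gL i) = ((List.range r).map fun l => crossC (j l) (s l) (s (l + 1))).prod) :
    Ψ ⟨transl n, transl_mem_HX n⟩ = shG n := by
  have him : ∀ (i : ℤ) (u : ℝ), (transl n ((i : ℂ) + u * I)).im = u := by
    intro i u
    rw [gj18_transl_apply]
    simp
  have hre : ∀ (i : ℤ) (u : ℝ), (transl n ((i : ℂ) + u * I)).re = i + n := by
    intro i u
    rw [gj18_transl_apply]
    simp
  have hgen : ∀ i : ℤ, Ψ ⟨transl n, transl_mem_HX n⟩ (gL i) = shG n (gL i) := by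
    intro i
    have h := t3 ⟨transl n, transl_mem_HX n⟩ i 1 (fun l => 2 * (l : ℝ) - 1)
      (fun l => decide (l = 1)) (fun _ => i + n) (by
        intro l _
        push_cast
        linarith) (by
        intro u hu
        show (transl n ((i : ℂ) + u * I)).im < 0
        rw [him]
        norm_num at hu
        linarith) (by
        intro u hu
        show 0 < (transl n ((i : ℂ) + u * I)).im
        rw [him]
        norm_num at hu
        linarith) (by
        intro l hl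
        have h0 : l = 0 ∨ l = 1 := by omega
        rcases h0 with rfl | rfl
        · rw [if_neg (by simp)]
          show (transl n ((i : ℂ) + ((2 * ((0 : ℕ) : ℝ) - 1 : ℝ) : ℂ) * I)).im < 0
          rw [him]
          norm_num
        · rw [if_pos (by simp)]
          show 0 < (transl n ((i : ℂ) + ((2 * ((1 : ℕ) : ℝ) - 1 : ℝ) : ℂ) * I)).im
          rw [him]
          norm_num) (by
        intro l _ u _ _ _
        show |(transl n ((i : ℂ) + u * I)).re - ((i + n : ℤ) : ℝ)| < 1 / 2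
        rw [hre]
        push_cast
        rw [sub_self, abs_zero]
        norm_num)
    rw [h, gj18_shG]
    simp [crossC]
  apply MulEquiv.toMonoidHom_injective
  apply FreeGroup.ext_hom
  intro i
  exact hgen i

/-- MAIN LEMMA in the strip -/
theorem strip_main (L : List ((ℂ ≃ₜ ℂ) × (ℂ ≃ₜ ℂ)))
    (hL : ∀ p ∈ L, CoverArea p.1 ∧ CoverArea p.2)
    (m : ℤ) (y0 : ℝ) (h : ∀ z : ℂ, y0 ≤ z.im → (L.map fun p => cm p.1 p.2).prod z = z + m) :
    m ≤ 2 * L.length + 3 := by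
  obtain ⟨n, B, nE, k, K, h1, h2, h3, h4, h5, L', hlen, g0, g1, hg0, hg1, hleft⟩ :=
    block_G L hL m y0 h
  have hn : (0 : ℤ) < (n : ℤ) := by omega
  have hn3 : (3 : ℤ) ≤ (n : ℤ) := by omega
  obtain ⟨Ψ, t0, t2, t3, t4⟩ := block_TOP (n : ℤ) hn
  set T : HX (n : ℤ) := ⟨transl n, transl_mem_HX n⟩ with hT
  have hTΨ : Ψ T = shG n := psi_transl Ψ t3
  have hA : ∀ g : HX (n : ℤ), ∃ u : List Letter,
      evW (by omega : (2:ℤ) ≤ (n : ℤ)) u = Ψ g := by
    intro g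
    apply block_A (n : ℤ) hn3
    · rw [← hTΨ, ← map_mul, ← map_mul]
      exact congrArg Ψ (transl_comm g)
    · exact t0 g 0
    · exact t2 g
  have hcm : ∀ x y : HX (n : ℤ), Ψ (cm x y) = cm (Ψ x) (Ψ y) := by
    intro x y
    simp [cm]
  rw [← hlen]
  have key := block_Z n B nE k K h1 (by omega) h2 h3 h4 h5 m
    (L'.map fun p => (Ψ p.1, Ψ p.2)) (by
      intro p hp
      obtain ⟨q, hq, rfl⟩ := List.mem_map.1 hp
      obtain ⟨u, hu⟩ := hA q.1
      obtain ⟨v, hv⟩ := hA q.2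
      exact ⟨u, v, hu, hv⟩)
    (Ψ ((T ^ m)⁻¹ * (L'.map fun p => cm p.1 p.2).prod)) (by
      rw [map_mul, map_inv, map_zpow, hTΨ, mul_inv_cancel_left, map_list_prod, List.map_map,
        List.map_map]
      congr 1
      apply List.map_congr_left
      intro p hp
      simp [hcm]) (Ψ g0) (Ψ g1)
    (by
      obtain ⟨r, t, s, j, c1, c2, c3, c4, c5, c6⟩ := hg0
      rw [c6]
      exact t3 g0 0 r t s j c1 c2 c3 c4 c5)
    (by
      obtain ⟨r, t, s, j, c1, c2, c3, c4, c5, c6⟩ := hg1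
      rw [c6]
      exact t3 g1 0 r t s j c1 c2 c3 c4 c5)
    (hA g1)
    (by
      have := t4 (g1⁻¹ * ((T ^ m)⁻¹ * (L'.map fun p => cm p.1 p.2).prod)⁻¹ * g0) hleft
      rw [map_mul, map_mul, map_inv, map_inv] at this
      exact this)
  simpa using key

end

end MWC
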