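import Pool.Agent.Lib.MP_cbfcf7.D0

/-!
# Two facts about the definition of orientation preserving homeomorphisms
-/

namespace MWC

noncomputable section

open scoped Classical
open Complex MeasureTheory

/-- pairs of distinct points -/
abbrev RJ11Pair : Type := {p : ℂ × ℂ // p.1 ≠ p.2}

/-- chord ratio along an isotopy -/
def rj11_ratio (H : ℝ → ℂ → ℂ) (hH : Continuous fun p : ℝ × ℂ => H p.1 p.2)
    (hinj : ∀ t, Function.Injective (H t)) : C(unitInterval × RJ11Pair, {z : ℂ // z ≠ 0}) where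
  toFun q := ⟨(H q.1 q.2.1.2 - H q.1 q.2.1.1) / (q.2.1.2 - q.2.1.1), by
    apply div_ne_zero
    · intro h
      exact q.2.2 ((hinj q.1 (sub_eq_zero.1 h)).symm)
    · intro h
      exact q.2.2 (sub_eq_zero.1 h).symm⟩
  continuous_toFun := by
    apply Continuous.subtype_mk
    apply Continuous.div
    · apply Continuous.sub
      · exact hH.comp (f := fun q : unitInterval × RJ11Pair => ((q.1 : ℝ), q.2.1.2)) (by fun_prop)
      · exact hH.comp (f := fun q : unitInterval × RJ11Pair => ((q.1 : ℝ), q.2.1.1)) (by fun_prop)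
    · fun_prop
    · intro q h
      exact q.2.2 (sub_eq_zero.1 h).symm

theorem orientationPreserving_of_isotopy (H : ℝ → ℂ → ℂ)
    (hH : Continuous fun p : ℝ × ℂ => H p.1 p.2) (h0 : ∀ z, H 0 z = z)
    (hinj : ∀ t, Function.Injective (H t)) (f : ℂ ≃ₜ ℂ) (hf : ∀ z, f z = H 1 z) :
    OrientationPreserving f := by
  have hstart : ∀ a : RJ11Pair, (rj11_ratio H hH hinj) (0, a) =
      (fun z : ℂ => (⟨_, z.exp_ne_zero⟩ : {z : ℂ // z ≠ 0})) ((ContinuousMap.const RJ11Pair (0 : ℂ)) a) := by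
    intro a
    apply Subtype.ext
    show (H ((0 : unitInterval) : ℝ) a.1.2 - H ((0 : unitInterval) : ℝ) a.1.1) / (a.1.2 - a.1.1) = exp 0
    rw [Complex.exp_zero]
    have e : ((0 : unitInterval) : ℝ) = 0 := rfl
    rw [e, h0, h0]
    exact div_self (fun h => a.2 (sub_eq_zero.1 h).symm)
  let G : C(unitInterval × RJ11Pair, ℂ) := Complex.isCoveringMap_exp.liftHomotopy
    (rj11_ratio H hH hinj) (ContinuousMap.const RJ11Pair (0 : ℂ)) hstart
  have hG : ∀ a : RJ11Pair, exp (G (1, a)) = (f a.1.2 - f a.1.1) / (a.1.2 - a.1.1) := by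
    intro a
    have h1 := congrFun (Complex.isCoveringMap_exp.liftHomotopy_lifts
      (rj11_ratio H hH hinj) (ContinuousMap.const RJ11Pair (0 : ℂ)) hstart) (1, a)
    have h2 := congrArg Subtype.val h1
    have h3 : exp (G (1, a)) =
        (H ((1 : unitInterval) : ℝ) a.1.2 - H ((1 : unitInterval) : ℝ) a.1.1) / (a.1.2 - a.1.1) := h2
    have e : ((1 : unitInterval) : ℝ) = 1 := rfl
    rw [h3, e, hf, hf]
  refine ⟨fun x y => if h : x ≠ y then (G (1, ⟨(x, y), h⟩)).im / (2 * Real.pi) else 0, ?_, ?_, ?_⟩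
  · intro x
    simp
  · rw [continuousOn_iff_continuous_domRestrict]
    have e : Set.domRestrict {p : ℂ × ℂ | p.1 ≠ p.2} (fun p : ℂ × ℂ =>
        if h : p.1 ≠ p.2 then (G (1, ⟨(p.1, p.2), h⟩)).im / (2 * Real.pi) else 0) =
        fun a : {p : ℂ × ℂ | p.1 ≠ p.2} => (G (1, (⟨a.1, a.2⟩ : RJ11Pair))).im / (2 * Real.pi) := by
      funext a
      exact dif_pos a.2
    rw [e]
    apply Continuous.div_const
    apply Complex.continuous_im.comp
    exact G.continuous.comp (f := fun a : {p : ℂ × ℂ | p.1 ≠ p.2} =>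
      ((1 : unitInterval), (⟨a.1, a.2⟩ : RJ11Pair))) (by fun_prop)
  · intro x y hxy
    refine ⟨Real.exp (G (1, ⟨(x, y), hxy⟩)).re, Real.exp_pos _, ?_⟩
    have h1 := hG ⟨(x, y), hxy⟩
    rw [eq_div_iff (fun h => hxy (sub_eq_zero.1 h).symm)] at h1
    rw [dif_pos hxy, ← h1]
    congr 1
    rw [Complex.ofReal_exp, ← Complex.exp_add]
    congr 1
    have hpi : (Real.pi : ℂ) ≠ 0 := by exact_mod_cast Real.pi_ne_zero
    push_cast
    conv_lhs => rw [← Complex.re_add_im (G (1, ⟨(x, y), hxy⟩))]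
    field_simp

theorem rj12_int {s x : ℝ} (hs : 0 < s) (h : (1 : ℂ) = s * exp (2 * Real.pi * I * x)) :
    ∃ k : ℤ, x = k := by
  have e1 : (2 * Real.pi * I * x : ℂ) = ((2 * Real.pi * x : ℝ) : ℂ) * I := by
    push_cast
    ring
  have h1 : s = 1 := by
    have h2 := congrArg norm h
    rw [norm_mul, e1, Complex.norm_exp_ofReal_mul_I, mul_one, norm_one, Complex.norm_real,
      Real.norm_eq_abs, abs_of_pos hs] at h2
    exact h2.symm
  rw [h1, Complex.ofReal_one, one_mul] at h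
  obtain ⟨n, hn⟩ := Complex.exp_eq_one_iff.1 h.symm
  refine ⟨n, ?_⟩
  have h3 : ((2 * Real.pi : ℝ) : ℂ) * I ≠ 0 := by
    apply mul_ne_zero
    · exact_mod_cast Real.two_pi_pos.ne'
    · exact I_ne_zero
  have h4 : (x : ℂ) = n := by
    apply mul_right_cancel₀ h3
    push_cast
    linear_combination hn
  exact_mod_cast h4

theorem not_orientationPreserving_conj :
    ¬ OrientationPreserving Complex.conjCLE.toHomeomorph := by
  rintro ⟨θ, h⟩
  have hy0 : ∀ t : ℝ, exp (2 * Real.pi * I * t) ≠ 0 := fun t => exp_ne_zero _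
  have hg : Continuous fun t : ℝ => θ 0 (exp (2 * Real.pi * I * t)) + 2 * t := by
    have h1 : Continuous fun t : ℝ => θ 0 (exp (2 * Real.pi * I * t)) :=
      h.cont.comp_continuous (f := fun t : ℝ => ((0 : ℂ), exp (2 * Real.pi * I * t)))
        (by fun_prop) (fun t => (hy0 t).symm)
    exact h1.add (by fun_prop)
  have hint : ∀ t : ℝ, ∃ k : ℤ, θ 0 (exp (2 * Real.pi * I * t)) + 2 * t = k := by
    intro t
    obtain ⟨s, hs, h1⟩ := h.angle 0 (exp (2 * Real.pi * I * t)) (hy0 t).symm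
    refine rj12_int hs ?_
    have h2 : Complex.conjCLE.toHomeomorph (exp (2 * Real.pi * I * t)) =
        exp (-(2 * Real.pi * I * t)) := by
      show (starRingEnd ℂ) (exp (2 * Real.pi * I * t)) = _
      rw [← Complex.exp_conj]
      congr 1
      simp only [map_mul, Complex.conj_ofReal, Complex.conj_I, map_ofNat]
      ring
    have h3 : Complex.conjCLE.toHomeomorph (0 : ℂ) = 0 := map_zero (starRingEnd ℂ)
    rw [h2, h3, sub_zero, sub_zero, Complex.exp_neg] at h1
    have h4 : (1 : ℂ) = s * exp (2 * Real.pi * I * θ 0 (exp (2 * Real.pi * I * t))) *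
        (exp (2 * Real.pi * I * t) * exp (2 * Real.pi * I * t)) := by
      rw [← mul_assoc, ← h1, inv_mul_cancel₀ (hy0 t)]
    rw [h4, mul_assoc, ← Complex.exp_add, ← Complex.exp_add]
    congr 2
    push_cast
    ring
  have h01 : exp (2 * Real.pi * I * (1 : ℝ)) = exp (2 * Real.pi * I * (0 : ℝ)) := by
    rw [Complex.ofReal_one, mul_one, Complex.exp_two_pi_mul_I, Complex.ofReal_zero, mul_zero,
      Complex.exp_zero]
  have hiv := intermediate_value_Icc (zero_le_one' ℝ) hg.continuousOn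
  have hmem : θ 0 (exp (2 * Real.pi * I * (0 : ℝ))) + 2 * (0 : ℝ) + 1 / 2 ∈
      Set.Icc (θ 0 (exp (2 * Real.pi * I * (0 : ℝ))) + 2 * (0 : ℝ))
        (θ 0 (exp (2 * Real.pi * I * (1 : ℝ))) + 2 * (1 : ℝ)) := by
    rw [h01]
    constructor <;> linarith
  obtain ⟨t, -, ht⟩ := hiv hmem
  obtain ⟨k, hk⟩ := hint t
  obtain ⟨k0, hk0⟩ := hint 0
  have h5 : (k : ℝ) = k0 + 1 / 2 := by
    rw [← hk, ← hk0]
    exact ht
  have h6 : (2 * k : ℤ) = 2 * k0 + 1 := by
    have : (2 * k : ℝ) = 2 * k0 + 1 := by rw [h5]; ring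
    exact_mod_cast this
  omega

end

end MWC
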