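import Pool.Agent.Lib.MP_cbfcf7.S0
import Pool.Agent.Lib.MP_cbfcf7.G2

/-!
# Block R: reduction of the plane to the strip, and the final theorem
-/

namespace MWC

noncomputable section

open scoped Classical
open Complex MeasureTheory

/-! ### agreement near infinity -/

/-- agreement near infinity of two lifted homeomorphisms -/
def EqInf (A B : LH) : Prop :=
  ∃ R : ℝ, (∀ x : ℂ, R ≤ ‖x‖ → A.f x = B.f x) ∧
    ∀ x y : ℂ, R ≤ ‖x‖ → R ≤ ‖y‖ → A.θ x y = B.θ x y

theorem homeo_proper (f : ℂ ≃ₜ ℂ) (R : ℝ) : ∃ R' : ℝ, ∀ x : ℂ, R' ≤ ‖x‖ → R ≤ ‖f x‖ := by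
  have h1 : IsCompact (f ⁻¹' Metric.closedBall (0 : ℂ) R) :=
    f.isCompact_preimage.2 (isCompact_closedBall 0 R)
  obtain ⟨r, hr⟩ := h1.isBounded.subset_ball (0 : ℂ)
  refine ⟨r, fun x hx => ?_⟩
  by_contra hlt
  push Not at hlt
  have h2 : x ∈ f ⁻¹' Metric.closedBall (0 : ℂ) R := by
    rw [Set.mem_preimage, Metric.mem_closedBall, dist_zero_right]
    exact hlt.le
  have h3 := hr h2
  rw [Metric.mem_ball, dist_zero_right] at h3
  linarith

theorem EqInf.refl (A : LH) : EqInf A A := ⟨0, fun _ _ => rfl, fun _ _ _ _ => rfl⟩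

theorem EqInf.mul {A A' B B' : LH} (h : EqInf A A') (h' : EqInf B B') :
    EqInf (A * B) (A' * B') := by
  obtain ⟨R1, h1, h2⟩ := h
  obtain ⟨R2, h3, h4⟩ := h'
  obtain ⟨R3, h5⟩ := homeo_proper B.f R1
  refine ⟨max R2 R3, fun x hx => ?_, fun x y hx hy => ?_⟩
  · show A.f (B.f x) = A'.f (B'.f x)
    rw [← h3 x (_root_.le_trans (le_max_left _ _) hx)]
    exact h1 _ (h5 x (_root_.le_trans (le_max_right _ _) hx))
  · show A.θ (B.f x) (B.f y) + B.θ x y = A'.θ (B'.f x) (B'.f y) + B'.θ x y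
    rw [← h3 x (_root_.le_trans (le_max_left _ _) hx), ← h3 y (_root_.le_trans (le_max_left _ _) hy),
      h2 _ _ (h5 x (_root_.le_trans (le_max_right _ _) hx)) (h5 y (_root_.le_trans (le_max_right _ _) hy)),
      h4 x y (_root_.le_trans (le_max_left _ _) hx) (_root_.le_trans (le_max_left _ _) hy)]

theorem EqInf.inv {A A' : LH} (h : EqInf A A') : EqInf A⁻¹ A'⁻¹ := by
  obtain ⟨R1, h1, h2⟩ := h
  obtain ⟨R3, h5⟩ := homeo_proper A.f⁻¹ R1
  have key : ∀ x : ℂ, R3 ≤ ‖x‖ → (A.f⁻¹ : ℂ ≃ₜ ℂ) x = (A'.f⁻¹ : ℂ ≃ₜ ℂ) x := by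
    intro x hx
    have h6 := h1 _ (h5 x hx)
    have e1 : A.f ((A.f⁻¹ : ℂ ≃ₜ ℂ) x) = x := A.f.apply_symm_apply x
    rw [e1] at h6
    have e2 : (A'.f⁻¹ : ℂ ≃ₜ ℂ) (A'.f ((A.f⁻¹ : ℂ ≃ₜ ℂ) x)) = (A.f⁻¹ : ℂ ≃ₜ ℂ) x :=
      A'.f.symm_apply_apply _
    rw [← h6] at e2
    exact e2.symm
  refine ⟨R3, fun x hx => key x hx, fun x y hx hy => ?_⟩
  show -A.θ ((A.f⁻¹ : ℂ ≃ₜ ℂ) x) ((A.f⁻¹ : ℂ ≃ₜ ℂ) y) = -A'.θ ((A'.f⁻¹ : ℂ ≃ₜ ℂ) x) ((A'.f⁻¹ : ℂ ≃ₜ ℂ) y)
  rw [← key x hx, ← key y hy, h2 _ _ (h5 x hx) (h5 y hy)]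

theorem EqInf.cm {A A' B B' : LH} (h : EqInf A A') (h' : EqInf B B') :
    EqInf (MWC.cm A B) (MWC.cm A' B') := by
  unfold MWC.cm
  exact ((h.mul h').mul h.inv).mul h'.inv

/-- radial angle function -/
def rj4_G (S : ℝ) (x : ℂ) : ℝ := Real.pi * Real.smoothTransition (S - (x.re ^ 2 + x.im ^ 2))

theorem rj4_G_nonneg (S : ℝ) (x : ℂ) : 0 ≤ rj4_G S x :=
  mul_nonneg Real.pi_pos.le (Real.smoothTransition.nonneg _)

theorem rj4_G_le (S : ℝ) (x : ℂ) : rj4_G S x ≤ Real.pi :=
  mul_le_of_le_one_right Real.pi_pos.le (Real.smoothTransition.le_one _)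

theorem rj4_sq (x : ℂ) : x.re ^ 2 + x.im ^ 2 = ‖x‖ ^ 2 := by
  rw [← Complex.normSq_eq_norm_sq, Complex.normSq_apply]
  ring

theorem rj4_G_zero {S : ℝ} {x : ℂ} (h : S ≤ ‖x‖ ^ 2) : rj4_G S x = 0 := by
  unfold rj4_G
  rw [Real.smoothTransition.zero_of_nonpos, mul_zero]
  rw [rj4_sq]
  linarith

theorem rj4_G_one {S : ℝ} {x : ℂ} (h : ‖x‖ ^ 2 + 1 ≤ S) : rj4_G S x = Real.pi := by
  unfold rj4_G
  rw [Real.smoothTransition.one_of_one_le, mul_one]
  rw [rj4_sq]
  linarith

theorem rj4_G_congr {S : ℝ} {x y : ℂ} (h : ‖x‖ = ‖y‖) : rj4_G S x = rj4_G S y := by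
  unfold rj4_G
  rw [rj4_sq, rj4_sq, h]

theorem rj4_G_contDiff (S : ℝ) : ContDiff ℝ 1 (rj4_G S) := by
  unfold rj4_G
  have h1 : ContDiff ℝ 1 (fun x : ℂ => x.re) := Complex.reCLM.contDiff
  have h2 : ContDiff ℝ 1 (fun x : ℂ => x.im) := Complex.imCLM.contDiff
  exact contDiff_const.mul (Real.smoothTransition.contDiff.comp
    (contDiff_const.sub ((h1.pow 2).add (h2.pow 2))))

theorem rj4_G_cont (S : ℝ) : Continuous (rj4_G S) := (rj4_G_contDiff S).continuous

theorem rj4_G_lip (S : ℝ) : ∃ C : ℝ, 0 ≤ C ∧ ∀ x y : ℂ, |rj4_G S y - rj4_G S x| ≤ C * ‖y - x‖ := by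
  have hc : HasCompactSupport (rj4_G S) := by
    apply HasCompactSupport.of_support_subset_isCompact
      (isCompact_closedBall (0 : ℂ) (|S| + 1))
    intro x hx
    rw [mem_closedBall_zero_iff]
    by_contra hcon
    push Not at hcon
    apply hx
    apply rj4_G_zero
    have h1 : S ≤ |S| := le_abs_self S
    have h2 : 0 ≤ |S| := abs_nonneg S
    nlinarith
  obtain ⟨C, hC⟩ := (rj4_G_contDiff S).lipschitzWith_of_hasCompactSupport hc (by norm_num)
  refine ⟨C, C.2, fun x y => ?_⟩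
  have := hC.dist_le_mul y x
  rwa [Real.dist_eq, dist_eq_norm] at this

theorem rj4_exp_sub (a b : ℝ) : ‖exp (I * a) - exp (I * b)‖ ≤ |a - b| := by
  have h : exp (I * a) - exp (I * b) = exp (I * b) * (exp (I * ((a - b : ℝ) : ℂ)) - 1) := by
    rw [mul_sub, ← Complex.exp_add, mul_one]
    congr 2
    push_cast
    ring
  rw [h, norm_mul]
  have h1 : ‖exp (I * (b : ℂ))‖ = 1 := by
    rw [mul_comm]
    exact Complex.norm_exp_ofReal_mul_I b
  rw [h1, one_mul]
  exact Real.norm_exp_I_mul_ofReal_sub_one_le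

theorem rj4_norm_exp (a : ℝ) : ‖exp (I * (a : ℂ))‖ = 1 := by
  rw [mul_comm]
  exact Complex.norm_exp_ofReal_mul_I a

/-- the twist -/
def rj4_m (S t : ℝ) (x : ℂ) : ℂ := x * exp (I * ((t * rj4_G S x : ℝ) : ℂ))

theorem rj4_m_norm (S t : ℝ) (x : ℂ) : ‖rj4_m S t x‖ = ‖x‖ := by
  unfold rj4_m
  rw [norm_mul, rj4_norm_exp, mul_one]

theorem rj4_m_add (S s t : ℝ) (x : ℂ) : rj4_m S s (rj4_m S t x) = rj4_m S (s + t) x := by
  have h1 : rj4_G S (rj4_m S t x) = rj4_G S x := rj4_G_congr (rj4_m_norm S t x)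
  have h2 : rj4_m S s (rj4_m S t x) = rj4_m S t x * exp (I * ((s * rj4_G S (rj4_m S t x) : ℝ) : ℂ)) :=
    rfl
  rw [h2, h1]
  unfold rj4_m
  rw [mul_assoc, ← Complex.exp_add]
  congr 2
  push_cast
  ring

theorem rj4_m_zero (S : ℝ) (x : ℂ) : rj4_m S 0 x = x := by
  unfold rj4_m
  simp

theorem rj4_m_cont (S t : ℝ) : Continuous (rj4_m S t) := by
  unfold rj4_m
  have := rj4_G_cont S
  fun_prop

theorem rj4_m_far {S : ℝ} (t : ℝ) {x : ℂ} (h : S ≤ ‖x‖ ^ 2) : rj4_m S t x = x := by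
  unfold rj4_m
  rw [rj4_G_zero h]
  simp

/-- the twist as a homeomorphism -/
def rj4_M (S t : ℝ) : ℂ ≃ₜ ℂ where
  toFun := rj4_m S t
  invFun := rj4_m S (-t)
  left_inv := fun x => by
    rw [rj4_m_add, neg_add_cancel, rj4_m_zero]
  right_inv := fun x => by
    rw [rj4_m_add, add_neg_cancel, rj4_m_zero]
  continuous_toFun := rj4_m_cont S t
  continuous_invFun := rj4_m_cont S (-t)

theorem rj4_lip (S : ℝ) (hS : 0 ≤ S) : ∃ C : ℝ, 0 ≤ C ∧ ∀ (t : ℝ) (x y : ℂ),
    ‖(rj4_m S t y - rj4_m S t x) - (y - x)‖ ≤ |t| * C * ‖y - x‖ := by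
  obtain ⟨C, hC0, hC⟩ := rj4_G_lip S
  set R := Real.sqrt S with hR
  have hR0 : 0 ≤ R := Real.sqrt_nonneg S
  have hRS : R ^ 2 = S := Real.sq_sqrt hS
  have key : ∀ (t : ℝ) (x y : ℂ), ‖x‖ ≤ R →
      ‖(rj4_m S t y - rj4_m S t x) - (y - x)‖ ≤ |t| * (Real.pi + R * C) * ‖y - x‖ := by
    intro t x y hx
    have e : (rj4_m S t y - rj4_m S t x) - (y - x) =
        (y - x) * (exp (I * ((t * rj4_G S y : ℝ) : ℂ)) - 1) +
          x * (exp (I * ((t * rj4_G S y : ℝ) : ℂ)) - exp (I * ((t * rj4_G S x : ℝ) : ℂ))) := by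
      unfold rj4_m
      ring
    rw [e]
    refine (norm_add_le _ _).trans ?_
    rw [norm_mul, norm_mul]
    have h1 : ‖exp (I * ((t * rj4_G S y : ℝ) : ℂ)) - 1‖ ≤ |t| * Real.pi := by
      refine Real.norm_exp_I_mul_ofReal_sub_one_le.trans ?_
      rw [Real.norm_eq_abs, abs_mul, abs_of_nonneg (rj4_G_nonneg S y)]
      exact mul_le_mul_of_nonneg_left (rj4_G_le S y) (abs_nonneg t)
    have h2 : ‖exp (I * ((t * rj4_G S y : ℝ) : ℂ)) - exp (I * ((t * rj4_G S x : ℝ) : ℂ))‖ ≤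
        |t| * (C * ‖y - x‖) := by
      refine (rj4_exp_sub _ _).trans ?_
      rw [← mul_sub, abs_mul]
      exact mul_le_mul_of_nonneg_left (hC x y) (abs_nonneg t)
    calc ‖y - x‖ * ‖exp (I * ((t * rj4_G S y : ℝ) : ℂ)) - 1‖ + ‖x‖ *
          ‖exp (I * ((t * rj4_G S y : ℝ) : ℂ)) - exp (I * ((t * rj4_G S x : ℝ) : ℂ))‖
        ≤ ‖y - x‖ * (|t| * Real.pi) + R * (|t| * (C * ‖y - x‖)) := by
          apply add_le_add
          · exact mul_le_mul_of_nonneg_left h1 (norm_nonneg _)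
          · exact mul_le_mul hx h2 (norm_nonneg _) hR0
      _ = |t| * (Real.pi + R * C) * ‖y - x‖ := by ring
  refine ⟨Real.pi + R * C, add_nonneg Real.pi_pos.le (mul_nonneg hR0 hC0), fun t x y => ?_⟩
  rcases le_total ‖x‖ R with hx | hx
  · exact key t x y hx
  · rcases le_total ‖y‖ R with hy | hy
    · have h1 := key t y x hy
      rw [norm_sub_rev x y] at h1
      have e : (rj4_m S t y - rj4_m S t x) - (y - x) =
        - ((rj4_m S t x - rj4_m S t y) - (x - y)) := by ring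
      rw [e, norm_neg]
      exact h1
    · have hx' : S ≤ ‖x‖ ^ 2 := by
        rw [← hRS]
        exact pow_le_pow_left₀ hR0 hx 2
      have hy' : S ≤ ‖y‖ ^ 2 := by
        rw [← hRS]
        exact pow_le_pow_left₀ hR0 hy 2
      rw [rj4_m_far t hx', rj4_m_far t hy', sub_self, norm_zero]
      have h0 : 0 ≤ Real.pi + R * C := add_nonneg Real.pi_pos.le (mul_nonneg hR0 hC0)
      positivity

theorem rj4_G_fderiv (S : ℝ) (x : ℂ) : ∃ (G' : ℂ →L[ℝ] ℝ) (β : ℝ), HasFDerivAt (rj4_G S) G' x ∧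
    G' 1 = β * x.re ∧ G' I = β * x.im := by
  have hcd : ContDiff ℝ 1 Real.smoothTransition := Real.smoothTransition.contDiff
  have hdf : Differentiable ℝ Real.smoothTransition := hcd.differentiable (by norm_num)
  obtain ⟨d, hd⟩ : ∃ d, HasDerivAt Real.smoothTransition d (S - (x.re ^ 2 + x.im ^ 2)) :=
    ⟨_, (hdf (S - (x.re ^ 2 + x.im ^ 2))).hasDerivAt⟩
  have h1 : HasFDerivAt (fun y : ℂ => y.re) Complex.reCLM x := Complex.reCLM.hasFDerivAt
  have h2 : HasFDerivAt (fun y : ℂ => y.im) Complex.imCLM x := Complex.imCLM.hasFDerivAt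
  have h3 := ((h1.mul h1).add (h2.mul h2)).const_sub S
  have h4 : HasFDerivAt (𝕜 := ℝ) (fun y : ℂ => S - (y.re ^ 2 + y.im ^ 2))
      (-(x.re • reCLM + x.re • reCLM + (x.im • imCLM + x.im • imCLM))) x := by
    refine HasFDerivAt.congr_of_eventuallyEq h3 (Filter.Eventually.of_forall fun y => ?_)
    simp only [Pi.add_apply, Pi.mul_apply]
    ring
  have h5 := (hd.comp_hasFDerivAt x h4).const_mul Real.pi
  refine ⟨_, - (2 * Real.pi * d), h5, ?_, ?_⟩
  · simp
    ring
  · simp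
    ring

theorem rj4_det (L : ℂ →L[ℝ] ℂ) : L.det = (L 1).re * (L I).im - (L I).re * (L 1).im := by
  have h : L.det = LinearMap.det (L : ℂ →ₗ[ℝ] ℂ) := rfl
  rw [h, ← LinearMap.det_toMatrix Complex.basisOneI, Matrix.det_fin_two]
  simp [LinearMap.toMatrix_apply, Complex.coe_basisOneI_repr, Complex.coe_basisOneI]

theorem rj4_m_fderiv (S t : ℝ) (x : ℂ) : ∃ L : ℂ →L[ℝ] ℂ, HasFDerivAt (rj4_m S t) L x ∧
    L.det = 1 := by
  obtain ⟨G', β, h, h1, h2⟩ := rj4_G_fderiv S x
  have h3 : HasFDerivAt (fun y => ((t * rj4_G S y : ℝ) : ℂ)) (Complex.ofRealCLM.comp (t • G')) x :=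
    Complex.ofRealCLM.hasFDerivAt.comp x (h.const_mul t)
  have h4 := (h3.const_mul I).cexp
  have h5 := (hasFDerivAt_id (𝕜 := ℝ) x).mul h4
  refine ⟨_, h5, ?_⟩
  rw [rj4_det]
  have hpq : (cexp (I * ((t * rj4_G S x : ℝ) : ℂ))).re ^ 2 +
      (cexp (I * ((t * rj4_G S x : ℝ) : ℂ))).im ^ 2 = 1 := by
    rw [rj4_sq, rj4_norm_exp, one_pow]
  simp only [Complex.ofReal_mul] at hpq
  simp [h1, h2]
  linear_combination hpq

theorem rj4_measure (S t : ℝ) : MeasurePreserving (rj4_M S t) volume volume := by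
  refine ⟨(rj4_M S t).continuous.measurable, ?_⟩
  ext s hs
  have hm : Measurable (rj4_M S t) := (rj4_M S t).continuous.measurable
  rw [Measure.map_apply hm hs]
  have hs' : MeasurableSet ((rj4_M S t) ⁻¹' s) := hm hs
  choose L hL hdet using rj4_m_fderiv S t
  have h1 := MeasureTheory.lintegral_abs_det_fderiv_eq_addHaar_image (volume : Measure ℂ) hs'
    (f := rj4_M S t) (f' := L) (fun x _ => (hL x).hasFDerivWithinAt)
    (rj4_M S t).injective.injOn
  rw [Set.image_preimage_eq s (rj4_M S t).surjective] at h1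
  rw [← h1]
  simp [hdet]

/-- the twist around `c` as a homeomorphism -/
def rj4_K (c : ℂ) (S t : ℝ) : ℂ ≃ₜ ℂ :=
  (Homeomorph.subRight c).trans ((rj4_M S t).trans (Homeomorph.addRight c))

theorem rj4_K_apply (c : ℂ) (S t : ℝ) (x : ℂ) : rj4_K c S t x = rj4_m S t (x - c) + c := rfl

theorem rj4_K_add (c : ℂ) (S s t : ℝ) : rj4_K c S s * rj4_K c S t = rj4_K c S (s + t) := by
  ext x
  show rj4_K c S s (rj4_K c S t x) = rj4_K c S (s + t) x
  rw [rj4_K_apply, rj4_K_apply, rj4_K_apply, add_sub_cancel_right, rj4_m_add]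

theorem rj4_K_zero (c : ℂ) (S : ℝ) : rj4_K c S 0 = 1 := by
  ext x
  rw [rj4_K_apply, rj4_m_zero, sub_add_cancel]
  rfl

theorem rj4_K_pow (c : ℂ) (S t : ℝ) (n : ℕ) : rj4_K c S t ^ n = rj4_K c S (n * t) := by
  induction n with
  | zero => rw [pow_zero, Nat.cast_zero, zero_mul, rj4_K_zero]
  | succ n ih =>
    rw [pow_succ, ih, rj4_K_add]
    congr 1
    push_cast
    ring

theorem rj4_K_measure (c : ℂ) (S t : ℝ) : MeasurePreserving (rj4_K c S t) volume volume := by
  have h1 : MeasurePreserving (fun x : ℂ => x - c) volume volume := measurePreserving_sub_right _ c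
  have h2 : MeasurePreserving (fun x : ℂ => x + c) volume volume := measurePreserving_add_right _ c
  exact h2.comp ((rj4_measure S t).comp h1)

/-- the ratio of chords -/
theorem rj4_ratio (c : ℂ) (S t C : ℝ) (hC : ∀ (t : ℝ) (x y : ℂ),
    ‖(rj4_m S t y - rj4_m S t x) - (y - x)‖ ≤ |t| * C * ‖y - x‖) (ht : |t| * C < 1)
    (x y : ℂ) (hxy : x ≠ y) : (rj4_K c S t y - rj4_K c S t x) / (y - x) ∈ slitPlane := by
  have hne : y - x ≠ 0 := sub_ne_zero.2 hxy.symm
  have hpos : 0 < ‖y - x‖ := norm_pos_iff.2 hne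
  have h := hC t (x - c) (y - c)
  have e1 : y - c - (x - c) = y - x := by ring
  rw [e1] at h
  have e2 : rj4_K c S t y - rj4_K c S t x = rj4_m S t (y - c) - rj4_m S t (x - c) := by
    rw [rj4_K_apply, rj4_K_apply]
    ring
  rw [e2]
  set r := rj4_m S t (y - c) - rj4_m S t (x - c) with hr
  have h2 : ‖r / (y - x) - 1‖ < 1 := by
    have : r / (y - x) - 1 = (r - (y - x)) / (y - x) := by
      field_simp
    rw [this, norm_div, div_lt_one hpos]
    nlinarith
  rw [Complex.mem_slitPlane_iff]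
  left
  have h3 := Complex.abs_re_le_norm (r / (y - x) - 1)
  rw [Complex.sub_re, Complex.one_re] at h3
  have h4 := (abs_le.1 (h3.trans h2.le)).1
  have h5 := (abs_lt.1 (h3.trans_lt h2)).1
  linarith

theorem rj4_isLift (c : ℂ) (S t C : ℝ) (hC : ∀ (t : ℝ) (x y : ℂ),
    ‖(rj4_m S t y - rj4_m S t x) - (y - x)‖ ≤ |t| * C * ‖y - x‖) (ht : |t| * C < 1) :
    IsLift (rj4_K c S t)
      (fun x y => arg ((rj4_K c S t y - rj4_K c S t x) / (y - x)) / (2 * Real.pi)) where
  diag := fun x => by simp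
  cont := by
    intro p hp
    have hp' : p.1 ≠ p.2 := hp
    apply ContinuousAt.continuousWithinAt
    apply ContinuousAt.div_const
    have h1 := rj4_ratio c S t C hC ht p.1 p.2 hp'
    have h2 : ContinuousAt (fun p : ℂ × ℂ =>
        (rj4_K c S t p.2 - rj4_K c S t p.1) / (p.2 - p.1)) p := by
      apply ContinuousAt.div
      · have := (rj4_K c S t).continuous
        exact ((this.comp continuous_snd).sub (this.comp continuous_fst)).continuousAt
      · exact (continuous_snd.sub continuous_fst).continuousAt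
      · exact sub_ne_zero.2 hp'.symm
    exact ContinuousAt.comp (f := fun p : ℂ × ℂ =>
        (rj4_K c S t p.2 - rj4_K c S t p.1) / (p.2 - p.1)) (Complex.continuousAt_arg h1) h2
  angle := fun x y hxy => by
    have hne : y - x ≠ 0 := sub_ne_zero.2 hxy.symm
    have h1 := rj4_ratio c S t C hC ht x y hxy
    set r := (rj4_K c S t y - rj4_K c S t x) / (y - x) with hr
    have hr0 : r ≠ 0 := Complex.slitPlane_ne_zero h1
    refine ⟨‖r‖, norm_pos_iff.2 hr0, ?_⟩
    have e : 2 * (Real.pi : ℂ) * I * ((arg r / (2 * Real.pi) : ℝ) : ℂ) = arg r * I := by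
      have : (Real.pi : ℂ) ≠ 0 := by exact_mod_cast Real.pi_ne_zero
      push_cast
      field_simp
    rw [e, Complex.norm_mul_exp_arg_mul_I, hr, div_mul_cancel₀ _ hne]

theorem exists_rot (w : ℂ) : ∃ K : LH, MeasurePreserving K.f volume volume ∧ K.f w = 0 ∧
    EqInf K 1 := by
  set c : ℂ := w / 2 with hc
  set S : ℝ := ‖c‖ ^ 2 + 1 with hS
  have hS0 : 0 ≤ S := by positivity
  obtain ⟨C, hC0, hC⟩ := rj4_lip S hS0
  obtain ⟨N, hN⟩ := exists_nat_gt C
  have hNpos : (0 : ℝ) < N := lt_of_le_of_lt hC0 hN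
  have ht : |(1 / (N : ℝ))| * C < 1 := by
    rw [abs_of_pos (by positivity), one_div, inv_mul_lt_iff₀ hNpos]
    linarith
  set A : LH := ⟨rj4_K c S (1 / N), _, rj4_isLift c S (1 / N) C hC ht⟩ with hA
  have hAf : A.f = rj4_K c S (1 / N) := rfl
  have hpow : ∀ n : ℕ, (A ^ n).f = rj4_K c S (n * (1 / N)) := by
    intro n
    have : (A ^ n).f = A.f ^ n := map_pow LH.toHomeo A n
    rw [this, hAf, rj4_K_pow]
  have hA1 : EqInf A 1 := by
    have hfar : ∀ x : ℂ, ‖c‖ + S ≤ ‖x‖ → rj4_K c S (1 / N) x = x := by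
      intro x hx
      rw [rj4_K_apply, rj4_m_far, sub_add_cancel]
      have h1 : ‖x‖ ≤ ‖x - c‖ + ‖c‖ := by
        have := norm_add_le (x - c) c
        rwa [sub_add_cancel] at this
      have h2 : S ≤ ‖x - c‖ := by linarith
      have h3 : 1 ≤ S := by
        rw [hS]
        nlinarith [norm_nonneg c]
      nlinarith
    refine ⟨‖c‖ + S, fun x hx => hfar x hx, fun x y hx hy => ?_⟩
    show arg ((rj4_K c S (1 / N) y - rj4_K c S (1 / N) x) / (y - x)) / (2 * Real.pi) = 0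
    rw [hfar x hx, hfar y hy]
    by_cases hxy : y - x = 0
    · rw [hxy]
      simp
    · rw [div_self hxy]
      simp
  have hAn : ∀ n : ℕ, EqInf (A ^ n) 1 := by
    intro n
    induction n with
    | zero =>
      rw [pow_zero]
      exact EqInf.refl 1
    | succ n ih =>
      rw [pow_succ]
      have := ih.mul hA1
      rwa [mul_one] at this
  have hN1 : (N : ℝ) * (1 / N) = 1 := by
    field_simp
  refine ⟨A ^ N, ?_, ?_, hAn N⟩
  · rw [hpow N]
    exact rj4_K_measure _ _ _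
  · rw [hpow N, hN1, rj4_K_apply]
    have e1 : w - c = c := by
      rw [hc]
      ring
    rw [e1]
    unfold rj4_m
    rw [rj4_G_one (le_of_eq hS.symm), one_mul, mul_comm I, Complex.exp_pi_mul_I]
    ring

theorem rj5_const {S : Set ℂ} (hS : IsPreconnected S) {f : ℂ → ℝ} (hc : ContinuousOn f S)
    (hi : ∀ x ∈ S, ∃ k : ℤ, f x = k) {x y : ℂ} (hx : x ∈ S) (hy : y ∈ S) : f x = f y := by
  have hd : DiscreteTopology (AddSubgroup.zmultiples (1 : ℝ)) := inferInstance
  have hd' : DiscreteTopology ((AddSubgroup.zmultiples (1 : ℝ) : AddSubgroup ℝ) : Set ℝ) := hd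
  refine hS.constant_of_mapsTo (T := ((AddSubgroup.zmultiples (1 : ℝ) : AddSubgroup ℝ) : Set ℝ))
    ⟨hd'⟩ hc ?_ hx hy
  intro z hz
  obtain ⟨k, hk⟩ := hi z hz
  rw [hk]
  exact ⟨k, by simp⟩

/-- the angle is the argument up to an integer -/
theorem rj5_arg {g : ℂ} {s t : ℝ} (hs : 0 < s) (h : g = s * exp (2 * Real.pi * I * t)) :
    ∃ k : ℤ, t - arg g / (2 * Real.pi) = k := by
  have hg : g ≠ 0 := by
    rw [h]
    exact mul_ne_zero (by exact_mod_cast hs.ne') (exp_ne_zero _)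
  have h1 : ‖g‖ = s := by
    rw [h, norm_mul, Complex.norm_real, Real.norm_eq_abs, abs_of_pos hs]
    have : (2 * Real.pi * I * t : ℂ) = ((2 * Real.pi * t : ℝ) : ℂ) * I := by push_cast; ring
    rw [this, Complex.norm_exp_ofReal_mul_I, mul_one]
  have h2 := Complex.norm_mul_exp_arg_mul_I g
  rw [h1] at h2
  have h3 : exp (arg g * I) = exp (2 * Real.pi * I * t) := by
    have hs' : (s : ℂ) ≠ 0 := by exact_mod_cast hs.ne'
    apply mul_left_cancel₀ hs'
    rw [h2, ← h]
  rw [Complex.exp_eq_exp_iff_exists_int] at h3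
  obtain ⟨n, hn⟩ := h3
  refine ⟨-n, ?_⟩
  have h4 : (arg g : ℂ) = ((2 * Real.pi * t + n * (2 * Real.pi) : ℝ) : ℂ) := by
    have hI : (I : ℂ) ≠ 0 := I_ne_zero
    apply mul_right_cancel₀ hI
    rw [hn]
    push_cast
    ring
  have h5 : arg g = 2 * Real.pi * t + n * (2 * Real.pi) := by exact_mod_cast h4
  rw [h5]
  have := Real.pi_pos
  push_cast
  field_simp
  ring

/-- the angle at infinity seen from `0` -/
theorem theta_inf (h : LH) (m : ℤ) (h0 : h.f 0 = 0) (he : EqInf h (LH.T ^ m)) :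
    ∃ R : ℝ, ∀ y : ℂ, R ≤ ‖y‖ → h.f y = y ∧ h.θ 0 y = m := by
  obtain ⟨R, h1, h2⟩ := he
  obtain ⟨t1, t2⟩ := LH.T_zpow m
  set R0 := max R 0 with hR0
  have hRR : R ≤ R0 := le_max_left _ _
  have hR0' : 0 ≤ R0 := le_max_right _ _
  have f1 : ∀ x : ℂ, R0 ≤ ‖x‖ → h.f x = x := by
    intro x hx
    rw [h1 x (hRR.trans hx), t1]
    rfl
  have f2 : ∀ x y : ℂ, R0 ≤ ‖x‖ → R0 ≤ ‖y‖ → x ≠ y → h.θ x y = m := by
    intro x y hx hy hxy
    rw [h2 x y (hRR.trans hx) (hRR.trans hy), t2 x y hxy]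
  set x1 : ℂ := ((R0 + 1 : ℝ) : ℂ) with hx1
  have nx1 : ‖x1‖ = R0 + 1 := by
    rw [hx1, Complex.norm_real, Real.norm_eq_abs, abs_of_pos (by linarith)]
  obtain ⟨R', hR'⟩ : ∃ R' : ℝ, ∀ x ∈ Metric.closedBall (0 : ℂ) (R0 + 1), ‖h.f x‖ ≤ R' :=
    (isCompact_closedBall (0 : ℂ) (R0 + 1)).exists_bound_of_continuousOn h.f.continuous.continuousOn
  have hR'0 : 0 ≤ R' := (norm_nonneg _).trans (hR' 0 (Metric.mem_closedBall_self (by linarith)))
  refine ⟨2 * (R0 + R' + 2), fun y hy => ⟨f1 y (by linarith), ?_⟩⟩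
  have key : ∀ x ∈ Metric.closedBall (0 : ℂ) (R0 + 1), x ≠ y ∧
      (y - h.f x) / (y - x) ∈ slitPlane := by
    intro x hx
    have hx' := hR' x hx
    rw [mem_closedBall_zero_iff] at hx
    have hne : x ≠ y := by
      rintro rfl
      linarith
    refine ⟨hne, ?_⟩
    have hd : 0 < ‖y - x‖ := norm_pos_iff.2 (sub_ne_zero.2 hne.symm)
    have hd2 : ‖y‖ - ‖x‖ ≤ ‖y - x‖ := norm_sub_norm_le _ _
    have e1 : (y - h.f x) / (y - x) - 1 = (x - h.f x) / (y - x) := by
      have : y - x ≠ 0 := sub_ne_zero.2 hne.symm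
      field_simp
      ring
    have e2 : ‖(y - h.f x) / (y - x) - 1‖ < 1 := by
      rw [e1, norm_div, div_lt_one hd]
      have := norm_sub_le x (h.f x)
      linarith
    have e3 : |((y - h.f x) / (y - x) - 1).re| < 1 := (abs_re_le_norm _).trans_lt e2
    rw [sub_re, one_re] at e3
    exact Or.inl (by linarith [(abs_lt.1 e3).1])
  have hconn : IsPreconnected (Metric.closedBall (0 : ℂ) (R0 + 1)) :=
    (convex_closedBall (0 : ℂ) (R0 + 1)).isPreconnected
  have hy1 : h.f y = y := f1 y (by linarith)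
  have hconst := rj5_const hconn (f := fun x => h.θ x y - arg ((y - h.f x) / (y - x)) / (2 * Real.pi))
    (x := 0) (y := x1) ?_ ?_ ?_ ?_
  · simp only [h0, sub_zero] at hconst
    have hyne : y ≠ 0 := by
      intro hy0
      rw [hy0, norm_zero] at hy
      linarith
    have hx1y : x1 ≠ y := (key x1 (by rw [mem_closedBall_zero_iff, nx1])).1
    rw [f1 x1 (by rw [nx1]; linarith), div_self hyne, div_self (sub_ne_zero.2 hx1y.symm), arg_one,
      f2 x1 y (by rw [nx1]; linarith) (by linarith) hx1y] at hconst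
    linarith
  · apply ContinuousOn.sub
    · have c1 : ContinuousOn (fun x : ℂ => ((x, y) : ℂ × ℂ)) (Metric.closedBall (0 : ℂ) (R0 + 1)) :=
        (Continuous.prodMk_left y).continuousOn
      exact h.h.cont.comp c1 (fun x hx => (key x hx).1)
    · apply ContinuousOn.div_const
      intro x hx
      have c2 : ContinuousWithinAt (fun x : ℂ => (y - h.f x) / (y - x))
          (Metric.closedBall (0 : ℂ) (R0 + 1)) x := by
        apply ContinuousWithinAt.div
        · exact (continuous_const.sub h.f.continuous).continuousWithinAt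
        · exact (continuous_const.sub continuous_id).continuousWithinAt
        · exact sub_ne_zero.2 (key x hx).1.symm
      exact ContinuousAt.comp_continuousWithinAt (f := fun x : ℂ => (y - h.f x) / (y - x))
        (g := arg) (continuousAt_arg (key x hx).2) c2
  · intro x hx
    obtain ⟨hne, _⟩ := key x hx
    obtain ⟨s, hs, hs2⟩ := h.h.angle x y hne
    apply rj5_arg hs
    rw [hy1] at hs2
    rw [hs2]
    have : y - x ≠ 0 := sub_ne_zero.2 hne.symm
    field_simp
  · exact Metric.mem_closedBall_self (by linarith)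
  · rw [mem_closedBall_zero_iff, nx1]

/-! ### the strip -/

theorem stab_mul {F G' : LH} (h : F.f 0 = 0) (h' : G'.f 0 = 0) : (F * G').f 0 = 0 := by
  show F.f (G'.f 0) = 0
  rw [h', h]

theorem stab_one : (1 : LH).f 0 = 0 := rfl

theorem stab_inv {F : LH} (h : F.f 0 = 0) : (F⁻¹).f 0 = 0 := by
  show F.f.symm 0 = 0
  rw [Homeomorph.symm_apply_eq, h]

/-- the subgroup of the elements fixing `0` -/
def stab : Subgroup LH where
  carrier := {F | F.f 0 = 0}
  mul_mem' := fun h h' => stab_mul h h'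
  one_mem' := stab_one
  inv_mem' := fun h => stab_inv h

/-- the strip map as a function -/
def sFun (F : LH) (z : ℂ) : ℂ :=
  ⟨z.re - F.θ 0 (Ec z), Real.log ‖F.f (Ec z)‖ / (2 * Real.pi)⟩

theorem Ec_ne_zero (z : ℂ) : Ec z ≠ 0 := exp_ne_zero _

theorem norm_Ec (z : ℂ) : ‖Ec z‖ = Real.exp (2 * Real.pi * z.im) := by
  unfold Ec
  rw [Complex.norm_exp]
  congr 1
  simp

theorem Ec_sFun (F : LH) (h0 : F.f 0 = 0) (z : ℂ) : Ec (sFun F z) = F.f (Ec z) := by
  obtain ⟨s, hs, h1⟩ := F.h.angle 0 (Ec z) (Ec_ne_zero z).symm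
  rw [h0, sub_zero, sub_zero] at h1
  have hn : ‖F.f (Ec z)‖ = s * Real.exp (2 * Real.pi * z.im) := by
    rw [h1, norm_mul, norm_mul, norm_Ec]
    have h2 : ‖exp (2 * Real.pi * I * F.θ 0 (Ec z))‖ = 1 := by
      rw [Complex.norm_exp]
      simp
    rw [h2, Complex.norm_real, Real.norm_of_nonneg hs.le, mul_one]
  have hlog : Real.log ‖F.f (Ec z)‖ = Real.log s + 2 * Real.pi * z.im := by
    rw [hn, Real.log_mul hs.ne' (Real.exp_pos _).ne', Real.log_exp]
  have hpi : (Real.pi : ℝ) ≠ 0 := Real.pi_ne_zero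
  have hpi' : (Real.pi : ℂ) ≠ 0 := by exact_mod_cast hpi
  have hform : sFun F z = z - F.θ 0 (Ec z) + (Real.log s / (2 * Real.pi) : ℝ) * I := by
    have hdiv : Real.log ‖F.f (Ec z)‖ / (2 * Real.pi) = Real.log s / (2 * Real.pi) + z.im := by
      rw [hlog]
      field_simp
    unfold sFun
    rw [hdiv]
    obtain ⟨c, hc⟩ : ∃ c : ℝ, c = Real.log s / (2 * Real.pi) := ⟨_, rfl⟩
    rw [← hc]
    apply Complex.ext
    · simp
    · simp
      ring
  have hs' : (s : ℂ) = exp (Real.log s : ℝ) := by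
    rw [← Complex.ofReal_exp, Real.exp_log hs]
  rw [h1, hform, hs']
  unfold Ec
  rw [← Complex.exp_add, ← Complex.exp_add]
  congr 1
  push_cast
  field_simp
  have hI : I ^ 2 = -1 := Complex.I_sq
  linear_combination (-(Real.log s : ℂ)) * hI

theorem sFun_mul (F G' : LH) (_h0 : F.f 0 = 0) (h0' : G'.f 0 = 0) (z : ℂ) :
    sFun (F * G') z = sFun F (sFun G' z) := by
  have h1 := Ec_sFun G' h0' z
  have e1 : (F * G').θ 0 (Ec z) = F.θ 0 (G'.f (Ec z)) + G'.θ 0 (Ec z) := by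
    show F.θ (G'.f 0) (G'.f (Ec z)) + G'.θ 0 (Ec z) = _
    rw [h0']
  have e2 : (F * G').f (Ec z) = F.f (G'.f (Ec z)) := rfl
  apply Complex.ext
  · show z.re - (F * G').θ 0 (Ec z) = (sFun G' z).re - F.θ 0 (Ec (sFun G' z))
    rw [h1, e1]
    show _ = (z.re - G'.θ 0 (Ec z)) - _
    ring
  · show Real.log ‖(F * G').f (Ec z)‖ / (2 * Real.pi) =
      Real.log ‖F.f (Ec (sFun G' z))‖ / (2 * Real.pi)
    rw [h1, e2]

theorem sFun_one (z : ℂ) : sFun 1 z = z := by
  apply Complex.ext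
  · show z.re - (0 : ℝ) = z.re
    ring
  · show Real.log ‖Ec z‖ / (2 * Real.pi) = z.im
    rw [norm_Ec, Real.log_exp]
    have hpi : (Real.pi : ℝ) ≠ 0 := Real.pi_ne_zero
    field_simp

theorem rj6_Ec_cont : Continuous Ec := by
  unfold Ec
  fun_prop

theorem sFun_cont (F : LH) (h0 : F.f 0 = 0) : Continuous (sFun F) := by
  have hne : ∀ z, F.f (Ec z) ≠ 0 := by
    intro z h
    apply Ec_ne_zero z
    apply F.f.injective
    rw [h, h0]
  have h1 : Continuous fun z : ℂ => F.θ 0 (Ec z) := by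
    rw [← continuousOn_univ]
    have h2 : ContinuousOn (fun z : ℂ => ((0 : ℂ), Ec z)) Set.univ :=
      (continuous_const.prodMk rj6_Ec_cont).continuousOn
    exact F.h.cont.comp h2 (fun z _ => fun hcon => Ec_ne_zero z hcon.symm)
  have h3 : Continuous fun z : ℂ => Real.log ‖F.f (Ec z)‖ / (2 * Real.pi) := by
    apply Continuous.div_const
    apply Continuous.log
    · exact (F.f.continuous.comp rj6_Ec_cont).norm
    · intro z
      exact norm_ne_zero_iff.2 (hne z)
  have h4 : sFun F = fun z => ((z.re - F.θ 0 (Ec z) : ℝ) : ℂ) +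
      ((Real.log ‖F.f (Ec z)‖ / (2 * Real.pi) : ℝ) : ℂ) * I := by
    funext z
    exact Complex.mk_eq_add_mul_I _ _
  rw [h4]
  exact (Complex.continuous_ofReal.comp (Complex.continuous_re.sub h1)).add
    ((Complex.continuous_ofReal.comp h3).mul continuous_const)

theorem sHom_left (F : stab) (z : ℂ) : sFun ((F⁻¹ : stab) : LH) (sFun F z) = z := by
  have h := sFun_mul ((F⁻¹ : stab) : LH) F (F⁻¹ : stab).2 F.2 z
  rw [← h]
  have e : ((F⁻¹ : stab) : LH) * (F : LH) = 1 := by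
    rw [Subgroup.coe_inv, inv_mul_cancel]
  rw [e]
  exact sFun_one z

theorem sHom_right (F : stab) (z : ℂ) : sFun F (sFun ((F⁻¹ : stab) : LH) z) = z := by
  have h := sFun_mul F ((F⁻¹ : stab) : LH) F.2 (F⁻¹ : stab).2 z
  rw [← h]
  have e : (F : LH) * ((F⁻¹ : stab) : LH) = 1 := by
    rw [Subgroup.coe_inv, mul_inv_cancel]
  rw [e]
  exact sFun_one z

/-- the homomorphism to strip homeomorphisms (all fields proved; copy them) -/
def sHom : stab →* (ℂ ≃ₜ ℂ) where
  toFun F := {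
    toFun := sFun F
    invFun := sFun (F⁻¹ : stab)
    left_inv := fun z => sHom_left F z
    right_inv := fun z => sHom_right F z
    continuous_toFun := sFun_cont _ F.2
    continuous_invFun := sFun_cont _ (F⁻¹ : stab).2 }
  map_one' := by
    apply Homeomorph.ext
    intro z
    exact sFun_one z
  map_mul' := by
    intro F G'
    apply Homeomorph.ext
    intro z
    exact sFun_mul F G' F.2 G'.2 z

theorem sHom_apply (F : stab) (z : ℂ) : sHom F z = sFun F z := rfl

theorem rj7_deriv (z : ℂ) : HasDerivAt Ec (Ec z * (-(2 * Real.pi * I))) z := by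
  unfold Ec
  have h1 : HasDerivAt (fun w : ℂ => -(2 * Real.pi * I * w)) (-(2 * Real.pi * I)) z := by
    have h2 : HasDerivAt (fun w : ℂ => 2 * Real.pi * I * w) (2 * Real.pi * I * 1) z :=
      (hasDerivAt_id' z).const_mul (2 * Real.pi * I)
    rw [mul_one] at h2
    exact h2.fun_neg
  exact h1.cexp

theorem rj7_slope_cont (a : ℂ) : Continuous (dslope Ec a) := by
  rw [← continuousOn_univ, continuousOn_dslope Filter.univ_mem]
  refine ⟨?_, (rj7_deriv a).differentiableAt⟩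
  intro x _
  exact (rj7_deriv x).continuousAt.continuousWithinAt

theorem rj7_slope_self (a : ℂ) : dslope Ec a a ≠ 0 := by
  rw [dslope_same, (rj7_deriv a).deriv]
  apply mul_ne_zero (Ec_ne_zero a)
  rw [neg_ne_zero]
  have hpi : (Real.pi : ℂ) ≠ 0 := by exact_mod_cast Real.pi_ne_zero
  exact mul_ne_zero (mul_ne_zero two_ne_zero hpi) I_ne_zero

theorem rj7_slope_eq (a b : ℂ) : Ec b - Ec a = dslope Ec a b * (b - a) := by
  have h := sub_smul_dslope Ec a b
  rw [← h, smul_eq_mul, mul_comm]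

theorem sFun_locOP (F : LH) (h0 : F.f 0 = 0) (p : ℂ) : LocOP (sFun F) p := by
  obtain ⟨A, hA⟩ : ∃ A, A = dslope Ec p := ⟨_, rfl⟩
  obtain ⟨B, hB⟩ : ∃ B, B = fun q => dslope Ec (sFun F p) (sFun F q) := ⟨_, rfl⟩
  have hAc : Continuous A := by
    rw [hA]
    exact rj7_slope_cont p
  have hBc : Continuous B := by
    rw [hB]
    exact (rj7_slope_cont (sFun F p)).comp (sFun_cont F h0)
  have hAp : A p ≠ 0 := by
    rw [hA]
    exact rj7_slope_self p
  have hBp : B p ≠ 0 := by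
    rw [hB]
    exact rj7_slope_self (sFun F p)
  obtain ⟨c0, hc0⟩ : ∃ c0, c0 = A p / B p := ⟨_, rfl⟩
  have hc0n : c0 ≠ 0 := by
    rw [hc0]
    exact div_ne_zero hAp hBp
  -- the three conditions hold near `p`
  have hslit : ContinuousAt (fun q => A q / B q / c0) p :=
    ((hAc.continuousAt.div hBc.continuousAt hBp).div_const c0)
  have hone : A p / B p / c0 = 1 := by
    rw [← hc0, div_self hc0n]
  have ev1 : ∀ᶠ q in nhds p, A q ≠ 0 := hAc.continuousAt.eventually_ne hAp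
  have ev2 : ∀ᶠ q in nhds p, B q ≠ 0 := hBc.continuousAt.eventually_ne hBp
  have ev3 : ∀ᶠ q in nhds p, A q / B q / c0 ∈ slitPlane := by
    apply hslit.eventually_mem
    rw [hone]
    exact isOpen_slitPlane.mem_nhds one_mem_slitPlane
  obtain ⟨ε, hε, hev⟩ := Metric.eventually_nhds_iff.1 (ev1.and (ev2.and ev3))
  refine ⟨ε, hε, fun q => F.θ (Ec p) (Ec q) +
    (arg (A q / B q / c0) + arg c0) / (2 * Real.pi), ?_, ?_⟩
  · intro q hq
    obtain ⟨hqp, hqε⟩ := hq
    obtain ⟨h1, h2, h3⟩ := hev (show dist q p < ε by rwa [dist_eq_norm])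
    have hne : Ec p ≠ Ec q := by
      intro hcon
      have h4 := rj7_slope_eq p q
      rw [← hA, ← hcon, sub_self] at h4
      exact mul_ne_zero h1 (sub_ne_zero.2 hqp) h4.symm
    apply ContinuousAt.continuousWithinAt
    apply ContinuousAt.add
    · have h5 : ContinuousAt (fun p : ℂ × ℂ => F.θ p.1 p.2) (Ec p, Ec q) := by
        apply F.h.cont.continuousAt
        exact (isOpen_ne_fun continuous_fst continuous_snd).mem_nhds hne
      have h6 : ContinuousAt (fun q => (Ec p, Ec q)) q :=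
        continuousAt_const.prodMk (rj7_deriv q).continuousAt
      exact ContinuousAt.comp (f := fun q => (Ec p, Ec q))
        (g := fun p : ℂ × ℂ => F.θ p.1 p.2) h5 h6
    · apply ContinuousAt.div_const
      apply ContinuousAt.add _ continuousAt_const
      have h7 : ContinuousAt (fun q => A q / B q / c0) q :=
        ((hAc.continuousAt.div hBc.continuousAt h2).div_const c0)
      exact ContinuousAt.comp (f := fun q => A q / B q / c0) (g := arg)
        (continuousAt_arg h3) h7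
  · intro q hqp hqε
    obtain ⟨h1, h2, h3⟩ := hev (show dist q p < ε by rwa [dist_eq_norm])
    have hvu := rj7_slope_eq p q
    rw [← hA] at hvu
    have hne : Ec p ≠ Ec q := by
      intro hcon
      rw [← hcon, sub_self] at hvu
      exact mul_ne_zero h1 (sub_ne_zero.2 hqp) hvu.symm
    obtain ⟨s, hs, h4⟩ := F.h.angle (Ec p) (Ec q) hne
    have h5 := rj7_slope_eq (sFun F p) (sFun F q)
    rw [Ec_sFun F h0, Ec_sFun F h0, h4, hvu] at h5
    have hBq : dslope Ec (sFun F p) (sFun F q) = B q := by rw [hB]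
    rw [hBq] at h5
    have hcq : A q / B q ≠ 0 := div_ne_zero h1 h2
    refine ⟨s * ‖A q / B q‖, mul_pos hs (norm_pos_iff.2 hcq), ?_⟩
    -- polar form of the quotient
    have h6 : A q / B q = (A q / B q / c0) * c0 := by
      rw [div_mul_cancel₀ _ hc0n]
    have h7 : (‖A q / B q / c0‖ : ℂ) * exp (arg (A q / B q / c0) * I) = A q / B q / c0 :=
      norm_mul_exp_arg_mul_I _
    have h8 : (‖c0‖ : ℂ) * exp (arg c0 * I) = c0 := norm_mul_exp_arg_mul_I _
    have h9 : A q / B q = (‖A q / B q‖ : ℂ) * exp ((arg (A q / B q / c0) + arg c0) * I) := by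
      have hn : ‖A q / B q‖ = ‖A q / B q / c0‖ * ‖c0‖ := by
        rw [← norm_mul, ← h6]
      calc A q / B q = (A q / B q / c0) * c0 := h6
        _ = ((‖A q / B q / c0‖ : ℂ) * exp (arg (A q / B q / c0) * I)) *
              ((‖c0‖ : ℂ) * exp (arg c0 * I)) := by rw [h7, h8]
        _ = _ := by
          rw [hn, add_mul, Complex.exp_add]
          push_cast
          ring
    have hpi : (Real.pi : ℂ) ≠ 0 := by exact_mod_cast Real.pi_ne_zero
    have h10 : exp (2 * Real.pi * I * ((F.θ (Ec p) (Ec q) +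
        (arg (A q / B q / c0) + arg c0) / (2 * Real.pi) : ℝ) : ℂ)) =
        exp (2 * Real.pi * I * F.θ (Ec p) (Ec q)) *
          exp ((arg (A q / B q / c0) + arg c0) * I) := by
      rw [← Complex.exp_add]
      congr 1
      push_cast
      field_simp
    have h11 : sFun F q - sFun F p =
        s * exp (2 * Real.pi * I * F.θ (Ec p) (Ec q)) * (A q / B q) * (q - p) := by
      have h12 : B q * (sFun F q - sFun F p) =
          B q * (s * exp (2 * Real.pi * I * F.θ (Ec p) (Ec q)) * (A q / B q) * (q - p)) := by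
        rw [← h5]
        field_simp
      exact mul_left_cancel₀ h2 h12
    rw [h10, h11]
    conv_lhs => rw [h9]
    push_cast
    ring

theorem rj8_pos (F : LH) (h0 : F.f 0 = 0) (z : ℂ) : 0 < ‖F.f (Ec z)‖ := by
  rw [norm_pos_iff]
  intro h
  apply Ec_ne_zero z
  apply F.f.injective
  rw [h, h0]

theorem rj8_im (F : LH) (z : ℂ) :
    (sFun F z).im = Real.log ‖F.f (Ec z)‖ / (2 * Real.pi) := rfl

theorem sFun_ends (F : LH) (h0 : F.f 0 = 0) : Ends (sFun F) := by
  have hpi := Real.pi_pos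
  constructor
  · intro M
    obtain ⟨R', hR'⟩ := homeo_proper F.f (Real.exp (2 * Real.pi * M))
    refine ⟨|R'|, fun z hz => ?_⟩
    have h1 : R' ≤ ‖Ec z‖ := by
      rw [norm_Ec]
      have h2 : 2 * Real.pi * z.im + 1 ≤ Real.exp (2 * Real.pi * z.im) := Real.add_one_le_exp _
      have h3 : |R'| ≤ 2 * Real.pi * z.im := by
        have h4 : 1 ≤ 2 * Real.pi := by linarith [Real.pi_gt_three]
        have h5 : 0 ≤ z.im := (abs_nonneg R').trans hz
        nlinarith
      linarith [le_abs_self R']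
    have h2 := hR' _ h1
    rw [rj8_im, le_div_iff₀ (by positivity)]
    have h3 := Real.log_le_log (Real.exp_pos _) h2
    rw [Real.log_exp] at h3
    linarith
  · intro M
    have hc : ContinuousAt F.f 0 := F.f.continuous.continuousAt
    obtain ⟨δ, hδ, hδ'⟩ := Metric.continuousAt_iff.1 hc (Real.exp (2 * Real.pi * M))
      (Real.exp_pos _)
    refine ⟨Real.log (δ / 2) / (2 * Real.pi), fun z hz => ?_⟩
    have h1 : ‖Ec z‖ < δ := by
      rw [norm_Ec]
      have h2 : 2 * Real.pi * z.im ≤ Real.log (δ / 2) := by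
        rw [le_div_iff₀ (by positivity)] at hz
        linarith
      have h3 : Real.exp (2 * Real.pi * z.im) ≤ δ / 2 := by
        have := Real.exp_le_exp.2 h2
        rwa [Real.exp_log (by positivity)] at this
      linarith
    have h2 : ‖F.f (Ec z)‖ < Real.exp (2 * Real.pi * M) := by
      have := hδ' (x := Ec z) (by rw [dist_zero_right]; exact h1)
      rwa [h0, dist_zero_right] at this
    rw [rj8_im, div_le_iff₀ (by positivity)]
    have h3 := Real.log_le_log (rj8_pos F h0 z) h2.le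
    rw [Real.log_exp] at h3
    linarith

theorem rj8_Ec (z : ℂ) : Ec (z + (1 : ℝ)) = Ec z := by
  unfold Ec
  have h : -(2 * Real.pi * I * (z + (1 : ℝ))) = -(2 * Real.pi * I * z) - 2 * Real.pi * I := by
    push_cast
    ring
  rw [h, Complex.exp_sub, Complex.exp_two_pi_mul_I, div_one]

theorem rj8_per (F : LH) (z : ℂ) : sFun F (z + (1 : ℝ)) = sFun F z + (1 : ℝ) := by
  unfold sFun
  rw [rj8_Ec]
  apply Complex.ext
  · simp
    ring
  · simp

theorem sHom_mem (F : stab) : sHom F ∈ SH 1 := by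
  refine ⟨fun z => rj8_per F z, sFun_ends F F.2, sFun_ends (F⁻¹ : stab) (F⁻¹ : stab).2,
    fun p => sFun_locOP F F.2 p, fun p => sFun_locOP (F⁻¹ : stab) (F⁻¹ : stab).2 p⟩

theorem sHom_area (F : stab) (h : MeasurePreserving (F : LH).f volume volume) :
    CoverArea (sHom F) := by
  exact ⟨sHom_mem F, (F : LH).f, h, F.2, fun z => Ec_sFun _ F.2 z⟩

theorem mp_inv {f : ℂ ≃ₜ ℂ} (h : MeasurePreserving f volume volume) :
    MeasurePreserving (f⁻¹ : ℂ ≃ₜ ℂ) volume volume :=
  MeasurePreserving.symm f.toMeasurableEquiv h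

/-- the modified list -/
theorem rj9_list (L : List (LH × LH))
    (hL : ∀ p ∈ L, MeasurePreserving p.1.f volume volume ∧ MeasurePreserving p.2.f volume volume) :
    ∃ L' : List (stab × stab), L'.length = L.length ∧
      (∀ p ∈ L', MeasurePreserving (p.1 : LH).f volume volume ∧
        MeasurePreserving (p.2 : LH).f volume volume) ∧
      EqInf ((L'.map fun p => cm p.1 p.2).prod : stab) ((L.map fun p => cm p.1 p.2).prod) := by
  induction L with
  | nil => exact ⟨[], rfl, by simp, EqInf.refl 1⟩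
  | cons p L ih =>
    obtain ⟨L', h1, h2, h3⟩ := ih fun q hq => hL q (List.mem_cons_of_mem _ hq)
    obtain ⟨hp1, hp2⟩ := hL p List.mem_cons_self
    obtain ⟨K, k1, k2, k3⟩ := exists_rot (p.1.f 0)
    obtain ⟨K', k1', k2', k3'⟩ := exists_rot (p.2.f 0)
    have e1 : K * p.1 ∈ stab := k2
    have e2 : K' * p.2 ∈ stab := k2'
    refine ⟨(⟨K * p.1, e1⟩, ⟨K' * p.2, e2⟩) :: L', ?_, ?_, ?_⟩
    · rw [List.length_cons, List.length_cons, h1]
    · intro q hq
      rcases List.mem_cons.1 hq with rfl | hq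
      · exact ⟨k1.comp hp1, k1'.comp hp2⟩
      · exact h2 q hq
    · rw [List.map_cons, List.map_cons, List.prod_cons, List.prod_cons]
      have f1 : EqInf (K * p.1) p.1 := by
        have := k3.mul (EqInf.refl p.1)
        rwa [one_mul] at this
      have f2 : EqInf (K' * p.2) p.2 := by
        have := k3'.mul (EqInf.refl p.2)
        rwa [one_mul] at this
      exact (EqInf.cm f1 f2).mul h3

/-- MAIN LEMMA, one sign -/
theorem main_lemma_neg (L : List (LH × LH)) (m : ℤ)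
    (hL : ∀ p ∈ L, MeasurePreserving p.1.f volume volume ∧ MeasurePreserving p.2.f volume volume)
    (h : (L.map fun p => cm p.1 p.2).prod = LH.T ^ m) : -m ≤ 2 * L.length + 3 := by
  obtain ⟨L', h1, h2, h3⟩ := rj9_list L hL
  set w : stab := (L'.map fun p => cm p.1 p.2).prod with hw
  rw [h] at h3
  obtain ⟨R, hR⟩ := theta_inf (w : LH) m w.2 h3
  set M : List ((ℂ ≃ₜ ℂ) × (ℂ ≃ₜ ℂ)) := L'.map fun p => (sHom p.1, sHom p.2) with hM
  have hlen : M.length = L.length := by
    rw [hM, List.length_map, h1]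
  rw [← hlen]
  have hprod : (M.map fun p => cm p.1 p.2).prod = sHom w := by
    rw [hM, hw, List.map_map, map_list_prod, List.map_map]
    congr 1
    apply List.map_congr_left
    intro p _
    simp only [Function.comp_apply]
    unfold cm
    simp
  have hmax : 0 < max R 1 := lt_of_lt_of_le one_pos (le_max_right _ _)
  apply strip_main M ?_ (-m) (Real.log (max R 1) / (2 * Real.pi))
  · intro z hz
    rw [hprod, sHom_apply]
    have hpi : (0 : ℝ) < 2 * Real.pi := by positivity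
    have hz' : Real.log (max R 1) ≤ 2 * Real.pi * z.im := by
      rw [div_le_iff₀ hpi] at hz
      linarith
    have hnorm : R ≤ ‖Ec z‖ := by
      rw [norm_Ec]
      have : Real.exp (Real.log (max R 1)) ≤ Real.exp (2 * Real.pi * z.im) := Real.exp_le_exp.2 hz'
      rw [Real.exp_log hmax] at this
      exact (le_max_left _ _).trans this
    obtain ⟨g1, g2⟩ := hR (Ec z) hnorm
    unfold sFun
    rw [g1, g2, norm_Ec, Real.log_exp]
    apply Complex.ext
    · rw [Complex.add_re, Complex.intCast_re]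
      push_cast
      ring
    · rw [Complex.add_im, Complex.intCast_im, add_zero]
      show 2 * Real.pi * z.im / (2 * Real.pi) = z.im
      rw [mul_div_assoc, mul_comm, div_mul_cancel₀ _ hpi.ne']
  · intro p hp
    obtain ⟨q, hq, rfl⟩ := List.mem_map.1 hp
    exact ⟨sHom_area q.1 (h2 q hq).1, sHom_area q.2 (h2 q hq).2⟩

/-- MAIN LEMMA -/
theorem main_lemma (L : List (LH × LH)) (m : ℤ)
    (hL : ∀ p ∈ L, MeasurePreserving p.1.f volume volume ∧ MeasurePreserving p.2.f volume volume)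
    (h : (L.map fun p => cm p.1 p.2).prod = LH.T ^ m) : m ≤ 2 * L.length + 3 := by
  obtain ⟨L', h1, h2, h3⟩ := reverse_comm
    (fun x : LH => MeasurePreserving x.f volume volume) L hL
  have := main_lemma_neg L' (-m) h1 (by rw [h3, h, zpow_neg])
  rw [h2] at this
  linarith

/-! ### final theorem -/

theorem exists_lift_gen {g : ℕ} (ρ : SurfaceGroup g →* (ℂ ≃ₜ ℂ))
    (hop : ∀ γ, OrientationPreserving (ρ γ)) : ∃ A B : Fin g → LH,
      (∀ i, (A i).f = ρ (sgA i)) ∧ (∀ i, (B i).f = ρ (sgB i)) := by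
  refine ⟨fun i => ⟨ρ (sgA i), (hop _).choose, (hop _).choose_spec⟩,
    fun i => ⟨ρ (sgB i), (hop _).choose, (hop _).choose_spec⟩, fun _ => rfl, fun _ => rfl⟩

theorem rj10_central (m : ℤ) (F : LH) : LH.T ^ m * F = F * LH.T ^ m := by
  have h : Commute LH.T F := LH.T_central F
  exact (h.zpow_left m).eq

/-- commutators do not see central powers -/
theorem rj10_cm (a b : ℤ) (A B : LH) : cm (LH.T ^ a * A) (LH.T ^ b * B) = cm A B := by
  have ha : Commute (LH.T ^ a) A := rj10_central a A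
  have hb : Commute (LH.T ^ a) B := rj10_central a B
  have hc : Commute (LH.T ^ b) A := rj10_central b A
  have hd : Commute (LH.T ^ b) B := rj10_central b B
  have hab : Commute (LH.T ^ a) (LH.T ^ b) := Commute.zpow_zpow_self LH.T a b
  unfold cm
  rw [_root_.mul_inv_rev, _root_.mul_inv_rev]
  have h1 : LH.T ^ a * A * (LH.T ^ b * B) * (A⁻¹ * (LH.T ^ a)⁻¹) * (B⁻¹ * (LH.T ^ b)⁻¹) =
      (LH.T ^ a * LH.T ^ b) * (A * B) * (A⁻¹ * (LH.T ^ a)⁻¹) * (B⁻¹ * (LH.T ^ b)⁻¹) := by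
    have : A * LH.T ^ b = LH.T ^ b * A := hc.eq.symm
    simp only [mul_assoc]
    rw [← mul_assoc A (LH.T ^ b), this]
    simp only [mul_assoc]
  have h2 : A⁻¹ * (LH.T ^ a)⁻¹ = (LH.T ^ a)⁻¹ * A⁻¹ := by
    rw [← _root_.mul_inv_rev, ← _root_.mul_inv_rev, ha.eq]
  have h3 : B⁻¹ * (LH.T ^ b)⁻¹ = (LH.T ^ b)⁻¹ * B⁻¹ := by
    rw [← _root_.mul_inv_rev, ← _root_.mul_inv_rev, hd.eq]
  have h4 : Commute (LH.T ^ a * LH.T ^ b) (A * B) :=
    (ha.mul_right hb).mul_left (hc.mul_right hd)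
  have h5 : Commute (LH.T ^ b) (A * B * A⁻¹) := (hc.mul_right hd).mul_right hc.inv_right
  rw [h1, h2, h3, h4.eq]
  have h6 : A * B * (LH.T ^ a * LH.T ^ b) * ((LH.T ^ a)⁻¹ * A⁻¹) * ((LH.T ^ b)⁻¹ * B⁻¹) =
      A * B * (LH.T ^ b * A⁻¹ * (LH.T ^ b)⁻¹) * B⁻¹ := by
    rw [hab.eq]
    simp only [mul_assoc]
    rw [mul_inv_cancel_left]
  have h7 : LH.T ^ b * A⁻¹ * (LH.T ^ b)⁻¹ = A⁻¹ := by
    rw [hc.inv_right.eq, mul_inv_cancel_right]
  rw [h6, h7]

theorem rj10_cm_map {G1 G2 : Type*} [Group G1] [Group G2] (φ : G1 →* G2) (a b : G1) :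
    φ (cm a b) = cm (φ a) (φ b) := by
  unfold cm
  simp

theorem rj10_rel (g : ℕ) : ((List.finRange g).map fun i => cm (sgA i) (sgB i)).prod = (1 : SurfaceGroup g) := by
  have h1 : PresentedGroup.mk {surfaceRel g} (surfaceRel g) = 1 :=
    PresentedGroup.one_of_mem (Set.mem_singleton _)
  refine Eq.trans ?_ h1
  have h2 : PresentedGroup.mk {surfaceRel g} (surfaceRel g) = PresentedGroup.mk {surfaceRel g}
      (((List.finRange g).map fun i => cm (FreeGroup.of (Sum.inl i)) (FreeGroup.of (Sum.inr i))).prod) := rfl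
  rw [h2, map_list_prod, List.map_map]
  exact congrArg List.prod (List.map_congr_left fun i _ =>
    (rj10_cm_map (PresentedGroup.mk {surfaceRel g}) _ _).symm)

theorem exists_euler {g : ℕ} (ρ : SurfaceGroup g →* (ℂ ≃ₜ ℂ))
    (hop : ∀ γ, OrientationPreserving (ρ γ)) : ∃ e : ℤ, IsEulerNumber ρ e := by
  obtain ⟨A, B, hA, hB⟩ := exists_lift_gen ρ hop
  have hf : (((List.finRange g).map fun i => cm (A i) (B i)).prod).f = (1 : LH).f := by
    have h1 : LH.toHomeo (((List.finRange g).map fun i => cm (A i) (B i)).prod) =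
        ρ (((List.finRange g).map fun i => cm (sgA i) (sgB i)).prod) := by
      rw [map_list_prod, map_list_prod, List.map_map, List.map_map]
      congr 1
      apply List.map_congr_left
      intro i _
      simp only [Function.comp_apply]
      rw [rj10_cm_map, rj10_cm_map]
      have e1 : LH.toHomeo (A i) = ρ (sgA i) := hA i
      have e2 : LH.toHomeo (B i) = ρ (sgB i) := hB i
      rw [e1, e2]
    rw [rj10_rel, map_one] at h1
    exact h1
  obtain ⟨m, hm⟩ := LH.exists_zpow _ _ hf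
  refine ⟨m, fun A' B' hA' hB' => ?_⟩
  rw [mul_one] at hm
  rw [← hm]
  congr 1
  apply List.map_congr_left
  intro i _
  obtain ⟨a, ha⟩ := LH.exists_zpow (A' i) (A i) ((hA' i).trans (hA i).symm)
  obtain ⟨b, hb⟩ := LH.exists_zpow (B' i) (B i) ((hB' i).trans (hB i).symm)
  rw [ha, hb]
  exact rj10_cm a b _ _

theorem zpow_inj {e e' : ℤ} (h : LH.T ^ e = LH.T ^ e') : e = e' := by
  have h1 := (LH.T_zpow e).2 0 1 zero_ne_one
  have h2 := (LH.T_zpow e').2 0 1 zero_ne_one
  rw [h, h2] at h1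
  exact_mod_cast h1.symm

/-- the upper bound -/
theorem euler_le (L : List (LH × LH)) (hne : L ≠ []) (e : ℤ)
    (hL : ∀ p ∈ L, MeasurePreserving p.1.f volume volume ∧ MeasurePreserving p.2.f volume volume)
    (h : (L.map fun p => cm p.1 p.2).prod = LH.T ^ e) : e ≤ 2 * (L.length : ℤ) - 2 := by
  obtain ⟨L', h1, h2, h3⟩ := amplify (fun x : LH => MeasurePreserving x.f volume volume)
    (fun x y hx hy => hx.comp hy) (fun x hx => mp_inv hx) (MeasurePreserving.id volume) (LH.T ^ e)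
    (rj10_central e) L hL hne h 6
  rw [← zpow_natCast, ← zpow_mul] at h3
  have h4 := main_lemma L' (e * (6 : ℕ)) h1 h3
  rw [h2] at h4
  have h5 : 1 ≤ L.length := List.length_pos_iff.2 hne
  push_cast [Nat.cast_sub h5] at h4
  omega

/-- FINAL THEOREM -/
theorem milnor_wood (g : ℕ) (hg : 1 ≤ g) (ρ : SurfaceGroup g →* (ℂ ≃ₜ ℂ))
    (hop : ∀ γ, OrientationPreserving (ρ γ))
    (hvol : ∀ γ, MeasurePreserving (ρ γ) volume volume) :
    ∃ e : ℤ, IsEulerNumber ρ e ∧ (∀ e', IsEulerNumber ρ e' → e' = e) ∧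
      |e| ≤ 2 * (g : ℤ) - 2 := by
  obtain ⟨e, he⟩ := exists_euler ρ hop
  obtain ⟨A, B, hA, hB⟩ := exists_lift_gen ρ hop
  have hprod := he A B hA hB
  refine ⟨e, he, fun e' he' => ?_, ?_⟩
  · have := he' A B hA hB
    rw [hprod] at this
    exact (zpow_inj this).symm
  · set L : List (LH × LH) := (List.finRange g).map fun i => (A i, B i) with hL
    have hlen : L.length = g := by
      rw [hL, List.length_map, List.length_finRange]
    have hne : L ≠ [] := by
      intro h0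
      rw [h0, List.length_nil] at hlen
      omega
    have hmp : ∀ p ∈ L, MeasurePreserving p.1.f volume volume ∧ MeasurePreserving p.2.f volume volume := by
      intro p hp
      obtain ⟨i, _, rfl⟩ := List.mem_map.1 hp
      simp only
      rw [hA, hB]
      exact ⟨hvol _, hvol _⟩
    have hLprod : (L.map fun p => cm p.1 p.2).prod = LH.T ^ e := by
      rw [← hprod, hL, List.map_map]
      rfl
    have h1 := euler_le L hne e hmp hLprod
    obtain ⟨L', k1, k2, k3⟩ := reverse_comm (fun x : LH => MeasurePreserving x.f volume volume) L hmp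
    rw [hLprod, ← zpow_neg] at k3
    have hne' : L' ≠ [] := by
      intro h0
      rw [h0, List.length_nil] at k2
      omega
    have h2 := euler_le L' hne' (-e) k1 k3
    rw [k2, hlen] at h2
    rw [hlen] at h1
    rw [abs_le]
    constructor <;> linarith

end

end MWC
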