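import Pool.Agent.Lib.MP_cbfcf7.Z0

/-!
# Lifted homeomorphisms of the plane, Euler number
-/

namespace MWC

noncomputable section

open scoped Classical
open Complex MeasureTheory

/-- forgetting the angle -/
def LH.toHomeo : LH →* (ℂ ≃ₜ ℂ) where
  toFun F := F.f
  map_one' := rfl
  map_mul' _ _ := rfl

theorem rj1_mul_f (F F' : LH) (x : ℂ) : (F * F').f x = F.f (F'.f x) := rfl

theorem rj1_mul_th (F F' : LH) (x y : ℂ) : (F * F').θ x y = F.θ (F'.f x) (F'.f y) + F'.θ x y := rfl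

theorem rj1_T_th (x y : ℂ) (h : x ≠ y) : LH.T.θ x y = 1 := if_neg h

theorem rj1_T_f (x : ℂ) : LH.T.f x = x := rfl

theorem rj1_Tinv_f (x : ℂ) : (LH.T⁻¹).f x = x := rfl

theorem rj1_Tinv_th (x y : ℂ) (h : x ≠ y) : (LH.T⁻¹).θ x y = -1 := by
  show -LH.T.θ ((LH.T.f⁻¹ : ℂ ≃ₜ ℂ) x) ((LH.T.f⁻¹ : ℂ ≃ₜ ℂ) y) = -1
  rw [show (LH.T.f⁻¹ : ℂ ≃ₜ ℂ) x = x from rfl, show (LH.T.f⁻¹ : ℂ ≃ₜ ℂ) y = y from rfl, rj1_T_th x y h]

theorem LH.T_central (F : LH) : LH.T * F = F * LH.T := by
  apply LH.ext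
  · rfl
  · funext x y
    rw [rj1_mul_th, rj1_mul_th, rj1_T_f, rj1_T_f]
    by_cases h : x = y
    · subst h
      rw [LH.T.h.diag, LH.T.h.diag, F.h.diag]
    · rw [rj1_T_th x y h, rj1_T_th _ _ (fun hc => h (F.f.injective hc))]
      ring

theorem LH.T_zpow (m : ℤ) : (LH.T ^ m).f = 1 ∧ ∀ x y, x ≠ y → (LH.T ^ m).θ x y = m := by
  induction m using Int.induction_on with
  | zero =>
    rw [zpow_zero]
    refine ⟨rfl, fun x y _ => ?_⟩
    show (0 : ℝ) = _
    simp
  | succ m ih =>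
    rw [zpow_add_one]
    refine ⟨?_, fun x y h => ?_⟩
    · ext x
      rw [rj1_mul_f, rj1_T_f, ih.1]
    · rw [rj1_mul_th, rj1_T_f, rj1_T_f, ih.2 x y h, rj1_T_th x y h]
      push_cast
      ring
  | pred m ih =>
    rw [zpow_sub_one]
    refine ⟨?_, fun x y h => ?_⟩
    · ext x
      rw [rj1_mul_f, rj1_Tinv_f, ih.1]
    · rw [rj1_mul_th, rj1_Tinv_f, rj1_Tinv_f, ih.2 x y h, rj1_Tinv_th x y h]
      push_cast
      ring

theorem rj1_conn : IsPreconnected {p : ℂ × ℂ | p.1 ≠ p.2} := by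
  have h1 : IsPreconnected ({0}ᶜ : Set ℂ) :=
    (isConnected_compl_singleton_of_one_lt_rank (by
      rw [Complex.rank_real_complex]
      exact_mod_cast one_lt_two) 0).isPreconnected
  have h2 : IsPreconnected ((Set.univ : Set ℂ) ×ˢ ({0}ᶜ : Set ℂ)) := isPreconnected_univ.prod h1
  have h3 := h2.image (fun p : ℂ × ℂ => (p.1, p.1 + p.2)) (by fun_prop)
  convert h3 using 1
  ext p
  constructor
  · intro hp
    refine ⟨(p.1, p.2 - p.1), ⟨Set.mem_univ _, ?_⟩, ?_⟩
    · intro hc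
      rw [Set.mem_singleton_iff, sub_eq_zero] at hc
      exact hp hc.symm
    · simp
  · rintro ⟨q, ⟨-, hq⟩, rfl⟩ hc
    apply hq
    simpa using hc

theorem rj1_int {f : ℂ ≃ₜ ℂ} {θ θ' : ℂ → ℂ → ℝ} (h : IsLift f θ) (h' : IsLift f θ') (x y : ℂ) (hxy : x ≠ y) :
    ∃ m : ℤ, θ x y - θ' x y = m := by
  obtain ⟨s, hs, h1⟩ := h.angle x y hxy
  obtain ⟨t, ht, h2⟩ := h'.angle x y hxy
  have hyx : (y - x) ≠ 0 := sub_ne_zero.2 (Ne.symm hxy)
  have h3 : (s : ℂ) * exp (2 * Real.pi * I * θ x y) = t * exp (2 * Real.pi * I * θ' x y) := by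
    apply mul_right_cancel₀ hyx
    rw [← h1, ← h2]
  have e1 : ∀ u : ℝ, ‖exp (2 * Real.pi * I * u)‖ = 1 := by
    intro u
    rw [Complex.norm_exp]
    simp
  have h4 : s = t := by
    have := congrArg norm h3
    rw [norm_mul, norm_mul, e1, e1, Complex.norm_real, Complex.norm_real, mul_one, mul_one,
      Real.norm_of_nonneg hs.le, Real.norm_of_nonneg ht.le] at this
    exact this
  rw [h4] at h3
  have ht' : (t : ℂ) ≠ 0 := by exact_mod_cast ht.ne'
  have h5 := mul_left_cancel₀ ht' h3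
  rw [Complex.exp_eq_exp_iff_exists_int] at h5
  obtain ⟨n, hn⟩ := h5
  refine ⟨n, ?_⟩
  have hpi : (2 * Real.pi * I : ℂ) ≠ 0 := Complex.two_pi_I_ne_zero
  have h6 : (2 * Real.pi * I : ℂ) * (θ x y) = 2 * Real.pi * I * (θ' x y + n) := by
    rw [hn]
    ring
  have h7 := mul_left_cancel₀ hpi h6
  have h8 : ((θ x y - θ' x y : ℝ) : ℂ) = ((n : ℝ) : ℂ) := by
    push_cast
    rw [h7]
    ring
  exact_mod_cast h8

theorem LH.exists_zpow (F F' : LH) (h : F.f = F'.f) : ∃ m : ℤ, F = LH.T ^ m * F' := by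
  have hF : IsLift F'.f F.θ := by
    rw [← h]
    exact F.h
  have hint := fun x y hxy => rj1_int hF F'.h x y hxy
  obtain ⟨m, hm⟩ := hint 0 1 zero_ne_one
  have hcont : ContinuousOn (fun p : ℂ × ℂ => F.θ p.1 p.2 - F'.θ p.1 p.2) {p | p.1 ≠ p.2} :=
    F.h.cont.sub F'.h.cont
  have h0 : ((0 : ℂ), (1 : ℂ)) ∈ {p : ℂ × ℂ | p.1 ≠ p.2} := zero_ne_one
  have hconst : ∀ x y : ℂ, x ≠ y → F.θ x y - F'.θ x y = m := by
    intro x y hxy
    obtain ⟨n, hn⟩ := hint x y hxy
    have h1 : (x, y) ∈ {p : ℂ × ℂ | p.1 ≠ p.2} := hxy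
    by_contra hne
    rw [hn] at hne
    have hnm : n ≠ m := fun hc => hne (by rw [hc])
    rcases lt_or_gt_of_ne hnm with hlt | hlt
    · have h2 : (n : ℝ) + 1 ≤ m := by exact_mod_cast hlt
      have h3 := rj1_conn.intermediate_value h1 h0 hcont
      have h4 : (n : ℝ) + 1 / 2 ∈ Set.Icc (F.θ x y - F'.θ x y) (F.θ 0 1 - F'.θ 0 1) := by
        rw [hn, hm]
        constructor <;> linarith
      obtain ⟨q, hq, hq2⟩ := h3 h4
      obtain ⟨k, hk⟩ := hint q.1 q.2 hq
      simp only at hq2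
      rw [hk] at hq2
      have h5 : (2 * k : ℤ) = 2 * n + 1 := by
        have : (2 * k : ℝ) = 2 * n + 1 := by rw [hq2]; ring
        exact_mod_cast this
      omega
    · have h2 : (m : ℝ) + 1 ≤ n := by exact_mod_cast hlt
      have h3 := rj1_conn.intermediate_value h0 h1 hcont
      have h4 : (m : ℝ) + 1 / 2 ∈ Set.Icc (F.θ 0 1 - F'.θ 0 1) (F.θ x y - F'.θ x y) := by
        rw [hn, hm]
        constructor <;> linarith
      obtain ⟨q, hq, hq2⟩ := h3 h4
      obtain ⟨k, hk⟩ := hint q.1 q.2 hq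
      simp only at hq2
      rw [hk] at hq2
      have h5 : (2 * k : ℤ) = 2 * m + 1 := by
        have : (2 * k : ℝ) = 2 * m + 1 := by rw [hq2]; ring
        exact_mod_cast this
      omega
  refine ⟨m, ?_⟩
  apply LH.ext
  · ext x
    rw [rj1_mul_f, (LH.T_zpow m).1, h]
    rfl
  · funext x y
    rw [rj1_mul_th]
    by_cases hxy : x = y
    · subst hxy
      rw [F.h.diag, (LH.T ^ m).h.diag, F'.h.diag, add_zero]
    · rw [(LH.T_zpow m).2 _ _ (fun hc => hxy (F'.f.injective hc)), ← hconst x y hxy]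
      ring

theorem rj2_conj {H : Type*} [Group H] (c : H) (L : List (H × H)) :
    ((L.map fun p => (c * p.1 * c⁻¹, c * p.2 * c⁻¹)).map fun p => cm p.1 p.2).prod =
      c * (L.map fun p => cm p.1 p.2).prod * c⁻¹ := by
  induction L with
  | nil => simp
  | cons p L ih =>
    rw [List.map_cons, List.map_cons, List.prod_cons, ih, List.map_cons, List.prod_cons]
    unfold cm
    group

theorem rj2_pow {H : Type*} [Group H] (P : H → Prop) (hmul : ∀ x y, P x → P y → P (x * y))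
    (h1 : P 1) {x : H} (hx : P x) (n : ℕ) : P (x ^ n) := by
  induction n with
  | zero =>
    rw [pow_zero]
    exact h1
  | succ n ih =>
    rw [pow_succ]
    exact hmul _ _ ih hx

theorem rj2_list {H : Type*} [Group H] (P : H → Prop) (hmul : ∀ x y, P x → P y → P (x * y))
    (hinv : ∀ x, P x → P x⁻¹) (h1 : P 1) (b : H) (hb : P b) (L : List (H × H))
    (hL : ∀ p ∈ L, P p.1 ∧ P p.2) (n : ℕ) : ∃ L' : List (H × H), (∀ p ∈ L', P p.1 ∧ P p.2) ∧
      L'.length = n * L.length ∧ (L'.map fun p => cm p.1 p.2).prod =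
        b ^ n * (b⁻¹ * (L.map fun p => cm p.1 p.2).prod) ^ n := by
  induction n with
  | zero => exact ⟨[], by simp, by simp, by simp⟩
  | succ n ih =>
    obtain ⟨L', h2, h3, h4⟩ := ih
    refine ⟨(L.map fun p => (b ^ n * p.1 * (b ^ n)⁻¹, b ^ n * p.2 * (b ^ n)⁻¹)) ++ L', ?_, ?_, ?_⟩
    · intro p hp
      rw [List.mem_append, List.mem_map] at hp
      rcases hp with ⟨q, hq, rfl⟩ | hp
      · have hbn := rj2_pow P hmul h1 hb n
        obtain ⟨h5, h6⟩ := hL q hq
        exact ⟨hmul _ _ (hmul _ _ hbn h5) (hinv _ hbn), hmul _ _ (hmul _ _ hbn h6) (hinv _ hbn)⟩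
      · exact h2 p hp
    · rw [List.length_append, List.length_map, h3]
      ring
    · rw [List.map_append, List.prod_append, rj2_conj, h4, pow_succ b n, pow_succ' (b⁻¹ * _) n]
      simp only [_root_.mul_assoc, _root_.inv_mul_cancel_left, _root_.mul_inv_cancel_left]

theorem amplify {H : Type*} [Group H] (P : H → Prop) (hmul : ∀ x y, P x → P y → P (x * y))
    (hinv : ∀ x, P x → P x⁻¹) (h1 : P 1) (z : H) (hz : ∀ x, z * x = x * z) (L : List (H × H))
    (hL : ∀ p ∈ L, P p.1 ∧ P p.2) (hne : L ≠ []) (h : (L.map fun p => cm p.1 p.2).prod = z)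
    (n : ℕ) : ∃ L' : List (H × H), (∀ p ∈ L', P p.1 ∧ P p.2) ∧
      L'.length = n * (L.length - 1) + 1 ∧ (L'.map fun p => cm p.1 p.2).prod = z ^ n := by
  cases L with
  | nil => exact absurd rfl hne
  | cons q L =>
    obtain ⟨a, b⟩ := q
    have hab := hL (a, b) List.mem_cons_self
    obtain ⟨L', h2, h3, h4⟩ := rj2_list P hmul hinv h1 b hab.2 L
      (fun p hp => hL p (List.mem_cons_of_mem _ hp)) n
    refine ⟨(a, b ^ n) :: L', ?_, ?_, ?_⟩
    · intro p hp
      rw [List.mem_cons] at hp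
      rcases hp with rfl | hp
      · exact ⟨hab.1, rj2_pow P hmul h1 hab.2 n⟩
      · exact h2 p hp
    · rw [List.length_cons, h3, List.length_cons, Nat.add_sub_cancel]
    · rw [List.map_cons, List.prod_cons, h4]
      rw [List.map_cons, List.prod_cons] at h
      set X := (L.map fun p => cm p.1 p.2).prod with hX
      have h5 : a * b * a⁻¹ = z * (X⁻¹ * b) := by
        rw [← h]
        unfold cm
        have : ∀ u v w : H, u * v * w = u * (v * w) := fun u v w => mul_assoc u v w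
        have h6 := hz (X⁻¹ * b)
        rw [← h] at h6
        unfold cm at h6
        rw [h6]
        have h7 := hz X⁻¹
        rw [← h] at h7
        unfold cm at h7
        have h8 := hz (b⁻¹ * X)
        rw [← h] at h8
        unfold cm at h8
        rw [← h6]
        group
      have hcomm : Commute z (X⁻¹ * b) := hz _
      have h6 : a * b ^ n * a⁻¹ = z ^ n * (X⁻¹ * b) ^ n := by
        rw [← hcomm.mul_pow, ← h5, conj_pow]
      have h7 : z ^ n = a * b ^ n * a⁻¹ * ((X⁻¹ * b) ^ n)⁻¹ := by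
        rw [h6, mul_inv_cancel_right]
      rw [h7, ← inv_pow, _root_.mul_inv_rev, inv_inv]
      unfold cm
      group

theorem reverse_comm {H : Type*} [Group H] (P : H → Prop) (L : List (H × H))
    (hL : ∀ p ∈ L, P p.1 ∧ P p.2) : ∃ L' : List (H × H), (∀ p ∈ L', P p.1 ∧ P p.2) ∧
      L'.length = L.length ∧ (L'.map fun p => cm p.1 p.2).prod =
        ((L.map fun p => cm p.1 p.2).prod)⁻¹ := by
  induction L with
  | nil => exact ⟨[], by simp, rfl, by simp⟩
  | cons q L ih =>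
    obtain ⟨L', h2, h3, h4⟩ := ih (fun p hp => hL p (List.mem_cons_of_mem _ hp))
    have hq := hL q List.mem_cons_self
    refine ⟨L' ++ [(q.2, q.1)], ?_, ?_, ?_⟩
    · intro p hp
      rw [List.mem_append, List.mem_singleton] at hp
      rcases hp with hp | rfl
      · exact h2 p hp
      · exact ⟨hq.2, hq.1⟩
    · rw [List.length_append, h3]
      rfl
    · have h5 : ((q :: L).map fun p => cm p.1 p.2).prod =
          cm q.1 q.2 * (L.map fun p => cm p.1 p.2).prod := by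
        rw [List.map_cons, List.prod_cons]
      have h6 : ([(q.2, q.1)].map fun p : H × H => cm p.1 p.2).prod = (cm q.1 q.2)⁻¹ := by
        rw [List.map_cons, List.map_nil, List.prod_cons, List.prod_nil, _root_.mul_one]
        unfold cm
        group
      rw [List.map_append, List.prod_append, h4, h5, h6, _root_.mul_inv_rev]

end

end MWC
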