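import Pool.Agent.Lib.MP_cbfcf7.T4

/-!
# Block TOP, file 5: small circles about the obstacles
-/

namespace MWT

noncomputable section

open scoped Classical unitInterval Topology
open Set

/-- `g` preserves the orientation at `p`: chords from `p` turn by a continuous real angle -/
def LocOP (g : ℂ → ℂ) (p : ℂ) : Prop :=
  ∃ ε > 0, ∃ θ : ℂ → ℝ, ContinuousOn θ {q | q ≠ p ∧ ‖q - p‖ < ε} ∧
    ∀ q, q ≠ p → ‖q - p‖ < ε → ∃ s : ℝ, 0 < s ∧
      g q - g p = s * Complex.exp (2 * Real.pi * Complex.I * θ q) * (q - p)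

theorem LocOP.id (p : ℂ) : LocOP (fun z => z) p := by
  refine ⟨1, one_pos, fun _ => 0, continuousOn_const, fun q _ _ => ⟨1, one_pos, ?_⟩⟩
  simp

/-- orientation preserving maps compose -/
theorem LocOP.comp {g h : ℂ → ℂ} {p : ℂ} (hg : LocOP g (h p)) (hh : LocOP h p)
    (hc : Continuous h) (hi : Function.Injective h) : LocOP (fun z => g (h z)) p := by
  obtain ⟨e1, he1, θ1, hθ1, h1⟩ := hg
  obtain ⟨e2, he2, θ2, hθ2, h2⟩ := hh
  obtain ⟨d, hd, hd'⟩ := Metric.continuousAt_iff.1 hc.continuousAt e1 he1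
  have hd2 : ∀ q, ‖q - p‖ < d → ‖h q - h p‖ < e1 := by
    intro q hq
    have := hd' (x := q) (by rwa [dist_eq_norm])
    rwa [dist_eq_norm] at this
  refine ⟨min e2 d, lt_min he2 hd, fun q => θ1 (h q) + θ2 q, ?_, ?_⟩
  · apply ContinuousOn.add
    · apply ContinuousOn.comp hθ1 hc.continuousOn
      rintro q ⟨hq1, hq2⟩
      exact ⟨fun h => hq1 (hi h), hd2 q (hq2.trans_le (min_le_right _ _))⟩
    · apply hθ2.mono
      rintro q ⟨hq1, hq2⟩
      exact ⟨hq1, hq2.trans_le (min_le_left _ _)⟩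
  · intro q hq1 hq2
    obtain ⟨s2, hs2, hs2'⟩ := h2 q hq1 (hq2.trans_le (min_le_left _ _))
    obtain ⟨s1, hs1, hs1'⟩ := h1 (h q) (fun h => hq1 (hi h)) (hd2 q (hq2.trans_le (min_le_right _ _)))
    refine ⟨s1 * s2, mul_pos hs1 hs2, ?_⟩
    rw [hs1', hs2']
    push_cast
    rw [mul_add, Complex.exp_add]
    ring

/-- the left half plane (logarithms of the points of the unit disc) -/
abbrev Hp : Type := {w : ℂ // w.re < 0}

theorem ek_notMem (k : ℤ) (w : Hp) : (k : ℂ) + 1 / 2 + Complex.exp w.1 ∉ Obs := by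
  rintro ⟨h, l, hl⟩
  have h1 : (Complex.exp w.1).im = 0 := by simpa using h
  have h2 : (k : ℝ) + 1 / 2 + (Complex.exp w.1).re = l + 1 / 2 := by
    rw [← hl]
    simp
  have h3 : ‖Complex.exp w.1‖ < 1 := by
    rw [Complex.norm_exp]
    exact Real.exp_lt_one_iff.2 w.2
  have h4 : Complex.exp w.1 = ((l - k : ℤ) : ℂ) := by
    apply Complex.ext
    · push_cast
      simp only [Complex.sub_re, Complex.intCast_re]
      linarith
    · rw [h1, Complex.intCast_im]
  rw [h4, Complex.norm_intCast] at h3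
  have h5 : |l - k| < 1 := by exact_mod_cast h3
  rw [Int.abs_lt_one_iff] at h5
  rw [h5] at h4
  exact Complex.exp_ne_zero _ (by rw [h4]; simp)

/-- the punctured unit disc about the obstacle `k + 1/2` -/
def ek (k : ℤ) : C(Hp, Xo) where
  toFun w := ⟨(k : ℂ) + 1 / 2 + Complex.exp w.1, ek_notMem k w⟩
  continuous_toFun := by
    fun_prop

theorem ek_val (k : ℤ) (w : Hp) : (ek k w).1 = (k : ℂ) + 1 / 2 + Complex.exp w.1 := rfl

/-- the half plane is simply connected -/
theorem hom_Hp {u v : Hp} (α β : Path u v) : α.Homotopic β := by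
  have hconv : Convex ℝ {w : ℂ | w.re < 0} := convex_halfSpace_re_lt 0
  have hne : ({w : ℂ | w.re < 0}).Nonempty := ⟨-1, by simp⟩
  have h1 : ContractibleSpace Hp := hconv.contractibleSpace hne
  have : SimplyConnectedSpace Hp := SimplyConnectedSpace.ofContractible _
  exact SimplyConnectedSpace.paths_homotopic α β

/-- the straight path in the half plane -/
def sH (u v : Hp) : Path u v where
  toFun t := ⟨(1 - (t : ℝ)) • u.1 + (t : ℝ) • v.1, by
    have h1 := u.2
    have h2 := v.2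
    have h3 := t.2.1
    have h4 := t.2.2
    have h5 : ((1 - (t : ℝ)) • u.1 + (t : ℝ) • v.1).re =
        (1 - (t : ℝ)) * u.1.re + (t : ℝ) * v.1.re := by simp
    rw [h5]
    rcases eq_or_lt_of_le h3 with h | h
    · rw [← h]; linarith
    · nlinarith [mul_nonneg (sub_nonneg.2 h4) (neg_pos.2 h1).le, mul_pos h (neg_pos.2 h2)]⟩
  continuous_toFun := by
    fun_prop
  source' := by simp
  target' := by simp

/-- crossing word of the straight path -/
def eh (k : ℤ) (u v : Hp) : G := clp ((sH u v).map (ek k).continuous)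

theorem clp_ek (k : ℤ) {u v : Hp} (α : Path u v) :
    clp (α.map (ek k).continuous) = eh k u v :=
  clp_homotopic ((hom_Hp α (sH u v)).map (ek k))

theorem eh_trans (k : ℤ) (u v w : Hp) : eh k u v * eh k v w = eh k u w := by
  rw [← clp_ek k ((sH u v).trans (sH v w)), Path.map_trans, clp_trans]
  rfl

/-- translate by a full clockwise turn -/
def tu (u : Hp) : Hp := ⟨u.1 - 2 * Real.pi * Complex.I, by simpa using u.2⟩

theorem ek_tu (k : ℤ) (u : Hp) : ek k (tu u) = ek k u := by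
  apply Subtype.ext
  rw [ek_val, ek_val]
  simp only [tu, Complex.exp_sub, Complex.exp_two_pi_mul_I, div_one]

theorem eh_tu (k : ℤ) (u v : Hp) : eh k (tu u) (tu v) = eh k u v := by
  unfold eh
  rw [← clp_cast ((sH u v).map (ek k).continuous) (ek_tu k u) (ek_tu k v)]
  congr 1
  apply Path.ext
  funext t
  apply Subtype.ext
  have h1 : (sH (tu u) (tu v) t).1 = (sH u v t).1 - 2 * Real.pi * Complex.I := by
    show (1 - (t : ℝ)) • (u.1 - 2 * Real.pi * Complex.I) +
      (t : ℝ) • (v.1 - 2 * Real.pi * Complex.I) =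
      ((1 - (t : ℝ)) • u.1 + (t : ℝ) • v.1) - 2 * Real.pi * Complex.I
    simp only [Complex.real_smul]
    push_cast
    ring
  show (k : ℂ) + 1 / 2 + Complex.exp (sH (tu u) (tu v) t).1 =
    (k : ℂ) + 1 / 2 + Complex.exp (sH u v t).1
  rw [h1, Complex.exp_sub, Complex.exp_two_pi_mul_I, div_one]

/-- the point of `Hp` of angle `-π/2` with the same modulus -/
def dn (u : Hp) : Hp := ⟨(u.1.re : ℂ) - Real.pi / 2 * Complex.I, by simpa using u.2⟩

theorem TI_aux1 (k : ℤ) (a b : Hp) (ρ : ℝ) (ha : a.1.re = ρ) (hb : b.1.re = ρ) (t : I) :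
    (((sH a b).map (ek k).continuous) t).1.re =
      k + 1 / 2 + Real.exp ρ * Real.cos ((1 - (t : ℝ)) * a.1.im + t * b.1.im) ∧
    (((sH a b).map (ek k).continuous) t).1.im =
      Real.exp ρ * Real.sin ((1 - (t : ℝ)) * a.1.im + t * b.1.im) := by
  have h0 : (((sH a b).map (ek k).continuous) t).1 =
      (k : ℂ) + 1 / 2 + Complex.exp ((1 - (t : ℝ)) • a.1 + (t : ℝ) • b.1) := rfl
  have h1 : ((1 - (t : ℝ)) • a.1 + (t : ℝ) • b.1).re = ρ := by
    simp only [Complex.add_re, Complex.smul_re, smul_eq_mul, ha, hb]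
    ring
  have h2 : ((1 - (t : ℝ)) • a.1 + (t : ℝ) • b.1).im =
      (1 - (t : ℝ)) * a.1.im + t * b.1.im := by
    simp only [Complex.add_im, Complex.smul_im, smul_eq_mul]
  rw [h0]
  constructor
  · rw [Complex.add_re, Complex.exp_re, h1, h2]
    simp
  · rw [Complex.add_im, Complex.exp_im, h1, h2]
    simp

theorem TI_aux2 (t : I) (h : Real.cos (Real.pi * t) = 0) : Real.sin (Real.pi * t) = 1 := by
  have h1 : 0 ≤ Real.sin (Real.pi * t) := by
    apply Real.sin_nonneg_of_nonneg_of_le_pi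
    · exact mul_nonneg Real.pi_pos.le t.2.1
    · calc Real.pi * t ≤ Real.pi * 1 := mul_le_mul_of_nonneg_left t.2.2 Real.pi_pos.le
        _ = Real.pi := mul_one _
  have h2 := Real.sin_sq_add_cos_sq (Real.pi * t)
  rw [h] at h2
  nlinarith

/-- a clockwise circle from the lowest point -/
theorem eh_circle (k : ℤ) (u : Hp) : eh k (dn u) (tu (dn u)) = yy k := by
  have hre : (((u.1.re : ℂ) - 3 * Real.pi / 2 * Complex.I).re) = u.1.re := by simp
  have him : (((u.1.re : ℂ) - 3 * Real.pi / 2 * Complex.I).im) = -(3 * Real.pi / 2) := by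
    simp
  let m : Hp := ⟨(u.1.re : ℂ) - 3 * Real.pi / 2 * Complex.I, by rw [hre]; exact u.2⟩
  have dre : (dn u).1.re = u.1.re := by simp [dn]
  have dim : (dn u).1.im = -(Real.pi / 2) := by simp [dn]
  have tre : (tu (dn u)).1.re = u.1.re := by simp [tu, dn]
  have tim : (tu (dn u)).1.im = -(5 * Real.pi / 2) := by
    have : (tu (dn u)).1.im = (dn u).1.im - 2 * Real.pi := by simp [tu]
    rw [this, dim]
    ring
  have mre : m.1.re = u.1.re := hre
  have mim : m.1.im = -(3 * Real.pi / 2) := him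
  have hr0 : 0 < Real.exp u.1.re := Real.exp_pos _
  have hr1 : Real.exp u.1.re < 1 := Real.exp_lt_one_iff.2 u.2
  have f1 : eh k (dn u) m = gl k := by
    have hp := TI_aux1 k (dn u) m u.1.re dre mre
    have ang : ∀ t : I, (1 - (t : ℝ)) * (dn u).1.im + t * m.1.im
        = -(Real.pi * t + Real.pi / 2) := by
      intro t
      rw [dim, mim]
      ring
    unfold eh
    rw [clp_chart _ k]
    · have hx : (ek k (dn u)).1.im = -Real.exp u.1.re := by
        have := (hp 0).2
        rw [Path.source] at this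
        rw [this, ang]
        simp
      have hy : (ek k m).1.im = Real.exp u.1.re := by
        have := (hp 1).2
        rw [Path.target] at this
        rw [this, ang, Real.sin_neg, Real.sin_add_pi_div_two]
        simp
      rw [st, st, hx, hy, if_neg (by linarith), if_pos hr0]
      simp
    · intro t h
      rw [(hp t).2, ang, Real.sin_neg, Real.sin_add_pi_div_two] at h
      have hc : Real.cos (Real.pi * t) = 0 := by
        rcases mul_eq_zero.1 h with h | h
        · exact absurd h hr0.ne'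
        · linarith
      rw [(hp t).1, ang, Real.cos_neg, Real.cos_add_pi_div_two, TI_aux2 t hc]
      rw [abs_lt]
      constructor <;> linarith
  have f2 : eh k m (tu (dn u)) = (gl (k + 1))⁻¹ := by
    have hp := TI_aux1 k m (tu (dn u)) u.1.re mre tre
    have ang : ∀ t : I, (1 - (t : ℝ)) * m.1.im + t * (tu (dn u)).1.im
        = -(Real.pi * t + Real.pi / 2 + Real.pi) := by
      intro t
      rw [tim, mim]
      ring
    unfold eh
    rw [clp_chart _ (k + 1)]
    · have hx : (ek k m).1.im = Real.exp u.1.re := by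
        have := (hp 0).2
        rw [Path.source] at this
        rw [this, ang, Real.sin_neg, Real.sin_add_pi, Real.sin_add_pi_div_two]
        simp
      have hy : (ek k (tu (dn u))).1.im = -Real.exp u.1.re := by
        have := (hp 1).2
        rw [Path.target] at this
        rw [this, ang, Real.sin_neg, Real.sin_add_pi, Real.sin_add_pi_div_two]
        simp
      rw [st, st, hx, hy, if_pos hr0, if_neg (by linarith)]
      simp
    · intro t h
      rw [(hp t).2, ang, Real.sin_neg, Real.sin_add_pi, Real.sin_add_pi_div_two] at h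
      have hc : Real.cos (Real.pi * t) = 0 := by
        rcases mul_eq_zero.1 h with h | h
        · exact absurd h hr0.ne'
        · linarith
      rw [(hp t).1, ang, Real.cos_neg, Real.cos_add_pi, Real.cos_add_pi_div_two, TI_aux2 t hc]
      push_cast
      rw [abs_lt]
      constructor <;> linarith
  rw [← eh_trans k (dn u) m (tu (dn u)), f1, f2]
  rfl

theorem eh_turn (k : ℤ) (u : Hp) : eh k u (tu u) = eh k u (dn u) * yy k * (eh k u (dn u))⁻¹ := by
  have h1 : eh k u (tu u) = eh k u (dn u) * eh k (dn u) (tu (dn u)) *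
      eh k (tu (dn u)) (tu u) := by
    rw [eh_trans, eh_trans]
  have h2 : eh k (tu (dn u)) (tu u) = (eh k u (dn u))⁻¹ := by
    rw [eh_tu]
    apply eq_inv_of_mul_eq_one_right
    rw [eh_trans]
    rw [← clp_ek k (Path.refl u)]
    exact clp_refl _
  rw [h1, h2, eh_circle]

/-- the image of a small circle about an obstacle -/
theorem image_circle (g : HH) (i j : ℤ)
    (hop : LocOP (g : ℂ ≃ₜ ℂ) ((i : ℂ) + 1 / 2))
    (hj : (g : ℂ ≃ₜ ℂ) ((i : ℂ) + 1 / 2) = (j : ℂ) + 1 / 2) :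
    ∃ (u0 a0 : Hp) (e : gX g (ek i (dn u0)) = ek j a0),
      clp (mp g ((sH (dn u0) (tu (dn u0))).map (ek i).continuous)) = eh j a0 (tu a0) := by
  obtain ⟨ε, hε, θ, hθ, hform⟩ := hop
  have hgc : Continuous (g : ℂ ≃ₜ ℂ) := (g : ℂ ≃ₜ ℂ).continuous
  obtain ⟨δ, hδ, hgδ⟩ := Metric.continuous_iff.1 hgc ((i : ℂ) + 1 / 2) 1 one_pos
  obtain ⟨r, hr0, hrε, hrδ, hr1⟩ : ∃ r : ℝ, 0 < r ∧ r < ε ∧ r < δ ∧ r < 1 := by
    refine ⟨min (min ε δ) 1 / 2, ?_, ?_, ?_, ?_⟩
    · have : 0 < min (min ε δ) 1 := lt_min (lt_min hε hδ) one_pos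
      linarith
    · have h1 : min (min ε δ) 1 ≤ ε := (min_le_left _ _).trans (min_le_left _ _)
      have : 0 < min (min ε δ) 1 := lt_min (lt_min hε hδ) one_pos
      linarith
    · have h1 : min (min ε δ) 1 ≤ δ := (min_le_left _ _).trans (min_le_right _ _)
      have : 0 < min (min ε δ) 1 := lt_min (lt_min hε hδ) one_pos
      linarith
    · have h1 : min (min ε δ) 1 ≤ 1 := min_le_right _ _
      linarith
  have hlog : Real.log r < 0 := Real.log_neg hr0 hr1
  obtain ⟨u0, hu0⟩ : ∃ u0 : Hp, u0.1 = (Real.log r : ℂ) :=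
    ⟨⟨(Real.log r : ℂ), by rw [Complex.ofReal_re]; exact hlog⟩, rfl⟩
  have hdn : (dn u0).1 = (Real.log r : ℂ) - Real.pi / 2 * Complex.I := by
    show (u0.1.re : ℂ) - Real.pi / 2 * Complex.I = _
    rw [hu0, Complex.ofReal_re]
  -- the points of the circle
  obtain ⟨c, hc⟩ : ∃ c : Path (dn u0) (tu (dn u0)), c = sH (dn u0) (tu (dn u0)) := ⟨_, rfl⟩
  have hcv : ∀ t : I, (c t).1 = (Real.log r : ℂ) +
      Complex.I * ((-(Real.pi / 2) - 2 * Real.pi * (t : ℝ) : ℝ) : ℂ) := by
    intro t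
    rw [hc]
    show (1 - (t : ℝ)) • (dn u0).1 + (t : ℝ) • ((dn u0).1 - 2 * Real.pi * Complex.I) = _
    rw [hdn]
    simp only [Complex.real_smul]
    push_cast
    ring
  obtain ⟨q, hq⟩ : ∃ q : I → ℂ, q = fun t => (ek i (c t)).1 := ⟨_, rfl⟩
  have hqc : Continuous q := by
    rw [hq]
    exact continuous_subtype_val.comp ((ek i).continuous.comp c.continuous)
  have hqp : ∀ t, q t - ((i : ℂ) + 1 / 2) = Complex.exp (c t).1 := by
    intro t
    rw [hq]
    show (ek i (c t)).1 - _ = _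
    rw [ek_val]
    ring
  have hqn : ∀ t, ‖q t - ((i : ℂ) + 1 / 2)‖ = r := by
    intro t
    rw [hqp, Complex.norm_exp, hcv]
    have : ((Real.log r : ℂ) + Complex.I *
        ((-(Real.pi / 2) - 2 * Real.pi * (t : ℝ) : ℝ) : ℂ)).re = Real.log r := by
      rw [Complex.add_re, Complex.ofReal_re, Complex.I_mul_re, Complex.ofReal_im]
      ring
    rw [this, Real.exp_log hr0]
  have hqne : ∀ t, q t ≠ (i : ℂ) + 1 / 2 := by
    intro t h
    have h1 := hqn t
    rw [h, sub_self, norm_zero] at h1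
    linarith
  have hqε : ∀ t, ‖q t - ((i : ℂ) + 1 / 2)‖ < ε := fun t => by rw [hqn]; exact hrε
  -- the image of the circle
  obtain ⟨d, hd⟩ : ∃ d : I → ℝ, d = fun t =>
      ‖(g : ℂ ≃ₜ ℂ) (q t) - (g : ℂ ≃ₜ ℂ) ((i : ℂ) + 1 / 2)‖ := ⟨_, rfl⟩
  have hdc : Continuous d := by
    rw [hd]
    exact ((hgc.comp hqc).sub continuous_const).norm
  have hd0 : ∀ t, 0 < d t := by
    intro t
    rw [hd]
    apply norm_pos_iff.2
    intro h
    exact hqne t ((g : ℂ ≃ₜ ℂ).injective (sub_eq_zero.1 h))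
  have hd1 : ∀ t, d t < 1 := by
    intro t
    rw [hd]
    have h1 := hgδ (q t) (by rw [dist_eq_norm, hqn]; exact hrδ)
    rwa [dist_eq_norm] at h1
  obtain ⟨ψ, hψ⟩ : ∃ ψ : I → ℝ, ψ = fun t =>
      2 * Real.pi * θ (q t) + (-(Real.pi / 2) - 2 * Real.pi * (t : ℝ)) := ⟨_, rfl⟩
  have hψc : Continuous ψ := by
    have h1 : Continuous fun t => θ (q t) := by
      rw [← continuousOn_univ]
      exact hθ.comp hqc.continuousOn (fun t _ => ⟨hqne t, hqε t⟩)
    rw [hψ]
    exact (continuous_const.mul h1).add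
      (continuous_const.sub (continuous_const.mul continuous_subtype_val))
  have hexp : ∀ t, Complex.exp ((Real.log (d t) : ℂ) + Complex.I * (ψ t : ℂ)) =
      (g : ℂ ≃ₜ ℂ) (q t) - (g : ℂ ≃ₜ ℂ) ((i : ℂ) + 1 / 2) := by
    intro t
    obtain ⟨s, hs, hf⟩ := hform (q t) (hqne t) (hqε t)
    have h1 : (g : ℂ ≃ₜ ℂ) (q t) - (g : ℂ ≃ₜ ℂ) ((i : ℂ) + 1 / 2) =
        ((s * r : ℝ) : ℂ) * Complex.exp (Complex.I * (ψ t : ℂ)) := by
      rw [hf, hqp, hcv, Complex.exp_add, ← Complex.ofReal_exp, Real.exp_log hr0, hψ]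
      have h2 : Complex.exp (Complex.I * ((2 * Real.pi * θ (q t) +
          (-(Real.pi / 2) - 2 * Real.pi * (t : ℝ)) : ℝ) : ℂ)) =
          Complex.exp (2 * Real.pi * Complex.I * θ (q t)) *
          Complex.exp (Complex.I * ((-(Real.pi / 2) - 2 * Real.pi * (t : ℝ) : ℝ) : ℂ)) := by
        rw [← Complex.exp_add]
        congr 1
        push_cast
        ring
      show _ = ((s * r : ℝ) : ℂ) * Complex.exp (Complex.I * ((2 * Real.pi * θ (q t) +
          (-(Real.pi / 2) - 2 * Real.pi * (t : ℝ)) : ℝ) : ℂ))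
      rw [h2]
      push_cast
      ring
    have h3 : d t = s * r := by
      have h4 : d t = ‖(g : ℂ ≃ₜ ℂ) (q t) - (g : ℂ ≃ₜ ℂ) ((i : ℂ) + 1 / 2)‖ := by rw [hd]
      rw [h4, h1, norm_mul, mul_comm Complex.I, Complex.norm_exp_ofReal_mul_I, mul_one,
        Complex.norm_real, Real.norm_of_nonneg (mul_pos hs hr0).le]
    rw [Complex.exp_add, ← Complex.ofReal_exp, Real.exp_log (hd0 t), h1, h3]
  -- the path of logarithms
  have hre : ∀ t, ((Real.log (d t) : ℂ) + Complex.I * (ψ t : ℂ)).re < 0 := by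
    intro t
    rw [Complex.add_re, Complex.ofReal_re, Complex.I_mul_re, Complex.ofReal_im]
    have := Real.log_neg (hd0 t) (hd1 t)
    linarith
  have hq01 : q 1 = q 0 := by
    rw [hq]
    show (ek i (c 1)).1 = (ek i (c 0)).1
    rw [c.target, c.source, ek_tu]
  have hend : ((Real.log (d 1) : ℂ) + Complex.I * (ψ 1 : ℂ)) =
      ((Real.log (d 0) : ℂ) + Complex.I * (ψ 0 : ℂ)) - 2 * Real.pi * Complex.I := by
    have h1 : d 1 = d 0 := by
      rw [hd]
      show ‖(g : ℂ ≃ₜ ℂ) (q 1) - _‖ = ‖(g : ℂ ≃ₜ ℂ) (q 0) - _‖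
      rw [hq01]
    have h2 : ψ 1 = ψ 0 - 2 * Real.pi := by
      rw [hψ]
      show 2 * Real.pi * θ (q 1) + (-(Real.pi / 2) - 2 * Real.pi * ((1 : I) : ℝ)) =
        2 * Real.pi * θ (q 0) + (-(Real.pi / 2) - 2 * Real.pi * ((0 : I) : ℝ)) - 2 * Real.pi
      rw [hq01, Set.Icc.coe_zero, Set.Icc.coe_one]
      ring
    rw [h1, h2]
    push_cast
    ring
  have hac : Continuous fun t : I => (Real.log (d t) : ℂ) + Complex.I * (ψ t : ℂ) := by
    have h1 : Continuous fun t => Real.log (d t) := hdc.log fun t => (hd0 t).ne'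
    fun_prop
  obtain ⟨a0, ha0⟩ : ∃ a0 : Hp, a0 = ⟨(Real.log (d 0) : ℂ) + Complex.I * (ψ 0 : ℂ), hre 0⟩ :=
    ⟨_, rfl⟩
  obtain ⟨A, hA⟩ : ∃ A : Path a0 (tu a0), ∀ t, (A t).1 =
      (Real.log (d t) : ℂ) + Complex.I * (ψ t : ℂ) := by
    refine ⟨{ toFun := fun t => ⟨(Real.log (d t) : ℂ) + Complex.I * (ψ t : ℂ), hre t⟩
              continuous_toFun := hac.subtype_mk _
              source' := by rw [ha0]
              target' := ?_ }, fun t => rfl⟩
    apply Subtype.ext
    show (Real.log (d 1) : ℂ) + Complex.I * (ψ 1 : ℂ) = a0.1 - 2 * Real.pi * Complex.I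
    rw [hend, ha0]
  have hval : ∀ t, gX g (ek i (c t)) = ek j (A t) := by
    intro t
    apply Subtype.ext
    rw [gX_val, ek_val j, hA, hexp, ← hj]
    have : (ek i (c t)).1 = q t := by rw [hq]
    rw [this]
    ring
  have e0 : gX g (ek i (dn u0)) = ek j a0 := by
    have h := hval 0
    rwa [c.source, A.source] at h
  have e1 : gX g (ek i (tu (dn u0))) = ek j (tu a0) := by
    have h := hval 1
    rwa [c.target, A.target] at h
  refine ⟨u0, a0, e0, ?_⟩
  rw [← clp_ek j A, ← clp_cast (A.map (ek j).continuous) e0 e1, ← hc]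
  congr 1
  apply Path.ext
  funext t
  exact hval t

theorem tk_low (k : ℤ) (u : Hp) : (ek k (dn u)).1.im < 0 := by
  rw [ek_val]
  have h1 : ((k : ℂ) + 1 / 2 + Complex.exp (dn u).1).im = -Real.exp u.1.re := by
    have h2 : (dn u).1.re = u.1.re := by simp [dn]
    have h3 : (dn u).1.im = -(Real.pi / 2) := by simp [dn]
    simp only [Complex.add_im, Complex.exp_im, h2, h3, Real.sin_neg, Real.sin_pi_div_two]
    simp
  rw [h1]
  exact neg_neg_of_pos (Real.exp_pos _)

/-- (t2) -/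
theorem t2 (g : HH) (i : ℤ) (hop : LocOP (g : ℂ ≃ₜ ℂ) ((i : ℂ) + 1 / 2)) :
    ∃ A ∈ Fy, ∃ j, PsE g (yy i) = A * yy j * A⁻¹ := by
  have hp : ((i : ℂ) + 1 / 2) ∈ Obs := ⟨by simp, i, by simp⟩
  obtain ⟨him, j, hre⟩ := (g.2.2.2 ((i : ℂ) + 1 / 2)).2 hp
  have hj : (g : ℂ ≃ₜ ℂ) ((i : ℂ) + 1 / 2) = (j : ℂ) + 1 / 2 := by
    apply Complex.ext
    · rw [hre]
      simp
    · rw [him]
      simp
  obtain ⟨u0, a0, e, hcirc⟩ := image_circle g i j hop hj
  obtain ⟨M, hM⟩ := exists_deep g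
  have h1 := star g hM ((sH (dn u0) (tu (dn u0))).map (ek i).continuous)
  rw [hcirc] at h1
  have h2 : clp ((sH (dn u0) (tu (dn u0))).map (ek i).continuous) = yy i := eh_circle i u0
  rw [h2] at h1
  have h3 : be g M hM.1 (ek i (tu (dn u0))) = be g M hM.1 (ek i (dn u0)) := by
    rw [ek_tu]
  have h4 := eh_turn j a0
  refine ⟨be g M hM.1 (ek i (dn u0)) * eh j a0 (dn a0), ?_, j, ?_⟩
  · have h5 : be g M hM.1 (ek i (dn u0)) * eh j a0 (dn a0) =
        clp ((mp g (vt M hM.1 (ek i (dn u0)))).trans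
          (((sH a0 (dn a0)).map (ek j).continuous).cast e rfl)) := by
      rw [clp_trans, clp_cast]
      rfl
    rw [h5]
    apply low_low_mem
    · rw [gX_val]
      apply (hM.2.1 _ _).le
      have h6 := tk_low i u0
      simp [bs, h6.le]
    · exact (tk_low j a0).le
  · have h7 : PsE g (yy i) = be g M hM.1 (ek i (dn u0)) * eh j a0 (tu a0) *
        (be g M hM.1 (ek i (dn u0)))⁻¹ := by
      have h8 : eh j a0 (tu a0) = (be g M hM.1 (ek i (dn u0)))⁻¹ * PsE g (yy i) *
          be g M hM.1 (ek i (dn u0)) := by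
        rw [h3] at h1
        exact h1
      rw [h8]
      group
    rw [h7, h4]
    group

end

end MWT
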