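import Pool.Agent.Lib.MP_cbfcf7.C6
import Pool.Agent.Lib.MP_cbfcf7.T5

/-!
# Block TOP: homeomorphisms of the strip preserving the obstacles act on `G`

Strip = `ℂ`, obstacles = half-integers on the real axis, lower half plane = below,
upper half plane = above, gate `j` = the interval `(j - 1/2, j + 1/2)` of the real axis.
-/

namespace MWC

noncomputable section

open scoped Classical
open Complex

/-- the obstacles -/
def Obs : Set ℂ := {z | z.im = 0 ∧ ∃ k : ℤ, z.re = k + 1 / 2}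

/-- `g` preserves the orientation at `p`: chords from `p` turn by a continuous real angle -/
def LocOP (g : ℂ → ℂ) (p : ℂ) : Prop :=
  ∃ ε > 0, ∃ θ : ℂ → ℝ, ContinuousOn θ {q | q ≠ p ∧ ‖q - p‖ < ε} ∧
    ∀ q, q ≠ p → ‖q - p‖ < ε → ∃ s : ℝ, 0 < s ∧
      g q - g p = s * exp (2 * Real.pi * I * θ q) * (q - p)

/-- `g` maps high points to high points and low points to low points -/
def Ends (g : ℂ → ℂ) : Prop :=
  (∀ M : ℝ, ∃ M' : ℝ, ∀ z : ℂ, M' ≤ z.im → M ≤ (g z).im) ∧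
  (∀ M : ℝ, ∃ M' : ℝ, ∀ z : ℂ, z.im ≤ M' → (g z).im ≤ M)

/-- strip homeomorphisms with period `n` -/
def SH (n : ℝ) : Subgroup (ℂ ≃ₜ ℂ) where
  carrier := {g | (∀ z, g (z + n) = g z + n) ∧ Ends g ∧ Ends g.symm ∧ (∀ p, LocOP g p) ∧
    ∀ p, LocOP g.symm p}
  mul_mem' := by
    rintro g h ⟨g1, g2, g3, g4, g5⟩ ⟨h1, h2, h3, h4, h5⟩
    refine ⟨fun z => ?_, MWT.Ends.comp (g := g) (h := h) g2 h2,
      MWT.Ends.comp (g := h.symm) (h := g.symm) h3 g3,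
      fun p => MWT.LocOP.comp (g := g) (h := h) (g4 (h p)) (h4 p) h.continuous h.injective,
      fun p => MWT.LocOP.comp (g := h.symm) (h := g.symm) (h5 (g.symm p)) (g5 p)
        g.symm.continuous g.symm.injective⟩
    change g (h (z + n)) = g (h z) + n
    rw [h1, g1]
  one_mem' := ⟨fun _ => rfl, MWT.Ends.id, MWT.Ends.id, fun p => MWT.LocOP.id p,
    fun p => MWT.LocOP.id p⟩
  inv_mem' := by
    rintro g ⟨g1, g2, g3, g4, g5⟩
    refine ⟨fun z => ?_, g3, g2, g5, g4⟩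
    change g.symm (z + n) = g.symm z + n
    apply g.injective
    rw [g1, g.apply_symm_apply, g.apply_symm_apply]

/-- strip homeomorphisms preserving the obstacles -/
def HX (n : ℤ) : Subgroup (ℂ ≃ₜ ℂ) where
  carrier := {g | g ∈ SH (n : ℝ) ∧ ∀ z, g z ∈ Obs ↔ z ∈ Obs}
  mul_mem' := by
    rintro g h ⟨g1, g2⟩ ⟨h1, h2⟩
    exact ⟨(SH (n : ℝ)).mul_mem g1 h1, fun z => (g2 (h z)).trans (h2 z)⟩
  one_mem' := ⟨(SH (n : ℝ)).one_mem, fun _ => Iff.rfl⟩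
  inv_mem' := by
    rintro g ⟨g1, g2⟩
    refine ⟨(SH (n : ℝ)).inv_mem g1, fun z => ?_⟩
    have h := g2 (g.symm z)
    rw [g.apply_symm_apply] at h
    exact h.symm

/-- the inclusion into the group of `MWT` -/
def toHH (n : ℤ) : HX n →* MWT.HH where
  toFun g := ⟨g, g.2.1.2.1, g.2.1.2.2.1, g.2.2⟩
  map_one' := rfl
  map_mul' _ _ := rfl

/-- the peripheral elements `y_i = L_i L_{i+1}⁻¹` -/
def yy (i : ℤ) : G := gL i * (gL (i + 1))⁻¹

/-- the even subgroup (loops based at the bottom) -/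
def Fy : Subgroup G := Subgroup.closure (Set.range yy)

/-- contribution of a piece of path crossing only the gate `j`, from sign `s` to sign `s'` -/
def crossC (j : ℤ) (s s' : Bool) : G :=
  if s = s' then 1 else if s' then gL j else (gL j)⁻¹

/-- BLOCK TOP. `s l = true` means that `g (i + t_l I)` is in the upper half plane. -/
theorem block_TOP (n : ℤ) (hn : 0 < n) :
    ∃ Ψ : HX n →* MulAut G,
      (∀ g i, Ψ g (gL i) * (gL 0)⁻¹ ∈ Fy) ∧
      (∀ g i, ∃ A ∈ Fy, ∃ j, Ψ g (yy i) = A * yy j * A⁻¹) ∧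
      (∀ (g : HX n) (i : ℤ) (r : ℕ) (t : ℕ → ℝ) (s : ℕ → Bool) (j : ℕ → ℤ),
        (∀ l < r, t l < t (l + 1)) →
        (∀ u ≤ t 0, ((g : ℂ ≃ₜ ℂ) (i + u * I)).im < 0) →
        (∀ u, t r ≤ u → 0 < ((g : ℂ ≃ₜ ℂ) (i + u * I)).im) →
        (∀ l ≤ r, if s l then 0 < ((g : ℂ ≃ₜ ℂ) (i + t l * I)).im
          else ((g : ℂ ≃ₜ ℂ) (i + t l * I)).im < 0) →
        (∀ l < r, ∀ u, t l ≤ u → u ≤ t (l + 1) → ((g : ℂ ≃ₜ ℂ) (i + u * I)).im = 0 →
          |((g : ℂ ≃ₜ ℂ) (i + u * I)).re - j l| < 1 / 2) →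
        Ψ g (gL i) = ((List.range r).map fun l => crossC (j l) (s l) (s (l + 1))).prod) ∧
      (∀ g : HX n, (∀ u : ℝ, ((g : ℂ ≃ₜ ℂ) (u * I)).im = 0 → ((g : ℂ ≃ₜ ℂ) (u * I)).re < 1 / 2) →
        Ψ g (gL 0) ∈ Subgroup.closure {g : G | ∃ j : ℤ, j ≤ 0 ∧ g = gL j}) := by
  refine ⟨MWT.Ps.comp (toHH n), fun g i => MWT.t0 (toHH n g) i, fun g i => ?_, ?_, ?_⟩
  · exact MWT.t2 (toHH n g) i (g.2.1.2.2.2.1 _)
  · intro g i r t s j h1 h2 h3 h4 h5
    exact MWT.t3 (toHH n g) i r t s j h1 h2 h3 h4 h5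
  · intro g h
    exact MWT.t4 (toHH n g) h

end

end MWC
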