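import Mathlib

/-!
# Block TOP, file 1: the plane minus the half-integers, and crossing words of paths

`Xo` = the plane minus the obstacles `k + 1/2`.  `VV j` = the points which are not on the real
axis outside the gate `j` (the interval `(j - 1/2, j + 1/2)`); it is open and star-shaped about
`j`.  The covering space is the fibre bundle with fibre the free group `G` on the gates, where
passing the gate `j` upwards multiplies by `gl j` on the right.  `Cl q` is the crossing word of
the homotopy class of paths `q`.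
-/

namespace MWT

noncomputable section

open scoped Classical unitInterval Topology
open Set

/-- the free group on the gates -/
abbrev G : Type := FreeGroup ℤ

/-- the gate `j` crossed upwards -/
def gl (j : ℤ) : G := FreeGroup.of j

/-- the obstacles -/
def Obs : Set ℂ := {z | z.im = 0 ∧ ∃ k : ℤ, z.re = k + 1 / 2}

/-- the plane minus the obstacles -/
abbrev Xo : Type := {z : ℂ // z ∉ Obs}

/-- the chart domain number `j` -/
def VV (j : ℤ) : Set Xo := {z | z.1.im = 0 → |z.1.re - j| < 1 / 2}

/-- sign function with values in `G` -/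
def st (j : ℤ) (x : Xo) : G := if 0 < x.1.im then gl j else 1

theorem isOpen_VV (j : ℤ) : IsOpen (VV j) := by
  have h : VV j = ({z : Xo | z.1.im = 0} ∩ {z : Xo | 1 / 2 ≤ |z.1.re - j|})ᶜ := by
    ext z
    constructor
    · intro hz hz2
      exact absurd (hz hz2.1) (not_lt.mpr hz2.2)
    · intro hz him
      by_contra hcon
      exact hz ⟨him, not_lt.mp hcon⟩
  rw [h, isOpen_compl_iff]
  have h1 : Continuous (fun z : Xo => z.1.im) :=
    Complex.continuous_im.comp continuous_subtype_val
  have h2 : Continuous (fun z : Xo => |z.1.re - j|) :=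
    ((Complex.continuous_re.comp continuous_subtype_val).sub continuous_const).abs
  exact (isClosed_eq h1 continuous_const).inter (isClosed_le continuous_const h2)

theorem mem_VV_round (z : Xo) : z ∈ VV (round z.1.re) := by
  intro him
  have h1 := abs_sub_round z.1.re
  rcases lt_or_eq_of_le h1 with h | h
  · exact h
  · exfalso
    apply z.2
    refine ⟨him, ?_⟩
    rcases abs_eq (by norm_num : (0:ℝ) ≤ 1 / 2) |>.1 h with h | h
    · exact ⟨round z.1.re, by linarith⟩
    · exact ⟨round z.1.re - 1, by push_cast; linarith⟩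

theorem VV_im_ne_zero {j k : ℤ} (hjk : j ≠ k) {x : Xo} (hj : x ∈ VV j) (hk : x ∈ VV k) :
    x.1.im ≠ 0 := by
  intro h
  have h1 := hj h
  have h2 := hk h
  have h3 : |(j : ℝ) - k| < 1 := by
    rw [abs_lt] at *
    constructor <;> linarith [h1.1, h1.2, h2.1, h2.2]
  have h4 : |j - k| < 1 := by exact_mod_cast h3
  rw [Int.abs_lt_one_iff] at h4
  omega

/-- sign is locally constant off the axis -/
theorem eventually_sign {x : Xo} (hx : x.1.im ≠ 0) :
    ∀ᶠ y : Xo in 𝓝 x, (0 < y.1.im ↔ 0 < x.1.im) := by
  have hc : Continuous (fun y : Xo => y.1.im) :=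
    Complex.continuous_im.comp continuous_subtype_val
  rcases lt_or_gt_of_ne hx with h | h
  · filter_upwards [hc.continuousAt.eventually_lt continuousAt_const h] with y hy
    constructor
    · intro h1; linarith
    · intro h1; linarith
  · filter_upwards [continuousAt_const.eventually_lt hc.continuousAt h] with y hy
    exact ⟨fun _ => h, fun _ => hy⟩

instance topG : TopologicalSpace G := ⊥

instance discG : DiscreteTopology G := ⟨rfl⟩

/-- coordinate change from the chart `j` to the chart `k` -/
def cc (j k : ℤ) (x : Xo) (f : G) : G := f * st j x * (st k x)⁻¹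

theorem cc_self (j : ℤ) (x : Xo) (f : G) : cc j j x f = f := by
  simp [cc]

theorem cc_cont (j k : ℤ) :
    ContinuousOn (fun p : Xo × G => cc j k p.1 p.2) ((VV j ∩ VV k) ×ˢ univ) := by
  by_cases hjk : j = k
  · subst hjk
    simp only [cc_self]
    exact continuous_snd.continuousOn
  · intro p hp
    have him : p.1.1.im ≠ 0 := VV_im_ne_zero hjk hp.1.1 hp.1.2
    apply ContinuousAt.continuousWithinAt
    have h1 : (fun q : Xo × G => cc j k q.1 q.2) =ᶠ[𝓝 p]
        (fun q : Xo × G => q.2 * st j p.1 * (st k p.1)⁻¹) := by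
      have h2 : ContinuousAt (Prod.fst : Xo × G → Xo) p := continuous_fst.continuousAt
      filter_upwards [h2.eventually (eventually_sign him)] with q hq
      simp only [cc, st, hq]
    refine ContinuousAt.congr ?_ h1.symm
    have h3 : Continuous (fun f : G => f * st j p.1 * (st k p.1)⁻¹) :=
      continuous_of_discreteTopology
    exact (h3.comp continuous_snd).continuousAt

/-- the fibre bundle -/
def core : FiberBundleCore ℤ Xo G where
  baseSet := VV
  isOpen_baseSet := isOpen_VV
  indexAt z := round z.1.re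
  mem_baseSet_at := mem_VV_round
  coordChange := cc
  coordChange_self j x _ v := cc_self j x v
  continuousOn_coordChange := cc_cont
  coordChange_comp i j k x _ v := by simp [cc, mul_assoc]

/-- the total space -/
abbrev E : Type := core.TotalSpace

/-- the covering map -/
def pr : E → Xo := Bundle.TotalSpace.proj

theorem pr_cov : IsCoveringMap pr := FiberBundle.isCoveringMap (F := G) (E := core.Fiber)

/-- the normalised coordinate -/
def nrm (e : E) : G := (show G from e.2) * st (round e.1.1.re) e.1

/-- the point over `x` with normalised coordinate `h` -/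
def pt (x : Xo) (h : G) : E := ⟨x, (show G from h * (st (round x.1.re) x)⁻¹)⟩

theorem pr_pt (x : Xo) (h : G) : pr (pt x h) = x := rfl

theorem nrm_pt (x : Xo) (h : G) : nrm (pt x h) = h := by
  simp [nrm, pt]

theorem pt_nrm (e : E) : pt (pr e) (nrm e) = e := by
  rcases e with ⟨x, f⟩
  have h : (show G from f) * st (round x.1.re) x * (st (round x.1.re) x)⁻¹ = f :=
    mul_inv_cancel_right _ _
  exact congrArg (fun f' : G => (⟨x, f'⟩ : E)) h

/-- `c` is a developing function of `γ` -/
def IsDev (γ : I → Xo) (c : I → G) : Prop :=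
  ∀ t j, γ t ∈ VV j → ∀ᶠ s in 𝓝 t, c s * (st j (γ s))⁻¹ = c t * (st j (γ t))⁻¹

theorem localTriv_snd (j : ℤ) (e : E) : ((core.localTriv j) e).2 = nrm e * (st j e.1)⁻¹ := rfl

theorem dev_of_lift (Γ : C(I, E)) : IsDev (fun t => pr (Γ t)) (fun t => nrm (Γ t)) := by
  intro t j ht
  have h1 : Γ t ∈ (core.localTriv j).source := by
    rw [core.mem_localTriv_source]
    exact ht
  have h2 : ContinuousAt (core.localTriv j) (Γ t) :=
    (core.localTriv j).continuousOn.continuousAt ((core.localTriv j).open_source.mem_nhds h1)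
  have h3 : ContinuousAt (fun s => ((core.localTriv j) (Γ s)).2) t :=
    continuousAt_snd.comp (h2.comp Γ.continuous.continuousAt)
  have h4 : ∀ᶠ s in 𝓝 t, ((core.localTriv j) (Γ s)).2 = ((core.localTriv j) (Γ t)).2 := by
    have h5 : {((core.localTriv j) (Γ t)).2} ∈ 𝓝 ((core.localTriv j) (Γ t)).2 :=
      (isOpen_discrete _).mem_nhds rfl
    exact h3 h5
  exact h4

theorem dev_eq {γ : I → Xo} {c c' : I → G} (h : IsDev γ c)
    (h' : IsDev γ c') (h0 : c 0 = c' 0) (t : I) : c t = c' t := by
  have hopen : IsOpen {s : I | c s = c' s} := by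
    rw [isOpen_iff_mem_nhds]
    intro s hs
    filter_upwards [h s _ (mem_VV_round (γ s)), h' s _ (mem_VV_round (γ s))] with u hu hu'
    have hs' : c s = c' s := hs
    rw [hs', ← hu'] at hu
    exact mul_right_cancel hu
  have hclosed : IsClosed {s : I | c s = c' s} := by
    rw [← isOpen_compl_iff, isOpen_iff_mem_nhds]
    intro s hs
    filter_upwards [h s _ (mem_VV_round (γ s)), h' s _ (mem_VV_round (γ s))] with u hu hu'
    intro hcon
    apply hs
    have hc : c u = c' u := hcon
    rw [hc, hu'] at hu
    exact (mul_right_cancel hu).symm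
  have huniv : {s : I | c s = c' s} = univ :=
    IsClopen.eq_univ ⟨hclosed, hopen⟩ ⟨0, h0⟩
  have : t ∈ {s : I | c s = c' s} := by rw [huniv]; trivial
  exact this

theorem IsDev.mul_left {γ : I → Xo} {c : I → G} (h : IsDev γ c) (g : G) :
    IsDev γ (fun t => g * c t) := by
  intro t j ht
  filter_upwards [h t j ht] with s hs
  rw [mul_assoc, hs, mul_assoc]

/-- the crossing word of a homotopy class of paths -/
def Cl {x y : Xo} (q : Path.Homotopic.Quotient x y) : G :=
  nrm (pr_cov.monodromy q ⟨pt x 1, pr_pt x 1⟩).1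

/-- the crossing word is computed by any developing function -/
theorem Cl_eq_of_dev {x y : Xo} (γ : Path x y) {c : I → G} (h : IsDev γ c) (h0 : c 0 = 1) :
    Cl (Path.Homotopic.Quotient.mk γ) = c 1 := by
  let Γ := pr_cov.liftPath γ (pt x 1) γ.source
  have h1 : ∀ t, pr (Γ t) = γ t := fun t => congrFun (pr_cov.liftPath_lifts γ (pt x 1) γ.source) t
  have h2 : Γ 0 = pt x 1 := pr_cov.liftPath_zero γ (pt x 1) γ.source
  have h3 : IsDev γ (fun t => nrm (Γ t)) := by
    have := dev_of_lift Γ
    simpa only [h1] using this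
  have h4 := dev_eq h h3 (by rw [h0, h2, nrm_pt]) 1
  rw [h4]
  rfl

theorem monodromy_nrm {x y : Xo} (q : Path.Homotopic.Quotient x y) (g : G) :
    nrm (pr_cov.monodromy q ⟨pt x g, pr_pt x g⟩).1 = g * Cl q := by
  induction q using Path.Homotopic.Quotient.ind with
  | mk γ =>
    let Γ := pr_cov.liftPath γ (pt x 1) γ.source
    have h1 : ∀ t, pr (Γ t) = γ t :=
      fun t => congrFun (pr_cov.liftPath_lifts γ (pt x 1) γ.source) t
    have h2 : Γ 0 = pt x 1 := pr_cov.liftPath_zero γ (pt x 1) γ.source
    have h3 : IsDev γ (fun t => nrm (Γ t)) := by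
      have := dev_of_lift Γ
      simpa only [h1] using this
    let Γ' := pr_cov.liftPath γ (pt x g) γ.source
    have h1' : ∀ t, pr (Γ' t) = γ t :=
      fun t => congrFun (pr_cov.liftPath_lifts γ (pt x g) γ.source) t
    have h2' : Γ' 0 = pt x g := pr_cov.liftPath_zero γ (pt x g) γ.source
    have h3' : IsDev γ (fun t => nrm (Γ' t)) := by
      have := dev_of_lift Γ'
      simpa only [h1'] using this
    have h4 := dev_eq h3' (h3.mul_left g)
      (by rw [h2, h2', nrm_pt, nrm_pt, mul_one]) 1
    exact h4

theorem Cl_refl (x : Xo) : Cl (Path.Homotopic.Quotient.refl x) = 1 := by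
  unfold Cl
  rw [pr_cov.monodromy_refl]
  exact nrm_pt x 1

theorem Cl_trans {x y z : Xo} (q : Path.Homotopic.Quotient x y)
    (r : Path.Homotopic.Quotient y z) : Cl (q.trans r) = Cl q * Cl r := by
  have h1 : pr_cov.monodromy q ⟨pt x 1, pr_pt x 1⟩ = ⟨pt y (Cl q), pr_pt y _⟩ := by
    apply Subtype.ext
    have h2 := (pr_cov.monodromy q ⟨pt x 1, pr_pt x 1⟩).2
    have h3 : pr (pr_cov.monodromy q ⟨pt x 1, pr_pt x 1⟩).1 = y := h2
    have h4 := pt_nrm (pr_cov.monodromy q ⟨pt x 1, pr_pt x 1⟩).1
    rw [h3] at h4
    exact h4.symm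
  have h5 : Cl (q.trans r) = nrm (pr_cov.monodromy (q.trans r) ⟨pt x 1, pr_pt x 1⟩).1 := rfl
  rw [h5, pr_cov.monodromy_trans_apply, h1, monodromy_nrm]

theorem Cl_symm {x y : Xo} (q : Path.Homotopic.Quotient x y) : Cl q.symm = (Cl q)⁻¹ := by
  induction q using Path.Homotopic.Quotient.ind with
  | mk γ =>
    have h1 : (Path.Homotopic.Quotient.mk γ).trans (Path.Homotopic.Quotient.mk γ).symm =
        Path.Homotopic.Quotient.refl x := by
      have h2 : (Path.refl x).Homotopic (γ.trans γ.symm) := ⟨Path.Homotopy.reflTransSymm γ⟩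
      exact (Quotient.sound h2).symm
    have h3 := Cl_trans (Path.Homotopic.Quotient.mk γ) (Path.Homotopic.Quotient.mk γ).symm
    rw [h1, Cl_refl] at h3
    exact eq_inv_of_mul_eq_one_right h3.symm

/-- crossing word of a path inside one chart -/
theorem Cl_chart {x y : Xo} (γ : Path x y) (j : ℤ) (h : ∀ t, γ t ∈ VV j) :
    Cl (Path.Homotopic.Quotient.mk γ) = (st j x)⁻¹ * st j y := by
  have h1 : IsDev γ (fun t => (st j x)⁻¹ * st j (γ t)) := by
    intro t k ht
    by_cases hjk : j = k
    · subst hjk
      filter_upwards with s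
      simp
    · have him : (γ t).1.im ≠ 0 := VV_im_ne_zero hjk (h t) ht
      have h2 : ContinuousAt γ t := γ.continuous.continuousAt
      filter_upwards [h2.eventually (eventually_sign him)] with s hs
      simp only [st, hs]
  rw [Cl_eq_of_dev γ h1 (by simp)]
  simp

/-- the crossing word is a homotopy invariant, for paths -/
def clp {x y : Xo} (γ : Path x y) : G := Cl (Path.Homotopic.Quotient.mk γ)

theorem clp_homotopic {x y : Xo} {γ γ' : Path x y} (h : γ.Homotopic γ') : clp γ = clp γ' :=
  congrArg Cl (Quotient.sound h)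

theorem clp_trans {x y z : Xo} (γ : Path x y) (γ' : Path y z) :
    clp (γ.trans γ') = clp γ * clp γ' :=
  Cl_trans (Path.Homotopic.Quotient.mk γ) (Path.Homotopic.Quotient.mk γ')

theorem clp_symm {x y : Xo} (γ : Path x y) : clp γ.symm = (clp γ)⁻¹ :=
  Cl_symm (Path.Homotopic.Quotient.mk γ)

theorem clp_refl (x : Xo) : clp (Path.refl x) = 1 := Cl_refl x

theorem clp_chart {x y : Xo} (γ : Path x y) (j : ℤ) (h : ∀ t, γ t ∈ VV j) :
    clp γ = (st j x)⁻¹ * st j y := Cl_chart γ j h

/-- the crossing word only depends on the values of the path -/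
theorem clp_cast {x y x' y' : Xo} (γ : Path x y) (hx : x' = x) (hy : y' = y) :
    clp (γ.cast hx hy) = clp γ := by
  subst hx
  subst hy
  rfl

end

end MWT
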