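import Pool.Agent.Lib.MP_cbfcf7.T1

/-!
# Block TOP, file 2: path induction, paths in a chart, straight paths
-/

namespace MWT

noncomputable section

open scoped Classical unitInterval Topology
open Set

/-- path induction over an open cover -/
theorem path_ind_gen {X : Type*} [TopologicalSpace X] {ι : Type*} (U : ι → Set X)
    (hU : ∀ i, IsOpen (U i)) (P : ∀ x y : X, Path x y → Prop)
    (hhom : ∀ x y (γ γ' : Path x y), γ.Homotopic γ' → P x y γ → P x y γ')
    (htrans : ∀ x y z (γ : Path x y) (γ' : Path y z), P x y γ → P y z γ' →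
      P x z (γ.trans γ'))
    (hloc : ∀ i x y (γ : Path x y), (∀ t, γ t ∈ U i) → P x y γ)
    {x y : X} (γ : Path x y) (hγ : ∀ t, ∃ i, γ t ∈ U i) : P x y γ := by
  obtain ⟨t, ht0, hmono, ⟨n, hn⟩, hsub⟩ :=
    exists_monotone_Icc_subset_open_cover_unitInterval (c := fun i => γ ⁻¹' (U i))
      (fun i => (hU i).preimage γ.continuous)
      (fun s _ => by
        obtain ⟨i, hi⟩ := hγ s
        exact mem_iUnion.2 ⟨i, hi⟩)
  have key : ∀ m, P (γ 0) (γ (t m)) (γ.subpath 0 (t m)) := by
    intro m
    induction m with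
    | zero =>
      obtain ⟨i, hi⟩ := hγ 0
      apply hloc i
      intro s
      have h1 : (γ.subpath 0 (t 0)) s ∈ range (γ.subpath 0 (t 0)) := mem_range_self s
      rw [Path.range_subpath] at h1
      obtain ⟨u, hu, hus⟩ := h1
      have hu' : u ∈ uIcc (0 : I) 0 := by
        have h2 := hu
        rw [ht0] at h2
        exact h2
      rw [uIcc_self] at hu'
      rw [mem_singleton_iff.1 hu'] at hus
      rw [← hus]
      exact hi
    | succ m ih =>
      obtain ⟨i, hi⟩ := hsub m
      have h1 : P (γ (t m)) (γ (t (m + 1))) (γ.subpath (t m) (t (m + 1))) := by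
        apply hloc i
        intro s
        have h1 : (γ.subpath (t m) (t (m + 1))) s ∈ range (γ.subpath (t m) (t (m + 1))) :=
          mem_range_self s
        rw [Path.range_subpath_of_le _ _ _ (hmono (Nat.le_succ m))] at h1
        obtain ⟨u, hu, hus⟩ := h1
        rw [← hus]
        exact hi hu
      exact hhom _ _ _ _ ⟨Path.Homotopy.subpathTransSubpath γ 0 (t m) (t (m + 1))⟩
        (htrans _ _ _ _ _ ih h1)
  have h2 := key n
  rw [hn n le_rfl] at h2
  rw [Path.subpath_zero_one] at h2
  have h3 : ∀ {x' y' : X} (hx : x' = x) (hy : y' = y), P x' y' (γ.cast hx hy) → P x y γ := by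
    intro x' y' hx hy h
    subst hx
    subst hy
    exact h
  exact h3 _ _ h2

/-- path induction in `Xo`, for paths avoiding the gates outside `J` -/
theorem path_ind (J : Set ℤ) (P : ∀ x y : Xo, Path x y → Prop)
    (hhom : ∀ x y (γ γ' : Path x y), γ.Homotopic γ' → P x y γ → P x y γ')
    (htrans : ∀ x y z (γ : Path x y) (γ' : Path y z), P x y γ → P y z γ' →
      P x z (γ.trans γ'))
    (hloc : ∀ j ∈ J, ∀ x y (γ : Path x y), (∀ t, γ t ∈ VV j) → P x y γ)
    {x y : Xo} (γ : Path x y) (hγ : ∀ t, ∃ j ∈ J, γ t ∈ VV j) : P x y γ := by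
  apply path_ind_gen (fun j : J => VV j.1) (fun j => isOpen_VV j.1) P hhom htrans
  · intro j x y γ h
    exact hloc j.1 j.2 x y γ h
  · intro t
    obtain ⟨j, hj, h⟩ := hγ t
    exact ⟨⟨j, hj⟩, h⟩

/-- the chart as a subset of the plane -/
def SV (j : ℤ) : Set ℂ := {z | z.im = 0 → |z.re - j| < 1 / 2}

theorem SV_notMem {j : ℤ} {z : ℂ} (h : z ∈ SV j) : z ∉ Obs := by
  rintro ⟨him, k, hk⟩
  have h1 := h him
  rw [hk, abs_lt] at h1
  have h2 : (k : ℝ) < j := by linarith
  have h3 : (j : ℝ) < k + 1 := by linarith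
  have h4 : k < j := by exact_mod_cast h2
  have h5 : j < k + 1 := by exact_mod_cast h3
  omega

theorem SV_star (j : ℤ) : StarConvex ℝ (j : ℂ) (SV j) := by
  intro z hz a b ha hb hab him
  have h1 : (a • (j : ℂ) + b • z).im = b * z.im := by simp
  have h2 : (a • (j : ℂ) + b • z).re = a * j + b * z.re := by simp
  rw [h1] at him
  rw [h2]
  have h3 : a * j + b * z.re - j = b * (z.re - j) := by
    have : a = 1 - b := by linarith
    rw [this]; ring
  rw [h3, abs_mul, abs_of_nonneg hb]
  rcases mul_eq_zero.1 him with h | h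
  · rw [h]; norm_num
  · have h4 := hz h
    have h5 : b ≤ 1 := by linarith
    nlinarith [abs_nonneg (z.re - j)]

/-- two paths with the same ends in the same chart are homotopic -/
theorem hom_VV (j : ℤ) {x y : Xo} (γ γ' : Path x y) (h : ∀ t, γ t ∈ VV j)
    (h' : ∀ t, γ' t ∈ VV j) : γ.Homotopic γ' := by
  have hx : x.1 ∈ SV j := by
    have h0 := h 0
    rw [γ.source] at h0
    exact h0
  have hy : y.1 ∈ SV j := by
    have h0 := h 1
    rw [γ.target] at h0
    exact h0
  have hne : (SV j).Nonempty := ⟨x.1, hx⟩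
  haveI : ContractibleSpace (SV j) := (SV_star j).contractibleSpace hne
  haveI : SimplyConnectedSpace (SV j) := SimplyConnectedSpace.ofContractible _
  let ι : C(SV j, Xo) := ⟨fun z => ⟨z.1, SV_notMem z.2⟩, by fun_prop⟩
  let p : Path (⟨x.1, hx⟩ : SV j) ⟨y.1, hy⟩ :=
    { toFun := fun t => ⟨(γ t).1, h t⟩
      continuous_toFun := by fun_prop
      source' := by simp
      target' := by simp }
  let p' : Path (⟨x.1, hx⟩ : SV j) ⟨y.1, hy⟩ :=
    { toFun := fun t => ⟨(γ' t).1, h' t⟩
      continuous_toFun := by fun_prop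
      source' := by simp
      target' := by simp }
  have h1 : p.Homotopic p' := SimplyConnectedSpace.paths_homotopic p p'
  have h2 := h1.map ι
  exact h2

/-- a path in the lower half plane has trivial crossing word -/
theorem clp_low {x y : Xo} (γ : Path x y) (h : ∀ t, (γ t).1.im < 0) : clp γ = 1 := by
  have hx : x.1.im < 0 := by simpa using h 0
  have hy : y.1.im < 0 := by simpa using h 1
  rw [clp_chart γ 0 (fun t ht => absurd ht (h t).ne)]
  simp [st, not_lt.2 hx.le, not_lt.2 hy.le]

/-- a path in the upper half plane has trivial crossing word -/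
theorem clp_up {x y : Xo} (γ : Path x y) (h : ∀ t, 0 < (γ t).1.im) : clp γ = 1 := by
  have hx : 0 < x.1.im := by simpa using h 0
  have hy : 0 < y.1.im := by simpa using h 1
  rw [clp_chart γ 0 (fun t ht => absurd ht (h t).ne')]
  simp [st, hx, hy]

/-- the straight path -/
def sgp (x y : Xo) (h : ∀ t : I, (1 - (t : ℝ)) • x.1 + (t : ℝ) • y.1 ∉ Obs) : Path x y where
  toFun t := ⟨(1 - (t : ℝ)) • x.1 + (t : ℝ) • y.1, h t⟩
  continuous_toFun := by fun_prop
  source' := by simp
  target' := by simp

end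

end MWT
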