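import Pool.Agent.Lib.MP_cbfcf7.T2

/-!
# Block TOP, file 3: homeomorphisms preserving the obstacles act on the crossing words
-/

namespace MWT

noncomputable section

open scoped Classical unitInterval Topology
open Set

/-- `g` maps high points to high points and low points to low points -/
def Ends (g : ℂ → ℂ) : Prop :=
  (∀ M : ℝ, ∃ M' : ℝ, ∀ z : ℂ, M' ≤ z.im → M ≤ (g z).im) ∧
  (∀ M : ℝ, ∃ M' : ℝ, ∀ z : ℂ, z.im ≤ M' → (g z).im ≤ M)

theorem Ends.id : Ends (fun z => z) :=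
  ⟨fun M => ⟨M, fun _ h => h⟩, fun M => ⟨M, fun _ h => h⟩⟩

theorem Ends.comp {g h : ℂ → ℂ} (hg : Ends g) (hh : Ends h) : Ends (fun z => g (h z)) := by
  constructor
  · intro M
    obtain ⟨M1, h1⟩ := hg.1 M
    obtain ⟨M2, h2⟩ := hh.1 M1
    exact ⟨M2, fun z hz => h1 _ (h2 z hz)⟩
  · intro M
    obtain ⟨M1, h1⟩ := hg.2 M
    obtain ⟨M2, h2⟩ := hh.2 M1
    exact ⟨M2, fun z hz => h1 _ (h2 z hz)⟩

/-- the homeomorphisms of the plane which preserve the obstacles and the two ends -/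
def HH : Subgroup (ℂ ≃ₜ ℂ) where
  carrier := {g | Ends g ∧ Ends g.symm ∧ ∀ z, g z ∈ Obs ↔ z ∈ Obs}
  mul_mem' := by
    rintro g h ⟨g1, g2, g3⟩ ⟨h1, h2, h3⟩
    exact ⟨g1.comp h1, h2.comp g2, fun z => (g3 (h z)).trans (h3 z)⟩
  one_mem' := ⟨Ends.id, Ends.id, fun _ => Iff.rfl⟩
  inv_mem' := by
    rintro g ⟨g1, g2, g3⟩
    refine ⟨g2, g1, fun z => ?_⟩
    have h := g3 (g.symm z)
    rw [g.apply_symm_apply] at h
    exact h.symm

/-- the induced map of the complement of the obstacles -/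
def gX (g : HH) : C(Xo, Xo) where
  toFun z := ⟨(g : ℂ ≃ₜ ℂ) z.1, fun h => z.2 ((g.2.2.2 z.1).1 h)⟩
  continuous_toFun := by
    have h := (g : ℂ ≃ₜ ℂ).continuous
    fun_prop

theorem gX_val (g : HH) (z : Xo) : (gX g z).1 = (g : ℂ ≃ₜ ℂ) z.1 := rfl

/-- the image of a path -/
def mp (g : HH) {x y : Xo} (γ : Path x y) : Path (gX g x) (gX g y) :=
  γ.map (gX g).continuous

theorem mp_apply (g : HH) {x y : Xo} (γ : Path x y) (t : I) : mp g γ t = gX g (γ t) := rfl

theorem mp_homotopic (g : HH) {x y : Xo} {γ γ' : Path x y} (h : γ.Homotopic γ') :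
    (mp g γ).Homotopic (mp g γ') := h.map (gX g)

theorem mp_trans (g : HH) {x y z : Xo} (γ : Path x y) (γ' : Path y z) :
    mp g (γ.trans γ') = (mp g γ).trans (mp g γ') := Path.map_trans γ γ' (gX g).continuous

theorem mp_symm (g : HH) {x y : Xo} (γ : Path x y) :
    mp g γ.symm = (mp g γ).symm := Path.map_symm γ (gX g).continuous

/-- beyond height `M`, points are mapped to the correct half plane -/
def Deep (g : HH) (M : ℝ) : Prop :=
  0 < M ∧ (∀ z : ℂ, z.im ≤ -M → ((g : ℂ ≃ₜ ℂ) z).im < 0) ∧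
    (∀ z : ℂ, M ≤ z.im → 0 < ((g : ℂ ≃ₜ ℂ) z).im)

theorem Deep.mono {g : HH} {M M' : ℝ} (h : Deep g M) (hM : M ≤ M') : Deep g M' :=
  ⟨h.1.trans_le hM, fun z hz => h.2.1 z (by linarith), fun z hz => h.2.2 z (by linarith)⟩

theorem exists_deep (g : HH) : ∃ M, Deep g M := by
  obtain ⟨M1, h1⟩ := g.2.1.1 1
  obtain ⟨M2, h2⟩ := g.2.1.2 (-1)
  refine ⟨max 1 (max M1 (-M2)), lt_max_of_lt_left one_pos, ?_, ?_⟩
  · intro z hz
    have h3 : -M2 ≤ max 1 (max M1 (-M2)) := (le_max_right _ _).trans (le_max_right _ _)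
    have h4 := h2 z (by linarith)
    have h5 : ((g : ℂ ≃ₜ ℂ) z).im ≤ -1 := h4
    linarith
  · intro z hz
    have h3 : M1 ≤ max 1 (max M1 (-M2)) := (le_max_left _ _).trans (le_max_right _ _)
    have h4 := h1 z (by linarith)
    have h5 : 1 ≤ ((g : ℂ ≃ₜ ℂ) z).im := h4
    linarith

/-- the point of height `u` on the vertical line through the gate `i` -/
def qq (i : ℤ) (u : ℝ) : Xo :=
  ⟨(i : ℂ) + u * Complex.I, by
    rintro ⟨-, k, hk⟩
    have h1 : (i : ℝ) = k + 1 / 2 := by simpa using hk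
    have h2 : (2 * i : ℝ) = 2 * k + 1 := by linarith
    have h3 : 2 * i = 2 * k + 1 := by exact_mod_cast h2
    omega⟩

theorem qq_re (i : ℤ) (u : ℝ) : (qq i u).1.re = i := by simp [qq]

theorem qq_im (i : ℤ) (u : ℝ) : (qq i u).1.im = u := by simp [qq]

/-- the vertical path through the gate `i` from height `u` to height `v` -/
def ln (i : ℤ) (u v : ℝ) : Path (qq i u) (qq i v) where
  toFun t := qq i ((1 - (t : ℝ)) * u + t * v)
  continuous_toFun := by
    unfold qq
    fun_prop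
  source' := by simp
  target' := by simp

theorem ln_apply (i : ℤ) (u v : ℝ) (t : I) : ln i u v t = qq i ((1 - (t : ℝ)) * u + t * v) := rfl

theorem ln_mem (i : ℤ) (u v : ℝ) (t : I) : ln i u v t ∈ VV i := by
  intro _
  rw [ln_apply, qq_re]
  norm_num

/-- crossing word of the image of the vertical path -/
def vcl (g : HH) (i : ℤ) (u v : ℝ) : G := clp (mp g (ln i u v))

theorem vcl_trans (g : HH) (i : ℤ) (u v w : ℝ) : vcl g i u v * vcl g i v w = vcl g i u w := by
  unfold vcl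
  rw [← clp_trans, ← mp_trans]
  apply clp_homotopic
  apply mp_homotopic
  apply hom_VV i
  · intro t
    rw [Path.trans_apply]
    split_ifs
    · exact ln_mem _ _ _ _
    · exact ln_mem _ _ _ _
  · exact ln_mem i u w

theorem min_le_comb (u v : ℝ) (t : I) : min u v ≤ (1 - (t : ℝ)) * u + t * v := by
  have h1 := min_le_left u v
  have h2 := min_le_right u v
  have h3 := mul_le_mul_of_nonneg_left h1 (sub_nonneg.2 t.2.2)
  have h4 := mul_le_mul_of_nonneg_left h2 t.2.1
  linarith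

theorem comb_le_max (u v : ℝ) (t : I) : (1 - (t : ℝ)) * u + t * v ≤ max u v := by
  have h1 := le_max_left u v
  have h2 := le_max_right u v
  have h3 := mul_le_mul_of_nonneg_left h1 (sub_nonneg.2 t.2.2)
  have h4 := mul_le_mul_of_nonneg_left h2 t.2.1
  linarith

theorem vcl_low (g : HH) (i : ℤ) (u v : ℝ)
    (h : ∀ w, min u v ≤ w → w ≤ max u v → ((g : ℂ ≃ₜ ℂ) (i + w * Complex.I)).im < 0) :
    vcl g i u v = 1 := by
  unfold vcl
  apply clp_low
  intro t
  exact h _ (min_le_comb u v t) (comb_le_max u v t)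

theorem vcl_up (g : HH) (i : ℤ) (u v : ℝ)
    (h : ∀ w, min u v ≤ w → w ≤ max u v → 0 < ((g : ℂ ≃ₜ ℂ) (i + w * Complex.I)).im) :
    vcl g i u v = 1 := by
  unfold vcl
  apply clp_up
  intro t
  exact h _ (min_le_comb u v t) (comb_le_max u v t)

theorem vcl_deep (g : HH) (i : ℤ) {M M' : ℝ} (h : Deep g M) (h' : Deep g M') :
    vcl g i (-M) M = vcl g i (-M') M' := by
  wlog hle : M ≤ M' generalizing M M'
  · exact (this h' h (le_of_not_ge hle)).symm
  rw [← vcl_trans g i (-M') (-M) M', ← vcl_trans g i (-M) M M']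
  rw [vcl_low g i (-M') (-M), vcl_up g i M M', one_mul, mul_one]
  · intro w hw _
    rw [min_eq_left hle] at hw
    exact h.2.2 _ (by simpa using hw)
  · intro w _ hw
    rw [max_eq_right (neg_le_neg hle)] at hw
    exact h.2.1 _ (by simpa using hw)

/-- the endomorphism of `G` induced by `g` -/
def PsE (g : HH) : G →* G :=
  FreeGroup.lift fun j => vcl g j (-(exists_deep g).choose) (exists_deep g).choose

theorem PsE_gl (g : HH) (j : ℤ) {M : ℝ} (h : Deep g M) : PsE g (gl j) = vcl g j (-M) M := by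
  unfold PsE gl
  rw [FreeGroup.lift_apply_of]
  exact vcl_deep g j (exists_deep g).choose_spec h

/-- the base point above or below `x` -/
def bs (M : ℝ) (hM : 0 < M) (x : Xo) : Xo :=
  ⟨(x.1.re : ℂ) + ((if x.1.im ≤ 0 then -M else M : ℝ) : ℂ) * Complex.I, by
    rintro ⟨h, -⟩
    have h1 : (if x.1.im ≤ 0 then -M else M : ℝ) = 0 := by simpa using h
    split_ifs at h1 <;> linarith⟩

theorem vt_im (M : ℝ) (x : Xo) (t : ℝ) :
    ((x.1.re : ℂ) + (((1 - t) * (if x.1.im ≤ 0 then -M else M) +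
      t * x.1.im : ℝ) : ℂ) * Complex.I).im = (1 - t) * (if x.1.im ≤ 0 then -M else M) +
      t * x.1.im := by
  rw [Complex.add_im, Complex.ofReal_im, Complex.im_ofReal_mul, Complex.I_im, mul_one, zero_add]

theorem vt_re (M : ℝ) (x : Xo) (t : ℝ) :
    ((x.1.re : ℂ) + (((1 - t) * (if x.1.im ≤ 0 then -M else M) +
      t * x.1.im : ℝ) : ℂ) * Complex.I).re = x.1.re := by
  rw [Complex.add_re, Complex.ofReal_re, Complex.re_ofReal_mul, Complex.I_re, mul_zero, add_zero]

/-- the vertical path meets the axis only at its end -/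
theorem vt_im_zero (M : ℝ) (hM : 0 < M) (x : Xo) (t : I)
    (h : (1 - (t : ℝ)) * (if x.1.im ≤ 0 then -M else M) + (t : ℝ) * x.1.im = 0) :
    x.1.im = 0 ∧ (t : ℝ) = 1 := by
  have h0 := t.2.1
  have h1 := t.2.2
  split_ifs at h with h2
  · have h3 : 0 ≤ (1 - (t : ℝ)) * M := mul_nonneg (by linarith) hM.le
    have h4 : (t : ℝ) * x.1.im ≤ 0 := mul_nonpos_of_nonneg_of_nonpos h0 h2
    have h5 : (1 - (t : ℝ)) * M = 0 := by linarith
    have h6 : (t : ℝ) = 1 := by
      rcases mul_eq_zero.1 h5 with h | h <;> linarith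
    refine ⟨?_, h6⟩
    rw [h6] at h
    linarith
  · have h3 : 0 ≤ (1 - (t : ℝ)) * M := mul_nonneg (by linarith) hM.le
    have h4 : 0 ≤ (t : ℝ) * x.1.im := mul_nonneg h0 (by linarith)
    have h5 : (1 - (t : ℝ)) * M = 0 := by linarith
    have h6 : (t : ℝ) = 1 := by
      rcases mul_eq_zero.1 h5 with h | h <;> linarith
    rw [h6] at h
    exact absurd (by linarith) h2

theorem vt_notMem (M : ℝ) (hM : 0 < M) (x : Xo) (t : I) :
    (x.1.re : ℂ) + (((1 - (t : ℝ)) * (if x.1.im ≤ 0 then -M else M) +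
      (t : ℝ) * x.1.im : ℝ) : ℂ) * Complex.I ∉ Obs := by
  rintro ⟨h, k, hk⟩
  rw [vt_im] at h
  rw [vt_re] at hk
  exact x.2 ⟨(vt_im_zero M hM x t h).1, k, hk⟩

/-- the vertical path from the base point to `x` -/
def vt (M : ℝ) (hM : 0 < M) (x : Xo) : Path (bs M hM x) x where
  toFun t := ⟨(x.1.re : ℂ) + (((1 - (t : ℝ)) * (if x.1.im ≤ 0 then -M else M) +
      (t : ℝ) * x.1.im : ℝ) : ℂ) * Complex.I, vt_notMem M hM x t⟩
  continuous_toFun := by
    fun_prop
  source' := by
    simp [bs]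
  target' := by
    apply Subtype.ext
    simp

/-- the path `vt` stays in every chart which contains `x` -/
theorem vt_mem (M : ℝ) (hM : 0 < M) (x : Xo) (j : ℤ) (hx : x ∈ VV j) (t : I) :
    vt M hM x t ∈ VV j := by
  intro h
  have h1 : (vt M hM x t).1.im = (1 - (t : ℝ)) * (if x.1.im ≤ 0 then -M else M) +
      (t : ℝ) * x.1.im := vt_im M x t
  have h2 : (vt M hM x t).1.re = x.1.re := vt_re M x t
  rw [h1] at h
  rw [h2]
  exact hx (vt_im_zero M hM x t h).1

/-- correction term -/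
def be (g : HH) (M : ℝ) (hM : 0 < M) (x : Xo) : G := clp (mp g (vt M hM x))

/-- no correction for points of height at least `M` -/
theorem be_deep (g : HH) {M : ℝ} (h : Deep g M) (x : Xo) (hx : M ≤ |x.1.im|) :
    be g M h.1 x = 1 := by
  have him : ∀ t : I, (vt M h.1 x t).1.im = (1 - (t : ℝ)) * (if x.1.im ≤ 0 then -M else M) +
      (t : ℝ) * x.1.im := fun t => vt_im M x t
  unfold be
  rcases le_or_gt x.1.im 0 with h0 | h0
  · rw [abs_of_nonpos h0] at hx
    apply clp_low
    intro t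
    rw [mp_apply, gX_val]
    apply h.2.1
    rw [him t, if_pos h0]
    nlinarith [mul_le_mul_of_nonneg_left hx t.2.1]
  · rw [abs_of_pos h0] at hx
    apply clp_up
    intro t
    rw [mp_apply, gX_val]
    apply h.2.2
    rw [him t, if_neg (not_le.2 h0)]
    nlinarith [mul_le_mul_of_nonneg_left hx t.2.1]

/-- horizontal path at height `c` -/
def tb_hz (j : ℤ) (c : ℝ) (hc : c ≠ 0) (x y : Xo)
    (hy : y.1 = (x.1.re : ℂ) + (c : ℂ) * Complex.I) : Path (qq j c) y where
  toFun t := ⟨(((1 - (t : ℝ)) * j + t * x.1.re : ℝ) : ℂ) + (c : ℂ) * Complex.I, by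
    rintro ⟨h, -⟩
    rw [Complex.add_im, Complex.ofReal_im, Complex.im_ofReal_mul, Complex.I_im, mul_one,
      zero_add] at h
    exact hc h⟩
  continuous_toFun := by
    fun_prop
  source' := by
    apply Subtype.ext
    simp [qq]
  target' := by
    apply Subtype.ext
    simp [hy]

theorem tb_hz_im (j : ℤ) (c : ℝ) (hc : c ≠ 0) (x y : Xo)
    (hy : y.1 = (x.1.re : ℂ) + (c : ℂ) * Complex.I) (t : I) :
    (tb_hz j c hc x y hy t).1.im = c := by
  have h : (tb_hz j c hc x y hy t).1 =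
      (((1 - (t : ℝ)) * j + t * x.1.re : ℝ) : ℂ) + (c : ℂ) * Complex.I := rfl
  rw [h, Complex.add_im, Complex.ofReal_im, Complex.im_ofReal_mul, Complex.I_im, mul_one,
    zero_add]

/-- a path in the chart `VV j` from the low point `j - iM` to `x`, with known image -/
theorem exists_path (g : HH) {M : ℝ} (h : Deep g M) (j : ℤ) (x : Xo) (hx : x ∈ VV j) :
    ∃ δ : Path (qq j (-M)) x, (∀ t, δ t ∈ VV j) ∧
      clp (mp g δ) = PsE g (st j x) * be g M h.1 x := by
  have hM := h.1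
  rcases le_or_gt x.1.im 0 with h0 | h0
  · have hb : (bs M h.1 x).1 = (x.1.re : ℂ) + ((-M : ℝ) : ℂ) * Complex.I := by
      simp [bs, h0]
    have hc : (-M : ℝ) ≠ 0 := by linarith
    refine ⟨(tb_hz j (-M) hc x (bs M h.1 x) hb).trans (vt M h.1 x), fun t => ?_, ?_⟩
    · rw [Path.trans_apply]
      split_ifs
      · intro him
        rw [tb_hz_im] at him
        exact absurd him hc
      · exact vt_mem M h.1 x j hx _
    · rw [mp_trans, clp_trans]
      have e1 : clp (mp g (tb_hz j (-M) hc x (bs M h.1 x) hb)) = 1 := by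
        apply clp_low
        intro t
        rw [mp_apply, gX_val]
        apply h.2.1
        rw [tb_hz_im]
      have e2 : st j x = 1 := by simp [st, not_lt.2 h0]
      rw [e1, e2, map_one]
      rfl
  · have hb : (bs M h.1 x).1 = (x.1.re : ℂ) + ((M : ℝ) : ℂ) * Complex.I := by
      simp [bs, not_le.2 h0]
    have hc : M ≠ 0 := by linarith
    refine ⟨(ln j (-M) M).trans ((tb_hz j M hc x (bs M h.1 x) hb).trans (vt M h.1 x)),
      fun t => ?_, ?_⟩
    · rw [Path.trans_apply]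
      split_ifs
      · exact ln_mem _ _ _ _
      · rw [Path.trans_apply]
        split_ifs
        · intro him
          rw [tb_hz_im] at him
          exact absurd him hc
        · exact vt_mem M h.1 x j hx _
    · rw [mp_trans, clp_trans, mp_trans, clp_trans]
      have e1 : clp (mp g (tb_hz j M hc x (bs M h.1 x) hb)) = 1 := by
        apply clp_up
        intro t
        rw [mp_apply, gX_val]
        apply h.2.2
        rw [tb_hz_im]
      have e2 : st j x = gl j := by simp [st, h0]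
      rw [e1, e2, PsE_gl g j h, one_mul]
      rfl

/-- KEY: crossing words of images of paths -/
theorem star (g : HH) {M : ℝ} (h : Deep g M) {x y : Xo} (γ : Path x y) :
    clp (mp g γ) = (be g M h.1 x)⁻¹ * PsE g (clp γ) * be g M h.1 y := by
  apply path_ind univ (fun x y γ => clp (mp g γ) = (be g M h.1 x)⁻¹ * PsE g (clp γ) *
    be g M h.1 y)
  · intro x y γ γ' hγ hP
    rw [← clp_homotopic (mp_homotopic g hγ), ← clp_homotopic hγ]
    exact hP
  · intro x y z γ γ' hP hQ
    rw [mp_trans, clp_trans, clp_trans, map_mul, hP, hQ]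
    group
  · intro j _ x y γ hγ
    have hx : x ∈ VV j := by simpa using hγ 0
    have hy : y ∈ VV j := by simpa using hγ 1
    obtain ⟨δx, hδx, hx2⟩ := exists_path g h j x hx
    obtain ⟨δy, hδy, hy2⟩ := exists_path g h j y hy
    have hom : γ.Homotopic (δx.symm.trans δy) := by
      apply hom_VV j
      · exact hγ
      · intro t
        rw [Path.trans_apply]
        split_ifs
        · exact hδx _
        · exact hδy _
    rw [clp_homotopic (mp_homotopic g hom), mp_trans, clp_trans, mp_symm, clp_symm, hx2, hy2,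
      clp_chart γ j hγ, map_mul, map_inv]
    group
  · intro t
    exact ⟨_, trivial, mem_VV_round _⟩

theorem PsE_one : PsE 1 = MonoidHom.id G := by
  apply FreeGroup.ext_hom
  intro j
  obtain ⟨M, hM⟩ := exists_deep 1
  have hval : ∀ z : Xo, gX 1 z = z := fun z => Subtype.ext rfl
  have h1 : PsE 1 (gl j) = vcl 1 j (-M) M := PsE_gl 1 j hM
  have h2 : vcl 1 j (-M) M = gl j := by
    have hM0 := hM.1
    unfold vcl
    rw [clp_chart (mp 1 (ln j (-M) M)) j (fun t => by
      rw [mp_apply, hval]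
      exact ln_mem j (-M) M t), hval, hval]
    have h3 : st j (qq j (-M)) = 1 := by
      unfold st
      rw [qq_im, if_neg (by linarith)]
    have h4 : st j (qq j M) = gl j := by
      unfold st
      rw [qq_im, if_pos hM0]
    rw [h3, h4, inv_one, one_mul]
  exact h1.trans h2

theorem PsE_mul (g h : HH) : PsE (g * h) = (PsE g).comp (PsE h) := by
  apply FreeGroup.ext_hom
  intro j
  obtain ⟨M1, hM1⟩ := exists_deep g
  obtain ⟨N0, hN0⟩ := exists_deep h
  obtain ⟨A, hA⟩ := h.2.1.1 M1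
  obtain ⟨B, hB⟩ := h.2.1.2 (-M1)
  obtain ⟨M2, hM2e⟩ : ∃ M2 : ℝ, M2 = max N0 (max A (-B)) := ⟨_, rfl⟩
  have hNM : N0 ≤ M2 := hM2e ▸ le_max_left _ _
  have hAM : A ≤ M2 := hM2e ▸ (le_max_left _ _).trans (le_max_right _ _)
  have hBM : -B ≤ M2 := hM2e ▸ (le_max_right _ _).trans (le_max_right _ _)
  have hM2 : Deep h M2 := hN0.mono hNM
  have hup : ∀ z : ℂ, M2 ≤ z.im → M1 ≤ ((h : ℂ ≃ₜ ℂ) z).im := fun z hz =>
    hA z (hAM.trans hz)
  have hlo : ∀ z : ℂ, z.im ≤ -M2 → ((h : ℂ ≃ₜ ℂ) z).im ≤ -M1 := fun z hz =>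
    hB z (by linarith)
  have hgh : Deep (g * h) M2 :=
    ⟨hM2.1, fun z hz => hM1.2.1 _ (hlo z hz), fun z hz => hM1.2.2 _ (hup z hz)⟩
  have e1 : PsE (g * h) (gl j) = vcl (g * h) j (-M2) M2 := PsE_gl (g * h) j hgh
  have e2 : PsE h (gl j) = vcl h j (-M2) M2 := PsE_gl h j hM2
  have e3 : vcl (g * h) j (-M2) M2 = clp (mp g (mp h (ln j (-M2) M2))) := rfl
  have b1 : be g M1 hM1.1 (gX h (qq j (-M2))) = 1 := by
    apply be_deep g hM1
    have h5 : ((h : ℂ ≃ₜ ℂ) (qq j (-M2)).1).im ≤ -M1 := hlo _ (by rw [qq_im])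
    rw [gX_val]
    exact le_trans (by linarith) (neg_le_abs _)
  have b2 : be g M1 hM1.1 (gX h (qq j M2)) = 1 := by
    apply be_deep g hM1
    have h5 : M1 ≤ ((h : ℂ ≃ₜ ℂ) (qq j M2).1).im := hup _ (by rw [qq_im])
    rw [gX_val]
    exact le_trans h5 (le_abs_self _)
  have e4 := star g hM1 (mp h (ln j (-M2) M2))
  rw [b1, b2, inv_one, one_mul, mul_one] at e4
  show PsE (g * h) (gl j) = PsE g (PsE h (gl j))
  rw [e1, e3, e4, e2]
  rfl

/-- the action on `G` -/
def Ps : HH →* MulAut G where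
  toFun g := MonoidHom.toMulEquiv (PsE g) (PsE g⁻¹)
    (by rw [← PsE_mul, inv_mul_cancel, PsE_one]) (by rw [← PsE_mul, mul_inv_cancel, PsE_one])
  map_one' := by
    ext x
    exact congrArg (fun f : G →* G => f x) PsE_one
  map_mul' g h := by
    ext x
    exact congrArg (fun f : G →* G => f x) (PsE_mul g h)

theorem Ps_apply (g : HH) (x : G) : Ps g x = PsE g x := rfl

end

end MWT
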