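import Pool.Agent.Lib.MP_cbfcf7.T3

/-!
# Block TOP, file 4: the even subgroup, vertical arcs, arcs which stay to the left
-/

namespace MWT

noncomputable section

open scoped Classical unitInterval Topology
open Set

/-- the peripheral elements `y_i = L_i L_{i+1}⁻¹` -/
def yy (i : ℤ) : G := gl i * (gl (i + 1))⁻¹

/-- the even subgroup (loops based at the bottom) -/
def Fy : Subgroup G := Subgroup.closure (Set.range yy)

theorem gl_div_mem (i j : ℤ) : gl i * (gl j)⁻¹ ∈ Fy := by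
  have key : ∀ (n : ℕ) (i : ℤ), gl i * (gl (i + n))⁻¹ ∈ Fy := by
    intro n
    induction n with
    | zero =>
      intro i
      have h : gl i * (gl (i + (0 : ℕ)))⁻¹ = 1 := by simp
      rw [h]
      exact Fy.one_mem
    | succ n ih =>
      intro i
      have h1 := ih i
      have h2 : yy (i + n) ∈ Fy := Subgroup.subset_closure ⟨i + n, rfl⟩
      have h3 := Fy.mul_mem h1 h2
      have h4 : gl i * (gl (i + n))⁻¹ * yy (i + n) = gl i * (gl (i + (n + 1 : ℕ)))⁻¹ := by
        unfold yy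
        have h5 : (i + (n + 1 : ℕ) : ℤ) = i + n + 1 := by push_cast; ring
        rw [h5]
        group
      rwa [h4] at h3
  rcases le_total i j with h | h
  · obtain ⟨n, rfl⟩ := Int.le.dest h
    exact key n i
  · obtain ⟨n, rfl⟩ := Int.le.dest h
    have h1 := Fy.inv_mem (key n j)
    rwa [mul_inv_rev, inv_inv] at h1

theorem st_div_mem (i j : ℤ) (x : Xo) : st i x * (st j x)⁻¹ ∈ Fy := by
  unfold st
  split_ifs
  · exact gl_div_mem i j
  · rw [inv_one, mul_one]
    exact Fy.one_mem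

/-- words of paths are in `Fy` up to the signs of the ends -/
theorem s0_mem {x y : Xo} (γ : Path x y) : st 0 x * clp γ * (st 0 y)⁻¹ ∈ Fy := by
  apply path_ind univ (fun x y γ => st 0 x * clp γ * (st 0 y)⁻¹ ∈ Fy)
  · intro x y γ γ' h hP
    rwa [← clp_homotopic h]
  · intro x y z γ γ' h h'
    have h1 := Fy.mul_mem h h'
    have h2 : st 0 x * clp γ * (st 0 y)⁻¹ * (st 0 y * clp γ' * (st 0 z)⁻¹) =
        st 0 x * clp (γ.trans γ') * (st 0 z)⁻¹ := by
      rw [clp_trans]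
      group
    rwa [h2] at h1
  · intro j _ x y γ h
    have h1 := Fy.mul_mem (st_div_mem 0 j x) (st_div_mem j 0 y)
    have h2 : st 0 x * (st j x)⁻¹ * (st j y * (st 0 y)⁻¹) =
        st 0 x * clp γ * (st 0 y)⁻¹ := by
      rw [clp_chart γ j h]
      group
    rwa [h2] at h1
  · intro t
    exact ⟨_, mem_univ _, mem_VV_round (γ t)⟩

theorem low_low_mem {x y : Xo} (γ : Path x y) (hx : x.1.im ≤ 0) (hy : y.1.im ≤ 0) :
    clp γ ∈ Fy := by
  have h := s0_mem γ
  simpa [st, not_lt.2 hx, not_lt.2 hy] using h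

theorem low_up_mem {x y : Xo} (γ : Path x y) (hx : x.1.im ≤ 0) (hy : 0 < y.1.im) :
    clp γ * (gl 0)⁻¹ ∈ Fy := by
  have h := s0_mem γ
  simpa [st, not_lt.2 hx, hy] using h

/-- (t0) -/
theorem t0 (g : HH) (i : ℤ) : PsE g (gl i) * (gl 0)⁻¹ ∈ Fy := by
  obtain ⟨M, h⟩ := exists_deep g
  rw [PsE_gl g i h]
  apply low_up_mem
  · rw [gX_val]
    exact (h.2.1 _ (by rw [qq_im])).le
  · rw [gX_val]
    exact h.2.2 _ (by rw [qq_im])

/-- contribution of a piece of path crossing only the gate `j`, from sign `s` to sign `s'` -/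
def crossC (j : ℤ) (s s' : Bool) : G :=
  if s = s' then 1 else if s' then gl j else (gl j)⁻¹

/-- one piece -/
theorem vcl_piece (g : HH) (i j : ℤ) (u v : ℝ) (s s' : Bool)
    (hs : if s then 0 < ((g : ℂ ≃ₜ ℂ) (i + u * Complex.I)).im
      else ((g : ℂ ≃ₜ ℂ) (i + u * Complex.I)).im < 0)
    (hs' : if s' then 0 < ((g : ℂ ≃ₜ ℂ) (i + v * Complex.I)).im
      else ((g : ℂ ≃ₜ ℂ) (i + v * Complex.I)).im < 0)
    (h : ∀ w, min u v ≤ w → w ≤ max u v → ((g : ℂ ≃ₜ ℂ) (i + w * Complex.I)).im = 0 →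
      |((g : ℂ ≃ₜ ℂ) (i + w * Complex.I)).re - j| < 1 / 2) :
    vcl g i u v = crossC j s s' := by
  have hmem : ∀ t, (mp g (ln i u v)) t ∈ VV j := by
    intro t him
    have ht0 := t.2.1
    have ht1 := t.2.2
    apply h ((1 - (t : ℝ)) * u + t * v)
    · have h1 := min_le_left u v
      have h2 := min_le_right u v
      nlinarith [mul_le_mul_of_nonneg_left h1 (sub_nonneg.2 ht1), mul_le_mul_of_nonneg_left h2 ht0]
    · have h1 := le_max_left u v
      have h2 := le_max_right u v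
      nlinarith [mul_le_mul_of_nonneg_left h1 (sub_nonneg.2 ht1), mul_le_mul_of_nonneg_left h2 ht0]
    · exact him
  unfold vcl
  rw [clp_chart _ j hmem]
  have hu : (gX g (qq i u)).1 = (g : ℂ ≃ₜ ℂ) (i + u * Complex.I) := rfl
  have hv : (gX g (qq i v)).1 = (g : ℂ ≃ₜ ℂ) (i + v * Complex.I) := rfl
  have key : ∀ (x : Xo) (s : Bool), (if s then 0 < x.1.im else x.1.im < 0) →
      st j x = if s then gl j else 1 := by
    intro x s hx
    cases s
    · have hx' : x.1.im < 0 := by simpa using hx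
      simp [st, not_lt.2 hx'.le]
    · have hx' : 0 < x.1.im := by simpa using hx
      simp [st, hx']
  rw [key (gX g (qq i u)) s hs, key (gX g (qq i v)) s' hs']
  cases s <;> cases s' <;> simp [crossC]

/-- (t3) -/
theorem t3 (g : HH) (i : ℤ) (r : ℕ) (t : ℕ → ℝ) (s : ℕ → Bool) (j : ℕ → ℤ)
    (h1 : ∀ l < r, t l < t (l + 1))
    (h2 : ∀ u ≤ t 0, ((g : ℂ ≃ₜ ℂ) (i + u * Complex.I)).im < 0)
    (h3 : ∀ u, t r ≤ u → 0 < ((g : ℂ ≃ₜ ℂ) (i + u * Complex.I)).im)
    (h4 : ∀ l ≤ r, if s l then 0 < ((g : ℂ ≃ₜ ℂ) (i + t l * Complex.I)).im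
      else ((g : ℂ ≃ₜ ℂ) (i + t l * Complex.I)).im < 0)
    (h5 : ∀ l < r, ∀ u, t l ≤ u → u ≤ t (l + 1) → ((g : ℂ ≃ₜ ℂ) (i + u * Complex.I)).im = 0 →
      |((g : ℂ ≃ₜ ℂ) (i + u * Complex.I)).re - j l| < 1 / 2) :
    PsE g (gl i) = ((List.range r).map fun l => crossC (j l) (s l) (s (l + 1))).prod := by
  obtain ⟨M0, hM0⟩ := exists_deep g
  have hM : Deep g (max M0 (max |t 0| |t r|)) := hM0.mono (le_max_left _ _)
  set M : ℝ := max M0 (max |t 0| |t r|) with hMdef
  have hM1 : |t 0| ≤ M := (le_max_left _ _).trans (le_max_right _ _)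
  have hM2 : |t r| ≤ M := (le_max_right _ _).trans (le_max_right _ _)
  rw [PsE_gl g i hM, ← vcl_trans g i (-M) (t 0) M, ← vcl_trans g i (t 0) (t r) M]
  have e1 : vcl g i (-M) (t 0) = 1 := by
    apply vcl_low
    intro w _ hw
    apply h2 w
    rwa [max_eq_right (by linarith [neg_abs_le (t 0)])] at hw
  have e2 : vcl g i (t r) M = 1 := by
    apply vcl_up
    intro w hw _
    apply h3 w
    rwa [min_eq_left (by linarith [le_abs_self (t r)])] at hw
  have e3 : ∀ m ≤ r, vcl g i (t 0) (t m) =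
      ((List.range m).map fun l => crossC (j l) (s l) (s (l + 1))).prod := by
    intro m
    induction m with
    | zero =>
      intro _
      have := vcl_trans g i (t 0) (t 0) (t 0)
      simpa using this
    | succ m ih =>
      intro hm
      rw [← vcl_trans g i (t 0) (t m) (t (m + 1)), ih (by omega), List.range_succ, List.map_append,
        List.prod_append]
      congr 1
      rw [List.map_singleton, List.prod_singleton]
      have hlt := h1 m (by omega)
      apply vcl_piece g i (j m) (t m) (t (m + 1)) (s m) (s (m + 1)) (h4 m (by omega))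
        (h4 (m + 1) hm)
      intro w hw1 hw2
      rw [min_eq_left hlt.le] at hw1
      rw [max_eq_right hlt.le] at hw2
      exact h5 m (by omega) w hw1 hw2
  rw [e1, e2, e3 r le_rfl, one_mul, mul_one]

/-- words of paths which cross the axis only through the gates `j ≤ 0` -/
theorem neg_mem {x y : Xo} (γ : Path x y) (h : ∀ t, ∃ j ≤ 0, γ t ∈ VV j) :
    st 0 x * clp γ * (st 0 y)⁻¹ ∈ Subgroup.closure {g : G | ∃ j : ℤ, j ≤ 0 ∧ g = gl j} := by
  have hst : ∀ j : ℤ, j ≤ 0 → ∀ x : Xo,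
      st j x ∈ Subgroup.closure {g : G | ∃ j : ℤ, j ≤ 0 ∧ g = gl j} := by
    intro j hj x
    unfold st
    split_ifs
    · exact Subgroup.subset_closure ⟨j, hj, rfl⟩
    · exact Subgroup.one_mem _
  apply path_ind {j : ℤ | j ≤ 0} (fun x y γ => st 0 x * clp γ * (st 0 y)⁻¹ ∈
    Subgroup.closure {g : G | ∃ j : ℤ, j ≤ 0 ∧ g = gl j})
  · intro x y γ γ' h hP
    rwa [← clp_homotopic h]
  · intro x y z γ γ' h h'
    have h1 := Subgroup.mul_mem _ h h'
    have h2 : st 0 x * clp γ * (st 0 y)⁻¹ * (st 0 y * clp γ' * (st 0 z)⁻¹) =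
        st 0 x * clp (γ.trans γ') * (st 0 z)⁻¹ := by
      rw [clp_trans]
      group
    rwa [h2] at h1
  · intro j hj x y γ h
    rw [clp_chart γ j h]
    exact Subgroup.mul_mem _ (Subgroup.mul_mem _ (hst 0 le_rfl x)
      (Subgroup.mul_mem _ (Subgroup.inv_mem _ (hst j hj x)) (hst j hj y)))
      (Subgroup.inv_mem _ (hst 0 le_rfl y))
  · exact h

/-- (t4) -/
theorem t4 (g : HH)
    (h : ∀ u : ℝ, ((g : ℂ ≃ₜ ℂ) (u * Complex.I)).im = 0 →
      ((g : ℂ ≃ₜ ℂ) (u * Complex.I)).re < 1 / 2) :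
    PsE g (gl 0) ∈ Subgroup.closure {g : G | ∃ j : ℤ, j ≤ 0 ∧ g = gl j} := by
  obtain ⟨M, hM⟩ := exists_deep g
  rw [PsE_gl g 0 hM]
  have hq : ∀ w : ℝ, (qq 0 w).1 = w * Complex.I := by
    intro w
    simp [qq]
  have h1 := neg_mem (mp g (ln 0 (-M) M)) (by
    intro t
    rw [mp_apply, ln_apply]
    set w : ℝ := (1 - (t : ℝ)) * (-M) + t * M with hw
    by_cases him : (gX g (qq 0 w)).1.im = 0
    · refine ⟨round (gX g (qq 0 w)).1.re, ?_, mem_VV_round _⟩
      have h2 : (gX g (qq 0 w)).1.re < 1 / 2 := by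
        rw [gX_val, hq] at him ⊢
        exact h w him
      rw [round_eq]
      have h3 : ⌊(gX g (qq 0 w)).1.re + 1 / 2⌋ < 1 := by
        rw [Int.floor_lt]
        push_cast
        linarith
      omega
    · exact ⟨0, le_rfl, fun hcon => absurd hcon him⟩)
  have h2 : st 0 (gX g (qq 0 (-M))) = 1 := by
    have h3 : (gX g (qq 0 (-M))).1.im < 0 := by
      rw [gX_val]
      exact hM.2.1 _ (by rw [qq_im])
    simp [st, not_lt.2 h3.le]
  have h3 : st 0 (gX g (qq 0 M)) = gl 0 := by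
    have h4 : 0 < (gX g (qq 0 M)).1.im := by
      rw [gX_val]
      exact hM.2.2 _ (by rw [qq_im])
    simp [st, h4]
  rw [h2, h3, one_mul] at h1
  have h4 : gl 0 ∈ Subgroup.closure {g : G | ∃ j : ℤ, j ≤ 0 ∧ g = gl j} :=
    Subgroup.subset_closure ⟨0, le_rfl, rfl⟩
  have h5 := Subgroup.mul_mem _ h1 h4
  rwa [inv_mul_cancel_right] at h5

end

end MWT
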