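import Pool.Agent.Lib.MP_cbfcf7.A0
import Pool.Agent.Lib.MP_cbfcf7.D0

/-!
# Block Z: assembly of the algebraic part
-/

namespace MWC

noncomputable section

open scoped Classical

/-- arc of the twist by `-k` of the core -/
def arc0 (n nE k : ℕ) : G :=
  ((List.range k).map fun l => gL (((l : ℤ) - k) * n) * (gL (((l : ℤ) - k) * n + nE))⁻¹).prod * gL 0

/-- arc of the twist by `1` inside the circle and by `K` outside -/
def arc1 (n B K : ℕ) : G :=
  ((List.range (K - 1)).map fun l => gL (((l : ℤ) + 1) * n) * (gL (((l : ℤ) + 1) * n + B))⁻¹).prod *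
    gL (K * n)

/-- the word `beta = rho⁻¹ sigma_{nE+1} ... sigma_{n-1} sigma_0` -/
def wBeta (n nE : ℕ) : List Letter :=
  Letter.rhoI :: (((List.range (n - 1 - nE)).map fun i => Letter.sig (nE + 1 + i : ℤ)) ++
    [Letter.sig 0])

/-- the power of a word -/
def wpow (u : List Letter) : ℕ → List Letter
  | 0 => []
  | k + 1 => u ++ wpow u k

theorem evW_wpow {n : ℤ} (hn : 2 ≤ n) (u : List Letter) (k : ℕ) :
    evW hn (wpow u k) = evW hn u ^ k := by
  induction k with
  | zero => simp [wpow, evW]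
  | succ k ih => rw [wpow, evW_append, ih, pow_succ']

/-- the word `v'` -/
def wV1 (n B K : ℕ) : List Letter := wT n ++ wpow (wpow (wOut B) (n - B)) (K - 1)

/-- the word `v0` -/
def wV0 (n nE k : ℕ) : List Letter := wpow (wBeta n nE) (nE * k)

theorem zj1_sh (k j : ℤ) : shG k (gL j) = gL (j + k) := by
  simp [shG, gL]

theorem zj1_sig {n : ℤ} (hn : 2 ≤ n) (i j : ℤ) :
    sigG hn i (gL j) = if n ∣ j - i then gL (j - 1) * (gL j)⁻¹ * gL (j + 1) else gL j := by
  show sigE n i (gL j) = _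
  simp [sigE, gL]

theorem zj1_sig_eq {n : ℤ} (hn : 2 ≤ n) (i : ℤ) :
    sigG hn i (gL i) = gL (i - 1) * (gL i)⁻¹ * gL (i + 1) := by
  rw [zj1_sig, if_pos (by simp)]

theorem zj1_sig_ne {n : ℤ} (hn : 2 ≤ n) {i j : ℤ} (h0 : j ≠ i) (h1 : -n < j - i)
    (h2 : j - i < n) : sigG hn i (gL j) = gL j := by
  rw [zj1_sig, if_neg]
  intro hd
  have h3 : j - i ≠ 0 := sub_ne_zero.2 h0
  have h4 : |j - i| < n := abs_lt.2 ⟨h1, h2⟩
  exact h3 (Int.eq_zero_of_abs_lt_dvd hd h4)

/-- commutation with the shift by `n` -/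
theorem zj1_comm_of {n : ℤ} (α : MulAut G) (h : ∀ j, α (gL (j + n)) = shG n (α (gL j)))
    (x : G) : α (shG n x) = shG n (α x) := by
  have h1 : (α.toMonoidHom.comp (shG n).toMonoidHom : G →* G) =
      ((shG n).toMonoidHom.comp α.toMonoidHom : G →* G) := by
    apply FreeGroup.ext_hom
    intro j
    show α (shG n (gL j)) = shG n (α (gL j))
    rw [zj1_sh, h]
  exact DFunLike.congr_fun h1 x

theorem zj1_comm_sh {n : ℤ} (k : ℤ) (x : G) : shG k (shG n x) = shG n (shG k x) := by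
  apply zj1_comm_of
  intro j
  rw [zj1_sh, zj1_sh, zj1_sh]
  congr 1
  ring

theorem zj1_comm_sig {n : ℤ} (hn : 2 ≤ n) (i : ℤ) (x : G) :
    sigG hn i (shG n x) = shG n (sigG hn i x) := by
  apply zj1_comm_of
  intro j
  rw [zj1_sig, zj1_sig]
  have hiff : n ∣ j + n - i ↔ n ∣ j - i := by
    rw [show j + n - i = (j - i) + n by ring]
    exact dvd_add_self_right
  by_cases h : n ∣ j - i
  · rw [if_pos (hiff.2 h), if_pos h, map_mul, map_mul, map_inv, zj1_sh, zj1_sh, zj1_sh]
    congr 2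
    · congr 2
      ring
    · ring
  · rw [if_neg (fun h' => h (hiff.1 h')), if_neg h, zj1_sh]

theorem zj1_comm_inv {n : ℤ} (α : MulAut G) (h : ∀ x, α (shG n x) = shG n (α x)) (x : G) :
    α⁻¹ (shG n x) = shG n (α⁻¹ x) := by
  apply α.injective
  rw [MulAut.apply_inv_self, h, MulAut.apply_inv_self]

theorem zj1_comm_evL {n : ℤ} (hn : 2 ≤ n) (s : Letter) (x : G) :
    evL hn s (shG n x) = shG n (evL hn s x) := by
  cases s with
  | sig i => exact zj1_comm_sig hn i x
  | sigI i => exact zj1_comm_inv _ (zj1_comm_sig hn i) x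
  | rho => exact zj1_comm_sh 1 x
  | rhoI => exact zj1_comm_sh (-1) x

theorem zj1_evW_cons {n : ℤ} (hn : 2 ≤ n) (s : Letter) (u : List Letter) (x : G) :
    evW hn (s :: u) x = evL hn s (evW hn u x) := by
  simp [evW]

theorem zj1_comm_evW {n : ℤ} (hn : 2 ≤ n) (u : List Letter) (x : G) :
    evW hn u (shG n x) = shG n (evW hn u x) := by
  induction u with
  | nil => simp [evW]
  | cons s u ih => rw [zj1_evW_cons, zj1_evW_cons, ih, zj1_comm_evL]

theorem zj1_wT (n : ℕ) (hn : (2:ℤ) ≤ (n : ℤ)) (x : G) : evW hn (wT n) x = shG n x := by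
  have key : ∀ m : ℕ, evW hn (List.replicate m Letter.rho) = shG (m : ℤ) := by
    intro m
    induction m with
    | zero =>
      ext x
      have h1 : (MonoidHom.id G) = ((shG ((0 : ℕ) : ℤ)).toMonoidHom : G →* G) := by
        apply FreeGroup.ext_hom
        intro j
        show gL j = shG ((0 : ℕ) : ℤ) (gL j)
        rw [zj1_sh]
        congr 1
        simp
      have h2 := DFunLike.congr_fun h1 x
      simpa [evW] using h2
    | succ m ih =>
      ext x
      rw [List.replicate_succ, zj1_evW_cons, ih]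
      have h1 : ((shG 1).toMonoidHom.comp (shG (m : ℤ)).toMonoidHom : G →* G) =
          ((shG ((m + 1 : ℕ) : ℤ)).toMonoidHom : G →* G) := by
        apply FreeGroup.ext_hom
        intro j
        show shG 1 (shG (m : ℤ) (gL j)) = shG ((m + 1 : ℕ) : ℤ) (gL j)
        rw [zj1_sh, zj1_sh, zj1_sh]
        congr 1
        push_cast
        ring
      exact DFunLike.congr_fun h1 x
  unfold wT
  rw [Int.toNat_natCast, key]

/-- the product of `σ_{m-1} ... σ_0` on the gates -/
theorem zj1_P (n m : ℕ) (hn : (2:ℤ) ≤ (n : ℤ)) (hm : m + 1 < n) (j : ℕ) :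
    (j < m → evW hn ((List.range m).reverse.map fun i => Letter.sig (i : ℤ)) (gL j) =
      gL ((j : ℤ) - 1) * (gL ((m : ℤ) - 1))⁻¹ * gL m) ∧
    (m ≤ j → j < n → evW hn ((List.range m).reverse.map fun i => Letter.sig (i : ℤ)) (gL j) =
      gL j) := by
  induction m with
  | zero =>
    refine ⟨fun h => absurd h (by omega), fun _ _ => ?_⟩
    simp [evW]
  | succ m ih =>
    have ih' := ih (by omega)
    have e : (List.range (m + 1)).reverse.map (fun i => Letter.sig (i : ℤ)) =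
        Letter.sig (m : ℤ) :: (List.range m).reverse.map (fun i => Letter.sig (i : ℤ)) := by
      rw [List.range_succ, List.reverse_append]
      simp
    rw [e]
    constructor
    · intro hj
      rw [zj1_evW_cons]
      show sigG hn (m : ℤ) _ = _
      rcases Nat.lt_succ_iff_lt_or_eq.1 hj with h | h
      · rw [ih'.1 h, map_mul, map_mul, map_inv, zj1_sig_eq, zj1_sig_ne hn (by omega) (by omega)
          (by omega), zj1_sig_ne hn (by omega) (by omega) (by omega)]
        push_cast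
        rw [show (m : ℤ) + 1 - 1 = m by ring]
        group
      · subst h
        rw [ih'.2 (_root_.le_refl _) (by omega), zj1_sig_eq]
        push_cast
        rw [show (j : ℤ) + 1 - 1 = j by ring]
    · intro h1 h2
      rw [zj1_evW_cons, ih'.2 (by omega) h2]
      show sigG hn (m : ℤ) _ = _
      exact zj1_sig_ne hn (by omega) (by omega) (by omega)

theorem zj1_R (n B : ℕ) (hn : (2:ℤ) ≤ (n : ℤ)) (hB : 2 ≤ B) (hBn : B + 2 ≤ n) :
    evW hn (wOut B) (gL 0) = gL 0 * (gL B)⁻¹ * gL ((B : ℤ) + 1) ∧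
    (∀ j : ℕ, B ≤ j → j < n → evW hn (wOut B) (gL j) = gL ((j : ℤ) + 1)) := by
  have hP := zj1_P n B hn (by omega)
  have e : wOut (B : ℤ) = Letter.rho :: ((List.range B).reverse.map fun i => Letter.sig (i : ℤ)) := by
    unfold wOut
    rw [Int.toNat_natCast]
  rw [e]
  constructor
  · rw [zj1_evW_cons]
    have h := (hP 0).1 (by omega)
    rw [Nat.cast_zero] at h
    rw [h]
    show shG 1 _ = _
    rw [map_mul, map_mul, map_inv, zj1_sh, zj1_sh, zj1_sh]
    congr 3
    congr 1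
    ring
  · intro j h1 h2
    rw [zj1_evW_cons, (hP j).2 h1 h2]
    show shG 1 _ = _
    rw [zj1_sh]

theorem zj1_Rpow (n B : ℕ) (hn : (2:ℤ) ≤ (n : ℤ)) (hB : 2 ≤ B) (hBn : B + 2 ≤ n) (k : ℕ)
    (hk : B + k ≤ n) :
    (evW hn (wOut B) ^ k) (gL 0) = gL 0 * (gL B)⁻¹ * gL ((B : ℤ) + k) := by
  obtain ⟨h0, h1⟩ := zj1_R n B hn hB hBn
  induction k with
  | zero => simp
  | succ k ih =>
    rw [pow_succ', MulAut.mul_apply, ih (by omega), map_mul, map_mul, map_inv, h0,
      h1 B (_root_.le_refl _) (by omega)]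
    have h2 := h1 (B + k) (by omega) (by omega)
    push_cast at h2 ⊢
    rw [h2]
    rw [show (B : ℤ) + k + 1 = B + (k + 1) by ring]
    group

theorem zj1_fix (n B : ℕ) (hn : (2:ℤ) ≤ (n : ℤ)) (hB : 2 ≤ B) (hBn : B + 2 ≤ n) (k : ℕ) :
    (evW hn (wOut B) ^ k) (gL 0 * (gL B)⁻¹) = gL 0 * (gL B)⁻¹ := by
  obtain ⟨h0, h1⟩ := zj1_R n B hn hB hBn
  induction k with
  | zero => simp
  | succ k ih =>
    rw [pow_succ', MulAut.mul_apply, ih, map_mul, map_inv, h0, h1 B (_root_.le_refl _) (by omega)]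
    group

theorem zj1_fix2 {α : MulAut G} {y : G} (h : α y = y) (k : ℕ) : (α ^ k) y = y := by
  induction k with
  | zero => simp
  | succ k ih => rw [pow_succ', MulAut.mul_apply, ih, h]

theorem zj1_comm_pow {n : ℤ} (α : MulAut G) (h : ∀ x, α (shG n x) = shG n (α x)) (k : ℕ) (x : G) :
    (α ^ k) (shG n x) = shG n ((α ^ k) x) := by
  induction k with
  | zero => simp
  | succ k ih => rw [pow_succ', MulAut.mul_apply, MulAut.mul_apply, ih, h]

/-- powers of the outer twist -/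
theorem zj1_Q (n B : ℕ) (hn : (2:ℤ) ≤ (n : ℤ)) (hB : 2 ≤ B) (hBn : B + 2 ≤ n) (k : ℕ) :
    ((evW hn (wOut B) ^ (n - B)) ^ k) (gL 0) =
      ((List.range k).map fun l : ℕ => gL ((l : ℤ) * n) * (gL ((l : ℤ) * n + B))⁻¹).prod *
        gL ((k : ℤ) * n) := by
  induction k with
  | zero => simp
  | succ k ih =>
    have hQ0 := zj1_Rpow n B hn hB hBn (n - B) (by omega)
    have hQy := zj1_fix n B hn hB hBn (n - B)
    have hc : ∀ x, (evW hn (wOut B) ^ (n - B)) (shG n x) =
        shG n ((evW hn (wOut B) ^ (n - B)) x) :=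
      zj1_comm_pow _ (zj1_comm_evW hn (wOut B)) _
    generalize evW hn (wOut B) ^ (n - B) = Q at ih hQ0 hQy hc
    have hn' : (B : ℤ) + ((n - B : ℕ) : ℤ) = n := by omega
    rw [hn'] at hQ0
    have hLn : gL (n : ℤ) = shG n (gL 0) := by
      rw [zj1_sh]
      congr 1
      ring
    rw [pow_succ, MulAut.mul_apply, hQ0, map_mul, zj1_fix2 hQy, hLn, zj1_comm_pow Q hc, ih,
      map_mul, map_list_prod, zj1_sh, List.range_succ_eq_map, List.map_cons, List.prod_cons,
      List.map_map, List.map_map]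
    have e1 : (⇑(shG (n : ℤ)) ∘ fun l : ℕ => gL ((l : ℤ) * n) * (gL ((l : ℤ) * n + B))⁻¹) =
        ((fun l : ℕ => gL ((l : ℤ) * n) * (gL ((l : ℤ) * n + B))⁻¹) ∘ Nat.succ) := by
      funext l
      simp only [Function.comp, map_mul, map_inv, zj1_sh]
      push_cast
      congr 2
      · ring
      · congr 1
        ring
    rw [e1, show (k : ℤ) * n + n = ((k + 1 : ℕ) : ℤ) * n by push_cast; ring]
    simp [mul_assoc]

theorem evW_wV1 (n B K : ℕ) (hB : 2 ≤ B) (hn : B + 2 ≤ n) (hK : 1 ≤ K) :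
    evW (by omega : (2:ℤ) ≤ (n : ℤ)) (wV1 n B K) (gL 0) = arc1 n B K := by
  have hn2 : (2:ℤ) ≤ (n : ℤ) := by omega
  unfold wV1 arc1
  simp only [bind_pure_comp, List.map_eq_map, List.map_map]
  rw [evW_append, evW_wpow, evW_wpow, MulAut.mul_apply, zj1_Q n B hn2 hB hn, zj1_wT, map_mul,
    map_list_prod, zj1_sh, List.map_map]
  have e1 : (⇑(shG (n : ℤ)) ∘ fun l : ℕ => gL ((l : ℤ) * n) * (gL ((l : ℤ) * n + B))⁻¹) =
      (fun l : ℕ => gL (((l : ℤ) + 1) * n) * (gL (((l : ℤ) + 1) * n + B))⁻¹) := by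
    funext l
    simp only [Function.comp, map_mul, map_inv, zj1_sh]
    congr 2
    · ring
    · congr 1
      ring
  rw [e1]
  congr 2
  have : ((K - 1 : ℕ) : ℤ) = K - 1 := by omega
  rw [this]
  ring

theorem zj2_sig {n : ℤ} (hn : 2 ≤ n) (i j : ℤ) :
    sigG hn i (gL j) = if n ∣ j - i then gL (j - 1) * (gL j)⁻¹ * gL (j + 1) else gL j := by
  show sigE n i (gL j) = _
  unfold sigE gL
  rw [FreeGroup.lift_apply_of]

theorem zj2_sig_ne {n : ℤ} (hn : 2 ≤ n) (i j : ℤ) (h : ¬ n ∣ j - i) : sigG hn i (gL j) = gL j := by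
  rw [zj2_sig, if_neg h]

theorem zj2_sh (k j : ℤ) : shG k (gL j) = gL (j + k) := by
  unfold shG gL
  rw [FreeGroup.freeGroupCongr_apply, FreeGroup.map.of]
  rfl

theorem zj2_coe (l : List ℕ) :
    (do let a ← l; pure (a : ℤ) : List ℤ) = l.map (fun a : ℕ => (a : ℤ)) := by
  induction l with
  | nil => rfl
  | cons x l ih =>
    rw [List.map_cons, ← ih]
    rfl

/-- the list of letters `sig c, sig (c + 1), ...` -/
def zj2_L (c : ℤ) (m : ℕ) : List Letter := (List.range m).map fun i : ℕ => Letter.sig (c + i : ℤ)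

theorem zj2_L_succ (c : ℤ) (m : ℕ) : zj2_L c (m + 1) = Letter.sig c :: zj2_L (c + 1) m := by
  unfold zj2_L
  rw [List.range_succ_eq_map, List.map_cons, List.map_map]
  congr 1
  · simp
  · apply List.map_congr_left
    intro i _
    simp only [Function.comp]
    push_cast
    congr 1
    ring

theorem zj2_cons {n : ℤ} (hn : 2 ≤ n) (s : Letter) (u : List Letter) (x : G) :
    evW hn (s :: u) x = evL hn s (evW hn u x) := by
  unfold evW
  rw [List.map_cons, List.prod_cons, MulAut.mul_apply]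

theorem zj2_fix {n : ℤ} (hn : 2 ≤ n) (c : ℤ) (m : ℕ) (j : ℤ)
    (h : ∀ i : ℕ, i < m → ¬ n ∣ j - (c + i)) : evW hn (zj2_L c m) (gL j) = gL j := by
  induction m generalizing c with
  | zero =>
    simp [zj2_L, evW]
  | succ m ih =>
    rw [zj2_L_succ, zj2_cons, ih]
    · have h0 := h 0 (Nat.succ_pos m)
      rw [Nat.cast_zero, add_zero] at h0
      exact zj2_sig_ne hn _ _ h0
    · intro i hi
      have h1 := h (i + 1) (by omega)
      have e : c + ((i + 1 : ℕ) : ℤ) = c + 1 + i := by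
        push_cast
        ring
      rw [e] at h1
      exact h1

theorem zj2_not_dvd {n : ℤ} (t a : ℤ) (h1 : 0 < a) (h2 : a < n) : ¬ n ∣ t * n + a := by
  intro h
  have h3 : n ∣ a := (Int.dvd_add_right (Dvd.intro_left t rfl)).1 h
  have h4 := Int.le_of_dvd h1 h3
  linarith

theorem zj2_move {n : ℤ} (hn : 2 ≤ n) (nE : ℤ) (hE : 2 ≤ nE) (t : ℤ) (m : ℕ)
    (hm : m + nE + 1 ≤ n) :
    evW hn (zj2_L (n - m) m) (gL (t * n - 1) * (gL (t * n))⁻¹ * gL (t * n + 1)) =
      gL (t * n - m - 1) * (gL (t * n - m))⁻¹ * gL (t * n + 1) := by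
  induction m with
  | zero =>
    simp [zj2_L, evW]
  | succ m ih =>
    have hm' : (m : ℤ) + nE + 1 ≤ n := by
      push_cast at hm
      linarith
    push_cast at hm
    rw [zj2_L_succ, zj2_cons]
    have e1 : n - ((m + 1 : ℕ) : ℤ) + 1 = n - m := by
      push_cast
      ring
    rw [e1, ih hm']
    show sigG hn (n - ((m + 1 : ℕ) : ℤ)) _ = _
    rw [map_mul, map_mul, map_inv, zj2_sig hn _ (t * n - m - 1), if_pos,
      zj2_sig_ne hn _ (t * n - m), zj2_sig_ne hn _ (t * n + 1)]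
    · have e2 : t * n - m - 1 + 1 = t * n - m := by ring
      have e3 : t * n - ((m + 1 : ℕ) : ℤ) - 1 = t * n - m - 1 - 1 := by
        push_cast
        ring
      have e4 : t * n - ((m + 1 : ℕ) : ℤ) = t * n - m - 1 := by
        push_cast
        ring
      rw [e2, e3, e4]
      group
    · have e : t * n + 1 - (n - ((m + 1 : ℕ) : ℤ)) = (t - 1) * n + (m + 2) := by
        push_cast
        ring
      rw [e]
      apply zj2_not_dvd
      · positivity
      · linarith
    · have e : t * n - m - (n - ((m + 1 : ℕ) : ℤ)) = (t - 1) * n + 1 := by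
        push_cast
        ring
      rw [e]
      apply zj2_not_dvd
      · norm_num
      · linarith
    · have e : t * n - m - 1 - (n - ((m + 1 : ℕ) : ℤ)) = (t - 1) * n := by
        push_cast
        ring
      rw [e]
      exact Dvd.intro_left _ rfl

theorem zj2_beta (n nE : ℕ) (hn2 : (2 : ℤ) ≤ n) (x : G) (h : nE + 2 ≤ n) :
    evW hn2 (wBeta n nE) x =
      shG (-1) (evW hn2 (zj2_L ((n : ℤ) - ((n - 1 - nE : ℕ) : ℤ)) (n - 1 - nE)) (sigG hn2 0 x)) := by
  unfold wBeta
  rw [zj2_cons, evW_append]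
  have e : (n : ℤ) - ((n - 1 - nE : ℕ) : ℤ) = nE + 1 := by
    have : ((n - 1 - nE : ℕ) : ℤ) = n - 1 - nE := by
      omega
    rw [this]
    ring
  rw [e, MulAut.mul_apply]
  have e2 : evW hn2 [Letter.sig 0] x = sigG hn2 0 x := by
    simp [evW, evL]
  rw [e2, zj2_coe, List.map_map]
  rfl

theorem zj2_beta0 (n nE : ℕ) (hE : 2 ≤ nE) (hn : nE + 2 ≤ n) (hn2 : (2 : ℤ) ≤ n) (t : ℤ) :
    evW hn2 (wBeta n nE) (gL (t * n)) =
      gL ((t - 1) * n + nE - 1) * (gL ((t - 1) * n + nE))⁻¹ * gL (t * n) := by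
  rw [zj2_beta n nE hn2 _ hn, zj2_sig, if_pos (by rw [sub_zero]; exact Dvd.intro_left _ rfl)]
  have hc : ((n - 1 - nE : ℕ) : ℤ) = n - 1 - nE := by omega
  rw [zj2_move hn2 (nE : ℤ) (by exact_mod_cast hE) t (n - 1 - nE) (by rw [hc]; linarith)]
  rw [map_mul, map_mul, map_inv, zj2_sh, zj2_sh, zj2_sh, hc]
  have e1 : t * (n : ℤ) - (n - 1 - nE) - 1 + -1 = (t - 1) * n + nE - 1 := by ring
  have e2 : t * (n : ℤ) - (n - 1 - nE) + -1 = (t - 1) * n + nE := by ring
  have e3 : t * (n : ℤ) + 1 + -1 = t * n := by ring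
  rw [e1, e2, e3]

theorem zj2_betaj (n nE : ℕ) (hE : 2 ≤ nE) (hn : nE + 2 ≤ n) (hn2 : (2 : ℤ) ≤ n) (t j : ℤ)
    (h1 : 1 ≤ j) (h2 : j ≤ nE) :
    evW hn2 (wBeta n nE) (gL (t * n + j)) = gL (t * n + j - 1) := by
  have hnE : (nE : ℤ) + 2 ≤ n := by exact_mod_cast hn
  rw [zj2_beta n nE hn2 _ hn, zj2_sig_ne hn2, zj2_fix, zj2_sh]
  · rfl
  · intro i hi
    have hc : ((n - 1 - nE : ℕ) : ℤ) = n - 1 - nE := by omega
    have hi' : (i : ℤ) < n - 1 - nE := by
      rw [← hc]
      exact_mod_cast hi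
    have e : t * n + j - (n - ((n - 1 - nE : ℕ) : ℤ) + i) =
        (t - 1) * (n : ℤ) + (n + j - 1 - nE - i) := by
      rw [hc]
      ring
    rw [e]
    apply zj2_not_dvd
    · linarith
    · have : (0 : ℤ) ≤ i := by positivity
      linarith
  · rw [sub_zero]
    apply zj2_not_dvd
    · linarith
    · linarith

theorem zj2_pow0 (n nE : ℕ) (hE : 2 ≤ nE) (hn : nE + 2 ≤ n) (hn2 : (2 : ℤ) ≤ n) (t : ℤ) (m : ℕ)
    (hm : m ≤ nE) :
    (evW hn2 (wBeta n nE) ^ m) (gL (t * n)) =
      gL ((t - 1) * n + (nE - m)) * (gL ((t - 1) * n + nE))⁻¹ * gL (t * n) := by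
  induction m with
  | zero => simp
  | succ m ih =>
    have hmE : (m : ℤ) + 1 ≤ nE := by exact_mod_cast hm
    have hm0 : (0 : ℤ) ≤ m := by positivity
    rw [pow_succ', MulAut.mul_apply, ih (by omega), map_mul, map_mul, map_inv,
      zj2_betaj n nE hE hn hn2 (t - 1) (nE - m) (by linarith) (by linarith),
      zj2_betaj n nE hE hn hn2 (t - 1) nE (by linarith) (by linarith),
      zj2_beta0 n nE hE hn hn2 t]
    have e : (t - 1) * (n : ℤ) + (nE - ((m + 1 : ℕ) : ℤ)) = (t - 1) * n + (nE - m) - 1 := by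
      push_cast
      ring
    rw [e]
    group

theorem zj2_powE (n nE : ℕ) (hE : 2 ≤ nE) (hn : nE + 2 ≤ n) (hn2 : (2 : ℤ) ≤ n) (t : ℤ) (m : ℕ)
    (hm : m ≤ nE) :
    (evW hn2 (wBeta n nE) ^ m) (gL (t * n + nE)) = gL (t * n + (nE - m)) := by
  induction m with
  | zero => simp
  | succ m ih =>
    have hmE : (m : ℤ) + 1 ≤ nE := by exact_mod_cast hm
    have hm0 : (0 : ℤ) ≤ m := by positivity
    rw [pow_succ', MulAut.mul_apply, ih (by omega),
      zj2_betaj n nE hE hn hn2 t (nE - m) (by linarith) (by linarith)]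
    congr 1
    push_cast
    ring

/-- the elements `x_t` -/
def zj2_x (n nE : ℕ) (t : ℤ) : G := gL (t * n) * (gL (t * n + nE))⁻¹

theorem zj2_b0 (n nE : ℕ) (hE : 2 ≤ nE) (hn : nE + 2 ≤ n) (hn2 : (2 : ℤ) ≤ n) (t : ℤ) :
    (evW hn2 (wBeta n nE) ^ nE) (gL (t * n)) = zj2_x n nE (t - 1) * gL (t * n) := by
  rw [zj2_pow0 n nE hE hn hn2 t nE le_rfl, sub_self, add_zero]
  rfl

theorem zj2_bx (n nE : ℕ) (hE : 2 ≤ nE) (hn : nE + 2 ≤ n) (hn2 : (2 : ℤ) ≤ n) (t : ℤ) :
    (evW hn2 (wBeta n nE) ^ nE) (zj2_x n nE t) = zj2_x n nE (t - 1) := by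
  have h1 := zj2_b0 n nE hE hn hn2 t
  have h2 := zj2_powE n nE hE hn hn2 t nE le_rfl
  rw [sub_self, add_zero] at h2
  have e : zj2_x n nE t = gL (t * n) * (gL (t * n + nE))⁻¹ := rfl
  rw [e, map_mul, map_inv, h1, h2]
  group

theorem zj2_pow (n nE : ℕ) (hE : 2 ≤ nE) (hn : nE + 2 ≤ n) (hn2 : (2 : ℤ) ≤ n) (k : ℕ) :
    ((evW hn2 (wBeta n nE) ^ nE) ^ k) (gL 0) = arc0 n nE k := by
  induction k with
  | zero => simp [arc0]
  | succ k ih =>
    rw [pow_succ', MulAut.mul_apply, ih]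
    unfold arc0
    rw [zj2_coe, zj2_coe, List.map_map, List.map_map]
    rw [map_mul, map_list_prod, List.map_map, List.range_succ, List.map_append, List.prod_append]
    have h0 := zj2_b0 n nE hE hn hn2 0
    rw [zero_mul] at h0
    rw [h0]
    have e1 : (List.map (⇑(evW hn2 (wBeta n nE) ^ nE) ∘ ((fun l : ℤ =>
        gL ((l - k) * n) * (gL ((l - k) * n + nE))⁻¹) ∘ fun a : ℕ => (a : ℤ))) (List.range k)) =
        List.map ((fun l : ℤ => gL ((l - ((k + 1 : ℕ) : ℤ)) * n) *
          (gL ((l - ((k + 1 : ℕ) : ℤ)) * n + nE))⁻¹) ∘ fun a : ℕ => (a : ℤ)) (List.range k) := by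
      apply List.map_congr_left
      intro l _
      have h := zj2_bx n nE hE hn hn2 ((l : ℤ) - k)
      have e : (l : ℤ) - k - 1 = (l : ℤ) - ((k + 1 : ℕ) : ℤ) := by
        push_cast
        ring
      rw [e] at h
      exact h
    rw [e1, mul_assoc]
    congr 1
    rw [List.map_singleton, List.prod_singleton]
    have e2 : (k : ℤ) - ((k + 1 : ℕ) : ℤ) = 0 - 1 := by
      push_cast
      ring
    show _ = gL (((k : ℤ) - ((k + 1 : ℕ) : ℤ)) * n) *
      (gL (((k : ℤ) - ((k + 1 : ℕ) : ℤ)) * n + nE))⁻¹ * gL 0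
    rw [e2]
    rfl

theorem evW_wV0 (n nE k : ℕ) (hE : 2 ≤ nE) (hn : nE + 2 ≤ n) :
    evW (by omega : (2:ℤ) ≤ (n : ℤ)) (wV0 n nE k) (gL 0) = arc0 n nE k := by
  unfold wV0
  rw [evW_wpow, pow_mul]
  exact zj2_pow n nE hE hn _ k

theorem cj23_sh_pow (k : ℕ) : shG 1 ^ k = shG k := by
  induction k with
  | zero =>
    rw [pow_zero, Nat.cast_zero]
    exact cj23_sh_zero.symm
  | succ k ih =>
    rw [pow_succ, ih, cj23_sh_mul]
    push_cast
    rfl

theorem evW_wT {n : ℤ} (hn : 2 ≤ n) : evW hn (wT n) = shG n := by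
  unfold evW wT
  rw [List.map_replicate, List.prod_replicate]
  show shG 1 ^ n.toNat = shG n
  rw [cj23_sh_pow, Int.toNat_of_nonneg (by omega)]

theorem cW_wV1 (n B K : ℕ) (hB : 0 < (B : ℤ)) (hn : (B : ℤ) < n) :
    cW hB hn (wV1 n B K) ≤ B := by
  unfold wV1
  rw [cW_T]
  have key : ∀ (j : ℕ) (v : List Letter), cW hB hn (wpow (wOut B) j ++ v) ≤ cW hB hn v := by
    intro j
    induction j with
    | zero => intro v; simp [wpow]
    | succ j ih =>
      intro v
      rw [wpow, List.append_assoc]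
      exact _root_.le_trans (cW_out hB hn _) (ih v)
  have key2 : ∀ (j : ℕ), cW hB hn (wpow (wpow (wOut B) (n - B)) j) ≤ 0 := by
    intro j
    induction j with
    | zero => simp [wpow, cW_nil]
    | succ j ih =>
      rw [wpow]
      exact _root_.le_trans (key _ _) ih
  have := key2 (K - 1)
  linarith

theorem zj3_rhoI {n B : ℤ} (hB : 0 < B) (hn : B < n) (w : List Letter) :
    cW hB hn w - 1 ≤ cW hB hn (Letter.rhoI :: w) := by
  have h1 := (cW_rho hB hn (Letter.rhoI :: w)).2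
  have h2 : cW hB hn w ≤ cW hB hn (Letter.rho :: Letter.rhoI :: w) + 0 :=
    cO_le hB hn (act_inv (by omega) Letter.rhoI (actW w (L0 n B))).1
  linarith

theorem zj3_list {n B : ℤ} (hB : 0 < B) (hn : B < n) (l : List ℤ)
    (hl : ∀ j ∈ l, 0 < j ∧ j < n) (v : List Letter) :
    cW hB hn v - (l.count B : ℤ) ≤ cW hB hn (l.map Letter.sig ++ v) := by
  induction l with
  | nil => simp
  | cons j l ih =>
    have h1 := ih fun k hk => hl k (List.mem_cons_of_mem _ hk)
    obtain ⟨hj0, hjn⟩ := hl j List.mem_cons_self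
    rw [List.map_cons, List.cons_append, List.count_cons]
    by_cases hj : j = B
    · have h2 := (cW_sig hB hn j (l.map Letter.sig ++ v)).1
      have h3 : (j == B) = true := by simp [hj]
      rw [if_pos h3]
      push_cast
      linarith
    · have h2 := cW_sig_neutral hB hn j
        (fun hd => by
          have := Int.le_of_dvd hj0 hd
          omega)
        (fun hd => by
          obtain ⟨k, hk⟩ := hd
          rcases lt_trichotomy k 0 with hk0 | hk0 | hk0
          · nlinarith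
          · subst hk0
            apply hj
            linarith
          · nlinarith) (l.map Letter.sig ++ v)
      have h3 : ¬ (j == B) = true := by simpa using hj
      rw [h2, if_neg h3]
      push_cast
      linarith

theorem zj3_flat (l : List ℕ) :
    List.flatMap (fun a : ℕ => [(a : ℤ)]) l = l.map (fun a : ℕ => (a : ℤ)) := by
  induction l with
  | nil => rfl
  | cons a l ih => simp [List.flatMap_cons, ih]

theorem cW_wBeta (n B nE : ℕ) (hB : 0 < (B : ℤ)) (hn : (B : ℤ) < n) (hE : nE < B)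
    (v : List Letter) : cW hB hn v - 3 ≤ cW hB hn (wBeta n nE ++ v) := by
  have e : wBeta n nE ++ v = Letter.rhoI ::
      (((List.range (n - 1 - nE)).map fun i : ℕ => ((nE : ℤ) + 1 + i)).map Letter.sig ++
        (Letter.sig 0 :: v)) := by
    unfold wBeta
    rw [List.map_map]
    simp [Function.comp_def, zj3_flat, List.map_map]
  rw [e]
  have h1 := zj3_rhoI hB hn
    (((List.range (n - 1 - nE)).map fun i : ℕ => ((nE : ℤ) + 1 + i)).map Letter.sig ++
        (Letter.sig 0 :: v))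
  have h2 := zj3_list hB hn ((List.range (n - 1 - nE)).map fun i : ℕ => ((nE : ℤ) + 1 + i))
    (by
      intro j hj
      obtain ⟨i, hi, rfl⟩ := List.mem_map.1 hj
      have := List.mem_range.1 hi
      constructor
      · positivity
      · omega) (Letter.sig 0 :: v)
  have h3 := (cW_sig hB hn 0 v).1
  have hnd : ((List.range (n - 1 - nE)).map fun i : ℕ => ((nE : ℤ) + 1 + i)).Nodup := by
    apply List.Nodup.map _ List.nodup_range
    intro a b hab
    have h4 : ((nE : ℤ) + 1 + a) = ((nE : ℤ) + 1 + b) := hab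
    omega
  have h4 : ((((List.range (n - 1 - nE)).map fun i : ℕ => ((nE : ℤ) + 1 + i)).count (B : ℤ) : ℕ) : ℤ)
      ≤ 1 := by
    exact_mod_cast List.nodup_iff_count_le_one.1 hnd (B : ℤ)
  linarith

theorem cW_wV0 (n B nE k : ℕ) (hB : 0 < (B : ℤ)) (hn : (B : ℤ) < n) (hE : nE < B) :
    -(3 * k * nE : ℤ) ≤ cW hB hn (wV0 n nE k) := by
  have key : ∀ j : ℕ, -(3 * j : ℤ) ≤ cW hB hn (wpow (wBeta n nE) j) := by
    intro j
    induction j with
    | zero => simp [wpow, cW_nil]
    | succ j ih =>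
      rw [wpow]
      have := cW_wBeta n B nE hB hn hE (wpow (wBeta n nE) j)
      push_cast
      linarith
  have := key (nE * k)
  unfold wV0
  push_cast at this
  linarith

/-- the word of a product of commutators -/
def wComm (a b : List Letter) : List Letter := a ++ (b ++ (winv a ++ winv b))

def wProd : List (List Letter × List Letter) → List Letter
  | [] => []
  | p :: L => wComm p.1 p.2 ++ wProd L

theorem cW_wProd {n B : ℤ} (hB : 0 < B) (hn : B < n) (L : List (List Letter × List Letter))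
    (v : List Letter) : cW hB hn (wProd L ++ v) ≤ cW hB hn v + 2 * L.length * B := by
  induction L with
  | nil => simp [wProd]
  | cons p L ih =>
    have h1 := cW_append_le hB hn p.1 (p.2 ++ (winv p.1 ++ (winv p.2 ++ (wProd L ++ v))))
    have h2 := cW_append_le hB hn p.2 (winv p.1 ++ (winv p.2 ++ (wProd L ++ v)))
    have h3 := cW_append_le hB hn (winv p.1) (winv p.2 ++ (wProd L ++ v))
    have h4 := cW_append_le hB hn (winv p.2) (wProd L ++ v)
    have h5 := pW_add_le hB hn p.1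
    have h6 := pW_add_le hB hn p.2
    have e : wProd (p :: L) ++ v =
        p.1 ++ (p.2 ++ (winv p.1 ++ (winv p.2 ++ (wProd L ++ v)))) := by
      simp [wProd, wComm, List.append_assoc]
    rw [e, List.length_cons]
    push_cast
    nlinarith

theorem evW_wProd {n : ℤ} (hn : 2 ≤ n) (L : List (List Letter × List Letter)) :
    evW hn (wProd L) = (L.map fun p => cm (evW hn p.1) (evW hn p.2)).prod := by
  induction L with
  | nil => simp [wProd, evW]
  | cons p L ih =>
    rw [wProd, evW_append, ih, List.map_cons, List.prod_cons]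
    congr 1
    rw [wComm, evW_append, evW_append, evW_append, evW_winv, evW_winv, cm]
    simp [mul_assoc]

theorem cW_wpow_T {n B : ℤ} (hB : 0 < B) (hn : B < n) (m : ℕ) (v : List Letter) :
    cW hB hn (wpow (wT n) m ++ v) = cW hB hn v + m * B := by
  induction m with
  | zero => simp [wpow]
  | succ m ih =>
    rw [wpow, List.append_assoc, cW_T, ih]
    push_cast
    ring

theorem exists_wProd {n : ℤ} (hn : 2 ≤ n) (L : List (MulAut G × MulAut G))
    (hL : ∀ p ∈ L, ∃ u v : List Letter, evW hn u = p.1 ∧ evW hn v = p.2) :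
    ∃ LW : List (List Letter × List Letter),
      (L.map fun p => cm p.1 p.2).prod = evW hn (wProd LW) ∧ LW.length = L.length := by
  induction L with
  | nil => exact ⟨[], by simp [wProd, evW], rfl⟩
  | cons p L ih =>
    obtain ⟨LW, h1, h2⟩ := ih (fun q hq => hL q (List.mem_cons_of_mem _ hq))
    obtain ⟨u, v, hu, hv⟩ := hL p List.mem_cons_self
    refine ⟨(u, v) :: LW, ?_, by simp [h2]⟩
    rw [List.map_cons, List.prod_cons, h1, evW_wProd, evW_wProd, List.map_cons, List.prod_cons,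
      hu, hv]

/-- BLOCK Z -/
theorem block_Z (n B nE k K : ℕ) (hE : 2 ≤ nE) (hB : 2 ≤ B) (hEB : nE < B) (hn : B + 2 ≤ n)
    (hk : 3 * k * nE ≤ B) (hK : 1 ≤ K) (m : ℤ) (L : List (MulAut G × MulAut G))
    (hL : ∀ p ∈ L, ∃ u v : List Letter, evW (by omega : (2:ℤ) ≤ (n : ℤ)) u = p.1 ∧
      evW (by omega : (2:ℤ) ≤ (n : ℤ)) v = p.2)
    (f : MulAut G) (hf : (L.map fun p => cm p.1 p.2).prod = shG n ^ m * f)
    (g0 g1 : MulAut G) (hg0 : g0 (gL 0) = arc0 n nE k) (hg1 : g1 (gL 0) = arc1 n B K)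
    (hg1w : ∃ u : List Letter, evW (by omega : (2:ℤ) ≤ (n : ℤ)) u = g1)
    (hleft : g1⁻¹ (f⁻¹ (g0 (gL 0))) ∈ Subgroup.closure {g : G | ∃ j : ℤ, j ≤ 0 ∧ g = gL j}) :
    m ≤ 2 * L.length + 3 := by
  have hn2 : (2:ℤ) ≤ (n : ℤ) := by omega
  have hn3 : (3:ℤ) ≤ (n : ℤ) := by omega
  have hB0 : 0 < (B : ℤ) := by omega
  have hBn : (B : ℤ) < n := by omega
  rcases lt_or_ge m 0 with hm | hm
  · have : (0:ℤ) ≤ (L.length : ℤ) := by positivity
    linarith
  obtain ⟨m, rfl⟩ := Int.eq_ofNat_of_zero_le hm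
  obtain ⟨LW, hLW, hlen⟩ := exists_wProd hn2 L hL
  rw [hLW] at hf
  obtain ⟨u1, hu1⟩ := hg1w
  -- the word of `f`
  set T' : List Letter := winv (wpow (wT n) m) with hT'
  set uf : List Letter := T' ++ wProd LW with huf
  have hevf : evW hn2 uf = f := by
    rw [huf, evW_append, hT', evW_winv, evW_wpow, evW_wT, hf]
    simp
  -- (c)
  have hc1 : cW hB0 hBn (winv uf ++ wV0 n nE k) ≤ B := by
    have h1 : cW hB0 hBn (winv uf ++ wV0 n nE k) ≤ cW hB0 hBn u1 := by
      apply cW_arc_le hB0 hBn hn3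
      rw [evW_append, evW_winv, hevf, hu1]
      show g1⁻¹ (f⁻¹ (evW _ (wV0 n nE k) (gL 0))) ∈ _
      rw [evW_wV0 n nE k hE (by omega), ← hg0]
      exact hleft
    have h2 : cW hB0 hBn u1 = cW hB0 hBn (wV1 n B K) := by
      apply cW_arc_eq hB0 hBn hn3
      rw [hu1, evW_wV1 n B K hB hn hK, hg1]
    have h3 := cW_wV1 n B K hB0 hBn
    linarith
  have hc0 := cW_wV0 n B nE k hB0 hBn hEB
  have hk' : (3 * k * nE : ℤ) ≤ B := by exact_mod_cast hk
  -- (d)
  have h1 := cW_le_append hB0 hBn (winv uf) (wV0 n nE k)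
  rw [winv_winv] at h1
  have h2 := pW_add_le hB0 hBn uf
  have h3 := cW_append_le hB0 hBn (winv uf) uf
  have h4 : cW hB0 hBn (winv uf ++ uf) = 0 := by
    rw [← cW_nil hB0 hBn]
    apply cW_arc_eq hB0 hBn hn3
    rw [evW_append, evW_winv]
    simp [evW]
  have h5 : cW hB0 hBn (wProd LW) = cW hB0 hBn (wpow (wT n) m ++ uf) := by
    apply cW_arc_eq hB0 hBn hn3
    rw [evW_append, huf, evW_append, hT', evW_winv]
    simp
  rw [cW_wpow_T] at h5
  have h6 := cW_wProd hB0 hBn LW []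
  rw [List.append_nil, cW_nil, hlen] at h6
  have h7 : (m : ℤ) * B ≤ (2 * L.length + 3) * B := by nlinarith
  exact le_of_mul_le_mul_right h7 hB0

end

end MWC
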